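import Pool.Agent.Lib_MP_418a80_ab.FamDefs

/-!
# Interface between the subgroup `N` and the relative theorem

`NearOn N`: dominated near-`N`-invariant families in every corner given by fixed points of the
whole group.  `MoveOn N`: the same in diagonal corners, with families which are moved by some
element of `N`.  Both are proved from strict outerness for closed abelian `N` (`NIn.lean`).
-/

set_option autoImplicit false
set_option linter.unusedVariables false
set_option linter.unusedSectionVars false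

open Topology Filter MeasureTheory

namespace Pool.Agent.AbCoc

universe u v w

variable {A : Type u} [CStarAlgebra A] {K : Type v} [NormedAddCommGroup K]
  [InnerProductSpace ℂ K] [CompleteSpace K]
  {G : Type w} [Group G] [TopologicalSpace G] {T : TrAlg A K}

/-- near-`N`-invariant families in every corner `b1 A b2`, `b1`, `b2` fixed by the whole group,
bounded below, and dominated by a constant which does not depend on the compact set and on `κ` -/
def TrAct.NearOn (S : TrAct G T) (N : Set G) : Prop :=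
  ∀ b1 b2 : A, S.Fixed b1 → S.Fixed b2 → IsSelfAdjoint b1 → IsSelfAdjoint b2 → b1 ≠ 0 → b2 ≠ 0 →
    ∃ C c0 : ℝ, 0 < c0 ∧ ∀ D : Set G, IsCompact D → D ⊆ N → ∀ κ : ℝ, 0 < κ →
      ∃ (J : Type) (_ : Fintype J) (a x : J → A), (∀ i, a i = b1 * x i * b2) ∧
        c0 ≤ ∑ i, ‖T.ι (a i)‖ ^ 2 ∧
        (∀ s ∈ D, ∑ i, ‖T.ι (S.α s (a i) - a i)‖ ^ 2 ≤ κ) ∧
        (∀ z : A, ∑ i, ‖T.ι (a i * z)‖ ^ 2 ≤ C * ‖T.ι z‖ ^ 2) ∧
        (∀ z : A, ∑ i, ‖T.ι (z * a i)‖ ^ 2 ≤ C * ‖T.ι z‖ ^ 2)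

/-- near-`N`-invariant families in every diagonal corner `b A b`, `b` fixed by the whole group,
moved by an element of `N`, and dominated by a constant which does not depend on the compact set
and on `κ` -/
def TrAct.MoveOn (S : TrAct G T) (N : Set G) : Prop :=
  ∀ b : A, S.Fixed b → IsSelfAdjoint b → b ≠ 0 →
    ∃ C c0 : ℝ, 0 < c0 ∧ ∀ D : Set G, IsCompact D → D ⊆ N → ∀ κ : ℝ, 0 < κ →
      ∃ (J : Type) (_ : Fintype J) (a x : J → A), (∀ i, a i = b * x i * b) ∧
        (∃ g ∈ N, c0 ≤ ∑ i, ‖T.ι (S.α g (a i) - a i)‖ ^ 2) ∧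
        (∀ s ∈ D, ∑ i, ‖T.ι (S.α s (a i) - a i)‖ ^ 2 ≤ κ) ∧
        (∀ z : A, ∑ i, ‖T.ι (a i * z)‖ ^ 2 ≤ C * ‖T.ι z‖ ^ 2) ∧
        (∀ z : A, ∑ i, ‖T.ι (z * a i)‖ ^ 2 ≤ C * ‖T.ι z‖ ^ 2)

end Pool.Agent.AbCoc
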