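import Pool.Agent.Lib_MP_418a80_nm.NSO2
import Pool.Agent.Lib_MP_418a80_nm.NDefs
import Pool.Agent.Lib_MP_418a80_ab.WinOps

/-!
# Compact groups: the fixed point algebra meets every corner
-/

set_option autoImplicit false
set_option linter.unusedSectionVars false

open MeasureTheory Topology Filter
open scoped ENNReal

namespace Pool.Agent.AbCoc

universe u v w x z

section
variable {A : Type u} [CStarAlgebra A] {K : Type v} [NormedAddCommGroup K]
  [InnerProductSpace ℂ K] [CompleteSpace K]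
variable {N : Type w} [Group N] [TopologicalSpace N] [IsTopologicalGroup N]
  [SecondCountableTopology N] [LocallyCompactSpace N] [MeasurableSpace N] [BorelSpace N]
  (ν : Measure N) [ν.IsHaarMeasure] {T : TrAlg A K} (S : TrAct N T)

/-- uniform strong continuity of `π` on bounded sets -/
theorem TrAct.pi_small (C : ℝ) (ζ : Lp K 2 ν) (ε : ℝ) (hε : 0 < ε) :
    ∃ δ : ℝ, 0 < δ ∧ ∀ x : A, ‖x‖ ≤ C → ‖T.ι x‖ ≤ δ → ‖S.pi ν x ζ‖ ≤ ε := by
  let P : Submodule ℂ (Lp K 2 ν) :=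
    { carrier := {ζ | ∀ ε : ℝ, 0 < ε → ∃ δ : ℝ, 0 < δ ∧
        ∀ x : A, ‖x‖ ≤ C → ‖T.ι x‖ ≤ δ → ‖S.pi ν x ζ‖ ≤ ε}
      add_mem' := by
        intro ζ ζ' h h' ε hε
        obtain ⟨δ, hδ, h1⟩ := h (ε / 2) (by positivity)
        obtain ⟨δ', hδ', h2⟩ := h' (ε / 2) (by positivity)
        refine ⟨min δ δ', lt_min hδ hδ', fun x hx hx' => ?_⟩
        rw [map_add]
        refine (norm_add_le _ _).trans ?_
        have := h1 x hx (hx'.trans (min_le_left _ _))
        have := h2 x hx (hx'.trans (min_le_right _ _))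
        linarith
      zero_mem' := by
        intro ε hε
        refine ⟨1, one_pos, fun x _ _ => ?_⟩
        rw [map_zero, norm_zero]
        exact hε.le
      smul_mem' := by
        intro c ζ h ε hε
        obtain ⟨δ, hδ, h1⟩ := h (ε / (‖c‖ + 1)) (by positivity)
        refine ⟨δ, hδ, fun x hx hx' => ?_⟩
        rw [map_smul, norm_smul]
        have h2 := h1 x hx hx'
        rw [le_div_iff₀ (by positivity)] at h2
        nlinarith [norm_nonneg c, norm_nonneg (S.pi ν x ζ)] }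
  have hPc : IsClosed (P : Set (Lp K 2 ν)) := by
    rw [← isSeqClosed_iff_isClosed]
    intro z ζ hz hlim ε hε
    obtain ⟨n, hn⟩ := (Metric.tendsto_atTop.1 hlim (ε / (2 * (|C| + 1))) (by positivity))
    have hn' := hn n le_rfl
    rw [dist_eq_norm] at hn'
    obtain ⟨δ, hδ, h1⟩ := hz n (ε / 2) (by positivity)
    refine ⟨δ, hδ, fun x hx hx' => ?_⟩
    have h2 := h1 x hx hx'
    have h3 : S.pi ν x ζ = S.pi ν x (z n) - S.pi ν x (z n - ζ) := by
      rw [← map_sub]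
      congr 1
      abel
    rw [h3]
    refine (norm_sub_le _ _).trans ?_
    have h4 : ‖S.pi ν x (z n - ζ)‖ ≤ (|C| + 1) * (ε / (2 * (|C| + 1))) := by
      refine ((S.pi ν x).le_opNorm _).trans ?_
      refine mul_le_mul ((S.pi_norm_le ν x).trans (hx.trans ((le_abs_self C).trans (by linarith))))
        hn'.le (norm_nonneg _) (by positivity)
    have h5 : (|C| + 1) * (ε / (2 * (|C| + 1))) = ε / 2 := by
      field_simp
    linarith
  have hPtop : P = ⊤ := by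
    refine hJ_dense ν T P hPc fun ψ a => ?_
    intro ε hε
    refine ⟨ε / ((‖ψ‖ + 1) * (‖a‖ + 1)), by positivity, fun x _ hx' => ?_⟩
    refine (S.pi_hJ_le ν x ψ a).trans ?_
    rw [le_div_iff₀ (by positivity)] at hx'
    have h1 : ‖ψ‖ * (‖T.ι x‖ * ‖a‖) ≤ ‖T.ι x‖ * ((‖ψ‖ + 1) * (‖a‖ + 1)) := by
      have h2 : ‖ψ‖ * ‖a‖ ≤ (‖ψ‖ + 1) * (‖a‖ + 1) := by
        nlinarith [norm_nonneg ψ, norm_nonneg a]
      calc ‖ψ‖ * (‖T.ι x‖ * ‖a‖) = ‖T.ι x‖ * (‖ψ‖ * ‖a‖) := by ring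
        _ ≤ _ := mul_le_mul_of_nonneg_left h2 (norm_nonneg _)
    exact h1.trans hx'
  have h : ζ ∈ P := by
    rw [hPtop]
    trivial
  exact h ε hε

theorem TrAct.lam_pi (s : N) (x : A) :
    (lam ν K).U s * S.pi ν x = S.pi ν (S.α s x) * (lam ν K).U s := by
  ext1 ξ
  change (lam ν K).U s (S.pi ν x ξ) = S.pi ν (S.α s x) ((lam ν K).U s ξ)
  apply Lp.ext
  filter_upwards [lam_ae ν s (S.pi ν x ξ), ae_translate ν s⁻¹ (S.pi_ae ν x ξ),
    S.pi_ae ν (S.α s x) ((lam ν K).U s ξ), lam_ae ν s ξ] with t h1 h2 h3 h4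
  rw [h1, h2, h3, h4, ← S.mul, mul_inv_rev, inv_inv]

variable [CompactSpace N]

/-- `b1 A^N b2` does not vanish -/
theorem TrAct.exists_corner_of_compact (hSO : S.SO ν Set.univ) (b1 b2 : A) (hf1 : S.Fixed b1)
    (hf2 : S.Fixed b2) (h1 : b1 ≠ 0) (h2 : b2 ≠ 0) : ∃ x : A, b1 * S.E x * b2 ≠ 0 := by
  classical
  -- the projection onto the invariant vectors
  let Z : Submodule ℂ (Lp K 2 ν) :=
    { carrier := {ζ | ∀ s, (lam ν K).U s ζ = ζ}
      add_mem' := fun h h' s => by rw [map_add, h s, h' s]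
      zero_mem' := fun s => map_zero _
      smul_mem' := fun c ζ h s => by rw [map_smul, h s] }
  have hZc : IsClosed (Z : Set (Lp K 2 ν)) := by
    have : (Z : Set (Lp K 2 ν)) = ⋂ s, {ζ | (lam ν K).U s ζ = ζ} := by
      ext ζ
      rw [Set.mem_iInter]
      rfl
    rw [this]
    exact isClosed_iInter fun s => isClosed_eq ((lam ν K).U s).continuous continuous_id
  haveI : CompleteSpace Z := hZc.completeSpace_coe
  obtain ⟨p, hp⟩ : ∃ p : Lp K 2 ν →L[ℂ] Lp K 2 ν, p = Z.starProjection := ⟨_, rfl⟩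
  have hpZ : ∀ ζ, p ζ ∈ Z := fun ζ => by
    rw [hp]
    exact Z.starProjection_apply_mem ζ
  have hpfix : ∀ ζ ∈ Z, p ζ = ζ := fun ζ hζ => by
    rw [hp]
    exact Submodule.starProjection_eq_self_iff.2 hζ
  have hpsym : ∀ ζ ζ', inner ℂ (p ζ) ζ' = inner ℂ ζ (p ζ') := fun ζ ζ' => by
    rw [hp]
    exact Submodule.inner_starProjection_left_eq_right Z ζ ζ'
  -- an operator preserving `Z` together with its adjoint commutes with `p`
  have hcommp : ∀ X : Lp K 2 ν →L[ℂ] Lp K 2 ν, (∀ ζ ∈ Z, X ζ ∈ Z) →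
      (∀ ζ ∈ Z, (star X) ζ ∈ Z) → X * p = p * X := by
    intro X hX hX'
    have h3 := proj_commute Z {X, star X} (by
      rintro q (rfl | rfl)
      · exact Or.inr rfl
      · exact Or.inl (star_star _)) (by
      rintro q (rfl | rfl)
      · exact hX
      · exact hX')
    rw [hp]
    exact Set.mem_centralizer_iff.1 h3 X (Or.inl rfl)
  have hplam : ∀ s, (lam ν K).U s * p = p * (lam ν K).U s := by
    intro s
    refine hcommp _ (fun ζ hζ => ?_) (fun ζ hζ => ?_)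
    · rw [hζ s]
      exact hζ
    · rw [lam_star, hζ s⁻¹]
      exact hζ
  have hpb : ∀ b : A, S.Fixed b → S.pi ν b * p = p * S.pi ν b := by
    intro b hb
    have h3 : ∀ b : A, S.Fixed b → ∀ ζ ∈ Z, S.pi ν b ζ ∈ Z := by
      intro b hb ζ hζ s
      have h4 := congrArg (fun L : Lp K 2 ν →L[ℂ] Lp K 2 ν => L ζ) (S.lam_pi ν s b)
      change (lam ν K).U s (S.pi ν b ζ) = S.pi ν (S.α s b) ((lam ν K).U s ζ) at h4
      rw [h4, hb s, hζ s]
    refine hcommp _ (h3 b hb) ?_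
    rw [← S.pi_star ν]
    exact h3 _ (TrAct.Fixed.star S hb)
  -- the constant functions
  obtain ⟨f, hf⟩ : ∃ f : BoundedContinuousFunction N ℂ, ∀ t, f t = 1 :=
    ⟨BoundedContinuousFunction.const N 1, fun _ => rfl⟩
  have hfc : HasCompactSupport f := HasCompactSupport.of_compactSpace _
  have hlamf : ∀ s, (lam ν ℂ).U s (cv ν f hfc) = cv ν f hfc := by
    intro s
    apply Lp.ext
    filter_upwards [lam_ae ν s (cv ν f hfc), ae_translate ν s⁻¹ (cv_ae ν f hfc),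
      cv_ae ν f hfc] with t k1 k2 k3
    rw [k1, k2, k3, hf, hf]
  have hone : ∀ η : K, tens ν η (cv ν f hfc) ∈ Z := by
    intro η s
    have h3 := oneT_lam ν (ContinuousLinearMap.toSpanSingleton ℂ η) s (cv ν f hfc)
    rw [hlamf] at h3
    exact h3.symm
  have hfne : ‖cv ν f hfc‖ ≠ 0 := by
    intro h0
    have h3 : cv ν f hfc = 0 := norm_eq_zero.1 h0
    have h4 : (⇑(cv ν f hfc) : N → ℂ) =ᵐ[ν] fun _ => (0 : ℂ) := by
      rw [h3]
      exact Lp.coeFn_zero ℂ 2 ν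
    have h5 : ∀ᵐ t ∂ν, False := by
      filter_upwards [h4, cv_ae ν f hfc] with t k1 k2
      rw [k2, hf] at k1
      exact one_ne_zero k1
    have h6 : ν Set.univ = 0 := by
      have h7 := ae_iff.1 h5
      simpa using h7
    exact (isOpen_univ.measure_pos ν ⟨1, trivial⟩).ne' h6
  have hpne : ∀ b : A, S.Fixed b → b ≠ 0 → p * S.pi ν b ≠ 0 := by
    intro b hb hb0 h0
    have hL : ∃ η : K, T.Lm b η ≠ 0 := by
      refine ⟨T.ι 1, ?_⟩
      rw [T.Lm_ι, mul_one]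
      intro h3
      exact hb0 (T.inj (by rw [h3, map_zero]))
    obtain ⟨η, hη⟩ := hL
    have h3 : S.pi ν b (tens ν η (cv ν f hfc)) = tens ν (T.Lm b η) (cv ν f hfc) := by
      apply Lp.ext
      filter_upwards [S.pi_ae ν b (tens ν η (cv ν f hfc)), tens_ae ν η (cv ν f hfc),
        tens_ae ν (T.Lm b η) (cv ν f hfc)] with t k1 k2 k3
      rw [k1, k2, k3, map_smul, hb]
    have h4 : (p * S.pi ν b) (tens ν η (cv ν f hfc)) = 0 := by
      rw [h0]
      rfl
    change p (S.pi ν b (tens ν η (cv ν f hfc))) = 0 at h4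
    rw [h3, hpfix _ (hone _)] at h4
    have h5 := norm_tens ν (T.Lm b η) (cv ν f hfc)
    rw [h4, norm_zero] at h5
    rcases mul_eq_zero.1 h5.symm with h6 | h6
    · exact hfne h6
    · exact hη (norm_eq_zero.1 h6)
  -- the compression of `π(a)` depends only on `E a`
  have hEa : ∀ a : A, S.E a = 0 → p * S.pi ν a * p = 0 := by
    intro a ha
    have hinv : ∀ (g : N) (x : A), ∀ ζ ∈ Z, ∀ ζ' ∈ Z,
        inner ℂ (S.pi ν (S.α g x) ζ) ζ' = inner ℂ (S.pi ν x ζ) ζ' := by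
      intro g x ζ hζ ζ' hζ'
      have h4 := congrArg (fun L : Lp K 2 ν →L[ℂ] Lp K 2 ν => L ζ) (S.lam_pi ν g x)
      change (lam ν K).U g (S.pi ν x ζ) = S.pi ν (S.α g x) ((lam ν K).U g ζ) at h4
      rw [hζ g] at h4
      rw [← h4, (lam ν K).adj, hζ' g⁻¹]
    have hzero : ∀ ζ ∈ Z, ∀ ζ' ∈ Z, inner ℂ (S.pi ν a ζ) ζ' = 0 := by
      intro ζ hζ ζ' hζ'
      rw [← norm_eq_zero]
      refine le_antisymm (le_of_forall_pos_le_add fun ε hε => ?_) (norm_nonneg _)
      obtain ⟨δ, hδ, hsm⟩ := S.pi_small ν ‖a‖ ζ (ε / (‖ζ'‖ + 1)) (by positivity)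
      have hull := S.E_hull a
      obtain ⟨F, w, hw0, hw1, hlt⟩ := S.W.exists_average (T.ι a) (T.ι (S.E a)) hull δ hδ
      rw [ha, map_zero, sub_zero] at hlt
      have h5 : T.ι (S.avg F w a) = ∑ g ∈ F, w g • S.W.U g (T.ι a) := S.ι_avg F w a
      rw [← h5] at hlt
      have h6 := hsm (S.avg F w a) (S.norm_avg_le F w hw0 hw1 a) hlt.le
      have h7 : inner ℂ (S.pi ν (S.avg F w a) ζ) ζ' = inner ℂ (S.pi ν a ζ) ζ' := by
        unfold TrAct.avg
        rw [S.pi_sum ν]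
        have h8 : (∑ g ∈ F, S.pi ν (w g • S.α g a)) ζ
            = ∑ g ∈ F, (w g : ℂ) • S.pi ν (S.α g a) ζ := by
          rw [ContinuousLinearMap.sum_apply]
          refine Finset.sum_congr rfl fun g _ => ?_
          have h9 : w g • S.α g a = (w g : ℂ) • S.α g a := rfl
          rw [h9, S.pi_smul ν]
          rfl
        rw [h8, sum_inner]
        have h10 : ∀ g ∈ F, inner ℂ ((w g : ℂ) • S.pi ν (S.α g a) ζ) ζ'
            = (w g : ℂ) * inner ℂ (S.pi ν a ζ) ζ' := by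
          intro g _
          rw [inner_smul_left, Complex.conj_ofReal, hinv g a ζ hζ ζ' hζ']
        rw [Finset.sum_congr rfl h10, ← Finset.sum_mul, ← Complex.ofReal_sum, hw1,
          Complex.ofReal_one, one_mul]
      rw [← h7, zero_add]
      refine (norm_inner_le_norm _ _).trans ?_
      rw [le_div_iff₀ (by positivity)] at h6
      nlinarith [norm_nonneg (S.pi ν (S.avg F w a) ζ), norm_nonneg ζ']
    ext1 ζ
    change p (S.pi ν a (p ζ)) = 0
    refine ext_inner_right ℂ fun ζ' => ?_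
    rw [hpsym, inner_zero_left]
    exact hzero _ (hpZ ζ) _ (hpZ ζ')
  -- the factor argument
  obtain ⟨q, ⟨x, rfl⟩, hne⟩ := factor_argument (Set.range (S.pi ν)) (Set.range (lam ν K).U)
    ⟨1, S.pi_one ν⟩
    (by
      rintro _ ⟨x, rfl⟩ _ ⟨y, rfl⟩
      exact ⟨x * y, S.pi_mul ν x y⟩)
    (by
      rintro _ ⟨x, rfl⟩
      exact ⟨star x, S.pi_star ν x⟩)
    ⟨1, (lam ν K).one⟩
    (by
      rintro _ ⟨s, rfl⟩ _ ⟨t, rfl⟩
      exact ⟨s * t, (lam ν K).mul s t⟩)
    (by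
      rintro _ ⟨s, rfl⟩
      exact ⟨s⁻¹, (lam_star ν s).symm⟩)
    (by
      rintro _ ⟨s, rfl⟩ _ ⟨x, rfl⟩
      exact ⟨_, ⟨S.α s x, rfl⟩, S.lam_pi ν s x⟩)
    (by
      intro n hn hnc
      refine hSO n hn fun x _ => ?_
      exact hnc _ (Set.subset_centralizer_centralizer (Or.inl ⟨x, rfl⟩)))
    (S.pi ν b1) (S.pi ν b2) p p ⟨b1, rfl⟩ ⟨b2, rfl⟩
    (by
      rintro _ ⟨s, rfl⟩
      rw [S.lam_pi ν, hf2 s])
    (by
      rintro _ ⟨s, rfl⟩
      exact hplam s)
    (hpb b2 hf2).symm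
    (by
      rw [Set.mem_centralizer_iff]
      intro X hX
      rw [Set.mem_centralizer_iff] at hX
      have hXZ : ∀ X : Lp K 2 ν →L[ℂ] Lp K 2 ν, (∀ s, (lam ν K).U s * X = X * (lam ν K).U s) →
          ∀ ζ ∈ Z, X ζ ∈ Z := by
        intro X hX ζ hζ s
        have h4 := congrArg (fun L : Lp K 2 ν →L[ℂ] Lp K 2 ν => L ζ) (hX s)
        change (lam ν K).U s (X ζ) = X ((lam ν K).U s ζ) at h4
        rw [h4, hζ s]
      refine hcommp X (hXZ X fun s => hX _ (Or.inr ⟨s, rfl⟩)) (hXZ (star X) fun s => ?_)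
      have h4 := congrArg star (hX _ (Or.inr ⟨s⁻¹, rfl⟩))
      rw [star_mul, star_mul, lam_star, inv_inv] at h4
      exact h4.symm)
    (hpne b1 hf1 h1) (hpne b2 hf2 h2)
  refine ⟨x, fun h0 => hne ?_⟩
  have h3 : p * (S.pi ν b1 * S.pi ν x * S.pi ν b2) * p = p * S.pi ν (b1 * x * b2) * p := by
    rw [S.pi_mul ν, S.pi_mul ν]
  rw [h3]
  refine hEa _ ?_
  rw [S.E_mul_right hf2, S.E_mul_left hf1]
  exact h0

end

section near
variable {A : Type u} [CStarAlgebra A] {K : Type v} [NormedAddCommGroup K]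
  [InnerProductSpace ℂ K] [CompleteSpace K]
variable {G : Type w} [Group G] [TopologicalSpace G] {T : TrAlg A K} (S : TrAct G T)
variable {N : Type z} [Group N] [TopologicalSpace N] [IsTopologicalGroup N]
  [SecondCountableTopology N] [LocallyCompactSpace N] [MeasurableSpace N] [BorelSpace N]
  [CompactSpace N] (ν : Measure N) [ν.IsHaarMeasure] (j : N →* G) (hj : Continuous j)

theorem TrAct.nearOn_of_compact (hSO : (S.cm j hj).SO ν Set.univ) :
    S.NearOn (Set.range j) := by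
  intro b1 b2 hf1 hf2 hs1 hs2 h1 h2
  obtain ⟨x, hx⟩ := (S.cm j hj).exists_corner_of_compact ν hSO b1 b2 (S.cm_fixed j hj hf1)
    (S.cm_fixed j hj hf2) h1 h2
  obtain ⟨y, hy⟩ : ∃ y, y = (S.cm j hj).E x := ⟨_, rfl⟩
  obtain ⟨a, ha⟩ : ∃ a, a = b1 * y * b2 := ⟨_, rfl⟩
  have hane : a ≠ 0 := by
    rw [ha, hy]
    exact hx
  have hfix : ∀ n, S.α (j n) a = a := by
    intro n
    have h3 := (S.cm j hj).E_fixed x n
    rw [S.cm_α, ← hy] at h3
    rw [ha, map_mul, map_mul, hf1, hf2, h3]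
  have hpos : 0 < ‖T.ι a‖ ^ 2 := by
    have h3 : T.ι a ≠ 0 := fun h4 => hane (T.inj (by rw [h4, map_zero]))
    positivity
  refine ⟨‖a‖ ^ 2, ‖T.ι a‖ ^ 2, hpos, fun D hD hDN κ hκ => ?_⟩
  refine ⟨Unit, inferInstance, fun _ => a, fun _ => y, fun _ => ha, ?_, ?_, ?_, ?_⟩
  · simp
  · intro s hs
    obtain ⟨n, rfl⟩ := hDN hs
    simp only [hfix, sub_self, map_zero, norm_zero]
    simpa using hκ.le
  · intro z
    simp only [Finset.univ_unique, Finset.sum_const, Finset.card_singleton, one_smul]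
    rw [← mul_pow]
    exact pow_le_pow_left₀ (norm_nonneg _) (T.mul_le _ _) 2
  · intro z
    simp only [Finset.univ_unique, Finset.sum_const, Finset.card_singleton, one_smul]
    rw [← mul_pow, mul_comm ‖a‖]
    exact pow_le_pow_left₀ (norm_nonneg _) (T.mul_le' _ _) 2

end near

end Pool.Agent.AbCoc
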