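import Pool.Agent.Lib_MP_418a80_gap.Gap4

/-!
# Twisted central sequences and commutators

`Twist g x`: the bounded sequence `x` almost intertwines the identity and `α g`. If central
sequences commute (`CentralComm`, the absence of the McDuff property), then elements `g`, `h` with
non-null twisted sequences commute.
-/

set_option autoImplicit false
set_option linter.unusedVariables false
set_option linter.unusedSectionVars false

open Topology Filter MeasureTheory

namespace Pool.Agent.AbCoc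

universe u v w

section weak
variable {A : Type u} [CStarAlgebra A] {K : Type v} [NormedAddCommGroup K]
  [InnerProductSpace ℂ K] [CompleteSpace K] (T : TrAlg A K) {D : Type*}

/-- the closed convex hull of a bounded sequence of `A` in `K` lies in `A` -/
theorem TrAlg.mem_of_hull (x : D → A) (C : ℝ) (hx : ∀ n, ‖x n‖ ≤ C) (ξ : K)
    (hξ : ξ ∈ closure (convexHull ℝ (Set.range fun n => T.ι (x n)))) : ∃ w : A, T.ι w = ξ := by
  have h1 : convexHull ℝ (Set.range fun n => T.ι (x n)) ⊆ {η | ∃ a : A, ‖a‖ ≤ C ∧ T.ι a = η} := by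
    refine convexHull_min ?_ ?_
    · rintro _ ⟨n, rfl⟩
      exact ⟨x n, hx n, rfl⟩
    · rintro _ ⟨a, ha, rfl⟩ _ ⟨b, hb, rfl⟩ s t hs ht hst
      refine ⟨(s : ℂ) • a + (t : ℂ) • b, ?_, ?_⟩
      · refine (norm_add_le _ _).trans ?_
        rw [norm_smul, norm_smul, Complex.norm_real, Complex.norm_real, Real.norm_of_nonneg hs,
          Real.norm_of_nonneg ht]
        calc s * ‖a‖ + t * ‖b‖ ≤ s * C + t * C := add_le_add
              (mul_le_mul_of_nonneg_left ha hs) (mul_le_mul_of_nonneg_left hb ht)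
          _ = C := by rw [← add_mul, hst, one_mul]
      · rw [map_add, map_smul, map_smul]
        rfl
  obtain ⟨y, hy, hlim⟩ := mem_closure_iff_seq_limit.1 hξ
  choose a ha hay using fun n => h1 (hy n)
  have hlim' : Tendsto (fun n => T.ι (a n)) atTop (𝓝 ξ) := by
    refine hlim.congr fun n => (hay n).symm
  obtain ⟨w, hw⟩ := T.complete C a ha hlim'.cauchySeq
  exact ⟨w, tendsto_nhds_unique hw hlim'⟩

/-- bounded sequences have weak limits along ultrafilters -/
theorem TrAlg.exists_weak (U : Ultrafilter D) (x : D → A) (C : ℝ) (hx : ∀ n, ‖x n‖ ≤ C) :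
    ∃ w : A, ∀ p : A, Tendsto (fun n => T.τ (p * x n)) U (𝓝 (T.τ (p * w))) := by
  let _ : InnerProductSpace ℝ K := InnerProductSpace.rclikeToReal ℂ K
  -- the weak limit in `K`
  have hcomp := WeakDual.isCompact_closedBall (𝕜 := ℂ) (E := K) 0 C
  obtain ⟨f, hf⟩ : ∃ f : D → WeakDual ℂ K, f = fun n =>
      StrongDual.toWeakDual (InnerProductSpace.toDual ℂ K (T.ι (x n))) := ⟨_, rfl⟩
  have hmem : ∀ n, f n ∈ WeakDual.toStrongDual ⁻¹' Metric.closedBall (0 : StrongDual ℂ K) C := by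
    intro n
    rw [hf, Set.mem_preimage, mem_closedBall_zero_iff]
    change ‖InnerProductSpace.toDual ℂ K (T.ι (x n))‖ ≤ C
    rw [LinearIsometryEquiv.norm_map]
    exact (T.norm_le _).trans (hx n)
  obtain ⟨φ, hφ, hφl⟩ := hcomp.ultrafilter_le_nhds (U.map f)
    (by
      rw [le_principal_iff, Ultrafilter.coe_map, Filter.mem_map]
      exact Filter.univ_mem' hmem)
  obtain ⟨ξ, hξ⟩ : ∃ ξ : K, InnerProductSpace.toDual ℂ K ξ = WeakDual.toStrongDual φ :=
    ⟨(InnerProductSpace.toDual ℂ K).symm (WeakDual.toStrongDual φ),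
      LinearIsometryEquiv.apply_symm_apply _ _⟩
  have hlim : ∀ η : K, Tendsto (fun n => inner ℂ (T.ι (x n)) η) U (𝓝 (inner ℂ ξ η)) := by
    intro η
    have h1 : Tendsto (fun n => f n η) U (𝓝 (φ η)) := by
      have h2 := (WeakDual.eval_continuous (𝕜 := ℂ) (E := K) η).tendsto φ
      exact h2.comp hφl
    have h3 : inner ℂ ξ η = φ η := by
      have : InnerProductSpace.toDual ℂ K ξ η = φ η := by rw [hξ]; rfl
      rw [← this, InnerProductSpace.toDual_apply_apply]
    rw [h3]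
    refine h1.congr fun n => ?_
    rw [hf]
    change InnerProductSpace.toDual ℂ K (T.ι (x n)) η = _
    rw [InnerProductSpace.toDual_apply_apply]
  -- it belongs to the closed convex hull
  have hin : ξ ∈ closure (convexHull ℝ (Set.range fun n => T.ι (x n))) := by
    obtain ⟨s, hs⟩ : ∃ s : Set K, s = closure (convexHull ℝ (Set.range fun n => T.ι (x n))) :=
      ⟨_, rfl⟩
    have hsc : Convex ℝ s := by rw [hs]; exact (convex_convexHull ℝ _).closure
    have hxs : ∀ n, T.ι (x n) ∈ s := fun n => by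
      rw [hs]
      exact subset_closure (subset_convexHull ℝ _ ⟨n, rfl⟩)
    have hco : IsComplete s := by rw [hs]; exact isClosed_closure.isComplete
    obtain ⟨η, hη, hmin⟩ := exists_norm_eq_iInf_of_complete_convex 
      ⟨_, hxs (Filter.nonempty_of_neBot (U : Filter D)).some⟩ hco hsc ξ
    have h1 := (norm_eq_iInf_iff_real_inner_le_zero hsc hη).1 hmin
    have h2 : ∀ n, (inner ℂ (T.ι (x n)) (ξ - η)).re ≤ (inner ℂ η (ξ - η)).re := by
      intro n
      have h3 := h1 _ (hxs n)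
      rw [real_inner_eq_re_inner ℂ, ← inner_conj_symm, inner_sub_left] at h3
      simp only [RCLike.re_to_complex, Complex.conj_re, Complex.sub_re] at h3
      linarith
    have h3 : (inner ℂ ξ (ξ - η)).re ≤ (inner ℂ η (ξ - η)).re := by
      have h4 := (Complex.continuous_re.tendsto _).comp (hlim (ξ - η))
      exact le_of_tendsto' h4 h2
    have h4 : (inner ℂ (ξ - η) (ξ - η)).re ≤ 0 := by
      rw [inner_sub_left, Complex.sub_re]
      linarith
    rw [inner_self_eq_norm_sq_to_K] at h4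
    have h5 : ‖ξ - η‖ ^ 2 ≤ 0 := by exact_mod_cast h4
    have h6 : ξ - η = 0 := by
      rw [← norm_eq_zero]
      exact pow_eq_zero_iff two_ne_zero |>.1 (le_antisymm h5 (by positivity))
    rw [← hs, sub_eq_zero.1 h6]
    exact hη
  obtain ⟨w, hw⟩ := T.mem_of_hull x C hx ξ hin
  refine ⟨w, fun p => ?_⟩
  have h1 : ∀ y : A, T.τ (p * y) = (starRingEnd ℂ) (inner ℂ (T.ι y) (T.ι (star p))) := by
    intro y
    rw [inner_conj_symm, T.inner_eq_τ, star_star]
  simp only [h1]
  rw [hw]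
  exact (Complex.continuous_conj.tendsto _).comp (hlim _)

end weak

section nul
variable {A : Type u} [CStarAlgebra A] {K : Type v} [NormedAddCommGroup K]
  [InnerProductSpace ℂ K] (T : TrAlg A K) {D : Type*} {l : Filter D}

/-- null sequences in the `2`-norm -/
def TrAlg.Nul (l : Filter D) (f : D → A) : Prop := Tendsto (fun n => T.ι (f n)) l (𝓝 0)

variable {T}

theorem TrAlg.Nul.add {f g : D → A} (hf : T.Nul l f) (hg : T.Nul l g) :
    T.Nul l fun n => f n + g n := by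
  have := Tendsto.add hf hg
  rw [add_zero] at this
  exact this.congr fun n => (map_add _ _ _).symm

theorem TrAlg.Nul.sub {f g : D → A} (hf : T.Nul l f) (hg : T.Nul l g) :
    T.Nul l fun n => f n - g n := by
  have := Tendsto.sub hf hg
  rw [sub_zero] at this
  exact this.congr fun n => (map_sub _ _ _).symm

theorem TrAlg.Nul.neg {f : D → A} (hf : T.Nul l f) : T.Nul l fun n => -f n := by
  have := Tendsto.neg hf
  rw [neg_zero] at this
  exact this.congr fun n => (map_neg _ _).symm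

theorem TrAlg.Nul.mul_left {f : D → A} (hf : T.Nul l f) (b : D → A) (C : ℝ)
    (hb : ∀ n, ‖b n‖ ≤ C) : T.Nul l fun n => b n * f n := by
  have h1 := (tendsto_norm_zero.comp hf).const_mul C
  rw [mul_zero] at h1
  refine squeeze_zero_norm (fun n => ?_) h1
  exact (T.mul_le _ _).trans (mul_le_mul_of_nonneg_right (hb n) (norm_nonneg _))

theorem TrAlg.Nul.mul_right {f : D → A} (hf : T.Nul l f) (b : D → A) (C : ℝ)
    (hb : ∀ n, ‖b n‖ ≤ C) : T.Nul l fun n => f n * b n := by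
  have h1 := (tendsto_norm_zero.comp hf).mul_const C
  rw [zero_mul] at h1
  refine squeeze_zero_norm (fun n => ?_) h1
  exact (T.mul_le' _ _).trans (mul_le_mul_of_nonneg_left (hb n) (norm_nonneg _))

theorem TrAlg.Nul.cmul_left {f : D → A} (hf : T.Nul l f) (b : A) : T.Nul l fun n => b * f n :=
  hf.mul_left (fun _ => b) ‖b‖ fun _ => le_rfl

theorem TrAlg.Nul.cmul_right {f : D → A} (hf : T.Nul l f) (b : A) : T.Nul l fun n => f n * b :=
  hf.mul_right (fun _ => b) ‖b‖ fun _ => le_rfl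

theorem TrAlg.Nul.star {f : D → A} (hf : T.Nul l f) : T.Nul l fun n => star (f n) := by
  rw [TrAlg.Nul, tendsto_zero_iff_norm_tendsto_zero] at hf ⊢
  exact hf.congr fun n => (T.norm_star _).symm

theorem TrAlg.Nul.tau {f : D → A} (hf : T.Nul l f) : Tendsto (fun n => T.τ (f n)) l (𝓝 0) :=
  squeeze_zero_norm (fun n => T.norm_τ_le _) (tendsto_norm_zero.comp hf)

theorem TrAlg.Nul.tendsto {f g : D → A} (h : T.Nul l fun n => f n - g n) {z : ℂ}
    (hg : Tendsto (fun n => T.τ (g n)) l (𝓝 z)) : Tendsto (fun n => T.τ (f n)) l (𝓝 z) := by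
  have h1 := h.tau.add hg
  rw [zero_add] at h1
  refine h1.congr fun n => ?_
  rw [T.τ_sub, sub_add_cancel]

theorem TrAlg.Nul.congr {f g : D → A} (h : T.Nul l f) (e : ∀ n, f n = g n) : T.Nul l g :=
  Tendsto.congr (fun n => by rw [e n]) h

end nul

section scalar
variable {A : Type u} [CStarAlgebra A] {K : Type v} [NormedAddCommGroup K]
  [InnerProductSpace ℂ K] [CompleteSpace K] (T : TrAlg A K) {D : Type*}

/-- elements which are orthogonal to everything vanish -/
theorem TrAlg.eq_zero_of_τ (w : A) (h : ∀ p : A, T.τ (p * w) = 0) : w = 0 := by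
  have h1 : ‖T.ι w‖ ^ 2 = 0 := by rw [T.norm_sq, h]; rfl
  have h2 : T.ι w = 0 := norm_eq_zero.1 (pow_eq_zero_iff two_ne_zero |>.1 h1)
  exact T.inj (by rw [h2, map_zero])

/-- in a factor central sequences have scalar weak limits -/
theorem TrAlg.exists_scalar (hfac : ∀ x : A, (∀ y, x * y = y * x) → ∃ c : ℂ, x = c • (1 : A))
    (U : Ultrafilter D) (c : D → A) (C : ℝ) (hc : ∀ n, ‖c n‖ ≤ C)
    (hcen : ∀ u : A, T.Nul U fun n => u * c n - c n * u) :
    ∃ z : ℂ, ∀ p : A, Tendsto (fun n => T.τ (p * c n)) U (𝓝 (z * T.τ p)) := by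
  obtain ⟨w, hw⟩ := T.exists_weak U c C hc
  have hcomm : ∀ y, w * y = y * w := by
    intro y
    rw [← sub_eq_zero]
    refine T.eq_zero_of_τ _ fun p => ?_
    have h1 : Tendsto (fun n => T.τ (p * (c n * y))) U (𝓝 (T.τ (p * (w * y)))) := by
      have h2 := hw (y * p)
      have h3 : ∀ z : A, T.τ (y * p * z) = T.τ (p * (z * y)) := by
        intro z
        rw [mul_assoc y, T.τ_mul_comm, mul_assoc]
      simpa only [h3] using h2
    have h2 : Tendsto (fun n => T.τ (p * (c n * y))) U (𝓝 (T.τ (p * (y * w)))) := by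
      refine TrAlg.Nul.tendsto (g := fun n => p * (y * c n)) ?_ ?_
      · refine ((hcen y).cmul_left p).neg.congr fun n => ?_
        noncomm_ring
      · have h3 := hw (p * y)
        simpa only [mul_assoc] using h3
    have h3 := tendsto_nhds_unique h1 h2
    rw [mul_sub, T.τ_sub, h3, sub_self]
  obtain ⟨z, hz⟩ := hfac w hcomm
  refine ⟨z, fun p => ?_⟩
  have h1 := hw p
  rwa [hz, mul_smul_comm, mul_one, T.τ_smul] at h1

/-- central sequences commute: the algebra does not have the McDuff property -/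
def TrAlg.CentralComm : Prop :=
  ∀ ε : ℝ, 0 < ε → ∃ (F : Finset A) (δ : ℝ), 0 < δ ∧ ∀ x y : A, ‖x‖ ≤ 1 → ‖y‖ ≤ 1 →
    (∀ f ∈ F, ‖T.ι (f * x - x * f)‖ ≤ δ) → (∀ f ∈ F, ‖T.ι (f * y - y * f)‖ ≤ δ) →
    ‖T.ι (x * y - y * x)‖ ≤ ε

variable {T}

theorem TrAlg.CentralComm.scale (h : T.CentralComm) (C : ℝ) (hC : 0 < C) (ε : ℝ) (hε : 0 < ε) :
    ∃ (F : Finset A) (δ : ℝ), 0 < δ ∧ ∀ x y : A, ‖x‖ ≤ C → ‖y‖ ≤ C →
    (∀ f ∈ F, ‖T.ι (f * x - x * f)‖ ≤ δ) → (∀ f ∈ F, ‖T.ι (f * y - y * f)‖ ≤ δ) →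
    ‖T.ι (x * y - y * x)‖ ≤ ε := by
  obtain ⟨F, δ, hδ, hF⟩ := h (ε / C ^ 2) (by positivity)
  refine ⟨F, δ * C, by positivity, fun x y hx hy h1 h2 => ?_⟩
  have hn : ‖((C⁻¹ : ℝ) : ℂ)‖ = C⁻¹ := by
    rw [Complex.norm_real, Real.norm_of_nonneg (by positivity)]
  have hb : ∀ z : A, ‖z‖ ≤ C → ‖((C⁻¹ : ℝ) : ℂ) • z‖ ≤ 1 := by
    intro z hz
    rw [norm_smul, hn]
    calc C⁻¹ * ‖z‖ ≤ C⁻¹ * C := mul_le_mul_of_nonneg_left hz (by positivity)
      _ = 1 := inv_mul_cancel₀ hC.ne'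
  have hc : ∀ z : A, (∀ f ∈ F, ‖T.ι (f * z - z * f)‖ ≤ δ * C) → ∀ f ∈ F,
      ‖T.ι (f * (((C⁻¹ : ℝ) : ℂ) • z) - (((C⁻¹ : ℝ) : ℂ) • z) * f)‖ ≤ δ := by
    intro z hz f hf
    rw [mul_smul_comm, smul_mul_assoc, ← smul_sub, map_smul, norm_smul, hn]
    calc C⁻¹ * ‖T.ι (f * z - z * f)‖ ≤ C⁻¹ * (δ * C) :=
          mul_le_mul_of_nonneg_left (hz f hf) (by positivity)
      _ = δ := by field_simp
  have h3 := hF _ _ (hb x hx) (hb y hy) (hc x h1) (hc y h2)
  rw [smul_mul_smul_comm, smul_mul_smul_comm, ← smul_sub, map_smul, norm_smul, norm_mul, hn] at h3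
  rw [le_div_iff₀ (by positivity)] at h3
  calc ‖T.ι (x * y - y * x)‖ = C⁻¹ * C⁻¹ * ‖T.ι (x * y - y * x)‖ * C ^ 2 := by field_simp
    _ ≤ ε := h3

end scalar

section twist
variable {A : Type u} [CStarAlgebra A] {K : Type v} [NormedAddCommGroup K]
  [InnerProductSpace ℂ K] {T : TrAlg A K} {D : Type*}
variable {G : Type w} [Group G] [TopologicalSpace G] (S : TrAct G T)

/-- bounded sequences which almost intertwine the identity and `α g` along the filter `l` -/
structure TrAct.Twist (l : Filter D) (g : G) (x : D → A) : Prop where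
  bdd : ∃ C : ℝ, ∀ n, ‖x n‖ ≤ C
  tw : ∀ u : A, T.Nul l fun n => u * x n - x n * S.α g u

variable {S}

theorem TrAct.Twist.mono {l l' : Filter D} (h : l' ≤ l) {g : G} {x : D → A}
    (hx : S.Twist l g x) : S.Twist l' g x :=
  ⟨hx.bdd, fun u => Tendsto.mono_left (hx.tw u) h⟩

variable {l : Filter D} {g : G} {x : D → A}

theorem TrAct.Twist.right (hx : S.Twist l g x) (v : A) :
    T.Nul l fun n => x n * v - S.α g⁻¹ v * x n := by
  refine (hx.tw (S.α g⁻¹ v)).neg.congr fun n => ?_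
  rw [S.apply_inv]
  abel

theorem TrAct.Twist.starL (hx : S.Twist l g x) (u : A) :
    T.Nul l fun n => star (x n) * u - S.α g u * star (x n) := by
  refine (hx.tw (star u)).star.congr fun n => ?_
  rw [star_sub, star_mul, star_mul, star_star, map_star, star_star]

theorem TrAct.Twist.starR (hx : S.Twist l g x) (v : A) :
    T.Nul l fun n => v * star (x n) - star (x n) * S.α g⁻¹ v := by
  refine (hx.starL (S.α g⁻¹ v)).neg.congr fun n => ?_
  rw [S.apply_inv]
  abel

theorem TrAct.Twist.bdd' (hx : S.Twist l g x) : ∃ C : ℝ, 0 < C ∧ ∀ n, ‖x n‖ ≤ C := by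
  obtain ⟨C, hC⟩ := hx.bdd
  exact ⟨max C 1, lt_max_of_lt_right one_pos, fun n => (hC n).trans (le_max_left _ _)⟩

/-- `x x*` is central -/
theorem TrAct.Twist.cen (hx : S.Twist l g x) (u : A) :
    T.Nul l fun n => u * (x n * star (x n)) - (x n * star (x n)) * u := by
  obtain ⟨C, hC0, hC⟩ := hx.bdd'
  refine (((hx.tw u).mul_right (fun n => star (x n)) C fun n => by
    rw [norm_star]; exact hC n).sub ((hx.starL u).mul_left x C hC)).congr fun n => ?_
  noncomm_ring

/-- `x* x` is central -/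
theorem TrAct.Twist.cen' (hx : S.Twist l g x) (u : A) :
    T.Nul l fun n => u * (star (x n) * x n) - (star (x n) * x n) * u := by
  obtain ⟨C, hC0, hC⟩ := hx.bdd'
  refine (((hx.starR u).mul_right x C hC).sub ((hx.right u).mul_left (fun n => star (x n)) C
    fun n => by rw [norm_star]; exact hC n)).congr fun n => ?_
  noncomm_ring

/-- translates of twisted sequences -/
theorem TrAct.Twist.translate (hx : S.Twist l g x) (h : G) :
    S.Twist l (h * g * h⁻¹) fun n => S.α h (x n) := by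
  obtain ⟨C, hC⟩ := hx.bdd
  refine ⟨⟨C, fun n => (S.norm_le _ _).trans (hC n)⟩, fun u => ?_⟩
  have h1 := hx.tw (S.α h⁻¹ u)
  rw [TrAlg.Nul, tendsto_zero_iff_norm_tendsto_zero] at h1 ⊢
  refine h1.congr fun n => ?_
  rw [← S.norm_map h, map_sub, map_mul, map_mul, S.apply_inv, ← S.mul, ← S.mul]

end twist

section main
variable {A : Type u} [CStarAlgebra A] {K : Type v} [NormedAddCommGroup K]
  [InnerProductSpace ℂ K] [CompleteSpace K] {T : TrAlg A K} {D : Type*}
variable {G : Type w} [Group G] [TopologicalSpace G] {S : TrAct G T}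

/-- in a factor with outer action there are no intertwiners -/
theorem TrAct.eq_zero_of_intertwine
    (hfac : ∀ x : A, (∀ y, x * y = y * x) → ∃ c : ℂ, x = c • (1 : A))
    (hout : S.Outer) (k : G) (hk : k ≠ 1) (w : A) (hw : ∀ m : A, m * w = w * S.α k m) :
    w = 0 := by
  by_contra hne
  have hw' : ∀ m : A, star w * m = S.α k m * star w := by
    intro m
    have h1 := congrArg star (hw (star m))
    rwa [star_mul, star_mul, star_star, map_star, star_star] at h1
  obtain ⟨c, hc⟩ := hfac (w * star w) (by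
    intro y
    rw [mul_assoc, hw', ← mul_assoc, ← hw, mul_assoc])
  have hpos : 0 < ‖T.ι (star w)‖ ^ 2 := by
    rw [T.norm_star]
    have : T.ι w ≠ 0 := fun h => hne (T.inj (by rw [h, map_zero]))
    positivity
  have hcre : c = ((‖T.ι (star w)‖ ^ 2 : ℝ) : ℂ) := by
    have h1 : T.τ (w * star w) = c := by rw [hc, T.τ_smul, T.τ_one, mul_one]
    have h2 : T.τ (star (star w) * star w) = ((‖T.ι (star w)‖ ^ 2 : ℝ) : ℂ) := by
      rw [← T.inner_eq_τ, inner_self_eq_norm_sq_to_K]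
      push_cast
      rfl
    rw [star_star] at h2
    rw [← h1, h2]
  obtain ⟨r, hr⟩ : ∃ r : ℝ, r = ‖T.ι (star w)‖ := ⟨_, rfl⟩
  rw [← hr] at hcre hpos
  have hr0 : r ≠ 0 := fun h => by rw [h] at hpos; simp at hpos
  obtain ⟨v, hv⟩ : ∃ v : A, v = ((r⁻¹ : ℝ) : ℂ) • w := ⟨_, rfl⟩
  have hs : star v = ((r⁻¹ : ℝ) : ℂ) • star w := by
    rw [hv, star_smul]
    congr 1
    exact Complex.conj_ofReal _
  have h1 : v * star v = 1 := by
    rw [hs, hv, smul_mul_smul_comm, hc, hcre, smul_smul]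
    have : ((r⁻¹ : ℝ) : ℂ) * ((r⁻¹ : ℝ) : ℂ) * ((r ^ 2 : ℝ) : ℂ) = 1 := by
      rw [← Complex.ofReal_mul, ← Complex.ofReal_mul]
      have : r⁻¹ * r⁻¹ * r ^ 2 = 1 := by field_simp
      rw [this, Complex.ofReal_one]
    rw [this, one_smul]
  have h2 : star v * v = 1 := by
    have h3 : ‖T.ι (1 - star v * v)‖ ^ 2 = 0 := by
      rw [T.norm_sq]
      have e1 : star (1 - star v * v) * (1 - star v * v) = 1 - star v * v := by
        rw [star_sub, star_one, star_mul, star_star]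
        have : star v * v * (star v * v) = star v * v := by
          rw [mul_assoc, ← mul_assoc v, h1, one_mul]
        rw [sub_mul, mul_sub, mul_sub, this]
        noncomm_ring
      rw [e1, T.τ_sub, T.τ_mul_comm (star v) v, h1, sub_self]
      rfl
    have h4 : T.ι (1 - star v * v) = 0 := norm_eq_zero.1 (pow_eq_zero_iff two_ne_zero |>.1 h3)
    have h5 : 1 - star v * v = 0 := T.inj (by rw [h4, map_zero])
    exact (sub_eq_zero.1 h5).symm
  refine hout k hk ⟨v, h2, h1, fun m => ?_⟩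
  rw [hv, mul_smul_comm, hw, smul_mul_assoc]

/-- the limit of `x* W x V` -/
theorem TrAct.Twist.limit {U : Ultrafilter D} {g : G} {x : D → A} (hx : S.Twist U g x) {z : ℂ}
    (hz : ∀ p : A, Tendsto (fun n => T.τ (p * (x n * star (x n)))) U (𝓝 (z * T.τ p))) (W V : A) :
    Tendsto (fun n => T.τ (star (x n) * W * x n * V)) U (𝓝 (z * T.τ (W * S.α g⁻¹ V))) := by
  obtain ⟨C, hC0, hC⟩ := hx.bdd'
  refine TrAlg.Nul.tendsto (g := fun n => star (x n) * (W * S.α g⁻¹ V) * x n) ?_ ?_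
  · refine (((hx.right V).cmul_left W).mul_left (fun n => star (x n)) C
      fun n => by rw [norm_star]; exact hC n).congr fun n => ?_
    noncomm_ring
  · have h1 := hz (W * S.α g⁻¹ V)
    refine h1.congr fun n => ?_
    rw [← mul_assoc, T.τ_mul_comm, ← mul_assoc]

/-- the commutator lemma: commuting central sequences force twisting elements to commute -/
theorem TrAct.comm_of_twist [SemilatticeSup D] [Nonempty D] (hfac : ∀ x : A, (∀ y, x * y = y * x) → ∃ c : ℂ, x = c • (1 : A))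
    (hout : S.Outer) (hcc : T.CentralComm) {g h : G} {x y : D → A} (hx : S.Twist atTop g x)
    (hy : S.Twist atTop h y) (hxn : ¬ T.Nul atTop x) (hyn : ¬ T.Nul atTop y) : g * h = h * g := by
  by_contra hne
  have hk : g⁻¹ * h⁻¹ * g * h ≠ 1 := by
    intro h1
    apply hne
    have h2 : g * h = h * g * (g⁻¹ * h⁻¹ * g * h) := by group
    rw [h1, mul_one] at h2
    exact h2
  -- ultrafilters
  have hult : ∀ {x : D → A}, ¬ T.Nul atTop x → ∃ (e : ℝ) (U : Ultrafilter D), 0 < e ∧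
      (U : Filter D) ≤ atTop ∧ (∀ᶠ n in U, e ≤ ‖T.ι (x n)‖) ∧
      ∃ᶠ n in atTop, e ≤ ‖T.ι (x n)‖ := by
    intro x hxn
    rw [TrAlg.Nul, Metric.tendsto_nhds] at hxn
    push Not at hxn
    obtain ⟨e, he, hfr⟩ := hxn
    have hfr' : ∃ᶠ n in atTop, e ≤ ‖T.ι (x n)‖ := by
      refine hfr.mono fun n hn => ?_
      rwa [dist_zero_right] at hn
    have hne : NeBot (atTop ⊓ 𝓟 {n | e ≤ ‖T.ι (x n)‖}) := by
      rw [← frequently_mem_iff_neBot]
      exact hfr'
    refine ⟨e, Ultrafilter.of (atTop ⊓ 𝓟 {n | e ≤ ‖T.ι (x n)‖}), he, ?_, ?_, hfr'⟩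
    · exact (Ultrafilter.of_le _).trans inf_le_left
    · exact ((Ultrafilter.of_le _).trans inf_le_right) (mem_principal_self _)
  obtain ⟨ex, Ux, hex, hUx, hexU, hexf⟩ := hult hxn
  obtain ⟨ey, Uy, hey, hUy, heyU, -⟩ := hult hyn
  have hx' := hx.mono hUx
  have hy' := hy.mono hUy
  obtain ⟨Cx, hCx0, hCx⟩ := hx.bdd'
  obtain ⟨Cy, hCy0, hCy⟩ := hy.bdd'
  have hCxs : ∀ n, ‖star (x n)‖ ≤ Cx := fun n => by rw [norm_star]; exact hCx n
  have hCys : ∀ n, ‖star (y n)‖ ≤ Cy := fun n => by rw [norm_star]; exact hCy n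
  have hbm : ∀ {a b : A} {C B : ℝ}, ‖a‖ ≤ C → ‖b‖ ≤ B → 0 < C → ‖a * b‖ ≤ C * B := by
    intro a b C B h1 h2 hC
    exact (norm_mul_le _ _).trans (mul_le_mul h1 h2 (norm_nonneg _) hC.le)
  -- scalar limits
  obtain ⟨lx, hlx⟩ := T.exists_scalar hfac Ux (fun n => x n * star (x n)) (Cx * Cx)
    (fun n => hbm (hCx n) (hCxs n) hCx0) hx'.cen
  obtain ⟨ly, hly⟩ := T.exists_scalar hfac Uy (fun n => y n * star (y n)) (Cy * Cy)
    (fun n => hbm (hCy n) (hCys n) hCy0) hy'.cen
  have hlow : ∀ {x : D → A} {U : Ultrafilter D} {e : ℝ} {z : ℂ}, 0 < e →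
      (∀ᶠ n in U, e ≤ ‖T.ι (x n)‖) →
      (∀ p : A, Tendsto (fun n => T.τ (p * (x n * star (x n)))) U (𝓝 (z * T.τ p))) →
      z = ((z.re : ℝ) : ℂ) ∧ e ^ 2 ≤ z.re := by
    intro x U e z he h1 h2
    have h3 := h2 1
    simp only [one_mul, T.τ_one, mul_one] at h3
    have h4 : ∀ n, T.τ (x n * star (x n)) = ((‖T.ι (x n)‖ ^ 2 : ℝ) : ℂ) := by
      intro n
      rw [← T.norm_star, T.τ_mul_comm, T.norm_star, ← T.inner_eq_τ, inner_self_eq_norm_sq_to_K]
      push_cast
      rfl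
    simp only [h4] at h3
    have h5 : Tendsto (fun n => ‖T.ι (x n)‖ ^ 2) U (𝓝 z.re) := by
      have := (Complex.continuous_re.tendsto z).comp h3
      exact this
    have h6 : Tendsto (fun n : D => (0 : ℝ)) U (𝓝 z.im) := by
      have := (Complex.continuous_im.tendsto z).comp h3
      exact this
    have h7 : z.im = 0 := (tendsto_nhds_unique h6 tendsto_const_nhds)
    refine ⟨?_, ?_⟩
    · apply Complex.ext
      · rw [Complex.ofReal_re]
      · rw [Complex.ofReal_im, h7]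
    · refine ge_of_tendsto h5 (h1.mono fun n hn => ?_)
      exact pow_le_pow_left₀ he.le hn 2
  obtain ⟨hlxr, hlx2⟩ := hlow hex hexU hlx
  obtain ⟨hlyr, hly2⟩ := hlow hey heyU hly
  -- the twisted limit vanishes
  have hzero : ∀ p : A, Tendsto (fun n => T.τ (p * (S.α h⁻¹ (x n) * star (x n)))) Ux (𝓝 0) := by
    obtain ⟨w, hw⟩ := T.exists_weak Ux (fun n => S.α h⁻¹ (x n) * star (x n)) (Cx * Cx)
      (fun n => hbm ((S.norm_le _ _).trans (hCx n)) (hCxs n) hCx0)
    have hw0 : w = 0 := by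
      refine TrAct.eq_zero_of_intertwine hfac hout (g⁻¹ * h⁻¹ * g * h) hk w fun m => ?_
      rw [← sub_eq_zero]
      refine T.eq_zero_of_τ _ fun p => ?_
      have h1 : Tendsto (fun n => T.τ (p * (m * (S.α h⁻¹ (x n) * star (x n))))) Ux
          (𝓝 (T.τ (p * (m * w)))) := by
        have := hw (p * m)
        simpa only [mul_assoc] using this
      have h2 : Tendsto (fun n => T.τ (p * (m * (S.α h⁻¹ (x n) * star (x n))))) Ux
          (𝓝 (T.τ (p * (w * S.α (g⁻¹ * h⁻¹ * g * h) m)))) := by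
        refine TrAlg.Nul.tendsto
          (g := fun n => p * (S.α h⁻¹ (x n) * star (x n) * S.α (g⁻¹ * h⁻¹ * g * h) m)) ?_ ?_
        · have h3 := hx'.translate h⁻¹
          have h4 := ((h3.tw m).mul_right (fun n => star (x n)) Cx hCxs).cmul_left p
          have h5 := ((hx'.starR (S.α (h⁻¹ * g * h⁻¹⁻¹) m)).mul_left (fun n => S.α h⁻¹ (x n)) Cx
            (fun n => (S.norm_le _ _).trans (hCx n))).cmul_left p
          refine (h4.add h5).congr fun n => ?_
          have h6 : S.α g⁻¹ (S.α (h⁻¹ * g * h⁻¹⁻¹) m) = S.α (g⁻¹ * h⁻¹ * g * h) m := by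
            rw [← S.mul]
            congr 2
            group
          rw [h6]
          noncomm_ring
        · have h3 := hw (S.α (g⁻¹ * h⁻¹ * g * h) m * p)
          have h4 : ∀ z : A, T.τ (S.α (g⁻¹ * h⁻¹ * g * h) m * p * z)
              = T.τ (p * (z * S.α (g⁻¹ * h⁻¹ * g * h) m)) := by
            intro z
            rw [mul_assoc, T.τ_mul_comm, mul_assoc]
          simpa only [h4] using h3
      have h3 := tendsto_nhds_unique h1 h2
      rw [mul_sub, T.τ_sub, h3, sub_self]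
    intro p
    have h1 := hw p
    rwa [hw0, mul_zero, show T.τ (0 : A) = 0 by unfold TrAlg.τ; rw [map_zero, inner_zero_right]]
      at h1
  -- choose the accuracy
  obtain ⟨ε, hε, hεlt⟩ : ∃ ε : ℝ, 0 < ε ∧ ε ^ 2 < ex ^ 2 * ex ^ 2 * (ey ^ 2 * ey ^ 2) := by
    refine ⟨ex ^ 2 * ey ^ 2 / 2, by positivity, ?_⟩
    have : 0 < ex ^ 2 * ey ^ 2 := by positivity
    nlinarith
  obtain ⟨C, hC0, hCx2, hCy2⟩ : ∃ C : ℝ, 0 < C ∧ Cx * Cx ≤ C ∧ Cy * Cy ≤ C :=
    ⟨max (Cx * Cx) (Cy * Cy), lt_max_of_lt_left (by positivity), le_max_left _ _,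
      le_max_right _ _⟩
  obtain ⟨F, δ, hδ, hF⟩ := hcc.scale C hC0 ε hε
  -- products of twisted sequences are central
  have hcent : ∀ {x : D → A} {g : G} {B : ℝ}, 0 < B → (∀ n, ‖x n‖ ≤ B) → S.Twist atTop g x →
      ∃ N : D, ∀ m ≥ N, ∀ n ≥ N, ∀ f ∈ F,
        ‖T.ι (f * (star (x m) * x n) - (star (x m) * x n) * f)‖ ≤ δ := by
    intro x g B hD hxD hx
    have h1 : ∀ᶠ n in atTop, ∀ f ∈ F, ‖T.ι (f * star (x n) - star (x n) * S.α g⁻¹ f)‖
        ≤ δ / (2 * B) := by
      rw [Filter.eventually_all_finset]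
      intro f _
      have := tendsto_norm_zero.comp (hx.starR f)
      exact (this.eventually (gt_mem_nhds (by positivity))).mono fun n hn => hn.le
    have h2 : ∀ᶠ n in atTop, ∀ f ∈ F, ‖T.ι (x n * f - S.α g⁻¹ f * x n)‖ ≤ δ / (2 * B) := by
      rw [Filter.eventually_all_finset]
      intro f _
      have := tendsto_norm_zero.comp (hx.right f)
      exact (this.eventually (gt_mem_nhds (by positivity))).mono fun n hn => hn.le
    obtain ⟨N, hN⟩ := eventually_atTop.1 (h1.and h2)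
    refine ⟨N, fun m hm n hn f hf => ?_⟩
    have e1 : f * (star (x m) * x n) - (star (x m) * x n) * f
        = (f * star (x m) - star (x m) * S.α g⁻¹ f) * x n
          - star (x m) * (x n * f - S.α g⁻¹ f * x n) := by noncomm_ring
    rw [e1, map_sub]
    refine (norm_sub_le _ _).trans ?_
    have e2 : ‖T.ι ((f * star (x m) - star (x m) * S.α g⁻¹ f) * x n)‖ ≤ δ / (2 * B) * B :=
      (T.mul_le' _ _).trans (mul_le_mul ((hN m hm).1 f hf) (hxD n) (norm_nonneg _)
        (by positivity))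
    have e3 : ‖T.ι (star (x m) * (x n * f - S.α g⁻¹ f * x n))‖ ≤ B * (δ / (2 * B)) :=
      (T.mul_le _ _).trans (mul_le_mul (by rw [norm_star]; exact hxD m) ((hN n hn).2 f hf)
        (norm_nonneg _) hD.le)
    have e4 : δ / (2 * B) * B + B * (δ / (2 * B)) = δ := by field_simp; ring
    linarith
  obtain ⟨N1, hN1⟩ := hcent hCx0 hCx hx
  obtain ⟨N2, hN2⟩ := hcent hCy0 hCy hy
  obtain ⟨N, hN⟩ : ∃ N : D, N = N1 ⊔ N2 := ⟨_, rfl⟩
  have hNx : N1 ≤ N := by rw [hN]; exact le_sup_left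
  have hNy : N2 ≤ N := by rw [hN]; exact le_sup_right
  -- the basic inequality
  have hbasic : ∀ n1 ≥ N, ∀ n2 ≥ N, ∀ n3 ≥ N, ∀ n4 ≥ N,
      (T.τ (star (y n4) * (y n2 * star (x n3) * (x n1 * star (x n1)) * x n3 * star (y n2))
          * y n4 * 1)).re
        - 2 * (T.τ (star (y n4) * (y n2 * star (x n3) * x n1 * star (y n2)) * y n4
          * (star (x n1) * x n3))).re ≤ ε ^ 2 := by
    intro n1 h1 n2 h2 n3 h3 n4 h4
    obtain ⟨a, ha⟩ : ∃ a : A, a = star (x n1) * x n3 := ⟨_, rfl⟩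
    obtain ⟨b, hb⟩ : ∃ b : A, b = star (y n2) * y n4 := ⟨_, rfl⟩
    have h5 : ‖T.ι (a * b - b * a)‖ ≤ ε := by
      refine hF a b ?_ ?_ ?_ ?_
      · rw [ha]; exact (hbm (hCxs n1) (hCx n3) hCx0).trans hCx2
      · rw [hb]; exact (hbm (hCys n2) (hCy n4) hCy0).trans hCy2
      · rw [ha]; exact hN1 n1 (hNx.trans h1) n3 (hNx.trans h3)
      · rw [hb]; exact hN2 n2 (hNy.trans h2) n4 (hNy.trans h4)
    have h6 : ‖T.ι (a * b - b * a)‖ ^ 2 ≤ ε ^ 2 := pow_le_pow_left₀ (norm_nonneg _) h5 2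
    have h7 : ‖T.ι (a * b - b * a)‖ ^ 2
        = ‖T.ι (a * b)‖ ^ 2 - 2 * (inner ℂ (T.ι (a * b)) (T.ι (b * a))).re
          + ‖T.ι (b * a)‖ ^ 2 := by
      rw [map_sub, @norm_sub_sq ℂ]
      rfl
    have h8 : ‖T.ι (a * b)‖ ^ 2 = (T.τ (star (y n4) * (y n2 * star (x n3)
        * (x n1 * star (x n1)) * x n3 * star (y n2)) * y n4 * 1)).re := by
      rw [T.norm_sq, ha, hb]
      congr 2
      simp only [star_mul, star_star, mul_assoc, mul_one]
    have h9 : inner ℂ (T.ι (a * b)) (T.ι (b * a)) = T.τ (star (y n4)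
        * (y n2 * star (x n3) * x n1 * star (y n2)) * y n4 * (star (x n1) * x n3)) := by
      rw [T.inner_eq_τ, ha, hb]
      congr 1
      simp only [star_mul, star_star, mul_assoc]
    rw [h7, h8, h9] at h6
    have h10 : 0 ≤ ‖T.ι (b * a)‖ ^ 2 := by positivity
    linarith
  have hev : ∀ {U : Ultrafilter D}, (U : Filter D) ≤ atTop → ∀ᶠ n in U, n ≥ N :=
    fun h => h (eventually_ge_atTop N)
  -- the limit over the fourth index
  have hstep4 : ∀ n1 ≥ N, ∀ n2 ≥ N, ∀ n3 ≥ N,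
      (ly * T.τ (y n2 * star (x n3) * (x n1 * star (x n1)) * x n3 * star (y n2))).re
        - 2 * (ly * T.τ (y n2 * star (x n3) * x n1 * star (y n2)
          * S.α h⁻¹ (star (x n1) * x n3))).re ≤ ε ^ 2 := by
    intro n1 h1 n2 h2 n3 h3
    have l1 := hy'.limit hly (y n2 * star (x n3) * (x n1 * star (x n1)) * x n3 * star (y n2)) 1
    have l2 := hy'.limit hly (y n2 * star (x n3) * x n1 * star (y n2)) (star (x n1) * x n3)
    rw [map_one, mul_one] at l1
    have l3 := ((Complex.continuous_re.tendsto _).comp l1).sub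
      (((Complex.continuous_re.tendsto _).comp l2).const_mul 2)
    refine le_of_tendsto l3 ((hev hUy).mono fun n4 h4 => ?_)
    exact hbasic n1 h1 n2 h2 n3 h3 n4 h4
  -- the limit over the third index
  have hstep3 : ∀ n1 ≥ N, ∀ n2 ≥ N,
      (ly * (lx * T.τ (x n1 * star (x n1) * S.α g⁻¹ (star (y n2) * y n2)))).re ≤ ε ^ 2 := by
    intro n1 h1 n2 h2
    have l1 : Tendsto (fun n3 => T.τ (y n2 * star (x n3) * (x n1 * star (x n1)) * x n3
        * star (y n2))) Ux
        (𝓝 (lx * T.τ (x n1 * star (x n1) * S.α g⁻¹ (star (y n2) * y n2)))) := by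
      refine (hx'.limit hlx (x n1 * star (x n1)) (star (y n2) * y n2)).congr fun n3 => ?_
      rw [show y n2 * star (x n3) * (x n1 * star (x n1)) * x n3 * star (y n2)
        = y n2 * (star (x n3) * (x n1 * star (x n1)) * x n3 * star (y n2)) by
          simp only [mul_assoc], T.τ_mul_comm (y n2)]
      simp only [mul_assoc]
    have l2 : Tendsto (fun n3 => T.τ (y n2 * star (x n3) * x n1 * star (y n2)
          * S.α h⁻¹ (star (x n1) * x n3))) Ux (𝓝 0) := by
      have l3 := hzero (S.α g⁻¹ (y n2) * (x n1 * star (y n2) * S.α h⁻¹ (star (x n1))))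
      refine TrAlg.Nul.tendsto (g := fun n3 => (star (x n3) * S.α g⁻¹ (y n2))
        * (x n1 * star (y n2) * S.α h⁻¹ (star (x n1))) * S.α h⁻¹ (x n3)) ?_ ?_
      · refine (((hx'.starR (y n2)).cmul_right (x n1 * star (y n2)
          * S.α h⁻¹ (star (x n1)))).mul_right (fun n3 => S.α h⁻¹ (x n3)) Cx
          (fun n => (S.norm_le _ _).trans (hCx n))).congr fun n3 => ?_
        simp only [map_mul, sub_mul, mul_assoc]
      · refine l3.congr fun n3 => ?_
        rw [show (star (x n3) * S.α g⁻¹ (y n2))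
          * (x n1 * star (y n2) * S.α h⁻¹ (star (x n1))) * S.α h⁻¹ (x n3)
          = star (x n3) * ((S.α g⁻¹ (y n2) * (x n1 * star (y n2) * S.α h⁻¹ (star (x n1))))
            * S.α h⁻¹ (x n3)) by simp only [mul_assoc], T.τ_mul_comm (star (x n3))]
        simp only [mul_assoc]
    have l3 := ((Complex.continuous_re.tendsto _).comp (l1.const_mul ly)).sub
      (((Complex.continuous_re.tendsto _).comp (l2.const_mul ly)).const_mul 2)
    rw [mul_zero, Complex.zero_re, mul_zero, sub_zero] at l3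
    refine le_of_tendsto l3 ((hev hUx).mono fun n3 h3 => ?_)
    exact hstep4 n1 h1 n2 h2 n3 h3
  -- the limit over the second index
  have hstep2 : ∀ n1 ≥ N, (ly * (lx * (ly * T.τ (x n1 * star (x n1))))).re ≤ ε ^ 2 := by
    intro n1 h1
    have l1 : Tendsto (fun n2 => T.τ (x n1 * star (x n1) * S.α g⁻¹ (star (y n2) * y n2))) Uy
        (𝓝 (ly * T.τ (x n1 * star (x n1)))) := by
      obtain ⟨z, hz⟩ := T.exists_scalar hfac Uy (fun n => S.α g⁻¹ (star (y n) * y n)) (Cy * Cy)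
        (fun n => (S.norm_le _ _).trans (hbm (hCys n) (hCy n) hCy0)) (fun u => by
          have h2 := hy'.cen' (S.α g u)
          rw [TrAlg.Nul, tendsto_zero_iff_norm_tendsto_zero] at h2 ⊢
          refine h2.congr fun n => ?_
          rw [← S.norm_map g⁻¹]
          simp only [map_sub, map_mul, S.inv_apply])
      have h2 := hz 1
      have h3 := hly 1
      simp only [one_mul, T.τ_one, mul_one] at h2 h3
      have h4 : ∀ n, T.τ (S.α g⁻¹ (star (y n) * y n)) = T.τ (y n * star (y n)) := by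
        intro n
        have h5 := S.inner_map g⁻¹ 1 (star (y n) * y n)
        rw [map_one] at h5
        exact h5.trans (T.τ_mul_comm _ _)
      simp only [h4] at h2
      have h5 : z = ly := tendsto_nhds_unique h2 h3
      rw [← h5]
      exact hz _
    have l2 := (Complex.continuous_re.tendsto _).comp ((l1.const_mul lx).const_mul ly)
    refine le_of_tendsto l2 ((hev hUy).mono fun n2 h2 => ?_)
    exact hstep3 n1 h1 n2 h2
  obtain ⟨n1, h1, h2⟩ := (hexf.and_eventually (eventually_ge_atTop N)).exists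
  have h3 := hstep2 n1 h2
  have h4 : T.τ (x n1 * star (x n1)) = ((‖T.ι (x n1)‖ ^ 2 : ℝ) : ℂ) := by
    rw [← T.norm_star, T.τ_mul_comm, T.norm_star, ← T.inner_eq_τ, inner_self_eq_norm_sq_to_K]
    push_cast
    rfl
  rw [h4, hlxr, hlyr, ← Complex.ofReal_mul, ← Complex.ofReal_mul, ← Complex.ofReal_mul,
    Complex.ofReal_re] at h3
  have h5 : ex ^ 2 ≤ ‖T.ι (x n1)‖ ^ 2 := pow_le_pow_left₀ hex.le h1 2
  have hlx0 : 0 ≤ lx.re := le_trans (by positivity) hlx2
  have hly0 : 0 ≤ ly.re := le_trans (by positivity) hly2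
  have h6 : ex ^ 2 * ex ^ 2 * (ey ^ 2 * ey ^ 2)
      ≤ ly.re * (lx.re * (ly.re * ‖T.ι (x n1)‖ ^ 2)) := by
    calc ex ^ 2 * ex ^ 2 * (ey ^ 2 * ey ^ 2) = ey ^ 2 * (ex ^ 2 * (ey ^ 2 * ex ^ 2)) := by ring
      _ ≤ _ := by gcongr
  linarith

end main

section has
variable {A : Type u} [CStarAlgebra A] {K : Type v} [NormedAddCommGroup K]
  [InnerProductSpace ℂ K] {T : TrAlg A K}
variable {G : Type w} [Group G] [TopologicalSpace G] (S : TrAct G T)

/-- `g` has bounded almost intertwiners which are bounded below in the `2`-norm -/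
def TrAct.HasTwist (g : G) : Prop :=
  ∃ C c : ℝ, 0 < c ∧ ∀ (F : Finset A) (δ : ℝ), 0 < δ → ∃ x : A, ‖x‖ ≤ C ∧ c ≤ ‖T.ι x‖ ∧
    ∀ u ∈ F, ‖T.ι (u * x - x * S.α g u)‖ ≤ δ

variable {S}

theorem TrAct.HasTwist.exists_net {g : G} (h : S.HasTwist g) :
    ∃ x : Finset A × ℕ → A, S.Twist atTop g x ∧ ¬ T.Nul atTop x := by
  classical
  obtain ⟨C, c, hc, hx⟩ := h
  choose x hx1 hx2 hx3 using fun d : Finset A × ℕ => hx d.1 (1 / ((d.2 : ℝ) + 1)) (by positivity)
  refine ⟨x, ⟨⟨C, hx1⟩, fun u => ?_⟩, fun hnul => ?_⟩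
  · rw [TrAlg.Nul, Metric.tendsto_atTop]
    intro ε hε
    obtain ⟨n, hn⟩ := exists_nat_one_div_lt hε
    refine ⟨({u}, n), fun d hd => ?_⟩
    rw [dist_zero_right]
    refine (hx3 d u (hd.1 (Finset.mem_singleton_self u))).trans_lt (lt_of_le_of_lt ?_ hn)
    apply one_div_le_one_div_of_le (by positivity)
    have : (n : ℝ) ≤ (d.2 : ℝ) := by exact_mod_cast hd.2
    linarith
  · have h1 := (tendsto_norm_zero.comp hnul).eventually (gt_mem_nhds hc)
    obtain ⟨d, hd⟩ := h1.exists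
    exact absurd (hx2 d) (not_le.2 hd)

theorem TrAct.HasTwist.conj {g : G} (hg : S.HasTwist g) (h : G) : S.HasTwist (h * g * h⁻¹) := by
  classical
  obtain ⟨C, c, hc, hx⟩ := hg
  refine ⟨C, c, hc, fun F δ hδ => ?_⟩
  obtain ⟨x, h1, h2, h3⟩ := hx (F.image fun u => S.α h⁻¹ u) δ hδ
  refine ⟨S.α h x, (S.norm_le _ _).trans h1, by rwa [S.norm_map], fun u hu => ?_⟩
  have h4 := h3 _ (Finset.mem_image_of_mem _ hu)
  rw [← S.norm_map h] at h4
  simp only [map_sub, map_mul, S.apply_inv] at h4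
  have h5 : S.α h (S.α g (S.α h⁻¹ u)) = S.α (h * g * h⁻¹) u := by rw [S.mul, S.mul]
  rw [h5] at h4
  rwa [map_sub]

theorem TrAct.HasTwist.inv {g : G} (hg : S.HasTwist g) : S.HasTwist g⁻¹ := by
  classical
  obtain ⟨C, c, hc, hx⟩ := hg
  refine ⟨C, c, hc, fun F δ hδ => ?_⟩
  obtain ⟨x, h1, h2, h3⟩ := hx (F.image fun u => star u) δ hδ
  refine ⟨S.α g⁻¹ (star x), (S.norm_le _ _).trans (by rwa [norm_star]),
    by rwa [S.norm_map, T.norm_star], fun u hu => ?_⟩
  have h4 := h3 _ (Finset.mem_image_of_mem _ hu)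
  have h5 : u * S.α g⁻¹ (star x) - S.α g⁻¹ (star x) * S.α g⁻¹ u
      = -S.α g⁻¹ (star (star u * x - x * S.α g (star u))) := by
    simp only [star_sub, star_mul, star_star, map_sub, map_mul, map_star, S.inv_apply]
    abel
  rw [h5, map_neg, norm_neg, S.norm_map, T.norm_star]
  exact h4

variable [CompleteSpace K]

/-- elements with almost intertwiners commute if central sequences commute -/
theorem TrAct.HasTwist.comm (hfac : ∀ x : A, (∀ y, x * y = y * x) → ∃ c : ℂ, x = c • (1 : A))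
    (hout : S.Outer) (hcc : T.CentralComm) {g h : G} (hg : S.HasTwist g) (hh : S.HasTwist h) :
    g * h = h * g := by
  classical
  obtain ⟨x, hx, hxn⟩ := hg.exists_net
  obtain ⟨y, hy, hyn⟩ := hh.exists_net
  exact TrAct.comm_of_twist hfac hout hcc hx hy hxn hyn

end has

end Pool.Agent.AbCoc
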