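import Pool.Agent.Lib_MP_418a80_nm.NmStmt
import Pool.Agent.Lib_MP_418a80_nm.Comm
import Pool.Agent.Lib_MP_418a80_ab.ActOf
import Pool.Agent.Lib_MP_418a80_ab.Final

/-!
# Twisted central sequences: from the tracial algebra to the von Neumann algebra
-/

set_option autoImplicit false
set_option linter.unusedVariables false
set_option linter.unusedSectionVars false

open MeasureTheory Topology Filter TopologicalSpace

namespace Pool.Agent.AbCoc

universe u v

variable {H : Type u} [NormedAddCommGroup H] [InnerProductSpace ℂ H] [CompleteSpace H]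
  {M : VonNeumannAlgebra H}

/-- on bounded sequences the `2`-norm and the strong topology agree -/
theorem null_iff (ξ : ℕ → H) (h : IsTracialFamily M ξ) (x : ℕ → Alg M) (C : ℝ)
    (hC : ∀ n, ‖x n‖ ≤ C) :
    IsNullSequence (fun n => (x n : H →L[ℂ] H)) ↔
      Tendsto (fun n => (trAlgOf M ξ h).ι (x n)) atTop (𝓝 0) := by
  obtain ⟨f, hf⟩ : ∃ f : OnePoint ℕ → Alg M, f = fun p => p.elim 0 x := ⟨_, rfl⟩
  have hf1 : ∀ n : ℕ, f (n : OnePoint ℕ) = x n := fun n => by rw [hf]; rfl
  have hf2 : f OnePoint.infty = 0 := by rw [hf]; rfl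
  have hC0 : 0 ≤ C := (norm_nonneg _).trans (hC 0)
  have hfC : ∀ p, ‖f p‖ ≤ C := by
    intro p
    induction p using OnePoint.rec with
    | infty => rw [hf2, norm_zero]; exact hC0
    | coe n => rw [hf1]; exact hC n
  constructor
  · intro hx
    have h1 : Continuous fun p => (trAlgOf M ξ h).ι (f p) := by
      refine two_of_strong M ξ h f C hfC fun η => ?_
      rw [OnePoint.continuous_iff_from_nat]
      simp only [hf1, hf2]
      exact hx η
    rw [OnePoint.continuous_iff_from_nat] at h1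
    simp only [hf1, hf2, map_zero] at h1
    exact h1
  · intro hx η
    have h1 : Continuous fun p => (f p : H →L[ℂ] H) η := by
      refine strong_of_two M ξ h f C hfC ?_ η
      rw [OnePoint.continuous_iff_from_nat]
      simp only [hf1, hf2, map_zero]
      exact hx
    rw [OnePoint.continuous_iff_from_nat] at h1
    simp only [hf1, hf2] at h1
    exact h1

/-- a `2`-norm dense sequence -/
theorem TrAlg.exists_dense {A : Type u} [CStarAlgebra A] {K : Type v} [NormedAddCommGroup K]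
    [InnerProductSpace ℂ K] [SeparableSpace K] (T : TrAlg A K) :
    ∃ a : ℕ → A, ∀ (y : A) (ε : ℝ), 0 < ε → ∃ k, ‖T.ι (y - a k)‖ < ε := by
  haveI : SecondCountableTopology K := UniformSpace.secondCountable_of_separable K
  haveI : Nonempty (Set.range T.ι) := ⟨⟨T.ι 0, 0, rfl⟩⟩
  haveI : SeparableSpace (Set.range T.ι) := inferInstance
  choose a ha using fun n => (denseSeq (Set.range T.ι) n).2
  refine ⟨a, fun y ε hε => ?_⟩
  obtain ⟨k, hk⟩ := (denseRange_denseSeq (Set.range T.ι)).exists_dist_lt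
    (⟨T.ι y, y, rfl⟩ : Set.range T.ι) hε
  refine ⟨k, ?_⟩
  rw [map_sub, ha, ← dist_eq_norm]
  exact hk

/-- twisted commutators with a dense sequence suffice -/
theorem TrAlg.tendsto_twist {A : Type u} [CStarAlgebra A] {K : Type v} [NormedAddCommGroup K]
    [InnerProductSpace ℂ K] (T : TrAlg A K) (θ : A → A) (hθ : ∀ a b, θ (a - b) = θ a - θ b)
    (hθ2 : ∀ a, ‖T.ι (θ a)‖ = ‖T.ι a‖) (a : ℕ → A)
    (ha : ∀ (y : A) (ε : ℝ), 0 < ε → ∃ k, ‖T.ι (y - a k)‖ < ε) (x : ℕ → A) (C : ℝ)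
    (hC : ∀ n, ‖x n‖ ≤ C)
    (hx : ∀ n k, k ≤ n → ‖T.ι (a k * x n - x n * θ (a k))‖ ≤ 1 / ((n : ℝ) + 1)) (y : A) :
    Tendsto (fun n => T.ι (y * x n - x n * θ y)) atTop (𝓝 0) := by
  rw [Metric.tendsto_atTop]
  intro ε hε
  have hC0 : 0 ≤ C := (norm_nonneg _).trans (hC 0)
  obtain ⟨k, hk⟩ := ha y (ε / (4 * (C + 1))) (by positivity)
  obtain ⟨n0, hn0⟩ := exists_nat_one_div_lt (show 0 < ε / 2 by positivity)
  refine ⟨max n0 k, fun n hn => ?_⟩
  rw [dist_zero_right]
  have h1 := hx n k ((le_max_right _ _).trans hn)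
  have h2 : 1 / ((n : ℝ) + 1) ≤ 1 / ((n0 : ℝ) + 1) := by
    apply one_div_le_one_div_of_le (by positivity)
    have : (n0 : ℝ) ≤ n := by exact_mod_cast (le_max_left _ _).trans hn
    linarith
  have e : y * x n - x n * θ y = (y - a k) * x n - x n * θ (y - a k)
      + (a k * x n - x n * θ (a k)) := by
    rw [hθ]
    noncomm_ring
  rw [e, map_add, map_sub]
  refine (norm_add_le _ _).trans_lt ?_
  have h3 : ‖T.ι ((y - a k) * x n)‖ ≤ ‖T.ι (y - a k)‖ * C :=
    (T.mul_le' _ _).trans (mul_le_mul_of_nonneg_left (hC n) (norm_nonneg _))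
  have h4 : ‖T.ι (x n * θ (y - a k))‖ ≤ C * ‖T.ι (y - a k)‖ := by
    refine (T.mul_le _ _).trans ?_
    rw [hθ2]
    exact mul_le_mul_of_nonneg_right (hC n) (norm_nonneg _)
  have h5 : ‖T.ι ((y - a k) * x n) - T.ι (x n * θ (y - a k))‖
      ≤ 2 * (C * ‖T.ι (y - a k)‖) := by
    refine (norm_sub_le _ _).trans ?_
    linarith
  have h6 : 2 * (C * ‖T.ι (y - a k)‖) ≤ ε / 2 := by
    have h7 : (C + 1) * ‖T.ι (y - a k)‖ ≤ (C + 1) * (ε / (4 * (C + 1))) :=
      mul_le_mul_of_nonneg_left hk.le (by positivity)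
    have h8 : (C + 1) * (ε / (4 * (C + 1))) = ε / 4 := by field_simp
    nlinarith [norm_nonneg (T.ι (y - a k))]
  linarith

section
variable [SeparableSpace H] (ξ : ℕ → H) (h : IsTracialFamily M ξ)
variable {G : Type v} [Group G] [TopologicalSpace G] {α : G → (H →L[ℂ] H) → (H →L[ℂ] H)}

theorem L2_separable : SeparableSpace (L2 M ξ h) := by
  haveI : SeparableSpace (lp (fun _ : ℕ => H) 2) := lp_separable
  infer_instance

/-- almost intertwiners give twisted central sequences -/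
theorem hasTwistedCentral_of_hasTwist
    (hfac : ∀ x ∈ M, (∀ y ∈ M, x * y = y * x) → ∃ c : ℂ, x = c • (1 : H →L[ℂ] H))
    (hα : IsAction M α) {g : G} (hg : (actOf ξ h hfac hα).HasTwist g) :
    HasTwistedCentral M (α g) := by
  classical
  haveI := L2_separable (M := M) ξ h
  obtain ⟨a, ha⟩ := (trAlgOf M ξ h).exists_dense
  obtain ⟨C, c, hc, hx⟩ := hg
  choose x hx1 hx2 hx3 using fun n : ℕ =>
    hx ((Finset.range (n + 1)).image a) (1 / ((n : ℝ) + 1)) (by positivity)
  refine ⟨fun n => (x n : H →L[ℂ] H), ⟨fun n => (x n).2, ⟨C, fun n => hx1 n⟩, ?_⟩, ?_⟩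
  · intro y hy
    have h1 := (trAlgOf M ξ h).tendsto_twist (fun b => (actOf ξ h hfac hα).α g b)
      (fun b b' => map_sub _ _ _) (fun b => (actOf ξ h hfac hα).norm_map g b) a ha x C hx1
      (fun n k hk => hx3 n (a k) (Finset.mem_image_of_mem a (Finset.mem_range.2
        (Nat.lt_succ_of_le hk)))) ⟨y, hy⟩
    have h2 := (null_iff ξ h (fun n => (⟨y, hy⟩ : Alg M) * x n
      - x n * (actOf ξ h hfac hα).α g ⟨y, hy⟩) (‖(⟨y, hy⟩ : Alg M)‖ * C + C * ‖(⟨y, hy⟩ : Alg M)‖)
      (fun n => by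
        refine (norm_sub_le _ _).trans (add_le_add ?_ ?_)
        · exact (norm_mul_le _ _).trans (mul_le_mul_of_nonneg_left (hx1 n) (norm_nonneg _))
        · refine (norm_mul_le _ _).trans ?_
          exact mul_le_mul (hx1 n) ((actOf ξ h hfac hα).norm_le g _) (norm_nonneg _)
            ((norm_nonneg _).trans (hx1 n)))).2 h1
    exact h2
  · intro hnull
    have h1 := (null_iff ξ h x C hx1).1 hnull
    have h2 := (tendsto_norm_zero.comp h1).eventually (gt_mem_nhds hc)
    obtain ⟨n, hn⟩ := h2.exists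
    exact absurd (hx2 n) (not_le.2 hn)

/-- if the central sequences commute, they commute uniformly -/
theorem centralComm_of_seq (hcc : CentralSequencesCommute M) :
    (trAlgOf M ξ h).CentralComm := by
  classical
  haveI := L2_separable (M := M) ξ h
  obtain ⟨a, ha⟩ := (trAlgOf M ξ h).exists_dense
  by_contra hcon
  unfold TrAlg.CentralComm at hcon
  push Not at hcon
  obtain ⟨ε, hε, hcon⟩ := hcon
  choose x y hx hy hx2 hy2 hxy using fun n : ℕ =>
    hcon ((Finset.range (n + 1)).image a) (1 / ((n : ℝ) + 1)) (by positivity)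
  have hcen : ∀ z : ℕ → Alg M, (∀ n, ‖z n‖ ≤ 1) →
      (∀ n, ∀ f ∈ (Finset.range (n + 1)).image a,
        ‖(trAlgOf M ξ h).ι (f * z n - z n * f)‖ ≤ 1 / ((n : ℝ) + 1)) →
      IsTwistedCentral M id (fun n => (z n : H →L[ℂ] H)) := by
    intro z hz hz2
    refine ⟨fun n => (z n).2, ⟨1, fun n => hz n⟩, fun w hw => ?_⟩
    have h1 := (trAlgOf M ξ h).tendsto_twist (fun b => b) (fun _ _ => rfl) (fun _ => rfl) a ha z 1
      hz (fun n k hk => hz2 n (a k) (Finset.mem_image_of_mem a (Finset.mem_range.2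
        (Nat.lt_succ_of_le hk)))) ⟨w, hw⟩
    have h2 := (null_iff ξ h (fun n => (⟨w, hw⟩ : Alg M) * z n - z n * ⟨w, hw⟩)
      (‖(⟨w, hw⟩ : Alg M)‖ * 1 + 1 * ‖(⟨w, hw⟩ : Alg M)‖)
      (fun n => by
        refine (norm_sub_le _ _).trans (add_le_add ?_ ?_)
        · exact (norm_mul_le _ _).trans (mul_le_mul_of_nonneg_left (hz n) (norm_nonneg _))
        · exact (norm_mul_le _ _).trans (mul_le_mul_of_nonneg_right (hz n) (norm_nonneg _)))).2 h1
    exact h2
  have h1 := hcc _ _ (hcen x hx hx2) (hcen y hy hy2)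
  have h2 := (null_iff ξ h (fun n => x n * y n - y n * x n) 2 (fun n => by
    refine (norm_sub_le _ _).trans ?_
    have h3 : ‖x n * y n‖ ≤ 1 * 1 := (norm_mul_le _ _).trans
      (mul_le_mul (hx n) (hy n) (norm_nonneg _) zero_le_one)
    have h4 : ‖y n * x n‖ ≤ 1 * 1 := (norm_mul_le _ _).trans
      (mul_le_mul (hy n) (hx n) (norm_nonneg _) zero_le_one)
    linarith)).1 h1
  have h3 := (tendsto_norm_zero.comp h2).eventually (gt_mem_nhds hε)
  obtain ⟨n, hn⟩ := h3.exists
  exact lt_asymm (hxy n) hn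

end

end Pool.Agent.AbCoc
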