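import Pool.Agent.Lib_MP_418a80_nm.NFin
import Pool.Agent.Lib_MP_418a80_nm.NVN
import Pool.Agent.Lib_MP_418a80_gap.Gap9
import Pool.Agent.Lib_MP_418a80_hyp.HTrans
import Pool.Agent.Lib_MP_418a80_hyp.Folner
import Pool.Agent.Lib_MP_418a80_ab.FamDom
import Pool.Agent.Lib_MP_418a80_ab.Final

/-!
# II₁ factors whose central sequences commute

Every strictly outer action of a noncompact second countable amenable group on a II₁ factor with
separable predual whose central sequences commute (a II₁ factor which is not McDuff) has an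
ergodic cocycle perturbation. More generally, for an arbitrary II₁ factor it is enough that the
elements `g` for which `α g` has a nontrivial twisted central sequence commute with each other.
-/

set_option autoImplicit false
set_option linter.unusedVariables false
set_option linter.unusedSectionVars false

open MeasureTheory Topology Filter TopologicalSpace
open scoped ENNReal

namespace Pool.Agent.AbCoc

universe u v

variable {H : Type u} [NormedAddCommGroup H] [InnerProductSpace ℂ H] [CompleteSpace H]
variable {G : Type v} [Group G] [TopologicalSpace G] [IsTopologicalGroup G]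
  [SecondCountableTopology G] [LocallyCompactSpace G] [T2Space G]
  [MeasurableSpace G] [BorelSpace G] (μ : Measure G) [μ.IsHaarMeasure]
  {M : VonNeumannAlgebra H} {α : G → (H →L[ℂ] H) → (H →L[ℂ] H)}

theorem nontrivial_of_factor (hM : IsII1Factor M) : Nontrivial H := by
  by_contra hn
  rw [not_nontrivial_iff_subsingleton] at hn
  refine hM.infinite_dimensional ?_
  haveI : Subsingleton (H →L[ℂ] H) := ⟨fun a b => by ext x; exact Subsingleton.elim _ _⟩
  haveI : Subsingleton M.toStarSubalgebra := ⟨fun a b => Subtype.ext (Subsingleton.elim _ _)⟩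
  infer_instance

theorem outer_actOf (ξ : ℕ → H) (h : IsTracialFamily M ξ)
    (hfac : ∀ x ∈ M, (∀ y ∈ M, x * y = y * x) → ∃ c : ℂ, x = c • (1 : H →L[ℂ] H))
    (hα : IsAction M α) (hout : IsPointwiseOuter M α) : (actOf ξ h hfac hα).Outer := by
  rintro g hg1 ⟨v, hv1, hv2, hv3⟩
  refine hout g hg1 ⟨star (v : H →L[ℂ] H), star_mem v.2, ?_, ?_, ?_⟩
  · rw [star_star]
    exact congrArg Subtype.val hv2
  · rw [star_star]
    exact congrArg Subtype.val hv1
  · intro x hx
    rw [star_star]
    have h1 : (⟨x, hx⟩ : Alg M) * v = v * actHom hα g ⟨x, hx⟩ := hv3 ⟨x, hx⟩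
    have h2 : actHom hα g ⟨x, hx⟩ = star v * (⟨x, hx⟩ : Alg M) * v := by
      rw [mul_assoc, h1, ← mul_assoc, hv1, one_mul]
    exact congrArg Subtype.val h2

theorem so_actOf (ξ : ℕ → H) (h : IsTracialFamily M ξ)
    (hfac : ∀ x ∈ M, (∀ y ∈ M, x * y = y * x) → ∃ c : ℂ, x = c • (1 : H →L[ℂ] H))
    (hα : IsAction M α) (hout : IsStrictlyOuter μ M α) :
    (actOf ξ h hfac hα).SO μ Set.univ := by
  have h1 := so_of_strictlyOuterOn μ ξ h hfac hα (M : Set (H →L[ℂ] H)) subset_rfl
    ((isStrictlyOuterOn_iff μ M α).2 hout)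
  have e : {x : Alg M | (x : H →L[ℂ] H) ∈ (M : Set (H →L[ℂ] H))} = Set.univ :=
    Set.eq_univ_of_forall fun x => x.2
  rwa [e] at h1

/-- elements with almost intertwiners commute -/
theorem hasTwist_comm (ξ : ℕ → H) (h : IsTracialFamily M ξ) [SeparableSpace H]
    (hM : IsII1Factor M) (hα : IsAction M α) (hout : IsStrictlyOuter μ M α)
    (hcs : CentralSequencesCommute M ∨ ∀ g k : G, HasTwistedCentral M (α g) →
      HasTwistedCentral M (α k) → g * k = k * g) (g k : G)
    (hg : (actOf ξ h hM.factor hα).HasTwist g) (hk : (actOf ξ h hM.factor hα).HasTwist k) :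
    g * k = k * g := by
  rcases hcs with hc | hc
  · haveI := nontrivial_of_factor hM
    refine TrAct.HasTwist.comm ?_ (outer_actOf ξ h hM.factor hα (hout.isPointwiseOuter μ hα))
      (centralComm_of_seq ξ h hc) hg hk
    intro x hx
    obtain ⟨c, hc⟩ := hM.factor x x.2 fun y hy => congrArg Subtype.val (hx ⟨y, hy⟩)
    exact ⟨c, Subtype.ext hc⟩
  · exact hc g k (hasTwistedCentral_of_hasTwist ξ h hM.factor hα hg)
      (hasTwistedCentral_of_hasTwist ξ h hM.factor hα hk)

/-- strictly outer actions on II₁ factors whose central sequences commute -/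
theorem nonMcDuff_theorem [NoncompactSpace G] [SeparableSpace H] (hM : IsII1Factor M)
    (hα : IsAction M α) (hG : ErgLC.FolnerCondition μ) (hout : IsStrictlyOuter μ M α)
    (hcs : CentralSequencesCommute M ∨ ∀ g k : G, HasTwistedCentral M (α g) →
      HasTwistedCentral M (α k) → g * k = k * g) :
    ∃ v : G → (H →L[ℂ] H), IsCocycle M α v ∧ PerturbationIsErgodic M α v := by
  obtain ⟨ξ, h⟩ := hM.trace
  let := CStarAlgebra.spectralOrder (Alg M)
  have := CStarAlgebra.spectralOrderedRing (Alg M)
  refine exists_of_key ξ h hα (actOf ξ h hM.factor hα) (fun g x => rfl)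
    (TrAct.key_of_stepADom _ ?_)
  refine TrAct.stepADom_of_twist_comm μ (actOf ξ h hM.factor hα) ?_
    (so_actOf μ ξ h hM.factor hα hout) (reiter_of_folner μ hG)
    (hasTwist_comm μ ξ h hM hα hout hcs)
  intro x hx
  obtain ⟨c, hc⟩ := hM.factor x x.2 fun y hy => congrArg Subtype.val (hx ⟨y, hy⟩)
  exact ⟨c, Subtype.ext hc⟩

end Pool.Agent.AbCoc
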