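import Pool.Agent.Lib_MP_418a80_nm.NComm2

/-!
# Strict outerness passes to closed abelian subgroups
-/

set_option autoImplicit false
set_option linter.unusedSectionVars false

open MeasureTheory Topology Filter
open scoped ENNReal

namespace Pool.Agent.AbCoc

universe u v w x z

section act
variable {A : Type u} [CStarAlgebra A] {K : Type v} [NormedAddCommGroup K]
  [InnerProductSpace ℂ K] [CompleteSpace K]
variable {G : Type w} [Group G] [TopologicalSpace G] {T : TrAlg A K} (S : TrAct G T)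
variable {N : Type z} [Group N] [TopologicalSpace N] (j : N →* G) (hj : Continuous j)

/-- restriction of an action along a homomorphism -/
noncomputable def TrAct.cm (S : TrAct G T) (j : N →* G) (hj : Continuous j) : TrAct N T where
  α := fun n => S.α (j n)
  one := fun a => by rw [map_one, S.one]
  mul := fun g h a => by rw [map_mul, S.mul]
  norm_map := fun g a => S.norm_map (j g) a
  cont := fun a => (S.cont a).comp hj

theorem TrAct.cm_α (n : N) (a : A) : (S.cm j hj).α n a = S.α (j n) a := rfl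

theorem TrAct.cm_U (n : N) : (S.cm j hj).U.U n = S.U.U (j n) := by
  refine T.Lm_ext fun b => ?_
  rw [(S.cm j hj).U_ι, S.U_ι]
  rfl

theorem TrAct.cm_fixed {a : A} (h : S.Fixed a) : (S.cm j hj).Fixed a := fun n => h (j n)

theorem TrAct.U_Lm (g : G) (a : A) : S.U.U g * T.Lm a = T.Lm (S.α g a) * S.U.U g := by
  refine T.Lm_ext fun b => ?_
  change S.U.U g (T.Lm a (T.ι b)) = T.Lm (S.α g a) (S.U.U g (T.ι b))
  rw [T.Lm_ι, S.U_ι, S.U_ι, T.Lm_ι, map_mul]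

end act

section scalars
variable {K : Type v} [NormedAddCommGroup K] [InnerProductSpace ℂ K]

/-- an operator commuting with all operators is a scalar -/
theorem eq_scalar_of_comm (c : K →L[ℂ] K) (e : K) (he : e ≠ 0)
    (h : ∀ b : K →L[ℂ] K, c * b = b * c) : ∃ z : ℂ, c = z • (1 : K →L[ℂ] K) := by
  have h0 : inner ℂ e e ≠ (0 : ℂ) := fun h1 => he (inner_self_eq_zero.1 h1)
  refine ⟨(inner ℂ e e)⁻¹ * inner ℂ e (c e), ?_⟩
  ext1 η
  have h1 := congrArg (fun L : K →L[ℂ] K => L e)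
    (h ((innerSL ℂ e).smulRight η))
  change c ((inner ℂ e e : ℂ) • η) = (inner ℂ e (c e) : ℂ) • η at h1
  rw [map_smul] at h1
  change c η = ((inner ℂ e e)⁻¹ * inner ℂ e (c e) : ℂ) • η
  rw [mul_smul, ← h1, smul_smul, inv_mul_cancel₀ h0, one_smul]

end scalars

section main
variable {A : Type u} [CStarAlgebra A] {K : Type v} [NormedAddCommGroup K]
  [InnerProductSpace ℂ K] [CompleteSpace K]
variable {G : Type w} [Group G] [TopologicalSpace G] [IsTopologicalGroup G]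
  [SecondCountableTopology G] [LocallyCompactSpace G] [MeasurableSpace G] [BorelSpace G]
  (μ : Measure G) [μ.IsHaarMeasure] {T : TrAlg A K} (S : TrAct G T)

section gen
variable {N : Type z} [Group N] [TopologicalSpace N] [IsTopologicalGroup N]
  [SecondCountableTopology N] [LocallyCompactSpace N] [MeasurableSpace N] [BorelSpace N]
  (ν : Measure N) [ν.IsHaarMeasure] (j : N →* G) (hj : Continuous j)

theorem TrAct.cm_pi (x : A) :
    (S.cm j hj).pi ν x = (piW (S.U.cm j hj) (T.Lm x)).op ν := by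
  rw [← (S.cm j hj).piW_Lm ν x]
  refine Field.op_congr ν fun t ξ => ?_
  rw [piW_apply, piW_apply, URep.cm_U, URep.cm_U, S.cm_U j hj, S.cm_U j hj]

/-- `U_t c U_{t⁻¹}` commutes with the left multiplications -/
theorem TrAct.commL_conW {c : K →L[ℂ] K} (hc : T.CommL c) (t : G) (a : A) (ξ : K) :
    (conW S.U c).F t (T.Lm a ξ) = T.Lm a ((conW S.U c).F t ξ) := by
  rw [conW_apply, conW_apply]
  have h1 : S.U.U t⁻¹ (T.Lm a ξ) = T.Lm (S.α t⁻¹ a) (S.U.U t⁻¹ ξ) :=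
    congrArg (fun L : K →L[ℂ] K => L ξ) (S.U_Lm t⁻¹ a)
  have h2 : c (T.Lm (S.α t⁻¹ a) (S.U.U t⁻¹ ξ)) = T.Lm (S.α t⁻¹ a) (c (S.U.U t⁻¹ ξ)) :=
    congrArg (fun L : K →L[ℂ] K => L (S.U.U t⁻¹ ξ)) (hc (S.α t⁻¹ a))
  have h3 : S.U.U t (T.Lm (S.α t⁻¹ a) (c (S.U.U t⁻¹ ξ))) =
      T.Lm (S.α t (S.α t⁻¹ a)) (S.U.U t (c (S.U.U t⁻¹ ξ))) :=
    congrArg (fun L : K →L[ℂ] K => L (c (S.U.U t⁻¹ ξ))) (S.U_Lm t (S.α t⁻¹ a))
  rw [h1, h2, h3, S.apply_inv]

theorem TrAct.commL_coeff {c : K →L[ℂ] K} (hc : T.CommL c) (φ ψ : Lp ℂ 2 μ) :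
    T.CommL ((tensL μ K ψ).adjoint.comp (((conW S.U c).op μ).comp (tensL μ K φ))) := by
  intro a
  ext1 η
  change (tensL μ K ψ).adjoint ((conW S.U c).op μ (tens μ (T.Lm a η) φ)) =
    T.Lm a ((tensL μ K ψ).adjoint ((conW S.U c).op μ (tens μ η φ)))
  rw [← tensL_adjoint_oneT, ← oneT_tensW]
  congr 1
  obtain ⟨Y, hY⟩ : ∃ Y, Y = tens μ η φ := ⟨_, rfl⟩
  rw [← hY]
  apply Lp.ext
  filter_upwards [(conW S.U c).op_ae μ (oneT μ (T.Lm a) Y), oneT_ae μ (T.Lm a) Y,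
    oneT_ae μ (T.Lm a) ((conW S.U c).op μ Y), (conW S.U c).op_ae μ Y] with g h1 h2 h3 h4
  rw [h1, h2, h3, h4, S.commL_conW hc]

theorem TrAct.tilden_conW (Q : Lp K 2 ν →L[ℂ] Lp K 2 ν)
    (hQ1 : ∀ c : K →L[ℂ] K, T.CommL c → Q * oneT ν c = oneT ν c * Q)
    {c : K →L[ℂ] K} (hc : T.CommL c) :
    tilden μ ν Q * oneT ν ((conW S.U c).op μ) = oneT ν ((conW S.U c).op μ) * tilden μ ν Q := by
  refine tilden_comm_oneT μ ν Q ((conW S.U c).op μ) ?_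
  intro φ ψ
  exact hQ1 ((tensL μ K ψ).adjoint.comp (((conW S.U c).op μ).comp (tensL μ K φ)))
    (S.commL_coeff μ hc φ ψ)

/-- the coefficients of `V* Q̃ V` -/
noncomputable def coefn (S : TrAct G T) (Q : Lp K 2 ν →L[ℂ] Lp K 2 ν) (χ χ' : Lp ℂ 2 ν) :
    Lp K 2 μ →L[ℂ] Lp K 2 μ :=
  (tensL ν (Lp K 2 μ) χ').adjoint.comp
    ((conjn μ ν S.U j hj Q).comp (tensL ν (Lp K 2 μ) χ))

theorem TrAct.coefn_oneT (Q : Lp K 2 ν →L[ℂ] Lp K 2 ν)
    (hQ1 : ∀ c : K →L[ℂ] K, T.CommL c → Q * oneT ν c = oneT ν c * Q)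
    (χ χ' : Lp ℂ 2 ν) (c : K →L[ℂ] K) (hc : T.CommL c) :
    coefn μ ν j hj S Q χ χ' * oneT μ c = oneT μ c * coefn μ ν j hj S Q χ χ' := by
  have h1 := conjn_oneT μ ν S.U j hj Q c (S.tilden_conW μ ν Q hQ1 hc)
  exact ((commute_oneT_iff ν (oneT μ c) (conjn μ ν S.U j hj Q)).1 h1 χ χ').symm

theorem TrAct.coefn_pi (Q : Lp K 2 ν →L[ℂ] Lp K 2 ν)
    (hQ2 : ∀ x, Q * (S.cm j hj).pi ν x = (S.cm j hj).pi ν x * Q)
    (χ χ' : Lp ℂ 2 ν) (x : A) :
    coefn μ ν j hj S Q χ χ' * S.pi μ x = S.pi μ x * coefn μ ν j hj S Q χ χ' := by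
  have h0 := hQ2 x
  rw [S.cm_pi ν j hj] at h0
  have h1 := conjn_pi μ ν S.U j hj Q (T.Lm x) h0
  rw [S.piW_Lm μ] at h1
  exact ((commute_oneT_iff ν (S.pi μ x) (conjn μ ν S.U j hj Q)).1 h1 χ χ').symm

theorem TrAct.tilden_hatn (hSO : S.SO μ Set.univ) (Q : Lp K 2 ν →L[ℂ] Lp K 2 ν)
    (hQ1 : ∀ c : K →L[ℂ] K, T.CommL c → Q * oneT ν c = oneT ν c * Q)
    (hQ2 : ∀ x, Q * (S.cm j hj).pi ν x = (S.cm j hj).pi ν x * Q) (Φ : Field G K K) :
    tilden μ ν Q * hatn μ ν S.U j hj (Φ.op μ) =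
      hatn μ ν S.U j hj (Φ.op μ) * tilden μ ν Q := by
  refine tilden_hatn_of_conjn μ ν S.U j hj Q (Φ.op μ) ?_
  refine (commute_oneT_iff ν (Φ.op μ) (conjn μ ν S.U j hj Q)).2 fun χ χ' => ?_
  exact (S.commutes_of_SO μ Set.univ hSO (coefn μ ν j hj S Q χ χ')
    (S.coefn_oneT μ ν j hj Q hQ1 χ χ')
    (fun x _ => S.coefn_pi μ ν j hj Q hQ2 χ χ' x) Φ).symm

/-- operators on `L²(N; K)` commuting with `π(A)` and `1 ⊗ A'` commute with the restrictions of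
the fields on `G` -/
theorem TrAct.comm_field_cm (hSO : S.SO μ Set.univ) (Q : Lp K 2 ν →L[ℂ] Lp K 2 ν)
    (hQ1 : ∀ c : K →L[ℂ] K, T.CommL c → Q * oneT ν c = oneT ν c * Q)
    (hQ2 : ∀ x, Q * (S.cm j hj).pi ν x = (S.cm j hj).pi ν x * Q) (Φ : Field G K K) :
    Q * (Φ.cm j hj).op ν = (Φ.cm j hj).op ν * Q := by
  have hhat := S.tilden_hatn μ ν j hj hSO Q hQ1 hQ2 Φ
  obtain ⟨φ, hφ, hφk⟩ := exists_approx μ
  ext1 ζ
  refine ext_inner_right ℂ fun ζ' => ?_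
  have h1 := tendsto_compressn μ ν S.U j hj Φ φ hφ hφk ζ (Q.adjoint ζ')
  have h2 := tendsto_compressn μ ν S.U j hj Φ φ hφ hφk (Q ζ) ζ'
  have h3 : ∀ n, inner ℂ (((Jn μ ν (φ n)).adjoint.comp ((hatn μ ν S.U j hj (Φ.op μ)).comp
      (Jn μ ν (φ n)))) ζ) (Q.adjoint ζ') = inner ℂ (((Jn μ ν (φ n)).adjoint.comp
      ((hatn μ ν S.U j hj (Φ.op μ)).comp (Jn μ ν (φ n)))) (Q ζ)) ζ' := by
    intro n
    rw [ContinuousLinearMap.adjoint_inner_right]
    exact congrArg (fun L : Lp K 2 ν →L[ℂ] Lp K 2 ν => inner ℂ (L ζ) ζ')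
      ((commute_tilden_iff μ ν Q (hatn μ ν S.U j hj (Φ.op μ))).1 hhat (φ n) (φ n))
  simp_rw [h3] at h1
  have h4 := tendsto_nhds_unique h1 h2
  rw [ContinuousLinearMap.adjoint_inner_right] at h4
  exact h4

end gen

end main

end Pool.Agent.AbCoc
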