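import Pool.Agent.Lib_MP_418a80_nm.NAmp
import Pool.Agent.Lib_MP_418a80_nm.NDefs
import Pool.Agent.Lib_MP_418a80_nm.NSO
import Pool.Agent.Lib_MP_418a80_ab.Coc

/-!
# KEY for a closed subgroup gives near-invariant families in the corners of the large action
-/

set_option autoImplicit false
set_option linter.unusedVariables false
set_option linter.unusedSectionVars false

open Topology Filter MeasureTheory

namespace Pool.Agent.AbCoc

universe u v w z

section near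
variable {A : Type u} [CStarAlgebra A]
  {K : Type v} [NormedAddCommGroup K] [InnerProductSpace ℂ K] [CompleteSpace K]
variable {G : Type w} [Group G] [TopologicalSpace G] {T : TrAlg A K} (S : TrAct G T)
variable {N : Type z} [Group N] [TopologicalSpace N] (j : N →* G) (hj : Continuous j)

theorem TrAlg.τ_sa_sq (T : TrAlg A K) {b : A} (hb : star b = b) :
    T.τ (b * b) = ((‖T.ι b‖ ^ 2 : ℝ) : ℂ) := by
  have h := T.inner_eq_τ b b
  rw [hb] at h
  rw [← h, inner_self_eq_norm_sq_to_K]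
  norm_cast

theorem TrAlg.norm_ι_pos (T : TrAlg A K) {b : A} (hb : b ≠ 0) : 0 < ‖T.ι b‖ := by
  refine norm_pos_iff.2 fun h => hb (T.inj ?_)
  rw [h, map_zero]

/-- the distance to the fixed point algebra is at most the displacement -/
theorem TrAct.norm_sub_E_le (a : A) (r : ℝ) (h : ∀ g, ‖T.ι (S.α g a - a)‖ ≤ r) :
    ‖T.ι (S.E a - a)‖ ≤ r := by
  have h1 : S.W.hull (T.ι a) ⊆ Metric.closedBall (T.ι a) r := by
    refine S.W.hull_subset (T.ι a) _ Metric.isClosed_closedBall (convex_closedBall _ _) fun g => ?_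
    rw [Metric.mem_closedBall, dist_eq_norm]
    have h2 := h g
    rw [map_sub, ← S.U_ι] at h2
    exact h2
  have h3 := h1 (S.E_hull a)
  rw [Metric.mem_closedBall, dist_eq_norm] at h3
  rw [map_sub]
  exact h3

theorem TrAct.nearOn_of_key (hj' : IsClosedEmbedding j) (hkey : (S.cm j hj).Key) :
    S.NearOn (Set.range j) := by
  intro b1 b2 hb1 hb2 hb1s hb2s hb10 hb20
  have hl1 := T.norm_ι_pos hb10
  have hl2 := T.norm_ι_pos hb20
  obtain ⟨l1, hl1'⟩ : ∃ l : ℝ, l = ‖T.ι b1‖ ^ 2 := ⟨_, rfl⟩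
  obtain ⟨l2, hl2'⟩ : ∃ l : ℝ, l = ‖T.ι b2‖ ^ 2 := ⟨_, rfl⟩
  have hl1p : 0 < l1 := by rw [hl1']; positivity
  have hl2p : 0 < l2 := by rw [hl2']; positivity
  refine ⟨(‖b1‖ * ‖b2‖) ^ 2, l1 * l2 / 2, by positivity, fun D hD hDN κ hκ => ?_⟩
  have hC : IsCompact (j ⁻¹' D) := hj'.isCompact_preimage hD
  obtain ⟨x, hx⟩ : ∃ x : A, x = b2 * b2 - (l2 : ℂ) • (1 : A) := ⟨_, rfl⟩
  have hxsa : IsSelfAdjoint x := by
    rw [isSelfAdjoint_iff, hx, star_sub, star_mul, star_smul, star_one, hb2s.star_eq,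
      Complex.star_def, Complex.conj_ofReal]
  have hxτ : T.τ x = 0 := by
    rw [hx, T.τ_sub, T.τ_smul, T.τ_one, mul_one, T.τ_sa_sq hb2s.star_eq, hl2', sub_self]
  obtain ⟨ε, hε⟩ : ∃ ε : ℝ, ε = min (l1 * l2 / (2 * (‖b1‖ * ‖b1‖ + 1)))
    (Real.sqrt κ / (‖b1‖ * ‖b2‖ + 1)) := ⟨_, rfl⟩
  have hε0 : 0 < ε := by rw [hε]; positivity
  have hε1 : (‖b1‖ * ‖b1‖) * ε ≤ l1 * l2 / 2 := by
    calc (‖b1‖ * ‖b1‖) * ε ≤ (‖b1‖ * ‖b1‖ + 1) * (l1 * l2 / (2 * (‖b1‖ * ‖b1‖ + 1))) := by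
          gcongr
          · linarith
          · rw [hε]; exact min_le_left _ _
      _ = l1 * l2 / 2 := by field_simp
  have hε2 : (‖b1‖ * ‖b2‖) * ε ≤ Real.sqrt κ := by
    calc (‖b1‖ * ‖b2‖) * ε ≤ (‖b1‖ * ‖b2‖ + 1) * (Real.sqrt κ / (‖b1‖ * ‖b2‖ + 1)) := by
          gcongr
          · linarith
          · rw [hε]; exact min_le_right _ _
      _ = Real.sqrt κ := by field_simp
  obtain ⟨u, hu1, hu2, hu3, hu4⟩ := hkey Unit (fun _ => x) (fun _ => hxsa) (fun _ => hxτ) _ hC ε hε0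
  have hun : ‖u‖ ≤ 1 := TrAct.norm_unit_le T u hu1
  have hbd : ‖b1 * u * b2‖ ≤ ‖b1‖ * ‖b2‖ := by
    calc ‖b1 * u * b2‖ ≤ ‖b1‖ * ‖u‖ * ‖b2‖ := (norm_mul_le _ _).trans (by gcongr; exact norm_mul_le _ _)
      _ ≤ ‖b1‖ * 1 * ‖b2‖ := by gcongr
      _ = _ := by rw [mul_one]
  refine ⟨Unit, inferInstance, fun _ => b1 * u * b2, fun _ => u, fun _ => rfl, ?_, ?_, ?_, ?_⟩
  · rw [Fintype.sum_unique]
    have h1 : T.τ (star (b1 * u * b2) * (b1 * u * b2)) =
        (l1 : ℂ) * l2 + T.τ (b1 * b1 * (u * x * star u)) := by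
      have e1 : star (b1 * u * b2) * (b1 * u * b2) = b2 * (star u * (b1 * b1) * u * b2) := by
        rw [star_mul, star_mul, hb1s.star_eq, hb2s.star_eq]; noncomm_ring
      have e2 : star u * (b1 * b1) * u * b2 * b2 = star u * (b1 * b1 * u * b2 * b2) := by noncomm_ring
      rw [e1, T.τ_mul_comm, e2, T.τ_mul_comm]
      have e3 : b1 * b1 * u * b2 * b2 * star u =
          (l2 : ℂ) • (b1 * b1) + b1 * b1 * (u * x * star u) := by
        have e4 : b2 * b2 = x + (l2 : ℂ) • (1 : A) := by rw [hx, sub_add_cancel]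
        have e5 : b1 * b1 * u * b2 * b2 * star u = b1 * b1 * (u * (b2 * b2) * star u) := by noncomm_ring
        rw [e5, e4, mul_add, add_mul, mul_smul_comm, mul_one, smul_mul_assoc, hu2, mul_add,
          mul_smul_comm, mul_one, add_comm]
      rw [e3, T.τ_add, T.τ_smul, T.τ_sa_sq hb1s.star_eq, hl1']
      ring
    have h2 : ‖T.τ (b1 * b1 * (u * x * star u))‖ ≤ l1 * l2 / 2 := by
      have hf : (S.cm j hj).Fixed (b1 * b1) := Fixed.mul _ (S.cm_fixed j hj hb1) (S.cm_fixed j hj hb1)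
      rw [← (S.cm j hj).τ_E, (S.cm j hj).E_mul_left hf]
      have h3 : T.τ (b1 * b1 * (S.cm j hj).E (u * x * star u)) =
          inner ℂ (T.ι (star (b1 * b1))) (T.ι ((S.cm j hj).E (u * x * star u))) := by
        rw [T.inner_eq_τ, star_star]
      rw [h3]
      refine (norm_inner_le_norm _ _).trans ?_
      rw [T.norm_star]
      calc ‖T.ι (b1 * b1)‖ * ‖T.ι ((S.cm j hj).E (u * x * star u))‖
          ≤ (‖b1‖ * ‖b1‖) * ε := by
            gcongr
            · exact (T.norm_le _).trans (norm_mul_le _ _)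
            · exact hu4 ()
        _ ≤ _ := hε1
    rw [T.norm_sq, h1, Complex.add_re]
    have h4 : ((l1 : ℂ) * l2).re = l1 * l2 := by
      rw [← Complex.ofReal_mul, Complex.ofReal_re]
    have h5 := (abs_le.1 (Complex.abs_re_le_norm (T.τ (b1 * b1 * (u * x * star u))))).1
    rw [h4]
    linarith
  · intro s hs
    obtain ⟨n, rfl⟩ := hDN hs
    rw [Fintype.sum_unique]
    have h1 : S.α (j n) (b1 * u * b2) - b1 * u * b2 = b1 * (S.α (j n) u - u) * b2 := by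
      rw [map_mul, map_mul, hb1 (j n), hb2 (j n)]
      noncomm_ring
    have h2 : ‖T.ι (S.α (j n) u - u)‖ ≤ ε := hu3 n hs
    have h3 : ‖T.ι (b1 * (S.α (j n) u - u) * b2)‖ ≤ Real.sqrt κ := by
      calc ‖T.ι (b1 * (S.α (j n) u - u) * b2)‖
          ≤ ‖T.ι (b1 * (S.α (j n) u - u))‖ * ‖b2‖ := T.mul_le' _ _
        _ ≤ (‖b1‖ * ‖T.ι (S.α (j n) u - u)‖) * ‖b2‖ := by gcongr; exact T.mul_le _ _
        _ ≤ (‖b1‖ * ε) * ‖b2‖ := by gcongr
        _ = (‖b1‖ * ‖b2‖) * ε := by ring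
        _ ≤ _ := hε2
    change ‖T.ι (S.α (j n) (b1 * u * b2) - b1 * u * b2)‖ ^ 2 ≤ κ
    rw [h1]
    calc ‖T.ι (b1 * (S.α (j n) u - u) * b2)‖ ^ 2 ≤ Real.sqrt κ ^ 2 :=
          pow_le_pow_left₀ (norm_nonneg _) h3 2
      _ = κ := Real.sq_sqrt hκ.le
  · intro y
    rw [Fintype.sum_unique, ← mul_pow]
    refine pow_le_pow_left₀ (norm_nonneg _) ((T.mul_le _ _).trans ?_) 2
    gcongr
  · intro y
    rw [Fintype.sum_unique, ← mul_pow]
    refine pow_le_pow_left₀ (norm_nonneg _) ((T.mul_le' _ _).trans ?_) 2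
    rw [mul_comm]
    gcongr

end near

section move
variable {A : Type u} [CStarAlgebra A] [PartialOrder A] [StarOrderedRing A]
  {K : Type v} [NormedAddCommGroup K] [InnerProductSpace ℂ K] [CompleteSpace K]
variable {G : Type w} [Group G] [TopologicalSpace G] {T : TrAlg A K} (S : TrAct G T)
variable {N : Type z} [Group N] [TopologicalSpace N] (j : N →* G) (hj : Continuous j)

theorem nk_norm_dg_le (n : ℕ) (x : A) : ‖dg n x‖ ≤ ‖x‖ := NonUnitalStarAlgHom.norm_apply_le (dg n) x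

theorem TrAlg.norm_dg (T : TrAlg A K) (n : ℕ) [NeZero n] (x : A) :
    ‖(T.amp n).ι (dg n x)‖ = ‖T.ι x‖ := by
  have h : ‖(T.amp n).ι (dg n x)‖ ^ 2 = ‖T.ι x‖ ^ 2 := by
    rw [T.amp_norm_sq]
    have h1 : ∀ i : Fin n, ∑ k, ‖T.ι (dg n x i k)‖ ^ 2 = ‖T.ι x‖ ^ 2 := by
      intro i
      rw [Finset.sum_eq_single i]
      · rw [dg_apply, if_pos rfl]
      · intro k _ hk
        rw [dg_apply, if_neg (Ne.symm hk), map_zero, norm_zero, zero_pow two_ne_zero]
      · intro h; exact absurd (Finset.mem_univ i) h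
    rw [Finset.sum_congr rfl fun i _ => h1 i, Finset.sum_const, Finset.card_univ, Fintype.card_fin,
      nsmul_eq_mul, ← mul_assoc, inv_mul_cancel₀ (Nat.cast_ne_zero.2 (NeZero.ne n)), one_mul]
  exact (pow_left_inj₀ (norm_nonneg _) (norm_nonneg _) two_ne_zero).1 h

theorem TrAlg.sum_mul_norm_sq' (T : TrAlg A K) (n : ℕ) [NeZero n] (M : Mat n A) (y : A) :
    ∑ p : Fin n × Fin n, ‖T.ι (y * M p.1 p.2)‖ ^ 2 = n * ‖(T.amp n).ι (dg n y * M)‖ ^ 2 := by
  rw [← T.sum_norm_sq]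
  refine Finset.sum_congr rfl fun p _ => ?_
  rw [dg_mul_apply]

theorem ent_star (n : ℕ) (i k : Fin n) (y : A) : star (ent n i k y) = ent n k i (star y) := by
  ext a b
  rw [CStarMatrix.star_apply, ent_apply, ent_apply]
  by_cases h1 : b = i <;> by_cases h2 : a = k <;> simp [h1, h2]

theorem dg_mul_ent (n : ℕ) (x : A) (i k : Fin n) (y : A) :
    dg n x * ent n i k y = ent n i k (x * y) := by
  ext a b
  rw [dg_mul_apply, ent_apply, ent_apply]
  split_ifs <;> simp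

theorem ent_mul_dg (n : ℕ) (x : A) (i k : Fin n) (y : A) :
    ent n i k y * dg n x = ent n i k (y * x) := by
  ext a b
  rw [mul_dg_apply, ent_apply, ent_apply]
  split_ifs <;> simp

theorem ent_mul_ent (n : ℕ) (i k l : Fin n) (x y : A) :
    ent n i k x * ent n k l y = ent n i l (x * y) := by
  ext a b
  rw [CStarMatrix.mul_apply, Finset.sum_eq_single k]
  · rw [ent_apply, ent_apply, ent_apply]
    by_cases h1 : a = i <;> by_cases h2 : b = l <;> simp [h1, h2]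
  · intro m _ hm
    rw [ent_apply, if_neg hm, ite_self, zero_mul]
  · intro h; exact absurd (Finset.mem_univ k) h

theorem TrAlg.norm_ent_sq (T : TrAlg A K) (n : ℕ) [NeZero n] (i k : Fin n) (y : A) :
    ‖(T.amp n).ι (ent n i k y)‖ ^ 2 = (n : ℝ)⁻¹ * ‖T.ι y‖ ^ 2 := by
  rw [T.amp_norm_sq]
  congr 1
  rw [Finset.sum_eq_single i]
  · rw [Finset.sum_eq_single k]
    · rw [ent_apply, if_pos rfl, if_pos rfl]
    · intro m _ hm
      rw [ent_apply, if_pos rfl, if_neg hm, map_zero, norm_zero, zero_pow two_ne_zero]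
    · intro h; exact absurd (Finset.mem_univ k) h
  · intro m _ hm
    refine Finset.sum_eq_zero fun l _ => ?_
    rw [ent_apply, if_neg hm, map_zero, norm_zero, zero_pow two_ne_zero]
  · intro h; exact absurd (Finset.mem_univ i) h

theorem TrAlg.norm_star_mul_self_eq (T : TrAlg A K) (R : A) :
    ‖T.ι (star R * R)‖ = ‖T.ι (R * star R)‖ := by
  have h : ‖T.ι (star R * R)‖ ^ 2 = ‖T.ι (R * star R)‖ ^ 2 := by
    rw [T.norm_sq, T.norm_sq, star_mul, star_star, star_mul, star_star]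
    congr 1
    have e1 : star R * R * (star R * R) = star R * (R * star R * R) := by noncomm_ring
    rw [e1, T.τ_mul_comm]
    congr 1
    noncomm_ring
  exact (pow_left_inj₀ (norm_nonneg _) (norm_nonneg _) two_ne_zero).1 h

/-- a unitary as in KEY cannot be almost fixed in a corner, if the number of matrix units is
large -/
theorem TrAct.amp_move {n : ℕ} [NeZero n] (W : TrAct G T) {b : A} (hb : W.Fixed b)
    (hbs : star b = b) (hb0 : b ≠ 0)
    (hn : (2 * ‖T.ι (b * b)‖ / ‖T.ι b‖ ^ 2) ^ 2 ≤ n) {u : Mat n A} (hu1 : star u * u = 1)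
    (hu2 : u * star u = 1)
    {ε κ : ℝ} (hκ : κ = (‖T.ι b‖ ^ 2 / n) * ‖T.ι b‖ ^ 2 / (16 * ‖b‖ ^ 2)) (hε : ε ≤ κ) (hε0 : 0 ≤ ε)
    (hu : ‖(T.amp n).ι ((W.amp n).E (u * (ent n 0 0 (b * b) -
      ((‖T.ι b‖ ^ 2 / n : ℝ) : ℂ) • (1 : Mat n A)) * star u))‖ ≤ ε) :
    ∃ g, κ < ‖(T.amp n).ι ((W.amp n).α g (dg n b * u * dg n b) - dg n b * u * dg n b)‖ := by
  by_contra hcon
  push Not at hcon
  obtain ⟨q, hq⟩ : ∃ q : Mat n A, q = dg n b * u * dg n b := ⟨_, rfl⟩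
  obtain ⟨x, hx⟩ : ∃ x : Mat n A, x = ent n 0 0 (b * b) -
      ((‖T.ι b‖ ^ 2 / n : ℝ) : ℂ) • (1 : Mat n A) := ⟨_, rfl⟩
  obtain ⟨e, he⟩ : ∃ e : Mat n A, e = ent n 0 0 1 := ⟨_, rfl⟩
  obtain ⟨l, hl⟩ : ∃ l : ℝ, l = ‖T.ι b‖ ^ 2 := ⟨_, rfl⟩
  obtain ⟨c, hc⟩ : ∃ c : ℝ, c = ‖T.ι b‖ ^ 2 / n := ⟨_, rfl⟩
  rw [← hq] at hcon
  rw [← hx] at hu
  rw [← hc] at hx hκ
  rw [← hl] at hκ
  have hlp : 0 < l := by
    have := T.norm_ι_pos hb0
    rw [hl]; positivity
  have hn0 : (0 : ℝ) < n := Nat.cast_pos.2 (NeZero.pos n)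
  have hcp : 0 < c := by rw [hc, ← hl]; positivity
  have hβ : 0 < ‖b‖ := norm_pos_iff.2 hb0
  have hκ0 : 0 < κ := by rw [hκ]; positivity
  have hB : ‖dg n b‖ ≤ ‖b‖ := nk_norm_dg_le n b
  have hBs : star (dg n b) = dg n b := by rw [← map_star, hbs]
  have hun : ‖u‖ ≤ 1 := TrAct.norm_unit_le (T.amp n) u hu1
  have hes : star e = e := by rw [he, ent_star, star_one]
  have hee : e * e = e := by rw [he, ent_mul_ent, one_mul]
  have hen : ‖e‖ ≤ 1 := by
    have h := CStarRing.norm_star_mul_self (x := e)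
    rw [hes, hee] at h
    by_contra h1
    push Not at h1
    nlinarith
  have hef : (W.amp n).Fixed e := by
    rw [W.amp_fixed_iff]
    intro i k
    rw [he, ent_apply]
    split_ifs
    · exact Fixed.one W
    · exact Fixed.zero W
    · exact Fixed.zero W
  have hBf : (W.amp n).Fixed (dg n b) := W.amp_fixed_dg n hb
  have hqn : ‖q‖ ≤ ‖b‖ ^ 2 := by
    rw [hq]
    calc ‖dg n b * u * dg n b‖ ≤ ‖dg n b‖ * ‖u‖ * ‖dg n b‖ :=
          (norm_mul_le _ _).trans (by gcongr; exact norm_mul_le _ _)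
      _ ≤ ‖b‖ * 1 * ‖b‖ := by gcongr
      _ = _ := by ring
  obtain ⟨p, hp⟩ : ∃ p : Mat n A, p = (W.amp n).E q := ⟨_, rfl⟩
  have hpn : ‖p‖ ≤ ‖b‖ ^ 2 := by rw [hp]; exact ((W.amp n).E_norm_le q).trans hqn
  have hpf : (W.amp n).Fixed p := by rw [hp]; exact (W.amp n).E_fixed q
  have hpq : ‖(T.amp n).ι (q - p)‖ ≤ κ := by
    have h := (W.amp n).norm_sub_E_le q κ hcon
    rw [← hp, ← norm_neg, ← map_neg, neg_sub] at h
    exact h
  -- 1
  have h1 : ‖(T.amp n).ι (q * e * star q - p * e * star p)‖ ≤ 2 * ‖b‖ ^ 2 * κ := by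
    have e1 : q * e * star q - p * e * star p = (q - p) * (e * star q) + (p * e) * star (q - p) := by
      rw [star_sub]; noncomm_ring
    rw [e1, map_add]
    refine (norm_add_le _ _).trans ?_
    have h2 : ‖(T.amp n).ι ((q - p) * (e * star q))‖ ≤ κ * ‖b‖ ^ 2 := by
      refine ((T.amp n).mul_le' _ _).trans ?_
      have h3 : ‖e * star q‖ ≤ 1 * ‖b‖ ^ 2 := by
        refine (norm_mul_le _ _).trans ?_
        rw [norm_star]
        gcongr
      rw [one_mul] at h3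
      gcongr
    have h4 : ‖(T.amp n).ι ((p * e) * star (q - p))‖ ≤ ‖b‖ ^ 2 * κ := by
      refine ((T.amp n).mul_le _ _).trans ?_
      have h3 : ‖p * e‖ ≤ ‖b‖ ^ 2 * 1 := by
        refine (norm_mul_le _ _).trans ?_
        gcongr
      rw [mul_one] at h3
      rw [(T.amp n).norm_star]
      gcongr
    linarith
  -- 2
  have h2 : (W.amp n).E (q * e * star q) = (c : ℂ) • (dg n b * dg n b) +
      dg n b * (W.amp n).E (u * x * star u) * dg n b := by
    have e1 : dg n b * e * dg n b = x + (c : ℂ) • (1 : Mat n A) := by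
      rw [hx, sub_add_cancel, he, dg_mul_ent, ent_mul_dg, mul_one]
    have e2 : q * e * star q = dg n b * (u * (dg n b * e * dg n b) * star u) * dg n b := by
      rw [hq, star_mul, star_mul, hBs]; noncomm_ring
    rw [e2, e1, mul_add, add_mul, mul_smul_comm, mul_one, smul_mul_assoc, hu2, mul_add, add_mul,
      (W.amp n).E_add, (W.amp n).E_mul_right hBf, (W.amp n).E_mul_left hBf, add_comm, mul_smul_comm,
      mul_one, smul_mul_assoc, (W.amp n).E_smul, (W.amp n).E_of_fixed (Fixed.mul _ hBf hBf)]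
  have h3 : ‖(T.amp n).ι (p * e * star p - (c : ℂ) • (dg n b * dg n b))‖ ≤ 3 * ‖b‖ ^ 2 * κ := by
    have hpf' : (W.amp n).Fixed (p * e * star p) :=
      Fixed.mul _ (Fixed.mul _ hpf hef) (Fixed.star _ hpf)
    have e1 : p * e * star p - (c : ℂ) • (dg n b * dg n b) =
        -((W.amp n).E (q * e * star q - p * e * star p)) +
          dg n b * (W.amp n).E (u * x * star u) * dg n b := by
      rw [(W.amp n).E_sub, (W.amp n).E_of_fixed hpf', h2]
      abel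
    rw [e1, map_add, map_neg]
    refine (norm_add_le _ _).trans ?_
    rw [norm_neg]
    have h4 := ((W.amp n).norm_E_le (q * e * star q - p * e * star p)).trans h1
    have h5 : ‖(T.amp n).ι (dg n b * (W.amp n).E (u * x * star u) * dg n b)‖ ≤ ‖b‖ ^ 2 * κ := by
      calc ‖(T.amp n).ι (dg n b * (W.amp n).E (u * x * star u) * dg n b)‖
          ≤ ‖(T.amp n).ι (dg n b * (W.amp n).E (u * x * star u))‖ * ‖dg n b‖ :=
            (T.amp n).mul_le' _ _
        _ ≤ (‖dg n b‖ * ‖(T.amp n).ι ((W.amp n).E (u * x * star u))‖) * ‖dg n b‖ := by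
            gcongr; exact (T.amp n).mul_le _ _
        _ ≤ (‖b‖ * κ) * ‖b‖ := by
            gcongr
            exact hu.trans hε
        _ = _ := by ring
    linarith
  obtain ⟨η, hη⟩ : ∃ η : ℝ, η = 3 * ‖b‖ ^ 2 * κ := ⟨_, rfl⟩
  rw [← hη] at h3
  have hη0 : 0 ≤ η := by rw [hη]; positivity
  obtain ⟨m, hm⟩ : ∃ m : ℝ, m = ‖T.ι (b * b)‖ := ⟨_, rfl⟩
  -- trace from below
  have h4 : c * l - η ≤ ((T.amp n).τ (p * e * star p)).re := by
    have e1 : p * e * star p = (c : ℂ) • (dg n b * dg n b) +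
        (p * e * star p - (c : ℂ) • (dg n b * dg n b)) := by abel
    rw [e1, (T.amp n).τ_add, (T.amp n).τ_smul, (T.amp n).τ_sa_sq hBs, T.norm_dg, ← hl,
      Complex.add_re, ← Complex.ofReal_mul, Complex.ofReal_re]
    have h5 : ‖(T.amp n).τ (p * e * star p - (c : ℂ) • (dg n b * dg n b))‖ ≤ η := by
      unfold TrAlg.τ
      refine (norm_inner_le_norm _ _).trans ?_
      rw [(T.amp n).norm_one, one_mul]
      exact h3
    have h6 := (abs_le.1 (Complex.abs_re_le_norm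
      ((T.amp n).τ (p * e * star p - (c : ℂ) • (dg n b * dg n b))))).1
    linarith
  -- norm from above
  have h5 : ‖(T.amp n).ι (p * e * star p)‖ ≤ c * m + η := by
    have e1 : p * e * star p = (c : ℂ) • dg n (b * b) +
        (p * e * star p - (c : ℂ) • (dg n b * dg n b)) := by rw [map_mul]; abel
    rw [e1, map_add]
    refine (norm_add_le _ _).trans (add_le_add ?_ h3)
    rw [map_smul, norm_smul, Complex.norm_real, Real.norm_of_nonneg hcp.le, T.norm_dg, hm]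
  -- Cauchy-Schwarz
  have h6 : ((T.amp n).τ (p * e * star p)).re ≤ ‖(T.amp n).ι e‖ * (c * m + η) := by
    have e1 : p * e * star p = (p * e) * star (p * e) := by
      rw [star_mul, hes]
      have : p * e * (e * star p) = p * (e * e) * star p := by noncomm_ring
      rw [this, hee]
    have e2 : (T.amp n).τ (p * e * star p) = inner ℂ ((T.amp n).ι e)
        ((T.amp n).ι (star (p * e) * (p * e))) := by
      rw [e1, (T.amp n).τ_mul_comm, (T.amp n).inner_eq_τ, hes]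
      congr 1
      rw [star_mul, hes]
      have : e * (e * star p * (p * e)) = (e * e) * star p * (p * e) := by noncomm_ring
      rw [this, hee]
    rw [e2]
    refine (Complex.re_le_norm _).trans ((norm_inner_le_norm _ _).trans ?_)
    rw [(T.amp n).norm_star_mul_self_eq, ← e1]
    gcongr
  have h7 : ‖(T.amp n).ι e‖ ^ 2 = (n : ℝ)⁻¹ := by
    rw [he, T.norm_ent_sq, T.norm_one, one_pow, mul_one]
  have h8 : ‖(T.amp n).ι e‖ ≤ 1 := ((T.amp n).norm_le e).trans hen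
  have hm0 : 0 ≤ m := by rw [hm]; exact norm_nonneg _
  have h9 : ‖(T.amp n).ι e‖ * m ≤ l / 2 := by
    have h10 : (‖(T.amp n).ι e‖ * m) ^ 2 ≤ (l / 2) ^ 2 := by
      rw [mul_pow, h7]
      rw [← hm, ← hl, div_pow, div_le_iff₀ (by positivity)] at hn
      rw [inv_mul_le_iff₀ hn0]
      nlinarith
    exact (pow_le_pow_iff_left₀ (by positivity) (by positivity) two_ne_zero).1 h10
  have h10 : c * l - η ≤ c * (l / 2) + η := by
    calc c * l - η ≤ ‖(T.amp n).ι e‖ * (c * m + η) := h4.trans h6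
      _ = c * (‖(T.amp n).ι e‖ * m) + ‖(T.amp n).ι e‖ * η := by ring
      _ ≤ c * (l / 2) + 1 * η := by gcongr
      _ = _ := by ring
  have h11 : η = 3 / 16 * (c * l) := by
    rw [hη, hκ]
    field_simp
  have h12 : 0 < c * l := mul_pos hcp hlp
  linarith

theorem TrAct.cm_amp_α (n : ℕ) [NeZero n] (m : N) (M : Mat n A) :
    ((S.cm j hj).amp n).α m M = (S.amp n).α (j m) M := rfl

/-- KEY for the matrices gives families moved by the subgroup -/
theorem TrAct.moveOn_of_key_amp (hj' : IsClosedEmbedding j)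
    (hkey : ∀ (n : ℕ) [NeZero n], ((S.cm j hj).amp n).Key) : S.MoveOn (Set.range j) := by
  intro b hb hbs hb0
  have hb' := hbs.star_eq
  obtain ⟨n0, hn0⟩ := exists_nat_ge ((2 * ‖T.ι (b * b)‖ / ‖T.ι b‖ ^ 2) ^ 2)
  obtain ⟨n, hnd⟩ : ∃ n : ℕ, n = n0 + 1 := ⟨_, rfl⟩
  haveI : NeZero n := ⟨by omega⟩
  have hn : (2 * ‖T.ι (b * b)‖ / ‖T.ι b‖ ^ 2) ^ 2 ≤ n := by
    rw [hnd]; push_cast; linarith
  have hnp : (0 : ℝ) < n := Nat.cast_pos.2 (NeZero.pos n)
  obtain ⟨κ0, hκ0⟩ : ∃ κ : ℝ, κ = (‖T.ι b‖ ^ 2 / n) * ‖T.ι b‖ ^ 2 / (16 * ‖b‖ ^ 2) := ⟨_, rfl⟩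
  have hβ : 0 < ‖b‖ := norm_pos_iff.2 hb0
  have hlp := T.norm_ι_pos hb0
  have hκ0p : 0 < κ0 := by rw [hκ0]; positivity
  have hBn : ‖dg n b‖ ≤ ‖b‖ := nk_norm_dg_le n b
  refine ⟨n * (‖b‖ ^ 2) ^ 2, n * κ0 ^ 2, by positivity, fun D hD hDN κ hκ => ?_⟩
  have hC : IsCompact (j ⁻¹' D) := hj'.isCompact_preimage hD
  obtain ⟨x, hx⟩ : ∃ x : Mat n A, x = ent n 0 0 (b * b) -
      ((‖T.ι b‖ ^ 2 / n : ℝ) : ℂ) • (1 : Mat n A) := ⟨_, rfl⟩
  have hxsa : IsSelfAdjoint x := by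
    rw [isSelfAdjoint_iff, hx, star_sub, ent_star, star_mul, star_smul, star_one, hb',
      Complex.star_def, Complex.conj_ofReal]
  have hxτ : (T.amp n).τ x = 0 := by
    rw [hx, (T.amp n).τ_sub, (T.amp n).τ_smul, (T.amp n).τ_one, mul_one, T.amp_τ,
      Finset.sum_eq_single (0 : Fin n)]
    · rw [ent_apply, if_pos rfl, if_pos rfl, T.τ_sa_sq hb']
      push_cast
      ring
    · intro k _ hk
      rw [ent_apply, if_neg hk, TrAlg.τ, map_zero, inner_zero_right]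
    · intro h; exact absurd (Finset.mem_univ _) h
  obtain ⟨ε, hε⟩ : ∃ ε : ℝ, ε = min κ0 (Real.sqrt (κ / n) / (‖b‖ * ‖b‖)) := ⟨_, rfl⟩
  have hε0 : 0 < ε := by rw [hε]; positivity
  have hε1 : ε ≤ κ0 := by rw [hε]; exact min_le_left _ _
  have hε2 : (‖b‖ * ‖b‖) * ε ≤ Real.sqrt (κ / n) := by
    calc (‖b‖ * ‖b‖) * ε ≤ (‖b‖ * ‖b‖) * (Real.sqrt (κ / n) / (‖b‖ * ‖b‖)) := by
          gcongr
          rw [hε]; exact min_le_right _ _
      _ = _ := by field_simp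
  obtain ⟨u, hu1, hu2, hu3, hu4⟩ := hkey n Unit (fun _ => x) (fun _ => hxsa) (fun _ => hxτ) _ hC ε hε0
  have hun : ‖u‖ ≤ 1 := TrAct.norm_unit_le (T.amp n) u hu1
  have hbf : (S.cm j hj).Fixed b := S.cm_fixed j hj hb
  have hu5 := hu4 ()
  rw [hx] at hu5
  obtain ⟨m, hm⟩ := TrAct.amp_move (n := n) (S.cm j hj) hbf hb' hb0 hn hu1 hu2 hκ0 hε1 hε0.le hu5
  obtain ⟨q, hq⟩ : ∃ q : Mat n A, q = dg n b * u * dg n b := ⟨_, rfl⟩
  have hqn : ‖q‖ ≤ ‖b‖ ^ 2 := by
    rw [hq]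
    calc ‖dg n b * u * dg n b‖ ≤ ‖dg n b‖ * ‖u‖ * ‖dg n b‖ :=
          (norm_mul_le _ _).trans (by gcongr; exact norm_mul_le _ _)
      _ ≤ ‖b‖ * 1 * ‖b‖ := by gcongr
      _ = _ := by ring
  rw [← hq] at hm
  refine ⟨Fin n × Fin n, inferInstance, fun p => q p.1 p.2, fun p => u p.1 p.2, ?_, ?_, ?_, ?_, ?_⟩
  · intro p
    change q p.1 p.2 = b * u p.1 p.2 * b
    rw [hq, mul_dg_apply, dg_mul_apply]
  · refine ⟨j m, ⟨m, rfl⟩, ?_⟩
    have h1 := T.sum_norm_sq n ((S.amp n).α (j m) q - q)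
    have h2 : ∀ p : Fin n × Fin n, ((S.amp n).α (j m) q - q) p.1 p.2 =
        S.α (j m) (q p.1 p.2) - q p.1 p.2 := fun p => rfl
    simp only [h2] at h1
    rw [h1]
    have h3 : κ0 < ‖(T.amp n).ι ((S.amp n).α (j m) q - q)‖ := hm
    gcongr
  · intro s hs
    obtain ⟨m', rfl⟩ := hDN hs
    have h1 := T.sum_norm_sq n ((S.amp n).α (j m') q - q)
    have h2 : ∀ p : Fin n × Fin n, ((S.amp n).α (j m') q - q) p.1 p.2 =
        S.α (j m') (q p.1 p.2) - q p.1 p.2 := fun p => rfl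
    simp only [h2] at h1
    rw [h1]
    have h3 : ‖(T.amp n).ι ((S.amp n).α (j m') u - u)‖ ≤ ε := hu3 m' hs
    have h4 : (S.amp n).α (j m') q - q = dg n b * ((S.amp n).α (j m') u - u) * dg n b := by
      rw [hq, map_mul, map_mul, S.amp_α_dg, hb (j m')]
      noncomm_ring
    have h5 : ‖(T.amp n).ι ((S.amp n).α (j m') q - q)‖ ≤ Real.sqrt (κ / n) := by
      rw [h4]
      calc ‖(T.amp n).ι (dg n b * ((S.amp n).α (j m') u - u) * dg n b)‖
          ≤ ‖(T.amp n).ι (dg n b * ((S.amp n).α (j m') u - u))‖ * ‖dg n b‖ := (T.amp n).mul_le' _ _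
        _ ≤ (‖dg n b‖ * ‖(T.amp n).ι ((S.amp n).α (j m') u - u)‖) * ‖dg n b‖ := by
            gcongr; exact (T.amp n).mul_le _ _
        _ ≤ (‖b‖ * ε) * ‖b‖ := by gcongr
        _ = (‖b‖ * ‖b‖) * ε := by ring
        _ ≤ _ := hε2
    calc (n : ℝ) * ‖(T.amp n).ι ((S.amp n).α (j m') q - q)‖ ^ 2
        ≤ n * Real.sqrt (κ / n) ^ 2 := by gcongr
      _ = κ := by
          rw [Real.sq_sqrt (by positivity)]
          field_simp
  · intro y
    rw [T.sum_mul_norm_sq, mul_assoc]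
    have h1 : ‖(T.amp n).ι (q * dg n y)‖ ≤ ‖b‖ ^ 2 * ‖T.ι y‖ := by
      refine ((T.amp n).mul_le _ _).trans ?_
      rw [T.norm_dg]
      gcongr
    rw [← mul_pow]
    gcongr
  · intro y
    rw [T.sum_mul_norm_sq', mul_assoc]
    have h1 : ‖(T.amp n).ι (dg n y * q)‖ ≤ ‖b‖ ^ 2 * ‖T.ι y‖ := by
      refine ((T.amp n).mul_le' _ _).trans ?_
      rw [T.norm_dg, mul_comm]
      gcongr
    rw [← mul_pow]
    gcongr

end move

end Pool.Agent.AbCoc
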