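import Pool.Agent.Lib_MP_418a80_hyp.Amp
import Pool.Agent.Lib_MP_418a80_hyp.AmpAct

/-!
# The tracial algebra of matrices over a tracial algebra, arbitrary finite index type
-/

set_option autoImplicit false
set_option linter.unusedVariables false
set_option linter.unusedSectionVars false

open Topology Filter

namespace Pool.Agent.AbCoc

universe u v w

variable {A : Type u} [CStarAlgebra A] [PartialOrder A] [StarOrderedRing A]
  {K : Type v} [NormedAddCommGroup K] [InnerProductSpace ℂ K]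

/-- the matrices over `A` with index type `I` -/
abbrev Mt (I : Type) (A : Type u) := CStarMatrix I I A

/-- the Hilbert space of the matrices -/
abbrev MtK (I : Type) (K : Type v) := PiLp 2 (fun _ : I × I => K)

namespace TrAlg
variable (T : TrAlg A K) (I : Type) [Fintype I] [DecidableEq I]

/-- the canonical map of the matrices -/
noncomputable def Tampι : Mt I A →ₗ[ℂ] MtK I K where
  toFun M := WithLp.toLp 2 fun p => (((Fintype.card I : ℝ) ^ (-(1 / 2) : ℝ) : ℝ) : ℂ) • T.ι (M p.1 p.2)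
  map_add' a b := by
    ext p
    simp [smul_add]
  map_smul' c a := by
    ext p
    simp [smul_comm c]

theorem T_ampι_apply (M : Mt I A) (p : I × I) :
    T.Tampι I M p = (((Fintype.card I : ℝ) ^ (-(1 / 2) : ℝ) : ℝ) : ℂ) • T.ι (M p.1 p.2) := rfl

theorem T_rpow_half_mul_self [Nonempty I] :
    ((Fintype.card I : ℝ) ^ (-(1 / 2) : ℝ)) * ((Fintype.card I : ℝ) ^ (-(1 / 2) : ℝ)) = (Fintype.card I : ℝ)⁻¹ := by
  have hN : (0 : ℝ) < (Fintype.card I : ℝ) := Nat.cast_pos.2 (Fintype.card_pos (α := I))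
  rw [← Real.rpow_add hN, ← Real.rpow_neg_one]
  norm_num

theorem T_ampι_inner [Nonempty I] (a b : Mt I A) :
    inner ℂ (T.Tampι I a) (T.Tampι I b)
      = (Fintype.card I : ℂ)⁻¹ * ∑ i, ∑ j, inner ℂ (T.ι (a i j)) (T.ι (b i j)) := by
  rw [PiLp.inner_apply, Fintype.sum_prod_type, Finset.mul_sum]
  refine Finset.sum_congr rfl fun i _ => ?_
  rw [Finset.mul_sum]
  refine Finset.sum_congr rfl fun j _ => ?_
  rw [T_ampι_apply, T_ampι_apply, inner_smul_left, inner_smul_right, Complex.conj_ofReal,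
    ← mul_assoc, ← Complex.ofReal_mul, T_rpow_half_mul_self]
  push_cast
  rfl

theorem T_ampι_norm_sq [Nonempty I] (a : Mt I A) :
    ‖T.Tampι I a‖ ^ 2 = (Fintype.card I : ℝ)⁻¹ * ∑ i, ∑ j, ‖T.ι (a i j)‖ ^ 2 := by
  have h := T.T_ampι_inner I a a
  rw [inner_self_eq_norm_sq_to_K] at h
  have h2 : ((‖T.Tampι I a‖ ^ 2 : ℝ) : ℂ) = (((Fintype.card I : ℝ)⁻¹ * ∑ i, ∑ j, ‖T.ι (a i j)‖ ^ 2 : ℝ) : ℂ) := by
    push_cast
    refine (Eq.trans ?_ h).trans ?_
    · norm_cast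
    · congr 1
      refine Finset.sum_congr rfl fun i _ => Finset.sum_congr rfl fun j _ => ?_
      rw [inner_self_eq_norm_sq_to_K]
      norm_cast
  exact_mod_cast h2

theorem T_ampι_norm_le [Nonempty I] (a : Mt I A) : ‖T.Tampι I a‖ ≤ Fintype.card I * ‖a‖ := by
  have hN : (1 : ℝ) ≤ (Fintype.card I : ℝ) := by exact_mod_cast (Fintype.card_pos (α := I))
  have h : ‖T.Tampι I a‖ ^ 2 ≤ (Fintype.card I * ‖a‖) ^ 2 := by
    rw [T_ampι_norm_sq]
    have h1 : ∑ i, ∑ j, ‖T.ι (a i j)‖ ^ 2 ≤ ∑ _i : I, ∑ _j : I, ‖a‖ ^ 2 := by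
      refine Finset.sum_le_sum fun i _ => Finset.sum_le_sum fun j _ => ?_
      exact pow_le_pow_left₀ (norm_nonneg _)
        ((T.norm_le _).trans CStarMatrix.norm_entry_le_norm) 2
    have h2 : (Fintype.card I : ℝ)⁻¹ ≤ 1 := inv_le_one_of_one_le₀ hN
    calc (Fintype.card I : ℝ)⁻¹ * ∑ i, ∑ j, ‖T.ι (a i j)‖ ^ 2
        ≤ 1 * ∑ _i : I, ∑ _j : I, ‖a‖ ^ 2 :=
          mul_le_mul h2 h1 (by positivity) zero_le_one
      _ = (Fintype.card I * ‖a‖) ^ 2 := by
          simp only [Finset.sum_const, Finset.card_univ,  nsmul_eq_mul]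
          ring
  exact (pow_le_pow_iff_left₀ (norm_nonneg _) (by positivity) two_ne_zero).1 h

/-- the canonical map of the matrices, continuous version -/
noncomputable def TampL [Nonempty I] : Mt I A →L[ℂ] MtK I K :=
  (T.Tampι I).mkContinuous (Fintype.card I) (T.T_ampι_norm_le I)

theorem T_ampL_apply [Nonempty I] (M : Mt I A) : T.TampL I M = T.Tampι I M := rfl

theorem T_amp_left [Nonempty I] (a b c : Mt I A) :
    inner ℂ (T.TampL I (c * a)) (T.TampL I b) = inner ℂ (T.TampL I a) (T.TampL I (star c * b)) := by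
  rw [T_ampL_apply, T_ampL_apply, T_ampL_apply, T_ampL_apply, T_ampι_inner, T_ampι_inner]
  congr 1
  have h1 : ∀ i j : I, inner ℂ (T.ι ((c * a) i j)) (T.ι (b i j))
      = ∑ k, inner ℂ (T.ι (a k j)) (T.ι (star (c i k) * b i j)) := by
    intro i j
    rw [CStarMatrix.mul_apply, map_sum, sum_inner]
    exact Finset.sum_congr rfl fun k _ => T.left _ _ _
  have h2 : ∀ k j : I, inner ℂ (T.ι (a k j)) (T.ι ((star c * b) k j))
      = ∑ i, inner ℂ (T.ι (a k j)) (T.ι (star (c i k) * b i j)) := by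
    intro k j
    rw [CStarMatrix.mul_apply, map_sum, inner_sum]
    rfl
  simp only [h1, h2]
  rw [Finset.sum_congr rfl fun i _ => Finset.sum_comm, Finset.sum_comm]
  exact Finset.sum_congr rfl fun k _ => Finset.sum_comm

theorem T_amp_tr [Nonempty I] (a b : Mt I A) :
    inner ℂ (T.TampL I a) (T.TampL I b)
      = inner ℂ (T.TampL I (star b)) (T.TampL I (star a)) := by
  rw [T_ampL_apply, T_ampL_apply, T_ampL_apply, T_ampL_apply, T_ampι_inner, T_ampι_inner]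
  congr 1
  rw [Finset.sum_comm]
  refine Finset.sum_congr rfl fun j _ => Finset.sum_congr rfl fun i _ => ?_
  rw [T.tr]
  rfl

theorem T_amp_mul_le [Nonempty I] (a b : Mt I A) :
    ‖T.TampL I (a * b)‖ ≤ ‖a‖ * ‖T.TampL I b‖ := by
  obtain ⟨c, hc⟩ := exists_norm_sq_sub a
  have h1 : inner ℂ (T.TampL I (c * b)) (T.TampL I (c * b))
      = ((‖a‖ ^ 2 : ℝ) : ℂ) * inner ℂ (T.TampL I b) (T.TampL I b)
        - inner ℂ (T.TampL I (a * b)) (T.TampL I (a * b)) := by
    rw [T.T_amp_left I b (c * b) c, T.T_amp_left I b (a * b) a, ← mul_assoc, ← hc, sub_mul, map_sub,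
      inner_sub_right, ← mul_assoc, smul_mul_assoc, one_mul, map_smul, inner_smul_right]
  have h3 : ‖T.TampL I (c * b)‖ ^ 2 = ‖a‖ ^ 2 * ‖T.TampL I b‖ ^ 2 - ‖T.TampL I (a * b)‖ ^ 2 := by
    have hn : ∀ x : MtK I K, inner ℂ x x = ((‖x‖ ^ 2 : ℝ) : ℂ) := fun x => by
      rw [inner_self_eq_norm_sq_to_K]; norm_cast
    rw [hn, hn, hn, ← Complex.ofReal_mul, ← Complex.ofReal_sub] at h1
    exact Complex.ofReal_injective h1
  have h4 : ‖T.TampL I (a * b)‖ ^ 2 ≤ (‖a‖ * ‖T.TampL I b‖) ^ 2 := by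
    nlinarith [sq_nonneg ‖T.TampL I (c * b)‖]
  exact (pow_le_pow_iff_left₀ (norm_nonneg _) (by positivity) two_ne_zero).1 h4

theorem T_amp_inj [Nonempty I] : Function.Injective (T.TampL I) := by
  rw [injective_iff_map_eq_zero]
  intro a ha
  have hN : (0 : ℝ) < (Fintype.card I : ℝ) ^ (-(1 / 2) : ℝ) := Real.rpow_pos_of_pos (Nat.cast_pos.2 (Fintype.card_pos (α := I))) _
  ext i j
  have h1 : T.Tampι I a (i, j) = 0 := by
    rw [← T_ampL_apply, ha]; rfl
  rw [T_ampι_apply, smul_eq_zero] at h1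
  rcases h1 with h1 | h1
  · exact absurd (Complex.ofReal_eq_zero.1 h1) hN.ne'
  · exact T.inj (by rw [h1]; exact (map_zero _).symm)

theorem T_amp_norm_one [Nonempty I] : ‖T.TampL I (1 : Mt I A)‖ = 1 := by
  have h : ‖T.TampL I (1 : Mt I A)‖ ^ 2 = 1 ^ 2 := by
    rw [T_ampL_apply, T_ampι_norm_sq]
    have h1 : ∀ i : I, ∑ j, ‖T.ι ((1 : Mt I A) i j)‖ ^ 2 = 1 := by
      intro i
      rw [Finset.sum_eq_single i]
      · rw [CStarMatrix.one_apply_eq, T.norm_one, one_pow]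
      · intro j _ hj
        rw [CStarMatrix.one_apply_ne (Ne.symm hj), map_zero, norm_zero]
        norm_num
      · intro h; exact absurd (Finset.mem_univ i) h
    rw [Finset.sum_congr rfl fun i _ => h1 i]
    have hN : (Fintype.card I : ℝ) ≠ 0 := Nat.cast_ne_zero.2 (Fintype.card_ne_zero (α := I))
    simp [hN]
  exact (pow_left_inj₀ (norm_nonneg _) zero_le_one two_ne_zero).1 h

theorem T_amp_dense [Nonempty I] : DenseRange (T.TampL I) := by
  intro ξ
  rw [Metric.mem_closure_iff]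
  intro ε hε
  have hN0 : (0 : ℝ) < (Fintype.card I : ℝ) := Nat.cast_pos.2 (Fintype.card_pos (α := I))
  set r : ℝ := (Fintype.card I : ℝ) ^ (-(1 / 2) : ℝ) with hr
  have hr0 : 0 < r := Real.rpow_pos_of_pos hN0 _
  have h1 : ∀ p : I × I, ∃ a : A, ‖ξ p - ((r : ℝ) : ℂ) • T.ι a‖ < ε / (Fintype.card I + 1) := by
    intro p
    obtain ⟨a, ha⟩ := T.dense.exists_dist_lt (((r⁻¹ : ℝ) : ℂ) • ξ p) (ε := r⁻¹ * (ε / (Fintype.card I + 1)))
      (by positivity)
    refine ⟨a, ?_⟩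
    have h2 : ξ p - ((r : ℝ) : ℂ) • T.ι a
        = ((r : ℝ) : ℂ) • ((((r⁻¹ : ℝ) : ℂ) • ξ p) - T.ι a) := by
      rw [smul_sub, smul_smul, ← Complex.ofReal_mul, mul_inv_cancel₀ hr0.ne', Complex.ofReal_one,
        one_smul]
    rw [h2, norm_smul, Complex.norm_real, Real.norm_of_nonneg hr0.le, ← dist_eq_norm]
    calc r * dist (((r⁻¹ : ℝ) : ℂ) • ξ p) (T.ι a) < r * (r⁻¹ * (ε / (Fintype.card I + 1))) :=
          mul_lt_mul_of_pos_left ha hr0
      _ = ε / (Fintype.card I + 1) := by rw [← mul_assoc, mul_inv_cancel₀ hr0.ne', one_mul]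
  choose a ha using h1
  refine ⟨T.TampL I (CStarMatrix.ofMatrix fun i j => a (i, j)), ⟨_, rfl⟩, ?_⟩
  rw [dist_eq_norm, PiLp.norm_eq_of_L2]
  have h3 : ∑ p, ‖(ξ - T.TampL I (CStarMatrix.ofMatrix fun i j => a (i, j))) p‖ ^ 2
      ≤ ∑ _p : I × I, (ε / (Fintype.card I + 1)) ^ 2 := by
    refine Finset.sum_le_sum fun p _ => ?_
    refine pow_le_pow_left₀ (norm_nonneg _) ?_ 2
    exact (ha p).le
  have h4 : ∑ _p : I × I, (ε / (Fintype.card I + 1)) ^ 2 < ε ^ 2 := by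
    simp only [Finset.sum_const, Finset.card_univ, Fintype.card_prod, 
      nsmul_eq_mul]
    push_cast
    rw [div_pow, ← mul_div_assoc, div_lt_iff₀ (by positivity)]
    nlinarith [sq_nonneg ε, mul_pos hε hε]
  calc √(∑ p, ‖(ξ - T.TampL I (CStarMatrix.ofMatrix fun i j => a (i, j))) p‖ ^ 2)
      < √(ε ^ 2) := Real.sqrt_lt_sqrt (Finset.sum_nonneg fun _ _ => sq_nonneg _) (h3.trans_lt h4)
    _ = ε := Real.sqrt_sq hε.le

theorem T_norm_apply_le_amp [Nonempty I] (a : Mt I A) (i j : I) :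
    ‖T.ι (a i j)‖ ≤ Fintype.card I * ‖T.TampL I a‖ := by
  have hN : (1 : ℝ) ≤ (Fintype.card I : ℝ) := by exact_mod_cast (Fintype.card_pos (α := I))
  have h : ‖T.ι (a i j)‖ ^ 2 ≤ (Fintype.card I * ‖T.TampL I a‖) ^ 2 := by
    rw [mul_pow, T_ampL_apply, T_ampι_norm_sq]
    have h1 : ‖T.ι (a i j)‖ ^ 2 ≤ ∑ j', ‖T.ι (a i j')‖ ^ 2 :=
      Finset.single_le_sum (f := fun j' => ‖T.ι (a i j')‖ ^ 2) (fun _ _ => sq_nonneg _)
        (Finset.mem_univ j)
    have h2 : ∑ j', ‖T.ι (a i j')‖ ^ 2 ≤ ∑ i', ∑ j', ‖T.ι (a i' j')‖ ^ 2 :=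
      Finset.single_le_sum (f := fun i' => ∑ j', ‖T.ι (a i' j')‖ ^ 2)
        (fun _ _ => Finset.sum_nonneg fun _ _ => sq_nonneg _) (Finset.mem_univ i)
    have h3 : (Fintype.card I : ℝ) ^ 2 * ((Fintype.card I : ℝ)⁻¹ * ∑ i', ∑ j', ‖T.ι (a i' j')‖ ^ 2)
        = Fintype.card I * ∑ i', ∑ j', ‖T.ι (a i' j')‖ ^ 2 := by
      field_simp
    rw [h3]
    have h4 : 0 ≤ ∑ i', ∑ j', ‖T.ι (a i' j')‖ ^ 2 :=
      Finset.sum_nonneg fun _ _ => Finset.sum_nonneg fun _ _ => sq_nonneg _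
    nlinarith
  exact (pow_le_pow_iff_left₀ (norm_nonneg _) (by positivity) two_ne_zero).1 h

theorem T_amp_complete [Nonempty I] (C : ℝ) (x : ℕ → Mt I A) (hx : ∀ n, ‖x n‖ ≤ C)
    (hc : CauchySeq fun n => T.TampL I (x n)) :
    ∃ y, Tendsto (fun n => T.TampL I (x n)) atTop (𝓝 (T.TampL I y)) := by
  have h1 : ∀ p : I × I, ∃ y : A, Tendsto (fun n => T.ι (x n p.1 p.2)) atTop (𝓝 (T.ι y)) := by
    intro p
    refine T.complete C (fun n => x n p.1 p.2)
      (fun n => CStarMatrix.norm_entry_le_norm.trans (hx n)) ?_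
    rw [Metric.cauchySeq_iff] at hc ⊢
    intro ε hε
    have hN0 : (0 : ℝ) < (Fintype.card I : ℝ) := Nat.cast_pos.2 (Fintype.card_pos (α := I))
    obtain ⟨n₀, hn₀⟩ := hc (ε / Fintype.card I) (by positivity)
    refine ⟨n₀, fun m hm n hn => ?_⟩
    have h2 := hn₀ m hm n hn
    rw [dist_eq_norm, ← map_sub] at h2 ⊢
    have h3 := T.T_norm_apply_le_amp I (x m - x n) p.1 p.2
    calc ‖T.ι (x m p.1 p.2 - x n p.1 p.2)‖ ≤ Fintype.card I * ‖T.TampL I (x m - x n)‖ := h3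
      _ < Fintype.card I * (ε / Fintype.card I) := mul_lt_mul_of_pos_left h2 hN0
      _ = ε := by field_simp
  choose y hy using h1
  refine ⟨CStarMatrix.ofMatrix fun i j => y (i, j), ?_⟩
  have h5 : Tendsto (fun n => (WithLp.ofLp (T.TampL I (x n)) : I × I → K)) atTop
      (𝓝 (WithLp.ofLp (T.TampL I (CStarMatrix.ofMatrix fun i j => y (i, j))))) := by
    rw [tendsto_pi_nhds]
    intro p
    exact (hy p).const_smul _
  exact ((PiLp.continuous_toLp 2 _).tendsto _).comp h5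

/-- the matrices over a tracial algebra as a tracial algebra (normalised trace) -/
noncomputable def ampT [Nonempty I] : TrAlg (Mt I A) (MtK I K) where
  ι := T.TampL I
  inj := T.T_amp_inj I
  dense := T.T_amp_dense I
  norm_one := T.T_amp_norm_one I
  left := T.T_amp_left I
  tr := T.T_amp_tr I
  mul_le := T.T_amp_mul_le I
  complete := T.T_amp_complete I

theorem T_amp_ι [Nonempty I] (a : Mt I A) : (T.ampT I).ι a = T.Tampι I a := rfl

/-- the trace of the matrices -/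
theorem T_amp_τ [Nonempty I] (a : Mt I A) :
    (T.ampT I).τ a = (Fintype.card I : ℂ)⁻¹ * ∑ i, T.τ (a i i) := by
  unfold τ
  rw [T_amp_ι, T_amp_ι, T_ampι_inner]
  congr 1
  refine Finset.sum_congr rfl fun i _ => ?_
  rw [Finset.sum_eq_single i]
  · rw [CStarMatrix.one_apply_eq]
  · intro j _ hj
    rw [CStarMatrix.one_apply_ne (Ne.symm hj), map_zero, inner_zero_left]
  · intro h; exact absurd (Finset.mem_univ i) h

end TrAlg

end Pool.Agent.AbCoc
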