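import Pool.Agent.Lib_MP_418a80_nm.AmpT

/-!
# Matrices with arbitrary finite index type: action, diagonal matrices, unnormalised trace
-/

set_option autoImplicit false
set_option linter.unusedVariables false
set_option linter.unusedSectionVars false

open Topology Filter

namespace Pool.Agent.AbCoc

universe u v w

section
variable {A : Type u} [CStarAlgebra A]
variable (I : Type) [Fintype I] [DecidableEq I]

/-- entrywise application of a *-homomorphism -/
noncomputable def mtMap (f : A →⋆ₐ[ℂ] A) : Mt I A →⋆ₐ[ℂ] Mt I A where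
  toFun M := CStarMatrix.ofMatrix fun i j => f (M i j)
  map_one' := by
    ext i j
    change f ((1 : Mt I A) i j) = (1 : Mt I A) i j
    by_cases h : i = j
    · subst h; rw [CStarMatrix.one_apply_eq, map_one]
    · rw [CStarMatrix.one_apply_ne h, map_zero]
  map_mul' a b := by
    ext i j
    change f ((a * b) i j) = ∑ k, f (a i k) * f (b k j)
    rw [CStarMatrix.mul_apply, map_sum]
    exact Finset.sum_congr rfl fun k _ => map_mul _ _ _
  map_zero' := by
    ext i j
    exact map_zero f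
  map_add' a b := by
    ext i j
    exact map_add f _ _
  commutes' r := by
    ext i j
    change f ((algebraMap ℂ (Mt I A) r) i j) = (algebraMap ℂ (Mt I A) r) i j
    rw [CStarMatrix.algebraMap_apply]
    by_cases h : i = j
    · rw [if_pos h, AlgHomClass.commutes]
    · rw [if_neg h, map_zero]
  map_star' a := by
    ext i j
    exact map_star f (a j i)

theorem mtMap_apply (f : A →⋆ₐ[ℂ] A) (M : Mt I A) (i j : I) :
    mtMap I f M i j = f (M i j) := rfl

/-- diagonal matrices -/
noncomputable def dgm : (I → A) →⋆ₐ[ℂ] Mt I A where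
  toFun x := CStarMatrix.ofMatrix fun i j => if i = j then x i else 0
  map_one' := by
    ext i j
    change (if i = j then (1 : A) else 0) = (1 : Mt I A) i j
    by_cases h : i = j
    · subst h; rw [CStarMatrix.one_apply_eq, if_pos rfl]
    · rw [CStarMatrix.one_apply_ne h, if_neg h]
  map_mul' a b := by
    ext i j
    change (if i = j then a i * b i else 0)
      = ∑ k, (if i = k then a i else 0) * (if k = j then b k else 0)
    rw [Finset.sum_eq_single i]
    · by_cases h : i = j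
      · rw [if_pos h, if_pos rfl, if_pos h]
      · rw [if_neg h, if_neg h, mul_zero]
    · intro k _ hk
      rw [if_neg (Ne.symm hk), zero_mul]
    · intro h; exact absurd (Finset.mem_univ i) h
  map_zero' := by
    ext i j
    change (if i = j then (0 : A) else 0) = 0
    rw [ite_self]
  map_add' a b := by
    ext i j
    change (if i = j then a i + b i else 0) = (if i = j then a i else 0) + if i = j then b i else 0
    by_cases h : i = j
    · rw [if_pos h, if_pos h, if_pos h]
    · rw [if_neg h, if_neg h, if_neg h, add_zero]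
  commutes' r := by
    ext i j
    rw [CStarMatrix.algebraMap_apply]
    rfl
  map_star' a := by
    ext i j
    change (if i = j then star (a i) else 0) = star (if j = i then a j else 0)
    by_cases h : i = j
    · subst h; rw [if_pos rfl, if_pos rfl]
    · rw [if_neg h, if_neg (Ne.symm h), star_zero]

variable {I}

theorem dgm_apply (x : I → A) (i j : I) : dgm I x i j = if i = j then x i else 0 := rfl

theorem dgm_mul_apply (x : I → A) (M : Mt I A) (i j : I) : (dgm I x * M) i j = x i * M i j := by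
  rw [CStarMatrix.mul_apply, Finset.sum_eq_single i]
  · rw [dgm_apply, if_pos rfl]
  · intro k _ hk
    rw [dgm_apply, if_neg (Ne.symm hk), zero_mul]
  · intro h; exact absurd (Finset.mem_univ i) h

theorem mul_dgm_apply (x : I → A) (M : Mt I A) (i j : I) : (M * dgm I x) i j = M i j * x j := by
  rw [CStarMatrix.mul_apply, Finset.sum_eq_single j]
  · rw [dgm_apply, if_pos rfl]
  · intro k _ hk
    rw [dgm_apply, if_neg hk, mul_zero]
  · intro h; exact absurd (Finset.mem_univ j) h

theorem norm_dgm_le [PartialOrder A] [StarOrderedRing A] (x : I → A) {c : ℝ} (hc : 0 ≤ c) (hx : ∀ i, ‖x i‖ ≤ c) :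
    ‖dgm I x‖ ≤ c :=
  (NonUnitalStarAlgHom.norm_apply_le (dgm (A := A) I) x).trans ((pi_norm_le_iff_of_nonneg hc).2 hx)

end

section
variable {A : Type u} [CStarAlgebra A] [PartialOrder A] [StarOrderedRing A]
  {K : Type v} [NormedAddCommGroup K] [InnerProductSpace ℂ K] (T : TrAlg A K)
  {I : Type} [Fintype I] [DecidableEq I] [Nonempty I]

theorem TrAlg.ampT_norm_sq (M : Mt I A) :
    ‖(T.ampT I).ι M‖ ^ 2 = (Fintype.card I : ℝ)⁻¹ * ∑ i, ∑ j, ‖T.ι (M i j)‖ ^ 2 :=
  T.T_ampι_norm_sq I M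

theorem TrAlg.ampT_τ (M : Mt I A) : (T.ampT I).τ M = (Fintype.card I : ℂ)⁻¹ * ∑ i, T.τ (M i i) :=
  T.T_amp_τ I M

end

section
variable {A : Type u} [CStarAlgebra A]
  {K : Type v} [NormedAddCommGroup K] [InnerProductSpace ℂ K] (T : TrAlg A K)
  {I : Type} [Fintype I] [DecidableEq I]

/-- the unnormalised trace -/
noncomputable def TrAlg.TrM (M : Mt I A) : ℂ := ∑ i, T.τ (M i i)

/-- the square of the unnormalised Hilbert-Schmidt norm -/
noncomputable def TrAlg.hs (M : Mt I A) : ℝ := ∑ i, ∑ j, ‖T.ι (M i j)‖ ^ 2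

theorem TrAlg.hs_nonneg (M : Mt I A) : 0 ≤ T.hs M :=
  Finset.sum_nonneg fun _ _ => Finset.sum_nonneg fun _ _ => sq_nonneg _

theorem TrAlg.τ_zero' : T.τ 0 = 0 := by
  unfold TrAlg.τ
  rw [map_zero, inner_zero_right]

theorem TrAlg.τ_sum' {J : Type*} (s : Finset J) (f : J → A) :
    T.τ (∑ j ∈ s, f j) = ∑ j ∈ s, T.τ (f j) := by
  unfold TrAlg.τ
  rw [map_sum, inner_sum]

theorem TrAlg.TrM_add (a b : Mt I A) : T.TrM (a + b) = T.TrM a + T.TrM b := by
  unfold TrAlg.TrM
  rw [← Finset.sum_add_distrib]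
  exact Finset.sum_congr rfl fun i _ => T.τ_add _ _

theorem TrAlg.TrM_sub (a b : Mt I A) : T.TrM (a - b) = T.TrM a - T.TrM b := by
  unfold TrAlg.TrM
  rw [← Finset.sum_sub_distrib]
  exact Finset.sum_congr rfl fun i _ => T.τ_sub _ _

theorem TrAlg.TrM_smul (c : ℂ) (a : Mt I A) : T.TrM (c • a) = c * T.TrM a := by
  unfold TrAlg.TrM
  rw [Finset.mul_sum]
  exact Finset.sum_congr rfl fun i _ => T.τ_smul _ _

theorem TrAlg.TrM_zero : T.TrM (0 : Mt I A) = 0 := by
  unfold TrAlg.TrM
  exact Finset.sum_eq_zero fun i _ => T.τ_zero'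

theorem TrAlg.TrM_sum {J : Type*} (s : Finset J) (f : J → Mt I A) :
    T.TrM (∑ j ∈ s, f j) = ∑ j ∈ s, T.TrM (f j) := by
  classical
  induction s using Finset.induction_on with
  | empty => rw [Finset.sum_empty, Finset.sum_empty, T.TrM_zero]
  | insert j s hj ih => rw [Finset.sum_insert hj, Finset.sum_insert hj, T.TrM_add, ih]

theorem TrAlg.TrM_mul_comm (a b : Mt I A) : T.TrM (a * b) = T.TrM (b * a) := by
  unfold TrAlg.TrM
  simp only [CStarMatrix.mul_apply, T.τ_sum']
  rw [Finset.sum_comm]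
  exact Finset.sum_congr rfl fun i _ => Finset.sum_congr rfl fun j _ => T.τ_mul_comm _ _

end

theorem TrAlg.powers_stormer_ex {B : Type u} [CStarAlgebra B] {K : Type v} [NormedAddCommGroup K]
    [InnerProductSpace ℂ K] (T : TrAlg B K) {a b : B} (ha : ∃ z, a = star z * z)
    (hb : ∃ z, b = star z * z) {c : ℝ}
    (hc : ∀ y : B, ‖y‖ ≤ 1 → ‖T.τ ((a * a - b * b) * y)‖ ≤ c) : ‖T.ι (a - b)‖ ^ 2 ≤ c := by
  letI : PartialOrder B := CStarAlgebra.spectralOrder B
  letI : StarOrderedRing B := CStarAlgebra.spectralOrderedRing B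
  exact T.powers_stormer (CStarAlgebra.nonneg_iff_eq_star_mul_self.2 ha)
    (CStarAlgebra.nonneg_iff_eq_star_mul_self.2 hb) hc

section
variable {A : Type u} [CStarAlgebra A] [PartialOrder A] [StarOrderedRing A]
  {K : Type v} [NormedAddCommGroup K] [InnerProductSpace ℂ K] (T : TrAlg A K)
  {I : Type} [Fintype I] [DecidableEq I] [Nonempty I]

theorem TrAlg.card_pos' : (0 : ℝ) < (Fintype.card I : ℝ) := Nat.cast_pos.2 Fintype.card_pos

theorem TrAlg.hs_eq (M : Mt I A) :
    T.hs M = (Fintype.card I : ℝ) * ‖(T.ampT I).ι M‖ ^ 2 := by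
  have h := TrAlg.card_pos' (I := I)
  rw [T.ampT_norm_sq, ← mul_assoc, mul_inv_cancel₀ h.ne', one_mul]
  rfl

theorem TrAlg.TrM_eq (M : Mt I A) : T.TrM M = (Fintype.card I : ℂ) * (T.ampT I).τ M := by
  have h : (Fintype.card I : ℂ) ≠ 0 := Nat.cast_ne_zero.2 Fintype.card_ne_zero
  rw [T.ampT_τ, ← mul_assoc, mul_inv_cancel₀ h, one_mul]
  rfl

theorem TrAlg.hs_eq_Tr (M : Mt I A) : T.hs M = (T.TrM (star M * M)).re := by
  rw [T.hs_eq, T.TrM_eq, (T.ampT I).norm_sq, ← Complex.ofReal_natCast, Complex.re_ofReal_mul]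

/-- Hölder: `|TrM(star a y b)| ≤ ‖y‖ ‖a‖₂ ‖b‖₂` -/
theorem TrAlg.norm_Tr_le (a y b : Mt I A) :
    ‖T.TrM (star a * y * b)‖ ≤ ‖y‖ * (Real.sqrt (T.hs a) * Real.sqrt (T.hs b)) := by
  have hc := TrAlg.card_pos' (I := I)
  have h1 : T.TrM (star a * y * b) = (Fintype.card I : ℂ)
      * inner ℂ ((T.ampT I).ι a) ((T.ampT I).ι (y * b)) := by
    rw [T.TrM_eq, (T.ampT I).inner_eq_τ, mul_assoc]
  rw [h1, norm_mul, Complex.norm_natCast]
  have h2 : ‖inner ℂ ((T.ampT I).ι a) ((T.ampT I).ι (y * b))‖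
      ≤ ‖(T.ampT I).ι a‖ * (‖y‖ * ‖(T.ampT I).ι b‖) :=
    (norm_inner_le_norm _ _).trans
      (mul_le_mul_of_nonneg_left ((T.ampT I).mul_le _ _) (norm_nonneg _))
  have h3 : ∀ M : Mt I A, Real.sqrt (T.hs M)
      = Real.sqrt (Fintype.card I : ℝ) * ‖(T.ampT I).ι M‖ := by
    intro M
    rw [T.hs_eq, Real.sqrt_mul hc.le, Real.sqrt_sq (norm_nonneg _)]
  rw [h3, h3]
  have h4 := Real.mul_self_sqrt hc.le
  calc (Fintype.card I : ℝ) * ‖inner ℂ ((T.ampT I).ι a) ((T.ampT I).ι (y * b))‖
      ≤ (Fintype.card I : ℝ) * (‖(T.ampT I).ι a‖ * (‖y‖ * ‖(T.ampT I).ι b‖)) :=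
        mul_le_mul_of_nonneg_left h2 hc.le
    _ = _ := by
        nth_rewrite 1 [← h4]
        ring

theorem TrAlg.powers_stormer_T {a b : Mt I A}
    (ha : ∃ z, a = star z * z) (hb : ∃ z, b = star z * z)
    {c : ℝ} (hc : ∀ y : Mt I A, ‖y‖ ≤ 1 → ‖T.TrM ((a * a - b * b) * y)‖ ≤ c) :
    T.hs (a - b) ≤ c := by
  have hp := TrAlg.card_pos' (I := I)
  have h := (T.ampT I).powers_stormer_ex ha hb (c := (Fintype.card I : ℝ)⁻¹ * c) fun y hy => by
    have h1 := hc y hy
    rw [T.TrM_eq, norm_mul, Complex.norm_natCast] at h1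
    rw [← div_eq_inv_mul, le_div_iff₀ hp]
    linarith
  rw [T.hs_eq]
  calc (Fintype.card I : ℝ) * ‖(T.ampT I).ι (a - b)‖ ^ 2
      ≤ (Fintype.card I : ℝ) * ((Fintype.card I : ℝ)⁻¹ * c) := mul_le_mul_of_nonneg_left h hp.le
    _ = c := by rw [← mul_assoc, mul_inv_cancel₀ hp.ne', one_mul]

end

section
variable {A : Type u} [CStarAlgebra A] [PartialOrder A] [StarOrderedRing A]
  {K : Type v} [NormedAddCommGroup K] [InnerProductSpace ℂ K]
variable {G : Type w} [Group G] [TopologicalSpace G] {T : TrAlg A K} (S : TrAct G T)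
  (I : Type) [Fintype I] [DecidableEq I] [Nonempty I]

/-- the action on the matrices -/
noncomputable def TrAct.ampT : TrAct G (T.ampT I) where
  α g := mtMap I (S.α g)
  one a := by
    ext i j
    rw [mtMap_apply, S.one]
  mul g h a := by
    ext i j
    rw [mtMap_apply, mtMap_apply, mtMap_apply, S.mul]
  norm_map g a := by
    have h : ‖(T.ampT I).ι (mtMap I (S.α g) a)‖ ^ 2 = ‖(T.ampT I).ι a‖ ^ 2 := by
      rw [T.ampT_norm_sq, T.ampT_norm_sq]
      congr 1
      refine Finset.sum_congr rfl fun i _ => Finset.sum_congr rfl fun j _ => ?_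
      rw [mtMap_apply, S.norm_map]
    exact (pow_left_inj₀ (norm_nonneg _) (norm_nonneg _) two_ne_zero).1 h
  cont a := (PiLp.continuous_toLp 2 _).comp
    (continuous_pi fun p => (S.cont (a p.1 p.2)).const_smul _)

variable {I}

theorem TrAct.ampT_α_apply (g : G) (M : Mt I A) (i j : I) :
    (S.ampT I).α g M i j = S.α g (M i j) := rfl

end

section
variable {A : Type u} [CStarAlgebra A]
  {K : Type v} [NormedAddCommGroup K] [InnerProductSpace ℂ K]
variable {G : Type w} [Group G] [TopologicalSpace G] {T : TrAlg A K} (S : TrAct G T)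
  {I : Type} [Fintype I] [DecidableEq I]

/-- `x ↦ (α_{s_i}(x))_i` as a function -/
noncomputable def TrAct.pif (s : I → G) : A →⋆ₐ[ℂ] (I → A) where
  toFun x := fun i => S.α (s i) x
  map_one' := by funext i; exact map_one _
  map_mul' a b := by funext i; exact map_mul _ _ _
  map_zero' := by funext i; exact map_zero _
  map_add' a b := by funext i; exact map_add _ _ _
  commutes' r := by funext i; exact AlgHomClass.commutes _ r
  map_star' a := by funext i; exact map_star _ _

/-- the diagonal embedding `x ↦ diag(α_{s_i}(x))` -/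
noncomputable def TrAct.pid (s : I → G) : A →⋆ₐ[ℂ] Mt I A := (dgm I).comp (S.pif s)

theorem TrAct.pid_eq (s : I → G) (x : A) : S.pid s x = dgm I fun i => S.α (s i) x := rfl

theorem TrAct.pid_mul_apply (s : I → G) (x : A) (M : Mt I A) (i j : I) :
    (S.pid s x * M) i j = S.α (s i) x * M i j := by
  rw [S.pid_eq, dgm_mul_apply]

theorem TrAct.mul_pid_apply (s : I → G) (x : A) (M : Mt I A) (i j : I) :
    (M * S.pid s x) i j = M i j * S.α (s j) x := by
  rw [S.pid_eq, mul_dgm_apply]

end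

end Pool.Agent.AbCoc
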