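import Pool.Agent.Lib_MP_418a80_ab.Tr

/-!
# The resolvent budget of a random walk

`rsv f s` is the resolvent `(f + s)⁻¹` of a positive element, `es f s = f (f + s)⁻¹`. Along the
walk `f ↦ (card E)⁻¹ ∑ e, w e * f * star (w e)` the trace of `es f s` increases, and the increment
controls the commutators of `es f s` with the letters (`TrAlg.budget_step`). Since the trace of
`es f s` is at most `min 1 (τ f / s)`, the sum over dyadic levels gives `TrAlg.budget`.
-/

set_option autoImplicit false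
set_option linter.unusedVariables false
set_option linter.unusedSectionVars false

open Topology Filter

namespace Pool.Agent.AbCoc

universe u v w

section res
variable {B : Type u} [CStarAlgebra B] [PartialOrder B] [StarOrderedRing B]

theorem ofReal_smul_nonneg {s : ℝ} (hs : 0 ≤ s) {a : B} (ha : 0 ≤ a) : 0 ≤ (s : ℂ) • a := by
  rw [Complex.coe_smul]
  exact smul_nonneg hs ha

/-- the resolvent -/
noncomputable def rsv (f : B) (s : ℝ) : B := cfc (fun x : ℝ => (x + s)⁻¹) f

theorem rsv_contOn {f : B} (hf : 0 ≤ f) {s : ℝ} (hs : 0 < s) :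
    ContinuousOn (fun x : ℝ => (x + s)⁻¹) (spectrum ℝ f) := by
  refine ContinuousOn.inv₀ (by fun_prop) fun x hx => ?_
  have := spectrum_nonneg_of_nonneg hf hx
  positivity

theorem rsv_cfc_add {f : B} (hf : 0 ≤ f) (s : ℝ) :
    cfc (fun x : ℝ => x + s) f = f + (s : ℂ) • (1 : B) := by
  have h := cfc_add_const s (fun x : ℝ => x) f (by fun_prop) (IsSelfAdjoint.of_nonneg hf)
  rw [h, cfc_id' ℝ f (IsSelfAdjoint.of_nonneg hf), Algebra.algebraMap_eq_smul_one, Complex.coe_smul]

theorem rsv_left {f : B} (hf : 0 ≤ f) {s : ℝ} (hs : 0 < s) :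
    rsv f s * (f + (s : ℂ) • (1 : B)) = 1 := by
  rw [← rsv_cfc_add hf]
  unfold rsv
  rw [← cfc_mul _ _ f (rsv_contOn hf hs) (by fun_prop)]
  have h : cfc (fun x : ℝ => (x + s)⁻¹ * (x + s)) f = cfc (fun _ : ℝ => (1 : ℝ)) f := by
    refine cfc_congr fun x hx => ?_
    have := spectrum_nonneg_of_nonneg hf hx
    have h1 : x + s ≠ 0 := by positivity
    exact inv_mul_cancel₀ h1
  rw [h, cfc_const_one ℝ f (IsSelfAdjoint.of_nonneg hf)]

theorem rsv_right {f : B} (hf : 0 ≤ f) {s : ℝ} (hs : 0 < s) :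
    (f + (s : ℂ) • (1 : B)) * rsv f s = 1 := by
  rw [← rsv_cfc_add hf]
  unfold rsv
  rw [← cfc_mul _ _ f (by fun_prop) (rsv_contOn hf hs)]
  have h : cfc (fun x : ℝ => (x + s) * (x + s)⁻¹) f = cfc (fun _ : ℝ => (1 : ℝ)) f := by
    refine cfc_congr fun x hx => ?_
    have := spectrum_nonneg_of_nonneg hf hx
    have h1 : x + s ≠ 0 := by positivity
    exact mul_inv_cancel₀ h1
  rw [h, cfc_const_one ℝ f (IsSelfAdjoint.of_nonneg hf)]

theorem rsv_nonneg {f : B} (hf : 0 ≤ f) {s : ℝ} (hs : 0 < s) : 0 ≤ rsv f s := by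
  refine cfc_nonneg fun x hx => ?_
  have := spectrum_nonneg_of_nonneg hf hx
  positivity

theorem rsv_star {f : B} (hf : 0 ≤ f) {s : ℝ} (hs : 0 < s) : star (rsv f s) = rsv f s :=
  (IsSelfAdjoint.of_nonneg (rsv_nonneg hf hs)).star_eq

theorem rsv_mul_self {f : B} (hf : 0 ≤ f) {s : ℝ} (hs : 0 < s) :
    rsv f s * f = 1 - (s : ℂ) • rsv f s := by
  have h := rsv_left hf hs
  rw [mul_add, mul_smul_comm, mul_one] at h
  rw [← h]
  abel

theorem self_mul_rsv {f : B} (hf : 0 ≤ f) {s : ℝ} (hs : 0 < s) :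
    f * rsv f s = 1 - (s : ℂ) • rsv f s := by
  have h := rsv_right hf hs
  rw [add_mul, smul_mul_assoc, one_mul] at h
  rw [← h]
  abel

/-- the resolvent of a conjugate -/
theorem rsv_conj {f : B} (hf : 0 ≤ f) {s : ℝ} (hs : 0 < s) {w : B} (h1 : star w * w = 1)
    (h2 : w * star w = 1) : rsv (w * f * star w) s = w * rsv f s * star w := by
  have h3 : 0 ≤ w * f * star w := star_right_conjugate_nonneg hf w
  have h4 : (w * f * star w + (s : ℂ) • (1 : B)) * (w * rsv f s * star w) = 1 := by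
    have h5 : w * f * star w + (s : ℂ) • (1 : B) = w * (f + (s : ℂ) • (1 : B)) * star w := by
      rw [mul_add, add_mul, mul_smul_comm, mul_one, smul_mul_assoc, h2]
    rw [h5]
    calc w * (f + (s : ℂ) • (1 : B)) * star w * (w * rsv f s * star w)
        = w * (f + (s : ℂ) • (1 : B)) * (star w * w) * rsv f s * star w := by
          generalize f + (s : ℂ) • (1 : B) = g
          noncomm_ring
      _ = w * ((f + (s : ℂ) • (1 : B)) * rsv f s) * star w := by
          rw [h1, mul_one, mul_assoc w]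
      _ = 1 := by rw [rsv_right hf hs, mul_one, h2]
  calc rsv (w * f * star w) s
      = rsv (w * f * star w) s * ((w * f * star w + (s : ℂ) • (1 : B)) *
          (w * rsv f s * star w)) := by rw [h4, mul_one]
    _ = w * rsv f s * star w := by rw [← mul_assoc, rsv_left h3 hs, one_mul]

/-- `f (f + s)⁻¹` -/
noncomputable def es (f : B) (s : ℝ) : B := f * rsv f s

theorem es_eq {f : B} (hf : 0 ≤ f) {s : ℝ} (hs : 0 < s) : es f s = 1 - (s : ℂ) • rsv f s :=
  self_mul_rsv hf hs

theorem es_eq' {f : B} (hf : 0 ≤ f) {s : ℝ} (hs : 0 < s) : es f s = rsv f s * f := by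
  rw [rsv_mul_self hf hs, es_eq hf hs]

theorem es_star {f : B} (hf : 0 ≤ f) {s : ℝ} (hs : 0 < s) : star (es f s) = es f s := by
  rw [es_eq hf hs, star_sub, star_one, star_smul, rsv_star hf hs, Complex.star_def,
    Complex.conj_ofReal]

theorem es_nonneg {f : B} (hf : 0 ≤ f) {s : ℝ} (hs : 0 < s) : 0 ≤ es f s := by
  unfold es
  exact Commute.mul_nonneg hf (rsv_nonneg hf hs)
    (by rw [Commute, SemiconjBy, self_mul_rsv hf hs, rsv_mul_self hf hs])

theorem es_le_one {f : B} (hf : 0 ≤ f) {s : ℝ} (hs : 0 < s) : es f s ≤ 1 := by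
  rw [es_eq hf hs, sub_le_self_iff]
  exact ofReal_smul_nonneg hs.le (rsv_nonneg hf hs)

theorem es_norm_le {f : B} (hf : 0 ≤ f) {s : ℝ} (hs : 0 < s) : ‖es f s‖ ≤ 1 :=
  (CStarAlgebra.norm_le_one_iff_of_nonneg _ (es_nonneg hf hs)).2 (es_le_one hf hs)

/-- `f - s * es f s = f * rsv f s * f` -/
theorem sub_smul_es {f : B} (hf : 0 ≤ f) {s : ℝ} (hs : 0 < s) :
    f - (s : ℂ) • es f s = star f * rsv f s * f := by
  rw [(IsSelfAdjoint.of_nonneg hf).star_eq, mul_assoc, rsv_mul_self hf hs, mul_sub, mul_one,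
    mul_smul_comm]
  rfl

theorem self_mul_es {f : B} (hf : 0 ≤ f) {s : ℝ} (hs : 0 < s) :
    f * es f s = f - (s : ℂ) • es f s := by
  rw [es_eq hf hs, mul_sub, mul_one, mul_smul_comm, ← es_eq hf hs]
  rfl

/-- product of two levels -/
theorem es_mul_es {f : B} (hf : 0 ≤ f) {s t : ℝ} (hs : 0 < s) (ht : 0 < t) :
    ((s - t : ℝ) : ℂ) • (es f s * es f t) = f * es f t - f * es f s := by
  -- `(s - t) R_s R_t = R_t - R_s`
  have h1 : rsv f t - rsv f s = ((s - t : ℝ) : ℂ) • (rsv f s * rsv f t) := by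
    have h2 : rsv f t - rsv f s
        = rsv f s * ((f + (s : ℂ) • (1 : B)) - (f + (t : ℂ) • (1 : B))) * rsv f t := by
      rw [mul_sub, sub_mul, rsv_left hf hs, one_mul, mul_assoc (rsv f s) (f + (t : ℂ) • (1 : B)),
        rsv_right hf ht, mul_one]
    rw [h2, add_sub_add_left_eq_sub, ← sub_smul, mul_smul_comm, mul_one, smul_mul_assoc]
    push_cast
    rfl
  have h3 : es f s * es f t = f * (f * (rsv f s * rsv f t)) := by
    have h4 : es f s * es f t = f * (rsv f s * f) * rsv f t := by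
      unfold es
      noncomm_ring
    rw [h4, rsv_mul_self hf hs, ← self_mul_rsv hf hs]
    noncomm_ring
  rw [h3, ← mul_smul_comm, ← mul_smul_comm, ← h1, mul_sub, mul_sub]
  rfl

theorem es_comm_es {f : B} (hf : 0 ≤ f) {s t : ℝ} (hs : 0 < s) (ht : 0 < t) :
    Commute (es f s) (es f t) := by
  have h1 : star (es f s * es f t) = es f t * es f s := by
    rw [star_mul, es_star hf hs, es_star hf ht]
  by_cases hst : s = t
  · subst hst
    exact Commute.refl _
  have h2 : ((s - t : ℝ) : ℂ) ≠ 0 := by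
    rw [Complex.ofReal_ne_zero]
    exact sub_ne_zero.2 hst
  have h3 := es_mul_es hf hs ht
  have h4 := es_mul_es hf ht hs
  have h5 : ((s - t : ℝ) : ℂ) • (es f s * es f t) = ((s - t : ℝ) : ℂ) • (es f t * es f s) := by
    rw [h3]
    have h6 : ((s - t : ℝ) : ℂ) = -((t - s : ℝ) : ℂ) := by push_cast; ring
    rw [h6, neg_smul, h4]
    abel
  exact smul_right_injective B h2 h5

/-- lower levels are larger -/
theorem es_anti {f : B} (hf : 0 ≤ f) {s t : ℝ} (hs : 0 < s) (ht : 0 < t) (hts : t ≤ s) :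
    es f s ≤ es f t := by
  have h1 : es f t - es f s = ((s - t : ℝ) : ℂ) • (f * (rsv f s * rsv f t)) := by
    have h2 : rsv f t - rsv f s
        = rsv f s * ((f + (s : ℂ) • (1 : B)) - (f + (t : ℂ) • (1 : B))) * rsv f t := by
      rw [mul_sub, sub_mul, rsv_left hf hs, one_mul, mul_assoc (rsv f s) (f + (t : ℂ) • (1 : B)),
        rsv_right hf ht, mul_one]
    have h3 : rsv f t - rsv f s = ((s - t : ℝ) : ℂ) • (rsv f s * rsv f t) := by
      rw [h2, add_sub_add_left_eq_sub, ← sub_smul, mul_smul_comm, mul_one, smul_mul_assoc]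
      push_cast
      rfl
    unfold es
    rw [← mul_sub, h3, mul_smul_comm]
  rw [← sub_nonneg, h1]
  refine ofReal_smul_nonneg (sub_nonneg.2 hts) ?_
  rw [← mul_assoc]
  change 0 ≤ es f s * rsv f t
  refine Commute.mul_nonneg (es_nonneg hf hs) (rsv_nonneg hf ht) ?_
  have h5 : ((t : ℝ) : ℂ) • rsv f t = 1 - es f t := by
    rw [es_eq hf ht]
    abel
  have h6 : (((t : ℝ) : ℂ)) ≠ 0 := by rw [Complex.ofReal_ne_zero]; exact ht.ne'
  have h7 : rsv f t = (((t : ℝ) : ℂ))⁻¹ • (1 - es f t) := by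
    rw [← h5, smul_smul, inv_mul_cancel₀ h6, one_smul]
  rw [h7]
  exact ((Commute.one_right _).sub_right (es_comm_es hf hs ht)).smul_right _

end res


section budget
variable {B : Type u} [CStarAlgebra B] [PartialOrder B] [StarOrderedRing B]
  {K : Type v} [NormedAddCommGroup K] [InnerProductSpace ℂ K] (T : TrAlg B K)

theorem TrAlg.bud_τ_sum {J : Type*} (s : Finset J) (f : J → B) :
    T.τ (∑ j ∈ s, f j) = ∑ j ∈ s, T.τ (f j) := by
  unfold TrAlg.τ
  rw [map_sum, inner_sum]

/-- strong convexity of the trace of the resolvent -/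
theorem TrAlg.bud_jensen {E : Type*} [Fintype E] [Nonempty E] (a : E → B) (ha : ∀ e, 0 ≤ a e)
    {g : B} (hg : 0 ≤ g) (hag : ∑ e, a e = (Fintype.card E : ℂ) • g) {s : ℝ} (hs : 0 < s) :
    s * ∑ e, ‖T.ι (rsv g s - rsv (a e) s)‖ ^ 2
      ≤ ∑ e, (T.τ (rsv (a e) s)).re - Fintype.card E * (T.τ (rsv g s)).re := by
  have h1 : ∀ e, (T.τ (rsv (a e) s)).re = (T.τ (rsv g s)).re
      - (T.τ (rsv g s * (a e - g) * rsv g s)).re
      + (T.τ (star (rsv g s - rsv (a e) s) * (a e + (s : ℂ) • (1 : B))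
          * (rsv g s - rsv (a e) s))).re := by
    intro e
    have h2 : rsv (a e) s = rsv g s - rsv g s * (a e - g) * rsv g s
      + star (rsv g s - rsv (a e) s) * (a e + (s : ℂ) • (1 : B)) * (rsv g s - rsv (a e) s) := by
      have h3 := rsv_right (ha e) hs
      have h4 := rsv_left (ha e) hs
      have h5 := rsv_left hg hs
      rw [star_sub, rsv_star hg hs, rsv_star (ha e) hs]
      have h6 : a e - g = (a e + (s : ℂ) • (1 : B)) - (g + (s : ℂ) • (1 : B)) := by abel
      rw [h6]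
      generalize a e + (s : ℂ) • (1 : B) = p at *
      generalize g + (s : ℂ) • (1 : B) = q at *
      generalize rsv (a e) s = y at *
      generalize rsv g s = x at *
      have h7 : x * (p - q) * x = x * p * x - x := by
        rw [mul_sub, sub_mul, h5, one_mul]
      have h8 : (x - y) * p * (x - y) = x * p * x - x - x + y := by
        have : (x - y) * p * (x - y) = x * p * x - x * (p * y) - (y * p) * x + (y * p) * y := by
          noncomm_ring
        rw [this, h3, h4, mul_one, one_mul, one_mul]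
      rw [h7, h8]
      abel
    have h9 := congrArg (fun z => (T.τ z).re) h2
    simp only [T.τ_add, T.τ_sub, Complex.add_re, Complex.sub_re] at h9
    exact h9
  have h2 : ∑ e, (T.τ (rsv g s * (a e - g) * rsv g s)).re = 0 := by
    rw [← Complex.re_sum, ← T.bud_τ_sum, ← Finset.sum_mul, ← Finset.mul_sum,
      Finset.sum_sub_distrib, hag, Finset.sum_const, Finset.card_univ]
    have h3 : (Fintype.card E : ℂ) • g - Fintype.card E • g = 0 := by
      rw [sub_eq_zero, Nat.cast_smul_eq_nsmul]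
    rw [h3, mul_zero, zero_mul]
    unfold TrAlg.τ
    simp
  have h3 : ∀ e, s * ‖T.ι (rsv g s - rsv (a e) s)‖ ^ 2
      ≤ (T.τ (star (rsv g s - rsv (a e) s) * (a e + (s : ℂ) • (1 : B))
          * (rsv g s - rsv (a e) s))).re := by
    intro e
    have h4 : star (rsv g s - rsv (a e) s) * (a e + (s : ℂ) • (1 : B)) * (rsv g s - rsv (a e) s)
        = star (rsv g s - rsv (a e) s) * a e * (rsv g s - rsv (a e) s)
          + (s : ℂ) • (star (rsv g s - rsv (a e) s) * (rsv g s - rsv (a e) s)) := by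
      rw [mul_add, add_mul, mul_smul_comm, mul_one, smul_mul_assoc]
    rw [h4, T.τ_add, T.τ_smul, Complex.add_re, Complex.re_ofReal_mul, T.norm_sq]
    have := T.re_τ_conj_nonneg (rsv g s - rsv (a e) s) (a e) (ha e)
    linarith
  rw [Finset.mul_sum]
  refine (Finset.sum_le_sum fun e _ => h3 e).trans (le_of_eq ?_)
  rw [Finset.sum_congr rfl fun e _ => h1 e, Finset.sum_add_distrib, Finset.sum_sub_distrib, h2,
    Finset.sum_const, Finset.card_univ, nsmul_eq_mul]
  ring

/-- the random walk with the letters `w` -/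
noncomputable def wlk {E : Type*} [Fintype E] (w : E → B) (f : B) : B :=
  ((Fintype.card E : ℂ))⁻¹ • ∑ e, w e * f * star (w e)

theorem wlk_nonneg {E : Type*} [Fintype E] (w : E → B) {f : B} (hf : 0 ≤ f) : 0 ≤ wlk w f := by
  unfold wlk
  have h1 : ((Fintype.card E : ℂ))⁻¹ = ((((Fintype.card E : ℝ))⁻¹ : ℝ) : ℂ) := by push_cast; rfl
  rw [h1]
  exact ofReal_smul_nonneg (by positivity)
    (Finset.sum_nonneg fun e _ => star_right_conjugate_nonneg hf _)

theorem TrAlg.τ_wlk {E : Type*} [Fintype E] [Nonempty E] (w : E → B)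
    (hw : ∀ e, star (w e) * w e = 1) (f : B) : T.τ (wlk w f) = T.τ f := by
  unfold wlk
  have hc : (Fintype.card E : ℂ) ≠ 0 := Nat.cast_ne_zero.2 Fintype.card_ne_zero
  have h1 : ∀ e, T.τ (w e * f * star (w e)) = T.τ f := fun e => by
    rw [T.τ_mul_comm, ← mul_assoc, hw, one_mul]
  rw [T.τ_smul, T.bud_τ_sum, Finset.sum_congr rfl fun e _ => h1 e, Finset.sum_const,
    Finset.card_univ, nsmul_eq_mul, ← mul_assoc, inv_mul_cancel₀ hc, one_mul]

/-- the trace of `es f s` -/
noncomputable def TrAlg.Nes (f : B) (s : ℝ) : ℝ := (T.τ (es f s)).re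

theorem TrAlg.Nes_nonneg {f : B} (hf : 0 ≤ f) {s : ℝ} (hs : 0 < s) : 0 ≤ T.Nes f s :=
  T.re_τ_nonneg _ (es_nonneg hf hs)

theorem TrAlg.Nes_le_one {f : B} (hf : 0 ≤ f) {s : ℝ} (hs : 0 < s) : T.Nes f s ≤ 1 := by
  have h1 := T.re_τ_nonneg _ (sub_nonneg.2 (es_le_one hf hs))
  rw [T.τ_sub, T.τ_one, Complex.sub_re, Complex.one_re] at h1
  unfold TrAlg.Nes
  linarith

theorem TrAlg.Nes_le {f : B} (hf : 0 ≤ f) {s : ℝ} (hs : 0 < s) :
    s * T.Nes f s ≤ (T.τ f).re := by
  have h1 := T.re_τ_conj_nonneg f _ (rsv_nonneg hf hs)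
  rw [← sub_smul_es hf hs, T.τ_sub, T.τ_smul, Complex.sub_re, Complex.re_ofReal_mul] at h1
  unfold TrAlg.Nes
  linarith

theorem TrAlg.Nes_eq {f : B} (hf : 0 ≤ f) {s : ℝ} (hs : 0 < s) :
    T.Nes f s = 1 - s * (T.τ (rsv f s)).re := by
  unfold TrAlg.Nes
  rw [es_eq hf hs, T.τ_sub, T.τ_one, T.τ_smul, Complex.sub_re, Complex.one_re,
    Complex.re_ofReal_mul]

/-- one step of the walk: the increment of the trace of `es f s` controls the commutators of
`es f s` with the letters -/
theorem TrAlg.budget_step {J : Type*} [Fintype J] [Nonempty J] (w : Bool × J → B)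
    (hw1 : ∀ e, star (w e) * w e = 1) (hw2 : ∀ e, w e * star (w e) = 1)
    (hw0 : ∀ j, w (false, j) = 1) {f : B} (hf : 0 ≤ f) {s : ℝ} (hs : 0 < s) :
    ∑ j, ‖T.ι (w (true, j) * es f s - es f s * w (true, j))‖ ^ 2
      ≤ 4 * Fintype.card J * (T.Nes (wlk w f) s - T.Nes f s) := by
  have hg := wlk_nonneg w hf
  have hc : (Fintype.card (Bool × J) : ℂ) ≠ 0 := Nat.cast_ne_zero.2 Fintype.card_ne_zero
  have h1 := T.bud_jensen (fun e => w e * f * star (w e))
    (fun e => star_right_conjugate_nonneg hf _) hg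
    (by unfold wlk; rw [smul_smul, mul_inv_cancel₀ hc, one_smul]) hs
  have h2 : ∀ e, rsv (w e * f * star (w e)) s = w e * rsv f s * star (w e) := fun e =>
    rsv_conj hf hs (hw1 e) (hw2 e)
  have h3 : ∀ e, (T.τ (w e * rsv f s * star (w e))).re = (T.τ (rsv f s)).re := fun e => by
    rw [T.τ_mul_comm, ← mul_assoc, hw1, one_mul]
  simp only [h2, h3] at h1
  rw [Finset.sum_const, Finset.card_univ, nsmul_eq_mul] at h1
  obtain ⟨X, hX⟩ : ∃ X, X = rsv (wlk w f) s := ⟨_, rfl⟩
  obtain ⟨R, hR⟩ : ∃ R, R = rsv f s := ⟨_, rfl⟩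
  have hsum : ∑ e : Bool × J, ‖T.ι (X - w e * R * star (w e))‖ ^ 2
      = ∑ j, (‖T.ι (X - w (true, j) * R * star (w (true, j)))‖ ^ 2 + ‖T.ι (X - R)‖ ^ 2) := by
    rw [Fintype.sum_prod_type, Fintype.sum_bool, ← Finset.sum_add_distrib]
    refine Finset.sum_congr rfl fun j _ => ?_
    rw [hw0, star_one, one_mul, mul_one]
  have h4 : ∀ j, ‖T.ι (w (true, j) * es f s - es f s * w (true, j))‖ ^ 2
      ≤ s ^ 2 * (2 * (‖T.ι (X - w (true, j) * R * star (w (true, j)))‖ ^ 2
        + ‖T.ι (X - R)‖ ^ 2)) := by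
    intro j
    have h5 : w (true, j) * es f s - es f s * w (true, j)
        = -((s : ℂ) • ((w (true, j) * R * star (w (true, j)) - R) * w (true, j))) := by
      rw [es_eq hf hs, ← hR, sub_mul (w (true, j) * R * star (w (true, j))),
        mul_assoc (w (true, j) * R), hw1, mul_one, mul_sub, sub_mul, mul_one, one_mul,
        mul_smul_comm, smul_mul_assoc, smul_sub]
      abel
    rw [h5, map_neg, norm_neg, map_smul, norm_smul, T.norm_mul_unitary _ (hw2 _), mul_pow,
      Complex.norm_real, Real.norm_of_nonneg hs.le]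
    refine mul_le_mul_of_nonneg_left ?_ (by positivity)
    have h6 : w (true, j) * R * star (w (true, j)) - R
        = (X - R) - (X - w (true, j) * R * star (w (true, j))) := by abel
    rw [h6, map_sub T.ι (X - R)]
    have h7 := norm_sub_le (T.ι (X - R)) (T.ι (X - w (true, j) * R * star (w (true, j))))
    have h8 : ‖T.ι (X - R) - T.ι (X - w (true, j) * R * star (w (true, j)))‖ ^ 2
        ≤ (‖T.ι (X - R)‖ + ‖T.ι (X - w (true, j) * R * star (w (true, j)))‖) ^ 2 :=
      pow_le_pow_left₀ (norm_nonneg _) h7 2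
    nlinarith [sq_nonneg (‖T.ι (X - R)‖ - ‖T.ι (X - w (true, j) * R * star (w (true, j)))‖)]
  refine (Finset.sum_le_sum fun j _ => h4 j).trans ?_
  rw [← Finset.mul_sum, ← Finset.mul_sum, ← hsum]
  rw [← hX, ← hR] at h1
  have h9 : (Fintype.card (Bool × J) : ℝ) = 2 * Fintype.card J := by
    rw [Fintype.card_prod, Fintype.card_bool]
    push_cast
    rfl
  rw [h9] at h1
  rw [T.Nes_eq hg hs, T.Nes_eq hf hs, ← hX, ← hR]
  have h10 := mul_le_mul_of_nonneg_left h1 hs.le
  nlinarith [h10]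

/-- dyadic levels -/
noncomputable def lev (m i : ℕ) : ℝ := 2 ^ m / 2 ^ i

theorem lev_pos (m i : ℕ) : 0 < lev m i := by
  unfold lev
  positivity

theorem lev_succ (m i : ℕ) : lev m (i + 1) = lev m i / 2 := by
  unfold lev
  rw [pow_succ, div_div]

theorem lev_zero (m : ℕ) : lev m 0 = 2 ^ m := by
  unfold lev
  rw [pow_zero, div_one]

theorem sum_lev (m P l : ℕ) :
    ∑ i ∈ Finset.range l, lev m (P + i) = 2 * (lev m P - lev m (P + l)) := by
  induction l with
  | zero => simp
  | succ l ih =>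
    rw [Finset.sum_range_succ, ih, ← Nat.add_assoc, lev_succ]
    ring

theorem lev_min_sum (m : ℕ) {a t : ℝ} (ha : 0 ≤ a) (ht : 0 ≤ t) (P : ℕ) (hP : a * lev m P ≤ t)
    (L : ℕ) : ∑ i ∈ Finset.range L, min (a * lev m i) t ≤ (P + 2) * t := by
  have h0 : ∀ i, 0 ≤ min (a * lev m i) t := fun i => le_min (mul_nonneg ha (lev_pos m i).le) ht
  have h1 : ∑ i ∈ Finset.range L, min (a * lev m i) t
      ≤ ∑ i ∈ Finset.range (P + L), min (a * lev m i) t :=
    Finset.sum_le_sum_of_subset_of_nonneg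
      (Finset.range_subset_range.2 (Nat.le_add_left L P)) (fun i _ _ => h0 i)
  refine h1.trans ?_
  rw [Finset.sum_range_add]
  have h2 : ∑ i ∈ Finset.range P, min (a * lev m i) t ≤ P * t := by
    refine (Finset.sum_le_sum fun i _ => min_le_right (a * lev m i) t).trans ?_
    rw [Finset.sum_const, Finset.card_range, nsmul_eq_mul]
  have h3 : ∑ i ∈ Finset.range L, min (a * lev m (P + i)) t ≤ 2 * t := by
    refine (Finset.sum_le_sum fun i _ => min_le_left (a * lev m (P + i)) t).trans ?_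
    rw [← Finset.mul_sum, sum_lev]
    have := mul_nonneg ha (lev_pos m (P + L)).le
    linarith
  linarith

theorem wlk_iter_nonneg {E : Type*} [Fintype E] (w : E → B) {f : B} (hf : 0 ≤ f) (k : ℕ) :
    0 ≤ (wlk w)^[k] f := by
  induction k with
  | zero => exact hf
  | succ k ih =>
    rw [Function.iterate_succ_apply']
    exact wlk_nonneg w ih

theorem TrAlg.τ_wlk_iter {E : Type*} [Fintype E] [Nonempty E] (w : E → B)
    (hw : ∀ e, star (w e) * w e = 1) (f : B) (k : ℕ) : T.τ ((wlk w)^[k] f) = T.τ f := by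
  induction k with
  | zero => rfl
  | succ k ih => rw [Function.iterate_succ_apply', T.τ_wlk w hw, ih]

/-- the bound of the trace of `es f s` by the trace of a projection -/
theorem TrAlg.Nes_le_proj {f p : B} (hf : 0 ≤ f) (hp : star p = p) (hpp : p * p = p)
    (hpf : p * f = f) {s : ℝ} (hs : 0 < s) : T.Nes f s ≤ (T.τ p).re := by
  have h1 : es f s = star p * es f s * p := by
    have h2 : p * es f s = es f s := by
      unfold es
      rw [← mul_assoc, hpf]
    have h3 : es f s * p = es f s := by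
      have h4 := congrArg star h2
      rwa [star_mul, es_star hf hs, hp] at h4
    rw [hp, h2, h3]
  have h5 := T.re_τ_conj_nonneg p _ (sub_nonneg.2 (es_le_one hf hs))
  rw [mul_sub, sub_mul, mul_one, ← h1, T.τ_sub, Complex.sub_re, hp, hpp] at h5
  unfold TrAlg.Nes
  linarith

theorem wlk_proj {E : Type*} [Fintype E] (w : E → B) {f p : B} (hw : ∀ e, p * w e = w e * p)
    (hpf : p * f = f) : p * wlk w f = wlk w f := by
  unfold wlk
  rw [mul_smul_comm, Finset.mul_sum]
  congr 1
  refine Finset.sum_congr rfl fun e _ => ?_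
  rw [← mul_assoc, ← mul_assoc, hw, mul_assoc (w e), hpf]

theorem wlk_iter_proj {E : Type*} [Fintype E] (w : E → B) {f p : B}
    (hw : ∀ e, p * w e = w e * p) (hpf : p * f = f) (k : ℕ) :
    p * (wlk w)^[k] f = (wlk w)^[k] f := by
  induction k with
  | zero => exact hpf
  | succ k ih =>
    rw [Function.iterate_succ_apply']
    exact wlk_proj w hw ih

/-- the budget: at some time `k < n` the resolvents at all dyadic levels almost commute with the
letters, simultaneously for all the initial data `f b` -/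
theorem TrAlg.budget {J : Type*} [Fintype J] [Nonempty J] (w : Bool × J → B)
    (hw1 : ∀ e, star (w e) * w e = 1) (hw2 : ∀ e, w e * star (w e) = 1)
    (hw0 : ∀ j, w (false, j) = 1) {β : Type*} [Fintype β] [Nonempty β] (f : β → B)
    (hf : ∀ b, 0 ≤ f b) {a t : ℝ} (ha : ∀ b k s, 0 < s → T.Nes ((wlk w)^[k] (f b)) s ≤ a)
    (ht : ∀ b, (T.τ (f b)).re ≤ t) (m P : ℕ) (hP : a * lev m P ≤ t) {n : ℕ} (hn : 0 < n) (L : ℕ) :
    ∃ k < n, ∀ b, ∑ i ∈ Finset.range L, lev m (i + 1) *
      ∑ j, ‖T.ι (w (true, j) * es ((wlk w)^[k] (f b)) (lev m i)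
        - es ((wlk w)^[k] (f b)) (lev m i) * w (true, j))‖ ^ 2
      ≤ 2 * Fintype.card β * Fintype.card J * (P + 2) * t / n := by
  obtain ⟨Q, hQ⟩ : ∃ Q : ℕ → β → ℝ, Q = fun k b => ∑ i ∈ Finset.range L, lev m (i + 1) *
      ∑ j, ‖T.ι (w (true, j) * es ((wlk w)^[k] (f b)) (lev m i)
        - es ((wlk w)^[k] (f b)) (lev m i) * w (true, j))‖ ^ 2 := ⟨_, rfl⟩
  have hQ0 : ∀ k b, 0 ≤ Q k b := fun k b => by
    rw [hQ]
    exact Finset.sum_nonneg fun i _ => mul_nonneg (lev_pos _ _).le
      (Finset.sum_nonneg fun j _ => by positivity)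
  have ht0 : 0 ≤ t := by
    obtain ⟨b⟩ := (inferInstance : Nonempty β)
    exact (T.re_τ_nonneg _ (hf b)).trans (ht b)
  have ha0 : 0 ≤ a := by
    obtain ⟨b⟩ := (inferInstance : Nonempty β)
    exact (T.Nes_nonneg (wlk_iter_nonneg w (hf b) 0) one_pos).trans (ha b 0 1 one_pos)
  have h1 : ∀ b, ∑ k ∈ Finset.range n, Q k b ≤ 2 * Fintype.card J * ((P + 2) * t) := by
    intro b
    rw [hQ]
    simp only
    rw [Finset.sum_comm]
    have h2 : ∀ i, ∑ k ∈ Finset.range n, lev m (i + 1) *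
        ∑ j, ‖T.ι (w (true, j) * es ((wlk w)^[k] (f b)) (lev m i)
          - es ((wlk w)^[k] (f b)) (lev m i) * w (true, j))‖ ^ 2
        ≤ 2 * Fintype.card J * min (a * lev m i) t := by
      intro i
      rw [← Finset.mul_sum]
      have hs := lev_pos m i
      have h3 : ∑ k ∈ Finset.range n,
          ∑ j, ‖T.ι (w (true, j) * es ((wlk w)^[k] (f b)) (lev m i)
            - es ((wlk w)^[k] (f b)) (lev m i) * w (true, j))‖ ^ 2
          ≤ 4 * Fintype.card J * T.Nes ((wlk w)^[n] (f b)) (lev m i) := by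
        have h4 : ∀ k ∈ Finset.range n,
            ∑ j, ‖T.ι (w (true, j) * es ((wlk w)^[k] (f b)) (lev m i)
              - es ((wlk w)^[k] (f b)) (lev m i) * w (true, j))‖ ^ 2
            ≤ 4 * Fintype.card J * (T.Nes ((wlk w)^[k + 1] (f b)) (lev m i)
              - T.Nes ((wlk w)^[k] (f b)) (lev m i)) := by
          intro k _
          rw [Function.iterate_succ_apply']
          exact T.budget_step w hw1 hw2 hw0 (wlk_iter_nonneg w (hf b) k) hs
        refine (Finset.sum_le_sum h4).trans ?_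
        rw [← Finset.mul_sum, Finset.sum_range_sub (fun k => T.Nes ((wlk w)^[k] (f b)) (lev m i))]
        refine mul_le_mul_of_nonneg_left ?_ (by positivity)
        have := T.Nes_nonneg (wlk_iter_nonneg w (hf b) 0) hs
        linarith
      have h5 : lev m i * T.Nes ((wlk w)^[n] (f b)) (lev m i) ≤ min (a * lev m i) t := by
        refine le_min ?_ ?_
        · rw [mul_comm]
          exact mul_le_mul_of_nonneg_right (ha b n _ hs) hs.le
        · refine (T.Nes_le (wlk_iter_nonneg w (hf b) n) hs).trans ?_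
          rw [T.τ_wlk_iter w hw1]
          exact ht b
      have hl := (lev_pos m (i + 1)).le
      calc lev m (i + 1) * ∑ k ∈ Finset.range n,
          ∑ j, ‖T.ι (w (true, j) * es ((wlk w)^[k] (f b)) (lev m i)
            - es ((wlk w)^[k] (f b)) (lev m i) * w (true, j))‖ ^ 2
          ≤ lev m (i + 1) * (4 * Fintype.card J * T.Nes ((wlk w)^[n] (f b)) (lev m i)) :=
            mul_le_mul_of_nonneg_left h3 hl
        _ = 2 * Fintype.card J * (lev m i * T.Nes ((wlk w)^[n] (f b)) (lev m i)) := by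
            rw [lev_succ]
            ring
        _ ≤ 2 * Fintype.card J * min (a * lev m i) t :=
            mul_le_mul_of_nonneg_left h5 (by positivity)
    refine (Finset.sum_le_sum fun i _ => h2 i).trans ?_
    rw [← Finset.mul_sum]
    exact mul_le_mul_of_nonneg_left (lev_min_sum m ha0 ht0 P hP L) (by positivity)
  have hn' : (0 : ℝ) < n := Nat.cast_pos.2 hn
  have h6 : ∑ k ∈ Finset.range n, ∑ b, Q k b
      ≤ ∑ _k ∈ Finset.range n, 2 * Fintype.card β * Fintype.card J * (P + 2) * t / n := by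
    rw [Finset.sum_comm, Finset.sum_const, Finset.card_range, nsmul_eq_mul,
      mul_div_cancel₀ _ hn'.ne']
    refine (Finset.sum_le_sum fun b _ => h1 b).trans (le_of_eq ?_)
    rw [Finset.sum_const, Finset.card_univ, nsmul_eq_mul]
    ring
  obtain ⟨k, hk, hk2⟩ := Finset.exists_le_of_sum_le (Finset.nonempty_range_iff.2 hn.ne') h6
  refine ⟨k, Finset.mem_range.1 hk, fun b => ?_⟩
  refine le_trans ?_ hk2
  have h7 : Q k b ≤ ∑ b, Q k b := Finset.single_le_sum (fun b _ => hQ0 k b) (Finset.mem_univ b)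
  rw [hQ] at h7 ⊢
  exact h7

end budget

end Pool.Agent.AbCoc
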