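import Pool.Agent.Lib_MP_418a80_nm.Budget

/-!
# Commutators with a positive element and with its resolvents
-/

set_option autoImplicit false
set_option linter.unusedVariables false
set_option linter.unusedSectionVars false

open Topology Filter

namespace Pool.Agent.AbCoc

universe u v w

section comb
variable {B : Type u} [CStarAlgebra B] [PartialOrder B] [StarOrderedRing B]
  {K : Type v} [NormedAddCommGroup K] [InnerProductSpace ℂ K] (T : TrAlg B K)

theorem TrAlg.bud_τ_mul_le (a b : B) : ‖T.τ (a * b)‖ ≤ ‖T.ι a‖ * ‖T.ι b‖ := by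
  have h1 : T.τ (a * b) = inner ℂ (T.ι (star a)) (T.ι b) := by rw [T.inner_eq_τ, star_star]
  rw [h1]
  refine (norm_inner_le_norm _ _).trans ?_
  rw [T.norm_star]

/-- `|τ(y z)| ≤ ‖y‖ τ(z)` for `z ≥ 0` -/
theorem TrAlg.bud_τ_mul_pos (y : B) {z : B} (hz : 0 ≤ z) :
    ‖T.τ (y * z)‖ ≤ ‖y‖ * (T.τ z).re := by
  obtain ⟨r, rfl⟩ := CStarAlgebra.nonneg_iff_eq_star_mul_self.1 hz
  have h1 : T.τ (y * (star r * r)) = T.τ ((y * star r) * r) := by rw [mul_assoc]
  rw [h1]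
  refine (T.bud_τ_mul_le _ _).trans ?_
  have h2 := T.mul_le y (star r)
  rw [T.norm_star] at h2
  rw [← T.norm_sq]
  calc ‖T.ι (y * star r)‖ * ‖T.ι r‖ ≤ (‖y‖ * ‖T.ι r‖) * ‖T.ι r‖ :=
        mul_le_mul_of_nonneg_right h2 (norm_nonneg _)
    _ = ‖y‖ * ‖T.ι r‖ ^ 2 := by ring

theorem lev_mul_es {f : B} (hf : 0 ≤ f) (m i : ℕ) :
    (lev m (i + 1) : ℂ) • (es f (lev m i) * es f (lev m (i + 1)))
      = f * es f (lev m (i + 1)) - f * es f (lev m i) := by
  rw [← es_mul_es hf (lev_pos m i) (lev_pos m (i + 1)), lev_succ]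
  congr 2
  ring

theorem sum_lev_mul_es {f : B} (hf : 0 ≤ f) (m L : ℕ) :
    ∑ i ∈ Finset.range L, (lev m (i + 1) : ℂ) • (es f (lev m i) * es f (lev m (i + 1)))
      = f * es f (lev m L) - f * es f (lev m 0) := by
  rw [Finset.sum_congr rfl fun i _ => lev_mul_es hf m i]
  exact Finset.sum_range_sub (fun i => f * es f (lev m i)) L

theorem self_mul_es_nonneg {f : B} (hf : 0 ≤ f) {s : ℝ} (hs : 0 < s) : 0 ≤ f * es f s := by
  refine Commute.mul_nonneg hf (es_nonneg hf hs) ?_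
  change f * (f * rsv f s) = f * rsv f s * f
  rw [mul_assoc, rsv_mul_self hf hs, ← self_mul_rsv hf hs]

/-- the dyadic sum of the squares of the `es f s` is at most `f` -/
theorem sum_lev_sq_le {f : B} (hf : 0 ≤ f) (m L : ℕ) :
    ∑ i ∈ Finset.range L, (lev m (i + 1) : ℂ) • (es f (lev m i) * es f (lev m i)) ≤ f := by
  have h1 : ∀ i ∈ Finset.range L, (lev m (i + 1) : ℂ) • (es f (lev m i) * es f (lev m i))
      ≤ (lev m (i + 1) : ℂ) • (es f (lev m i) * es f (lev m (i + 1))) := by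
    intro i _
    rw [← sub_nonneg, ← smul_sub, ← mul_sub]
    refine ofReal_smul_nonneg (lev_pos _ _).le ?_
    refine Commute.mul_nonneg (es_nonneg hf (lev_pos m i)) (sub_nonneg.2 ?_) ?_
    · refine es_anti hf (lev_pos m i) (lev_pos m (i + 1)) ?_
      rw [lev_succ]
      have := lev_pos m i
      linarith
    · exact (es_comm_es hf (lev_pos m i) (lev_pos m (i + 1))).sub_right (Commute.refl _)
  refine (Finset.sum_le_sum h1).trans ?_
  rw [sum_lev_mul_es hf, self_mul_es hf (lev_pos m L), sub_sub]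
  refine sub_le_self _ (add_nonneg ?_ (self_mul_es_nonneg hf (lev_pos m 0)))
  exact ofReal_smul_nonneg (lev_pos _ _).le (es_nonneg hf (lev_pos m L))

/-- the dyadic sum of the squared `2`-norms of the `es f s` is at most the trace of `f` -/
theorem TrAlg.sum_lev_norm_sq {f : B} (hf : 0 ≤ f) (m L : ℕ) :
    ∑ i ∈ Finset.range L, lev m (i + 1) * ‖T.ι (es f (lev m i))‖ ^ 2 ≤ (T.τ f).re := by
  have h1 : ∀ i ∈ Finset.range L, lev m (i + 1) * ‖T.ι (es f (lev m i))‖ ^ 2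
      = (T.τ ((lev m (i + 1) : ℂ) • (es f (lev m i) * es f (lev m i)))).re := by
    intro i _
    rw [T.τ_smul, Complex.re_ofReal_mul, T.norm_sq, es_star hf (lev_pos m i)]
  rw [Finset.sum_congr rfl h1, ← Complex.re_sum, ← T.bud_τ_sum]
  have h2 := T.re_τ_nonneg _ (sub_nonneg.2 (sum_lev_sq_le hf m L))
  rw [T.τ_sub, Complex.sub_re] at h2
  linarith

theorem comm_mul (h a b : B) : h * (a * b) - a * b * h = (h * a - a * h) * b + a * (h * b - b * h) := by
  noncomm_ring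

theorem TrAlg.bud_τ_comm_mul (y h a b : B) :
    ‖T.τ (y * (h * (a * b) - a * b * h))‖
      ≤ ‖y‖ * (‖T.ι (h * a - a * h)‖ * ‖T.ι b‖ + ‖T.ι a‖ * ‖T.ι (h * b - b * h)‖) := by
  have h1 : y * (h * (a * b) - a * b * h)
      = (y * (h * a - a * h)) * b + (y * a) * (h * b - b * h) := by
    rw [comm_mul]
    noncomm_ring
  rw [h1, T.τ_add, mul_add]
  refine (norm_add_le _ _).trans (add_le_add ?_ ?_)
  · refine (T.bud_τ_mul_le _ _).trans ?_
    rw [← mul_assoc]
    exact mul_le_mul_of_nonneg_right (T.mul_le _ _) (norm_nonneg _)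
  · refine (T.bud_τ_mul_le _ _).trans ?_
    rw [← mul_assoc]
    exact mul_le_mul_of_nonneg_right (T.mul_le _ _) (norm_nonneg _)

theorem amgm (κ u v : ℝ) (hκ : 0 < κ) : u * v ≤ κ / 2 * v ^ 2 + κ⁻¹ / 2 * u ^ 2 := by
  have h1 : 0 ≤ κ⁻¹ / 2 * (κ * v - u) ^ 2 := by positivity
  have h2 : κ⁻¹ / 2 * (κ * v - u) ^ 2 = κ / 2 * v ^ 2 + κ⁻¹ / 2 * u ^ 2 - u * v := by
    field_simp
    ring
  linarith

/-- the commutator of `h` with `f`, in the sense of the trace, is controlled by the commutators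
of `h` with the `es f s` -/
theorem TrAlg.comm_of_es {f : B} (hf : 0 ≤ f) (y h : B) (m L : ℕ) {κ : ℝ} (hκ : 0 < κ) :
    ‖T.τ (y * (h * f - f * h))‖
      ≤ 3 / 2 * ‖y‖ * (κ * (T.τ f).re + κ⁻¹ * ∑ i ∈ Finset.range (L + 1), lev m (i + 1) *
          ‖T.ι (h * es f (lev m i) - es f (lev m i) * h)‖ ^ 2)
        + 2 * ‖y‖ * ‖h‖ * (‖f‖ * (T.τ f).re / 2 ^ m + lev m L) := by
  obtain ⟨r, hr⟩ : ∃ r, r = (lev m L : ℂ) • es f (lev m L) + f * es f (lev m 0) := ⟨_, rfl⟩
  have hr0 : 0 ≤ r := by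
    rw [hr]
    exact add_nonneg (ofReal_smul_nonneg (lev_pos _ _).le (es_nonneg hf (lev_pos _ _)))
      (self_mul_es_nonneg hf (lev_pos _ _))
  have hrτ : (T.τ r).re ≤ ‖f‖ * (T.τ f).re / 2 ^ m + lev m L := by
    rw [hr, T.τ_add, T.τ_smul, Complex.add_re, Complex.re_ofReal_mul]
    have h1 : (T.τ (es f (lev m L))).re ≤ 1 := T.Nes_le_one hf (lev_pos _ _)
    have h2 : (T.τ (f * es f (lev m 0))).re ≤ ‖f‖ * (T.τ (es f (lev m 0))).re :=
      (Complex.re_le_norm _).trans (T.bud_τ_mul_pos f (es_nonneg hf (lev_pos m 0)))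
    have h3 : lev m 0 * (T.τ (es f (lev m 0))).re ≤ (T.τ f).re := T.Nes_le hf (lev_pos _ _)
    have h4 : ‖f‖ * (T.τ (es f (lev m 0))).re ≤ ‖f‖ * (T.τ f).re / 2 ^ m := by
      rw [lev_zero] at h3 ⊢
      rw [mul_div_assoc]
      refine mul_le_mul_of_nonneg_left ?_ (norm_nonneg _)
      rw [le_div_iff₀ (by positivity)]
      linarith
    have h5 := mul_le_mul_of_nonneg_left h1 (lev_pos m L).le
    linarith
  have hfr : f = ∑ i ∈ Finset.range L,
      (lev m (i + 1) : ℂ) • (es f (lev m i) * es f (lev m (i + 1))) + r := by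
    rw [sum_lev_mul_es hf, hr, self_mul_es hf (lev_pos m L)]
    abel
  -- the commutator
  have h1 : y * (h * f - f * h) = ∑ i ∈ Finset.range L, (lev m (i + 1) : ℂ) •
      (y * (h * (es f (lev m i) * es f (lev m (i + 1)))
        - es f (lev m i) * es f (lev m (i + 1)) * h)) + (y * h * r - y * (r * h)) := by
    conv_lhs => rw [hfr]
    rw [mul_add h, add_mul _ r h, add_sub_add_comm, mul_add, mul_sub y (h * r), ← mul_assoc y h r]
    congr 1
    rw [Finset.mul_sum, Finset.sum_mul, ← Finset.sum_sub_distrib, Finset.mul_sum]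
    refine Finset.sum_congr rfl fun i _ => ?_
    rw [mul_smul_comm, smul_mul_assoc, ← smul_sub, mul_smul_comm]
  have hV := T.sum_lev_norm_sq hf m (L + 1)
  obtain ⟨V, hVd⟩ : ∃ V : ℕ → ℝ, V = fun i => ‖T.ι (es f (lev m i))‖ := ⟨_, rfl⟩
  obtain ⟨q, hqd⟩ : ∃ q : ℕ → ℝ, q = fun i =>
      ‖T.ι (h * es f (lev m i) - es f (lev m i) * h)‖ := ⟨_, rfl⟩
  have hV0 : ∀ i, 0 ≤ V i := fun i => by rw [hVd]; exact norm_nonneg _
  have hq0 : ∀ i, 0 ≤ q i := fun i => by rw [hqd]; exact norm_nonneg _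
  have h2 : ∀ i ∈ Finset.range L, ‖T.τ ((lev m (i + 1) : ℂ) •
      (y * (h * (es f (lev m i) * es f (lev m (i + 1)))
        - es f (lev m i) * es f (lev m (i + 1)) * h)))‖
      ≤ lev m (i + 1) * (‖y‖ * (q i * V (i + 1) + V i * q (i + 1))) := by
    intro i _
    rw [T.τ_smul, norm_mul, Complex.norm_real, Real.norm_of_nonneg (lev_pos _ _).le, hVd, hqd]
    exact mul_le_mul_of_nonneg_left (T.bud_τ_comm_mul _ _ _ _) (lev_pos _ _).le
  have h3 : ‖T.τ (y * h * r - y * (r * h))‖ ≤ 2 * ‖y‖ * ‖h‖ * (T.τ r).re := by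
    rw [T.τ_sub]
    have e1 : T.τ (y * (r * h)) = T.τ (h * y * r) := by
      rw [← mul_assoc, T.τ_mul_comm, ← mul_assoc]
    rw [e1]
    have a1 := T.bud_τ_mul_pos (y * h) hr0
    have a2 := T.bud_τ_mul_pos (h * y) hr0
    have a3 := norm_mul_le y h
    have a4 := norm_mul_le h y
    have a5 := T.re_τ_nonneg _ hr0
    have a6 := mul_le_mul_of_nonneg_right a3 a5
    have a7 := mul_le_mul_of_nonneg_right a4 a5
    have a8 := norm_sub_le (T.τ (y * h * r)) (T.τ (h * y * r))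
    nlinarith
  have h4 : ‖T.τ (∑ i ∈ Finset.range L, (lev m (i + 1) : ℂ) •
      (y * (h * (es f (lev m i) * es f (lev m (i + 1)))
        - es f (lev m i) * es f (lev m (i + 1)) * h)))‖
      ≤ 3 / 2 * ‖y‖ * (κ * (T.τ f).re + κ⁻¹ * ∑ i ∈ Finset.range (L + 1), lev m (i + 1) *
          q i ^ 2) := by
    rw [T.bud_τ_sum]
    refine (norm_sum_le _ _).trans ((Finset.sum_le_sum h2).trans ?_)
    have h5 : ∀ i ∈ Finset.range L, lev m (i + 1) * (‖y‖ * (q i * V (i + 1) + V i * q (i + 1)))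
        ≤ ‖y‖ * (κ / 2 * (2 * (lev m (i + 1 + 1) * V (i + 1) ^ 2) + lev m (i + 1) * V i ^ 2)
          + κ⁻¹ / 2 * (lev m (i + 1) * q i ^ 2 + 2 * (lev m (i + 1 + 1) * q (i + 1) ^ 2))) := by
      intro i _
      have b1 := amgm κ (q i) (V (i + 1)) hκ
      have b2 := amgm κ (q (i + 1)) (V i) hκ
      have b3 : q i * V (i + 1) + V i * q (i + 1) ≤ κ / 2 * (V (i + 1) ^ 2 + V i ^ 2)
          + κ⁻¹ / 2 * (q i ^ 2 + q (i + 1) ^ 2) := by
        rw [mul_comm (V i)]
        linarith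
      have b4 := mul_le_mul_of_nonneg_left b3 (mul_nonneg (lev_pos m (i + 1)).le (norm_nonneg y))
      rw [lev_succ m (i + 1)]
      calc lev m (i + 1) * (‖y‖ * (q i * V (i + 1) + V i * q (i + 1)))
          = lev m (i + 1) * ‖y‖ * (q i * V (i + 1) + V i * q (i + 1)) := by ring
        _ ≤ _ := b4
        _ = _ := by ring
    refine (Finset.sum_le_sum h5).trans ?_
    rw [← Finset.mul_sum]
    have h6 : ∑ i ∈ Finset.range L,
        (κ / 2 * (2 * (lev m (i + 1 + 1) * V (i + 1) ^ 2) + lev m (i + 1) * V i ^ 2)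
          + κ⁻¹ / 2 * (lev m (i + 1) * q i ^ 2 + 2 * (lev m (i + 1 + 1) * q (i + 1) ^ 2)))
        ≤ 3 / 2 * (κ * (T.τ f).re + κ⁻¹ * ∑ i ∈ Finset.range (L + 1), lev m (i + 1) *
          q i ^ 2) := by
      obtain ⟨a, ha⟩ : ∃ a : ℕ → ℝ, a = fun i => lev m (i + 1) * V i ^ 2 := ⟨_, rfl⟩
      obtain ⟨b, hb⟩ : ∃ b : ℕ → ℝ, b = fun i => lev m (i + 1) * q i ^ 2 := ⟨_, rfl⟩
      have ha0 : ∀ i, 0 ≤ a i := fun i => by
        rw [ha]; exact mul_nonneg (lev_pos _ _).le (by positivity)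
      have hb0 : ∀ i, 0 ≤ b i := fun i => by
        rw [hb]; exact mul_nonneg (lev_pos _ _).le (by positivity)
      have c1 : ∑ i ∈ Finset.range L, a i ≤ ∑ i ∈ Finset.range (L + 1), a i := by
        rw [Finset.sum_range_succ]
        linarith [ha0 L]
      have c2 : ∑ i ∈ Finset.range L, a (i + 1) ≤ ∑ i ∈ Finset.range (L + 1), a i := by
        rw [Finset.sum_range_succ']
        linarith [ha0 0]
      have c3 : ∑ i ∈ Finset.range L, b i ≤ ∑ i ∈ Finset.range (L + 1), b i := by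
        rw [Finset.sum_range_succ]
        linarith [hb0 L]
      have c4 : ∑ i ∈ Finset.range L, b (i + 1) ≤ ∑ i ∈ Finset.range (L + 1), b i := by
        rw [Finset.sum_range_succ']
        linarith [hb0 0]
      have c5 : ∑ i ∈ Finset.range (L + 1), a i ≤ (T.τ f).re := by
        rw [ha, hVd]
        exact hV
      have c6 : ∑ i ∈ Finset.range L,
          (κ / 2 * (2 * (lev m (i + 1 + 1) * V (i + 1) ^ 2) + lev m (i + 1) * V i ^ 2)
            + κ⁻¹ / 2 * (lev m (i + 1) * q i ^ 2 + 2 * (lev m (i + 1 + 1) * q (i + 1) ^ 2)))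
          = κ / 2 * (2 * ∑ i ∈ Finset.range L, a (i + 1) + ∑ i ∈ Finset.range L, a i)
            + κ⁻¹ / 2 * (∑ i ∈ Finset.range L, b i + 2 * ∑ i ∈ Finset.range L, b (i + 1)) := by
        rw [ha, hb]
        simp only [Finset.mul_sum, ← Finset.sum_add_distrib]
      have c7 : ∑ i ∈ Finset.range (L + 1), lev m (i + 1) * q i ^ 2
          = ∑ i ∈ Finset.range (L + 1), b i := by rw [hb]
      rw [c6, c7]
      have hκ' : 0 < κ⁻¹ := inv_pos.2 hκ
      have d1 : κ / 2 * (2 * ∑ i ∈ Finset.range L, a (i + 1) + ∑ i ∈ Finset.range L, a i)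
          ≤ κ / 2 * (3 * (T.τ f).re) :=
        mul_le_mul_of_nonneg_left (by linarith) (by positivity)
      have d2 : κ⁻¹ / 2 * (∑ i ∈ Finset.range L, b i + 2 * ∑ i ∈ Finset.range L, b (i + 1))
          ≤ κ⁻¹ / 2 * (3 * ∑ i ∈ Finset.range (L + 1), b i) :=
        mul_le_mul_of_nonneg_left (by linarith) (by positivity)
      linarith
    calc ‖y‖ * _ ≤ ‖y‖ * _ := mul_le_mul_of_nonneg_left h6 (norm_nonneg _)
      _ = _ := by ring
  rw [h1, T.τ_add]
  refine (norm_add_le _ _).trans (add_le_add ?_ ?_)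
  · rw [hqd] at h4
    exact h4
  · refine h3.trans (mul_le_mul_of_nonneg_left hrτ (by positivity))

end comb

end Pool.Agent.AbCoc
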