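import Pool.Agent.Lib_MP_418a80_nm.Walk
import Pool.Agent.Lib_MP_418a80_oe.OE7

/-!
# Cells: sample points, weights, comparison of discrete and continuous averages
-/

set_option autoImplicit false
set_option linter.unusedVariables false
set_option linter.unusedSectionVars false

open MeasureTheory Topology Filter
open scoped Pointwise

namespace Pool.Agent.AbCoc

universe u v w

section
variable {G : Type w} [TopologicalSpace G] [MeasurableSpace G] [BorelSpace G]

/-- finitely many measurable cells on which a continuous function oscillates little -/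
theorem oe_finite_cells {E : Type*} [PseudoMetricSpace E] {Ψ : G → E} (hΨ : Continuous Ψ)
    {C : Set G} (hC : IsCompact C) {η : ℝ} (hη : 0 < η) :
    ∃ (I : Type) (_ : Fintype I) (κ : G → I), (∀ i, MeasurableSet (κ ⁻¹' {i})) ∧
      ∀ s ∈ C, ∀ t ∈ C, κ s = κ t → dist (Ψ s) (Ψ t) ≤ η := by
  classical
  obtain ⟨t, ht, htf, hcov⟩ := (hC.image hΨ).finite_cover_balls (half_pos hη)
  set k := htf.toFinset.card with hk
  let e : htf.toFinset ≃ Fin k := htf.toFinset.equivFin
  refine ⟨Fin k → Bool, inferInstance, fun s i => decide (dist (Ψ s) (e.symm i : E) < η / 2),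
    fun i => ?_, fun s hs s' hs' hss => ?_⟩
  · have h1 : (fun s (i : Fin k) => decide (dist (Ψ s) (e.symm i : E) < η / 2)) ⁻¹' {i}
        = ⋂ j, {s | decide (dist (Ψ s) (e.symm j : E) < η / 2) = i j} := by
      ext s
      simp only [Set.mem_preimage, Set.mem_singleton_iff, Set.mem_iInter, Set.mem_ofPred_eq]
      exact funext_iff
    rw [h1]
    refine MeasurableSet.iInter fun j => ?_
    have h2 : MeasurableSet {s : G | dist (Ψ s) (e.symm j : E) < η / 2} :=
      (isOpen_lt (hΨ.dist continuous_const) continuous_const).measurableSet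
    cases hb : i j with
    | false =>
      have h3 : {s : G | decide (dist (Ψ s) (e.symm j : E) < η / 2) = false}
          = {s : G | dist (Ψ s) (e.symm j : E) < η / 2}ᶜ := by
        ext s
        simp
      rw [h3]
      exact h2.compl
    | true =>
      have h3 : {s : G | decide (dist (Ψ s) (e.symm j : E) < η / 2) = true}
          = {s : G | dist (Ψ s) (e.symm j : E) < η / 2} := by
        ext s
        simp
      rw [h3]
      exact h2
  · have h1 := hcov (Set.mem_image_of_mem Ψ hs)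
    simp only [Set.mem_iUnion, Metric.mem_ball, exists_prop] at h1
    obtain ⟨x, hx, hd⟩ := h1
    set j := e ⟨x, htf.mem_toFinset.2 hx⟩ with hj
    have h2 : (e.symm j : E) = x := by rw [hj, Equiv.symm_apply_apply]
    have h3 := congrFun hss j
    simp only [h2] at h3
    have h4 : dist (Ψ s') x < η / 2 := by
      have : decide (dist (Ψ s) x < η / 2) = true := decide_eq_true hd
      rw [this] at h3
      exact of_decide_eq_true h3.symm
    have h5 := dist_triangle_right (Ψ s) (Ψ s') x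
    linarith

variable [Group G] [IsTopologicalGroup G] (μ : Measure G)

theorem OECells.translate {E J : Type*} [NormedAddCommGroup E] {Φ : J → G → E}
    (hΦ : OECells Φ) (γ : G) : OECells fun j g => Φ j (g * γ) := by
  intro C hC δ hδ
  obtain ⟨n0, hn0⟩ := hΦ ((fun g => g * γ) '' C) (hC.image (continuous_mul_const γ)) δ hδ
  refine ⟨n0, fun n hn => ?_⟩
  obtain ⟨I, hI, κ, h1, h2, h3⟩ := hn0 n hn
  refine ⟨I, hI, fun g => κ (g * γ), fun i => ?_, h2, fun j s hs t ht hst => ?_⟩
  · exact (continuous_mul_const γ).measurable (h1 i)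
  · exact h3 j _ (Set.mem_image_of_mem _ hs) _ (Set.mem_image_of_mem _ ht) hst

/-- cells with sample points and weights -/
structure IsCells (F : G → ℝ) (C : Set G) {I : Type} [Fintype I] (κ : G → I) (s : I → G)
    (w : I → ℝ) : Prop where
  meas : ∀ i, MeasurableSet (κ ⁻¹' {i})
  w_nonneg : ∀ i, 0 ≤ w i
  w_eq : ∀ i, w i = ∫ t in κ ⁻¹' {i}, F t ∂μ
  w_sum : ∑ i, w i = ∫ t, F t ∂μ
  mem : ∀ i, w i ≠ 0 → s i ∈ C
  mem' : ∀ t ∈ C, s (κ t) ∈ C
  sample : ∀ t ∈ C, κ (s (κ t)) = κ t

variable {μ}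

theorem IsCells.integral {F : G → ℝ} {C : Set G} {I : Type} [Fintype I] {κ : G → I} {s : I → G}
    {w : I → ℝ} (h : IsCells μ F C κ s w) (hF : Integrable F μ) (f : I → ℂ) :
    ∑ i, (w i : ℂ) * f i = ∫ t, (F t : ℂ) * f (κ t) ∂μ := by
  have h1 : ∀ i, (w i : ℂ) * f i = ∫ t in κ ⁻¹' {i}, (F t : ℂ) * f (κ t) ∂μ := by
    intro i
    have h2 : ∫ t in κ ⁻¹' {i}, (F t : ℂ) * f (κ t) ∂μ
        = ∫ t in κ ⁻¹' {i}, (F t : ℂ) * f i ∂μ := by
      refine setIntegral_congr_fun (h.meas i) fun t ht => ?_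
      rw [show κ t = i from ht]
    rw [h2, integral_mul_const, integral_complex_ofReal, ← h.w_eq]
  have h3 : (⋃ i, κ ⁻¹' {i}) = Set.univ := by
    ext t
    simp
  rw [Finset.sum_congr rfl fun i _ => h1 i, ← integral_iUnion_fintype h.meas, h3,
    setIntegral_univ]
  · intro i j hij
    refine Set.disjoint_left.2 fun t ht ht' => hij ?_
    rw [← show κ t = i from ht, ← show κ t = j from ht']
  · intro i
    have h2 : IntegrableOn (fun t => (F t : ℂ) * f i) (κ ⁻¹' {i}) μ :=
      (hF.ofReal.mul_const _).integrableOn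
    refine h2.congr_fun (fun t ht => ?_) (h.meas i)
    simp only
    rw [show κ t = i from ht]

/-- cells for letters with few cells and finitely many continuous functions -/
theorem oe_exists_cells {F : G → ℝ} (hF : Integrable F μ) (hF0 : ∀ t, 0 ≤ F t) {C : Set G}
    (hC : IsCompact C) (hFC : ∀ t, t ∉ C → F t = 0) {E E' : Type*} [NormedAddCommGroup E]
    [NormedAddCommGroup E'] {J P : Type} [Fintype P] {Φ : J → G → E} (hΦ : OECells Φ)
    {Ψ : P → G → E'} (hΨ : ∀ p, Continuous (Ψ p)) {δ η : ℝ} (hδ : 0 < δ) (hη : 0 < η) :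
    ∃ n0 : ℕ, ∀ n, n0 ≤ n → ∃ (I : Type) (_ : Fintype I) (_ : DecidableEq I) (_ : Nonempty I)
      (κ : G → I) (s : I → G) (w : I → ℝ), IsCells μ F C κ s w ∧
        Real.log (Fintype.card I) ≤ δ * n ∧
        (∀ t ∈ C, ∀ j, ‖Φ j t - Φ j (s (κ t))‖ ≤ δ / n) ∧
        (∀ t ∈ C, ∀ p, ‖Ψ p t - Ψ p (s (κ t))‖ ≤ η) := by
  classical
  obtain ⟨n1, hn1⟩ := hΦ C hC (δ / 2) (half_pos hδ)
  obtain ⟨I1, hI1, κ1, a1, a2⟩ := oe_finite_cells (Ψ := fun g p => Ψ p g)
    (continuous_pi hΨ) hC hη
  obtain ⟨n2, hn2⟩ := exists_nat_ge (2 * Real.log (Fintype.card I1) / δ)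
  refine ⟨max n1 n2, fun n hn => ?_⟩
  obtain ⟨I0, hI0, κ0, b1, b2, b3⟩ := hn1 n ((le_max_left _ _).trans hn)
  have hn2' : (n2 : ℝ) ≤ n := by exact_mod_cast (le_max_right _ _).trans hn
  set κ : G → I0 × I1 := fun t => (κ0 t, κ1 t) with hκ
  set s : I0 × I1 → G := fun i => if h : ∃ t ∈ C, κ t = i then h.choose else 1 with hs
  have hs1 : ∀ t ∈ C, s (κ t) ∈ C ∧ κ (s (κ t)) = κ t := by
    intro t ht
    have h : ∃ t' ∈ C, κ t' = κ t := ⟨t, ht, rfl⟩
    have h1 : s (κ t) = h.choose := dif_pos h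
    rw [h1]
    exact h.choose_spec
  have hmeas : ∀ i, MeasurableSet (κ ⁻¹' {i}) := by
    intro i
    have h1 : κ ⁻¹' {i} = κ0 ⁻¹' {i.1} ∩ κ1 ⁻¹' {i.2} := by
      ext t
      simp only [Set.mem_preimage, Set.mem_singleton_iff, Set.mem_inter_iff, hκ]
      exact Prod.ext_iff
    rw [h1]
    exact (b1 _).inter (a1 _)
  have hI0n : Nonempty I0 := ⟨κ0 1⟩
  have hI1n : Nonempty I1 := ⟨κ1 1⟩
  refine ⟨I0 × I1, inferInstance, Classical.decEq _, inferInstance, κ, s,
    fun i => ∫ t in κ ⁻¹' {i}, F t ∂μ, ⟨hmeas, ?_, fun i => rfl, ?_, ?_, fun t ht => (hs1 t ht).1,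
      fun t ht => (hs1 t ht).2⟩, ?_, ?_, ?_⟩
  · intro i
    exact integral_nonneg hF0
  · have h3 : (⋃ i, κ ⁻¹' {i}) = Set.univ := by
      ext t
      simp
    rw [← integral_iUnion_fintype hmeas, h3, setIntegral_univ]
    · intro i j hij
      refine Set.disjoint_left.2 fun t ht ht' => hij ?_
      rw [← show κ t = i from ht, ← show κ t = j from ht']
    · exact fun i => hF.integrableOn
  · intro i hi
    by_contra hc
    apply hi
    refine setIntegral_eq_zero_of_forall_eq_zero fun t ht => ?_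
    by_contra h0
    have htC : t ∈ C := by
      by_contra h1
      exact h0 (hFC t h1)
    have h2 := (hs1 t htC).1
    rw [show κ t = i from ht] at h2
    exact hc h2
  · rw [Fintype.card_prod]
    push_cast
    rw [Real.log_mul (by exact_mod_cast Fintype.card_ne_zero)
      (by exact_mod_cast Fintype.card_ne_zero)]
    rw [div_le_iff₀ hδ] at hn2
    nlinarith
  · intro t ht j
    have h1 := (hs1 t ht).2
    simp only [hκ, Prod.mk.injEq] at h1
    refine (b3 j t ht _ (hs1 t ht).1 h1.1.symm).trans ?_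
    exact div_le_div_of_nonneg_right (by linarith) (Nat.cast_nonneg _)
  · intro t ht p
    have h1 := (hs1 t ht).2
    simp only [hκ, Prod.mk.injEq] at h1
    have h2 := a2 t ht _ (hs1 t ht).1 h1.2.symm
    rw [← dist_eq_norm]
    exact (dist_le_pi_dist (fun p => Ψ p t) (fun p => Ψ p (s (κ t))) p).trans h2

end

end Pool.Agent.AbCoc
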