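import Pool.Agent.Lib_MP_418a80_nm.Cells

/-!
# Comparison of discrete and continuous averages
-/

set_option autoImplicit false
set_option linter.unusedVariables false
set_option linter.unusedSectionVars false

open MeasureTheory Topology Filter
open scoped Pointwise

namespace Pool.Agent.AbCoc

universe u v w

section
variable {B : Type u} [CStarAlgebra B]
  {K : Type v} [NormedAddCommGroup K] [InnerProductSpace ℂ K] (T : TrAlg B K)

theorem TrAlg.norm_τ_sq_sub (y a b : B) : ‖T.τ (y * (star a * a - star b * b))‖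
    ≤ ‖y‖ * (‖T.ι (a - b)‖ * (‖T.ι a‖ + ‖T.ι b‖)) := by
  have h1 : T.τ (y * (star a * a - star b * b))
      = inner ℂ (T.ι (a * star y)) (T.ι (a - b)) + inner ℂ (T.ι ((a - b) * star y)) (T.ι b) := by
    rw [T.inner_eq_τ, T.inner_eq_τ, ← T.τ_add]
    congr 1
    simp only [star_mul, star_star, star_sub]
    noncomm_ring
  have h2 : ∀ c : B, ‖T.ι (c * star y)‖ ≤ ‖T.ι c‖ * ‖y‖ := fun c => by
    have := T.mul_le' c (star y)
    rwa [_root_.norm_star] at this
  rw [h1]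
  refine (norm_add_le _ _).trans ?_
  have h3 : ‖inner ℂ (T.ι (a * star y)) (T.ι (a - b))‖ ≤ (‖T.ι a‖ * ‖y‖) * ‖T.ι (a - b)‖ :=
    (norm_inner_le_norm _ _).trans (mul_le_mul_of_nonneg_right (h2 a) (norm_nonneg _))
  have h4 : ‖inner ℂ (T.ι ((a - b) * star y)) (T.ι b)‖ ≤ (‖T.ι (a - b)‖ * ‖y‖) * ‖T.ι b‖ :=
    (norm_inner_le_norm _ _).trans (mul_le_mul_of_nonneg_right (h2 _) (norm_nonneg _))
  calc _ ≤ (‖T.ι a‖ * ‖y‖) * ‖T.ι (a - b)‖ + (‖T.ι (a - b)‖ * ‖y‖) * ‖T.ι b‖ := add_le_add h3 h4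
    _ = _ := by ring

end

section
variable {B : Type u} [CStarAlgebra B] [PartialOrder B] [StarOrderedRing B]
  {K : Type v} [NormedAddCommGroup K] [InnerProductSpace ℂ K] [CompleteSpace K] {T : TrAlg B K}
  {G : Type w} [Group G] [TopologicalSpace G] [IsTopologicalGroup G] [SecondCountableTopology G]
  [MeasurableSpace G] [BorelSpace G] {μ : Measure G} (S : TrAct G T)

/-- discrete averages of `Y* Y` are close in the trace norm to the integrals -/
theorem TrAct.cells_compare {F : G → ℝ} (hF : Integrable F μ) (hF0 : ∀ t, 0 ≤ F t)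
    (hF1 : ∫ t, F t ∂μ = 1) {C : Set G} (hFC : ∀ t, t ∉ C → F t = 0) {I : Type} [Fintype I]
    {κ : G → I} {s : I → G} {w : I → ℝ} (hc : IsCells μ F C κ s w) {Y h : B}
    (hh : T.ι h = ∫ t, F t • T.ι (S.α t (star Y * Y)) ∂μ) {ω : ℝ}
    (hω : ∀ t ∈ C, ‖T.ι (S.α t Y - S.α (s (κ t)) Y)‖ ≤ ω) (y : B) :
    ‖T.τ (y * (∑ i, ((w i : ℝ) : ℂ) • S.α (s i) (star Y * Y) - h))‖
      ≤ ‖y‖ * (2 * ‖T.ι Y‖ * ω) := by
  have e1 : T.τ (y * ∑ i, ((w i : ℝ) : ℂ) • S.α (s i) (star Y * Y))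
      = ∫ t, (F t : ℂ) * T.τ (y * S.α (s (κ t)) (star Y * Y)) ∂μ := by
    rw [← hc.integral hF fun i => T.τ (y * S.α (s i) (star Y * Y)), Finset.mul_sum, T.τ_sum']
    refine Finset.sum_congr rfl fun i _ => ?_
    rw [mul_smul_comm, T.τ_smul]
  have hi1 : Integrable (fun t => (F t : ℂ) * T.τ (y * S.α t (star Y * Y))) μ :=
    S.τ_orbit_integrable μ hF _ _
  have hi2 : Integrable (fun t => (F t : ℂ) * T.τ (y * S.α (s (κ t)) (star Y * Y))) μ := by
    have hm : Measurable fun t => T.τ (y * S.α (s (κ t)) (star Y * Y)) := by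
      intro V _
      have h1 : (fun t => T.τ (y * S.α (s (κ t)) (star Y * Y))) ⁻¹' V
          = ⋃ i ∈ {i : I | T.τ (y * S.α (s i) (star Y * Y)) ∈ V}, κ ⁻¹' {i} := by
        ext t
        simp
      rw [h1]
      exact MeasurableSet.biUnion (Set.to_countable _) fun i _ => hc.meas i
    obtain ⟨c, hc⟩ : ∃ c : ℝ, ∀ i, ‖T.τ (y * S.α (s i) (star Y * Y))‖ ≤ c :=
      ⟨∑ i, ‖T.τ (y * S.α (s i) (star Y * Y))‖, fun i =>
        Finset.single_le_sum (f := fun i => ‖T.τ (y * S.α (s i) (star Y * Y))‖)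
          (fun _ _ => norm_nonneg _) (Finset.mem_univ i)⟩
    exact hF.ofReal.mul_bdd hm.aestronglyMeasurable (Eventually.of_forall fun t => hc _)
  rw [mul_sub, T.τ_sub, e1, S.τ_orbit μ hF hh, ← integral_sub hi2 hi1]
  have h5 : ∀ t, ‖(F t : ℂ) * T.τ (y * S.α (s (κ t)) (star Y * Y))
      - (F t : ℂ) * T.τ (y * S.α t (star Y * Y))‖ ≤ F t * (‖y‖ * (2 * ‖T.ι Y‖ * ω)) := by
    intro t
    rw [← mul_sub, norm_mul, Complex.norm_real, Real.norm_of_nonneg (hF0 t)]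
    by_cases ht : t ∈ C
    · refine mul_le_mul_of_nonneg_left ?_ (hF0 t)
      rw [← T.τ_sub, ← mul_sub, map_mul, map_star, map_mul, map_star]
      refine (T.norm_τ_sq_sub _ _ _).trans ?_
      refine mul_le_mul_of_nonneg_left ?_ (norm_nonneg _)
      rw [S.norm_map, S.norm_map]
      have h6 : ‖T.ι (S.α (s (κ t)) Y - S.α t Y)‖ = ‖T.ι (S.α t Y - S.α (s (κ t)) Y)‖ := by
        rw [map_sub, map_sub, norm_sub_rev]
      rw [h6]
      have h7 := hω t ht
      nlinarith [norm_nonneg (T.ι Y)]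
    · rw [hFC t ht, zero_mul, zero_mul]
  refine (norm_integral_le_of_norm_le (hF.mul_const _) (Eventually.of_forall h5)).trans
    (le_of_eq ?_)
  rw [integral_mul_const, hF1, one_mul]

end

end Pool.Agent.AbCoc
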