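import Pool.Agent.Lib_MP_418a80_nm.Disp4
import Pool.Agent.Lib_MP_418a80_oe.OE7

/-!
# Displacement with smooth unitary letters
-/

set_option autoImplicit false
set_option linter.unusedVariables false
set_option linter.unusedSectionVars false

open Topology Filter MeasureTheory
open scoped Pointwise

namespace Pool.Agent.AbCoc

universe u v w

section
variable {A : Type u} [CStarAlgebra A] [PartialOrder A] [StarOrderedRing A]
  {K : Type v} [NormedAddCommGroup K] [InnerProductSpace ℂ K] (T : TrAlg A K)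

theorem TrAlg.sum_mul_left_le {J : Type*} [Fintype J] (c : J → A)
    (hc : ∑ i, c i * star (c i) ≤ 1) (y : A) : ∑ i, ‖T.ι (y * c i)‖ ^ 2 ≤ ‖T.ι y‖ ^ 2 := by
  have h1 : ∀ i, ‖T.ι (y * c i)‖ ^ 2 = (T.τ (y * (c i * star (c i)) * star y)).re := by
    intro i
    rw [← T.norm_star, T.norm_sq, star_star, star_mul]
    congr 2
    noncomm_ring
  have h2 : ∑ i, (T.τ (y * (c i * star (c i)) * star y)).re
      = (T.τ (y * (∑ i, c i * star (c i)) * star y)).re := by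
    rw [← Complex.re_sum, Finset.mul_sum, Finset.sum_mul]
    unfold TrAlg.τ
    rw [map_sum, inner_sum]
  have h3 := T.re_τ_conj_nonneg (star y) _ (sub_nonneg.2 hc)
  rw [star_star, mul_sub, sub_mul, mul_one, T.τ_sub, Complex.sub_re] at h3
  have h4 : ‖T.ι y‖ ^ 2 = (T.τ (y * star y)).re := by
    rw [← T.norm_star, T.norm_sq, star_star]
  rw [Finset.sum_congr rfl fun i _ => h1 i, h2, h4]
  linarith

variable {T} {G : Type w} [Group G] [TopologicalSpace G] (S : TrAct G T)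

theorem TrAct.sum_mul_right_le {J : Type*} [Fintype J] (c : J → A) (g : J → G)
    (hc : ∑ i, S.α (g i)⁻¹ (star (c i) * c i) ≤ 1) (y : A) :
    ∑ i, ‖T.ι (c i * S.α (g i) y)‖ ^ 2 ≤ ‖T.ι y‖ ^ 2 := by
  have h1 : ∀ i, ‖T.ι (c i * S.α (g i) y)‖ ^ 2
      = (T.τ (star y * S.α (g i)⁻¹ (star (c i) * c i) * y)).re := by
    intro i
    rw [← S.norm_map (g i)⁻¹, map_mul, S.inv_apply, T.norm_sq, star_mul, map_mul, map_star]
    congr 2
    noncomm_ring
  have h2 : ∑ i, (T.τ (star y * S.α (g i)⁻¹ (star (c i) * c i) * y)).re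
      = (T.τ (star y * (∑ i, S.α (g i)⁻¹ (star (c i) * c i)) * y)).re := by
    rw [← Complex.re_sum, Finset.mul_sum, Finset.sum_mul]
    unfold TrAlg.τ
    rw [map_sum, inner_sum]
  have h3 := T.re_τ_conj_nonneg y _ (sub_nonneg.2 hc)
  rw [mul_sub, sub_mul, mul_one, T.τ_sub, Complex.sub_re, ← T.norm_sq] at h3
  rw [Finset.sum_congr rfl fun i _ => h1 i, h2]
  linarith

theorem sq_add3_le (a b c : K) : ‖a + b + c‖ ^ 2 ≤ 3 * (‖a‖ ^ 2 + ‖b‖ ^ 2 + ‖c‖ ^ 2) := by
  have h1 : ‖a + b + c‖ ≤ ‖a‖ + ‖b‖ + ‖c‖ := norm_add₃_le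
  have h2 := pow_le_pow_left₀ (norm_nonneg _) h1 2
  nlinarith [sq_nonneg (‖a‖ - ‖b‖), sq_nonneg (‖b‖ - ‖c‖), sq_nonneg (‖a‖ - ‖c‖)]

end

section letters
variable {A : Type u} [CStarAlgebra A] [PartialOrder A] [StarOrderedRing A] {K : Type v}
  [NormedAddCommGroup K] [InnerProductSpace ℂ K] [CompleteSpace K] {T : TrAlg A K}
variable {G : Type w} [Group G] [TopologicalSpace G] [IsTopologicalGroup G]
  [SecondCountableTopology G] [LocallyCompactSpace G] [T2Space G] [MeasurableSpace G]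
  [BorelSpace G] (S : TrAct G T) (μ : Measure G) [μ.IsHaarMeasure]
include μ

/-- displacement, tested on finitely many smooth unitary letters -/
theorem TrAct.disp_letters
    (hfac : ∀ x : A, (∀ y, x * y = y * x) → ∃ c : ℂ, x = c • (1 : A)) {E : Set G}
    (hE : IsCompact E) (h : ∀ g ∈ E, ¬ S.HasTwist g) (ε : ℝ) (hε : 0 < ε) :
    ∃ (J0 : Type) (_ : Fintype J0) (_ : Nonempty J0) (u : J0 → A),
      (∀ j, star (u j) * u j = 1) ∧ (∀ j, u j * star (u j) = 1) ∧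
      (∀ j, Continuous fun g => S.α g (u j)) ∧ (OECells fun (j : J0) g => T.ι (S.α g (u j))) ∧
      ∃ δ : ℝ, 0 < δ ∧ ∀ (J : Type) [Fintype J] (c : J → A) (g : J → G),
        (∀ i, c i ≠ 0 → g i ∈ E) → ∑ i, c i * star (c i) ≤ 1 →
        ∑ i, S.α (g i)⁻¹ (star (c i) * c i) ≤ 1 →
        (∀ j, ∑ i, ‖T.ι (u j * c i - c i * S.α (g i) (u j))‖ ^ 2 ≤ δ) →
        ∑ i, ‖T.ι (c i)‖ ^ 2 ≤ ε := by
  classical
  obtain ⟨F, δ0, hδ0, hF⟩ := S.displacement hfac hE h ε hε
  -- positive parts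
  choose x4 hx4 hx4n hx4e using fun a : A => CStarAlgebra.exists_sum_four_nonneg a
  obtain ⟨eF⟩ : Nonempty ({a // a ∈ F} ≃ Fin F.card) := ⟨F.equivFin⟩
  obtain ⟨z, hz⟩ : ∃ z : Option (Fin F.card × Fin 4) → A, z = fun o =>
    o.elim 1 fun q => x4 (eF.symm q.1).1 q.2 := ⟨_, rfl⟩
  have hz0 : ∀ j, 0 ≤ z j := by
    rintro (_ | q)
    · rw [hz]; exact zero_le_one
    · rw [hz]; exact hx4 _ _
  obtain ⟨R, hR⟩ : ∃ R : ℝ, R = ∑ j, (‖z j‖ + 1) ^ 4 := ⟨_, rfl⟩
  have hRj : ∀ j, (‖z j‖ + 1) ^ 4 ≤ R := fun j => by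
    rw [hR]
    exact Finset.single_le_sum (f := fun j => (‖z j‖ + 1) ^ 4) (fun _ _ => by positivity)
      (Finset.mem_univ j)
  have hR0 : 0 < R := lt_of_lt_of_le (by positivity) (hRj none)
  obtain ⟨ε1, hε1, hε1'⟩ : ∃ ε1 : ℝ, 0 < ε1 ∧ ε1 ^ 2 ≤ δ0 / 192 :=
    ⟨Real.sqrt (δ0 / 192), Real.sqrt_pos.2 (by positivity), (Real.sq_sqrt (by positivity)).le⟩
  obtain ⟨hh, u, b1, b2, b3, b4, b5, b6, b7, b8⟩ := S.exists_letters μ hz0 hε1
  refine ⟨Option (Fin F.card × Fin 4), inferInstance, ⟨none⟩, u, b4, b5, b6, b7,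
    δ0 / (96 * R), by positivity, fun J _ c g c1 c2 c3 c4 => ?_⟩
  refine hF J c g c1 c2 c3 fun a ha => ?_
  -- one positive element
  have key : ∀ j, ∑ i, ‖T.ι (z j * c i - c i * S.α (g i) (z j))‖ ^ 2
      ≤ 3 * (R * (δ0 / (96 * R)) + ε1 ^ 2 + ε1 ^ 2) := by
    intro j
    have h1 : ∀ i, ‖T.ι (z j * c i - c i * S.α (g i) (z j))‖ ^ 2
        ≤ 3 * (R * ‖T.ι (u j * c i - c i * S.α (g i) (u j))‖ ^ 2
          + ‖T.ι ((z j - hh j) * c i)‖ ^ 2 + ‖T.ι (c i * S.α (g i) (z j - hh j))‖ ^ 2) := by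
      intro i
      have h2 : T.ι (z j * c i - c i * S.α (g i) (z j))
          = T.ι (hh j * c i - c i * S.α (g i) (hh j)) + T.ι ((z j - hh j) * c i)
            + -T.ι (c i * S.α (g i) (z j - hh j)) := by
        rw [← map_neg, ← map_add, ← map_add, map_sub (S.α (g i))]
        congr 1
        noncomm_ring
      rw [h2]
      refine (sq_add3_le _ _ _).trans ?_
      rw [norm_neg]
      refine mul_le_mul_of_nonneg_left ?_ (by norm_num)
      refine add_le_add (add_le_add ?_ le_rfl) le_rfl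
      have h3 := b8 j (StarAlgHom.id ℂ A) (S.α (g i)) (c i)
      have h4 := pow_le_pow_left₀ (norm_nonneg _) h3 2
      refine h4.trans ?_
      rw [mul_pow]
      refine mul_le_mul_of_nonneg_right ?_ (by positivity)
      refine le_trans ?_ (hRj j)
      rw [← pow_mul]
      exact pow_le_pow_left₀ (by positivity) (by linarith [b2 j]) 4
    refine (Finset.sum_le_sum fun i _ => h1 i).trans ?_
    rw [← Finset.mul_sum, Finset.sum_add_distrib, Finset.sum_add_distrib, ← Finset.mul_sum]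
    have h5 := T.sum_mul_left_le c c2 (z j - hh j)
    have h6 := S.sum_mul_right_le c g c3 (z j - hh j)
    have h7 : ‖T.ι (z j - hh j)‖ ^ 2 ≤ ε1 ^ 2 := by
      rw [map_sub, norm_sub_rev]
      exact pow_le_pow_left₀ (norm_nonneg _) (b3 j) 2
    have h8 := mul_le_mul_of_nonneg_left (c4 j) hR0.le
    linarith
  obtain ⟨q, hq⟩ : ∃ q : Fin 4 → Option (Fin F.card × Fin 4),
      q = fun k => some (eF ⟨a, ha⟩, k) := ⟨_, rfl⟩
  have hzq : ∀ k, z (q k) = x4 a k := by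
    intro k
    rw [hz, hq]
    simp
  have hsum : ∀ i, ‖T.ι (a * c i - c i * S.α (g i) a)‖ ^ 2
      ≤ 4 * ∑ k, ‖T.ι (z (q k) * c i - c i * S.α (g i) (z (q k)))‖ ^ 2 := by
    intro i
    have h1 : T.ι (a * c i - c i * S.α (g i) a)
        = ∑ k : Fin 4, (Complex.I ^ (k : ℕ)) •
          T.ι (z (q k) * c i - c i * S.α (g i) (z (q k))) := by
      have h2 : a * c i - c i * S.α (g i) a = ∑ k : Fin 4, (Complex.I ^ (k : ℕ)) •
          (z (q k) * c i - c i * S.α (g i) (z (q k))) := by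
        conv_lhs => rw [hx4e a]
        rw [Finset.sum_mul, map_sum, Finset.mul_sum, ← Finset.sum_sub_distrib]
        refine Finset.sum_congr rfl fun k _ => ?_
        rw [hzq, map_smul, smul_mul_assoc, mul_smul_comm, smul_sub]
      rw [h2, map_sum]
      exact Finset.sum_congr rfl fun k _ => map_smul _ _ _
    have h3 : ‖T.ι (a * c i - c i * S.α (g i) a)‖
        ≤ ∑ k : Fin 4, ‖T.ι (z (q k) * c i - c i * S.α (g i) (z (q k)))‖ := by
      rw [h1]
      refine (norm_sum_le _ _).trans (le_of_eq (Finset.sum_congr rfl fun k _ => ?_))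
      rw [norm_smul, norm_pow, Complex.norm_I, one_pow, one_mul]
    have h4 := pow_le_pow_left₀ (norm_nonneg _) h3 2
    have h5 := sq_sum_le_card_mul_sum_sq (s := (Finset.univ : Finset (Fin 4)))
      (f := fun k => ‖T.ι (z (q k) * c i - c i * S.α (g i) (z (q k)))‖)
    rw [Finset.card_univ, Fintype.card_fin] at h5
    refine h4.trans (h5.trans (le_of_eq ?_))
    norm_num
  refine (Finset.sum_le_sum fun i _ => hsum i).trans ?_
  rw [← Finset.mul_sum, Finset.sum_comm]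
  have h9 : ∑ k : Fin 4, ∑ i, ‖T.ι (z (q k) * c i - c i * S.α (g i) (z (q k)))‖ ^ 2
      ≤ ∑ _k : Fin 4, 3 * (R * (δ0 / (96 * R)) + ε1 ^ 2 + ε1 ^ 2) :=
    Finset.sum_le_sum fun k _ => key (q k)
  rw [Finset.sum_const, Finset.card_univ, Fintype.card_fin, nsmul_eq_mul] at h9
  have h10 : R * (δ0 / (96 * R)) = δ0 / 96 := by
    field_simp
  rw [h10] at h9
  push_cast at h9
  linarith

end letters

end Pool.Agent.AbCoc
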