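import Pool.Agent.Lib_MP_418a80_nm.AmpT2

/-!
# The walk, kernels of families, columns of families, words
-/

set_option autoImplicit false
set_option linter.unusedVariables false
set_option linter.unusedSectionVars false

open Topology Filter

namespace Pool.Agent.AbCoc

universe u v w

section
variable {A : Type u} [CStarAlgebra A]
  {K : Type v} [NormedAddCommGroup K] [InnerProductSpace ℂ K]
variable {G : Type w} [Group G] [TopologicalSpace G] {T : TrAlg A K} (S : TrAct G T)
  {X : Type} [Fintype X] [DecidableEq X] (s : X → G) (ζ : X → ℝ)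

/-- one step of the walk: the average of `π(u_j) f π(u_j)*` -/
noncomputable def TrAct.wk {J : Type} [Fintype J] (u : J → A) (f : Mt X A) : Mt X A :=
  ((Fintype.card J : ℂ))⁻¹ • ∑ j, S.pid s (u j) * f * star (S.pid s (u j))

/-- the kernel `∑ p, π(x_p) ζ ζ* π(x_p)*` of a family -/
noncomputable def TrAct.ker {P : Type} [Fintype P] (x : P → A) : Mt X A :=
  CStarMatrix.ofMatrix fun c c' =>
    ((ζ c * ζ c' : ℝ) : ℂ) • ∑ p, S.α (s c) (x p) * star (S.α (s c') (x p))

/-- the vectors `π(x_p) ζ` of a family, placed in the columns `e p` -/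
noncomputable def TrAct.col {P : Type} [Fintype P] (e : P → X) (x : P → A) : Mt X A :=
  CStarMatrix.ofMatrix fun c c' => ∑ p, if e p = c' then ((ζ c : ℝ) : ℂ) • S.α (s c) (x p) else 0

variable {P : Type} [Fintype P]

theorem TrAct.ker_apply (x : P → A) (c c' : X) : S.ker s ζ x c c' =
    ((ζ c * ζ c' : ℝ) : ℂ) • ∑ p, S.α (s c) (x p) * star (S.α (s c') (x p)) := rfl

theorem TrAct.col_apply (e : P → X) (x : P → A) (c c' : X) : S.col s ζ e x c c' =
    ∑ p, if e p = c' then ((ζ c : ℝ) : ℂ) • S.α (s c) (x p) else 0 := rfl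

theorem TrAct.col_apply_emb (e : P → X) (he : Function.Injective e) (x : P → A) (c : X) (p : P) :
    S.col s ζ e x c (e p) = ((ζ c : ℝ) : ℂ) • S.α (s c) (x p) := by
  rw [S.col_apply, Finset.sum_eq_single p]
  · rw [if_pos rfl]
  · intro q _ hq
    rw [if_neg fun h => hq (he h)]
  · intro h; exact absurd (Finset.mem_univ p) h

theorem TrAct.col_apply_not (e : P → X) (x : P → A) (c c' : X) (h : ∀ p, e p ≠ c') :
    S.col s ζ e x c c' = 0 := by
  rw [S.col_apply]
  exact Finset.sum_eq_zero fun p _ => if_neg (h p)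

theorem TrAct.sum_emb {M : Type*} [AddCommMonoid M] (e : P → X) (he : Function.Injective e)
    (f : X → M) (hf : ∀ c, (∀ p, e p ≠ c) → f c = 0) : ∑ c, f c = ∑ p, f (e p) := by
  classical
  rw [← Finset.sum_image (s := Finset.univ) (g := e) (f := f) fun a _ b _ h => he h]
  symm
  refine Finset.sum_subset (Finset.subset_univ _) fun c _ hc => hf c fun p hp => ?_
  exact hc (Finset.mem_image.2 ⟨p, Finset.mem_univ _, hp⟩)

/-- columns times their adjoints -/
theorem TrAct.col_mul_star (e : P → X) (he : Function.Injective e) (x : P → A) :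
    S.col s ζ e x * star (S.col s ζ e x) = S.ker s ζ x := by
  ext c c'
  rw [CStarMatrix.mul_apply, S.ker_apply]
  have h1 : ∀ k, S.col s ζ e x c k * (star (S.col s ζ e x)) k c'
      = S.col s ζ e x c k * star (S.col s ζ e x c' k) := fun k => rfl
  simp only [h1]
  rw [TrAct.sum_emb e he (fun k => S.col s ζ e x c k * star (S.col s ζ e x c' k)) fun k hk => by
    rw [S.col_apply_not s ζ e x c k hk, zero_mul]]
  rw [Finset.smul_sum]
  refine Finset.sum_congr rfl fun p _ => ?_
  rw [S.col_apply_emb s ζ e he, S.col_apply_emb s ζ e he, star_smul, smul_mul_smul_comm]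
  simp

/-- the Gram matrix of two families -/
theorem TrAct.star_col_mul (e : P → X) (he : Function.Injective e) (x y : P → A) (p q : P) :
    (star (S.col s ζ e x) * S.col s ζ e y) (e p) (e q)
      = ∑ c, ((ζ c ^ 2 : ℝ) : ℂ) • S.α (s c) (star (x p) * y q) := by
  rw [CStarMatrix.mul_apply]
  refine Finset.sum_congr rfl fun c _ => ?_
  change star (S.col s ζ e x c (e p)) * S.col s ζ e y c (e q) = _
  rw [S.col_apply_emb s ζ e he, S.col_apply_emb s ζ e he, star_smul, smul_mul_smul_comm, map_mul,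
    map_star]
  simp [sq]

theorem TrAct.star_col_mul_left (e : P → X) (x y : P → A) (c c' : X) (h : ∀ p, e p ≠ c) :
    (star (S.col s ζ e x) * S.col s ζ e y) c c' = 0 := by
  rw [CStarMatrix.mul_apply]
  refine Finset.sum_eq_zero fun k _ => ?_
  change star (S.col s ζ e x k c) * _ = 0
  rw [S.col_apply_not s ζ e x k c h, star_zero, zero_mul]

theorem TrAct.star_col_mul_right (e : P → X) (x y : P → A) (c c' : X) (h : ∀ p, e p ≠ c') :
    (star (S.col s ζ e x) * S.col s ζ e y) c c' = 0 := by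
  rw [CStarMatrix.mul_apply]
  refine Finset.sum_eq_zero fun k _ => ?_
  rw [S.col_apply_not s ζ e y k c' h, mul_zero]

/-- the Hilbert-Schmidt norm of the columns of a family -/
theorem TrAct.hs_col (e : P → X) (he : Function.Injective e) (x : P → A) :
    T.hs (S.col s ζ e x) = (∑ c, ζ c ^ 2) * ∑ p, ‖T.ι (x p)‖ ^ 2 := by
  unfold TrAlg.hs
  have h1 : ∀ c, ∑ c', ‖T.ι (S.col s ζ e x c c')‖ ^ 2 = ζ c ^ 2 * ∑ p, ‖T.ι (x p)‖ ^ 2 := by
    intro c
    rw [TrAct.sum_emb e he (fun c' => ‖T.ι (S.col s ζ e x c c')‖ ^ 2) fun k hk => by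
      rw [S.col_apply_not s ζ e x c k hk, map_zero, norm_zero]; norm_num]
    rw [Finset.mul_sum]
    refine Finset.sum_congr rfl fun p _ => ?_
    rw [S.col_apply_emb s ζ e he, map_smul, norm_smul, S.norm_map, Complex.norm_real, mul_pow,
      Real.norm_eq_abs, sq_abs]
  rw [Finset.sum_congr rfl fun c _ => h1 c, Finset.sum_mul]

/-- difference of columns for the same vector `ζ` and different sample points -/
theorem TrAct.hs_col_sub (s' : X → G) (e : P → X) (he : Function.Injective e) (x y : P → A) :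
    T.hs (S.col s ζ e x - S.col s' ζ e y)
      = ∑ c, ζ c ^ 2 * ∑ p, ‖T.ι (S.α (s c) (x p) - S.α (s' c) (y p))‖ ^ 2 := by
  unfold TrAlg.hs
  refine Finset.sum_congr rfl fun c _ => ?_
  have h0 : ∀ c', (S.col s ζ e x - S.col s' ζ e y) c c' = S.col s ζ e x c c' - S.col s' ζ e y c c' :=
    fun c' => rfl
  rw [TrAct.sum_emb e he (fun c' => ‖T.ι ((S.col s ζ e x - S.col s' ζ e y) c c')‖ ^ 2)
    fun k hk => by
      rw [h0, S.col_apply_not s ζ e x c k hk, S.col_apply_not s' ζ e y c k hk, sub_zero, map_zero,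
        norm_zero]; norm_num]
  rw [Finset.mul_sum]
  refine Finset.sum_congr rfl fun p _ => ?_
  rw [h0, S.col_apply_emb s ζ e he, S.col_apply_emb s' ζ e he, ← smul_sub, map_smul, norm_smul,
    Complex.norm_real, mul_pow, Real.norm_eq_abs, sq_abs]

theorem TrAct.ker_add_star (x : P → A) : ∀ c, S.ker s ζ x c c
    = ((ζ c ^ 2 : ℝ) : ℂ) • S.α (s c) (∑ p, x p * star (x p)) := by
  intro c
  rw [S.ker_apply, map_sum, sq]
  congr 1
  refine Finset.sum_congr rfl fun p _ => ?_
  rw [map_mul, map_star]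

end

section words
variable {A : Type u} [CStarAlgebra A]
  {K : Type v} [NormedAddCommGroup K] [InnerProductSpace ℂ K]
variable {G : Type w} [Group G] [TopologicalSpace G] {T : TrAlg A K} (S : TrAct G T)

/-- the family of all words of length `n` in the letters `u`, with its properties -/
structure TrAct.IsWords (S : TrAct G T) {J : Type} [Fintype J] (u : J → A) (n : ℕ) {W : Type}
    [Fintype W] (c : W → A) : Prop where
  /-- the kernel of the family `c_w x_p` is the `n`-th step of the walk -/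
  ker : ∀ (X : Type) [Fintype X] [DecidableEq X] (s : X → G) (ζ : X → ℝ) (P : Type) [Fintype P]
    (x : P → A), S.ker s ζ (fun q : W × P => c q.1 * x q.2) = (S.wk s u)^[n] (S.ker s ζ x)
  sum_star_mul : ∑ w, star (c w) * c w = 1
  sum_mul_star : ∑ w, c w * star (c w) = 1
  /-- the words are multiples of unitaries, with the same factor -/
  unit : ∃ k : ℝ, 0 < k ∧ ∀ w, star (c w) * c w = (k : ℂ) • (1 : A) ∧
    c w * star (c w) = (k : ℂ) • (1 : A)
  /-- oscillation of the words -/
  osc : ∀ (s t : G) (η : ℝ), 0 ≤ η → (∀ j, ‖T.ι (S.α s (u j) - S.α t (u j))‖ ≤ η) → ∀ z : A,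
    ∑ w, ‖T.ι ((S.α s (c w) - S.α t (c w)) * z)‖ ^ 2 ≤ (n * η * ‖z‖) ^ 2

theorem rel_sum_norm_sq_add {ι' : Type*} (t : Finset ι') (E : Type*) [NormedAddCommGroup E]
    (f g : ι' → E) (a b : ℝ) (ha : 0 ≤ a) (hb : 0 ≤ b) (h1 : ∑ i ∈ t, ‖f i‖ ^ 2 ≤ a ^ 2)
    (h2 : ∑ i ∈ t, ‖g i‖ ^ 2 ≤ b ^ 2) : ∑ i ∈ t, ‖f i + g i‖ ^ 2 ≤ (a + b) ^ 2 := by
  have h3 : ∑ i ∈ t, ‖f i‖ * ‖g i‖ ≤ a * b := by
    have h4 := Finset.sum_mul_sq_le_sq_mul_sq t (fun i => ‖f i‖) (fun i => ‖g i‖)
    have h5 : (∑ i ∈ t, ‖f i‖ ^ 2) * ∑ i ∈ t, ‖g i‖ ^ 2 ≤ a ^ 2 * b ^ 2 :=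
      mul_le_mul h1 h2 (Finset.sum_nonneg fun _ _ => sq_nonneg _) (sq_nonneg _)
    refine abs_le_of_sq_le_sq' ?_ (by positivity) |>.2
    rw [mul_pow]
    exact h4.trans h5
  calc ∑ i ∈ t, ‖f i + g i‖ ^ 2 ≤ ∑ i ∈ t, (‖f i‖ ^ 2 + 2 * (‖f i‖ * ‖g i‖) + ‖g i‖ ^ 2) := by
        refine Finset.sum_le_sum fun i _ => ?_
        have := pow_le_pow_left₀ (norm_nonneg _) (norm_add_le (f i) (g i)) 2
        nlinarith
    _ = ∑ i ∈ t, ‖f i‖ ^ 2 + 2 * ∑ i ∈ t, ‖f i‖ * ‖g i‖ + ∑ i ∈ t, ‖g i‖ ^ 2 := by
        rw [Finset.sum_add_distrib, Finset.sum_add_distrib, Finset.mul_sum]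
    _ ≤ (a + b) ^ 2 := by nlinarith

theorem TrAct.exists_words {J : Type} [Fintype J] [Nonempty J] (u : J → A)
    (h1 : ∀ j, star (u j) * u j = 1) (h2 : ∀ j, u j * star (u j) = 1) (n : ℕ) :
    ∃ (W : Type) (_ : Fintype W) (_ : DecidableEq W) (_ : Nonempty W) (c : W → A),
      S.IsWords u n c := by
  induction n with
  | zero =>
    refine ⟨Unit, inferInstance, inferInstance, inferInstance, fun _ => 1, ?_, ?_, ?_, ?_, ?_⟩
    · intro X _ _ s ζ P _ x
      rw [Function.iterate_zero, id]
      ext c c'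
      rw [S.ker_apply, S.ker_apply, Fintype.sum_prod_type]
      simp
    · simp
    · simp
    · exact ⟨1, one_pos, fun w => by simp⟩
    · intro s t η hη h z
      simp
  | succ n ih =>
    obtain ⟨W, _, _, _, c, hc⟩ := ih
    have hJ : (0 : ℝ) < (Fintype.card J : ℝ) := Nat.cast_pos.2 Fintype.card_pos
    set m : ℝ := (Fintype.card J : ℝ) with hm
    set k : ℝ := (Real.sqrt m)⁻¹ with hk
    have hk0 : 0 < k := inv_pos.2 (Real.sqrt_pos.2 hJ)
    have hkk : k * k = m⁻¹ := by rw [hk, ← mul_inv, Real.mul_self_sqrt hJ.le]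
    have hkc : (k : ℂ) * (k : ℂ) = ((m⁻¹ : ℝ) : ℂ) := by rw [← Complex.ofReal_mul, hkk]
    have hstar : star (k : ℂ) = (k : ℂ) := Complex.conj_ofReal k
    refine ⟨J × W, inferInstance, Classical.decEq _, inferInstance,
      fun q => (k : ℂ) • (u q.1 * c q.2), ?_, ?_, ?_, ?_, ?_⟩
    · intro X _ _ s ζ P _ x
      rw [Function.iterate_succ_apply', ← hc.ker X s ζ P x]
      ext a b
      rw [S.ker_apply]
      have e1 : (S.wk s u (S.ker s ζ fun q : W × P => c q.1 * x q.2)) a b
          = ((Fintype.card J : ℂ))⁻¹ • ∑ j, S.α (s a) (u j)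
            * S.ker s ζ (fun q : W × P => c q.1 * x q.2) a b * star (S.α (s b) (u j)) := by
        unfold TrAct.wk
        rw [CStarMatrix.smul_apply]
        congr 1
        have e2 : ∀ (t : Finset J) (f : J → Mt X A), (∑ j ∈ t, f j) a b = ∑ j ∈ t, f j a b := by
          intro t f
          classical
          induction t using Finset.induction_on with
          | empty => rfl
          | insert j t hj ih' =>
            rw [Finset.sum_insert hj, Finset.sum_insert hj, ← ih']
            rfl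
        rw [e2]
        refine Finset.sum_congr rfl fun j _ => ?_
        rw [← map_star, S.mul_pid_apply, S.pid_mul_apply, map_star]
      rw [e1]
      simp only [S.ker_apply, Fintype.sum_prod_type]
      have e3 : ((Fintype.card J : ℂ))⁻¹ = ((m⁻¹ : ℝ) : ℂ) := by rw [hm]; push_cast; rfl
      rw [e3, Finset.smul_sum, Finset.smul_sum]
      refine Finset.sum_congr rfl fun j _ => ?_
      rw [mul_smul_comm, smul_mul_assoc, smul_comm (((m⁻¹ : ℝ) : ℂ))]
      congr 1
      rw [Finset.mul_sum, Finset.sum_mul, Finset.smul_sum]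
      refine Finset.sum_congr rfl fun w _ => ?_
      rw [Finset.mul_sum, Finset.sum_mul, Finset.smul_sum]
      refine Finset.sum_congr rfl fun p _ => ?_
      rw [smul_mul_assoc, map_smul, map_smul, star_smul, smul_mul_smul_comm, hstar, hkc]
      congr 1
      simp only [map_mul, star_mul, mul_assoc]
    · rw [Fintype.sum_prod_type]
      have e1 : ∀ j, ∑ w, star ((k : ℂ) • (u j * c w)) * ((k : ℂ) • (u j * c w))
          = ((m⁻¹ : ℝ) : ℂ) • (1 : A) := by
        intro j
        rw [← hc.sum_star_mul, Finset.smul_sum]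
        refine Finset.sum_congr rfl fun w _ => ?_
        rw [star_smul, smul_mul_smul_comm, hstar, hkc, star_mul]
        congr 1
        calc star (c w) * star (u j) * (u j * c w) = star (c w) * (star (u j) * u j) * c w := by
              noncomm_ring
          _ = star (c w) * c w := by rw [h1, mul_one]
      rw [Finset.sum_congr rfl fun j _ => e1 j, Finset.sum_const, Finset.card_univ,
        ← Nat.cast_smul_eq_nsmul ℂ, smul_smul]
      have e2 : ((Fintype.card J : ℂ)) * ((m⁻¹ : ℝ) : ℂ) = 1 := by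
        rw [hm]
        push_cast
        exact mul_inv_cancel₀ (Nat.cast_ne_zero.2 Fintype.card_ne_zero)
      rw [e2, one_smul]
    · rw [Fintype.sum_prod_type]
      have e1 : ∀ j, ∑ w, ((k : ℂ) • (u j * c w)) * star ((k : ℂ) • (u j * c w))
          = ((m⁻¹ : ℝ) : ℂ) • (1 : A) := by
        intro j
        have e3 : ∀ w, ((k : ℂ) • (u j * c w)) * star ((k : ℂ) • (u j * c w))
            = ((m⁻¹ : ℝ) : ℂ) • (u j * (c w * star (c w)) * star (u j)) := by
          intro w
          rw [star_smul, smul_mul_smul_comm, hstar, hkc, star_mul]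
          congr 1
          noncomm_ring
        rw [Finset.sum_congr rfl fun w _ => e3 w, ← Finset.smul_sum, ← Finset.sum_mul,
          ← Finset.mul_sum, hc.sum_mul_star, mul_one, h2]
      rw [Finset.sum_congr rfl fun j _ => e1 j, Finset.sum_const, Finset.card_univ,
        ← Nat.cast_smul_eq_nsmul ℂ, smul_smul]
      have e2 : ((Fintype.card J : ℂ)) * ((m⁻¹ : ℝ) : ℂ) = 1 := by
        rw [hm]
        push_cast
        exact mul_inv_cancel₀ (Nat.cast_ne_zero.2 Fintype.card_ne_zero)
      rw [e2, one_smul]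
    · obtain ⟨k', hk', hu⟩ := hc.unit
      refine ⟨m⁻¹ * k', by positivity, fun q => ⟨?_, ?_⟩⟩
      · rw [star_smul, smul_mul_smul_comm, hstar, hkc, star_mul]
        have : star (c q.2) * star (u q.1) * (u q.1 * c q.2)
            = star (c q.2) * (star (u q.1) * u q.1) * c q.2 := by noncomm_ring
        rw [this, h1, mul_one, (hu q.2).1, smul_smul]
        push_cast
        rfl
      · rw [star_smul, smul_mul_smul_comm, hstar, hkc, star_mul]
        have : u q.1 * c q.2 * (star (c q.2) * star (u q.1))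
            = u q.1 * (c q.2 * star (c q.2)) * star (u q.1) := by noncomm_ring
        rw [this, (hu q.2).2, mul_smul_comm, mul_one, smul_mul_assoc, h2, smul_smul]
        push_cast
        rfl
    · intro s t η hη h z
      have hdec : ∀ q : J × W, T.ι ((S.α s ((k : ℂ) • (u q.1 * c q.2))
          - S.α t ((k : ℂ) • (u q.1 * c q.2))) * z)
          = (k : ℂ) • T.ι ((S.α s (u q.1) - S.α t (u q.1)) * (S.α s (c q.2) * z))
            + (k : ℂ) • T.ι (S.α t (u q.1) * ((S.α s (c q.2) - S.α t (c q.2)) * z)) := by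
        intro q
        rw [← smul_add, ← map_add, ← map_smul]
        congr 1
        rw [map_smul, map_smul, ← smul_sub, smul_mul_assoc, map_mul, map_mul]
        congr 1
        noncomm_ring
      have hk2 : ‖(k : ℂ)‖ ^ 2 = m⁻¹ := by
        rw [Complex.norm_real, Real.norm_of_nonneg hk0.le, sq, hkk]
      have hmm : m * m⁻¹ = 1 := mul_inv_cancel₀ hJ.ne'
      have p1 : ∑ q : J × W, ‖(k : ℂ) • T.ι ((S.α s (u q.1) - S.α t (u q.1))
          * (S.α s (c q.2) * z))‖ ^ 2 ≤ (η * ‖z‖) ^ 2 := by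
        rw [Fintype.sum_prod_type]
        have e1 : ∀ j, ∑ w, ‖(k : ℂ) • T.ι ((S.α s (u j) - S.α t (u j)) * (S.α s (c w) * z))‖ ^ 2
            ≤ m⁻¹ * (η * ‖z‖) ^ 2 := by
          intro j
          set d := S.α s (u j) - S.α t (u j) with hd
          have e2 : ∀ w, ‖(k : ℂ) • T.ι (d * (S.α s (c w) * z))‖ ^ 2
              ≤ m⁻¹ * (‖z‖ ^ 2 * ‖T.ι (d * S.α s (c w))‖ ^ 2) := by
            intro w
            rw [norm_smul, mul_pow, hk2, ← mul_assoc d]
            refine mul_le_mul_of_nonneg_left ?_ (by positivity)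
            have e3 := T.mul_le' (d * S.α s (c w)) z
            have e4 := pow_le_pow_left₀ (norm_nonneg _) e3 2
            rw [mul_pow] at e4
            linarith
          refine (Finset.sum_le_sum fun w _ => e2 w).trans ?_
          rw [← Finset.mul_sum, ← Finset.mul_sum]
          refine mul_le_mul_of_nonneg_left ?_ (by positivity)
          have e5 : ∑ w, ‖T.ι (d * S.α s (c w))‖ ^ 2 = ‖T.ι d‖ ^ 2 := by
            have e6 : ∀ w, ‖T.ι (d * S.α s (c w))‖ ^ 2
                = (T.τ (d * S.α s (c w * star (c w)) * star d)).re := by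
              intro w
              rw [← T.norm_star, T.norm_sq, star_star, star_mul, map_mul, map_star]
              congr 2
              noncomm_ring
            rw [Finset.sum_congr rfl fun w _ => e6 w, ← Complex.re_sum, ← T.τ_sum',
              ← Finset.sum_mul, ← Finset.mul_sum, ← map_sum, hc.sum_mul_star, map_one, mul_one,
              ← T.norm_star, T.norm_sq, star_star]
          rw [e5, mul_pow, mul_comm]
          exact mul_le_mul_of_nonneg_right (pow_le_pow_left₀ (norm_nonneg _) (h j) 2)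
            (sq_nonneg _)
        refine (Finset.sum_le_sum fun j _ => e1 j).trans ?_
        rw [Finset.sum_const, Finset.card_univ, nsmul_eq_mul, ← mul_assoc, hmm, one_mul]
      have p2 : ∑ q : J × W, ‖(k : ℂ) • T.ι (S.α t (u q.1)
          * ((S.α s (c q.2) - S.α t (c q.2)) * z))‖ ^ 2 ≤ (n * η * ‖z‖) ^ 2 := by
        rw [Fintype.sum_prod_type]
        have e1 : ∀ j, ∑ w, ‖(k : ℂ) • T.ι (S.α t (u j)
            * ((S.α s (c w) - S.α t (c w)) * z))‖ ^ 2 ≤ m⁻¹ * (n * η * ‖z‖) ^ 2 := by
          intro j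
          have e2 : ∀ w, ‖(k : ℂ) • T.ι (S.α t (u j) * ((S.α s (c w) - S.α t (c w)) * z))‖ ^ 2
              = m⁻¹ * ‖T.ι ((S.α s (c w) - S.α t (c w)) * z)‖ ^ 2 := by
            intro w
            rw [norm_smul, mul_pow, hk2, T.norm_unitary_mul _ (by
              rw [← map_star, ← map_mul, h1, map_one])]
          rw [Finset.sum_congr rfl fun w _ => e2 w, ← Finset.mul_sum]
          exact mul_le_mul_of_nonneg_left (hc.osc s t η hη h z) (by positivity)
        refine (Finset.sum_le_sum fun j _ => e1 j).trans ?_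
        rw [Finset.sum_const, Finset.card_univ, nsmul_eq_mul, ← mul_assoc, hmm, one_mul]
      have p3 := rel_sum_norm_sq_add Finset.univ K _ _ (η * ‖z‖) (n * η * ‖z‖) (by positivity)
        (by positivity) p1 p2
      simp only [hdec]
      refine p3.trans (le_of_eq ?_)
      push_cast
      ring

end words

end Pool.Agent.AbCoc
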