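import Pool.Agent.Lib_MP_418a80_nm.Comb1
import Pool.Agent.Lib_MP_418a80_nm.Budget2
import Pool.Agent.Lib_MP_418a80_nm.Walk

/-!
# Diagonal entries of positive matrices, the displacement family of a kernel
-/

set_option autoImplicit false
set_option linter.unusedVariables false
set_option linter.unusedSectionVars false

open Topology Filter MeasureTheory
open scoped Pointwise

namespace Pool.Agent.AbCoc

universe u v w

section free
variable {B : Type u} [CStarAlgebra B] {K : Type v} [NormedAddCommGroup K]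
  [InnerProductSpace ℂ K] (T : TrAlg B K)

/-- positive elements, without an order instance -/
def Psd (f : B) : Prop := ∃ z, f = star z * z

theorem psd_iff [PartialOrder B] [StarOrderedRing B] {f : B} : Psd f ↔ 0 ≤ f :=
  CStarAlgebra.nonneg_iff_eq_star_mul_self.symm

theorem psd_wlk_iter {E : Type*} [Fintype E] (w : E → B) {f : B} (hf : Psd f) (k : ℕ) :
    Psd ((wlk w)^[k] f) := by
  letI : PartialOrder B := CStarAlgebra.spectralOrder B
  letI : StarOrderedRing B := CStarAlgebra.spectralOrderedRing B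
  exact psd_iff.2 (wlk_iter_nonneg w (psd_iff.1 hf) k)

theorem psd_es_star {f : B} (hf : Psd f) {s : ℝ} (hs : 0 < s) : star (es f s) = es f s := by
  letI : PartialOrder B := CStarAlgebra.spectralOrder B
  letI : StarOrderedRing B := CStarAlgebra.spectralOrderedRing B
  exact es_star (psd_iff.1 hf) hs

theorem psd_sum_lev {f : B} (hf : Psd f) (m L : ℕ) : Psd (f -
    ∑ i ∈ Finset.range L, (lev m (i + 1) : ℂ) • (es f (lev m i) * es f (lev m i))) := by
  letI : PartialOrder B := CStarAlgebra.spectralOrder B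
  letI : StarOrderedRing B := CStarAlgebra.spectralOrderedRing B
  exact psd_iff.2 (sub_nonneg.2 (sum_lev_sq_le (psd_iff.1 hf) m L))

theorem TrAlg.psd_Nes_le_proj {f p : B} (hf : Psd f) (hp : star p = p) (hpp : p * p = p)
    (hpf : p * f = f) {s : ℝ} (hs : 0 < s) : T.Nes f s ≤ (T.τ p).re := by
  letI : PartialOrder B := CStarAlgebra.spectralOrder B
  letI : StarOrderedRing B := CStarAlgebra.spectralOrderedRing B
  exact T.Nes_le_proj (psd_iff.1 hf) hp hpp hpf hs

theorem TrAlg.psd_budget {J : Type*} [Fintype J] [Nonempty J] (w : Bool × J → B)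
    (hw1 : ∀ e, star (w e) * w e = 1) (hw2 : ∀ e, w e * star (w e) = 1)
    (hw0 : ∀ j, w (false, j) = 1) {β : Type*} [Fintype β] [Nonempty β] (f : β → B)
    (hf : ∀ b, Psd (f b)) {a t : ℝ} (ha : ∀ b k s, 0 < s → T.Nes ((wlk w)^[k] (f b)) s ≤ a)
    (ht : ∀ b, (T.τ (f b)).re ≤ t) (m P : ℕ) (hP : a * lev m P ≤ t) {n : ℕ} (hn : 0 < n) (L : ℕ) :
    ∃ k < n, ∀ b, ∑ i ∈ Finset.range L, lev m (i + 1) *
      ∑ j, ‖T.ι (w (true, j) * es ((wlk w)^[k] (f b)) (lev m i)
        - es ((wlk w)^[k] (f b)) (lev m i) * w (true, j))‖ ^ 2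
      ≤ 2 * Fintype.card β * Fintype.card J * (P + 2) * t / n := by
  letI : PartialOrder B := CStarAlgebra.spectralOrder B
  letI : StarOrderedRing B := CStarAlgebra.spectralOrderedRing B
  exact T.budget w hw1 hw2 hw0 f (fun b => psd_iff.1 (hf b)) ha ht m P hP hn L

theorem TrAlg.psd_comm_of_es {f : B} (hf : Psd f) (y h : B) (m L : ℕ) {κ : ℝ} (hκ : 0 < κ) :
    ‖T.τ (y * (h * f - f * h))‖
      ≤ 3 / 2 * ‖y‖ * (κ * (T.τ f).re + κ⁻¹ * ∑ i ∈ Finset.range (L + 1), lev m (i + 1) *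
          ‖T.ι (h * es f (lev m i) - es f (lev m i) * h)‖ ^ 2)
        + 2 * ‖y‖ * ‖h‖ * (‖f‖ * (T.τ f).re / 2 ^ m + lev m L) := by
  letI : PartialOrder B := CStarAlgebra.spectralOrder B
  letI : StarOrderedRing B := CStarAlgebra.spectralOrderedRing B
  exact T.comm_of_es (psd_iff.1 hf) y h m L hκ

theorem TrAlg.psd_sum_lev_norm_sq {f : B} (hf : Psd f) (m L : ℕ) :
    ∑ i ∈ Finset.range L, lev m (i + 1) * ‖T.ι (es f (lev m i))‖ ^ 2 ≤ (T.τ f).re := by
  letI : PartialOrder B := CStarAlgebra.spectralOrder B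
  letI : StarOrderedRing B := CStarAlgebra.spectralOrderedRing B
  exact T.sum_lev_norm_sq (psd_iff.1 hf) m L

end free

section mat
variable {A : Type u} [CStarAlgebra A] [PartialOrder A] [StarOrderedRing A]
  {X : Type} [Fintype X] [DecidableEq X]

theorem comb_sum_apply {J : Type*} (t : Finset J) (f : J → Mt X A) (a b : X) :
    (∑ j ∈ t, f j) a b = ∑ j ∈ t, f j a b := by
  classical
  induction t using Finset.induction_on with
  | empty => rfl
  | insert j t hj ih =>
    rw [Finset.sum_insert hj, Finset.sum_insert hj, ← ih]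
    rfl

theorem mt_star_mul_diag (z : Mt X A) (x : X) :
    (star z * z) x x = ∑ k, star (z k x) * z k x := by
  rw [CStarMatrix.mul_apply]
  rfl

theorem mt_diag_nonneg {M : Mt X A} (hM : Psd M) (x : X) : 0 ≤ M x x := by
  obtain ⟨z, rfl⟩ := hM
  rw [mt_star_mul_diag]
  exact Finset.sum_nonneg fun k _ => star_mul_self_nonneg _

theorem mt_diag_mono {M N : Mt X A} (h : Psd (N - M)) (x : X) : M x x ≤ N x x := by
  have h1 := mt_diag_nonneg h x
  change 0 ≤ N x x - M x x at h1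
  exact sub_nonneg.1 h1

theorem mt_norm_le {M : Mt X A} (hM : Psd M) : ‖M‖ ≤ ∑ x, ‖M x x‖ := by
  obtain ⟨z, rfl⟩ := hM
  have h1 : ∑ x, dgm X (Pi.single x (1 : A)) = 1 := by
    rw [← map_sum]
    have h2 : ∑ x : X, (Pi.single x (1 : A) : X → A) = 1 := by
      funext y
      rw [Finset.sum_apply, Finset.sum_eq_single y]
      · simp
      · intro x _ hx
        exact Pi.single_eq_of_ne (Ne.symm hx) _
      · intro h; exact absurd (Finset.mem_univ y) h
    rw [h2, map_one]
  have hE : ∀ x : X, star (dgm X (Pi.single x (1 : A))) = dgm X (Pi.single x (1 : A)) := by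
    intro x
    rw [← map_star, ← Pi.single_star, star_one]
  have hEE : ∀ x : X, dgm X (Pi.single x (1 : A)) * dgm X (Pi.single x (1 : A))
      = dgm X (Pi.single x (1 : A)) := by
    intro x
    rw [← map_mul, ← Pi.single_mul, mul_one]
  have h2 : ‖star z * z‖ = ‖z * star z‖ := by
    rw [CStarRing.norm_star_mul_self, CStarRing.norm_self_mul_star]
  have h3 : z * star z = ∑ x, z * dgm X (Pi.single x (1 : A)) * star z := by
    rw [← Finset.sum_mul, ← Finset.mul_sum, h1, mul_one]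
  rw [h2, h3]
  refine (norm_sum_le _ _).trans (Finset.sum_le_sum fun x _ => ?_)
  have h4 : z * dgm X (Pi.single x (1 : A)) * star z
      = (z * dgm X (Pi.single x (1 : A))) * star (z * dgm X (Pi.single x (1 : A))) := by
    rw [star_mul, hE]
    calc _ = z * (dgm X (Pi.single x (1 : A)) * dgm X (Pi.single x (1 : A))) * star z := by
          rw [hEE]
      _ = _ := by noncomm_ring
  have h5 : star (z * dgm X (Pi.single x (1 : A))) * (z * dgm X (Pi.single x (1 : A)))
      = dgm X (Pi.single x ((star z * z) x x)) := by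
    ext i j
    rw [star_mul, hE]
    have e1 : dgm X (Pi.single x (1 : A)) * star z * (z * dgm X (Pi.single x (1 : A)))
        = dgm X (Pi.single x (1 : A)) * (star z * z) * dgm X (Pi.single x (1 : A)) := by
      noncomm_ring
    rw [e1, mul_dgm_apply, dgm_mul_apply, dgm_apply]
    by_cases hi : i = x
    · subst hi
      by_cases hj : i = j
      · subst hj
        rw [if_pos rfl, Pi.single_eq_same, Pi.single_eq_same, one_mul, mul_one]
      · rw [if_neg hj, Pi.single_eq_of_ne (Ne.symm hj), mul_zero]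
    · rw [Pi.single_eq_of_ne hi, zero_mul, zero_mul, Pi.single_eq_of_ne hi, ite_self]
  rw [h4, CStarRing.norm_self_mul_star, ← CStarRing.norm_star_mul_self, h5]
  refine norm_dgm_le _ (norm_nonneg _) fun i => ?_
  by_cases hi : i = x
  · subst hi; rw [Pi.single_eq_same]
  · rw [Pi.single_eq_of_ne hi, norm_zero]; exact norm_nonneg _

theorem mt_row_zero {M : Mt X A} (hM : Psd M) {x : X} (hx : M x x = 0) (y : X) : M x y = 0 := by
  obtain ⟨z, rfl⟩ := hM
  rw [mt_star_mul_diag] at hx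
  have h1 : ∀ k, star (z k x) * z k x = 0 := by
    intro k
    exact (Finset.sum_eq_zero_iff_of_nonneg fun k _ => star_mul_self_nonneg (z k x)).1 hx k
      (Finset.mem_univ k)
  have h2 : ∀ k, z k x = 0 := by
    intro k
    have h3 := congrArg norm (h1 k)
    rw [CStarRing.norm_star_mul_self, norm_zero] at h3
    exact norm_eq_zero.1 (mul_self_eq_zero.1 h3)
  rw [CStarMatrix.mul_apply]
  refine Finset.sum_eq_zero fun k _ => ?_
  change star (z k x) * z k y = 0
  rw [h2, star_zero, zero_mul]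

end mat

section walk
variable {A : Type u} [CStarAlgebra A] [PartialOrder A] [StarOrderedRing A]
  {K : Type v} [NormedAddCommGroup K] [InnerProductSpace ℂ K]
variable {G : Type w} [Group G] [TopologicalSpace G] {T : TrAlg A K} (S : TrAct G T)
  {X : Type} [Fintype X] [DecidableEq X] (s : X → G)

theorem TrAct.wk_eq_wlk {J : Type} [Fintype J] (u : J → A) (f : Mt X A) :
    S.wk s u f = wlk (fun j => S.pid s (u j)) f := rfl

theorem TrAct.wk_iter_eq {J : Type} [Fintype J] (u : J → A) (k : ℕ) (f : Mt X A) :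
    (S.wk s u)^[k] f = (wlk fun j => S.pid s (u j))^[k] f := rfl

theorem TrAct.wk_diag_le {J : Type} [Fintype J] [Nonempty J] (u : J → A)
    (hu : ∀ j, u j * star (u j) = 1) {f : Mt X A} {x : X} {c : ℝ} (h : f x x ≤ (c : ℂ) • (1 : A)) :
    S.wk s u f x x ≤ (c : ℂ) • (1 : A) := by
  have hc : (Fintype.card J : ℂ) ≠ 0 := Nat.cast_ne_zero.2 Fintype.card_ne_zero
  have h1 : S.wk s u f x x = ((Fintype.card J : ℂ))⁻¹ •
      ∑ j, S.α (s x) (u j) * f x x * star (S.α (s x) (u j)) := by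
    unfold TrAct.wk
    rw [CStarMatrix.smul_apply, comb_sum_apply]
    congr 1
    refine Finset.sum_congr rfl fun j _ => ?_
    rw [← map_star, S.mul_pid_apply, S.pid_mul_apply, map_star]
  have h2 : ∑ j, S.α (s x) (u j) * f x x * star (S.α (s x) (u j))
      ≤ ∑ _j : J, (c : ℂ) • (1 : A) := by
    refine Finset.sum_le_sum fun j _ => ?_
    refine (star_right_conjugate_le_conjugate h _).trans (le_of_eq ?_)
    rw [mul_smul_comm, mul_one, smul_mul_assoc, ← map_star, ← map_mul, hu, map_one]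
  rw [h1]
  have h3 : ((Fintype.card J : ℂ))⁻¹ = (((Fintype.card J : ℝ)⁻¹ : ℝ) : ℂ) := by push_cast; rfl
  have h4 : (c : ℂ) • (1 : A) = ((Fintype.card J : ℂ))⁻¹ • ∑ _j : J, (c : ℂ) • (1 : A) := by
    rw [Finset.sum_const, Finset.card_univ, ← Nat.cast_smul_eq_nsmul ℂ, smul_smul,
      inv_mul_cancel₀ hc, one_smul]
  rw [h4, h3, ← sub_nonneg, ← smul_sub]
  exact ofReal_smul_nonneg (by positivity) (sub_nonneg.2 h2)

theorem TrAct.wk_iter_diag_le {J : Type} [Fintype J] [Nonempty J] (u : J → A)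
    (hu : ∀ j, u j * star (u j) = 1) {f : Mt X A} {x : X} {c : ℝ} (h : f x x ≤ (c : ℂ) • (1 : A))
    (k : ℕ) : (S.wk s u)^[k] f x x ≤ (c : ℂ) • (1 : A) := by
  induction k with
  | zero => exact h
  | succ k ih =>
    rw [Function.iterate_succ_apply']
    exact S.wk_diag_le s u hu ih

end walk

section fam
variable {A : Type u} [CStarAlgebra A] [PartialOrder A] [StarOrderedRing A]
  {K : Type v} [NormedAddCommGroup K] [InnerProductSpace ℂ K]
variable {G : Type w} [Group G] [TopologicalSpace G] {T : TrAlg A K} (S : TrAct G T)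
  {X : Type} [Fintype X] [DecidableEq X] (s : X → G)

/-- the displacement family of a positive kernel -/
noncomputable def TrAct.cfam (E : Set G) (f : Mt X A) (m L : ℕ) :
    Fin L × X × X → A := by
  classical
  exact fun q => if (s q.2.1)⁻¹ * s q.2.2 ∈ E then
    ((Real.sqrt (lev m (q.1 + 1)) : ℝ) : ℂ) • S.α (s q.2.1)⁻¹ (es f (lev m q.1) q.2.1 q.2.2) else 0

theorem TrAct.cfam_pos {E : Set G} (f : Mt X A) (m L : ℕ) (q : Fin L × X × X)
    (h : (s q.2.1)⁻¹ * s q.2.2 ∈ E) : S.cfam s E f m L q =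
    ((Real.sqrt (lev m (q.1 + 1)) : ℝ) : ℂ) • S.α (s q.2.1)⁻¹ (es f (lev m q.1) q.2.1 q.2.2) := by
  unfold TrAct.cfam
  rw [if_pos h]

theorem TrAct.cfam_neg {E : Set G} (f : Mt X A) (m L : ℕ) (q : Fin L × X × X)
    (h : (s q.2.1)⁻¹ * s q.2.2 ∉ E) : S.cfam s E f m L q = 0 := by
  unfold TrAct.cfam
  rw [if_neg h]

theorem sqrt_lev_mul (m i : ℕ) : ((Real.sqrt (lev m i) : ℝ) : ℂ) * ((Real.sqrt (lev m i) : ℝ) : ℂ)
    = (lev m i : ℂ) := by
  rw [← Complex.ofReal_mul, Real.mul_self_sqrt (lev_pos m i).le]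

theorem mt_es_star_apply {f : Mt X A} (hf : Psd f) (m i : ℕ) (x y : X) :
    star (es f (lev m i) x y) = es f (lev m i) y x := by
  have h := psd_es_star hf (lev_pos m i)
  have h2 := congrFun (congrFun h y) x
  exact h2

/-- the diagonal entries of the sum of the squares -/
theorem mt_sum_sq_diag {f : Mt X A} (hf : Psd f) (m L : ℕ) (x : X) :
    ∑ i ∈ Finset.range L, (lev m (i + 1) : ℂ) • ∑ y, es f (lev m i) x y * star (es f (lev m i) x y)
      ≤ f x x := by
  refine le_trans (le_of_eq ?_) (mt_diag_mono (psd_sum_lev hf m L) x)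
  rw [comb_sum_apply]
  refine Finset.sum_congr rfl fun i _ => ?_
  rw [CStarMatrix.smul_apply, CStarMatrix.mul_apply]
  congr 1
  refine Finset.sum_congr rfl fun y _ => ?_
  rw [mt_es_star_apply hf]

theorem TrAct.cfam_row_le {E : Set G} {f : Mt X A} (hf : Psd f) (m L : ℕ) {F : X → ℝ}
    (hF : ∑ x, F x ≤ 1) (hfF : ∀ x, f x x ≤ (F x : ℂ) • (1 : A)) :
    ∑ q, S.cfam s E f m L q * star (S.cfam s E f m L q) ≤ 1 := by
  have h1 : ∀ q : Fin L × X × X, S.cfam s E f m L q * star (S.cfam s E f m L q)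
      ≤ (lev m (q.1 + 1) : ℂ) • S.α (s q.2.1)⁻¹ (es f (lev m q.1) q.2.1 q.2.2
        * star (es f (lev m q.1) q.2.1 q.2.2)) := by
    intro q
    by_cases h : (s q.2.1)⁻¹ * s q.2.2 ∈ E
    · rw [S.cfam_pos s f m L q h, star_smul, smul_mul_smul_comm, Complex.star_def,
        Complex.conj_ofReal, sqrt_lev_mul, map_mul, map_star]
    · rw [S.cfam_neg s f m L q h, zero_mul]
      exact ofReal_smul_nonneg (lev_pos _ _).le (hyp_map_nonneg _ (mul_star_self_nonneg _))
  refine (Finset.sum_le_sum fun q _ => h1 q).trans ?_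
  have h2 : ∑ q : Fin L × X × X, (lev m (q.1 + 1) : ℂ) • S.α (s q.2.1)⁻¹
        (es f (lev m q.1) q.2.1 q.2.2 * star (es f (lev m q.1) q.2.1 q.2.2))
      = ∑ x, S.α (s x)⁻¹ (∑ i ∈ Finset.range L, (lev m (i + 1) : ℂ) •
        ∑ y, es f (lev m i) x y * star (es f (lev m i) x y)) := by
    rw [Fintype.sum_prod_type]
    simp only [Fintype.sum_prod_type]
    rw [Finset.sum_comm]
    refine Finset.sum_congr rfl fun x _ => ?_
    rw [Finset.sum_range, map_sum]
    refine Finset.sum_congr rfl fun i _ => ?_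
    rw [map_smul, map_sum, Finset.smul_sum]
  rw [h2]
  have h3 : ∀ x, S.α (s x)⁻¹ (∑ i ∈ Finset.range L, (lev m (i + 1) : ℂ) •
        ∑ y, es f (lev m i) x y * star (es f (lev m i) x y)) ≤ (F x : ℂ) • (1 : A) := by
    intro x
    have h4 := hyp_map_nonneg (S.α (s x)⁻¹)
      (sub_nonneg.2 ((mt_sum_sq_diag hf m L x).trans (hfF x)))
    rw [map_sub, map_smul, map_one] at h4
    exact sub_nonneg.1 h4
  refine (Finset.sum_le_sum fun x _ => h3 x).trans ?_
  rw [← Finset.sum_smul, ← Complex.ofReal_sum, ← sub_nonneg]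
  have h5 : (1 : A) - ((∑ x, F x : ℝ) : ℂ) • (1 : A) = ((1 - ∑ x, F x : ℝ) : ℂ) • (1 : A) := by
    rw [Complex.ofReal_sub, sub_smul, Complex.ofReal_one, one_smul]
  rw [h5]
  exact ofReal_smul_nonneg (sub_nonneg.2 hF) zero_le_one

theorem TrAct.cfam_col_le {E : Set G} {f : Mt X A} (hf : Psd f) (m L : ℕ) {F : X → ℝ}
    (hF : ∑ x, F x ≤ 1) (hfF : ∀ x, f x x ≤ (F x : ℂ) • (1 : A)) :
    ∑ q : Fin L × X × X, S.α ((s q.2.1)⁻¹ * s q.2.2)⁻¹
      (star (S.cfam s E f m L q) * S.cfam s E f m L q) ≤ 1 := by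
  have h1 : ∀ q : Fin L × X × X, S.α ((s q.2.1)⁻¹ * s q.2.2)⁻¹
      (star (S.cfam s E f m L q) * S.cfam s E f m L q)
      ≤ (lev m (q.1 + 1) : ℂ) • S.α (s q.2.2)⁻¹ (es f (lev m q.1) q.2.2 q.2.1
        * star (es f (lev m q.1) q.2.2 q.2.1)) := by
    intro q
    by_cases h : (s q.2.1)⁻¹ * s q.2.2 ∈ E
    · have e1 : star (S.cfam s E f m L q) * S.cfam s E f m L q
          = (lev m (q.1 + 1) : ℂ) • S.α (s q.2.1)⁻¹ (es f (lev m q.1) q.2.2 q.2.1
            * star (es f (lev m q.1) q.2.2 q.2.1)) := by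
        rw [S.cfam_pos s f m L q h, star_smul, smul_mul_smul_comm, Complex.star_def,
          Complex.conj_ofReal, sqrt_lev_mul, ← map_star, ← map_mul, mt_es_star_apply hf,
          mt_es_star_apply hf]
      rw [e1, map_smul, ← S.mul]
      have e2 : ((s q.2.1)⁻¹ * s q.2.2)⁻¹ * (s q.2.1)⁻¹ = (s q.2.2)⁻¹ := by group
      rw [e2]
    · rw [S.cfam_neg s f m L q h, mul_zero, map_zero]
      exact ofReal_smul_nonneg (lev_pos _ _).le (hyp_map_nonneg _ (mul_star_self_nonneg _))
  refine (Finset.sum_le_sum fun q _ => h1 q).trans ?_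
  have h2 : ∑ q : Fin L × X × X, (lev m (q.1 + 1) : ℂ) • S.α (s q.2.2)⁻¹
        (es f (lev m q.1) q.2.2 q.2.1 * star (es f (lev m q.1) q.2.2 q.2.1))
      = ∑ x, S.α (s x)⁻¹ (∑ i ∈ Finset.range L, (lev m (i + 1) : ℂ) •
        ∑ y, es f (lev m i) x y * star (es f (lev m i) x y)) := by
    rw [Fintype.sum_prod_type]
    simp only [Fintype.sum_prod_type]
    have e3 : ∀ i : Fin L, ∑ y : X, ∑ x : X, (lev m (i + 1) : ℂ) • S.α (s x)⁻¹
        (es f (lev m i) x y * star (es f (lev m i) x y))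
        = ∑ x : X, ∑ y : X, (lev m (i + 1) : ℂ) • S.α (s x)⁻¹
        (es f (lev m i) x y * star (es f (lev m i) x y)) := fun i => Finset.sum_comm
    rw [Finset.sum_congr rfl fun i _ => e3 i, Finset.sum_comm]
    refine Finset.sum_congr rfl fun x _ => ?_
    rw [Finset.sum_range, map_sum]
    refine Finset.sum_congr rfl fun i _ => ?_
    rw [map_smul, map_sum, Finset.smul_sum]
  rw [h2]
  have h3 : ∀ x, S.α (s x)⁻¹ (∑ i ∈ Finset.range L, (lev m (i + 1) : ℂ) •
        ∑ y, es f (lev m i) x y * star (es f (lev m i) x y)) ≤ (F x : ℂ) • (1 : A) := by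
    intro x
    have h4 := hyp_map_nonneg (S.α (s x)⁻¹)
      (sub_nonneg.2 ((mt_sum_sq_diag hf m L x).trans (hfF x)))
    rw [map_sub, map_smul, map_one] at h4
    exact sub_nonneg.1 h4
  refine (Finset.sum_le_sum fun x _ => h3 x).trans ?_
  rw [← Finset.sum_smul, ← Complex.ofReal_sum, ← sub_nonneg]
  have h5 : (1 : A) - ((∑ x, F x : ℝ) : ℂ) • (1 : A) = ((1 - ∑ x, F x : ℝ) : ℂ) • (1 : A) := by
    rw [Complex.ofReal_sub, sub_smul, Complex.ofReal_one, one_smul]
  rw [h5]
  exact ofReal_smul_nonneg (sub_nonneg.2 hF) zero_le_one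

theorem TrAct.cfam_norm_sq {E : Set G} (f : Mt X A) (m L : ℕ) (q : Fin L × X × X)
    (h : (s q.2.1)⁻¹ * s q.2.2 ∈ E) : ‖T.ι (S.cfam s E f m L q)‖ ^ 2
      = lev m (q.1 + 1) * ‖T.ι (es f (lev m q.1) q.2.1 q.2.2)‖ ^ 2 := by
  rw [S.cfam_pos s f m L q h, map_smul, norm_smul, S.norm_map, mul_pow, Complex.norm_real,
    Real.norm_of_nonneg (Real.sqrt_nonneg _), Real.sq_sqrt (lev_pos _ _).le]

/-- the commutators of the displacement family -/
theorem TrAct.cfam_comm_le {E : Set G} (f : Mt X A) (m L : ℕ) (u : A) :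
    ∑ q : Fin L × X × X, ‖T.ι (u * S.cfam s E f m L q
        - S.cfam s E f m L q * S.α ((s q.2.1)⁻¹ * s q.2.2) u)‖ ^ 2
      ≤ ∑ i ∈ Finset.range L, lev m (i + 1) * T.hs (S.pid s u * es f (lev m i)
        - es f (lev m i) * S.pid s u) := by
  have h1 : ∀ q : Fin L × X × X, ‖T.ι (u * S.cfam s E f m L q
        - S.cfam s E f m L q * S.α ((s q.2.1)⁻¹ * s q.2.2) u)‖ ^ 2
      ≤ lev m (q.1 + 1) * ‖T.ι ((S.pid s u * es f (lev m q.1)
        - es f (lev m q.1) * S.pid s u) q.2.1 q.2.2)‖ ^ 2 := by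
    intro q
    by_cases h : (s q.2.1)⁻¹ * s q.2.2 ∈ E
    · have e1 : u * S.cfam s E f m L q
          - S.cfam s E f m L q * S.α ((s q.2.1)⁻¹ * s q.2.2) u
          = ((Real.sqrt (lev m (q.1 + 1)) : ℝ) : ℂ) • S.α (s q.2.1)⁻¹
            ((S.pid s u * es f (lev m q.1) - es f (lev m q.1) * S.pid s u) q.2.1 q.2.2) := by
        have e2 : (S.pid s u * es f (lev m q.1) - es f (lev m q.1) * S.pid s u) q.2.1 q.2.2
            = S.α (s q.2.1) u * es f (lev m q.1) q.2.1 q.2.2
              - es f (lev m q.1) q.2.1 q.2.2 * S.α (s q.2.2) u := by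
          rw [← S.pid_mul_apply, ← S.mul_pid_apply]
          rfl
        rw [e2, S.cfam_pos s f m L q h, mul_smul_comm, smul_mul_assoc, ← smul_sub, map_sub,
          map_mul, map_mul, S.inv_apply, S.mul]
      rw [e1, map_smul, norm_smul, S.norm_map, mul_pow, Complex.norm_real,
        Real.norm_of_nonneg (Real.sqrt_nonneg _), Real.sq_sqrt (lev_pos _ _).le]
    · rw [S.cfam_neg s f m L q h, mul_zero, zero_mul, sub_zero, map_zero, norm_zero]
      have h3 := (lev_pos m (q.1 + 1)).le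
      have h4 := mul_nonneg h3 (sq_nonneg ‖T.ι ((S.pid s u * es f (lev m q.1)
        - es f (lev m q.1) * S.pid s u) q.2.1 q.2.2)‖)
      rw [zero_pow two_ne_zero]
      exact h4
  refine (Finset.sum_le_sum fun q _ => h1 q).trans (le_of_eq ?_)
  rw [Fintype.sum_prod_type, Finset.sum_range]
  refine Finset.sum_congr rfl fun i _ => ?_
  rw [Fintype.sum_prod_type]
  unfold TrAlg.hs
  rw [Finset.mul_sum]
  refine Finset.sum_congr rfl fun x _ => ?_
  rw [Finset.mul_sum]

end fam

end Pool.Agent.AbCoc
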