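import Pool.Agent.Lib_MP_418a80_nm.Comb2

/-!
# COMB: the walk almost commutes with right `N`-invariant functions of the sample points
-/

set_option autoImplicit false
set_option linter.unusedVariables false
set_option linter.unusedSectionVars false

open Topology Filter MeasureTheory
open scoped Pointwise

namespace Pool.Agent.AbCoc

universe u v w

section core
variable {A : Type u} [CStarAlgebra A] [PartialOrder A] [StarOrderedRing A]
  {K : Type v} [NormedAddCommGroup K] [InnerProductSpace ℂ K]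
variable {G : Type w} [Group G] [TopologicalSpace G] {T : TrAlg A K} (S : TrAct G T)
  {X : Type} [Fintype X] [DecidableEq X] (s : X → G)

theorem mt_entry_zero {f : Mt X A} (hf : Psd f) {F : X → ℝ}
    (hfF : ∀ x, f x x ≤ (F x : ℂ) • (1 : A)) {x : X} (hx : F x = 0) (y : X) : f x y = 0 := by
  refine mt_row_zero hf ?_ y
  refine le_antisymm ?_ (mt_diag_nonneg hf x)
  have h := hfF x
  rwa [hx, Complex.ofReal_zero, zero_smul] at h

theorem mt_es_zero {f : Mt X A} (hf : Psd f) {F : X → ℝ}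
    (hfF : ∀ x, f x x ≤ (F x : ℂ) • (1 : A)) (m i : ℕ) {x : X} (hx : F x = 0) (y : X) :
    es f (lev m i) x y = 0 := by
  have h : es f (lev m i) x y = ∑ k, f x k * rsv f (lev m i) k y := by
    unfold es
    rw [CStarMatrix.mul_apply]
  rw [h]
  exact Finset.sum_eq_zero fun k _ => by rw [mt_entry_zero hf hfF hx, zero_mul]

theorem mt_es_zero' {f : Mt X A} (hf : Psd f) {F : X → ℝ}
    (hfF : ∀ x, f x x ≤ (F x : ℂ) • (1 : A)) (m i : ℕ) {y : X} (hy : F y = 0) (x : X) :
    es f (lev m i) x y = 0 := by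
  rw [← mt_es_star_apply hf, mt_es_zero hf hfF m i hy, star_zero]

theorem dgm_comm_apply (a : X → ℝ) (M : Mt X A) (x y : X) :
    (dgm X (fun x => (a x : ℂ) • (1 : A)) * M - M * dgm X (fun x => (a x : ℂ) • (1 : A))) x y
      = ((a x - a y : ℝ) : ℂ) • M x y := by
  have h : (dgm X (fun x => (a x : ℂ) • (1 : A)) * M
      - M * dgm X (fun x => (a x : ℂ) • (1 : A))) x y
      = (dgm X (fun x => (a x : ℂ) • (1 : A)) * M) x y
        - (M * dgm X (fun x => (a x : ℂ) • (1 : A))) x y := rfl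
  rw [h, dgm_mul_apply, mul_dgm_apply, smul_mul_assoc, one_mul, mul_smul_comm, mul_one,
    ← sub_smul, Complex.ofReal_sub]

theorem TrAlg.hs_comm_dgm (a : X → ℝ) (M : Mt X A) :
    T.hs (dgm X (fun x => (a x : ℂ) • (1 : A)) * M - M * dgm X (fun x => (a x : ℂ) • (1 : A)))
      = ∑ x, ∑ y, (a x - a y) ^ 2 * ‖T.ι (M x y)‖ ^ 2 := by
  unfold TrAlg.hs
  refine Finset.sum_congr rfl fun x _ => Finset.sum_congr rfl fun y _ => ?_
  rw [dgm_comm_apply, map_smul, norm_smul, mul_pow, Complex.norm_real, Real.norm_eq_abs, sq_abs]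

variable [Nonempty X]

theorem TrAlg.TrM_re_le {f : Mt X A} {F : X → ℝ} (hF : ∑ x, F x ≤ 1)
    (hfF : ∀ x, f x x ≤ (F x : ℂ) • (1 : A)) : (T.TrM f).re ≤ 1 := by
  unfold TrAlg.TrM
  rw [Complex.re_sum]
  refine le_trans (Finset.sum_le_sum fun x _ => ?_) hF
  have h := T.re_τ_nonneg _ (sub_nonneg.2 (hfF x))
  rw [T.τ_sub, T.τ_smul, T.τ_one, Complex.sub_re, Complex.re_ofReal_mul, Complex.one_re,
    mul_one] at h
  linarith

theorem mt_norm_le_one {f : Mt X A} (hf : Psd f) {F : X → ℝ} (hF : ∑ x, F x ≤ 1)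
    (hF0 : ∀ x, 0 ≤ F x) (hfF : ∀ x, f x x ≤ (F x : ℂ) • (1 : A)) : ‖f‖ ≤ 1 := by
  refine (mt_norm_le hf).trans (le_trans (Finset.sum_le_sum fun x _ => ?_) hF)
  refine (CStarAlgebra.norm_le_iff_le_algebraMap (f x x) (hF0 x) (mt_diag_nonneg hf x)).2 ?_
  rw [Algebra.algebraMap_eq_smul_one, ← Complex.coe_smul]
  exact hfF x

theorem TrAct.comb_core {E : Set G} {f : Mt X A} (hf : Psd f) {F : X → ℝ} (hF : ∑ x, F x ≤ 1)
    (hF0 : ∀ x, 0 ≤ F x) (hfF : ∀ x, f x x ≤ (F x : ℂ) • (1 : A)) {a : X → ℝ} {H η ε1 : ℝ}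
    (hH : 0 ≤ H) (haH : ∀ x, |a x| ≤ H) (hη : 0 ≤ η)
    (ha : ∀ x y, F x ≠ 0 → F y ≠ 0 → |a x - a y| ≤ η ∨ (s x)⁻¹ * s y ∈ E) (m L : ℕ)
    (hmass : ∑ q, ‖T.ι (S.cfam s E f m (L + 1) q)‖ ^ 2 ≤ ε1) {κ : ℝ} (hκ : 0 < κ) (y : Mt X A)
    (hy : ‖y‖ ≤ 1) :
    ‖T.TrM (y * (dgm X (fun x => (a x : ℂ) • (1 : A)) * f
      - f * dgm X (fun x => (a x : ℂ) • (1 : A))))‖
      ≤ 3 / 2 * (κ + κ⁻¹ * (η ^ 2 + (2 * H) ^ 2 * ε1))
        + 2 * H * (1 / 2 ^ m + Fintype.card X * lev m L) := by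
  have hX := TrAlg.card_pos' (I := X)
  have hTr := TrAlg.TrM_re_le (T := T) hF hfF
  have hTr' : (Fintype.card X : ℝ) * ((T.ampT X).τ f).re ≤ 1 := by
    rw [T.TrM_eq, ← Complex.ofReal_natCast, Complex.re_ofReal_mul] at hTr
    exact hTr
  have hTr0 : 0 ≤ (Fintype.card X : ℝ) * ((T.ampT X).τ f).re := by
    obtain ⟨z, hz⟩ := hf
    rw [hz, ← (T.ampT X).norm_sq]
    positivity
  obtain ⟨d, hd⟩ : ∃ d, d = dgm X (fun x => (a x : ℂ) • (1 : A)) := ⟨_, rfl⟩
  have hdn : ‖d‖ ≤ H := by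
    rw [hd]
    refine norm_dgm_le _ hH fun x => ?_
    rw [norm_smul, Complex.norm_real, Real.norm_eq_abs]
    have hone : ‖(1 : A)‖ ≤ 1 := by
      rcases subsingleton_or_nontrivial A with h | h
      · rw [Subsingleton.elim (1 : A) 0, norm_zero]; norm_num
      · rw [CStarRing.norm_one]
    calc |a x| * ‖(1 : A)‖ ≤ H * 1 := mul_le_mul (haH x) hone (norm_nonneg _) hH
      _ = H := mul_one H
  have hfn := mt_norm_le_one hf hF hF0 hfF
  -- the commutators with the levels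
  have h1 : ∑ i ∈ Finset.range (L + 1), lev m (i + 1) *
      T.hs (d * es f (lev m i) - es f (lev m i) * d) ≤ η ^ 2 + (2 * H) ^ 2 * ε1 := by
    have h2 : ∀ (i : Fin (L + 1)) (x y : X), lev m (i + 1) *
        ((a x - a y) ^ 2 * ‖T.ι (es f (lev m i) x y)‖ ^ 2)
        ≤ η ^ 2 * (lev m (i + 1) * ‖T.ι (es f (lev m i) x y)‖ ^ 2)
          + (2 * H) ^ 2 * ‖T.ι (S.cfam s E f m (L + 1) (i, x, y))‖ ^ 2 := by
      intro i x y
      have hl := (lev_pos m (i + 1)).le
      by_cases hx : F x = 0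
      · rw [mt_es_zero hf hfF m i hx, map_zero, norm_zero, zero_pow two_ne_zero, mul_zero,
          mul_zero, mul_zero, zero_add]
        positivity
      by_cases hy : F y = 0
      · rw [mt_es_zero' hf hfF m i hy, map_zero, norm_zero, zero_pow two_ne_zero, mul_zero,
          mul_zero, mul_zero, zero_add]
        positivity
      have hnn : 0 ≤ lev m (i + 1) * ‖T.ι (es f (lev m i) x y)‖ ^ 2 :=
        mul_nonneg hl (sq_nonneg _)
      rcases ha x y hx hy with h3 | h3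
      · have h4 : (a x - a y) ^ 2 ≤ η ^ 2 := by
          rw [← sq_abs]
          exact pow_le_pow_left₀ (abs_nonneg _) h3 2
        have h5 := mul_le_mul_of_nonneg_right h4 hnn
        have h6 : 0 ≤ (2 * H) ^ 2 * ‖T.ι (S.cfam s E f m (L + 1) (i, x, y))‖ ^ 2 := by positivity
        calc _ = (a x - a y) ^ 2 * (lev m (i + 1) * ‖T.ι (es f (lev m i) x y)‖ ^ 2) := by ring
          _ ≤ _ := by linarith
      · have h4 : (a x - a y) ^ 2 ≤ (2 * H) ^ 2 := by
          rw [← sq_abs]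
          refine pow_le_pow_left₀ (abs_nonneg _) ?_ 2
          refine (abs_sub _ _).trans ?_
          have := haH x
          have := haH y
          linarith
        have h5 := mul_le_mul_of_nonneg_right h4 hnn
        rw [S.cfam_norm_sq s f m (L + 1) (i, x, y) h3]
        have h6 : 0 ≤ η ^ 2 * (lev m (i + 1) * ‖T.ι (es f (lev m i) x y)‖ ^ 2) := by positivity
        calc _ = (a x - a y) ^ 2 * (lev m (i + 1) * ‖T.ι (es f (lev m i) x y)‖ ^ 2) := by ring
          _ ≤ _ := by linarith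
    have h3 : ∑ i ∈ Finset.range (L + 1), lev m (i + 1) *
        T.hs (d * es f (lev m i) - es f (lev m i) * d)
        = ∑ i : Fin (L + 1), ∑ x, ∑ y, lev m (i + 1) *
          ((a x - a y) ^ 2 * ‖T.ι (es f (lev m i) x y)‖ ^ 2) := by
      rw [Finset.sum_range]
      refine Finset.sum_congr rfl fun i _ => ?_
      rw [hd, T.hs_comm_dgm, Finset.mul_sum]
      refine Finset.sum_congr rfl fun x _ => ?_
      rw [Finset.mul_sum]
    rw [h3]
    refine (Finset.sum_le_sum fun i _ => Finset.sum_le_sum fun x _ =>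
      Finset.sum_le_sum fun y _ => h2 i x y).trans ?_
    simp only [Finset.sum_add_distrib, ← Finset.mul_sum]
    have h4 : ∑ i : Fin (L + 1), ∑ x, ∑ y, lev m (i + 1) * ‖T.ι (es f (lev m i) x y)‖ ^ 2 ≤ 1 := by
      have h5 := (T.ampT X).psd_sum_lev_norm_sq hf m (L + 1)
      have h6 : ∑ i : Fin (L + 1), ∑ x, ∑ y, lev m (i + 1) * ‖T.ι (es f (lev m i) x y)‖ ^ 2
          = (Fintype.card X : ℝ) * ∑ i ∈ Finset.range (L + 1), lev m (i + 1) *
            ‖(T.ampT X).ι (es f (lev m i))‖ ^ 2 := by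
        rw [Finset.sum_range, Finset.mul_sum]
        refine Finset.sum_congr rfl fun i _ => ?_
        have h7 := T.hs_eq (es f (lev m i))
        rw [mul_left_comm, ← h7]
        unfold TrAlg.hs
        rw [Finset.mul_sum]
        refine Finset.sum_congr rfl fun x _ => ?_
        rw [Finset.mul_sum]
      rw [h6]
      exact (mul_le_mul_of_nonneg_left h5 hX.le).trans hTr'
    have h8 : ∑ i : Fin (L + 1), ∑ x, ∑ y, ‖T.ι (S.cfam s E f m (L + 1) (i, x, y))‖ ^ 2 ≤ ε1 := by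
      refine le_trans (le_of_eq ?_) hmass
      rw [Fintype.sum_prod_type]
      refine Finset.sum_congr rfl fun i _ => ?_
      rw [Fintype.sum_prod_type]
    have h4' : ∑ i : Fin (L + 1), lev m (i + 1) * ∑ x, ∑ y, ‖T.ι (es f (lev m i) x y)‖ ^ 2 ≤ 1 := by
      refine le_trans (le_of_eq ?_) h4
      refine Finset.sum_congr rfl fun i _ => ?_
      rw [Finset.mul_sum]
      refine Finset.sum_congr rfl fun x _ => ?_
      rw [Finset.mul_sum]
    have h9 := mul_le_mul_of_nonneg_left h4' (sq_nonneg η)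
    have h10 := mul_le_mul_of_nonneg_left h8 (sq_nonneg (2 * H))
    rw [mul_one] at h9
    exact add_le_add h9 h10
  have h2 := (T.ampT X).psd_comm_of_es hf y d m L hκ
  rw [← hd, T.TrM_eq, norm_mul, Complex.norm_natCast]
  obtain ⟨S1, hS1⟩ : ∃ S1 : ℝ, S1 = ∑ i ∈ Finset.range (L + 1), lev m (i + 1) *
          ‖(T.ampT X).ι (d * es f (lev m i) - es f (lev m i) * d)‖ ^ 2 := ⟨_, rfl⟩
  rw [← hS1] at h2
  have h3 : (Fintype.card X : ℝ) * S1 ≤ η ^ 2 + (2 * H) ^ 2 * ε1 := by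
    refine le_trans (le_of_eq ?_) h1
    rw [hS1, Finset.mul_sum]
    refine Finset.sum_congr rfl fun i _ => ?_
    rw [T.hs_eq, mul_left_comm]
  have hS0 : 0 ≤ S1 := by
    rw [hS1]
    exact Finset.sum_nonneg fun i _ => mul_nonneg (lev_pos _ _).le (by positivity)
  obtain ⟨t, ht⟩ : ∃ t : ℝ, t = ((T.ampT X).τ f).re := ⟨_, rfl⟩
  rw [← ht] at h2 hTr' hTr0
  have ht0 : 0 ≤ t := by
    by_contra hcon
    push Not at hcon
    nlinarith
  have hκ' : 0 < κ⁻¹ := inv_pos.2 hκ
  have h4 : 3 / 2 * ‖y‖ * (κ * t + κ⁻¹ * S1) ≤ 3 / 2 * (κ * t + κ⁻¹ * S1) := by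
    have : 0 ≤ κ * t + κ⁻¹ * S1 := by positivity
    nlinarith [norm_nonneg y]
  have h5 : 2 * ‖y‖ * ‖d‖ * (‖f‖ * t / 2 ^ m + lev m L)
      ≤ 2 * H * (t / 2 ^ m + lev m L) := by
    have e1 : ‖f‖ * t / 2 ^ m + lev m L ≤ t / 2 ^ m + lev m L := by
      have : ‖f‖ * t ≤ t := by nlinarith
      have := div_le_div_of_nonneg_right this (pow_pos (two_pos : (0 : ℝ) < 2) m).le
      linarith
    have e2 : 2 * ‖y‖ * ‖d‖ ≤ 2 * H := by nlinarith [norm_nonneg y, norm_nonneg d]
    have e3 : 0 ≤ ‖f‖ * t / 2 ^ m + lev m L := by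
      have := (lev_pos m L).le
      positivity
    exact mul_le_mul e2 e1 e3 (by positivity)
  have h6 := h2.trans (add_le_add h4 h5)
  calc (Fintype.card X : ℝ) * ‖(T.ampT X).τ (y * (d * f - f * d))‖
      ≤ Fintype.card X * (3 / 2 * (κ * t + κ⁻¹ * S1) + 2 * H * (t / 2 ^ m + lev m L)) :=
        mul_le_mul_of_nonneg_left h6 hX.le
    _ = 3 / 2 * (κ * (Fintype.card X * t) + κ⁻¹ * (Fintype.card X * S1))
        + 2 * H * ((Fintype.card X * t) / 2 ^ m + Fintype.card X * lev m L) := by ring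
    _ ≤ 3 / 2 * (κ * 1 + κ⁻¹ * (η ^ 2 + (2 * H) ^ 2 * ε1))
        + 2 * H * (1 / 2 ^ m + Fintype.card X * lev m L) := by
        gcongr
    _ = _ := by rw [mul_one]

end core

section comb
variable {A : Type u} [CStarAlgebra A] [PartialOrder A] [StarOrderedRing A] {K : Type v}
  [NormedAddCommGroup K] [InnerProductSpace ℂ K] [CompleteSpace K] {T : TrAlg A K}
variable {G : Type w} [Group G] [TopologicalSpace G] [IsTopologicalGroup G]
  [SecondCountableTopology G] [LocallyCompactSpace G] [T2Space G] [MeasurableSpace G]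
  [BorelSpace G] (S : TrAct G T) (μ : Measure G) [μ.IsHaarMeasure]

omit [CompleteSpace K] [IsTopologicalGroup G]
  [SecondCountableTopology G] [LocallyCompactSpace G] [T2Space G] [MeasurableSpace G]
  [BorelSpace G] in
theorem mt_entry_zero' {X : Type} [Fintype X] [DecidableEq X] {f : Mt X A} (hf : Psd f)
    {F : X → ℝ} (hfF : ∀ x, f x x ≤ (F x : ℂ) • (1 : A)) {y : X} (hy : F y = 0) (x : X) :
    f x y = 0 := by
  have h1 : star f = f := by
    obtain ⟨z, rfl⟩ := hf
    rw [star_mul, star_star]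
  have h2 : f x y = star (f y x) := by
    conv_lhs => rw [← h1]
    rfl
  rw [h2, mt_entry_zero hf hfF hy, star_zero]

/-- the displaced pairs of points form a compact set without twists -/
theorem TrAct.comb_set {N : Subgroup G} (hN : ∀ g, g ∉ N → ¬ S.HasTwist g) {C : Set G}
    (hC : IsCompact C) {Q : Type} [Fintype Q] (h : Q → G → ℝ) (hc : ∀ l, Continuous (h l))
    (hinv : ∀ l s, ∀ g ∈ N, h l (s * g) = h l s) {η : ℝ} (hη : 0 < η) :
    ∃ E : Set G, IsCompact E ∧ (∀ g ∈ E, ¬ S.HasTwist g) ∧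
      ∀ l, ∀ s ∈ C, ∀ t ∈ C, |h l s - h l t| ≤ η ∨ s⁻¹ * t ∈ E := by
  refine ⟨(fun p : G × G => p.1⁻¹ * p.2) '' ((C ×ˢ C) ∩ ⋃ l, {p | η ≤ |h l p.1 - h l p.2|}),
    ?_, ?_, ?_⟩
  · refine IsCompact.image ?_ (by fun_prop)
    refine (hC.prod hC).inter_right (isClosed_iUnion_of_finite fun l => ?_)
    refine isClosed_le continuous_const ?_
    have := hc l
    fun_prop
  · rintro g ⟨⟨s, t⟩, ⟨⟨hs, ht⟩, hst⟩, rfl⟩ htw
    rw [Set.mem_iUnion] at hst
    obtain ⟨l, hl⟩ := hst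
    have h1 : s⁻¹ * t ∈ N := by
      by_contra hcon
      exact hN _ hcon htw
    have h2 := hinv l s _ h1
    rw [mul_inv_cancel_left] at h2
    have h3 : η ≤ |h l s - h l t| := hl
    rw [h2, sub_self, abs_zero] at h3
    linarith
  · intro l s hs t ht
    by_cases h1 : |h l s - h l t| ≤ η
    · exact Or.inl h1
    · refine Or.inr ⟨(s, t), ⟨⟨hs, ht⟩, ?_⟩, rfl⟩
      rw [Set.mem_iUnion]
      exact ⟨l, (not_le.1 h1).le⟩

include μ

/-- COMB: for suitable smooth unitary letters (containing copies of `1`), some power of the walk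
almost commutes with the right `N`-invariant functions `h l` of the sample points, if the number
of the sample points is subexponential -/
theorem TrAct.comb
    (hfac : ∀ x : A, (∀ y, x * y = y * x) → ∃ c : ℂ, x = c • (1 : A)) {N : Subgroup G}
    (hN : ∀ g, g ∉ N → ¬ S.HasTwist g) {C : Set G} (hC : IsCompact C)
    {Q : Type} [Fintype Q] (h : Q → G → ℝ) (hc : ∀ l, Continuous (h l))
    (hinv : ∀ l s, ∀ g ∈ N, h l (s * g) = h l s) (β : Type) [Fintype β] [Nonempty β]
    {ε : ℝ} (hε : 0 < ε) :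
    ∃ (J : Type) (_ : Fintype J) (_ : Nonempty J) (u : J → A),
      (∀ j, star (u j) * u j = 1) ∧ (∀ j, u j * star (u j) = 1) ∧
      (∀ j, Continuous fun g => S.α g (u j)) ∧ (OECells fun (j : J) g => T.ι (S.α g (u j))) ∧
      ∃ (δ : ℝ) (n0 : ℕ), 0 < δ ∧ ∀ n, n0 ≤ n → ∀ (X : Type) [Fintype X] [DecidableEq X]
        (s : X → G) (F : X → ℝ) (X0 : Finset X), (∀ x, 0 ≤ F x) → ∑ x, F x ≤ 1 →
        (∀ x, F x ≠ 0 → x ∈ X0 ∧ s x ∈ C) → Real.log X0.card ≤ δ * n →
        ∀ f : β → Mt X A, (∀ b, ∃ z, f b = star z * z) →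
        (∀ b x, f b x x ≤ (F x : ℂ) • (1 : A)) →
        ∃ k < n, ∀ b l (y : Mt X A), ‖y‖ ≤ 1 →
          ‖T.TrM (y * (dgm X (fun x => (h l (s x) : ℂ) • (1 : A)) * (S.wk s u)^[k] (f b)
            - (S.wk s u)^[k] (f b) * dgm X (fun x => (h l (s x) : ℂ) • (1 : A))))‖ ≤ ε := by
  classical
  -- the bound of the functions
  obtain ⟨H, hH1, hH⟩ : ∃ H : ℝ, 0 < H ∧ ∀ l, ∀ s ∈ C, |h l s| ≤ H := by
    choose B hB using fun l => hC.exists_bound_of_continuousOn (hc l).continuousOn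
    refine ⟨∑ l, |B l| + 1, by positivity, fun l s hs => ?_⟩
    have h1 := hB l s hs
    rw [Real.norm_eq_abs] at h1
    have h2 : |B l| ≤ ∑ l, |B l| :=
      Finset.single_le_sum (f := fun l => |B l|) (fun _ _ => abs_nonneg _) (Finset.mem_univ l)
    have h3 := le_abs_self (B l)
    linarith
  obtain ⟨η, hη, hη2⟩ : ∃ η : ℝ, 0 < η ∧ η ^ 2 ≤ ε ^ 2 / 72 :=
    ⟨Real.sqrt (ε ^ 2 / 72), Real.sqrt_pos.2 (by positivity), (Real.sq_sqrt (by positivity)).le⟩
  obtain ⟨E, hE, hET, hEC⟩ := S.comb_set hN hC h hc hinv hη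
  obtain ⟨ε1, hε1, hε1'⟩ : ∃ ε1 : ℝ, 0 < ε1 ∧ (2 * H) ^ 2 * ε1 ≤ ε ^ 2 / 72 := by
    refine ⟨ε ^ 2 / 72 / (2 * H) ^ 2, by positivity, le_of_eq ?_⟩
    field_simp
  obtain ⟨J0, _, _, u, b1, b2, b3, b4, δ1, hδ1, hdisp⟩ := S.disp_letters μ hfac hE hET ε1 hε1
  -- the parameters
  obtain ⟨m, hm⟩ : ∃ m : ℕ, 2 * H * (1 / 2 ^ m) ≤ ε / 8 := by
    obtain ⟨m, hm⟩ := exists_pow_lt_of_lt_one (show 0 < ε / 8 / (2 * H) by positivity)
      (show (1 / 2 : ℝ) < 1 by norm_num)
    refine ⟨m, ?_⟩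
    rw [lt_div_iff₀ (by positivity), one_div, inv_pow] at hm
    rw [one_div]
    linarith
  obtain ⟨r, hr⟩ : ∃ r : ℝ, r = 2 * Fintype.card β * Fintype.card J0 := ⟨_, rfl⟩
  have hr0 : 0 < r := by
    rw [hr]
    have e1 : (0 : ℝ) < Fintype.card β := Nat.cast_pos.2 Fintype.card_pos
    have e2 : (0 : ℝ) < Fintype.card J0 := Nat.cast_pos.2 Fintype.card_pos
    positivity
  have hlog2 : 0 < Real.log 2 := Real.log_pos (by norm_num)
  refine ⟨Bool × J0, inferInstance, inferInstance, fun e => if e.1 then u e.2 else 1,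
    ?_, ?_, ?_, ?_, δ1 * Real.log 2 / (2 * r), ⌈2 * r * (m + 3) / δ1⌉₊ + 1, by positivity, ?_⟩
  · rintro ⟨b, j⟩
    cases b
    · simp
    · simpa using b1 j
  · rintro ⟨b, j⟩
    cases b
    · simp
    · simpa using b2 j
  · rintro ⟨b, j⟩
    cases b
    · simp only [Bool.false_eq_true, if_false, map_one]
      exact continuous_const
    · simpa using b3 j
  · intro C' hC' δ' hδ'
    obtain ⟨n0, hn0⟩ := b4 C' hC' δ' hδ'
    refine ⟨n0, fun n hn => ?_⟩
    obtain ⟨I, hI, κ, k1, k2, k3⟩ := hn0 n hn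
    refine ⟨I, hI, κ, k1, k2, ?_⟩
    rintro ⟨b, j⟩ s hs t ht hst
    cases b
    · simp only [Bool.false_eq_true, if_false, map_one, sub_self, norm_zero]
      positivity
    · simpa using k3 j s hs t ht hst
  intro n hn X _ _ s F X0 hF0 hF hFC hlog f hf hfF
  have hn1 : 1 ≤ n := le_trans (Nat.le_add_left 1 _) hn
  have hnpos : (0 : ℝ) < n := Nat.cast_pos.2 hn1
  rcases isEmpty_or_nonempty X with hXe | hXne
  · refine ⟨0, hn1, fun b l y _ => ?_⟩
    unfold TrAlg.TrM
    rw [Finset.univ_eq_empty, Finset.sum_empty, norm_zero]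
    exact hε.le
  have hX := TrAlg.card_pos' (I := X)
  have hXc : (Fintype.card X : ℝ) ≠ 0 := hX.ne'
  have hf' : ∀ b, Psd (f b) := hf
  -- number of levels
  obtain ⟨L, hL⟩ : ∃ L : ℕ, 2 * H * (Fintype.card X * lev m L) ≤ ε / 8 := by
    obtain ⟨L, hL⟩ := exists_pow_lt_of_lt_one
      (show 0 < ε / 8 / (2 * H * (Fintype.card X * 2 ^ m)) by positivity)
      (show (1 / 2 : ℝ) < 1 by norm_num)
    refine ⟨L, ?_⟩
    rw [lt_div_iff₀ (by positivity), one_div, inv_pow] at hL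
    unfold lev
    rw [div_eq_mul_inv]
    linarith
  -- the number of doublings
  obtain ⟨P', hP'⟩ : ∃ P' : ℕ, P' = ⌈(δ1 * Real.log 2 / (2 * r) * n) / Real.log 2⌉₊ := ⟨_, rfl⟩
  have hP1 : (X0.card : ℝ) ≤ 2 ^ P' := by
    rcases Nat.eq_zero_or_pos X0.card with h0 | h0
    · rw [h0, Nat.cast_zero]; positivity
    · have h1 : Real.log X0.card ≤ Real.log (2 ^ P') := by
        rw [Real.log_pow]
        refine hlog.trans ?_
        have h2 := Nat.le_ceil ((δ1 * Real.log 2 / (2 * r) * n) / Real.log 2)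
        rw [← hP', div_le_iff₀ hlog2] at h2
        exact h2
      exact (Real.log_le_log_iff (Nat.cast_pos.2 h0) (by positivity)).1 h1
  have hP2 : (P' : ℝ) ≤ δ1 / (2 * r) * n + 1 := by
    have h1 := (Nat.ceil_lt_add_one (show 0 ≤ (δ1 * Real.log 2 / (2 * r) * n) / Real.log 2 by
      positivity)).le
    rw [← hP'] at h1
    refine h1.trans (le_of_eq ?_)
    field_simp
  -- the projection
  obtain ⟨p, hp⟩ : ∃ p, p = dgm X (fun x => if x ∈ X0 then (1 : A) else 0) := ⟨_, rfl⟩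
  have hps : star p = p := by
    rw [hp, ← map_star]
    congr 1
    funext x
    change star (if x ∈ X0 then (1 : A) else 0) = _
    split_ifs
    · exact star_one _
    · exact star_zero _
  have hpp : p * p = p := by
    rw [hp, ← map_mul]
    congr 1
    funext x
    change (if x ∈ X0 then (1 : A) else 0) * (if x ∈ X0 then (1 : A) else 0) = _
    split_ifs
    · exact one_mul _
    · exact mul_zero _
  have hpτ : ((T.ampT X).τ p).re = X0.card / Fintype.card X := by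
    rw [T.ampT_τ]
    have e1 : ∀ x, T.τ (p x x) = if x ∈ X0 then 1 else 0 := by
      intro x
      rw [hp, dgm_apply, if_pos rfl]
      split_ifs
      · exact T.τ_one
      · exact T.τ_zero'
    rw [Finset.sum_congr rfl fun x _ => e1 x, Finset.sum_ite_mem, Finset.univ_inter,
      Finset.sum_const, nsmul_eq_mul, mul_one, ← Complex.ofReal_natCast,
      ← Complex.ofReal_natCast, ← Complex.ofReal_inv, ← Complex.ofReal_mul, Complex.ofReal_re]
    rw [div_eq_inv_mul]
  have hpf : ∀ b, p * f b = f b := by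
    intro b
    ext x y
    rw [hp, dgm_mul_apply]
    by_cases hx : x ∈ X0
    · rw [if_pos hx, one_mul]
    · have hx0 : F x = 0 := by
        by_contra hcon
        exact hx (hFC x hcon).1
      rw [mt_entry_zero (hf' b) (hfF b) hx0, mul_zero]
  obtain ⟨w, hw⟩ : ∃ w : Bool × J0 → Mt X A, w = fun e => S.pid s (if e.1 then u e.2 else 1) :=
    ⟨_, rfl⟩
  have hwk : ∀ k b, (S.wk s fun e : Bool × J0 => if e.1 then u e.2 else 1)^[k] (f b)
      = (wlk w)^[k] (f b) := by
    intro k b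
    rw [hw]
    rfl
  have hpw : ∀ e, p * w e = w e * p := by
    intro e
    rw [hw, hp]
    simp only
    rw [S.pid_eq, ← map_mul, ← map_mul]
    congr 1
    funext x
    change (if x ∈ X0 then (1 : A) else 0) * _ = _ * (if x ∈ X0 then (1 : A) else 0)
    by_cases hx : x ∈ X0
    · rw [if_pos hx, one_mul, mul_one]
    · rw [if_neg hx, zero_mul, mul_zero]
  have hlevP : (X0.card / Fintype.card X : ℝ) * lev m (m + P') ≤ 1 / Fintype.card X := by
    unfold lev
    rw [pow_add, div_mul_eq_mul_div, div_le_div_iff_of_pos_right hX]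
    have e1 : (2 : ℝ) ^ m / (2 ^ m * 2 ^ P') = (2 ^ P')⁻¹ := by
      have : (2 : ℝ) ^ m ≠ 0 := by positivity
      field_simp
    rw [e1, ← div_eq_mul_inv, div_le_one (by positivity)]
    exact hP1
  obtain ⟨k, hk, hbud⟩ := (T.ampT X).psd_budget w
    (by
      rintro ⟨b, j⟩
      rw [hw]
      simp only
      rw [← map_star, ← map_mul]
      cases b
      · simp
      · simp [b1 j])
    (by
      rintro ⟨b, j⟩
      rw [hw]
      simp only
      rw [← map_star, ← map_mul]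
      cases b
      · simp
      · simp [b2 j])
    (by
      intro j
      rw [hw]
      simp) f hf' (a := X0.card / Fintype.card X) (t := 1 / Fintype.card X)
    (by
      intro b k t ht
      rw [← hpτ]
      exact (T.ampT X).psd_Nes_le_proj (psd_wlk_iter w (hf' b) k) hps hpp
        (wlk_iter_proj w hpw (hpf b) k) ht)
    (by
      intro b
      have h1 := TrAlg.TrM_re_le (T := T) hF (hfF b)
      rw [T.TrM_eq, ← Complex.ofReal_natCast, Complex.re_ofReal_mul] at h1
      rw [le_div_iff₀ hX]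
      linarith) m (m + P') hlevP hn1 (L + 1)
  refine ⟨k, hk, fun b l y hy => ?_⟩
  rw [hwk]
  have hPs : Psd ((wlk w)^[k] (f b)) := psd_wlk_iter w (hf' b) k
  have hdiag : ∀ x, ((wlk w)^[k] (f b)) x x ≤ (F x : ℂ) • (1 : A) := by
    intro x
    rw [← hwk]
    refine S.wk_iter_diag_le s _ ?_ (hfF b x) k
    rintro ⟨b, j⟩
    cases b
    · simp
    · simpa using b2 j
  obtain ⟨f', hf'd⟩ : ∃ f', f' = (wlk w)^[k] (f b) := ⟨_, rfl⟩
  have hbud' := hbud b
  rw [← hf'd] at hPs hdiag hbud' ⊢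
  -- the displacement
  have hmass := hdisp (Fin (L + 1) × X × X) (S.cfam s E f' m (L + 1))
    (fun q => (s q.2.1)⁻¹ * s q.2.2)
    (by
      intro q hq
      by_contra hcon
      exact hq (S.cfam_neg s f' m (L + 1) q hcon))
    (S.cfam_row_le s hPs m (L + 1) hF hdiag) (S.cfam_col_le s hPs m (L + 1) hF hdiag)
    (by
      intro j
      refine (S.cfam_comm_le s f' m (L + 1) (u j)).trans ?_
      have h1 : ∑ i ∈ Finset.range (L + 1), lev m (i + 1) *
          T.hs (S.pid s (u j) * es f' (lev m i) - es f' (lev m i) * S.pid s (u j))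
          ≤ Fintype.card X * ∑ i ∈ Finset.range (L + 1), lev m (i + 1) *
            ∑ j, ‖(T.ampT X).ι (w (true, j) * es f' (lev m i)
              - es f' (lev m i) * w (true, j))‖ ^ 2 := by
        rw [Finset.mul_sum]
        refine Finset.sum_le_sum fun i _ => ?_
        rw [T.hs_eq, mul_left_comm]
        refine mul_le_mul_of_nonneg_left ?_ hX.le
        refine mul_le_mul_of_nonneg_left ?_ (lev_pos _ _).le
        have e1 : S.pid s (u j) = w (true, j) := by
          rw [hw]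
          simp
        rw [e1]
        exact Finset.single_le_sum (f := fun j => ‖(T.ampT X).ι (w (true, j) * es f' (lev m i)
              - es f' (lev m i) * w (true, j))‖ ^ 2) (fun _ _ => by positivity)
          (Finset.mem_univ j)
      refine h1.trans ((mul_le_mul_of_nonneg_left hbud' hX.le).trans ?_)
      rw [← hr]
      have h2 : (Fintype.card X : ℝ) * (r * (((m + P' : ℕ) : ℝ) + 2) * (1 / Fintype.card X) / n)
          = r * (m + P' + 2) / n := by
        push_cast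
        field_simp
      rw [h2, div_le_iff₀ hnpos]
      have h3 : 2 * r * (m + 3) / δ1 ≤ n := by
        have h4 := Nat.le_ceil (2 * r * (m + 3) / δ1)
        have h5 : ((⌈2 * r * (m + 3) / δ1⌉₊ : ℕ) : ℝ) ≤ n := by
          exact_mod_cast le_trans (Nat.le_add_right _ 1) hn
        exact h4.trans h5
      rw [div_le_iff₀ hδ1] at h3
      have h6 : r * (δ1 / (2 * r) * n) = δ1 / 2 * n := by
        field_simp
      have h7 := mul_le_mul_of_nonneg_left hP2 hr0.le
      linarith)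
  -- cut off the functions
  obtain ⟨a, ha⟩ : ∃ a : X → ℝ, a = fun x => if F x = 0 then 0 else h l (s x) := ⟨_, rfl⟩
  have hcut1 : dgm X (fun x => (h l (s x) : ℂ) • (1 : A)) * f'
      = dgm X (fun x => (a x : ℂ) • (1 : A)) * f' := by
    ext x y
    rw [dgm_mul_apply, dgm_mul_apply]
    by_cases hx : F x = 0
    · rw [mt_entry_zero hPs hdiag hx, mul_zero, mul_zero]
    · rw [ha]
      simp only
      rw [if_neg hx]
  have hcut2 : f' * dgm X (fun x => (h l (s x) : ℂ) • (1 : A))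
      = f' * dgm X (fun x => (a x : ℂ) • (1 : A)) := by
    ext x y
    rw [mul_dgm_apply, mul_dgm_apply]
    by_cases hy : F y = 0
    · rw [mt_entry_zero' hPs hdiag hy, zero_mul, zero_mul]
    · rw [ha]
      simp only
      rw [if_neg hy]
  rw [hcut1, hcut2]
  have haH : ∀ x, |a x| ≤ H := by
    intro x
    rw [ha]
    simp only
    split_ifs with hx
    · rw [abs_zero]; exact hH1.le
    · exact hH l _ (hFC x hx).2
  have hab : ∀ x y, F x ≠ 0 → F y ≠ 0 → |a x - a y| ≤ η ∨ (s x)⁻¹ * s y ∈ E := by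
    intro x y hx hy
    rw [ha]
    simp only
    rw [if_neg hx, if_neg hy]
    exact hEC l _ (hFC x hx).2 _ (hFC y hy).2
  have hfin := S.comb_core s hPs hF hF0 hdiag hH1.le haH hη.le hab m L hmass
    (κ := ε / 6) (by positivity) y hy
  refine hfin.trans ?_
  have e1 : (ε / 6)⁻¹ * (η ^ 2 + (2 * H) ^ 2 * ε1) ≤ (ε / 6)⁻¹ * (ε ^ 2 / 36) :=
    mul_le_mul_of_nonneg_left (by linarith) (by positivity)
  have e2 : (ε / 6)⁻¹ * (ε ^ 2 / 36) = ε / 6 := by
    field_simp
    norm_num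
  rw [e2] at e1
  have e3 : 2 * H * (1 / 2 ^ m + Fintype.card X * lev m L)
      = 2 * H * (1 / 2 ^ m) + 2 * H * (Fintype.card X * lev m L) := by ring
  rw [e3]
  linarith

end comb

end Pool.Agent.AbCoc
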