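import Pool.Agent.Lib_MP_418a80_nm.RelB
import Pool.Agent.Lib_MP_418a80_nm.Cells2
import Pool.Agent.Lib_MP_418a80_nm.NDefs

/-!
# The statement COMB: after a suitable number of steps of the walk, kernels almost commute with
functions on `G / N`
-/

set_option autoImplicit false
set_option linter.unusedVariables false
set_option linter.unusedSectionVars false

open MeasureTheory Topology Filter

namespace Pool.Agent.AbCoc

universe u v w

variable {A : Type u} [CStarAlgebra A] [PartialOrder A] [StarOrderedRing A]
  {K : Type v} [NormedAddCommGroup K] [InnerProductSpace ℂ K]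
  {G : Type w} [Group G] [TopologicalSpace G] [MeasurableSpace G] {T : TrAlg A K}

/-- for a compact set `C` and finitely many continuous functions `h_l` on `G / N` there are
finitely many letters with few cells such that, for large `n` and every index set with at most
`exp(δ n)` active points in `C`, some step `k ≤ n` of the walk started at two given kernels with
diagonals at most `F` almost commutes in the trace norm with all `h_l` -/
def TrAct.Comb (S : TrAct G T) (N : Set G) : Prop :=
  ∀ (C : Set G), IsCompact C → ∀ (L : Type) [Fintype L] (h : L → G → ℝ),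
    (∀ l, Continuous (h l)) → (∀ l s n, n ∈ N → h l (s * n) = h l s) → (∀ l s, |h l s| ≤ 1) →
    ∀ ε : ℝ, 0 < ε →
    ∃ (J : Type) (_ : Fintype J) (_ : Nonempty J) (u : J → A), (∀ j, star (u j) * u j = 1) ∧
      (∀ j, u j * star (u j) = 1) ∧ (OECells fun j g => T.ι (S.α g (u j))) ∧
      ∃ δ : ℝ, 0 < δ ∧ ∃ n0 : ℕ, ∀ n, n0 ≤ n →
        ∀ (X : Type) [Fintype X] [DecidableEq X] [Nonempty X] (s : X → G) (F : X → ℝ),
          (∀ c, 0 ≤ F c) → ∑ c, F c ≤ 1 → (∀ c, F c ≠ 0 → s c ∈ C) →
          Real.log (Nat.card {c // F c ≠ 0}) ≤ δ * n →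
          ∀ f0 f1 : Mt X A, (∃ z, f0 = star z * z) → (∃ z, f1 = star z * z) →
            (∀ c, f0 c c ≤ ((F c : ℝ) : ℂ) • (1 : A)) →
            (∀ c, f1 c c ≤ ((F c : ℝ) : ℂ) • (1 : A)) →
            ∃ k, k ≤ n ∧
              (∀ l, T.L1 (sdg X (fun c => h l (s c)) * (S.wk s u)^[k] f0
                - (S.wk s u)^[k] f0 * sdg X (fun c => h l (s c))) ε) ∧
              (∀ l, T.L1 (sdg X (fun c => h l (s c)) * (S.wk s u)^[k] f1
                - (S.wk s u)^[k] f1 * sdg X (fun c => h l (s c))) ε)

end Pool.Agent.AbCoc
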