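import Pool.Agent.Lib_MP_418a80_nm.Comb3
import Pool.Agent.Lib_MP_418a80_nm.CombDef

/-!
# COMB in the form `TrAct.Comb`
-/

set_option autoImplicit false
set_option linter.unusedVariables false
set_option linter.unusedSectionVars false

open Topology Filter MeasureTheory

namespace Pool.Agent.AbCoc

universe u v w

variable {A : Type u} [CStarAlgebra A] [PartialOrder A] [StarOrderedRing A] {K : Type v}
  [NormedAddCommGroup K] [InnerProductSpace ℂ K] [CompleteSpace K] {T : TrAlg A K}
variable {G : Type w} [Group G] [TopologicalSpace G] [IsTopologicalGroup G]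
  [SecondCountableTopology G] [LocallyCompactSpace G] [T2Space G] [MeasurableSpace G]
  [BorelSpace G] (S : TrAct G T) (μ : Measure G) [μ.IsHaarMeasure]
include μ

/-- COMB holds if the elements outside `N` have no twists -/
theorem TrAct.comb_of_not_hasTwist
    (hfac : ∀ x : A, (∀ y, x * y = y * x) → ∃ c : ℂ, x = c • (1 : A)) (N : Subgroup G)
    (hN : ∀ g, g ∉ N → ¬ S.HasTwist g) : S.Comb (N : Set G) := by
  classical
  intro C hC L _ h hc hinv hb ε hε
  obtain ⟨J, hJ, hJn, u, b1, b2, b3, b4, δ, n0, hδ, hn0⟩ := S.comb μ hfac hN hC h hc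
    (fun l s g hg => hinv l s g hg) Bool hε
  refine ⟨J, hJ, hJn, u, b1, b2, b4, δ, hδ, n0, fun n hn X _ _ _ s F hF0 hF hFC hlog f0 f1 hf0 hf1
    hd0 hd1 => ?_⟩
  obtain ⟨k, hk, hk2⟩ := hn0 n hn X s F (Finset.univ.filter fun c => F c ≠ 0) hF0 hF
    (fun x hx => ⟨Finset.mem_filter.2 ⟨Finset.mem_univ _, hx⟩, hFC x hx⟩)
    (by
      refine le_trans (le_of_eq ?_) hlog
      rw [Nat.card_eq_fintype_card, Fintype.card_subtype])
    (fun b => if b then f1 else f0)
    (by
      rintro (_ | _)
      · exact hf0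
      · exact hf1)
    (by
      rintro (_ | _) x
      · exact hd0 x
      · exact hd1 x)
  exact ⟨k, hk.le, fun l y hy => hk2 false l y hy, fun l y hy => hk2 true l y hy⟩

end Pool.Agent.AbCoc
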