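import Pool.Agent.Lib_MP_418a80_hyp.OrbInt

/-!
# Displacement, part 1: signs and truncation
-/

set_option autoImplicit false
set_option linter.unusedVariables false
set_option linter.unusedSectionVars false

open Topology Filter MeasureTheory

namespace Pool.Agent.AbCoc

universe u v w

section signs
variable {A : Type u} [CStarAlgebra A] {K : Type v} [NormedAddCommGroup K]
  [InnerProductSpace ℂ K] (T : TrAlg A K)

theorem parallelogram_avg {E : Type*} [NormedAddCommGroup E] [InnerProductSpace ℂ E] (x y : E) :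
    ‖x + y‖ ^ 2 + ‖x - y‖ ^ 2 = 2 * ‖x‖ ^ 2 + 2 * ‖y‖ ^ 2 := by
  rw [@norm_add_sq ℂ, @norm_sub_sq ℂ]
  ring

/-- the potential for the choice of signs -/
noncomputable def TrAlg.pot (y B P : A) : ℝ :=
  ‖T.ι (star y * y + B)‖ ^ 2 + 4 * (T.τ (y * star y * P)).re + 2 * ‖T.ι P‖ ^ 2

theorem TrAlg.pot_step (y c B P : A) (hP : IsSelfAdjoint P) :
    T.pot (y + c) B P + T.pot (y - c) B P ≤ 2 * T.pot y (B + star c * c) (P + c * star c) := by
  have h1 : ‖T.ι (star (y + c) * (y + c) + B)‖ ^ 2 + ‖T.ι (star (y - c) * (y - c) + B)‖ ^ 2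
      = 2 * ‖T.ι (star y * y + (B + star c * c))‖ ^ 2
        + 2 * ‖T.ι (star y * c + star c * y)‖ ^ 2 := by
    have h2 := parallelogram_avg (T.ι (star y * y + (B + star c * c)))
      (T.ι (star y * c + star c * y))
    rw [← h2, ← map_add, ← map_sub]
    congr 3
    · rw [star_add]; congr 1; noncomm_ring
    · rw [star_sub]; congr 1; noncomm_ring
  have h2 : (T.τ ((y + c) * star (y + c) * P)).re + (T.τ ((y - c) * star (y - c) * P)).re
      = 2 * (T.τ (y * star y * P)).re + 2 * (T.τ (c * star c * P)).re := by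
    rw [← Complex.add_re, ← T.τ_add]
    have : (y + c) * star (y + c) * P + (y - c) * star (y - c) * P
        = (2 : ℂ) • (y * star y * P) + (2 : ℂ) • (c * star c * P) := by
      rw [star_add, star_sub, two_smul, two_smul]
      noncomm_ring
    rw [this, T.τ_add, T.τ_smul, T.τ_smul, Complex.add_re]
    simp
  have h3 : ‖T.ι (star y * c + star c * y)‖ ^ 2 ≤ 4 * (T.τ (y * star y * (c * star c))).re := by
    have e1 : ‖T.ι (star y * c)‖ ^ 2 = (T.τ (y * star y * (c * star c))).re := by
      rw [T.norm_sq, star_mul, star_star]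
      have : star c * y * (star y * c) = star c * (y * star y * c) := by simp only [mul_assoc]
      rw [this, T.τ_mul_comm]
      simp only [mul_assoc]
    have e2 : ‖T.ι (star c * y)‖ = ‖T.ι (star y * c)‖ := by
      rw [← T.norm_star, star_mul, star_star]
    have e3 : ‖T.ι (star y * c + star c * y)‖ ≤ 2 * ‖T.ι (star y * c)‖ := by
      rw [map_add]
      refine (norm_add_le _ _).trans ?_
      rw [e2]
      linarith
    have e4 := pow_le_pow_left₀ (norm_nonneg _) e3 2
    rw [mul_pow, e1] at e4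
    linarith
  have h4 : ‖T.ι (P + c * star c)‖ ^ 2 = ‖T.ι P‖ ^ 2 + 2 * (T.τ (c * star c * P)).re
      + ‖T.ι (c * star c)‖ ^ 2 := by
    rw [map_add, @norm_add_sq ℂ, T.inner_eq_τ, hP.star_eq, T.τ_mul_comm]
    rfl
  have h5 : (T.τ (y * star y * (P + c * star c))).re
      = (T.τ (y * star y * P)).re + (T.τ (y * star y * (c * star c))).re := by
    rw [mul_add, T.τ_add, Complex.add_re]
  unfold TrAlg.pot
  rw [h4, h5]
  have h6 : 0 ≤ ‖T.ι (c * star c)‖ ^ 2 := by positivity
  linarith

/-- derandomised choice of signs: a bounded combination of a family -/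
theorem TrAlg.exists_signs {J : Type} [Fintype J] (c : J → A) {U : Type*} [Fintype U]
    (D : U → A →ₗ[ℂ] K) (p q : ℝ) (hp : 0 ≤ p) (hq : 0 ≤ q) :
    ∃ x : A, ∑ i, ‖T.ι (c i)‖ ^ 2
        - p * (‖T.ι (∑ i, star (c i) * c i)‖ ^ 2 + 2 * ‖T.ι (∑ i, c i * star (c i))‖ ^ 2)
        - q * ∑ u, ∑ i, ‖D u (c i)‖ ^ 2
      ≤ ‖T.ι x‖ ^ 2 - p * ‖T.ι (star x * x)‖ ^ 2 - q * ∑ u, ‖D u x‖ ^ 2 := by
  classical
  have key : ∀ (s : Finset J) (y : A), ∃ x : A,
      (‖T.ι y‖ ^ 2 + ∑ i ∈ s, ‖T.ι (c i)‖ ^ 2)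
        - p * T.pot y (∑ i ∈ s, star (c i) * c i) (∑ i ∈ s, c i * star (c i))
        - q * ∑ u, (‖D u y‖ ^ 2 + ∑ i ∈ s, ‖D u (c i)‖ ^ 2)
      ≤ ‖T.ι x‖ ^ 2 - p * ‖T.ι (star x * x)‖ ^ 2 - q * ∑ u, ‖D u x‖ ^ 2 := by
    intro s
    induction s using Finset.induction_on with
    | empty =>
      intro y
      refine ⟨y, ?_⟩
      simp only [Finset.sum_empty, add_zero]
      have : T.pot y 0 0 = ‖T.ι (star y * y)‖ ^ 2 := by
        unfold TrAlg.pot
        rw [add_zero, mul_zero, map_zero]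
        have : T.τ (0 : A) = 0 := by unfold TrAlg.τ; rw [map_zero, inner_zero_right]
        rw [this]
        simp
      rw [this]
    | insert j s hj ih =>
      intro y
      obtain ⟨x1, h1⟩ := ih (y + c j)
      obtain ⟨x2, h2⟩ := ih (y - c j)
      rw [Finset.sum_insert hj, Finset.sum_insert hj, Finset.sum_insert hj]
      simp only [Finset.sum_insert hj]
      set B := ∑ i ∈ s, star (c i) * c i with hB
      set P := ∑ i ∈ s, c i * star (c i) with hPd
      have hP : IsSelfAdjoint P := by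
        rw [hPd]
        exact isSelfAdjoint_sum _ fun i _ => IsSelfAdjoint.mul_star_self (c i)
      have e1 := T.pot_step y (c j) B P hP
      have e2 : ‖T.ι (y + c j)‖ ^ 2 + ‖T.ι (y - c j)‖ ^ 2
          = 2 * ‖T.ι y‖ ^ 2 + 2 * ‖T.ι (c j)‖ ^ 2 := by
        rw [map_add, map_sub]
        exact parallelogram_avg _ _
      have e3 : ∑ u, (‖D u (y + c j)‖ ^ 2 + ∑ i ∈ s, ‖D u (c i)‖ ^ 2)
          + ∑ u, (‖D u (y - c j)‖ ^ 2 + ∑ i ∈ s, ‖D u (c i)‖ ^ 2)
          = 2 * ∑ u, (‖D u y‖ ^ 2 + (‖D u (c j)‖ ^ 2 + ∑ i ∈ s, ‖D u (c i)‖ ^ 2)) := by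
        rw [← Finset.sum_add_distrib, Finset.mul_sum]
        refine Finset.sum_congr rfl fun u _ => ?_
        have := parallelogram_avg (D u y) (D u (c j))
        rw [← map_add, ← map_sub] at this
        linarith
      have e4 : (‖T.ι y‖ ^ 2 + (‖T.ι (c j)‖ ^ 2 + ∑ i ∈ s, ‖T.ι (c i)‖ ^ 2))
            - p * T.pot y (star (c j) * c j + B) (c j * star (c j) + P)
            - q * ∑ u, (‖D u y‖ ^ 2 + (‖D u (c j)‖ ^ 2 + ∑ i ∈ s, ‖D u (c i)‖ ^ 2))
          ≤ ((‖T.ι (y + c j)‖ ^ 2 + ∑ i ∈ s, ‖T.ι (c i)‖ ^ 2)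
            - p * T.pot (y + c j) B P
            - q * ∑ u, (‖D u (y + c j)‖ ^ 2 + ∑ i ∈ s, ‖D u (c i)‖ ^ 2)
          + ((‖T.ι (y - c j)‖ ^ 2 + ∑ i ∈ s, ‖T.ι (c i)‖ ^ 2)
            - p * T.pot (y - c j) B P
            - q * ∑ u, (‖D u (y - c j)‖ ^ 2 + ∑ i ∈ s, ‖D u (c i)‖ ^ 2))) / 2 := by
        rw [add_comm (star (c j) * c j) B, add_comm (c j * star (c j)) P]
        have e5 := mul_le_mul_of_nonneg_left e1 hp
        nlinarith
      rcases le_total (‖T.ι x1‖ ^ 2 - p * ‖T.ι (star x1 * x1)‖ ^ 2 - q * ∑ u, ‖D u x1‖ ^ 2)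
        (‖T.ι x2‖ ^ 2 - p * ‖T.ι (star x2 * x2)‖ ^ 2 - q * ∑ u, ‖D u x2‖ ^ 2) with h | h
      · exact ⟨x2, by linarith⟩
      · exact ⟨x1, by linarith⟩
  obtain ⟨x, hx⟩ := key Finset.univ 0
  refine ⟨x, le_trans (le_of_eq ?_) hx⟩
  have : T.pot 0 (∑ i, star (c i) * c i) (∑ i, c i * star (c i))
      = ‖T.ι (∑ i, star (c i) * c i)‖ ^ 2 + 2 * ‖T.ι (∑ i, c i * star (c i))‖ ^ 2 := by
    unfold TrAlg.pot
    rw [star_zero, mul_zero, zero_add, zero_mul]
    have : T.τ (0 : A) = 0 := by unfold TrAlg.τ; rw [map_zero, inner_zero_right]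
    rw [this]
    simp
  rw [this]
  simp only [map_zero, norm_zero, ne_eq, OfNat.ofNat_ne_zero, not_false_eq_true, zero_pow,
    zero_add]

end signs

section trunc
variable {A : Type u} [CStarAlgebra A] {K : Type v} [NormedAddCommGroup K]
  [InnerProductSpace ℂ K] (T : TrAlg A K)

/-- the resolvent `(1 + t a)⁻¹` of a positive element -/
theorem exists_inv_one_add {A : Type u} [CStarAlgebra A] [PartialOrder A] [StarOrderedRing A]
    {a : A} (ha : 0 ≤ a) :
    ∃ r : A, r * (1 + a) = 1 ∧ (1 + a) * r = 1 ∧ 0 ≤ r ∧ r ≤ 1 := by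
  have hu : IsUnit (1 + a) := by
    have h1 : (-1 : ℝ) ∉ spectrum ℝ a := fun h => by
      have := spectrum_nonneg_of_nonneg ha h
      linarith
    rw [spectrum.notMem_iff] at h1
    have h2 : algebraMap ℝ A (-1) - a = -(1 + a) := by
      rw [map_neg, map_one]
      abel
    rw [h2, IsUnit.neg_iff] at h1
    exact h1
  obtain ⟨w, hw⟩ := hu
  have h1 : (↑w⁻¹ : A) * (1 + a) = 1 := by rw [← hw, Units.inv_mul]
  have h2 : (1 + a) * (↑w⁻¹ : A) = 1 := by rw [← hw, Units.mul_inv]
  obtain ⟨r, hr⟩ : ∃ r : A, r = ↑w⁻¹ := ⟨_, rfl⟩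
  rw [← hr] at h1 h2
  have hsa : star (1 + a) = 1 + a := by rw [star_add, star_one, (IsSelfAdjoint.of_nonneg ha).star_eq]
  have hrs : star r = r := by
    have h3 : star r * (1 + a) = 1 := by
      have := congrArg star h2
      rwa [star_mul, star_one, hsa] at this
    calc star r = star r * ((1 + a) * r) := by rw [h2, mul_one]
      _ = r := by rw [← mul_assoc, h3, one_mul]
  have hr0 : 0 ≤ r := by
    have h := star_left_conjugate_nonneg (add_nonneg zero_le_one ha) r
    rwa [hrs, h1, one_mul] at h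
  refine ⟨r, h1, h2, hr0, ?_⟩
  -- `1 - r = r a r + (r a) (r a)*` type identity
  have h3 : r + r * a = 1 := by rwa [mul_add, mul_one] at h1
  have h4 : r + a * r = 1 := by rwa [add_mul, one_mul] at h2
  have h5 : 1 - r = star r * a * r + star (a * r) * (a * r) := by
    rw [star_mul, hrs, (IsSelfAdjoint.of_nonneg ha).star_eq]
    have h6 : r * a = 1 - r := by rw [← h3]; abel
    have h7 : a * r = 1 - r := by rw [← h4]; abel
    rw [h6, h7]
    noncomm_ring
  rw [← sub_nonneg, h5]
  exact add_nonneg (star_left_conjugate_nonneg ha r) (star_mul_self_nonneg _)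

theorem norm_le_one_of_le_one {A : Type u} [CStarAlgebra A] [PartialOrder A] [StarOrderedRing A]
    {a : A} (ha : 0 ≤ a) (h : a ≤ 1) : ‖a‖ ≤ 1 :=
  (CStarAlgebra.norm_le_one_iff_of_nonneg _ ha).2 h

/-- truncation of an element, with control of intertwining relations -/
theorem TrAlg.exists_trunc (x : A) (R : ℝ) (hR : 0 < R) : ∃ y : A, ‖y‖ ≤ R ∧
    ‖T.ι (x - y)‖ ≤ ‖T.ι (star x * x)‖ / R ∧
    ∀ a b : A, ‖T.ι (a * y - y * b)‖
      ≤ 2 * ‖T.ι (a * x - x * b)‖ + ‖T.ι (star a * x - x * star b)‖ := by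
  let _ : PartialOrder A := CStarAlgebra.spectralOrder A
  have : StarOrderedRing A := CStarAlgebra.spectralOrderedRing A
  -- the scaled element
  obtain ⟨t, ht⟩ : ∃ t : ℝ, t = R⁻¹ := ⟨_, rfl⟩
  have ht0 : 0 < t := by rw [ht]; positivity
  have htR : t * R = 1 := by rw [ht]; exact inv_mul_cancel₀ hR.ne'
  obtain ⟨z, hz⟩ : ∃ z : A, z = (t : ℂ) • x := ⟨_, rfl⟩
  have hxz : x = (R : ℂ) • z := by
    rw [hz, smul_smul, ← Complex.ofReal_mul, mul_comm R t, htR, Complex.ofReal_one, one_smul]
  obtain ⟨r, h1, h2, h3, h4⟩ := exists_inv_one_add (star_mul_self_nonneg z)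
  have hrs : star r = r := (IsSelfAdjoint.of_nonneg h3).star_eq
  have hrn : ‖r‖ ≤ 1 := norm_le_one_of_le_one h3 h4
  have e1 : r + r * (star z * z) = 1 := by rwa [mul_add, mul_one] at h1
  have e2 : r + star z * z * r = 1 := by rwa [add_mul, one_mul] at h2
  -- `z r` is a contraction
  have hzr : ‖z * r‖ ≤ 1 := by
    have h5 : star (z * r) * (z * r) = r - r * r := by
      have : star z * z * r = 1 - r := by rw [← e2]; abel
      calc star (z * r) * (z * r) = star r * (star z * z * r) := by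
            rw [star_mul]; simp only [mul_assoc]
        _ = r - r * r := by rw [this, hrs, mul_sub, mul_one]
    have h6 : 0 ≤ star (z * r) * (z * r) := star_mul_self_nonneg _
    have h7 : star (z * r) * (z * r) ≤ 1 := by
      rw [h5]
      have h8 : 0 ≤ r * r := by
        have := star_mul_self_nonneg r
        rwa [hrs] at this
      exact (sub_le_self _ h8).trans h4
    have h8 := norm_le_one_of_le_one h6 h7
    rw [CStarRing.norm_star_mul_self] at h8
    nlinarith [norm_nonneg (z * r)]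
  -- `z r z*` is a contraction
  have hzrz : ‖z * r * star z‖ ≤ 1 := by
    obtain ⟨l, g1, g2, g3, g4⟩ := exists_inv_one_add (mul_star_self_nonneg z)
    have h5 : z * r = l * z := by
      have h6 : (1 + z * star z) * z = z * (1 + star z * z) := by noncomm_ring
      calc z * r = l * (1 + z * star z) * (z * r) := by rw [g1, one_mul]
        _ = l * ((1 + z * star z) * z) * r := by simp only [mul_assoc]
        _ = l * z * ((1 + star z * z) * r) := by rw [h6]; simp only [mul_assoc]
        _ = l * z := by rw [h2, mul_one]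
    have h6 : z * r * star z = 1 - l := by
      rw [h5, mul_assoc]
      have : l + l * (z * star z) = 1 := by rwa [mul_add, mul_one] at g1
      rw [← this]
      abel
    rw [h6]
    exact norm_le_one_of_le_one (sub_nonneg.2 g4) (sub_le_self _ g3)
  refine ⟨x * r, ?_, ?_, fun a b => ?_⟩
  · rw [hxz, smul_mul_assoc, norm_smul, Complex.norm_real, Real.norm_of_nonneg hR.le]
    calc R * ‖z * r‖ ≤ R * 1 := mul_le_mul_of_nonneg_left hzr hR.le
      _ = R := mul_one R
  · have h5 : x - x * r = ((t : ℂ) • (x * star x)) * (z * r) := by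
      have h6 : (1 : A) - r = star z * z * r := by rw [← e2]; abel
      calc x - x * r = x * (1 - r) := by rw [mul_sub, mul_one]
        _ = x * star z * (z * r) := by rw [h6]; simp only [mul_assoc]
        _ = ((t : ℂ) • (x * star x)) * (z * r) := by
          have : star z = (t : ℂ) • star x := by
            rw [hz, star_smul]
            congr 1
            exact Complex.conj_ofReal _
          rw [this, mul_smul_comm]
    rw [h5]
    refine (T.mul_le' _ _).trans ?_
    rw [map_smul, norm_smul, Complex.norm_real, Real.norm_of_nonneg ht0.le]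
    have h6 : ‖T.ι (x * star x)‖ = ‖T.ι (star x * x)‖ := by
      have h7 : ‖T.ι (x * star x)‖ ^ 2 = ‖T.ι (star x * x)‖ ^ 2 := by
        rw [T.norm_sq, T.norm_sq, star_mul, star_mul, star_star]
        rw [show x * star x * (x * star x) = x * (star x * x * star x) by simp only [mul_assoc],
          T.τ_mul_comm]
        simp only [mul_assoc]
      exact (pow_left_inj₀ (norm_nonneg _) (norm_nonneg _) two_ne_zero).1 h7
    rw [h6, ht, div_eq_inv_mul]
    exact mul_le_of_le_one_right (by positivity) hzr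
  · -- the intertwining relation
    obtain ⟨p, hp⟩ : ∃ p : A, p = a * z - z * b := ⟨_, rfl⟩
    obtain ⟨q, hq⟩ : ∃ q : A, q = star a * z - z * star b := ⟨_, rfl⟩
    have hqs : star q = star z * a - b * star z := by
      rw [hq, star_sub, star_mul, star_mul, star_star, star_star]
    have h5 : b * r - r * b = r * (star q * z - star z * p) * r := by
      have h6 : b * r - r * b = r * ((1 + star z * z) * b - b * (1 + star z * z)) * r := by
        calc b * r - r * b = (r * (1 + star z * z)) * b * r - r * b * ((1 + star z * z) * r) := by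
              rw [h1, h2, one_mul, mul_one]
          _ = _ := by noncomm_ring
      rw [h6, hqs, hp]
      congr 2
      noncomm_ring
    have h6 : a * (z * r) - (z * r) * b
        = p * r + z * r * star q * (z * r) - (z * r * star z) * (p * r) := by
      calc a * (z * r) - (z * r) * b = (a * z - z * b) * r + z * (b * r - r * b) := by
            noncomm_ring
        _ = _ := by
            rw [h5, ← hp]
            noncomm_ring
    have h7 : ‖T.ι (a * (z * r) - (z * r) * b)‖ ≤ 2 * ‖T.ι p‖ + ‖T.ι q‖ := by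
      rw [h6, map_sub, map_add]
      have f1 : ‖T.ι (p * r)‖ ≤ ‖T.ι p‖ :=
        (T.mul_le' _ _).trans (mul_le_of_le_one_right (norm_nonneg _) hrn)
      have f2 : ‖T.ι (z * r * star q * (z * r))‖ ≤ ‖T.ι q‖ := by
        refine (T.mul_le' _ _).trans ((mul_le_of_le_one_right (norm_nonneg _) hzr).trans ?_)
        refine (T.mul_le _ _).trans ?_
        rw [T.norm_star]
        exact mul_le_of_le_one_left (norm_nonneg _) hzr
      have f3 : ‖T.ι (z * r * star z * (p * r))‖ ≤ ‖T.ι p‖ :=
        (T.mul_le _ _).trans ((mul_le_of_le_one_left (norm_nonneg _) hzrz).trans f1)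
      refine (norm_sub_le _ _).trans ?_
      have f4 := norm_add_le (T.ι (p * r)) (T.ι (z * r * star q * (z * r)))
      linarith
    have hRn : ‖(R : ℂ)‖ = R := by rw [Complex.norm_real, Real.norm_of_nonneg hR.le]
    have g1 : a * (x * r) - x * r * b = (R : ℂ) • (a * (z * r) - (z * r) * b) := by
      rw [hxz]
      simp only [smul_mul_assoc, mul_smul_comm, smul_sub]
    have g2 : a * x - x * b = (R : ℂ) • p := by
      rw [hxz, hp]
      simp only [smul_mul_assoc, mul_smul_comm, smul_sub]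
    have g3 : star a * x - x * star b = (R : ℂ) • q := by
      rw [hxz, hq]
      simp only [smul_mul_assoc, mul_smul_comm, smul_sub]
    rw [g1, g2, g3, map_smul, map_smul, map_smul, norm_smul, norm_smul, norm_smul, hRn]
    calc R * ‖T.ι (a * (z * r) - (z * r) * b)‖ ≤ R * (2 * ‖T.ι p‖ + ‖T.ι q‖) :=
          mul_le_mul_of_nonneg_left h7 hR.le
      _ = _ := by ring

end trunc

end Pool.Agent.AbCoc
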