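import Pool.Agent.Lib_MP_418a80_nm.Comm
import Pool.Agent.Lib_MP_418a80_nm.Disp1

/-!
# Displacement, part 2: twisted families and flat marginals
-/

set_option autoImplicit false
set_option linter.unusedVariables false
set_option linter.unusedSectionVars false

open Topology Filter MeasureTheory

namespace Pool.Agent.AbCoc

universe u v w

section dixmier
variable {A : Type u} [CStarAlgebra A] {K : Type v} [NormedAddCommGroup K]
  [InnerProductSpace ℂ K] [CompleteSpace K] (T : TrAlg A K)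

/-- conjugation by a unitary -/
def uConj (u : unitary A) : A →⋆ₐ[ℂ] A where
  toFun a := (u : A) * a * star (u : A)
  map_one' := by
    rw [mul_one]
    exact Unitary.mul_star_self_of_mem u.2
  map_mul' a b := by
    have h : star (u : A) * u = 1 := Unitary.coe_star_mul_self u
    calc (u : A) * (a * b) * star (u : A) = u * a * 1 * b * star (u : A) := by noncomm_ring
      _ = u * a * (star (u : A) * u) * b * star (u : A) := by rw [h]
      _ = _ := by noncomm_ring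
  map_zero' := by rw [mul_zero, zero_mul]
  map_add' a b := by rw [mul_add, add_mul]
  commutes' c := by
    rw [Algebra.algebraMap_eq_smul_one, mul_smul_comm, mul_one, smul_mul_assoc,
      Unitary.mul_star_self_of_mem u.2]
  map_star' a := by rw [star_mul, star_mul, star_star, mul_assoc]

theorem uConj_apply (u : unitary A) (a : A) : uConj u a = (u : A) * a * star (u : A) := rfl

/-- averages over the unitary group tend to the trace in the `2`-norm -/
theorem TrAlg.dixmier (hfac : ∀ x : A, (∀ y, x * y = y * x) → ∃ c : ℂ, x = c • (1 : A))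
    (a : A) (ε : ℝ) (hε : 0 < ε) :
    ∃ (F : Finset (unitary A)) (w : unitary A → ℝ), (∀ g, 0 ≤ w g) ∧ ∑ g ∈ F, w g = 1 ∧
      ‖(∑ g ∈ F, w g • T.ι ((g : A) * a * star (g : A))) - T.τ a • T.ι 1‖ < ε := by
  classical
  let _ : TopologicalSpace (unitary A) := ⊥
  let S : TrAct (unitary A) T :=
    { α := uConj
      one := fun a => by
        rw [uConj_apply, OneMemClass.coe_one, star_one, one_mul, mul_one]
      mul := fun g h a => by
        simp only [uConj_apply, Submonoid.coe_mul, star_mul]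
        noncomm_ring
      norm_map := fun g a => by
        rw [uConj_apply, T.norm_mul_unitary _ (by rw [star_star]; exact Unitary.coe_star_mul_self g),
          T.norm_unitary_mul _ (Unitary.coe_star_mul_self g)]
      cont := fun a => continuous_bot }
  have hU : ∀ g a, S.W.U g (T.ι a) = T.ι (uConj g a) := fun g a => S.U_ι g a
  obtain ⟨η, hη, hfix⟩ := S.W.exists_fixed (T.ι a)
  have key : ∀ ε : ℝ, 0 < ε → ∃ y : A, ‖y‖ ≤ ‖a‖ ∧ ‖T.ι y - η‖ < ε := by
    intro ε hε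
    obtain ⟨F, w, hw0, hw1, hd⟩ := S.W.exists_average (T.ι a) η hη ε hε
    refine ⟨∑ g ∈ F, (w g : ℂ) • uConj g a, ?_, ?_⟩
    · refine (norm_sum_le _ _).trans ?_
      have h1 : ∀ g ∈ F, ‖(w g : ℂ) • uConj g a‖ ≤ w g * ‖a‖ := by
        intro g _
        rw [norm_smul, Complex.norm_real, Real.norm_of_nonneg (hw0 g)]
        exact mul_le_mul_of_nonneg_left (NonUnitalStarAlgHom.norm_apply_le _ _) (hw0 g)
      refine (Finset.sum_le_sum h1).trans ?_
      rw [← Finset.sum_mul, hw1, one_mul]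
    · refine lt_of_eq_of_lt ?_ hd
      congr 2
      rw [map_sum]
      refine Finset.sum_congr rfl fun g _ => ?_
      rw [map_smul, hU]
      rfl
  choose y hy1 hy2 using fun n : ℕ => key (1 / ((n : ℝ) + 1)) (by positivity)
  have hlim : Tendsto (fun n => T.ι (y n)) atTop (𝓝 η) := by
    rw [tendsto_iff_norm_sub_tendsto_zero]
    exact squeeze_zero (fun n => norm_nonneg _) (fun n => (hy2 n).le)
      tendsto_one_div_add_atTop_nhds_zero_nat
  obtain ⟨b, hb⟩ := T.complete ‖a‖ y hy1 hlim.cauchySeq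
  have hηb : η = T.ι b := tendsto_nhds_unique hlim hb
  have hfixb : ∀ g : unitary A, uConj g b = b := by
    intro g
    have h1 := hfix g
    rw [hηb, hU] at h1
    exact T.inj h1
  have hcomm : ∀ g : unitary A, b * (g : A) = (g : A) * b := by
    intro g
    have h1 := hfixb g
    rw [uConj_apply] at h1
    calc b * (g : A) = ((g : A) * b * star (g : A)) * g := by rw [h1]
      _ = (g : A) * b * (star (g : A) * g) := by rw [mul_assoc]
      _ = (g : A) * b := by rw [Unitary.coe_star_mul_self, mul_one]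
  have hall : ∀ x, b * x = x * b := by
    intro x
    have hx : x ∈ Submodule.span ℂ (unitary A : Set A) := by
      rw [CStarAlgebra.span_unitary]
      exact Submodule.mem_top
    induction hx using Submodule.span_induction with
    | mem x hx => exact hcomm ⟨x, hx⟩
    | zero => rw [mul_zero, zero_mul]
    | add x y _ _ hx hy => rw [mul_add, add_mul, hx, hy]
    | smul c x _ hx => rw [mul_smul_comm, smul_mul_assoc, hx]
  obtain ⟨c, hc⟩ := hfac b hall
  have hτb : T.τ b = T.τ a := by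
    have h1 := S.W.inner_hull (T.ι a) η (T.ι 1) hη (fun g => by
      rw [hU, map_one])
    rw [hηb] at h1
    exact h1
  have hca : c = T.τ a := by
    rw [← hτb, hc, T.τ_smul, T.τ_one, mul_one]
  obtain ⟨F, w, hw0, hw1, hd⟩ := S.W.exists_average (T.ι a) η hη ε hε
  refine ⟨F, w, hw0, hw1, ?_⟩
  have h2 : T.τ a • T.ι 1 = η := by rw [hηb, hc, hca, map_smul]
  rw [h2]
  refine lt_of_eq_of_lt ?_ hd
  congr 2
  refine Finset.sum_congr rfl fun g _ => ?_
  rw [hU]
  rfl

end dixmier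

/-- a finite family of elements of `A`, indexed by elements of `G` -/
structure Tw (A : Type u) (G : Type w) where
  J : Type
  fin : Fintype J
  c : J → A
  g : J → G

attribute [instance] Tw.fin

section fam
variable {A : Type u} [CStarAlgebra A] {K : Type v} [NormedAddCommGroup K]
  [InnerProductSpace ℂ K] {T : TrAlg A K}
variable {G : Type w} [Group G] [TopologicalSpace G] (S : TrAct G T)

/-- the left marginal -/
noncomputable def Tw.left (X : Tw A G) : A := ∑ i, X.c i * star (X.c i)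

/-- the right marginal -/
noncomputable def TrAct.right (X : Tw A G) : A := ∑ i, S.α (X.g i)⁻¹ (star (X.c i) * X.c i)

/-- the mass -/
noncomputable def TrAlg.mass (T : TrAlg A K) (X : Tw A G) : ℝ := ∑ i, ‖T.ι (X.c i)‖ ^ 2

/-- the defect of intertwining -/
noncomputable def TrAct.defect (X : Tw A G) (u : A) : ℝ :=
  ∑ i, ‖T.ι (u * X.c i - X.c i * S.α (X.g i) u)‖ ^ 2

/-- admissible families -/
structure TrAct.Adm (V : Set G) (F : Finset A) (δ : ℝ) (X : Tw A G) : Prop where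
  mem : ∀ i, X.g i ∈ V
  left : ‖X.left‖ ≤ 1
  right : ‖S.right X‖ ≤ 1
  tw : ∀ u ∈ F, S.defect X u ≤ δ

variable {S}

theorem TrAct.Adm.mono {V : Set G} {F F' : Finset A} {δ δ' : ℝ} {X : Tw A G}
    (h : S.Adm V F δ X) (hF : F' ⊆ F) (hδ : δ ≤ δ') : S.Adm V F' δ' X :=
  ⟨h.mem, h.left, h.right, fun u hu => (h.tw u (hF hu)).trans hδ⟩

theorem mass_nonneg (X : Tw A G) : 0 ≤ T.mass X := Finset.sum_nonneg fun i _ => by positivity

theorem TrAlg.τ_sum {J : Type*} (s : Finset J) (f : J → A) :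
    T.τ (∑ i ∈ s, f i) = ∑ i ∈ s, T.τ (f i) := by
  unfold TrAlg.τ
  rw [map_sum, inner_sum]

theorem TrAlg.τ_self (a : A) : T.τ (star a * a) = ((‖T.ι a‖ ^ 2 : ℝ) : ℂ) := by
  rw [← T.inner_eq_τ, inner_self_eq_norm_sq_to_K]
  push_cast
  rfl

theorem τ_left (X : Tw A G) : T.τ X.left = (T.mass X : ℂ) := by
  unfold Tw.left TrAlg.mass
  rw [TrAlg.τ_sum]
  push_cast
  refine Finset.sum_congr rfl fun i _ => ?_
  rw [T.τ_mul_comm, TrAlg.τ_self]
  push_cast
  rfl

section
variable [CompleteSpace K]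
theorem TrAct.τ_α (S : TrAct G T) (g : G) (a : A) : T.τ (S.α g a) = T.τ a := by
  unfold TrAlg.τ
  have h := S.inner_map g 1 a
  rwa [map_one] at h

theorem τ_right (X : Tw A G) : T.τ (S.right X) = (T.mass X : ℂ) := by
  unfold TrAct.right TrAlg.mass
  rw [TrAlg.τ_sum]
  push_cast
  refine Finset.sum_congr rfl fun i _ => ?_
  rw [S.τ_α, TrAlg.τ_self]
  push_cast
  rfl
end

theorem TrAct.Adm.mass_le {V : Set G} {F : Finset A} {δ : ℝ} {X : Tw A G}
    (h : S.Adm V F δ X) : T.mass X ≤ 1 := by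
  have h1 : ‖(T.mass X : ℂ)‖ ≤ 1 := by
    rw [← τ_left]
    exact (T.norm_τ_le _).trans ((T.norm_le _).trans h.left)
  rw [Complex.norm_real, Real.norm_of_nonneg (mass_nonneg X)] at h1
  exact h1

/-- the adjoint family -/
noncomputable def TrAct.adj (S : TrAct G T) (X : Tw A G) : Tw A G where
  J := X.J
  fin := X.fin
  c := fun i => S.α (X.g i)⁻¹ (star (X.c i))
  g := fun i => (X.g i)⁻¹

theorem adj_left (X : Tw A G) : (S.adj X).left = S.right X := by
  unfold Tw.left TrAct.right TrAct.adj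
  refine Finset.sum_congr rfl fun i _ => ?_
  simp only
  rw [← map_star, star_star, ← map_mul]

theorem adj_mass (X : Tw A G) : T.mass (S.adj X) = T.mass X := by
  unfold TrAlg.mass TrAct.adj
  refine Finset.sum_congr rfl fun i _ => ?_
  simp only
  rw [S.norm_map, T.norm_star]

theorem adj_defect (X : Tw A G) (u : A) : S.defect (S.adj X) u = S.defect X (star u) := by
  unfold TrAct.defect TrAct.adj
  refine Finset.sum_congr rfl fun i _ => ?_
  simp only
  congr 1
  have h5 : u * S.α (X.g i)⁻¹ (star (X.c i)) - S.α (X.g i)⁻¹ (star (X.c i)) * S.α (X.g i)⁻¹ u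
      = -S.α (X.g i)⁻¹ (star (star u * X.c i - X.c i * S.α (X.g i) (star u))) := by
    simp only [star_sub, star_mul, star_star, map_sub, map_mul, map_star, S.inv_apply]
    abel
  rw [h5, map_neg, norm_neg, S.norm_map, T.norm_star]

/-- marginals of families with small defect are almost central -/
theorem left_central (X : Tw A G) (hl : ‖X.left‖ ≤ 1) (hm : T.mass X ≤ 1) (u : A) (hu : ‖u‖ ≤ 1)
    (δ : ℝ) (hδ : 0 ≤ δ) (h1 : S.defect X u ≤ δ ^ 2) (h2 : S.defect X (star u) ≤ δ ^ 2) :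
    ‖T.ι (u * X.left - X.left * u)‖ ^ 2 ≤ 4 * δ := by
  obtain ⟨Y, hY⟩ : ∃ Y : A, Y = u * X.left - X.left * u := ⟨_, rfl⟩
  have hYn : ‖Y‖ ≤ 2 := by
    rw [hY]
    refine (norm_sub_le _ _).trans ?_
    have e1 := norm_mul_le u X.left
    have e2 := norm_mul_le X.left u
    have e3 : ‖u‖ * ‖X.left‖ ≤ 1 := mul_le_one₀ hu (norm_nonneg _) hl
    have e4 : ‖X.left‖ * ‖u‖ ≤ 1 := mul_le_one₀ hl (norm_nonneg _) hu
    linarith
  have hYs : ‖star Y‖ ≤ 2 := by rwa [norm_star]
  obtain ⟨D, hD⟩ : ∃ D : X.J → A, D = fun i => u * X.c i - X.c i * S.α (X.g i) u := ⟨_, rfl⟩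
  obtain ⟨D', hD'⟩ : ∃ D' : X.J → A, D' = fun i => star u * X.c i - X.c i * S.α (X.g i) (star u) :=
    ⟨_, rfl⟩
  have hYsum : Y = ∑ i, (D i * star (X.c i) - X.c i * star (D' i)) := by
    rw [hY, Tw.left, Finset.mul_sum, Finset.sum_mul, ← Finset.sum_sub_distrib]
    refine Finset.sum_congr rfl fun i _ => ?_
    rw [hD, hD']
    simp only [star_sub, star_mul, star_star, map_star]
    noncomm_ring
  have hnorm : ‖T.ι Y‖ ^ 2 = ∑ i, ((inner ℂ (T.ι (Y * X.c i)) (T.ι (D i))).re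
      - (inner ℂ (T.ι (D' i)) (T.ι (star Y * X.c i))).re) := by
    rw [T.norm_sq]
    nth_rewrite 2 [hYsum]
    rw [Finset.mul_sum, TrAlg.τ_sum, Complex.re_sum]
    refine Finset.sum_congr rfl fun i _ => ?_
    rw [← Complex.sub_re, mul_sub, T.τ_sub, T.inner_eq_τ, T.inner_eq_τ]
    congr 2
    · rw [← mul_assoc, T.τ_mul_comm, star_mul, mul_assoc]
    · rw [← mul_assoc, T.τ_mul_comm]
  have hcs : ∀ (f : X.J → A), ∑ i, ‖T.ι (f i)‖ ^ 2 ≤ δ ^ 2 →
      ∑ i, ‖T.ι (X.c i)‖ * ‖T.ι (f i)‖ ≤ δ := by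
    intro f hf
    refine (Real.sum_mul_le_sqrt_mul_sqrt _ _ _).trans ?_
    have e1 : Real.sqrt (∑ i, ‖T.ι (X.c i)‖ ^ 2) ≤ 1 := Real.sqrt_le_one.2 hm
    have e2 : Real.sqrt (∑ i, ‖T.ι (f i)‖ ^ 2) ≤ δ := Real.sqrt_le_iff.2 ⟨hδ, hf⟩
    calc _ ≤ 1 * δ := mul_le_mul e1 e2 (Real.sqrt_nonneg _) zero_le_one
      _ = δ := one_mul δ
  have g1 := hcs D (by rw [hD]; exact h1)
  have g2 := hcs D' (by rw [hD']; exact h2)
  rw [← hY, hnorm]
  have g3 : ∀ i, (inner ℂ (T.ι (Y * X.c i)) (T.ι (D i))).re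
      - (inner ℂ (T.ι (D' i)) (T.ι (star Y * X.c i))).re
      ≤ 2 * (‖T.ι (X.c i)‖ * ‖T.ι (D i)‖) + 2 * (‖T.ι (X.c i)‖ * ‖T.ι (D' i)‖) := by
    intro i
    have f1 : (inner ℂ (T.ι (Y * X.c i)) (T.ι (D i))).re
        ≤ 2 * (‖T.ι (X.c i)‖ * ‖T.ι (D i)‖) := by
      refine (Complex.re_le_norm _).trans ((norm_inner_le_norm _ _).trans ?_)
      have := (T.mul_le Y (X.c i)).trans (mul_le_mul_of_nonneg_right hYn (norm_nonneg _))
      calc _ ≤ 2 * ‖T.ι (X.c i)‖ * ‖T.ι (D i)‖ := mul_le_mul_of_nonneg_right this (norm_nonneg _)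
        _ = _ := by ring
    have f2 : -(inner ℂ (T.ι (D' i)) (T.ι (star Y * X.c i))).re
        ≤ 2 * (‖T.ι (X.c i)‖ * ‖T.ι (D' i)‖) := by
      refine (neg_le_abs _).trans ((Complex.abs_re_le_norm _).trans
        ((norm_inner_le_norm _ _).trans ?_))
      have := (T.mul_le (star Y) (X.c i)).trans (mul_le_mul_of_nonneg_right hYs (norm_nonneg _))
      calc _ ≤ ‖T.ι (D' i)‖ * (2 * ‖T.ι (X.c i)‖) := mul_le_mul_of_nonneg_left this (norm_nonneg _)
        _ = _ := by ring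
    linarith
  refine (Finset.sum_le_sum fun i _ => g3 i).trans ?_
  rw [Finset.sum_add_distrib, ← Finset.mul_sum, ← Finset.mul_sum]
  linarith

/-- half of the union of two families -/
noncomputable def Tw.avg (X Y : Tw A G) : Tw A G where
  J := X.J ⊕ Y.J
  fin := inferInstance
  c := Sum.elim (fun i => ((Real.sqrt (1 / 2) : ℝ) : ℂ) • X.c i)
    (fun i => ((Real.sqrt (1 / 2) : ℝ) : ℂ) • Y.c i)
  g := Sum.elim X.g Y.g

theorem half_smul_mul_star (x : A) : (((Real.sqrt (1 / 2) : ℝ) : ℂ) • x)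
    * star (((Real.sqrt (1 / 2) : ℝ) : ℂ) • x) = (1 / 2 : ℂ) • (x * star x) := by
  rw [star_smul, smul_mul_smul_comm]
  congr 1
  rw [Complex.star_def, Complex.conj_ofReal, ← Complex.ofReal_mul,
    Real.mul_self_sqrt (by norm_num)]
  push_cast
  rfl

theorem half_star_smul_mul (x : A) : star (((Real.sqrt (1 / 2) : ℝ) : ℂ) • x)
    * (((Real.sqrt (1 / 2) : ℝ) : ℂ) • x) = (1 / 2 : ℂ) • (star x * x) := by
  rw [star_smul, smul_mul_smul_comm]
  congr 1
  rw [Complex.star_def, Complex.conj_ofReal, ← Complex.ofReal_mul,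
    Real.mul_self_sqrt (by norm_num)]
  push_cast
  rfl

theorem half_norm_sq (x : K) : ‖((Real.sqrt (1 / 2) : ℝ) : ℂ) • x‖ ^ 2 = 1 / 2 * ‖x‖ ^ 2 := by
  rw [norm_smul, mul_pow, Complex.norm_real, Real.norm_of_nonneg (Real.sqrt_nonneg _),
    Real.sq_sqrt (by norm_num)]

theorem avg_left (X Y : Tw A G) :
    (X.avg Y).left = (1 / 2 : ℂ) • X.left + (1 / 2 : ℂ) • Y.left := by
  unfold Tw.left Tw.avg
  rw [Fintype.sum_sum_type, Finset.smul_sum, Finset.smul_sum]
  simp only [Sum.elim_inl, Sum.elim_inr, half_smul_mul_star]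

theorem avg_right (X Y : Tw A G) :
    S.right (X.avg Y) = (1 / 2 : ℂ) • S.right X + (1 / 2 : ℂ) • S.right Y := by
  unfold TrAct.right Tw.avg
  rw [Fintype.sum_sum_type, Finset.smul_sum, Finset.smul_sum]
  simp only [Sum.elim_inl, Sum.elim_inr, half_star_smul_mul, map_smul]

theorem avg_mass (X Y : Tw A G) :
    T.mass (X.avg Y) = 1 / 2 * T.mass X + 1 / 2 * T.mass Y := by
  unfold TrAlg.mass Tw.avg
  rw [Fintype.sum_sum_type, Finset.mul_sum, Finset.mul_sum]
  simp only [Sum.elim_inl, Sum.elim_inr, map_smul, half_norm_sq]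

theorem avg_defect (X Y : Tw A G) (u : A) :
    S.defect (X.avg Y) u = 1 / 2 * S.defect X u + 1 / 2 * S.defect Y u := by
  unfold TrAct.defect Tw.avg
  rw [Fintype.sum_sum_type, Finset.mul_sum, Finset.mul_sum]
  simp only [Sum.elim_inl, Sum.elim_inr, mul_smul_comm, smul_mul_assoc, ← smul_sub, map_smul,
    half_norm_sq]

theorem norm_half_add_le {E : Type*} [NormedAddCommGroup E] [NormedSpace ℂ E] {x y : E}
    (hx : ‖x‖ ≤ 1) (hy : ‖y‖ ≤ 1) : ‖(1 / 2 : ℂ) • x + (1 / 2 : ℂ) • y‖ ≤ 1 := by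
  refine (norm_add_le _ _).trans ?_
  rw [norm_smul, norm_smul]
  have : ‖(1 / 2 : ℂ)‖ = 1 / 2 := by simp
  rw [this]
  linarith

theorem TrAct.Adm.avg {V : Set G} {F : Finset A} {δ : ℝ} {X Y : Tw A G}
    (hX : S.Adm V F δ X) (hY : S.Adm V F δ Y) : S.Adm V F δ (X.avg Y) := by
  refine ⟨?_, ?_, ?_, fun u hu => ?_⟩
  · rintro (i | i)
    · exact hX.mem i
    · exact hY.mem i
  · rw [avg_left]
    exact norm_half_add_le hX.left hY.left
  · rw [avg_right]
    exact norm_half_add_le hX.right hY.right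
  · rw [avg_defect]
    have h1 := hX.tw u hu
    have h2 := hY.tw u hu
    linarith

/-- the quantity which is minimised -/
noncomputable def TrAct.nn (S : TrAct G T) (X : Tw A G) : ℝ :=
  ‖T.ι X.left‖ ^ 2 + ‖T.ι (S.right X)‖ ^ 2

theorem half_parallelogram {E : Type*} [NormedAddCommGroup E] [InnerProductSpace ℂ E] (x y : E) :
    ‖x - y‖ ^ 2 = 2 * ‖x‖ ^ 2 + 2 * ‖y‖ ^ 2 - 4 * ‖(1 / 2 : ℂ) • x + (1 / 2 : ℂ) • y‖ ^ 2 := by
  have h := parallelogram_avg x y
  rw [← smul_add, norm_smul, mul_pow]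
  have : ‖(1 / 2 : ℂ)‖ = 1 / 2 := by simp
  rw [this]
  linarith

theorem nn_avg (X Y : Tw A G) : ‖T.ι (X.left - Y.left)‖ ^ 2
    + ‖T.ι (S.right X - S.right Y)‖ ^ 2
      = 2 * S.nn X + 2 * S.nn Y - 4 * S.nn (X.avg Y) := by
  unfold TrAct.nn
  rw [avg_left, avg_right]
  simp only [map_sub, map_add, map_smul]
  rw [half_parallelogram, half_parallelogram]
  ring

theorem TrAct.Adm.nn_le {V : Set G} {F : Finset A} {δ : ℝ} {X : Tw A G}
    (h : S.Adm V F δ X) : S.nn X ≤ 2 := by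
  unfold TrAct.nn
  have h1 := pow_le_one₀ (norm_nonneg _) ((T.norm_le _).trans h.left) (n := 2)
  have h2 := pow_le_one₀ (norm_nonneg _) ((T.norm_le _).trans h.right) (n := 2)
  linarith

/-- unitary averages of almost central elements -/
theorem near_scalar {a a' : A} {θ κ ε : ℝ} (F : Finset (unitary A)) (w : unitary A → ℝ)
    (hw0 : ∀ g, 0 ≤ w g) (hw1 : ∑ g ∈ F, w g = 1)
    (hd : ‖(∑ g ∈ F, w g • T.ι ((g : A) * a * star (g : A))) - T.τ a • T.ι 1‖ < ε)
    (h1 : ‖T.ι (a - a')‖ ≤ θ) (h2 : ∀ g ∈ F, ‖T.ι ((g : A) * a' - a' * (g : A))‖ ≤ κ) :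
    ‖T.ι a - T.τ a • T.ι 1‖ ≤ 2 * θ + κ + ε := by
  have key : ∀ g ∈ F, ‖T.ι ((g : A) * a * star (g : A)) - T.ι a‖ ≤ 2 * θ + κ := by
    intro g hg
    have hs : star (g : A) * g = 1 := Unitary.coe_star_mul_self g
    have hr : (g : A) * star (g : A) = 1 := Unitary.coe_mul_star_self g
    have e1 : (g : A) * a * star (g : A) - a = (g : A) * (a - a') * star (g : A)
        + (((g : A) * a' - a' * (g : A)) * star (g : A) - (a - a')) := by
      have : a' = a' * ((g : A) * star (g : A)) := by rw [hr, mul_one]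
      calc (g : A) * a * star (g : A) - a
          = (g : A) * (a - a') * star (g : A) + ((g : A) * a' * star (g : A)
            - a' * ((g : A) * star (g : A)) - (a - a' * ((g : A) * star (g : A)))) := by
              noncomm_ring
        _ = _ := by
              rw [hr, mul_one, sub_mul, mul_assoc a', hr, mul_one]
    rw [← map_sub, e1, map_add, map_sub]
    have e2 : ‖T.ι ((g : A) * (a - a') * star (g : A))‖ = ‖T.ι (a - a')‖ := by
      rw [T.norm_mul_unitary _ (by rw [star_star]; exact hs), T.norm_unitary_mul _ hs]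
    have e3 : ‖T.ι (((g : A) * a' - a' * (g : A)) * star (g : A))‖
        = ‖T.ι ((g : A) * a' - a' * (g : A))‖ :=
      T.norm_mul_unitary _ (by rw [star_star]; exact hs) _
    refine (norm_add_le _ _).trans ?_
    have e4 := norm_sub_le (T.ι (((g : A) * a' - a' * (g : A)) * star (g : A))) (T.ι (a - a'))
    rw [e3] at e4
    rw [e2]
    have := h2 g hg
    linarith
  have h3 : T.ι a - T.τ a • T.ι 1
      = ((∑ g ∈ F, w g • T.ι ((g : A) * a * star (g : A))) - T.τ a • T.ι 1)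
        - ∑ g ∈ F, w g • (T.ι ((g : A) * a * star (g : A)) - T.ι a) := by
    simp only [smul_sub]
    rw [Finset.sum_sub_distrib, ← Finset.sum_smul, hw1, one_smul]
    abel
  rw [h3]
  refine (norm_sub_le _ _).trans ?_
  have h4 : ‖∑ g ∈ F, w g • (T.ι ((g : A) * a * star (g : A)) - T.ι a)‖ ≤ 2 * θ + κ := by
    refine (norm_sum_le _ _).trans ?_
    calc ∑ g ∈ F, ‖w g • (T.ι ((g : A) * a * star (g : A)) - T.ι a)‖
        ≤ ∑ g ∈ F, w g * (2 * θ + κ) := by
          refine Finset.sum_le_sum fun g hg => ?_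
          rw [norm_smul, Real.norm_of_nonneg (hw0 g)]
          exact mul_le_mul_of_nonneg_left (key g hg) (hw0 g)
      _ = 2 * θ + κ := by rw [← Finset.sum_mul, hw1, one_mul]
  linarith

variable [CompleteSpace K]

/-- if families of mass at least `ε` exist, then there are such families with flat marginals -/
theorem TrAct.exists_flat (hfac : ∀ x : A, (∀ y, x * y = y * x) → ∃ c : ℂ, x = c • (1 : A))
    (V : Set G) (ε : ℝ)
    (hbad : ∀ (F : Finset A) (δ : ℝ), 0 < δ → ∃ X : Tw A G, S.Adm V F δ X ∧ ε ≤ T.mass X)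
    (η : ℝ) (hη : 0 < η) (F : Finset A) (δ : ℝ) (hδ : 0 < δ) :
    ∃ X : Tw A G, S.Adm V F δ X ∧ ε ≤ T.mass X ∧ ‖T.ι X.left‖ ≤ T.mass X + η ∧
      ‖T.ι (S.right X)‖ ≤ T.mass X + η := by
  classical
  obtain ⟨Q, hQ⟩ : ∃ Q : Set ℝ, Q = {r | ∃ (F0 : Finset A) (δ0 : ℝ), 0 < δ0 ∧
    ∀ X : Tw A G, S.Adm V F0 δ0 X → ε ≤ T.mass X → r ≤ S.nn X} := ⟨_, rfl⟩
  have hQ0 : (0 : ℝ) ∈ Q := by
    rw [hQ]
    refine ⟨∅, 1, one_pos, fun X _ _ => ?_⟩
    unfold TrAct.nn
    positivity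
  have hQb : BddAbove Q := by
    refine ⟨2, ?_⟩
    rw [hQ]
    rintro r ⟨F0, δ0, h0, h⟩
    obtain ⟨X, hX, hXm⟩ := hbad F0 δ0 h0
    exact (h X hX hXm).trans hX.nn_le
  obtain ⟨θ, hθ⟩ : ∃ θ : ℝ, θ = (η / 6) ^ 2 / 8 := ⟨_, rfl⟩
  have hθ0 : 0 < θ := by rw [hθ]; positivity
  obtain ⟨R, hR⟩ : ∃ R : ℝ, R = sSup Q := ⟨_, rfl⟩
  obtain ⟨r, hrQ, hr⟩ := exists_lt_of_lt_csSup ⟨0, hQ0⟩ (show R - θ < sSup Q by rw [← hR]; linarith)
  rw [hQ] at hrQ
  obtain ⟨F0, δ0, hδ0, hF0⟩ := hrQ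
  have hmin : ∀ (F : Finset A) (δ : ℝ), 0 < δ → ∃ X : Tw A G, S.Adm V F δ X ∧ ε ≤ T.mass X ∧
      S.nn X < R + θ := by
    intro F δ hδ
    by_contra hcon
    push Not at hcon
    have h1 : R + θ ∈ Q := by
      rw [hQ]
      exact ⟨F, δ, hδ, hcon⟩
    have h2 := le_csSup hQb h1
    rw [← hR] at h2
    linarith
  obtain ⟨X1, hX1, hX1m, hX1n⟩ := hmin (F0 ∪ F) (min δ0 δ) (lt_min hδ0 hδ)
  obtain ⟨U1, w1, hw10, hw11, hd1⟩ := T.dixmier hfac X1.left (η / 3) (by positivity)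
  obtain ⟨U2, w2, hw20, hw21, hd2⟩ := T.dixmier hfac (S.right X1) (η / 3) (by positivity)
  obtain ⟨κ, hκ⟩ : ∃ κ : ℝ, κ = (η / 3) ^ 2 / 4 := ⟨_, rfl⟩
  have hκ0 : 0 < κ := by rw [hκ]; positivity
  obtain ⟨F2, hF2⟩ : ∃ F2 : Finset A, F2 = F0 ∪
      ((U1 ∪ U2).image (fun g : unitary A => (g : A))
      ∪ (U1 ∪ U2).image (fun g : unitary A => star (g : A))) := ⟨_, rfl⟩
  obtain ⟨X2, hX2, hX2m, hX2n⟩ := hmin F2 (min δ0 (κ ^ 2)) (lt_min hδ0 (by positivity))
  have havg := hF0 (X1.avg X2)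
    ((hX1.mono Finset.subset_union_left (min_le_left _ _)).avg
      (hX2.mono (by rw [hF2]; exact Finset.subset_union_left) (min_le_left _ _)))
    (by rw [avg_mass]; linarith)
  have hnear := nn_avg (S := S) X1 X2
  have h8 : 8 * θ = (η / 6) ^ 2 := by rw [hθ]; ring
  have hl : ‖T.ι (X1.left - X2.left)‖ ≤ η / 6 := by
    have h1 : ‖T.ι (X1.left - X2.left)‖ ^ 2 ≤ (η / 6) ^ 2 := by
      have : 0 ≤ ‖T.ι (S.right X1 - S.right X2)‖ ^ 2 := by positivity
      linarith
    exact (pow_le_pow_iff_left₀ (norm_nonneg _) (by positivity) two_ne_zero).1 h1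
  have hrr : ‖T.ι (S.right X1 - S.right X2)‖ ≤ η / 6 := by
    have h1 : ‖T.ι (S.right X1 - S.right X2)‖ ^ 2 ≤ (η / 6) ^ 2 := by
      have : 0 ≤ ‖T.ι (X1.left - X2.left)‖ ^ 2 := by positivity
      linarith
    exact (pow_le_pow_iff_left₀ (norm_nonneg _) (by positivity) two_ne_zero).1 h1
  have hun : ∀ g : unitary A, ‖(g : A)‖ ≤ 1 := by
    intro g
    have h2 : ‖(g : A)‖ * ‖(g : A)‖ ≤ 1 := by
      rw [← CStarRing.norm_star_mul_self, Unitary.coe_star_mul_self]
      rcases subsingleton_or_nontrivial A with h | h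
      · rw [Subsingleton.elim (1 : A) 0, norm_zero]; norm_num
      · rw [CStarRing.norm_one]
    nlinarith [norm_nonneg (g : A)]
  have hdef : ∀ g ∈ U1 ∪ U2, S.defect X2 (g : A) ≤ κ ^ 2 ∧ S.defect X2 (star (g : A)) ≤ κ ^ 2 := by
    intro g hg
    constructor
    · refine (hX2.tw _ ?_).trans (min_le_right _ _)
      rw [hF2]
      exact Finset.mem_union_right _ (Finset.mem_union_left _ (Finset.mem_image_of_mem
        (fun g : unitary A => (g : A)) hg))
    · refine (hX2.tw _ ?_).trans (min_le_right _ _)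
      rw [hF2]
      exact Finset.mem_union_right _ (Finset.mem_union_right _
        (Finset.mem_image_of_mem (fun g : unitary A => star (g : A)) hg))
  have h4κ : 4 * κ = (η / 3) ^ 2 := by rw [hκ]; ring
  have hc1 : ∀ g ∈ U1, ‖T.ι ((g : A) * X2.left - X2.left * (g : A))‖ ≤ η / 3 := by
    intro g hg
    obtain ⟨d1, d2⟩ := hdef g (Finset.mem_union_left _ hg)
    have h1 := left_central (S := S) X2 hX2.left hX2.mass_le (g : A) (hun g) κ hκ0.le d1 d2
    rw [h4κ] at h1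
    exact (pow_le_pow_iff_left₀ (norm_nonneg _) (by positivity) two_ne_zero).1 h1
  have hc2 : ∀ g ∈ U2, ‖T.ι ((g : A) * S.right X2 - S.right X2 * (g : A))‖ ≤ η / 3 := by
    intro g hg
    obtain ⟨d1, d2⟩ := hdef g (Finset.mem_union_right _ hg)
    have h1 := left_central (S := S) (S.adj X2) (by rw [adj_left]; exact hX2.right)
      (by rw [adj_mass]; exact hX2.mass_le) (g : A) (hun g) κ hκ0.le
      (by rw [adj_defect]; exact d2) (by rw [adj_defect, star_star]; exact d1)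
    rw [h4κ, adj_left] at h1
    exact (pow_le_pow_iff_left₀ (norm_nonneg _) (by positivity) two_ne_zero).1 h1
  refine ⟨X1, hX1.mono Finset.subset_union_right (min_le_right _ _), hX1m, ?_, ?_⟩
  · have h1 := near_scalar (T := T) U1 w1 hw10 hw11 hd1 hl hc1
    rw [τ_left] at h1
    have h2 : T.ι X1.left = (T.ι X1.left - (T.mass X1 : ℂ) • T.ι 1) + (T.mass X1 : ℂ) • T.ι 1 := by
      rw [sub_add_cancel]
    rw [h2]
    refine (norm_add_le _ _).trans ?_
    have h3 : ‖(T.mass X1 : ℂ) • T.ι 1‖ = T.mass X1 := by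
      rw [norm_smul, T.norm_one, mul_one, Complex.norm_real,
        Real.norm_of_nonneg (mass_nonneg X1)]
    rw [h3]
    linarith
  · have h1 := near_scalar (T := T) U2 w2 hw20 hw21 hd2 hrr hc2
    rw [τ_right] at h1
    have h2 : T.ι (S.right X1) = (T.ι (S.right X1) - (T.mass X1 : ℂ) • T.ι 1)
        + (T.mass X1 : ℂ) • T.ι 1 := by
      rw [sub_add_cancel]
    rw [h2]
    refine (norm_add_le _ _).trans ?_
    have h3 : ‖(T.mass X1 : ℂ) • T.ι 1‖ = T.mass X1 := by
      rw [norm_smul, T.norm_one, mul_one, Complex.norm_real,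
        Real.norm_of_nonneg (mass_nonneg X1)]
    rw [h3]
    linarith

end fam

end Pool.Agent.AbCoc
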