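import Pool.Agent.Lib_MP_418a80_nm.Disp2
import Pool.Agent.Lib_MP_418a80_oe.OE5

/-!
# Displacement, part 3: untwisting
-/

set_option autoImplicit false
set_option linter.unusedVariables false
set_option linter.unusedSectionVars false

open Topology Filter MeasureTheory
open scoped Pointwise

namespace Pool.Agent.AbCoc

universe u v w

section untwist
variable {A : Type u} [CStarAlgebra A] {K : Type v} [NormedAddCommGroup K]
  [InnerProductSpace ℂ K] [CompleteSpace K] {T : TrAlg A K}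
variable {G : Type w} [Group G] [TopologicalSpace G] [IsTopologicalGroup G]
  [SecondCountableTopology G] [LocallyCompactSpace G] [T2Space G] [MeasurableSpace G]
  [BorelSpace G] (μ : Measure G) [μ.IsHaarMeasure] (S : TrAct G T)

theorem TrAct.inv_cont (a : A) : Continuous fun w : G => T.ι (S.α w⁻¹ a) :=
  (S.cont a).comp continuous_inv

theorem TrAct.inv_integrableOn {E : Set G} (hE : μ E ≠ ⊤) (a : A) :
    IntegrableOn (fun w : G => T.ι (S.α w⁻¹ a)) E μ := by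
  refine Measure.integrableOn_of_bounded (M := ‖T.ι a‖) hE
    (S.inv_cont a).aestronglyMeasurable (Filter.Eventually.of_forall fun w => ?_)
  rw [S.norm_map]

/-- the real part of the inner product commutes with the integral -/
theorem re_inner_integral {X : Type*} [MeasurableSpace X] {ν : Measure X} {f : X → K}
    (hf : Integrable f ν) (η : K) :
    (inner ℂ η (∫ x, f x ∂ν)).re = ∫ x, (inner ℂ η (f x)).re ∂ν := by
  let L : K →L[ℝ] ℝ := Complex.reCLM.comp ((innerSL ℂ η).restrictScalars ℝ)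
  have h := L.integral_comp_comm hf
  exact h.symm

theorem TrAct.re_inner_nonneg {E E' : Set G} (hE : μ E ≠ ⊤) (hE' : μ E' ≠ ⊤) {r r' : A}
    (hr : ∀ y : A, 0 ≤ (T.τ (star y * r * y)).re) (hr' : ∃ z : A, r' = star z * z) :
    0 ≤ (inner ℂ (∫ w in E, T.ι (S.α w⁻¹ r) ∂μ) (∫ w in E', T.ι (S.α w⁻¹ r') ∂μ)).re := by
  obtain ⟨z, rfl⟩ := hr'
  rw [re_inner_integral (S.inv_integrableOn μ hE' _)]
  refine integral_nonneg fun w' => ?_
  simp only [Pi.zero_apply]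
  rw [← inner_conj_symm, Complex.conj_re, re_inner_integral (S.inv_integrableOn μ hE _)]
  refine integral_nonneg fun w => ?_
  simp only [Pi.zero_apply]
  -- `⟨α(z* z), α(r)⟩ = τ(α(z)* α'(r) ...)`
  have h1 : inner ℂ (T.ι (S.α w'⁻¹ (star z * z))) (T.ι (S.α w⁻¹ r))
      = inner ℂ (T.ι (S.α (w * w'⁻¹) (star z * z))) (T.ι r) := by
    rw [← S.inner_map w, ← S.mul, ← S.mul, mul_inv_cancel, S.one]
  rw [h1, T.inner_eq_τ]
  have h2 : T.τ (star (S.α (w * w'⁻¹) (star z * z)) * r)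
      = T.τ (star (star (S.α (w * w'⁻¹) z)) * r * star (S.α (w * w'⁻¹) z)) := by
    rw [map_mul, map_star, star_mul, star_star, mul_assoc, T.τ_mul_comm]
  rw [h2]
  exact hr _

/-- the untwisting estimate -/
theorem TrAct.untwist_bound (X : Tw A G) {W O : Set G} (hW : MeasurableSet W)
    (hWt : μ W ≠ ⊤) (hO : MeasurableSet O) (hOt : μ O ≠ ⊤)
    (h : ∀ i, ∀ w : G, X.g i * w ∈ W → w ∈ O) :
    ‖∫ z in W, T.ι (S.α z⁻¹ (∑ i, star (X.c i) * X.c i)) ∂μ‖
      ≤ (μ O).toReal * ‖T.ι (S.right X)‖ := by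
  classical
  obtain ⟨r, hr⟩ : ∃ r : X.J → A, r = fun i => S.α (X.g i)⁻¹ (star (X.c i) * X.c i) := ⟨_, rfl⟩
  have hrz : ∀ i, ∃ z : A, r i = star z * z := fun i =>
    ⟨S.α (X.g i)⁻¹ (X.c i), by rw [hr]; simp only [map_mul, map_star]⟩
  have hrp : ∀ i (y : A), 0 ≤ (T.τ (star y * r i * y)).re := by
    intro i y
    obtain ⟨z, hz⟩ := hrz i
    have : star y * r i * y = star (z * y) * (z * y) := by
      rw [hz, star_mul]; simp only [mul_assoc]
    rw [this, ← T.norm_sq]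
    positivity
  obtain ⟨E, hE⟩ : ∃ E : X.J → Set G, E = fun i => {w | X.g i * w ∈ W} := ⟨_, rfl⟩
  have hEm : ∀ i, MeasurableSet (E i) := fun i => by
    rw [hE]
    exact (measurable_const_mul (X.g i)) hW
  have hEO : ∀ i, E i ⊆ O := fun i w hw => h i w (by rw [hE] at hw; exact hw)
  have hEt : ∀ i, μ (E i) ≠ ⊤ := fun i => ((measure_mono (hEO i)).trans_lt
    (lt_top_iff_ne_top.2 hOt)).ne
  have hDt : ∀ i, μ (O \ E i) ≠ ⊤ := fun i => ((measure_mono Set.sdiff_subset).trans_lt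
    (lt_top_iff_ne_top.2 hOt)).ne
  -- substitution
  have h1 : ∀ i, ∫ z in W, T.ι (S.α z⁻¹ (star (X.c i) * X.c i)) ∂μ
      = ∫ w in E i, T.ι (S.α w⁻¹ (r i)) ∂μ := by
    intro i
    rw [← integral_indicator hW, ← integral_indicator (hEm i)]
    rw [← integral_mul_left_eq_self (μ := μ)
      (fun z => W.indicator (fun z => T.ι (S.α z⁻¹ (star (X.c i) * X.c i))) z) (X.g i)]
    refine integral_congr_ae (Filter.Eventually.of_forall fun w => ?_)
    simp only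
    by_cases hw : X.g i * w ∈ W
    · rw [Set.indicator_of_mem hw, Set.indicator_of_mem (by rw [hE]; exact hw), hr, mul_inv_rev,
        S.mul]
    · rw [Set.indicator_of_notMem hw, Set.indicator_of_notMem (by rw [hE]; exact hw)]
  have h2 : ∫ z in W, T.ι (S.α z⁻¹ (∑ i, star (X.c i) * X.c i)) ∂μ
      = ∑ i, ∫ w in E i, T.ι (S.α w⁻¹ (r i)) ∂μ := by
    simp only [map_sum]
    rw [integral_finsetSum _ fun i _ => S.inv_integrableOn μ hWt _]
    exact Finset.sum_congr rfl fun i _ => h1 i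
  have h3 : ∫ w in O, T.ι (S.α w⁻¹ (S.right X)) ∂μ
      = ∑ i, ∫ w in E i, T.ι (S.α w⁻¹ (r i)) ∂μ
        + ∑ i, ∫ w in O \ E i, T.ι (S.α w⁻¹ (r i)) ∂μ := by
    have e1 : S.right X = ∑ i, r i := by rw [hr]; rfl
    rw [e1]
    simp only [map_sum]
    rw [integral_finsetSum _ fun i _ => S.inv_integrableOn μ hOt _, ← Finset.sum_add_distrib]
    refine Finset.sum_congr rfl fun i _ => ?_
    have := setIntegral_sdiff (hEm i) (S.inv_integrableOn μ hOt (r i)) (hEO i)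
    rw [this]
    abel
  obtain ⟨R, hR⟩ : ∃ R : K, R = ∑ i, ∫ w in E i, T.ι (S.α w⁻¹ (r i)) ∂μ := ⟨_, rfl⟩
  obtain ⟨D, hD⟩ : ∃ D : K, D = ∑ i, ∫ w in O \ E i, T.ι (S.α w⁻¹ (r i)) ∂μ := ⟨_, rfl⟩
  have h4 : 0 ≤ (inner ℂ R D).re := by
    rw [hR, hD, sum_inner, Complex.re_sum]
    refine Finset.sum_nonneg fun i _ => ?_
    rw [inner_sum, Complex.re_sum]
    exact Finset.sum_nonneg fun j _ => S.re_inner_nonneg μ (hEt i) (hDt j) (hrp i) (hrz j)
  have h5 : ‖R‖ ≤ ‖R + D‖ := by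
    have e1 := @norm_add_sq ℂ _ _ _ _ R D
    simp only [RCLike.re_to_complex] at e1
    have e2 : ‖R‖ ^ 2 ≤ ‖R + D‖ ^ 2 := by
      have : 0 ≤ ‖D‖ ^ 2 := by positivity
      linarith
    exact (pow_le_pow_iff_left₀ (norm_nonneg _) (norm_nonneg _) two_ne_zero).1 e2
  rw [h2, ← hR]
  refine h5.trans ?_
  rw [hR, hD, ← h3]
  have h6 : ‖∫ w in O, T.ι (S.α w⁻¹ (S.right X)) ∂μ‖ ≤ ‖T.ι (S.right X)‖ * (μ O).toReal := by
    refine norm_setIntegral_le_of_norm_le_const (lt_top_iff_ne_top.2 hOt) fun w _ => ?_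
    rw [S.norm_map]
  rw [mul_comm]
  exact h6

/-- finite convex combinations close to averages over `W` -/
theorem TrAct.exists_sample (a : A) {W : Set G} (hW : μ W ≠ 0) (hWt : μ W ≠ ⊤)
    (hWm : MeasurableSet W) (ε : ℝ) (hε : 0 < ε) :
    ∃ (L : Type) (_ : Fintype L) (p : L → ℝ) (z : L → G), (∀ k, 0 ≤ p k) ∧ ∑ k, p k = 1 ∧
      (∀ k, z k ∈ W) ∧ ‖∑ k, p k • T.ι (S.α (z k)⁻¹ a)‖
        ≤ (μ W).toReal⁻¹ * ‖∫ z in W, T.ι (S.α z⁻¹ a) ∂μ‖ + ε := by
  have h1 : (⨍ z in W, T.ι (S.α z⁻¹ a) ∂μ) ∈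
      closure (convexHull ℝ ((fun z => T.ι (S.α z⁻¹ a)) '' W)) := by
    refine (convex_convexHull ℝ _).set_average_mem_closure hW hWt ?_
      (S.inv_integrableOn μ hWt a)
    rw [ae_restrict_iff' hWm]
    exact Filter.Eventually.of_forall fun z hz => subset_convexHull ℝ _ ⟨z, hz, rfl⟩
  obtain ⟨y, hy, hd⟩ := Metric.mem_closure_iff.1 h1 ε hε
  obtain ⟨L, hL, p, ζ, hp0, hp1, hζ, hyζ⟩ := mem_convexHull_iff_exists_fintype.1 hy
  choose z hzW hz using hζ
  refine ⟨L, hL, p, z, hp0, hp1, hzW, ?_⟩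
  have h2 : ∑ k, p k • T.ι (S.α (z k)⁻¹ a) = y := by
    rw [← hyζ]
    exact Finset.sum_congr rfl fun k _ => by rw [← hz k]
  have h3 : ‖⨍ z in W, T.ι (S.α z⁻¹ a) ∂μ‖
      = (μ W).toReal⁻¹ * ‖∫ z in W, T.ι (S.α z⁻¹ a) ∂μ‖ := by
    rw [setAverage_eq, norm_smul, norm_inv, Real.norm_of_nonneg (measureReal_nonneg)]
    rfl
  rw [h2, ← h3]
  have h4 : ‖y‖ ≤ ‖⨍ z in W, T.ι (S.α z⁻¹ a) ∂μ‖ + ‖y - ⨍ z in W, T.ι (S.α z⁻¹ a) ∂μ‖ := by
    have := norm_add_le (⨍ z in W, T.ι (S.α z⁻¹ a) ∂μ) (y - ⨍ z in W, T.ι (S.α z⁻¹ a) ∂μ)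
    rwa [add_sub_cancel] at this
  rw [dist_eq_norm, norm_sub_rev] at hd
  linarith

/-- smooth elements are dense -/
theorem TrAct.exists_smooth_near (a : A) (ε : ℝ) (hε : 0 < ε) :
    ∃ b : A, (Continuous fun g => S.α g b) ∧ ‖T.ι (a - b)‖ ≤ ε := by
  let _ : PartialOrder A := CStarAlgebra.spectralOrder A
  have : StarOrderedRing A := CStarAlgebra.spectralOrderedRing A
  obtain ⟨x, hx0, hxn, hx⟩ := CStarAlgebra.exists_sum_four_nonneg a
  choose h h0 h1 h2 h3 h4 using fun i : Fin 4 =>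
    S.exists_smooth (Measure.haar : Measure G) (hx0 i) (ε := ε / 4) (by positivity)
  refine ⟨∑ i : Fin 4, Complex.I ^ (i : ℕ) • h i, ?_, ?_⟩
  · simp only [map_sum, map_smul]
    exact continuous_finsetSum _ fun i _ => (h3 i).const_smul _
  · rw [hx, ← Finset.sum_sub_distrib, map_sum]
    refine (norm_sum_le _ _).trans ?_
    calc ∑ i : Fin 4, ‖T.ι (Complex.I ^ (i : ℕ) • x i - Complex.I ^ (i : ℕ) • h i)‖
        ≤ ∑ i : Fin 4, ε / 4 := by
          refine Finset.sum_le_sum fun i _ => ?_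
          rw [← smul_sub, map_smul, norm_smul, norm_pow, Complex.norm_I, one_pow, one_mul,
            map_sub, norm_sub_rev]
          exact h2 i
      _ = ε := by
          rw [Finset.sum_const, Finset.card_univ, Fintype.card_fin, nsmul_eq_mul]
          push_cast
          ring

end untwist

end Pool.Agent.AbCoc
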