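import Pool.Agent.Lib_MP_418a80_nm.Disp3

/-!
# Displacement, part 4: families displaced by elements without twists have small mass
-/

set_option autoImplicit false
set_option linter.unusedVariables false
set_option linter.unusedSectionVars false

open Topology Filter MeasureTheory
open scoped Pointwise

namespace Pool.Agent.AbCoc

universe u v w

section disp
variable {A : Type u} [CStarAlgebra A] {K : Type v} [NormedAddCommGroup K]
  [InnerProductSpace ℂ K] [CompleteSpace K] {T : TrAlg A K}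
variable {G : Type w} [Group G] [TopologicalSpace G] [IsTopologicalGroup G]
  [SecondCountableTopology G] [LocallyCompactSpace G] [T2Space G] [MeasurableSpace G]
  [BorelSpace G] (S : TrAct G T)

/-- the intertwining defect as a linear map -/
noncomputable def TrAct.dmap (g : G) (u : A) : A →ₗ[ℂ] K :=
  (T.ι : A →ₗ[ℂ] K).comp (LinearMap.mulLeft ℂ u - LinearMap.mulRight ℂ (S.α g u))

theorem TrAct.dmap_apply (g : G) (u x : A) :
    S.dmap g u x = T.ι (u * x - x * S.α g u) := rfl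

/-- a bounded almost intertwiner from a family with bounded marginals -/
theorem TrAct.exists_element (g0 : G) {J : Type} [Fintype J] (c : J → A)
    (hl : ‖T.ι (∑ i, c i * star (c i))‖ ≤ 2) (hr : ‖T.ι (∑ i, star (c i) * c i)‖ ≤ 5)
    (hm : ∑ i, ‖T.ι (c i)‖ ^ 2 = 1) (F : Finset A) (hF : ∀ u ∈ F, star u ∈ F) (κ : ℝ)
    (hκ : 0 < κ) (hd : ∑ u : {u // u ∈ F}, ∑ i, ‖T.ι (u.1 * c i - c i * S.α g0 u.1)‖ ^ 2 ≤ κ) :
    ∃ y : A, ‖y‖ ≤ 528 ∧ 1 / 4 ≤ ‖T.ι y‖ ∧
      ∀ u ∈ F, ‖T.ι (u * y - y * S.α g0 u)‖ ≤ 3 * Real.sqrt (528 * κ) := by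
  obtain ⟨x, hx⟩ := T.exists_signs c (U := {u // u ∈ F}) (fun u => S.dmap g0 u.1) (1 / 132)
    (1 / (4 * κ)) (by norm_num) (by positivity)
  simp only [S.dmap_apply] at hx
  rw [hm] at hx
  have h1 : ‖T.ι (∑ i, star (c i) * c i)‖ ^ 2 + 2 * ‖T.ι (∑ i, c i * star (c i))‖ ^ 2 ≤ 33 := by
    have e1 := pow_le_pow_left₀ (norm_nonneg _) hl 2
    have e2 := pow_le_pow_left₀ (norm_nonneg _) hr 2
    linarith
  have h2 : 1 / (4 * κ) * ∑ u : {u // u ∈ F}, ∑ i, ‖T.ι (u.1 * c i - c i * S.α g0 u.1)‖ ^ 2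
      ≤ 1 / 4 := by
    calc _ ≤ 1 / (4 * κ) * κ := mul_le_mul_of_nonneg_left hd (by positivity)
      _ = 1 / 4 := by field_simp
  obtain ⟨N, hN⟩ : ∃ N : ℝ, N = ‖T.ι (star x * x)‖ := ⟨_, rfl⟩
  obtain ⟨D, hD⟩ : ∃ D : ℝ, D = ∑ u : {u // u ∈ F}, ‖T.ι (u.1 * x - x * S.α g0 u.1)‖ ^ 2 :=
    ⟨_, rfl⟩
  rw [← hN, ← hD] at hx
  have hN0 : 0 ≤ N := by rw [hN]; positivity
  have hD0 : 0 ≤ D := by rw [hD]; exact Finset.sum_nonneg fun _ _ => by positivity
  have hqD : 0 ≤ 1 / (4 * κ) * D := by positivity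
  have h3 : 1 / 2 + 1 / 132 * N ^ 2 + 1 / (4 * κ) * D ≤ ‖T.ι x‖ ^ 2 := by linarith
  have h4 : ‖T.ι x‖ ^ 2 ≤ N := by
    rw [T.norm_sq, hN]
    exact (Complex.re_le_norm _).trans (T.norm_τ_le _)
  have h5 : N ≤ 132 := by nlinarith
  have h6 : D ≤ 528 * κ := by
    have e1 : 1 / (4 * κ) * D ≤ 132 := by nlinarith
    have e2 : D = 4 * κ * (1 / (4 * κ) * D) := by field_simp
    rw [e2]
    calc 4 * κ * (1 / (4 * κ) * D) ≤ 4 * κ * 132 := mul_le_mul_of_nonneg_left e1 (by positivity)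
      _ = 528 * κ := by ring
  obtain ⟨y, hy1, hy2, hy3⟩ := T.exists_trunc x 528 (by norm_num)
  refine ⟨y, hy1, ?_, fun u hu => ?_⟩
  · have e1 : ‖T.ι (x - y)‖ ≤ 1 / 4 := by
      refine hy2.trans ?_
      rw [← hN, div_le_iff₀ (by norm_num)]
      linarith
    have e2 : (1 / 2 : ℝ) ≤ ‖T.ι x‖ := by
      have : (1 / 2 : ℝ) ≤ ‖T.ι x‖ ^ 2 := by
        have : 0 ≤ 1 / 132 * N ^ 2 := by positivity
        linarith
      nlinarith [norm_nonneg (T.ι x)]
    have e3 : ‖T.ι x‖ ≤ ‖T.ι (x - y)‖ + ‖T.ι y‖ := by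
      have := norm_add_le (T.ι (x - y)) (T.ι y)
      rwa [← map_add, sub_add_cancel] at this
    linarith
  · have key : ∀ v ∈ F, ‖T.ι (v * x - x * S.α g0 v)‖ ≤ Real.sqrt (528 * κ) := by
      intro v hv
      apply Real.le_sqrt_of_sq_le
      refine le_trans ?_ h6
      rw [hD]
      exact Finset.single_le_sum (f := fun u : {u // u ∈ F} =>
        ‖T.ι (u.1 * x - x * S.α g0 u.1)‖ ^ 2) (fun _ _ => by positivity)
        (Finset.mem_univ (⟨v, hv⟩ : {u // u ∈ F}))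
    have e1 := hy3 u (S.α g0 u)
    have e2 := key u hu
    have e3 := key (star u) (hF u hu)
    rw [map_star] at e3
    linarith

/-- the combined family -/
theorem TrAct.hasTwist_of_bad
    (hfac : ∀ x : A, (∀ y, x * y = y * x) → ∃ c : ℂ, x = c • (1 : A)) (g0 : G)
    (hbad : ∀ V ∈ 𝓝 g0, ∃ ε : ℝ, 0 < ε ∧ ∀ (F : Finset A) (δ : ℝ), 0 < δ →
      ∃ X : Tw A G, S.Adm V F δ X ∧ ε ≤ T.mass X) : S.HasTwist g0 := by
  classical
  refine ⟨528, 1 / 4, by norm_num, fun F δ hδ => ?_⟩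
  -- smooth approximations
  choose sm hsm1 hsm2 using fun a : A => S.exists_smooth_near a (δ / (4 * 528)) (by positivity)
  obtain ⟨F', hF'⟩ : ∃ F' : Finset A, F' = F.image sm ∪ (F.image fun a => star (sm a)) :=
    ⟨_, rfl⟩
  have hF's : ∀ u ∈ F', star u ∈ F' := by
    intro u hu
    rw [hF'] at hu ⊢
    rcases Finset.mem_union.1 hu with h | h
    · obtain ⟨a, ha, rfl⟩ := Finset.mem_image.1 h
      exact Finset.mem_union_right _ (Finset.mem_image_of_mem (fun a => star (sm a)) ha)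
    · obtain ⟨a, ha, rfl⟩ := Finset.mem_image.1 h
      rw [star_star]
      exact Finset.mem_union_left _ (Finset.mem_image_of_mem _ ha)
  have hF'c : ∀ u ∈ F', Continuous fun g => S.α g u := by
    intro u hu
    rw [hF'] at hu
    rcases Finset.mem_union.1 hu with h | h
    · obtain ⟨a, ha, rfl⟩ := Finset.mem_image.1 h
      exact hsm1 a
    · obtain ⟨a, ha, rfl⟩ := Finset.mem_image.1 h
      have : (fun g => S.α g (star (sm a))) = fun g => star (S.α g (sm a)) := by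
        funext g
        exact map_star _ _
      rw [this]
      exact continuous_star.comp (hsm1 a)
  obtain ⟨κ, hκ⟩ : ∃ κ : ℝ, κ = (δ / 6) ^ 2 / 528 := ⟨_, rfl⟩
  have hκ0 : 0 < κ := by rw [hκ]; positivity
  have h528 : 3 * Real.sqrt (528 * κ) = δ / 2 := by
    have : 528 * κ = (δ / 6) ^ 2 := by rw [hκ]; ring
    rw [this, Real.sqrt_sq (by positivity)]
    ring
  obtain ⟨N, hN⟩ : ∃ N : ℝ, N = (Fintype.card {u // u ∈ F'} : ℝ) + 1 := ⟨_, rfl⟩
  have hN0 : 0 < N := by rw [hN]; positivity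
  obtain ⟨η, hη⟩ : ∃ η : ℝ, η = Real.sqrt (κ / (30 * N)) := ⟨_, rfl⟩
  have hη0 : 0 < η := by rw [hη]; positivity
  have hη2 : η ^ 2 = κ / (30 * N) := by rw [hη, Real.sq_sqrt (by positivity)]
  -- the neighbourhoods
  let μ : Measure G := Measure.haar
  have hW0 : ∀ᶠ z in 𝓝 (1 : G), ∀ u ∈ F', ‖S.α z u - u‖ ≤ η ∧ ‖S.α (z * g0) u - S.α g0 u‖ ≤ η := by
    rw [Filter.eventually_all_finset]
    intro u hu
    have h1 := (hF'c u hu).tendsto 1
    rw [S.one] at h1
    have h1' := (tendsto_iff_norm_sub_tendsto_zero.1 h1).eventually (gt_mem_nhds hη0)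
    have h2 : Tendsto (fun z => S.α (z * g0) u) (𝓝 1) (𝓝 (S.α g0 u)) := by
      have h3 : Continuous fun z => S.α (z * g0) u := (hF'c u hu).comp (continuous_mul_const g0)
      have h4 := h3.tendsto 1
      rwa [one_mul] at h4
    have h2' := (tendsto_iff_norm_sub_tendsto_zero.1 h2).eventually (gt_mem_nhds hη0)
    filter_upwards [h1', h2'] with z h3 h4
    exact ⟨h3.le, h4.le⟩
  obtain ⟨W, hW1, hWs, hWc⟩ := LocallyCompactSpace.local_compact_nhds (1 : G) _ hW0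
  have hWm : MeasurableSet W := hWc.measurableSet
  have hμW : μ W ≠ 0 := (Measure.measure_pos_of_mem_nhds μ hW1).ne'
  have hμWt : μ W ≠ ⊤ := hWc.measure_lt_top.ne
  obtain ⟨O, hWO, hOo, hOlt⟩ := W.exists_isOpen_lt_of_lt (μ := μ) (2 * μ W) (by
    have h1 : μ W * 1 < μ W * 2 := (ENNReal.mul_lt_mul_iff_right hμW hμWt).2 (by norm_num)
    rwa [mul_one, mul_comm] at h1)
  obtain ⟨N1, hN1, hN1W⟩ := compact_open_separated_mul_left hWc hOo hWO
  obtain ⟨O', hO'⟩ : ∃ O' : Set G, O' = {w | g0 * w ∈ O} := ⟨_, rfl⟩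
  have hO'm : MeasurableSet O' := by
    rw [hO']
    exact (measurable_const_mul g0) hOo.measurableSet
  have hO'μ : μ O' = μ O := by
    rw [hO']
    exact measure_preimage_mul μ g0 O
  have hO't : μ O' ≠ ⊤ := by
    rw [hO'μ]
    exact (hOlt.trans_le le_top).ne
  have hO'le : (μ O').toReal ≤ 2 * (μ W).toReal := by
    rw [hO'μ]
    have := ENNReal.toReal_mono (ENNReal.mul_ne_top (by norm_num) hμWt) hOlt.le
    rwa [ENNReal.toReal_mul] at this
  have hV : {g : G | g0 * g⁻¹ ∈ N1 ∧ ∀ u ∈ F', ‖S.α g u - S.α g0 u‖ ≤ η} ∈ 𝓝 g0 := by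
    have h1 : ∀ᶠ g in 𝓝 g0, g0 * g⁻¹ ∈ N1 := by
      have h2 : Continuous fun g : G => g0 * g⁻¹ := continuous_const.mul continuous_inv
      have h3 := h2.tendsto g0
      rw [mul_inv_cancel] at h3
      exact h3 hN1
    have h2 : ∀ᶠ g in 𝓝 g0, ∀ u ∈ F', ‖S.α g u - S.α g0 u‖ ≤ η := by
      rw [Filter.eventually_all_finset]
      intro u hu
      have h3 := (tendsto_iff_norm_sub_tendsto_zero.1 ((hF'c u hu).tendsto g0)).eventually
        (gt_mem_nhds hη0)
      exact h3.mono fun g hg => hg.le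
    exact h1.and h2
  obtain ⟨V, hVd⟩ : ∃ V : Set G, V = {g : G | g0 * g⁻¹ ∈ N1 ∧ ∀ u ∈ F',
    ‖S.α g u - S.α g0 u‖ ≤ η} := ⟨_, rfl⟩
  rw [← hVd] at hV
  obtain ⟨ε, hε, hX⟩ := hbad V hV
  obtain ⟨δ', hδ'⟩ : ∃ δ' : ℝ, δ' = κ * ε / (6 * N) := ⟨_, rfl⟩
  have hδ'0 : 0 < δ' := by rw [hδ']; positivity
  obtain ⟨X, hXa, hXm, hXl, hXr⟩ := TrAct.exists_flat (S := S) hfac V ε hX ε hε F' δ' hδ'0
  obtain ⟨m, hm⟩ : ∃ m : ℝ, m = T.mass X := ⟨_, rfl⟩
  rw [← hm] at hXm hXl hXr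
  have hm0 : 0 < m := hε.trans_le hXm
  have hXl' : ‖T.ι X.left‖ ≤ 2 * m := by linarith
  have hXr' : ‖T.ι (S.right X)‖ ≤ 2 * m := by linarith
  -- untwisting
  have hun := S.untwist_bound μ X hWm hμWt hO'm hO't (by
    intro i w hw
    rw [hO']
    have h1 := hXa.mem i
    rw [hVd] at h1
    have h2 : g0 * w = (g0 * (X.g i)⁻¹) * (X.g i * w) := by group
    change g0 * w ∈ O
    rw [h2]
    exact hN1W (Set.mul_mem_mul h1.1 hw))
  obtain ⟨L, hL, p, z, hp0, hp1, hzW, hsm⟩ := S.exists_sample μ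
    (∑ i, star (X.c i) * X.c i) hμW hμWt hWm m hm0
  have hright : ‖∑ k, p k • T.ι (S.α (z k)⁻¹ (∑ i, star (X.c i) * X.c i))‖ ≤ 5 * m := by
    refine hsm.trans ?_
    have hWpos : 0 < (μ W).toReal := ENNReal.toReal_pos hμW hμWt
    have h1 : (μ W).toReal⁻¹ * ‖∫ z in W, T.ι (S.α z⁻¹ (∑ i, star (X.c i) * X.c i)) ∂μ‖
        ≤ 4 * m := by
      calc _ ≤ (μ W).toReal⁻¹ * ((2 * (μ W).toReal) * (2 * m)) := by
            refine mul_le_mul_of_nonneg_left (hun.trans ?_) (inv_nonneg.2 hWpos.le)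
            exact mul_le_mul hO'le hXr' (norm_nonneg _) (by positivity)
        _ = 4 * m := by field_simp; ring
    linarith
  -- the new family
  obtain ⟨ρ, hρ⟩ : ∃ ρ : L → ℝ, ρ = fun k => Real.sqrt (p k / m) := ⟨_, rfl⟩
  have hρ2 : ∀ k, ρ k * ρ k = p k / m := fun k => by
    rw [hρ]
    exact Real.mul_self_sqrt (div_nonneg (hp0 k) hm0.le)
  have hρ0 : ∀ k, 0 ≤ ρ k := fun k => by rw [hρ]; exact Real.sqrt_nonneg _
  obtain ⟨c, hc⟩ : ∃ c : L × X.J → A, c = fun q => (ρ q.1 : ℂ) • S.α (z q.1)⁻¹ (X.c q.2) :=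
    ⟨_, rfl⟩
  have hcl : ∀ q, c q * star (c q)
      = ((p q.1 / m : ℝ) : ℂ) • S.α (z q.1)⁻¹ (X.c q.2 * star (X.c q.2)) := by
    intro q
    rw [hc]
    simp only [star_smul, smul_mul_smul_comm, map_mul, map_star]
    congr 1
    rw [← hρ2, Complex.star_def, Complex.conj_ofReal]
    push_cast
    rfl
  have hcr : ∀ q, star (c q) * c q
      = ((p q.1 / m : ℝ) : ℂ) • S.α (z q.1)⁻¹ (star (X.c q.2) * X.c q.2) := by
    intro q
    rw [hc]
    simp only [star_smul, smul_mul_smul_comm, map_mul, map_star]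
    congr 1
    rw [← hρ2, Complex.star_def, Complex.conj_ofReal]
    push_cast
    rfl
  have hnn : ∀ (q : L × X.J) (y : K), ‖(ρ q.1 : ℂ) • y‖ ^ 2 = p q.1 / m * ‖y‖ ^ 2 := by
    intro q y
    rw [norm_smul, mul_pow, Complex.norm_real, Real.norm_of_nonneg (hρ0 _), sq (ρ q.1), hρ2]
  have hmass : ∑ q, ‖T.ι (c q)‖ ^ 2 = 1 := by
    have h1 : ∀ q, ‖T.ι (c q)‖ ^ 2 = p q.1 / m * ‖T.ι (X.c q.2)‖ ^ 2 := by
      intro q
      rw [hc]
      simp only
      rw [map_smul, hnn q, S.norm_map]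
    simp only [h1]
    rw [Fintype.sum_prod_type]
    simp only
    have h2 : ∀ k, ∑ i, p k / m * ‖T.ι (X.c i)‖ ^ 2 = p k := by
      intro k
      rw [← Finset.mul_sum]
      have : ∑ i, ‖T.ι (X.c i)‖ ^ 2 = m := by rw [hm]; rfl
      rw [this]
      field_simp
    simp only [h2]
    exact hp1
  have hleft : ‖T.ι (∑ q, c q * star (c q))‖ ≤ 2 := by
    simp only [hcl]
    rw [Fintype.sum_prod_type]
    simp only
    have h1 : ∀ k, ∑ i, ((p k / m : ℝ) : ℂ) • S.α (z k)⁻¹ (X.c i * star (X.c i))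
        = ((p k / m : ℝ) : ℂ) • S.α (z k)⁻¹ X.left := by
      intro k
      rw [← Finset.smul_sum, ← map_sum]
      rfl
    simp only [h1]
    rw [map_sum]
    refine (norm_sum_le _ _).trans ?_
    calc ∑ k, ‖T.ι (((p k / m : ℝ) : ℂ) • S.α (z k)⁻¹ X.left)‖
        ≤ ∑ k, p k * 2 := by
          refine Finset.sum_le_sum fun k _ => ?_
          rw [map_smul, norm_smul, Complex.norm_real, S.norm_map,
            Real.norm_of_nonneg (div_nonneg (hp0 k) hm0.le)]
          calc p k / m * ‖T.ι X.left‖ ≤ p k / m * (2 * m) :=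
                mul_le_mul_of_nonneg_left hXl' (div_nonneg (hp0 k) hm0.le)
            _ = p k * 2 := by field_simp
      _ = 2 := by rw [← Finset.sum_mul, hp1, one_mul]
  have hrt : ‖T.ι (∑ q, star (c q) * c q)‖ ≤ 5 := by
    simp only [hcr]
    rw [Fintype.sum_prod_type]
    simp only
    have h1 : ∀ k, ∑ i, ((p k / m : ℝ) : ℂ) • S.α (z k)⁻¹ (star (X.c i) * X.c i)
        = ((p k / m : ℝ) : ℂ) • S.α (z k)⁻¹ (∑ i, star (X.c i) * X.c i) := by
      intro k
      rw [← Finset.smul_sum, ← map_sum]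
    simp only [h1]
    have h2 : T.ι (∑ k, ((p k / m : ℝ) : ℂ) • S.α (z k)⁻¹ (∑ i, star (X.c i) * X.c i))
        = ((m⁻¹ : ℝ) : ℂ) • ∑ k, p k • T.ι (S.α (z k)⁻¹ (∑ i, star (X.c i) * X.c i)) := by
      rw [map_sum, Finset.smul_sum]
      refine Finset.sum_congr rfl fun k _ => ?_
      rw [map_smul, ← Complex.coe_smul (p k), smul_smul]
      congr 1
      push_cast
      field_simp
    rw [h2, norm_smul, Complex.norm_real, Real.norm_of_nonneg (by positivity)]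
    calc m⁻¹ * ‖∑ k, p k • T.ι (S.α (z k)⁻¹ (∑ i, star (X.c i) * X.c i))‖ ≤ m⁻¹ * (5 * m) :=
          mul_le_mul_of_nonneg_left hright (by positivity)
      _ = 5 := by field_simp
  -- the defects
  have hdef : ∀ u ∈ F', ∑ q, ‖T.ι (u * c q - c q * S.α g0 u)‖ ^ 2
      ≤ 15 * η ^ 2 + 3 * (δ' / m) := by
    intro u hu
    have h1 : ∀ q, ‖T.ι (u * c q - c q * S.α g0 u)‖ ^ 2 ≤ p q.1 / m * (3 * (5 * η ^ 2
        * ‖T.ι (X.c q.2)‖ ^ 2 + ‖T.ι (u * X.c q.2 - X.c q.2 * S.α (X.g q.2) u)‖ ^ 2)) := by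
      intro q
      have e1 : u * c q - c q * S.α g0 u = (ρ q.1 : ℂ) • S.α (z q.1)⁻¹
          (S.α (z q.1) u * X.c q.2 - X.c q.2 * S.α (z q.1 * g0) u) := by
        rw [hc]
        simp only [mul_smul_comm, smul_mul_assoc, ← smul_sub, map_sub, map_mul, S.inv_apply]
        congr 3
        rw [← S.mul, inv_mul_cancel_left]
      rw [e1, map_smul, hnn q, S.norm_map]
      refine mul_le_mul_of_nonneg_left ?_ (div_nonneg (hp0 _) hm0.le)
      have hz := hWs (hzW q.1)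
      have hz' : ‖S.α (z q.1) u - u‖ ≤ η ∧ ‖S.α (z q.1 * g0) u - S.α g0 u‖ ≤ η := hz u hu
      have hg := hXa.mem q.2
      rw [hVd] at hg
      have hg' := hg.2 u hu
      have e2 : S.α (z q.1) u * X.c q.2 - X.c q.2 * S.α (z q.1 * g0) u
          = (S.α (z q.1) u - u) * X.c q.2 + (u * X.c q.2 - X.c q.2 * S.α (X.g q.2) u)
            + X.c q.2 * (S.α (X.g q.2) u - S.α (z q.1 * g0) u) := by
        noncomm_ring
      have e3 : ‖S.α (X.g q.2) u - S.α (z q.1 * g0) u‖ ≤ 2 * η := by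
        have : S.α (X.g q.2) u - S.α (z q.1 * g0) u
            = (S.α (X.g q.2) u - S.α g0 u) - (S.α (z q.1 * g0) u - S.α g0 u) := by abel
        rw [this]
        exact (norm_sub_le _ _).trans (by linarith [hz'.2])
      obtain ⟨a, ha⟩ : ∃ a : ℝ, a = ‖T.ι (X.c q.2)‖ := ⟨_, rfl⟩
      obtain ⟨b, hb⟩ : ∃ b : ℝ, b = ‖T.ι (u * X.c q.2 - X.c q.2 * S.α (X.g q.2) u)‖ := ⟨_, rfl⟩
      have ha0 : 0 ≤ a := by rw [ha]; positivity
      have hb0 : 0 ≤ b := by rw [hb]; positivity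
      have e4 : ‖T.ι ((S.α (z q.1) u - u) * X.c q.2)‖ ≤ η * a := by
        rw [ha]
        exact (T.mul_le _ _).trans (mul_le_mul_of_nonneg_right hz'.1 (norm_nonneg _))
      have e5 : ‖T.ι (X.c q.2 * (S.α (X.g q.2) u - S.α (z q.1 * g0) u))‖ ≤ a * (2 * η) := by
        rw [ha]
        exact (T.mul_le' _ _).trans (mul_le_mul_of_nonneg_left e3 (norm_nonneg _))
      rw [e2, map_add, map_add, ← ha, ← hb]
      have e6 := norm_add_le (T.ι ((S.α (z q.1) u - u) * X.c q.2)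
        + T.ι (u * X.c q.2 - X.c q.2 * S.α (X.g q.2) u))
        (T.ι (X.c q.2 * (S.α (X.g q.2) u - S.α (z q.1 * g0) u)))
      have e7 := norm_add_le (T.ι ((S.α (z q.1) u - u) * X.c q.2))
        (T.ι (u * X.c q.2 - X.c q.2 * S.α (X.g q.2) u))
      rw [← hb] at e7
      have e8 := pow_le_pow_left₀ (norm_nonneg _) (e6.trans (by linarith :
        _ ≤ η * a + b + a * (2 * η))) 2
      refine e8.trans ?_
      nlinarith [sq_nonneg (η * a - b), sq_nonneg (a * (2 * η) - b),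
        sq_nonneg (η * a - a * (2 * η))]
    refine (Finset.sum_le_sum fun q _ => h1 q).trans ?_
    rw [Fintype.sum_prod_type]
    simp only
    have h2 : ∀ k, ∑ i, p k / m * (3 * (5 * η ^ 2 * ‖T.ι (X.c i)‖ ^ 2
        + ‖T.ι (u * X.c i - X.c i * S.α (X.g i) u)‖ ^ 2)) ≤ p k * (15 * η ^ 2 + 3 * (δ' / m)) := by
      intro k
      rw [← Finset.mul_sum, ← Finset.mul_sum, Finset.sum_add_distrib, ← Finset.mul_sum]
      have e1 : ∑ i, ‖T.ι (X.c i)‖ ^ 2 = m := by rw [hm]; rfl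
      have e2 : ∑ i, ‖T.ι (u * X.c i - X.c i * S.α (X.g i) u)‖ ^ 2 ≤ δ' := hXa.tw u hu
      rw [e1]
      calc p k / m * (3 * (5 * η ^ 2 * m + ∑ i, ‖T.ι (u * X.c i - X.c i * S.α (X.g i) u)‖ ^ 2))
          ≤ p k / m * (3 * (5 * η ^ 2 * m + δ')) := by
            refine mul_le_mul_of_nonneg_left ?_ (div_nonneg (hp0 k) hm0.le)
            linarith
        _ = p k * (15 * η ^ 2 + 3 * (δ' / m)) := by field_simp; ring
    refine (Finset.sum_le_sum fun k _ => h2 k).trans ?_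
    rw [← Finset.sum_mul, hp1, one_mul]
  have hdsum : ∑ u : {u // u ∈ F'}, ∑ q, ‖T.ι (u.1 * c q - c q * S.α g0 u.1)‖ ^ 2 ≤ κ := by
    refine (Finset.sum_le_sum fun u _ => hdef u.1 u.2).trans ?_
    rw [Finset.sum_const, Finset.card_univ, nsmul_eq_mul]
    have h1 : 15 * η ^ 2 + 3 * (δ' / m) ≤ κ / N := by
      have e1 : δ' / m ≤ δ' / ε := div_le_div_of_nonneg_left hδ'0.le hε hXm
      have e2 : 3 * (δ' / ε) = κ / (2 * N) := by rw [hδ']; field_simp; ring
      have e3 : 15 * η ^ 2 = κ / (2 * N) := by rw [hη2]; field_simp; ring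
      have e4 : κ / (2 * N) + κ / (2 * N) = κ / N := by field_simp; ring
      linarith
    have h2 : (0 : ℝ) ≤ 15 * η ^ 2 + 3 * (δ' / m) := by positivity
    calc (Fintype.card {u // u ∈ F'} : ℝ) * (15 * η ^ 2 + 3 * (δ' / m))
        ≤ N * (κ / N) := by
          refine mul_le_mul ?_ h1 h2 hN0.le
          rw [hN]
          linarith
      _ = κ := by field_simp
  obtain ⟨y, hy1, hy2, hy3⟩ := S.exists_element g0 c hleft hrt hmass F' hF's κ hκ0 hdsum
  refine ⟨y, hy1, hy2, fun u hu => ?_⟩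
  have h1 := hy3 (sm u) (by
    rw [hF']
    exact Finset.mem_union_left _ (Finset.mem_image_of_mem _ hu))
  rw [h528] at h1
  have h2 : u * y - y * S.α g0 u = (u - sm u) * y + (sm u * y - y * S.α g0 (sm u))
      - y * S.α g0 (u - sm u) := by
    rw [map_sub]
    noncomm_ring
  rw [h2, map_sub, map_add]
  have h3 : ‖T.ι ((u - sm u) * y)‖ ≤ δ / 4 := by
    calc _ ≤ ‖T.ι (u - sm u)‖ * ‖y‖ := T.mul_le' _ _
      _ ≤ (δ / (4 * 528)) * 528 := mul_le_mul (hsm2 u) hy1 (norm_nonneg _) (by positivity)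
      _ = δ / 4 := by field_simp
  have h4 : ‖T.ι (y * S.α g0 (u - sm u))‖ ≤ δ / 4 := by
    calc _ ≤ ‖y‖ * ‖T.ι (S.α g0 (u - sm u))‖ := T.mul_le _ _
      _ ≤ 528 * (δ / (4 * 528)) := by
          rw [S.norm_map]
          exact mul_le_mul hy1 (hsm2 u) (norm_nonneg _) (by positivity)
      _ = δ / 4 := by field_simp
  refine (norm_sub_le _ _).trans ?_
  have h5 := norm_add_le (T.ι ((u - sm u) * y)) (T.ι (sm u * y - y * S.α g0 (sm u)))
  linarith

end disp

section final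
variable {A : Type u} [CStarAlgebra A] [PartialOrder A] [StarOrderedRing A] {K : Type v}
  [NormedAddCommGroup K] [InnerProductSpace ℂ K] [CompleteSpace K] {T : TrAlg A K}
variable {G : Type w} [Group G] [TopologicalSpace G] [IsTopologicalGroup G]
  [SecondCountableTopology G] [LocallyCompactSpace G] [T2Space G] [MeasurableSpace G]
  [BorelSpace G] (S : TrAct G T)

/-- no displaced families on `V` -/
def TrAct.Good (V : Set G) : Prop :=
  ∀ ε : ℝ, 0 < ε → ∃ (F : Finset A) (δ : ℝ), 0 < δ ∧ ∀ (J : Type) [Fintype J] (c : J → A)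
    (g : J → G), (∀ i, c i ≠ 0 → g i ∈ V) → ∑ i, c i * star (c i) ≤ 1 →
    ∑ i, S.α (g i)⁻¹ (star (c i) * c i) ≤ 1 →
    (∀ u ∈ F, ∑ i, ‖T.ι (u * c i - c i * S.α (g i) u)‖ ^ 2 ≤ δ) → ∑ i, ‖T.ι (c i)‖ ^ 2 ≤ ε

variable {S}

theorem TrAct.Good.mono {V V' : Set G} (h : V ⊆ V') (hV' : S.Good V') : S.Good V := by
  intro ε hε
  obtain ⟨F, δ, hδ, h1⟩ := hV' ε hε
  exact ⟨F, δ, hδ, fun J _ c g hg => h1 J c g fun i hi => h (hg i hi)⟩

theorem TrAct.Good.union {V V' : Set G} (hV : S.Good V) (hV' : S.Good V') :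
    S.Good (V ∪ V') := by
  classical
  intro ε hε
  obtain ⟨F, δ, hδ, h1⟩ := hV (ε / 2) (by positivity)
  obtain ⟨F', δ', hδ', h1'⟩ := hV' (ε / 2) (by positivity)
  refine ⟨F ∪ F', min δ δ', lt_min hδ hδ', fun J _ c g hg hl hr ht => ?_⟩
  -- restriction to a subset
  have hsub : ∀ (P : J → Prop) [DecidablePred P],
      ∑ i, (if P i then c i else 0) * star (if P i then c i else 0) ≤ 1 ∧
      ∑ i, S.α (g i)⁻¹ (star (if P i then c i else 0) * (if P i then c i else 0)) ≤ 1 ∧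
      ∀ u, ∑ i, ‖T.ι (u * (if P i then c i else 0) - (if P i then c i else 0) * S.α (g i) u)‖ ^ 2
        ≤ ∑ i, ‖T.ι (u * c i - c i * S.α (g i) u)‖ ^ 2 := by
    intro P _
    refine ⟨(Finset.sum_le_sum fun i _ => ?_).trans hl,
      (Finset.sum_le_sum fun i _ => ?_).trans hr, fun u => Finset.sum_le_sum fun i _ => ?_⟩
    · by_cases hP : P i
      · rw [if_pos hP]
      · rw [if_neg hP, zero_mul]
        exact mul_star_self_nonneg _
    · by_cases hP : P i
      · rw [if_pos hP]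
      · rw [if_neg hP, mul_zero, map_zero]
        exact hyp_map_nonneg _ (star_mul_self_nonneg _)
    · by_cases hP : P i
      · rw [if_pos hP]
      · rw [if_neg hP, mul_zero, zero_mul, sub_zero, map_zero, norm_zero]
        simp
  obtain ⟨a1, a2, a3⟩ := hsub (fun i => g i ∈ V)
  obtain ⟨b1, b2, b3⟩ := hsub (fun i => g i ∉ V)
  have e1 := h1 J (fun i => if g i ∈ V then c i else 0) g (fun i hi => by
    by_contra hn
    exact hi (if_neg hn)) a1 a2 (fun u hu => (a3 u).trans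
      ((ht u (Finset.mem_union_left _ hu)).trans (min_le_left _ _)))
  have e2 := h1' J (fun i => if g i ∉ V then c i else 0) g (fun i hi => by
    by_cases hn : g i ∈ V
    · exact absurd (if_neg (not_not.2 hn)) hi
    · have hne : c i ≠ 0 := by
        intro h0
        apply hi
        rw [h0, ite_self]
      exact (hg i hne).resolve_left hn) b1 b2 (fun u hu => (b3 u).trans
      ((ht u (Finset.mem_union_right _ hu)).trans (min_le_right _ _)))
  have e3 : ∑ i, ‖T.ι (c i)‖ ^ 2 = ∑ i, ‖T.ι (if g i ∈ V then c i else 0)‖ ^ 2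
      + ∑ i, ‖T.ι (if g i ∉ V then c i else 0)‖ ^ 2 := by
    rw [← Finset.sum_add_distrib]
    refine Finset.sum_congr rfl fun i _ => ?_
    by_cases hV : g i ∈ V
    · rw [if_pos hV, if_neg (not_not.2 hV), map_zero, norm_zero]
      simp
    · rw [if_neg hV, if_pos hV, map_zero, norm_zero]
      simp
  rw [e3]
  linarith

/-- DISPLACEMENT: almost intertwining families displaced by elements without twists are small -/
theorem TrAct.good_of_not_hasTwist
    (hfac : ∀ x : A, (∀ y, x * y = y * x) → ∃ c : ℂ, x = c • (1 : A)) {E : Set G}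
    (hE : IsCompact E) (h : ∀ g ∈ E, ¬ S.HasTwist g) : S.Good E := by
  classical
  refine hE.induction_on (p := fun E => S.Good E) ?_ (fun s t hst ht => ht.mono hst)
    (fun s t hs ht => hs.union ht) ?_
  · intro ε hε
    refine ⟨∅, 1, one_pos, fun J _ c g hg _ _ _ => ?_⟩
    have h0 : ∀ i, c i = 0 := fun i => by
      by_contra hne
      exact hg i hne
    simp only [h0, map_zero, norm_zero]
    simp
    exact hε.le
  · intro g0 hg0
    by_contra hcon
    push Not at hcon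
    refine h g0 hg0 (S.hasTwist_of_bad hfac g0 fun V hV => ?_)
    have h1 := hcon V (mem_nhdsWithin_of_mem_nhds hV)
    unfold TrAct.Good at h1
    push Not at h1
    obtain ⟨ε, hε, h2⟩ := h1
    refine ⟨ε, hε, fun F δ hδ => ?_⟩
    obtain ⟨J, hJ, c, g, hg, hl, hr, ht, hm⟩ := h2 F δ hδ
    -- the elements of the group for zero entries are irrelevant
    obtain ⟨g', hg'⟩ : ∃ g' : J → G, g' = fun i => if c i = 0 then g0 else g i := ⟨_, rfl⟩
    have hg'V : ∀ i, g' i ∈ V := by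
      intro i
      rw [hg']
      by_cases h0 : c i = 0
      · simp only [if_pos h0]
        exact mem_of_mem_nhds hV
      · simp only [if_neg h0]
        exact hg i h0
    have hr' : S.right (⟨J, hJ, c, g'⟩ : Tw A G) = ∑ i, S.α (g i)⁻¹ (star (c i) * c i) := by
      unfold TrAct.right
      refine Finset.sum_congr rfl fun i _ => ?_
      simp only [hg']
      by_cases h0 : c i = 0
      · rw [h0, mul_zero, map_zero, map_zero]
      · rw [if_neg h0]
    have ht' : ∀ u, S.defect (⟨J, hJ, c, g'⟩ : Tw A G) u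
        = ∑ i, ‖T.ι (u * c i - c i * S.α (g i) u)‖ ^ 2 := by
      intro u
      unfold TrAct.defect
      refine Finset.sum_congr rfl fun i _ => ?_
      simp only [hg']
      by_cases h0 : c i = 0
      · rw [h0, mul_zero, zero_mul, zero_mul]
      · rw [if_neg h0]
    refine ⟨⟨J, hJ, c, g'⟩, ⟨hg'V, ?_, ?_, fun u hu => ?_⟩, hm.le⟩
    · exact norm_le_one_of_le_one (Finset.sum_nonneg fun i _ => mul_star_self_nonneg _) hl
    · rw [hr']
      exact norm_le_one_of_le_one (Finset.sum_nonneg fun i _ =>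
        hyp_map_nonneg _ (star_mul_self_nonneg _)) hr
    · rw [ht']
      exact ht u hu

/-- DISPLACEMENT, explicit form -/
theorem TrAct.displacement
    (hfac : ∀ x : A, (∀ y, x * y = y * x) → ∃ c : ℂ, x = c • (1 : A)) {E : Set G}
    (hE : IsCompact E) (h : ∀ g ∈ E, ¬ S.HasTwist g) (ε : ℝ) (hε : 0 < ε) :
    ∃ (F : Finset A) (δ : ℝ), 0 < δ ∧ ∀ (J : Type) [Fintype J] (c : J → A) (g : J → G),
      (∀ i, c i ≠ 0 → g i ∈ E) → ∑ i, c i * star (c i) ≤ 1 →
      ∑ i, S.α (g i)⁻¹ (star (c i) * c i) ≤ 1 →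
      (∀ u ∈ F, ∑ i, ‖T.ι (u * c i - c i * S.α (g i) u)‖ ^ 2 ≤ δ) →
      ∑ i, ‖T.ι (c i)‖ ^ 2 ≤ ε :=
  TrAct.good_of_not_hasTwist hfac hE h ε hε

end final

end Pool.Agent.AbCoc
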