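import Pool.Agent.Lib_MP_418a80_hyp.Ent
import Pool.Agent.Lib_MP_418a80_ab.FamDefs

/-!
# Diagonal corners, part 0: the failure of `StepADom` in a corner
-/

set_option autoImplicit false
set_option linter.unusedVariables false
set_option linter.unusedSectionVars false

open Topology Filter MeasureTheory

namespace Pool.Agent.AbCoc

universe u v w

variable {A : Type u} [CStarAlgebra A] {K : Type v} [NormedAddCommGroup K]
  [InnerProductSpace ℂ K] [CompleteSpace K]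
  {G : Type w} [Group G] [TopologicalSpace G] {T : TrAlg A K} (S : TrAct G T)

/-- the conclusion of `StepADom` for one pair `b1`, `b2` -/
def TrAct.DomAt (b1 b2 : A) : Prop :=
  ∃ C c0 : ℝ, 0 < c0 ∧ ∀ D : Set G, IsCompact D → ∀ κ : ℝ, 0 < κ →
    ∃ (J : Type) (_ : Fintype J) (a x : J → A), (∀ i, a i = b1 * x i * b2) ∧
      c0 ≤ ∑ i, ‖T.ι (a i)‖ ^ 2 ∧
      ∑ i, ‖T.ι (S.E (a i))‖ ^ 2 ≤ κ ∧
      (∀ s ∈ D, ∑ i, ‖T.ι (S.α s (a i) - a i)‖ ^ 2 ≤ κ) ∧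
      (∀ z : A, ∑ i, ‖T.ι (a i * z)‖ ^ 2 ≤ C * ‖T.ι z‖ ^ 2) ∧
      (∀ z : A, ∑ i, ‖T.ι (z * a i)‖ ^ 2 ≤ C * ‖T.ι z‖ ^ 2)

theorem TrAct.stepADom_iff : S.StepADom ↔ ∀ b1 b2 : A, S.Fixed b1 → S.Fixed b2 →
    IsSelfAdjoint b1 → IsSelfAdjoint b2 → b1 ≠ 0 → b2 ≠ 0 → S.DomAt b1 b2 := Iff.rfl

variable [PartialOrder A] [StarOrderedRing A]

/-- domination passes to the conditional expectation (right multiplications) -/
theorem TrAct.E_dom_right {J : Type*} [Fintype J] {k : J → A} {C : ℝ}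
    (hC : ∀ z : A, ∑ i, ‖T.ι (k i * z)‖ ^ 2 ≤ C * ‖T.ι z‖ ^ 2) (z : A) :
    ∑ i, ‖T.ι (S.E (k i) * z)‖ ^ 2 ≤ C * ‖T.ι z‖ ^ 2 := by
  obtain ⟨Q, hQ⟩ : ∃ Q : A, Q = ∑ i, star (k i) * k i := ⟨_, rfl⟩
  -- `C - Q` is positive
  have hsa : IsSelfAdjoint ((C : ℂ) • (1 : A) - Q) := by
    rw [isSelfAdjoint_iff, star_sub, star_smul, star_one, hQ, star_sum]
    congr 1
    · rw [Complex.star_def, Complex.conj_ofReal]
    · exact Finset.sum_congr rfl fun i _ => by rw [star_mul, star_star]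
  have hval : ∀ (f : J → A) (a : A), (T.τ (star a * ((C : ℂ) • (1 : A) - ∑ i, star (f i) * f i) * a)).re
      = C * ‖T.ι a‖ ^ 2 - ∑ i, ‖T.ι (f i * a)‖ ^ 2 := by
    intro f a
    rw [mul_sub, sub_mul, T.τ_sub, mul_smul_comm, mul_one, smul_mul_assoc, T.τ_smul,
      Complex.sub_re, Complex.re_ofReal_mul, ← T.norm_sq, Finset.mul_sum, Finset.sum_mul]
    congr 1
    have h1 : T.τ (∑ i, star a * (star (f i) * f i) * a)
        = ∑ i, T.τ (star a * (star (f i) * f i) * a) := by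
      unfold TrAlg.τ
      rw [map_sum, inner_sum]
    rw [h1, Complex.re_sum]
    refine Finset.sum_congr rfl fun i _ => ?_
    rw [T.norm_sq, star_mul]
    congr 2
    noncomm_ring
  have h0 : 0 ≤ (C : ℂ) • (1 : A) - Q := by
    refine T.nonneg_of_τ hsa fun a => ?_
    rw [hQ, hval]
    linarith [hC a]
  have h1 : 0 ≤ (C : ℂ) • (1 : A) - S.E Q := by
    have h2 := S.E_nonneg h0
    rwa [S.E_sub, S.E_smul, S.E_of_fixed (Fixed.one S)] at h2
  have h3 := T.re_τ_conj_nonneg z _ h1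
  -- Kadison-Schwarz
  have h4 : ∀ i, ‖T.ι (S.E (k i) * z)‖ ^ 2 ≤ (T.τ (star z * S.E (star (k i) * k i) * z)).re := by
    intro i
    have h5 : 0 ≤ S.E (star (k i - S.E (k i)) * (k i - S.E (k i))) :=
      S.E_nonneg (star_mul_self_nonneg _)
    have h6 : S.E (star (k i - S.E (k i)) * (k i - S.E (k i)))
        = S.E (star (k i) * k i) - star (S.E (k i)) * S.E (k i) := by
      rw [star_sub, sub_mul, mul_sub, mul_sub, S.E_sub, S.E_sub, S.E_sub,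
        S.E_mul_right (S.E_fixed (k i)), S.E_mul_left (Fixed.star S (S.E_fixed (k i))),
        S.E_mul_left (Fixed.star S (S.E_fixed (k i))), S.E_of_fixed (S.E_fixed (k i)), S.E_star,
        sub_self, sub_zero]
    rw [h6] at h5
    have h7 := T.re_τ_conj_nonneg z _ h5
    rw [mul_sub, sub_mul, T.τ_sub, Complex.sub_re] at h7
    have h8 : ‖T.ι (S.E (k i) * z)‖ ^ 2 = (T.τ (star z * (star (S.E (k i)) * S.E (k i)) * z)).re := by
      rw [T.norm_sq, star_mul]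
      congr 2
      noncomm_ring
    rw [h8]
    linarith
  have h9 : ∑ i, (T.τ (star z * S.E (star (k i) * k i) * z)).re = (T.τ (star z * S.E Q * z)).re := by
    rw [hQ, S.E_sum, Finset.mul_sum, Finset.sum_mul]
    unfold TrAlg.τ
    rw [map_sum, inner_sum, Complex.re_sum]
  rw [mul_sub, sub_mul, T.τ_sub, mul_smul_comm, mul_one, smul_mul_assoc, T.τ_smul,
    Complex.sub_re, Complex.re_ofReal_mul, ← T.norm_sq] at h3
  calc ∑ i, ‖T.ι (S.E (k i) * z)‖ ^ 2 ≤ ∑ i, (T.τ (star z * S.E (star (k i) * k i) * z)).re :=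
        Finset.sum_le_sum fun i _ => h4 i
    _ = (T.τ (star z * S.E Q * z)).re := h9
    _ ≤ C * ‖T.ι z‖ ^ 2 := by linarith

/-- domination passes to the conditional expectation (left multiplications) -/
theorem TrAct.E_dom_left {J : Type*} [Fintype J] {k : J → A} {C : ℝ}
    (hC : ∀ z : A, ∑ i, ‖T.ι (z * k i)‖ ^ 2 ≤ C * ‖T.ι z‖ ^ 2) (z : A) :
    ∑ i, ‖T.ι (z * S.E (k i))‖ ^ 2 ≤ C * ‖T.ι z‖ ^ 2 := by
  have h := S.E_dom_right (k := fun i => star (k i)) (C := C) (fun w => by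
    have h1 := hC (star w)
    rw [T.norm_star] at h1
    refine le_trans (le_of_eq (Finset.sum_congr rfl fun i _ => ?_)) h1
    rw [← T.norm_star, star_mul, star_star]) (star z)
  rw [T.norm_star] at h
  refine le_trans (le_of_eq (Finset.sum_congr rfl fun i _ => ?_)) h
  rw [← T.norm_star, star_mul, ← S.E_star]

theorem TrAlg.sum_sub_sq_le (T : TrAlg A K) {J : Type*} [Fintype J] (f g : J → A) (c d : ℝ)
    (hf : ∑ i, ‖T.ι (f i)‖ ^ 2 ≤ c) (hg : ∑ i, ‖T.ι (g i)‖ ^ 2 ≤ d) :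
    ∑ i, ‖T.ι (f i - g i)‖ ^ 2 ≤ 2 * (c + d) := by
  have h : ∀ i, ‖T.ι (f i - g i)‖ ^ 2 ≤ 2 * (‖T.ι (f i)‖ ^ 2 + ‖T.ι (g i)‖ ^ 2) := by
    intro i
    have h1 : ‖T.ι (f i - g i)‖ ≤ ‖T.ι (f i)‖ + ‖T.ι (g i)‖ := by
      rw [map_sub]; exact norm_sub_le _ _
    have h2 := pow_le_pow_left₀ (norm_nonneg _) h1 2
    nlinarith [sq_nonneg (‖T.ι (f i)‖ - ‖T.ι (g i)‖)]
  calc ∑ i, ‖T.ι (f i - g i)‖ ^ 2 ≤ ∑ i, 2 * (‖T.ι (f i)‖ ^ 2 + ‖T.ι (g i)‖ ^ 2) :=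
        Finset.sum_le_sum fun i _ => h i
    _ = 2 * (∑ i, ‖T.ι (f i)‖ ^ 2 + ∑ i, ‖T.ι (g i)‖ ^ 2) := by
        rw [← Finset.mul_sum, Finset.sum_add_distrib]
    _ ≤ 2 * (c + d) := by linarith

/-- if `StepADom` fails in the corner `b`, then dominated near-invariant families in the corner are
close to the fixed point algebra -/
theorem TrAct.neg_of_not_domAt {b : A} (hb : S.Fixed b) (h : ¬ S.DomAt b b) (C ε : ℝ)
    (hε : 0 < ε) : ∃ (D : Set G) (κ : ℝ), IsCompact D ∧ 0 < κ ∧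
    ∀ (J : Type) [Fintype J] (k x : J → A), (∀ i, k i = b * x i * b) →
      (∀ s ∈ D, ∑ i, ‖T.ι (S.α s (k i) - k i)‖ ^ 2 ≤ κ) →
      (∀ z : A, ∑ i, ‖T.ι (k i * z)‖ ^ 2 ≤ C * ‖T.ι z‖ ^ 2) →
      (∀ z : A, ∑ i, ‖T.ι (z * k i)‖ ^ 2 ≤ C * ‖T.ι z‖ ^ 2) →
      ∑ i, ‖T.ι (k i - S.E (k i))‖ ^ 2 ≤ ε := by
  by_contra hcon
  push Not at hcon
  refine h ⟨2 * (C + C), ε, hε, fun D hD κ hκ => ?_⟩
  obtain ⟨J, hJ, k, x, h1, h2, h3, h4, h5⟩ := hcon D κ hD hκ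
  refine ⟨J, hJ, fun i => k i - S.E (k i), fun i => x i - S.E (x i), ?_, h5.le, ?_, ?_, ?_, ?_⟩
  · intro i
    change k i - S.E (k i) = b * (x i - S.E (x i)) * b
    rw [h1 i, S.E_mul_right hb, S.E_mul_left hb, mul_sub, sub_mul]
  · have h6 : ∀ i, S.E (k i - S.E (k i)) = 0 := by
      intro i
      rw [S.E_sub, S.E_of_fixed (S.E_fixed _), sub_self]
    simp only [h6, map_zero, norm_zero]
    simpa using hκ.le
  · intro s hs
    refine le_trans (le_of_eq (Finset.sum_congr rfl fun i _ => ?_)) (h2 s hs)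
    have h6 : S.α s (k i - S.E (k i)) - (k i - S.E (k i)) = S.α s (k i) - k i := by
      rw [map_sub, S.E_fixed (k i) s]
      abel
    change ‖T.ι (S.α s (k i - S.E (k i)) - (k i - S.E (k i)))‖ ^ 2 = _
    rw [h6]
  · intro z
    have h6 := T.sum_sub_sq_le (fun i => k i * z) (fun i => S.E (k i) * z) _ _ (h3 z)
      (S.E_dom_right h3 z)
    refine le_trans (le_of_eq (Finset.sum_congr rfl fun i _ => ?_)) (h6.trans (le_of_eq ?_))
    · rw [sub_mul]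
    · ring
  · intro z
    have h6 := T.sum_sub_sq_le (fun i => z * k i) (fun i => z * S.E (k i)) _ _ (h4 z)
      (S.E_dom_left h4 z)
    refine le_trans (le_of_eq (Finset.sum_congr rfl fun i _ => ?_)) (h6.trans (le_of_eq ?_))
    · rw [mul_sub]
    · ring

end Pool.Agent.AbCoc
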