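import Pool.Agent.Lib_MP_418a80_nm.EP0
import Pool.Agent.Lib_MP_418a80_nm.AmpT2

/-!
# Diagonal corners, part 1: orbit averages of positive matrices are almost constant
-/

set_option autoImplicit false
set_option linter.unusedVariables false
set_option linter.unusedSectionVars false

open Topology Filter MeasureTheory

namespace Pool.Agent.AbCoc

universe u v w

section
variable {A : Type u} [CStarAlgebra A] [PartialOrder A] [StarOrderedRing A]
  {K : Type v} [NormedAddCommGroup K] [InnerProductSpace ℂ K]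
variable {G : Type w} [Group G] [TopologicalSpace G] {T : TrAlg A K} (S : TrAct G T)
  {I : Type} [Fintype I] [DecidableEq I] [Nonempty I]

theorem TrAlg.hs_add_le (T : TrAlg A K) (M N : Mt I A) :
    Real.sqrt (T.hs (M + N)) ≤ Real.sqrt (T.hs M) + Real.sqrt (T.hs N) := by
  have hc := TrAlg.card_pos' (I := I)
  have h3 : ∀ M : Mt I A, Real.sqrt (T.hs M)
      = Real.sqrt (Fintype.card I : ℝ) * ‖(T.ampT I).ι M‖ := by
    intro M
    rw [T.hs_eq, Real.sqrt_mul hc.le, Real.sqrt_sq (norm_nonneg _)]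
  rw [h3, h3, h3, map_add, ← mul_add]
  exact mul_le_mul_of_nonneg_left (norm_add_le _ _) (Real.sqrt_nonneg _)

theorem TrAlg.hs_neg (T : TrAlg A K) (M : Mt I A) : T.hs (-M) = T.hs M := by
  unfold TrAlg.hs
  refine Finset.sum_congr rfl fun i _ => Finset.sum_congr rfl fun j _ => ?_
  have : (-M) i j = -(M i j) := rfl
  rw [this, map_neg, norm_neg]

theorem TrAlg.hs_sub_le (T : TrAlg A K) (M N : Mt I A) :
    Real.sqrt (T.hs (M - N)) ≤ Real.sqrt (T.hs M) + Real.sqrt (T.hs N) := by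
  have h := T.hs_add_le M (-N)
  rwa [T.hs_neg, ← sub_eq_add_neg] at h

theorem TrAlg.ep_hs_star (T : TrAlg A K) (M : Mt I A) : T.hs (star M) = T.hs M := by
  unfold TrAlg.hs
  rw [Finset.sum_comm]
  refine Finset.sum_congr rfl fun i _ => Finset.sum_congr rfl fun j _ => ?_
  have : (star M) j i = star (M i j) := rfl
  rw [this, T.norm_star]

theorem TrAlg.ep_hs_mul_le (T : TrAlg A K) (a b : Mt I A) : 
    Real.sqrt (T.hs (a * b)) ≤ ‖a‖ * Real.sqrt (T.hs b) := by
  have hc := TrAlg.card_pos' (I := I)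
  have h3 : ∀ M : Mt I A, Real.sqrt (T.hs M)
      = Real.sqrt (Fintype.card I : ℝ) * ‖(T.ampT I).ι M‖ := by
    intro M
    rw [T.hs_eq, Real.sqrt_mul hc.le, Real.sqrt_sq (norm_nonneg _)]
  rw [h3, h3]
  have h := (T.ampT I).mul_le a b
  calc Real.sqrt (Fintype.card I : ℝ) * ‖(T.ampT I).ι (a * b)‖
      ≤ Real.sqrt (Fintype.card I : ℝ) * (‖a‖ * ‖(T.ampT I).ι b‖) :=
        mul_le_mul_of_nonneg_left h (Real.sqrt_nonneg _)
    _ = _ := by ring

theorem TrAlg.ep_hs_mul_le' (T : TrAlg A K) (a b : Mt I A) : 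
    Real.sqrt (T.hs (a * b)) ≤ Real.sqrt (T.hs a) * ‖b‖ := by
  rw [← T.ep_hs_star, star_mul]
  refine (T.ep_hs_mul_le _ _).trans ?_
  rw [T.ep_hs_star, _root_.norm_star, mul_comm]

theorem TrAct.ampT_hs_α (g : G) (M : Mt I A) : T.hs ((S.ampT I).α g M) = T.hs M := by
  unfold TrAlg.hs
  refine Finset.sum_congr rfl fun i _ => Finset.sum_congr rfl fun j _ => ?_
  rw [S.ampT_α_apply, S.norm_map]

theorem TrAct.ampT_α_dgm (g : G) (x : I → A) :
    (S.ampT I).α g (dgm I x) = dgm I fun i => S.α g (x i) := by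
  ext i j
  rw [S.ampT_α_apply, dgm_apply, dgm_apply]
  by_cases h : i = j
  · rw [if_pos h, if_pos h]
  · rw [if_neg h, if_neg h, map_zero]

variable [CompleteSpace K]

theorem TrAct.ampT_fixed_iff (M : Mt I A) :
    (S.ampT I).Fixed M ↔ ∀ i j, S.Fixed (M i j) := by
  constructor
  · intro h i j g
    have := congrFun (congrFun (h g) i) j
    exact this
  · intro h g
    ext i j
    exact h i j g

theorem TrAct.ampT_fixed_dgm {x : I → A} (hx : ∀ i, S.Fixed (x i)) :
    (S.ampT I).Fixed (dgm I x) := by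
  intro g
  rw [S.ampT_α_dgm]
  congr 1
  funext i
  exact hx i g

theorem TrAct.ampT_E_apply (M : Mt I A) (i j : I) :
    (S.ampT I).E M i j = S.E (M i j) := by
  have h : (CStarMatrix.ofMatrix fun i j => S.E (M i j) : Mt I A) = (S.ampT I).E M := by
    refine (S.ampT I).eq_E_of M _ ?_ ?_
    · rw [S.ampT_fixed_iff]
      intro i j
      exact S.E_fixed _
    · intro p hp
      rw [S.ampT_fixed_iff] at hp
      have h1 : ∀ a b : Mt I A, inner ℂ ((T.ampT I).ι a) ((T.ampT I).ι b)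
          = (Fintype.card I : ℂ)⁻¹ * ∑ i, ∑ j, inner ℂ (T.ι (a i j)) (T.ι (b i j)) := fun a b =>
        T.T_ampι_inner I a b
      rw [h1, h1]
      congr 1
      refine Finset.sum_congr rfl fun i _ => Finset.sum_congr rfl fun j _ => ?_
      exact S.inner_E (M i j) _ (S.fixedVec_of_fixed (hp i j))
  rw [← h]
  rfl

/-- `TrM (y E(x)) = TrM (E(y) x)` -/
theorem TrAct.TrM_mul_E (x y : Mt I A) :
    T.TrM (y * (S.ampT I).E x) = T.TrM ((S.ampT I).E y * x) := by
  have h1 : (S.ampT I).E (y * (S.ampT I).E x) = (S.ampT I).E y * (S.ampT I).E x :=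
    (S.ampT I).E_mul_right ((S.ampT I).E_fixed x) y
  have h2 : (S.ampT I).E ((S.ampT I).E y * x) = (S.ampT I).E y * (S.ampT I).E x :=
    (S.ampT I).E_mul_left ((S.ampT I).E_fixed y) x
  rw [T.TrM_eq, T.TrM_eq, ← (S.ampT I).τ_E, h1, ← h2, (S.ampT I).τ_E]

end

end Pool.Agent.AbCoc
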