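import Pool.Agent.Lib_MP_418a80_nm.EP1
import Pool.Agent.Lib_MP_418a80_hyp.Dom

/-!
# Diagonal corners, part 1b: orbit averages of positive matrices are almost constant
-/

set_option autoImplicit false
set_option linter.unusedVariables false
set_option linter.unusedSectionVars false

open Topology Filter MeasureTheory

namespace Pool.Agent.AbCoc

universe u v w

section
variable {A : Type u} [CStarAlgebra A] [PartialOrder A] [StarOrderedRing A]
  {K : Type v} [NormedAddCommGroup K] [InnerProductSpace ℂ K] [CompleteSpace K]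
variable {G : Type w} [Group G] [TopologicalSpace G] {T : TrAlg A K} (S : TrAct G T)
  {I : Type} [Fintype I] [DecidableEq I] [Nonempty I]

/-- the conclusion of `neg_of_not_domAt` -/
def TrAct.Neg (S : TrAct G T) (b : A) (C ε : ℝ) (D : Set G) (κ : ℝ) : Prop :=
  ∀ (J : Type) [Fintype J] (k x : J → A), (∀ i, k i = b * x i * b) →
    (∀ s ∈ D, ∑ i, ‖T.ι (S.α s (k i) - k i)‖ ^ 2 ≤ κ) →
    (∀ z : A, ∑ i, ‖T.ι (k i * z)‖ ^ 2 ≤ C * ‖T.ι z‖ ^ 2) →
    (∀ z : A, ∑ i, ‖T.ι (z * k i)‖ ^ 2 ≤ C * ‖T.ι z‖ ^ 2) →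
    ∑ i, ‖T.ι (k i - S.E (k i))‖ ^ 2 ≤ ε

/-- if `r` is close to the fixed point algebra, so is its square, in the `L¹` sense -/
theorem TrAct.sq_near_E {r : Mt I A} (hr : star r = r) {m ε : ℝ} (hm : T.hs r ≤ m)
    (hε : T.hs (r - (S.ampT I).E r) ≤ ε) (y : Mt I A) (hy : ‖y‖ ≤ 1) :
    ‖T.TrM (y * (r * r - (S.ampT I).E (r * r)))‖ ≤ 4 * (Real.sqrt m * Real.sqrt ε) := by
  let _ : PartialOrder (Mt I A) := CStarAlgebra.spectralOrder (Mt I A)
  have _ : StarOrderedRing (Mt I A) := CStarAlgebra.spectralOrderedRing (Mt I A)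
  obtain ⟨q, hq⟩ : ∃ q : Mt I A, q = (S.ampT I).E r := ⟨_, rfl⟩
  obtain ⟨d, hd⟩ : ∃ d : Mt I A, d = r - q := ⟨_, rfl⟩
  have hqs : star q = q := by rw [hq, ← (S.ampT I).E_star, hr]
  have hds : star d = d := by rw [hd, star_sub, hr, hqs]
  have hqf : (S.ampT I).Fixed q := by rw [hq]; exact (S.ampT I).E_fixed r
  have hqm : T.hs q ≤ m := by
    refine le_trans ?_ hm
    rw [T.hs_eq, T.hs_eq, hq]
    exact mul_le_mul_of_nonneg_left
      (pow_le_pow_left₀ (norm_nonneg _) ((S.ampT I).norm_E_le r) 2) (TrAlg.card_pos' (I := I)).le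
  have e1 : r * r - (S.ampT I).E (r * r) = (d * r + q * d) - (S.ampT I).E (d * r + q * d) := by
    have h1 : d * r + q * d = r * r - q * q := by rw [hd]; noncomm_ring
    rw [h1, (S.ampT I).E_sub, (S.ampT I).E_of_fixed (Fixed.mul _ hqf hqf)]
    abel
  have hE : ‖(S.ampT I).E y‖ ≤ 1 := ((S.ampT I).E_norm_le y).trans hy
  have h2 : ∀ y' : Mt I A, ‖y'‖ ≤ 1 → ‖T.TrM (y' * (d * r + q * d))‖
      ≤ 2 * (Real.sqrt m * Real.sqrt ε) := by
    intro y' hy'
    have hsd : Real.sqrt (T.hs d) ≤ Real.sqrt ε := Real.sqrt_le_sqrt (by rw [hd, hq]; exact hε)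
    have hsr : Real.sqrt (T.hs r) ≤ Real.sqrt m := Real.sqrt_le_sqrt hm
    have hsq : Real.sqrt (T.hs q) ≤ Real.sqrt m := Real.sqrt_le_sqrt hqm
    have a1 : T.TrM (y' * (d * r)) = T.TrM (star r * y' * d) := by
      rw [hr, ← mul_assoc, T.TrM_mul_comm, ← mul_assoc]
    have a2 : T.TrM (y' * (q * d)) = T.TrM (star d * y' * q) := by
      rw [hds, ← mul_assoc, T.TrM_mul_comm, ← mul_assoc]
    rw [mul_add, T.TrM_add, a1, a2]
    refine (norm_add_le _ _).trans ?_
    have b1 := T.norm_Tr_le r y' d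
    have b2 := T.norm_Tr_le d y' q
    have c1 : ‖y'‖ * (Real.sqrt (T.hs r) * Real.sqrt (T.hs d)) ≤ 1 * (Real.sqrt m * Real.sqrt ε) :=
      mul_le_mul hy' (mul_le_mul hsr hsd (Real.sqrt_nonneg _) (Real.sqrt_nonneg _))
        (by positivity) zero_le_one
    have c2 : ‖y'‖ * (Real.sqrt (T.hs d) * Real.sqrt (T.hs q)) ≤ 1 * (Real.sqrt ε * Real.sqrt m) :=
      mul_le_mul hy' (mul_le_mul hsd hsq (Real.sqrt_nonneg _) (Real.sqrt_nonneg _))
        (by positivity) zero_le_one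
    linarith [mul_comm (Real.sqrt m) (Real.sqrt ε)]
  rw [e1, mul_sub, T.TrM_sub, S.TrM_mul_E]
  refine (norm_sub_le _ _).trans ?_
  linarith [h2 y hy, h2 _ hE]

variable [IsTopologicalGroup G] [SecondCountableTopology G] [MeasurableSpace G] [BorelSpace G]
  (μ : Measure G) [μ.IsMulLeftInvariant]

/-- orbit averages `∫ F(t) α_t(Y* Y) dt` are close to their expectations in the `L¹` sense, if
near-invariant families in the corner `b` are close to the fixed point algebra -/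
theorem TrAct.gram_near_E {b b3 β : A} (h1 : b3 = b * β) (h2 : b3 = β * b) (hfix : S.Fixed b3)
    (hsa : star b3 = b3) {C ε κ m : ℝ} {D : Set G} (hneg : S.Neg b C ε D κ) {F : G → ℝ}
    (hF : Integrable F μ) (hF0 : ∀ t, 0 ≤ F t) (hF1 : ∫ t, F t ∂μ = 1)
    (hFD : ∀ s ∈ D, m * ∫ t, |F (s⁻¹ * t) - F t| ∂μ ≤ κ) (Y H : Mt I A) (hY : T.hs Y ≤ m)
    (hdom : ∀ z : A, ∑ i, ∑ j, ‖T.ι (Y i j * z)‖ ^ 2 ≤ C * ‖T.ι z‖ ^ 2)
    (hb : ∀ i j, Y i j * b3 = Y i j)
    (hH : (T.ampT I).ι H = ∫ t, F t • (T.ampT I).ι ((S.ampT I).α t (star Y * Y)) ∂μ)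
    (y : Mt I A) (hy : ‖y‖ ≤ 1) :
    ‖T.TrM (y * (H - (S.ampT I).E (star Y * Y)))‖ ≤ 4 * (Real.sqrt m * Real.sqrt ε) := by
  let _ : PartialOrder (Mt I A) := CStarAlgebra.spectralOrder (Mt I A)
  have _ : StarOrderedRing (Mt I A) := CStarAlgebra.spectralOrderedRing (Mt I A)
  have hcp := TrAlg.card_pos' (I := I)
  have ha : 0 ≤ star Y * Y := star_mul_self_nonneg Y
  obtain ⟨H', hH0, _, hH'⟩ := (S.ampT I).exists_orbit_avg μ hF hF0 hF1 ha
  have hHH : H = H' := (T.ampT I).inj (hH.trans hH'.symm)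
  rw [← hHH] at hH0
  obtain ⟨r, hr, hrr⟩ := hyp_exists_sqrt hH0
  have hrs : star r = r := (IsSelfAdjoint.of_nonneg hr).star_eq
  have hta : (Fintype.card I : ℝ) * ((T.ampT I).τ (star Y * Y)).re = T.hs Y := by
    rw [T.hs_eq, (T.ampT I).norm_sq]
  -- near invariance
  have hnear : ∀ s ∈ D, T.hs ((S.ampT I).α s r - r) ≤ κ := by
    intro s hs
    have h3 := (S.ampT I).sqrt_near μ hF ha hH hr hrr s
    have h4 : 0 ≤ ∫ t, |F (s⁻¹ * t) - F t| ∂μ := integral_nonneg fun t => abs_nonneg _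
    rw [T.hs_eq]
    calc (Fintype.card I : ℝ) * ‖(T.ampT I).ι ((S.ampT I).α s r - r)‖ ^ 2
        ≤ (Fintype.card I : ℝ) * (((T.ampT I).τ (star Y * Y)).re * ∫ t, |F (s⁻¹ * t) - F t| ∂μ) :=
          mul_le_mul_of_nonneg_left h3 hcp.le
      _ = T.hs Y * ∫ t, |F (s⁻¹ * t) - F t| ∂μ := by rw [← mul_assoc, hta]
      _ ≤ m * ∫ t, |F (s⁻¹ * t) - F t| ∂μ := mul_le_mul_of_nonneg_right hY h4
      _ ≤ κ := hFD s hs
  have hmass : T.hs r ≤ m := by
    rw [T.hs_eq, (S.ampT I).norm_sqrt_sq μ hF hF1 hH hr hrr, hta]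
    exact hY
  -- domination
  have hdr : ∀ z : A, ∑ p : I × I, ‖T.ι (r p.1 p.2 * z)‖ ^ 2 ≤ C * ‖T.ι z‖ ^ 2 := by
    intro z
    obtain ⟨Z, hZ⟩ : ∃ Z : Mt I A, Z = dgm I fun _ => z := ⟨_, rfl⟩
    have e1 : ∀ M : Mt I A, T.hs (M * Z) = ∑ p : I × I, ‖T.ι (M p.1 p.2 * z)‖ ^ 2 := by
      intro M
      rw [Fintype.sum_prod_type]
      unfold TrAlg.hs
      refine Finset.sum_congr rfl fun i _ => Finset.sum_congr rfl fun j _ => ?_
      rw [hZ, mul_dgm_apply]
    rw [← e1, T.hs_eq, (T.ampT I).norm_sqrt_mul hr hrr]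
    have e2 : (T.ampT I).τ (star Z * H * Z) = (T.ampT I).τ (Z * star Z * H) := by
      rw [(T.ampT I).τ_mul_comm, mul_assoc]
    have e3 := (S.ampT I).τ_orbit μ hF hH (Z * star Z)
    have hi := (S.ampT I).τ_orbit_integrable μ hF (star Y * Y) (Z * star Z)
    have e4 : ∀ t, (Fintype.card I : ℝ)
        * ((T.ampT I).τ (Z * star Z * (S.ampT I).α t (star Y * Y))).re
        = T.hs ((S.ampT I).α t Y * Z) := by
      intro t
      rw [T.hs_eq, (T.ampT I).norm_sq, star_mul, map_mul, map_star]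
      congr 2
      rw [mul_assoc Z, (T.ampT I).τ_mul_comm Z]
      congr 1
      noncomm_ring
    have e5 : ∀ t, T.hs ((S.ampT I).α t Y * Z) ≤ C * ‖T.ι z‖ ^ 2 := by
      intro t
      rw [e1]
      have h5 := hdom (S.α t⁻¹ z)
      rw [S.norm_map] at h5
      refine le_trans (le_of_eq ?_) h5
      rw [Fintype.sum_prod_type]
      refine Finset.sum_congr rfl fun i _ => Finset.sum_congr rfl fun j _ => ?_
      have h8 := S.norm_map t (Y i j * S.α t⁻¹ z)
      rw [map_mul (S.α t), S.apply_inv] at h8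
      rw [← h8]
      rfl
    have e6 : ((T.ampT I).τ (Z * star Z * H)).re
        = ∫ t, F t * ((T.ampT I).τ (Z * star Z * (S.ampT I).α t (star Y * Y))).re ∂μ := by
      rw [e3]
      have h6 := integral_re hi
      have h7 : ∀ t, RCLike.re ((F t : ℂ) * (T.ampT I).τ (Z * star Z * (S.ampT I).α t (star Y * Y)))
          = F t * ((T.ampT I).τ (Z * star Z * (S.ampT I).α t (star Y * Y))).re := by
        intro t
        rw [RCLike.re_to_complex, Complex.re_ofReal_mul]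
      rw [integral_congr_ae (Filter.Eventually.of_forall h7)] at h6
      rw [h6]
      rfl
    have hi2 : Integrable (fun t => F t * T.hs ((S.ampT I).α t Y * Z)) μ := by
      refine (hi.re.const_mul (Fintype.card I : ℝ)).congr (Filter.Eventually.of_forall fun t => ?_)
      change (Fintype.card I : ℝ) * RCLike.re ((F t : ℂ)
        * (T.ampT I).τ (Z * star Z * (S.ampT I).α t (star Y * Y)))
        = F t * T.hs ((S.ampT I).α t Y * Z)
      rw [RCLike.re_to_complex, Complex.re_ofReal_mul, ← e4]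
      ring
    rw [e2, e6, ← integral_const_mul]
    refine le_trans (le_of_eq (integral_congr_ae (Filter.Eventually.of_forall fun t => ?_)))
      (integral_mul_le_of_le μ hF hF0 hF1 e5 hi2)
    change (Fintype.card I : ℝ) * (F t
      * ((T.ampT I).τ (Z * star Z * (S.ampT I).α t (star Y * Y))).re)
      = F t * T.hs ((S.ampT I).α t Y * Z)
    rw [← e4]
    ring
  have hdl : ∀ z : A, ∑ p : I × I, ‖T.ι (z * r p.1 p.2)‖ ^ 2 ≤ C * ‖T.ι z‖ ^ 2 := by
    intro z
    have h5 := hdr (star z)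
    rw [T.norm_star] at h5
    refine le_trans (le_of_eq ?_) h5
    rw [Fintype.sum_prod_type, Fintype.sum_prod_type, Finset.sum_comm]
    refine Finset.sum_congr rfl fun i _ => Finset.sum_congr rfl fun j _ => ?_
    have h6 : star (r i j) = r j i := congrFun (congrFun hrs j) i
    change ‖T.ι (z * r j i)‖ ^ 2 = ‖T.ι (r i j * star z)‖ ^ 2
    rw [← T.norm_star (z * r j i), star_mul, ← h6, star_star]
  -- the corner
  obtain ⟨B, hB⟩ : ∃ B : Mt I A, B = dgm I fun _ => b3 := ⟨_, rfl⟩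
  have hBs : star B = B := by
    rw [hB, ← map_star]
    congr 1
    funext i
    exact hsa
  have hBf : (S.ampT I).Fixed B := by
    rw [hB]
    exact S.ampT_fixed_dgm fun _ => hfix
  have hYB : Y * B = Y := by
    ext i j
    rw [hB, mul_dgm_apply, hb]
  have hBr : B * r = r := by
    have h3 : (1 - B) * (star Y * Y) = 0 := by
      have h4 : (1 - B) * star Y = 0 := by
        have h5 : star (Y * (1 - B)) = 0 := by rw [mul_sub, mul_one, hYB, sub_self, star_zero]
        rwa [star_mul, star_sub, star_one, hBs] at h5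
      rw [← mul_assoc, h4, zero_mul]
    have h5 := (S.ampT I).fixed_mul_orbit μ hF hH (Fixed.sub _ (Fixed.one _) hBf) h3
    have h6 := hyp_mul_sqrt_eq_zero hr hrr h5
    rw [sub_mul, one_mul, sub_eq_zero] at h6
    exact h6.symm
  have hrB : r * B = r := by
    have h3 := congrArg star hBr
    rwa [star_mul, hrs, hBs] at h3
  have hform : ∀ p : I × I, r p.1 p.2 = b * (β * r p.1 p.2 * β) * b := by
    intro p
    have h3 : (B * r * B) p.1 p.2 = r p.1 p.2 := by rw [hBr, hrB]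
    rw [hB, mul_dgm_apply, dgm_mul_apply] at h3
    calc r p.1 p.2 = b3 * r p.1 p.2 * b3 := h3.symm
      _ = (b * β) * r p.1 p.2 * (β * b) := by rw [← h1, ← h2]
      _ = _ := by noncomm_ring
  have hfin := hneg (I × I) (fun p => r p.1 p.2) (fun p => β * r p.1 p.2 * β) hform
    (fun s hs => by
      refine le_trans (le_of_eq ?_) (hnear s hs)
      rw [Fintype.sum_prod_type]
      rfl) hdr hdl
  have hfin2 : T.hs (r - (S.ampT I).E r) ≤ ε := by
    refine le_trans (le_of_eq ?_) hfin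
    rw [Fintype.sum_prod_type]
    unfold TrAlg.hs
    refine Finset.sum_congr rfl fun i _ => Finset.sum_congr rfl fun j _ => ?_
    have h3 : (r - (S.ampT I).E r) i j = r i j - (S.ampT I).E r i j := rfl
    rw [h3, S.ampT_E_apply]
  have h7 := S.sq_near_E hrs hmass hfin2 y hy
  rwa [hrr, (S.ampT I).E_orbit μ hF hF1 hH] at h7

end

end Pool.Agent.AbCoc
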