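import Pool.Agent.Lib_MP_418a80_nm.EP1b
import Pool.Agent.Lib_MP_418a80_nm.CombDef

/-!
# Diagonal corners, part 2: two copies of the cells
-/

set_option autoImplicit false
set_option linter.unusedVariables false
set_option linter.unusedSectionVars false

open Topology Filter MeasureTheory

namespace Pool.Agent.AbCoc

universe u v w

section
variable {A : Type u} [CStarAlgebra A] [PartialOrder A] [StarOrderedRing A]
  {K : Type v} [NormedAddCommGroup K] [InnerProductSpace ℂ K] [CompleteSpace K]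
variable {G : Type w} [Group G] [TopologicalSpace G] {T : TrAlg A K} (S : TrAct G T)
  {X : Type} [Fintype X] [DecidableEq X] [Nonempty X]

variable [IsTopologicalGroup G] [SecondCountableTopology G] [MeasurableSpace G] [BorelSpace G]
  (μ : Measure G)

/-- discretised orbit averages are close to orbit averages in the trace norm -/
theorem TrAct.L1_cells {F : G → ℝ} (hF : Integrable F μ) (hF0 : ∀ t, 0 ≤ F t)
    (hF1 : ∫ t, F t ∂μ = 1) {C : Set G} (hFC : ∀ t, t ∉ C → F t = 0) {I : Type} [Fintype I]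
    {κ : G → I} {s : I → G} {w : I → ℝ} (hc : IsCells μ F C κ s w) {Y H : Mt X A}
    (hH : (T.ampT X).ι H = ∫ t, F t • (T.ampT X).ι ((S.ampT X).α t (star Y * Y)) ∂μ)
    {ω : ℝ} (hω0 : 0 ≤ ω)
    (hω : ∀ t ∈ C, T.hs ((S.ampT X).α t Y - (S.ampT X).α (s (κ t)) Y) ≤ ω ^ 2) :
    T.L1 (∑ i, ((w i : ℝ) : ℂ) • (S.ampT X).α (s i) (star Y * Y) - H)
      (2 * Real.sqrt (T.hs Y) * ω) := by
  intro y hy
  have hcp := TrAlg.card_pos' (I := X)
  have hsq : 0 < Real.sqrt (Fintype.card X : ℝ) := Real.sqrt_pos.2 hcp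
  have h3 : ∀ M : Mt X A, Real.sqrt (T.hs M)
      = Real.sqrt (Fintype.card X : ℝ) * ‖(T.ampT X).ι M‖ := by
    intro M
    rw [T.hs_eq, Real.sqrt_mul hcp.le, Real.sqrt_sq (norm_nonneg _)]
  have h4 := (S.ampT X).cells_compare hF hF0 hF1 hFC hc hH
    (ω := ω / Real.sqrt (Fintype.card X : ℝ)) (fun t ht => by
      rw [le_div_iff₀ hsq, mul_comm, ← h3]
      calc Real.sqrt (T.hs ((S.ampT X).α t Y - (S.ampT X).α (s (κ t)) Y))
          ≤ Real.sqrt (ω ^ 2) := Real.sqrt_le_sqrt (hω t ht)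
        _ = ω := Real.sqrt_sq hω0) y
  rw [T.TrM_eq, norm_mul, Complex.norm_natCast]
  have h5 := mul_le_mul_of_nonneg_left h4 hcp.le
  refine h5.trans ?_
  rw [h3]
  have h6 := Real.mul_self_sqrt hcp.le
  have h7 : (Fintype.card X : ℝ) * (‖y‖ * (2 * ‖(T.ampT X).ι Y‖
      * (ω / Real.sqrt (Fintype.card X : ℝ))))
      = ‖y‖ * (2 * (Real.sqrt (Fintype.card X : ℝ) * ‖(T.ampT X).ι Y‖) * ω) := by
    nth_rewrite 1 [← h6]
    field_simp
  rw [h7]
  have h8 : 0 ≤ 2 * (Real.sqrt (Fintype.card X : ℝ) * ‖(T.ampT X).ι Y‖) * ω := by positivity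
  calc ‖y‖ * (2 * (Real.sqrt (Fintype.card X : ℝ) * ‖(T.ampT X).ι Y‖) * ω)
      ≤ 1 * (2 * (Real.sqrt (Fintype.card X : ℝ) * ‖(T.ampT X).ι Y‖) * ω) :=
        mul_le_mul_of_nonneg_right hy h8
    _ = _ := one_mul _

variable [μ.IsMulLeftInvariant]

/-- the discretised Gram matrix of a family of the corner is almost constant -/
theorem TrAct.gram_copy {b b3 β : A} (h1 : b3 = b * β) (h2 : b3 = β * b) (hfix : S.Fixed b3)
    (hsa : star b3 = b3) {C ε κ₀ m : ℝ} {D : Set G} (hneg : S.Neg b C ε D κ₀) {F : G → ℝ}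
    (hF : Integrable F μ) (hF0 : ∀ t, 0 ≤ F t) (hF1 : ∫ t, F t ∂μ = 1)
    (hFD : ∀ s ∈ D, m * ∫ t, |F (s⁻¹ * t) - F t| ∂μ ≤ κ₀) {CF : Set G}
    (hFC : ∀ t, t ∉ CF → F t = 0) {I : Type} [Fintype I]
    {κ : G → I} {s : I → G} {w : I → ℝ} (hc : IsCells μ F CF κ s w) (c0 : X) {Q : Type}
    [Fintype Q] (e : Q → X) (he : Function.Injective e) (y : Q → A)
    (hm : ∑ q, ‖T.ι (y q)‖ ^ 2 ≤ m) (hdom : ∀ z : A, ∑ q, ‖T.ι (y q * z)‖ ^ 2 ≤ C * ‖T.ι z‖ ^ 2)
    (hb : ∀ q, y q * b3 = y q) {ω : ℝ} (hω0 : 0 ≤ ω)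
    (hω : ∀ t ∈ CF, ∑ q, ‖T.ι (S.α t (y q) - S.α (s (κ t)) (y q))‖ ^ 2 ≤ ω ^ 2) :
    T.L1 (∑ i, ((w i : ℝ) : ℂ) • (S.ampT X).α (s i) (star (S.row c0 e y) * S.row c0 e y)
      - (S.ampT X).E (star (S.row c0 e y) * S.row c0 e y))
      (2 * Real.sqrt m * ω + 4 * (Real.sqrt m * Real.sqrt ε)) := by
  let _ : PartialOrder (Mt X A) := CStarAlgebra.spectralOrder (Mt X A)
  have _ : StarOrderedRing (Mt X A) := CStarAlgebra.spectralOrderedRing (Mt X A)
  obtain ⟨R, hR⟩ : ∃ R, R = S.row c0 e y := ⟨_, rfl⟩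
  rw [← hR]
  obtain ⟨H, _, _, hH⟩ := (S.ampT X).exists_orbit_avg μ hF hF0 hF1 (star_mul_self_nonneg R)
  have hRapp : ∀ q, R c0 (e q) = y q := by
    intro q
    rw [hR]
    unfold TrAct.row
    rw [S.col_apply_emb _ _ e he, Pi.single_eq_same, S.one]
    simp
  have hR0 : ∀ a b, (∀ q, e q ≠ b) → R a b = 0 := by
    intro a b hb
    rw [hR]
    unfold TrAct.row
    exact S.col_apply_not _ _ e _ _ _ hb
  have hR1 : ∀ a b, a ≠ c0 → R a b = 0 := by
    intro a b ha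
    rw [hR]
    unfold TrAct.row
    rw [S.col_apply, Pi.single_eq_of_ne ha]
    simp
  have hhs : T.hs R = ∑ q, ‖T.ι (y q)‖ ^ 2 := by rw [hR]; exact S.hs_row c0 e he y
  have e1 := S.L1_cells μ hF hF0 hF1 hFC hc hH hω0 (fun t ht => by
    rw [hR, S.row_α c0 e he, S.row_α c0 e he, S.row_sub c0 e he, S.hs_row c0 e he]
    exact hω t ht)
  have e2 : T.L1 (H - (S.ampT X).E (star R * R)) (4 * (Real.sqrt m * Real.sqrt ε)) := by
    intro y' hy'
    refine S.gram_near_E μ h1 h2 hfix hsa hneg hF hF0 hF1 hFD R H (by rw [hhs]; exact hm) ?_ ?_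
      hH y' hy'
    · intro z
      rw [Finset.sum_eq_single c0]
      · rw [TrAct.sum_emb e he (fun j => ‖T.ι (R c0 j * z)‖ ^ 2) fun j hj => by
          rw [hR0 c0 j hj, zero_mul, map_zero, norm_zero]; norm_num]
        simp only [hRapp]
        exact hdom z
      · intro i _ hi
        refine Finset.sum_eq_zero fun j _ => ?_
        rw [hR1 i j hi, zero_mul, map_zero, norm_zero]
        norm_num
      · intro h; exact absurd (Finset.mem_univ c0) h
    · intro i j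
      by_cases hi : i = c0
      · rw [hi]
        by_cases hj : ∃ q, e q = j
        · obtain ⟨q, rfl⟩ := hj
          rw [hRapp, hb]
        · push Not at hj
          rw [hR0 c0 j hj, zero_mul]
      · rw [hR1 i j hi, zero_mul]
  have e3 := e1.add T e2
  rw [sub_add_sub_cancel] at e3
  refine e3.mono T ?_
  have h9 : Real.sqrt (T.hs R) ≤ Real.sqrt m := Real.sqrt_le_sqrt (by rw [hhs]; exact hm)
  have h10 : 2 * Real.sqrt (T.hs R) * ω ≤ 2 * Real.sqrt m * ω := by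
    have := mul_le_mul_of_nonneg_right h9 hω0
    linarith
  linarith

end

end Pool.Agent.AbCoc
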