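import Pool.Agent.Lib_MP_418a80_nm.EP2

/-!
# Diagonal corners, part 2b: two copies of the cells, one walk
-/

set_option autoImplicit false
set_option linter.unusedVariables false
set_option linter.unusedSectionVars false

open Topology Filter MeasureTheory

namespace Pool.Agent.AbCoc

universe u v w

/-- sample points of two copies of the cells (`s i` and `s i * g`), and `1` on the family part -/
def twS {G : Type w} [Group G] {I Q : Type} (s : I → G) (g : G) : (I × Bool) ⊕ Q → G :=
  Sum.elim (fun p => if p.2 = true then s p.1 * g else s p.1) fun _ => 1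

/-- the vector of the weights on the copy `β` -/
noncomputable def twZ {I Q : Type} (w : I → ℝ) (β : Bool) : (I × Bool) ⊕ Q → ℝ :=
  Sum.elim (fun p => if p.2 = β then Real.sqrt (w p.1) else 0) fun _ => 0

section
variable {A : Type u} [CStarAlgebra A]
  {K : Type v} [NormedAddCommGroup K] [InnerProductSpace ℂ K]
variable {G : Type w} [Group G] [TopologicalSpace G] {T : TrAlg A K} (S : TrAct G T)
  {I Q : Type} [Fintype I] [DecidableEq I] [Fintype Q] [DecidableEq Q]

/-- the columns of a family on the copy `β` -/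
noncomputable def TrAct.twC (s : I → G) (g : G) (w : I → ℝ) (β : Bool) {R : Type} [Fintype R]
    (e : R → Q) (y : R → A) : Mt ((I × Bool) ⊕ Q) A :=
  S.col (twS s g) (twZ w β) (fun r => Sum.inr (e r)) y

theorem tw_sum {M : Type*} [AddCommGroup M] [Module ℂ M] (w : I → ℝ) (hw : ∀ i, 0 ≤ w i)
    (β : Bool) (f : (I × Bool) ⊕ Q → M) :
    ∑ c, ((twZ w β c ^ 2 : ℝ) : ℂ) • f c = ∑ i, ((w i : ℝ) : ℂ) • f (Sum.inl (i, β)) := by
  rw [Fintype.sum_sum_type, Fintype.sum_prod_type]
  have h1 : ∀ q : Q, ((twZ w β (Sum.inr q : (I × Bool) ⊕ Q) ^ 2 : ℝ) : ℂ) • f (Sum.inr q) = 0 := by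
    intro q
    unfold twZ
    simp
  rw [Finset.sum_congr rfl fun q _ => h1 q, Finset.sum_const_zero, add_zero]
  refine Finset.sum_congr rfl fun i _ => ?_
  rw [Finset.sum_eq_single β]
  · unfold twZ
    simp only [Sum.elim_inl, if_true]
    rw [Real.sq_sqrt (hw i)]
  · intro β' _ hβ
    unfold twZ
    simp only [Sum.elim_inl, if_neg hβ]
    simp
  · intro h; exact absurd (Finset.mem_univ β) h

theorem tw_sum_real (w : I → ℝ) (hw : ∀ i, 0 ≤ w i) (β : Bool) (f : (I × Bool) ⊕ Q → ℝ) :
    ∑ c, twZ w β c ^ 2 * f c = ∑ i, w i * f (Sum.inl (i, β)) := by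
  have h := tw_sum (Q := Q) w hw β (fun c => ((f c : ℝ) : ℂ))
  simp only [smul_eq_mul] at h
  exact_mod_cast h

theorem twZ_sum_sq (w : I → ℝ) (hw : ∀ i, 0 ≤ w i) (β : Bool) :
    ∑ c : (I × Bool) ⊕ Q, twZ w β c ^ 2 = ∑ i, w i := by
  have h := tw_sum_real (Q := Q) w hw β fun _ => 1
  simpa using h

theorem TrAct.col_add (s : (I × Bool) ⊕ Q → G) (ζ ζ' : (I × Bool) ⊕ Q → ℝ) {R : Type} [Fintype R]
    (e : R → (I × Bool) ⊕ Q) (y : R → A) :
    S.col s ζ e y + S.col s ζ' e y = S.col s (fun c => ζ c + ζ' c) e y := by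
  ext a b
  have h0 : (S.col s ζ e y + S.col s ζ' e y) a b = S.col s ζ e y a b + S.col s ζ' e y a b := rfl
  rw [h0, S.col_apply, S.col_apply, S.col_apply, ← Finset.sum_add_distrib]
  refine Finset.sum_congr rfl fun r _ => ?_
  by_cases h : e r = b
  · rw [if_pos h, if_pos h, if_pos h, ← add_smul]
    push_cast
    rfl
  · rw [if_neg h, if_neg h, if_neg h, add_zero]

/-- one walk on two copies of the cells: Gram matrices close, commutators small -/
structure TrAct.IsTwo [PartialOrder A] [StarOrderedRing A] (S : TrAct G T) (CF : Set G) (g : G)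
    {P Λ : Type} [Fintype P]
    (x : P → A) (h : Λ → G → ℝ) (η ηc : ℝ) {W : Type} [Fintype W] (s : I → G) (w : I → ℝ)
    (e0 : W × P → Q) (c : W → A) : Prop where
  inj : Function.Injective e0
  w_nonneg : ∀ i, 0 ≤ w i
  w_sum : ∑ i, w i = 1
  mem : ∀ i, w i ≠ 0 → s i ∈ CF
  c_sum : ∑ v, star (c v) * c v = 1
  /-- the words are multiples of unitaries, with the same factor -/
  unit : ∃ k : ℝ, 0 < k ∧ ∀ v, star (c v) * c v = (k : ℂ) • (1 : A) ∧
    c v * star (c v) = (k : ℂ) • (1 : A)
  gram : T.L1 (star (S.twC s g w false e0 fun q => c q.1 * x q.2)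
      * S.twC s g w false e0 (fun q => c q.1 * x q.2)
    - star (S.twC s g w true e0 fun q => c q.1 * x q.2)
      * S.twC s g w true e0 (fun q => c q.1 * x q.2)) η
  comm : ∀ l, T.L1 (sdg _ (fun a => h l (twS s g a))
      * ((S.twC s g w false e0 (fun q => c q.1 * x q.2)
          + S.twC s g w true e0 (fun q => c q.1 * x q.2))
        * star (S.twC s g w false e0 (fun q => c q.1 * x q.2)
          + S.twC s g w true e0 (fun q => c q.1 * x q.2)))
    - ((S.twC s g w false e0 (fun q => c q.1 * x q.2)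
          + S.twC s g w true e0 (fun q => c q.1 * x q.2))
        * star (S.twC s g w false e0 (fun q => c q.1 * x q.2)
          + S.twC s g w true e0 (fun q => c q.1 * x q.2)))
      * sdg _ (fun a => h l (twS s g a))) ηc

end

section
variable {A : Type u} [CStarAlgebra A] [PartialOrder A] [StarOrderedRing A]
  {K : Type v} [NormedAddCommGroup K] [InnerProductSpace ℂ K]
variable {G : Type w} [Group G] [TopologicalSpace G] {T : TrAlg A K} (S : TrAct G T)

/-- oscillation of words times elements -/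
theorem TrAct.words_osc {J P W : Type} [Fintype J] [Fintype P] [Fintype W] {u : J → A} {k : ℕ}
    {c : W → A} (hc : S.IsWords u k c) (x : P → A) {s t : G} {η θ : ℝ} (hη : 0 ≤ η) (hθ : 0 ≤ θ)
    (h1 : ∀ j, ‖T.ι (S.α s (u j) - S.α t (u j))‖ ≤ η)
    (h2 : ∀ p, ‖T.ι (S.α s (x p) - S.α t (x p))‖ ≤ θ) :
    ∑ q : W × P, ‖T.ι (S.α s (c q.1 * x q.2) - S.α t (c q.1 * x q.2))‖ ^ 2
      ≤ ∑ p, (k * η * ‖x p‖ + θ) ^ 2 := by
  rw [Fintype.sum_prod_type, Finset.sum_comm]
  refine Finset.sum_le_sum fun p _ => ?_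
  have e1 : ∀ v, T.ι (S.α s (c v * x p) - S.α t (c v * x p))
      = T.ι ((S.α s (c v) - S.α t (c v)) * S.α s (x p))
        + T.ι (S.α t (c v) * (S.α s (x p) - S.α t (x p))) := by
    intro v
    rw [← map_add, map_mul, map_mul]
    congr 1
    noncomm_ring
  simp only [e1]
  refine rel_sum_norm_sq_add Finset.univ K _ _ _ _ (by positivity) hθ ?_ ?_
  · refine (hc.osc s t η hη h1 _).trans ?_
    refine pow_le_pow_left₀ (by positivity) ?_ 2
    exact mul_le_mul_of_nonneg_left (S.norm_le _ _) (by positivity)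
  · have e2 : ∑ v, ‖T.ι (S.α t (c v) * (S.α s (x p) - S.α t (x p)))‖ ^ 2
        = ‖T.ι (S.α s (x p) - S.α t (x p))‖ ^ 2 := by
      set d := S.α s (x p) - S.α t (x p) with hd
      have e3 : ∀ v, ‖T.ι (S.α t (c v) * d)‖ ^ 2
          = (T.τ (star d * S.α t (star (c v) * c v) * d)).re := by
        intro v
        rw [T.norm_sq, star_mul, map_mul, map_star]
        congr 2
        noncomm_ring
      rw [Finset.sum_congr rfl fun v _ => e3 v, ← Complex.re_sum, ← T.τ_sum',
        ← Finset.sum_mul, ← Finset.mul_sum, ← map_sum, hc.sum_star_mul, map_one, mul_one,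
        T.norm_sq]
    rw [e2]
    exact pow_le_pow_left₀ (norm_nonneg _) (h2 p) 2

theorem TrAct.ep_wk_smul {X J : Type} [Fintype X] [DecidableEq X] [Fintype J] (s : X → G) (u : J → A)
    (ρ : ℂ) (f : Mt X A) : S.wk s u (ρ • f) = ρ • S.wk s u f := by
  unfold TrAct.wk
  rw [smul_comm ρ]
  congr 1
  rw [Finset.smul_sum]
  refine Finset.sum_congr rfl fun j _ => ?_
  rw [mul_smul_comm, smul_mul_assoc]

theorem TrAct.ep_wk_iterate_smul {X J : Type} [Fintype X] [DecidableEq X] [Fintype J] (s : X → G)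
    (u : J → A) (ρ : ℂ) (f : Mt X A) (n : ℕ) :
    (S.wk s u)^[n] (ρ • f) = ρ • (S.wk s u)^[n] f := by
  induction n with
  | zero => rfl
  | succ n ih => rw [Function.iterate_succ_apply', Function.iterate_succ_apply', ih, S.ep_wk_smul]

end

section
variable {A : Type u} [CStarAlgebra A] [PartialOrder A] [StarOrderedRing A]
  {K : Type v} [NormedAddCommGroup K] [InnerProductSpace ℂ K] [CompleteSpace K]
variable {G : Type w} [Group G] [TopologicalSpace G] {T : TrAlg A K} (S : TrAct G T)
variable [IsTopologicalGroup G] [SecondCountableTopology G] [MeasurableSpace G] [BorelSpace G]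
  (μ : Measure G) [μ.IsMulLeftInvariant]

theorem TrAct.twC_hs {I Q R : Type} [Fintype I] [DecidableEq I] [Fintype Q] [DecidableEq Q]
    [Fintype R] (s : I → G) (g : G) (w : I → ℝ) (hw : ∀ i, 0 ≤ w i) (hw1 : ∑ i, w i = 1)
    (β : Bool) (e : R → Q) (he : Function.Injective e) (y : R → A) :
    T.hs (S.twC s g w β e y) = ∑ r, ‖T.ι (y r)‖ ^ 2 := by
  unfold TrAct.twC
  rw [S.hs_col _ _ _ fun a b h => he (Sum.inr_injective h), twZ_sum_sq w hw β, hw1, one_mul]

/-- Gram matrices of the two copies -/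
theorem TrAct.twC_gram {I Q R : Type} [Fintype I] [DecidableEq I] [Fintype Q] [DecidableEq Q]
    [Fintype R] [Nonempty I] (s : I → G) (g : G) (w : I → ℝ) (hw : ∀ i, 0 ≤ w i) (β : Bool)
    (c0 : (I × Bool) ⊕ Q) (e : R → Q) (he : Function.Injective e) (y : R → A) :
    star (S.twC s g w β e y) * S.twC s g w β e y
      = ∑ i, ((w i : ℝ) : ℂ) • (S.ampT ((I × Bool) ⊕ Q)).α (s i)
        (star (S.row c0 (fun r => Sum.inr (e r)) fun r => S.α (if β = true then g else 1) (y r))
          * S.row c0 (fun r => Sum.inr (e r)) fun r => S.α (if β = true then g else 1) (y r)) := by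
  have he' : Function.Injective fun r => (Sum.inr (e r) : (I × Bool) ⊕ Q) :=
    fun a b h => he (Sum.inr_injective h)
  unfold TrAct.twC
  rw [S.col_gram _ _ c0 _ he', tw_sum w hw β]
  refine Finset.sum_congr rfl fun i _ => ?_
  congr 1
  have h1 : twS s g (Sum.inl (i, β) : (I × Bool) ⊕ Q) = s i * (if β = true then g else 1) := by
    cases β
    · change s i = s i * 1
      rw [mul_one]
    · rfl
  rw [h1, (S.ampT ((I × Bool) ⊕ Q)).mul, map_mul ((S.ampT ((I × Bool) ⊕ Q)).α _),
    map_star, S.row_α c0 _ he']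

end

end Pool.Agent.AbCoc
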