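import Pool.Agent.Lib_MP_418a80_nm.EP2b

/-!
# Diagonal corners, part 2c: existence of the two copies
-/

set_option autoImplicit false
set_option linter.unusedVariables false
set_option linter.unusedSectionVars false

open Topology Filter MeasureTheory

namespace Pool.Agent.AbCoc

universe u v w

section
variable {A : Type u} [CStarAlgebra A] [PartialOrder A] [StarOrderedRing A]
  {K : Type v} [NormedAddCommGroup K] [InnerProductSpace ℂ K]
variable {G : Type w} [Group G] [TopologicalSpace G] {T : TrAlg A K} (S : TrAct G T)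

theorem ep_smul_nonneg {r : ℝ} (hr : 0 ≤ r) {a : A} (ha : 0 ≤ a) : 0 ≤ ((r : ℝ) : ℂ) • a := by
  obtain ⟨z, rfl⟩ := CStarAlgebra.nonneg_iff_eq_star_mul_self.1 ha
  refine CStarAlgebra.nonneg_iff_eq_star_mul_self.2 ⟨((Real.sqrt r : ℝ) : ℂ) • z, ?_⟩
  rw [star_smul, smul_mul_smul_comm, Complex.star_def, Complex.conj_ofReal, ← Complex.ofReal_mul,
    Real.mul_self_sqrt hr]

theorem ep_le_norm (a : A) (ha : 0 ≤ a) : a ≤ (((‖a‖ + 1 : ℝ)) : ℂ) • (1 : A) := by
  have h1 : a ≤ algebraMap ℝ A ‖a‖ := (IsSelfAdjoint.of_nonneg ha).le_algebraMap_norm_self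
  have h2 : (((‖a‖ + 1 : ℝ)) : ℂ) • (1 : A) = algebraMap ℝ A ‖a‖ + ((1 : ℝ) : ℂ) • (1 : A) := by
    rw [Algebra.algebraMap_eq_smul_one, Complex.ofReal_add, add_smul, Complex.coe_smul]
  rw [h2]
  have h3 : (0 : A) ≤ ((1 : ℝ) : ℂ) • (1 : A) := ep_smul_nonneg zero_le_one zero_le_one
  calc a ≤ algebraMap ℝ A ‖a‖ := h1
    _ ≤ _ := le_add_of_nonneg_right h3

/-- sums over words of unitary multiples -/
theorem TrAct.words_sum {W : Type} [Fintype W] (c : W → A)
    (hc : ∑ v, star (c v) * c v = 1) (a : A) : ∑ v, ‖T.ι (c v * a)‖ ^ 2 = ‖T.ι a‖ ^ 2 := by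
  have e3 : ∀ v, ‖T.ι (c v * a)‖ ^ 2 = (T.τ (star a * (star (c v) * c v) * a)).re := by
    intro v
    rw [T.norm_sq, star_mul]
    congr 2
    noncomm_ring
  rw [Finset.sum_congr rfl fun v _ => e3 v, ← Complex.re_sum, ← T.τ_sum', ← Finset.sum_mul,
    ← Finset.mul_sum, hc, mul_one, T.norm_sq]

theorem TrAlg.L1.of_smul {X : Type} [Fintype X] [DecidableEq X] {f : Mt X A} {ρ η : ℝ}
    (hρ : 0 < ρ) (h : T.L1 (((ρ : ℝ) : ℂ) • f) (ρ * η)) : T.L1 f η := by
  intro y hy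
  have h1 := h y hy
  rw [mul_smul_comm, T.TrM_smul, norm_mul, Complex.norm_real, Real.norm_of_nonneg hρ.le] at h1
  exact le_of_mul_le_mul_left h1 hρ

end

section
variable {A : Type u} [CStarAlgebra A] [PartialOrder A] [StarOrderedRing A]
  {K : Type v} [NormedAddCommGroup K] [InnerProductSpace ℂ K] [CompleteSpace K]
variable {G : Type w} [Group G] [TopologicalSpace G] {T : TrAlg A K} (S : TrAct G T)
variable [IsTopologicalGroup G] [SecondCountableTopology G] [MeasurableSpace G] [BorelSpace G]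
  (μ : Measure G) [μ.IsMulLeftInvariant]

theorem TrAct.exists_two {b b3 β : A} (h1 : b3 = b * β) (h2 : b3 = β * b) (hfix : S.Fixed b3)
    (hsa : star b3 = b3) {C ε κ₀ m : ℝ} {D : Set G} (hneg : S.Neg b C ε D κ₀) {F : G → ℝ}
    (hF : Integrable F μ) (hF0 : ∀ t, 0 ≤ F t) (hF1 : ∫ t, F t ∂μ = 1)
    (hFD : ∀ s ∈ D, m * ∫ t, |F (s⁻¹ * t) - F t| ∂μ ≤ κ₀) {CF : Set G} (hCF : IsCompact CF)
    (hFC : ∀ t, t ∉ CF → F t = 0) {N : Set G} (hcomb : S.Comb N) {P Λ : Type} [Fintype P]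
    [DecidableEq P] [Fintype Λ] (x : P → A) (hm : ∑ p, ‖T.ι (x p)‖ ^ 2 ≤ m)
    (hdom : ∀ z : A, ∑ p, ‖T.ι (x p * z)‖ ^ 2 ≤ C * ‖T.ι z‖ ^ 2) (hb : ∀ p, x p * b3 = x p)
    (h : Λ → G → ℝ) (hh1 : ∀ l, Continuous (h l)) (hh2 : ∀ l s n, n ∈ N → h l (s * n) = h l s)
    (hh3 : ∀ l s, |h l s| ≤ 1) (g : G) {ηd ηc : ℝ} (hηd : 0 < ηd) (hηc : 0 < ηc) :
    ∃ (I Q W : Type) (_ : Fintype I) (_ : DecidableEq I) (_ : Nonempty I) (_ : Fintype Q)
      (_ : DecidableEq Q) (_ : Fintype W) (_ : DecidableEq W) (_ : Nonempty W) (s : I → G)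
      (w : I → ℝ) (e0 : W × P → Q) (c : W → A),
      S.IsTwo CF g x h (8 * (Real.sqrt m * Real.sqrt ε) + ηd) ηc s w e0 c := by
  classical
  let _ : InnerProductSpace ℝ K := InnerProductSpace.rclikeToReal ℂ K
  -- the scale
  obtain ⟨M0, hM0, hM⟩ : ∃ M0 : ℝ, 0 < M0 ∧ (∑ p, x p * star (x p)) ≤ ((M0 : ℝ) : ℂ) • (1 : A) :=
    ⟨‖∑ p, x p * star (x p)‖ + 1, by positivity,
      ep_le_norm _ (Finset.sum_nonneg fun p _ => mul_star_self_nonneg _)⟩
  obtain ⟨ρ, hρ⟩ : ∃ ρ : ℝ, ρ = (2 * M0)⁻¹ := ⟨_, rfl⟩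
  have hρ0 : 0 < ρ := by rw [hρ]; positivity
  have hρM : ρ * M0 = 1 / 2 := by rw [hρ]; field_simp
  -- the compact set and the letters
  obtain ⟨C', hC'⟩ : ∃ C' : Set G, C' = CF ∪ (fun t => t * g) '' CF := ⟨_, rfl⟩
  have hC'c : IsCompact C' := by
    rw [hC']
    exact hCF.union (hCF.image (continuous_mul_const g))
  obtain ⟨J, _, _, u, hu1, hu2, hu3, δ, hδ, n0, hcb⟩ := hcomb C' hC'c Λ h hh1 hh2 hh3 (ρ * ηc)
    (by positivity)
  -- the errors
  obtain ⟨ω, hω⟩ : ∃ ω : ℝ, ω = ηd / (4 * Real.sqrt m + 1) := ⟨_, rfl⟩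
  have hω0 : 0 < ω := by rw [hω]; positivity
  have hωm : 4 * Real.sqrt m * ω ≤ ηd := by
    rw [hω, mul_div_assoc', div_le_iff₀ (by positivity)]
    nlinarith [Real.sqrt_nonneg m]
  obtain ⟨B, hB⟩ : ∃ B : ℝ, B = ∑ p, (‖x p‖ + 1) ^ 2 := ⟨_, rfl⟩
  have hB0 : 0 ≤ B := by rw [hB]; exact Finset.sum_nonneg fun p _ => sq_nonneg _
  obtain ⟨θ, hθ⟩ : ∃ θ : ℝ, θ = ω / (B + 1) := ⟨_, rfl⟩
  have hθ0 : 0 < θ := by rw [hθ]; positivity
  have hθB : θ ^ 2 * B ≤ ω ^ 2 := by
    have e1 : θ * (B + 1) = ω := by rw [hθ]; field_simp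
    have e2 : θ ^ 2 * B ≤ (θ * (B + 1)) ^ 2 := by
      rw [mul_pow]
      refine mul_le_mul_of_nonneg_left ?_ (sq_nonneg _)
      nlinarith
    rwa [e1] at e2
  obtain ⟨δ', hδ'⟩ : ∃ δ' : ℝ, δ' = min (δ / 2) θ := ⟨_, rfl⟩
  have hδ'0 : 0 < δ' := by rw [hδ']; exact lt_min (half_pos hδ) hθ0
  have hδ'1 : δ' ≤ δ / 2 := by rw [hδ']; exact min_le_left _ _
  have hδ'2 : δ' ≤ θ := by rw [hδ']; exact min_le_right _ _
  -- the cells
  obtain ⟨gb, hgb⟩ : ∃ gb : Bool → G, gb = fun β => if β = true then g else 1 := ⟨_, rfl⟩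
  have hgbt : gb true = g := by rw [hgb]; rfl
  have hgbf : gb false = 1 := by rw [hgb]; rfl
  have hΦ : OECells fun (q : J × Bool) t => T.ι (S.α (t * gb q.2) (u q.1)) := by
    refine OECells.of_forall fun q => ?_
    intro C1 hC1 δ1 hδ1
    obtain ⟨n1, hn1⟩ := (hu3.translate (gb q.2)) C1 hC1 δ1 hδ1
    refine ⟨n1, fun n hn => ?_⟩
    obtain ⟨I, hI, κ, a1, a2, a3⟩ := hn1 n hn
    exact ⟨I, hI, κ, a1, a2, fun _ s hs t ht hst => a3 q.1 s hs t ht hst⟩
  have hΨ : ∀ q : P × Bool, Continuous fun t => T.ι (S.α (t * gb q.2) (x q.1)) := fun q =>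
    (S.cont (x q.1)).comp (continuous_mul_const (gb q.2))
  obtain ⟨n1, hn1⟩ := oe_exists_cells hF hF0 hCF hFC hΦ hΨ hδ'0 hθ0
  obtain ⟨n2, hn2⟩ := exists_nat_ge (2 * Real.log 2 / δ)
  obtain ⟨n, hn⟩ : ∃ n : ℕ, n = max (max n0 n1) (max n2 1) := ⟨_, rfl⟩
  have hn0' : n0 ≤ n := by rw [hn]; exact (le_max_left _ _).trans (le_max_left _ _)
  have hn1' : n1 ≤ n := by rw [hn]; exact (le_max_right _ _).trans (le_max_left _ _)
  have hn2' : n2 ≤ n := by rw [hn]; exact (le_max_left _ _).trans (le_max_right _ _)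
  have hn3' : 1 ≤ n := by rw [hn]; exact (le_max_right _ _).trans (le_max_right _ _)
  obtain ⟨I, _, _, _, κ, s, w, hcell, hcard, hosc1, hosc2⟩ := hn1 n hn1'
  have hw := hcell.w_nonneg
  have hw1 : ∑ i, w i = 1 := hcell.w_sum.trans hF1
  -- the words
  choose W iF iD iN c hc using fun k : ℕ => S.exists_words u hu1 hu2 k
  let Q : Type := Σ k : Fin (n + 1), W k × P
  let X : Type := (I × Bool) ⊕ Q
  obtain ⟨ζ, hζ⟩ : ∃ ζ : X → ℝ, ζ = fun a => twZ w false a + twZ w true a := ⟨_, rfl⟩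
  have hζsq : ∀ a, ζ a ^ 2 = twZ w false a ^ 2 + twZ w true a ^ 2 := by
    intro a
    rw [hζ]
    rcases a with ⟨i, β⟩ | q
    · cases β
      · simp [twZ]
      · simp [twZ]
    · simp [twZ]
  obtain ⟨Fw, hFw⟩ : ∃ Fw : X → ℝ, Fw = fun a => ζ a ^ 2 / 2 := ⟨_, rfl⟩
  have hζsum : ∑ a, ζ a ^ 2 = 2 := by
    rw [Finset.sum_congr rfl fun a _ => hζsq a, Finset.sum_add_distrib, twZ_sum_sq w hw,
      twZ_sum_sq w hw, hw1]
    norm_num
  have hFw0 : ∀ a, 0 ≤ Fw a := fun a => by rw [hFw]; positivity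
  have hFw1 : ∑ a, Fw a ≤ 1 := by
    rw [hFw]
    simp only
    rw [← Finset.sum_div, hζsum]
    norm_num
  have hne : ∀ a, Fw a ≠ 0 → ∃ (i : I) (β : Bool), a = Sum.inl (i, β) ∧ w i ≠ 0 := by
    intro a ha
    rcases a with ⟨i, β⟩ | q
    · refine ⟨i, β, rfl, fun h0 => ha ?_⟩
      rw [hFw, hζ]
      simp [twZ, h0]
    · exact absurd (by rw [hFw, hζ]; simp [twZ]) ha
  have hFwC : ∀ a, Fw a ≠ 0 → twS s g a ∈ C' := by
    intro a ha
    obtain ⟨i, β, rfl, hi⟩ := hne a ha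
    rw [hC']
    cases β
    · exact Or.inl (hcell.mem i hi)
    · exact Or.inr ⟨s i, hcell.mem i hi, rfl⟩
  have hFwcard : Real.log (Nat.card {a // Fw a ≠ 0}) ≤ δ * n := by
    have hδn : (0 : ℝ) ≤ δ * n := by positivity
    rcases Nat.eq_zero_or_pos (Nat.card {a // Fw a ≠ 0}) with h0 | h0
    · rw [h0]
      simpa using hδn
    have hinj : Nat.card {a // Fw a ≠ 0} ≤ Nat.card (I × Bool) := by
      refine Nat.card_le_card_of_injective (fun a : {a // Fw a ≠ 0} =>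
        ((hne a.1 a.2).choose, (hne a.1 a.2).choose_spec.choose)) ?_
      intro a a' haa
      have e1 := (hne a.1 a.2).choose_spec.choose_spec.1
      have e2 := (hne a'.1 a'.2).choose_spec.choose_spec.1
      have e3 := haa
      simp only at e3
      exact Subtype.ext (e1.trans ((congrArg Sum.inl e3).trans e2.symm))
    have e4 : (Nat.card (I × Bool) : ℝ) = 2 * (Fintype.card I : ℝ) := by
      rw [Nat.card_eq_fintype_card, Fintype.card_prod, Fintype.card_bool]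
      push_cast
      ring
    have hI : (0 : ℝ) < (Fintype.card I : ℝ) := Nat.cast_pos.2 Fintype.card_pos
    have e5 : Real.log (Nat.card {a // Fw a ≠ 0}) ≤ Real.log 2 + Real.log (Fintype.card I) := by
      rw [← Real.log_mul two_ne_zero hI.ne', ← e4]
      exact Real.log_le_log (by exact_mod_cast h0) (by exact_mod_cast hinj)
    have e6 : Real.log 2 ≤ δ / 2 * n := by
      have e7 : (n2 : ℝ) ≤ n := by exact_mod_cast hn2'
      have e8 : 2 * Real.log 2 / δ ≤ n := hn2.trans e7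
      rw [div_le_iff₀ hδ] at e8
      linarith
    have e9 : δ' * n ≤ δ / 2 * n := mul_le_mul_of_nonneg_right hδ'1 (Nat.cast_nonneg _)
    linarith
  obtain ⟨f0, hf0⟩ : ∃ f0 : Mt X A, f0 = ((ρ : ℝ) : ℂ) • S.ker (twS s g) ζ x := ⟨_, rfl⟩
  have hf0s : ∃ z, f0 = star z * z := by
    obtain ⟨v0⟩ := iN 0
    have he : Function.Injective fun p : P => (Sum.inr ⟨0, (v0, p)⟩ : X) := by
      intro p p' hp
      have e1 := Sum.inr_injective hp
      exact (Prod.mk.inj (eq_of_heq (Sigma.mk.inj e1).2)).2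
    refine ⟨((Real.sqrt ρ : ℝ) : ℂ)
      • star (S.col (twS s g) ζ (fun p : P => (Sum.inr ⟨0, (v0, p)⟩ : X)) x), ?_⟩
    rw [star_smul, star_star, smul_mul_smul_comm, S.col_mul_star _ _ _ he, Complex.star_def,
      Complex.conj_ofReal, ← Complex.ofReal_mul, Real.mul_self_sqrt hρ0.le, hf0]
  have hf0d : ∀ a, f0 a a ≤ ((Fw a : ℝ) : ℂ) • (1 : A) := by
    intro a
    have e1 : f0 a a = ((ρ : ℝ) : ℂ) • S.ker (twS s g) ζ x a a := by rw [hf0]; rfl
    rw [e1, S.ker_add_star, ← sub_nonneg, smul_smul, ← Complex.ofReal_mul]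
    have e2 : ((Fw a : ℝ) : ℂ) • (1 : A) = ((ρ * ζ a ^ 2 : ℝ) : ℂ)
        • S.α (twS s g a) (((M0 : ℝ) : ℂ) • (1 : A)) := by
      rw [map_smul, map_one, smul_smul, ← Complex.ofReal_mul]
      congr 2
      rw [hFw]
      simp only
      calc ζ a ^ 2 / 2 = (1 / 2) * ζ a ^ 2 := by ring
        _ = (ρ * M0) * ζ a ^ 2 := by rw [hρM]
        _ = _ := by ring
    rw [e2, ← smul_sub, ← map_sub]
    exact ep_smul_nonneg (by positivity) (hyp_map_nonneg _ (sub_nonneg.2 hM))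
  obtain ⟨k, hk, hc1, -⟩ := hcb n hn0' X (twS s g) Fw hFw0 hFw1 hFwC hFwcard f0 f0 hf0s hf0s hf0d
    hf0d
  obtain ⟨e0, he0⟩ : ∃ e0 : W k × P → Q, e0 = fun q => ⟨⟨k, Nat.lt_succ_of_le hk⟩, q⟩ := ⟨_, rfl⟩
  have he0i : Function.Injective e0 := by
    intro q q' hq
    rw [he0] at hq
    exact eq_of_heq (Sigma.mk.inj hq).2
  have hei : Function.Injective fun q => (Sum.inr (e0 q) : X) :=
    fun a a' haa => he0i (Sum.inr_injective haa)
  refine ⟨I, Q, W k, inferInstance, inferInstance, inferInstance, inferInstance, inferInstance,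
    iF k, iD k, iN k, s, w, e0, c k, he0i, hw, hw1, hcell.mem, (hc k).sum_star_mul, (hc k).unit,
    ?_, fun l => ?_⟩
  · -- the Gram matrices
    obtain ⟨i0⟩ : Nonempty I := inferInstance
    obtain ⟨c0, hc0⟩ : ∃ c0 : X, c0 = Sum.inl (i0, false) := ⟨_, rfl⟩
    obtain ⟨y, hy⟩ : ∃ y : W k × P → A, y = fun q => c k q.1 * x q.2 := ⟨_, rfl⟩
    have hymass : ∀ (γ : G) (z : A), ∑ q, ‖T.ι (S.α γ (y q) * z)‖ ^ 2
        = ∑ p, ‖T.ι (x p * S.α γ⁻¹ z)‖ ^ 2 := by
      intro γ z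
      rw [Fintype.sum_prod_type, Finset.sum_comm]
      refine Finset.sum_congr rfl fun p _ => ?_
      rw [← TrAct.words_sum (T := T) (c k) (hc k).sum_star_mul]
      refine Finset.sum_congr rfl fun v _ => ?_
      rw [← S.norm_map γ (c k v * (x p * S.α γ⁻¹ z)), hy]
      simp only [map_mul, S.apply_inv, mul_assoc]
    have hcopy : ∀ β' : Bool, T.L1 (∑ i, ((w i : ℝ) : ℂ) • (S.ampT X).α (s i)
        (star (S.row c0 (fun r => Sum.inr (e0 r)) fun r => S.α (gb β') (y r))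
          * S.row c0 (fun r => Sum.inr (e0 r)) fun r => S.α (gb β') (y r))
        - (S.ampT X).E (star (S.row c0 (fun r => Sum.inr (e0 r)) y)
          * S.row c0 (fun r => Sum.inr (e0 r)) y))
        (2 * Real.sqrt m * ω + 4 * (Real.sqrt m * Real.sqrt ε)) := by
      intro β'
      have e1 := S.gram_copy μ h1 h2 hfix hsa hneg hF hF0 hF1 hFD hFC hcell c0
        (fun r => (Sum.inr (e0 r) : X)) hei (fun r => S.α (gb β') (y r))
        (by
          have e2 := hymass (gb β') 1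
          simp only [map_one, mul_one] at e2
          rw [e2]
          exact hm)
        (fun z => by
          rw [hymass, ← S.norm_map (gb β')⁻¹ z]
          exact hdom _)
        (fun q => by
          have e2 : S.α (gb β') (y q) * b3 = S.α (gb β') (y q * b3) := by rw [map_mul, hfix]
          rw [e2, hy]
          simp only
          rw [mul_assoc, hb])
        hω0.le (fun t ht => by
          have e2 := S.words_osc (hc k) x (s := t * gb β') (t := s (κ t) * gb β') (η := δ' / n)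
            (θ := θ) (by positivity) hθ0.le (fun j => by rw [map_sub]; exact hosc1 t ht (j, β'))
            (fun p => by rw [map_sub]; exact hosc2 t ht (p, β'))
          have e3 : ∑ q : W k × P, ‖T.ι (S.α t (S.α (gb β') (y q))
              - S.α (s (κ t)) (S.α (gb β') (y q)))‖ ^ 2
              = ∑ q : W k × P, ‖T.ι (S.α (t * gb β') (c k q.1 * x q.2)
                - S.α (s (κ t) * gb β') (c k q.1 * x q.2))‖ ^ 2 := by
            refine Finset.sum_congr rfl fun q _ => ?_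
            rw [hy, S.mul, S.mul]
          rw [e3]
          refine e2.trans (le_trans ?_ hθB)
          rw [hB, Finset.mul_sum]
          refine Finset.sum_le_sum fun p _ => ?_
          rw [← mul_pow]
          refine pow_le_pow_left₀ (by positivity) ?_ 2
          have e4 : (k : ℝ) * (δ' / n) ≤ θ := by
            have e5 : (0 : ℝ) < n := by exact_mod_cast hn3'
            have e6 : (k : ℝ) ≤ n := by exact_mod_cast hk
            calc (k : ℝ) * (δ' / n) ≤ n * (δ' / n) :=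
                  mul_le_mul_of_nonneg_right e6 (by positivity)
              _ = δ' := by field_simp
              _ ≤ θ := hδ'2
          nlinarith [norm_nonneg (x p), mul_le_mul_of_nonneg_right e4 (norm_nonneg (x p))])
      have e7 : star (S.row c0 (fun r => (Sum.inr (e0 r) : X)) fun r => S.α (gb β') (y r))
          * (S.row c0 (fun r => (Sum.inr (e0 r) : X)) fun r => S.α (gb β') (y r))
          = (S.ampT X).α (gb β') (star (S.row c0 (fun r => (Sum.inr (e0 r) : X)) y)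
            * S.row c0 (fun r => (Sum.inr (e0 r) : X)) y) := by
        rw [map_mul, map_star, S.row_α c0 _ hei]
      have e8 := (S.ampT X).E_α (gb β') (star (S.row c0 (fun r => (Sum.inr (e0 r) : X)) y)
            * S.row c0 (fun r => (Sum.inr (e0 r) : X)) y)
      rw [← e7] at e8
      rwa [e8] at e1
    have g0 := S.twC_gram s g w hw false c0 e0 he0i y
    have g1 := S.twC_gram s g w hw true c0 e0 he0i y
    have hgb' : ∀ β' : Bool, (if β' = true then g else 1) = gb β' := fun β' => by rw [hgb]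
    rw [hgb'] at g0 g1
    have e9 := (hcopy false).sub T (hcopy true)
    rw [sub_sub_sub_cancel_right, ← g0, ← g1, hy] at e9
    refine e9.mono T ?_
    linarith
  · have e1 := hc1 l
    have e2 : (S.wk (twS s g) u)^[k] f0 = ((ρ : ℝ) : ℂ)
        • ((S.twC s g w false e0 (fun q => c k q.1 * x q.2)
          + S.twC s g w true e0 (fun q => c k q.1 * x q.2))
        * star (S.twC s g w false e0 (fun q => c k q.1 * x q.2)
          + S.twC s g w true e0 (fun q => c k q.1 * x q.2))) := by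
      rw [hf0, S.ep_wk_iterate_smul]
      congr 1
      unfold TrAct.twC
      rw [S.col_add, S.col_mul_star _ _ _ hei, (hc k).ker, hζ]
    rw [e2, mul_smul_comm, smul_mul_assoc, ← smul_sub] at e1
    exact e1.of_smul hρ0

end

end Pool.Agent.AbCoc
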