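import Pool.Agent.Lib_MP_418a80_nm.AmpT2

/-!
# REL, part A: fidelity and the square root of a Gram element
-/

set_option autoImplicit false
set_option linter.unusedVariables false
set_option linter.unusedSectionVars false

open Topology Filter

namespace Pool.Agent.AbCoc

universe u v w

section
variable {B : Type u} [CStarAlgebra B] [PartialOrder B] [StarOrderedRing B]
  {K : Type v} [NormedAddCommGroup K] [InnerProductSpace ℂ K] (T : TrAlg B K)

/-- regularised inverse square root, square root and the product of `ρ` with the former -/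
theorem rel_roots {ρ : B} (hρ : 0 ≤ ρ) {e : ℝ} (he : 0 < e) :
    ∃ q r s z : B, IsSelfAdjoint q ∧ IsSelfAdjoint r ∧ ρ * q = r ∧ q * ρ = r ∧ ‖q * ρ * q‖ ≤ 1 ∧
      s = star z * z ∧ s * s = ρ ∧ ‖s - r‖ ≤ e := by
  have hsa : IsSelfAdjoint ρ := IsSelfAdjoint.of_nonneg hρ
  have hsp : ∀ t ∈ spectrum ℝ ρ, 0 ≤ t := fun t ht => spectrum_nonneg_of_nonneg hρ ht
  set f : ℝ → ℝ := fun t => (Real.sqrt (|t| + e ^ 2))⁻¹ with hf
  have hpos : ∀ t : ℝ, 0 < |t| + e ^ 2 := fun t => by positivity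
  have hfc : Continuous f := by
    refine Continuous.inv₀ (by fun_prop) fun t => ?_
    exact (Real.sqrt_pos.2 (hpos t)).ne'
  have hsc : Continuous fun t : ℝ => Real.sqrt |t| := by fun_prop
  have hrc : Continuous fun t : ℝ => t * f t := continuous_id.mul hfc
  have h1 : ρ * cfc f ρ = cfc (fun t : ℝ => t * f t) ρ := hyp_mul_cfc hsa hfc
  have h2 : cfc f ρ * ρ = cfc (fun t : ℝ => t * f t) ρ := hyp_cfc_mul hsa hfc
  have hs0 : 0 ≤ cfc (fun t : ℝ => Real.sqrt |t|) ρ := cfc_nonneg fun t _ => Real.sqrt_nonneg _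
  obtain ⟨z, hz⟩ := CStarAlgebra.nonneg_iff_eq_star_mul_self.1 hs0
  refine ⟨cfc f ρ, cfc (fun t : ℝ => t * f t) ρ, cfc (fun t : ℝ => Real.sqrt |t|) ρ, z,
    cfc_predicate f ρ, cfc_predicate _ ρ, h1, h2, ?_, hz, ?_, ?_⟩
  · rw [h2, ← cfc_mul (fun t : ℝ => t * f t) f ρ hrc.continuousOn hfc.continuousOn]
    refine norm_cfc_le zero_le_one fun t ht => ?_
    have h3 := hsp t ht
    have h4 : f t * f t = (t + e ^ 2)⁻¹ := by
      rw [hf]
      simp only
      rw [← mul_inv, Real.mul_self_sqrt (hpos t).le, abs_of_nonneg h3]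
    rw [mul_assoc, h4, Real.norm_eq_abs, abs_of_nonneg (by positivity), ← div_eq_mul_inv]
    rw [div_le_one (by positivity)]
    nlinarith
  · rw [← cfc_mul (fun t : ℝ => Real.sqrt |t|) (fun t : ℝ => Real.sqrt |t|) ρ hsc.continuousOn
      hsc.continuousOn]
    have h3 : cfc (fun t : ℝ => Real.sqrt |t| * Real.sqrt |t|) ρ = cfc (fun t : ℝ => t) ρ := by
      refine cfc_congr fun t ht => ?_
      rw [Real.mul_self_sqrt (abs_nonneg t), abs_of_nonneg (hsp t ht)]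
    rw [h3, cfc_id' ℝ ρ]
  · rw [← cfc_sub (fun t : ℝ => Real.sqrt |t|) (fun t : ℝ => t * f t) ρ hsc.continuousOn
      hrc.continuousOn]
    refine norm_cfc_le he.le fun t ht => ?_
    have h3 := hsp t ht
    have h5 : 0 < Real.sqrt (t + e ^ 2) := Real.sqrt_pos.2 (by positivity)
    have h6 : Real.sqrt t ≤ Real.sqrt (t + e ^ 2) := Real.sqrt_le_sqrt (by nlinarith)
    have h7 : Real.sqrt (t + e ^ 2) ≤ Real.sqrt t + e := by
      rw [Real.sqrt_le_left (by positivity)]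
      have := Real.sq_sqrt h3
      nlinarith [Real.sqrt_nonneg t]
    have h8 : t * f t = t / Real.sqrt (t + e ^ 2) := by
      rw [hf]
      simp only
      rw [abs_of_nonneg h3, div_eq_mul_inv]
    rw [h8, abs_of_nonneg h3, Real.norm_eq_abs]
    have h9 : Real.sqrt t - t / Real.sqrt (t + e ^ 2)
        = Real.sqrt t / Real.sqrt (t + e ^ 2) * (Real.sqrt (t + e ^ 2) - Real.sqrt t) := by
      field_simp
      rw [mul_sub, Real.mul_self_sqrt h3]
    have h10 : Real.sqrt t / Real.sqrt (t + e ^ 2) ≤ 1 := (div_le_one h5).2 h6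
    have h11 : 0 ≤ Real.sqrt (t + e ^ 2) - Real.sqrt t := by linarith
    have h12 : 0 ≤ Real.sqrt t / Real.sqrt (t + e ^ 2) := by positivity
    rw [h9, abs_of_nonneg (mul_nonneg h12 h11)]
    calc Real.sqrt t / Real.sqrt (t + e ^ 2) * (Real.sqrt (t + e ^ 2) - Real.sqrt t)
        ≤ 1 * (Real.sqrt (t + e ^ 2) - Real.sqrt t) := mul_le_mul_of_nonneg_right h10 h11
      _ ≤ e := by linarith

theorem rel_aux_sq (v r e : ℝ) (hv : 0 ≤ v) (hr : 0 ≤ r) (he : 0 < e) (h : v ≤ r + e) :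
    v ^ 2 - 2 * e * v ≤ r ^ 2 := by
  rcases le_total e v with h1 | h1
  · have h2 := pow_le_pow_left₀ (sub_nonneg.2 h1) (show v - e ≤ r by linarith) 2
    nlinarith [sq_nonneg e]
  · have h2 : v * (v - 2 * e) ≤ 0 := mul_nonpos_of_nonneg_of_nonpos hv (by linarith)
    nlinarith [sq_nonneg r]

/-- a contraction witnessing the fidelity of `V₁ V₁*` and `V₂ V₂*` -/
theorem TrAlg.fidelity (V1 V2 : B) {c : ℝ}
    (hc : ∀ y : B, ‖y‖ ≤ 1 → ‖T.τ ((V1 * star V1 - V2 * star V2) * y)‖ ≤ c) {δ : ℝ}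
    (hδ : 0 < δ) :
    ∃ g : B, ‖star V1 * g * V2‖ ≤ 1 ∧
      (‖T.ι V1‖ ^ 2 + ‖T.ι V2‖ ^ 2 - c) / 2 - δ
        ≤ (T.τ (star (star V1 * g * V2) * (star V1 * V2))).re := by
  set S : ℝ := ‖T.ι V1‖ + ‖T.ι V2‖ with hS
  have hS0 : 0 ≤ S := by positivity
  obtain ⟨e, he0, he1⟩ : ∃ e : ℝ, 0 < e ∧ 3 * e * S + 2 * e ^ 2 ≤ δ := by
    refine ⟨min 1 (δ / (3 * S + 2)), by positivity, ?_⟩
    set e := min 1 (δ / (3 * S + 2)) with he
    have h1 : e ≤ 1 := min_le_left _ _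
    have h2 : e ≤ δ / (3 * S + 2) := min_le_right _ _
    have h0 : 0 < e := by positivity
    rw [le_div_iff₀ (by positivity)] at h2
    nlinarith
  have hρ1 : 0 ≤ V1 * star V1 := mul_star_self_nonneg V1
  have hρ2 : 0 ≤ V2 * star V2 := mul_star_self_nonneg V2
  obtain ⟨q1, r1, s1, z1, q1s, r1s, a1, b1, c1, d1, e1, f1⟩ := rel_roots hρ1 he0
  obtain ⟨q2, r2, s2, z2, q2s, r2s, a2, b2, c2, d2, e2, f2⟩ := rel_roots hρ2 he0
  have hcontr : ∀ (V q : B), IsSelfAdjoint q → ‖q * (V * star V) * q‖ ≤ 1 → ‖q * V‖ ≤ 1 := by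
    intro V q hq h
    have h1 : ‖(q * V) * star (q * V)‖ ≤ 1 := by
      rw [star_mul, hq.star_eq]
      have : q * V * (star V * q) = q * (V * star V) * q := by noncomm_ring
      rw [this]
      exact h
    rw [CStarRing.norm_self_mul_star] at h1
    nlinarith [norm_nonneg (q * V)]
  have hW1 := hcontr V1 q1 q1s c1
  have hW2 := hcontr V2 q2 q2s c2
  refine ⟨q1 * q2, ?_, ?_⟩
  · have h1 : star V1 * (q1 * q2) * V2 = star (q1 * V1) * (q2 * V2) := by
      rw [star_mul, q1s.star_eq]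
      noncomm_ring
    rw [h1]
    refine (norm_mul_le _ _).trans ?_
    rw [_root_.norm_star]
    exact mul_le_one₀ hW1 (norm_nonneg _) hW2
  · have h1 : T.τ (star (star V1 * (q1 * q2) * V2) * (star V1 * V2)) = T.τ (star r2 * r1) := by
      have h2 : star (star V1 * (q1 * q2) * V2) * (star V1 * V2)
          = star V2 * (q2 * (q1 * (V1 * star V1)) * V2) := by
        simp only [star_mul, star_star, q1s.star_eq, q2s.star_eq]
        noncomm_ring
      rw [h2, b1, T.τ_mul_comm, r2s.star_eq]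
      have h3 : q2 * r1 * V2 * star V2 = (q2 * r1) * (V2 * star V2) := by noncomm_ring
      rw [h3, T.τ_mul_comm, ← mul_assoc, a2]
    rw [h1, ← T.inner_eq_τ]
    have hVn : ∀ V : B, ‖T.ι V‖ ^ 2 = (T.τ (V * star V)).re := fun V => by
      rw [T.norm_sq, T.τ_mul_comm]
    have hsn : ∀ (s z : B), s = star z * z → ∀ V : B, s * s = V * star V →
        ‖T.ι s‖ ^ 2 = ‖T.ι V‖ ^ 2 := by
      intro s z hs V hV
      have hss : star s = s := by rw [hs, star_mul, star_star]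
      rw [T.norm_sq, hss, hV, hVn]
    have hs1 := hsn s1 z1 d1 V1 e1
    have hs2 := hsn s2 z2 d2 V2 e2
    have hs1' : ‖T.ι s1‖ = ‖T.ι V1‖ :=
      (pow_left_inj₀ (norm_nonneg _) (norm_nonneg _) two_ne_zero).1 hs1
    have hs2' : ‖T.ι s2‖ = ‖T.ι V2‖ :=
      (pow_left_inj₀ (norm_nonneg _) (norm_nonneg _) two_ne_zero).1 hs2
    have hps : ‖T.ι (s1 - s2)‖ ^ 2 ≤ c := by
      refine T.powers_stormer_ex ⟨z1, d1⟩ ⟨z2, d2⟩ fun y hy => ?_
      rw [e1, e2]
      exact hc y hy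
    have hd1 : ‖T.ι s1 - T.ι r1‖ ≤ e := by
      rw [← map_sub]
      exact (T.norm_le _).trans f1
    have hd2 : ‖T.ι s2 - T.ι r2‖ ≤ e := by
      rw [← map_sub]
      exact (T.norm_le _).trans f2
    have hn1 : ‖T.ι s1‖ ≤ ‖T.ι r1‖ + e := by
      have := norm_sub_norm_le (T.ι s1) (T.ι r1)
      linarith
    have hn2 : ‖T.ι s2‖ ≤ ‖T.ι r2‖ + e := by
      have := norm_sub_norm_le (T.ι s2) (T.ι r2)
      linarith
    have hps' : ‖T.ι s1 - T.ι s2‖ ^ 2 ≤ c := by rw [← map_sub]; exact hps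
    have hss : ‖T.ι s1 - T.ι s2‖ ≤ S := by
      rw [hS, ← hs1', ← hs2']
      exact norm_sub_le _ _
    have hrr : ‖T.ι r2 - T.ι r1‖ ≤ ‖T.ι s1 - T.ι s2‖ + 2 * e := by
      have h4 : T.ι r2 - T.ι r1 = -(T.ι s1 - T.ι s2) + (T.ι s1 - T.ι r1) - (T.ι s2 - T.ι r2) := by
        abel
      rw [h4]
      refine (norm_sub_le _ _).trans ?_
      have := norm_add_le (-(T.ι s1 - T.ι s2)) (T.ι s1 - T.ι r1)
      rw [norm_neg] at this
      linarith
    have hin : (inner ℂ (T.ι r2) (T.ι r1)).re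
        = (‖T.ι r1‖ ^ 2 + ‖T.ι r2‖ ^ 2 - ‖T.ι r2 - T.ι r1‖ ^ 2) / 2 := by
      have h5 := @norm_sub_sq ℂ K _ _ _ (T.ι r2) (T.ι r1)
      rw [RCLike.re_to_complex] at h5
      linarith
    rw [hin]
    rw [hs1'] at hn1
    rw [hs2'] at hn2
    have g1 := rel_aux_sq _ _ e (norm_nonneg (T.ι V1)) (norm_nonneg (T.ι r1)) he0 hn1
    have g2 := rel_aux_sq _ _ e (norm_nonneg (T.ι V2)) (norm_nonneg (T.ι r2)) he0 hn2
    have g3 : ‖T.ι r2 - T.ι r1‖ ^ 2 ≤ c + 4 * e * S + 4 * e ^ 2 := by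
      have h6 := pow_le_pow_left₀ (norm_nonneg _) hrr 2
      have h7 := mul_le_mul_of_nonneg_left hss he0.le
      have h8 : (‖T.ι s1 - T.ι s2‖ + 2 * e) ^ 2 = ‖T.ι s1 - T.ι s2‖ ^ 2
          + 4 * (e * ‖T.ι s1 - T.ι s2‖) + 4 * e ^ 2 := by ring
      rw [h8] at h6
      linarith
    have g4 : e * S = e * ‖T.ι V1‖ + e * ‖T.ι V2‖ := by rw [hS]; ring
    have g5 : 3 * e * S = 3 * (e * S) := by ring
    have g6 : 4 * e * S = 4 * (e * S) := by ring
    have g7 : 2 * e * ‖T.ι V1‖ = 2 * (e * ‖T.ι V1‖) := by ring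
    have g8 : 2 * e * ‖T.ι V2‖ = 2 * (e * ‖T.ι V2‖) := by ring
    rw [g5] at he1
    rw [g6] at g3
    rw [g7] at g1
    rw [g8] at g2
    linarith

end

end Pool.Agent.AbCoc
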