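import Pool.Agent.Lib_MP_418a80_nm.EP2c
import Pool.Agent.Lib_MP_418a80_nm.RelA

/-!
# Diagonal corners, part 3: the contraction, and the case of a compact subgroup
-/

set_option autoImplicit false
set_option linter.unusedVariables false
set_option linter.unusedSectionVars false

open Topology Filter MeasureTheory

namespace Pool.Agent.AbCoc

universe u v w

section
variable {A : Type u} [CStarAlgebra A] [PartialOrder A] [StarOrderedRing A]
  {K : Type v} [NormedAddCommGroup K] [InnerProductSpace ℂ K] (T : TrAlg A K)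
  {X : Type} [Fintype X] [DecidableEq X] [Nonempty X]

/-- families of columns with close Gram matrices are related by a contraction -/
theorem TrAlg.exists_contr (Z0 Z1 : Mt X A) {η : ℝ} (hη : 0 < η)
    (h : T.L1 (star Z0 * Z0 - star Z1 * Z1) η) : ∃ U : Mt X A, ‖U‖ ≤ 1 ∧
      (T.hs Z0 + T.hs Z1) / 2 - 2 * η ≤ (T.TrM (star U * (Z1 * star Z0))).re := by
  let _ : PartialOrder (Mt X A) := CStarAlgebra.spectralOrder (Mt X A)
  have _ : StarOrderedRing (Mt X A) := CStarAlgebra.spectralOrderedRing (Mt X A)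
  have hcp := TrAlg.card_pos' (I := X)
  obtain ⟨g, hg1, hg2⟩ := (T.ampT X).fidelity (star Z1) (star Z0) (c := η / Fintype.card X)
    (δ := η / Fintype.card X) (fun y hy => by
      have h1 := h y hy
      have e1 : (T.ampT X).τ ((star Z1 * star (star Z1) - star Z0 * star (star Z0)) * y)
          = -(T.ampT X).τ (y * (star Z0 * Z0 - star Z1 * Z1)) := by
        rw [(T.ampT X).τ_mul_comm, ← (T.ampT X).τ_neg, star_star, star_star]
        congr 1
        noncomm_ring
      rw [T.TrM_eq, norm_mul, Complex.norm_natCast] at h1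
      rw [e1, norm_neg, le_div_iff₀ hcp, mul_comm]
      exact h1) (by positivity)
  rw [star_star] at hg1 hg2
  refine ⟨Z1 * g * star Z0, hg1, ?_⟩
  have h2 := mul_le_mul_of_nonneg_left hg2 hcp.le
  have h3 : (Fintype.card X : ℝ) * ((T.ampT X).τ (star (Z1 * g * star Z0) * (Z1 * star Z0))).re
      = (T.TrM (star (Z1 * g * star Z0) * (Z1 * star Z0))).re := by
    rw [T.TrM_eq, ← Complex.ofReal_natCast, Complex.re_ofReal_mul]
  rw [h3] at h2
  refine le_trans ?_ h2
  have h4 : ‖(T.ampT X).ι (star Z1)‖ ^ 2 = ‖(T.ampT X).ι Z1‖ ^ 2 := by rw [(T.ampT X).norm_star]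
  have h5 : ‖(T.ampT X).ι (star Z0)‖ ^ 2 = ‖(T.ampT X).ι Z0‖ ^ 2 := by rw [(T.ampT X).norm_star]
  rw [h4, h5, T.hs_eq Z0, T.hs_eq Z1]
  have h6 : (Fintype.card X : ℝ) * ((‖(T.ampT X).ι Z1‖ ^ 2 + ‖(T.ampT X).ι Z0‖ ^ 2
      - η / Fintype.card X) / 2 - η / Fintype.card X)
      = ((Fintype.card X : ℝ) * ‖(T.ampT X).ι Z0‖ ^ 2
        + (Fintype.card X : ℝ) * ‖(T.ampT X).ι Z1‖ ^ 2) / 2 - (3 / 2) * η := by
    field_simp
    ring
  rw [h6]
  linarith

end

section
variable {A : Type u} [CStarAlgebra A] [PartialOrder A] [StarOrderedRing A]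
  {K : Type v} [NormedAddCommGroup K] [InnerProductSpace ℂ K]
variable {G : Type w} [Group G] [TopologicalSpace G] {T : TrAlg A K} {S : TrAct G T}
  {I Q W P Λ : Type} [Fintype I] [DecidableEq I] [Fintype Q] [DecidableEq Q] [Fintype W]
  [Fintype P]

theorem ep_sdg_mul (X : Type) [Fintype X] [DecidableEq X] [Nonempty X] (d d' : X → ℝ) :
    (sdg X d * sdg X d' : Mt X A) = sdg X fun a => d a * d' a := by
  ext a b
  rw [sdg_mul_apply]
  unfold sdg
  rw [dgm_apply, dgm_apply]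
  by_cases h : a = b
  · rw [if_pos h, if_pos h, smul_smul]
    push_cast
    rfl
  · rw [if_neg h, if_neg h, smul_zero]

theorem ep_star_sdg (X : Type) [Fintype X] [DecidableEq X] (d : X → ℝ) :
    star (sdg X d : Mt X A) = sdg X d := by
  unfold sdg
  rw [← map_star]
  congr 1
  funext a
  change star (((d a : ℝ) : ℂ) • (1 : A)) = _
  rw [star_smul, star_one, Complex.star_def, Complex.conj_ofReal]

/-- indicator of the copy `β` -/
def twP (I Q : Type) (β : Bool) : (I × Bool) ⊕ Q → ℝ :=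
  Sum.elim (fun p => if p.2 = β then 1 else 0) fun _ => 0

theorem twP_le (β : Bool) (a : (I × Bool) ⊕ Q) : |twP I Q β a| ≤ 1 := by
  rcases a with ⟨i, β'⟩ | q
  · unfold twP
    simp only [Sum.elim_inl]
    by_cases h : β' = β
    · rw [if_pos h]; norm_num
    · rw [if_neg h]; norm_num
  · unfold twP
    simp

theorem TrAct.sdg_twC {R : Type} [Fintype R] [Nonempty I] (d : (I × Bool) ⊕ Q → ℝ) (s : I → G) (g : G)
    (w : I → ℝ) (β : Bool) (e : R → Q) (y : R → A) :
    sdg _ d * S.twC s g w β e y = S.col (twS s g) (fun a => d a * twZ w β a)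
      (fun r => Sum.inr (e r)) y := by
  ext a b
  rw [sdg_mul_apply]
  unfold TrAct.twC
  rw [S.col_apply, S.col_apply, Finset.smul_sum]
  refine Finset.sum_congr rfl fun r _ => ?_
  by_cases h : (Sum.inr (e r) : (I × Bool) ⊕ Q) = b
  · rw [if_pos h, if_pos h, smul_smul]
    push_cast
    rfl
  · rw [if_neg h, if_neg h, smul_zero]

theorem TrAct.sdg_twC_of {R : Type} [Fintype R] [Nonempty I] (d : (I × Bool) ⊕ Q → ℝ) (s : I → G) (g : G)
    (w : I → ℝ) (β : Bool) (e : R → Q) (y : R → A) (hd : ∀ i, w i ≠ 0 → d (Sum.inl (i, β)) = 1) :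
    sdg _ d * S.twC s g w β e y = S.twC s g w β e y := by
  rw [S.sdg_twC]
  unfold TrAct.twC
  congr 1
  funext a
  rcases a with ⟨i, β'⟩ | q
  · unfold twZ
    simp only [Sum.elim_inl]
    by_cases h : β' = β
    · rw [if_pos h, h]
      by_cases hi : w i = 0
      · rw [hi]; simp
      · rw [hd i hi, one_mul]
    · rw [if_neg h, mul_zero]
  · simp [twZ]

theorem TrAct.sdg_twC_zero {R : Type} [Fintype R] [Nonempty I] (d : (I × Bool) ⊕ Q → ℝ) (s : I → G) (g : G)
    (w : I → ℝ) (β : Bool) (e : R → Q) (y : R → A) (hd : ∀ i, w i ≠ 0 → d (Sum.inl (i, β)) = 0) :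
    sdg _ d * S.twC s g w β e y = 0 := by
  rw [S.sdg_twC]
  ext a b
  rw [S.col_apply]
  change _ = (0 : A)
  refine Finset.sum_eq_zero fun r _ => ?_
  have h0 : d a * twZ w β a = 0 := by
    rcases a with ⟨i, β'⟩ | q
    · unfold twZ
      simp only [Sum.elim_inl]
      by_cases h : β' = β
      · rw [if_pos h, h]
        by_cases hi : w i = 0
        · rw [hi]; simp
        · rw [hd i hi, zero_mul]
      · rw [if_neg h, mul_zero]
    · simp [twZ]
  rw [h0]
  simp

/-- the commutators of the off-diagonal block -/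
theorem TrAct.IsTwo.comm_block {CF : Set G} {g : G} {x : P → A} {h : Λ → G → ℝ} {η ηc : ℝ}
    {s : I → G} {w : I → ℝ} {e0 : W × P → Q} {c : W → A} (ht : S.IsTwo CF g x h η ηc s w e0 c)
    [Nonempty I] (l : Λ) :
    T.L1 (sdg _ (fun a => h l (twS s g a))
        * (S.twC s g w true e0 (fun q => c q.1 * x q.2)
          * star (S.twC s g w false e0 (fun q => c q.1 * x q.2)))
      - (S.twC s g w true e0 (fun q => c q.1 * x q.2)
          * star (S.twC s g w false e0 (fun q => c q.1 * x q.2)))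
        * sdg _ (fun a => h l (twS s g a))) ηc := by
  obtain ⟨Z0, hZ0⟩ : ∃ Z0, Z0 = S.twC s g w false e0 (fun q => c q.1 * x q.2) := ⟨_, rfl⟩
  obtain ⟨Z1, hZ1⟩ : ∃ Z1, Z1 = S.twC s g w true e0 (fun q => c q.1 * x q.2) := ⟨_, rfl⟩
  obtain ⟨H, hH⟩ : ∃ H : Mt ((I × Bool) ⊕ Q) A, H = sdg _ (fun a => h l (twS s g a)) := ⟨_, rfl⟩
  have hc := ht.comm l
  rw [← hZ0, ← hZ1, ← hH] at hc ⊢
  obtain ⟨P0, hP0⟩ : ∃ P0 : Mt ((I × Bool) ⊕ Q) A, P0 = sdg _ (twP I Q false) := ⟨_, rfl⟩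
  obtain ⟨P1, hP1⟩ : ∃ P1 : Mt ((I × Bool) ⊕ Q) A, P1 = sdg _ (twP I Q true) := ⟨_, rfl⟩
  have a00 : P0 * Z0 = Z0 := by
    rw [hP0, hZ0]; exact S.sdg_twC_of _ s g w false e0 _ fun i _ => by simp [twP]
  have a01 : P0 * Z1 = 0 := by
    rw [hP0, hZ1]; exact S.sdg_twC_zero _ s g w true e0 _ fun i _ => by simp [twP]
  have a10 : P1 * Z0 = 0 := by
    rw [hP1, hZ0]; exact S.sdg_twC_zero _ s g w false e0 _ fun i _ => by simp [twP]
  have a11 : P1 * Z1 = Z1 := by
    rw [hP1, hZ1]; exact S.sdg_twC_of _ s g w true e0 _ fun i _ => by simp [twP]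
  have hH1 : P1 * H = H * P1 := by
    rw [hP1, hH, ep_sdg_mul, ep_sdg_mul]
    congr 1
    funext a
    ring
  have hH0 : P0 * H = H * P0 := by
    rw [hP0, hH, ep_sdg_mul, ep_sdg_mul]
    congr 1
    funext a
    ring
  have hP0s : star P0 = P0 := by rw [hP0, ep_star_sdg]
  have b1 : P1 * (Z0 + Z1) = Z1 := by rw [mul_add, a10, a11, zero_add]
  have b0 : star (Z0 + Z1) * P0 = star Z0 := by
    have e1 : P0 * (Z0 + Z1) = Z0 := by rw [mul_add, a00, a01, add_zero]
    have e2 := congrArg star e1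
    rwa [star_mul, hP0s] at e2
  have key := hc.conj T (p := P1) (q := P0)
    (by rw [hP1]; exact norm_sdg_le _ (twP_le true)) (by rw [hP0]; exact norm_sdg_le _ (twP_le false))
  have e1 : P1 * (H * ((Z0 + Z1) * star (Z0 + Z1)) - (Z0 + Z1) * star (Z0 + Z1) * H) * P0
      = H * (Z1 * star Z0) - Z1 * star Z0 * H := by
    calc P1 * (H * ((Z0 + Z1) * star (Z0 + Z1)) - (Z0 + Z1) * star (Z0 + Z1) * H) * P0
        = (P1 * H) * (Z0 + Z1) * (star (Z0 + Z1) * P0)
          - (P1 * (Z0 + Z1)) * star (Z0 + Z1) * (H * P0) := by noncomm_ring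
      _ = (H * P1) * (Z0 + Z1) * (star (Z0 + Z1) * P0)
          - (P1 * (Z0 + Z1)) * star (Z0 + Z1) * (P0 * H) := by rw [hH1, hH0]
      _ = H * (P1 * (Z0 + Z1)) * (star (Z0 + Z1) * P0)
          - (P1 * (Z0 + Z1)) * (star (Z0 + Z1) * P0) * H := by noncomm_ring
      _ = _ := by rw [b1, b0, mul_assoc H]
  rwa [e1] at key

end

end Pool.Agent.AbCoc
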