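import Mathlib

/-!
# Partitions on `G / N`
-/

set_option autoImplicit false
set_option linter.unusedVariables false
set_option linter.unusedSectionVars false

open Topology Filter
open scoped Pointwise

namespace Pool.Agent.AbCoc

variable {G : Type*} [Group G] [TopologicalSpace G] [IsTopologicalGroup G] [LocallyCompactSpace G]

/-- right `N`-invariant partitions whose squares sum to `1` on a compact set, with supports in
small neighbourhoods of cosets of `N` -/
theorem exists_part (N : Subgroup G) [N.Normal] (hN : IsClosed (N : Set G)) {C : Set G}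
    (hC : IsCompact C) {V : Set G} (hV : V ∈ 𝓝 (1 : G)) :
    ∃ (L : Type) (_ : Fintype L) (h : L → G → ℝ) (g : L → G), (∀ l, Continuous (h l)) ∧
      (∀ l s n, n ∈ N → h l (s * n) = h l s) ∧ (∀ l s, 0 ≤ h l s) ∧ (∀ l s, h l s ≤ 1) ∧
      (∀ s ∈ C, ∑ l, h l s ^ 2 = 1) ∧ (∀ l, g l ∈ C) ∧
      ∀ l s, h l s ≠ 0 → ∃ v ∈ V, ∃ n ∈ N, s = g l * v * n := by
  classical
  have _ : IsClosed (N : Set G) := hN
  have hc : Continuous (fun s : G => (s : G ⧸ N)) := continuous_quot_mk
  have ho : IsOpenMap (fun s : G => (s : G ⧸ N)) := QuotientGroup.isOpenMap_coe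
  set U : G → Set (G ⧸ N) := fun g => (fun s : G => (s : G ⧸ N)) '' (g • interior V) with hU
  have hUo : ∀ g, IsOpen (U g) := fun g => ho _ (isOpen_interior.smul g)
  have hCc : IsCompact ((fun s : G => (s : G ⧸ N)) '' C) := hC.image hc
  have hcov : (fun s : G => (s : G ⧸ N)) '' C ⊆ ⋃ g : C, U g := by
    rintro _ ⟨s, hs, rfl⟩
    refine Set.mem_iUnion.2 ⟨⟨s, hs⟩, s, ?_, rfl⟩
    exact ⟨1, mem_interior_iff_mem_nhds.2 hV, by simp⟩
  obtain ⟨t, ht⟩ := hCc.elim_finite_subcover (fun g : C => U g) (fun g => hUo g) hcov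
  let e : t ≃ Fin t.card := t.equivFin
  have hcov' : (fun s : G => (s : G ⧸ N)) '' C ⊆ ⋃ i : Fin t.card, U ((e.symm i : C) : G) := by
    intro x hx
    obtain ⟨g, hg⟩ := Set.mem_iUnion.1 (ht hx)
    obtain ⟨hgt, hxg⟩ := Set.mem_iUnion.1 hg
    refine Set.mem_iUnion.2 ⟨e ⟨g, hgt⟩, ?_⟩
    rw [Equiv.symm_apply_apply]
    exact hxg
  obtain ⟨f, hf1, hf2, hf3, hf4⟩ := exists_continuous_sum_one_of_isOpen_isCompact
    (fun i => hUo ((e.symm i : C) : G)) hCc hcov'
  refine ⟨Fin t.card, inferInstance, fun i s => Real.sqrt (f i (s : G ⧸ N)),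
    fun i => ((e.symm i : C) : G), fun i => ?_, fun i s n hn => ?_, fun i s => Real.sqrt_nonneg _,
    fun i s => ?_, fun s hs => ?_, fun i => (e.symm i : C).2, fun i s hs => ?_⟩
  · exact Real.continuous_sqrt.comp ((f i).continuous.comp hc)
  · have h1 : ((s * n : G) : G ⧸ N) = (s : G ⧸ N) := QuotientGroup.mk_mul_of_mem s hn
    simp only [h1]
  · exact Real.sqrt_le_one.2 (hf3 i _).2
  · have h1 := hf2 (Set.mem_image_of_mem _ hs)
    simp only [Finset.sum_apply, Pi.one_apply] at h1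
    rw [← h1]
    exact Finset.sum_congr rfl fun i _ => Real.sq_sqrt (hf3 i _).1
  · have h1 : f i (s : G ⧸ N) ≠ 0 := fun h => hs (by
      change Real.sqrt (f i (s : G ⧸ N)) = 0
      rw [h, Real.sqrt_zero])
    have h2 : (s : G ⧸ N) ∈ U ((e.symm i : C) : G) :=
      hf1 i (subset_tsupport _ (Function.mem_support.2 h1))
    obtain ⟨x, ⟨v, hv, hvx⟩, hxs⟩ := h2
    simp only [smul_eq_mul] at hvx
    refine ⟨v, interior_subset hv, x⁻¹ * s, ?_, ?_⟩
    · exact QuotientGroup.eq.1 hxs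
    · rw [hvx, mul_inv_cancel_left]

end Pool.Agent.AbCoc
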