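import Pool.Agent.Lib_MP_418a80_nm.RelC2
import Pool.Agent.Lib_MP_418a80_nm.CombDef
import Pool.Agent.Lib_MP_418a80_nm.Part

/-!
# REL, part C3: preparations for the assembly
-/

set_option autoImplicit false
set_option linter.unusedVariables false
set_option linter.unusedSectionVars false

open MeasureTheory Topology Filter

namespace Pool.Agent.AbCoc

universe u v w

section cut
variable {A : Type u} [CStarAlgebra A] [PartialOrder A] [StarOrderedRing A] {K : Type v} [NormedAddCommGroup K]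
  [InnerProductSpace ℂ K] {G : Type w} [Group G] [TopologicalSpace G] {T : TrAlg A K}
  (S : TrAct G T)

theorem TrAct.fixed_cfc_ex {b : A} (hb : S.Fixed b) (hs : IsSelfAdjoint b) {f : ℝ → ℝ}
    (hf : Continuous f) : S.Fixed (cfc f b) := by
  intro g
  have hc : Continuous (S.α g) := by
    refine AddMonoidHomClass.continuous_of_bound (S.α g) 1 fun x => ?_
    rw [one_mul]
    exact S.norm_le g x
  rw [StarAlgHomClass.map_cfc (S.α g) f b hf.continuousOn hc hs (hs.map _), hb g]

/-- a fixed element `b'` and a fixed unit `e` for it which is a multiple of `b` -/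
theorem TrAct.exists_cut {b : A} (hb : S.Fixed b) (hs : IsSelfAdjoint b) (h0 : b ≠ 0) :
    ∃ b' e s : A, S.Fixed b' ∧ IsSelfAdjoint b' ∧ b' ≠ 0 ∧ S.Fixed e ∧ star e = e ∧
      e * b' = b' ∧ b' * e = b' ∧ e = b * s ∧ e = s * b := by
  set δ : ℝ := ‖b‖ / 2 with hδ
  have hb0 : 0 < ‖b‖ := norm_pos_iff.2 h0
  have hδ0 : 0 < δ := by positivity
  set f' : ℝ → ℝ := fun t => max (t ^ 2 - δ ^ 2) 0 with hf'
  set f : ℝ → ℝ := fun t => min (t ^ 2 / δ ^ 2) 1 with hf
  set g : ℝ → ℝ := fun t => t / max (δ ^ 2) (t ^ 2) with hg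
  have c1 : Continuous f' := by fun_prop
  have c2 : Continuous f := by fun_prop
  have c3 : Continuous g := by
    refine continuous_id.div (by fun_prop) fun t => ?_
    exact (lt_max_of_lt_left (by positivity)).ne'
  have e1 : ∀ t, f t = t * g t := by
    intro t
    simp only [hf, hg]
    rcases le_total (δ ^ 2) (t ^ 2) with h | h
    · have ht : t ^ 2 ≠ 0 := by
        have : 0 < δ ^ 2 := by positivity
        exact (this.trans_le h).ne'
      have ht' : t ≠ 0 := fun h => ht (by rw [h]; norm_num)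
      rw [max_eq_right h, min_eq_right (by rw [one_le_div (by positivity)]; exact h)]
      field_simp
    · rw [max_eq_left h, min_eq_left (by rw [div_le_one (by positivity)]; exact h)]
      field_simp
  have e2 : ∀ t, f t * f' t = f' t := by
    intro t
    simp only [hf, hf']
    rcases le_total (δ ^ 2) (t ^ 2) with h | h
    · rw [min_eq_right (by rw [one_le_div (by positivity)]; exact h), one_mul]
    · rw [max_eq_right (by linarith), mul_zero]
  have m1 : cfc f b * cfc f' b = cfc f' b := by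
    rw [← cfc_mul f f' b c2.continuousOn c1.continuousOn]
    exact cfc_congr fun t _ => e2 t
  have m2 : cfc f' b * cfc f b = cfc f' b := by
    rw [← cfc_mul f' f b c1.continuousOn c2.continuousOn]
    exact cfc_congr fun t _ => by rw [mul_comm]; exact e2 t
  refine ⟨cfc f' b, cfc f b, cfc g b, S.fixed_cfc_ex hb hs c1, cfc_predicate _ _, ?_,
    S.fixed_cfc_ex hb hs c2, (cfc_predicate f b : IsSelfAdjoint _).star_eq, m1, m2, ?_, ?_⟩
  · intro hz
    -- the spectral radius of `b` is `‖b‖`, so `f'` does not vanish on the spectrum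
    have h1 : cfc (fun t : ℝ => t ^ 2) b = cfc (fun t : ℝ => min (t ^ 2) (δ ^ 2)) b := by
      have h2 : (fun t : ℝ => t ^ 2) = fun t => f' t + min (t ^ 2) (δ ^ 2) := by
        funext t
        simp only [hf']
        rcases le_total (δ ^ 2) (t ^ 2) with h | h
        · rw [min_eq_right h, max_eq_left (by linarith)]; ring
        · rw [min_eq_left h, max_eq_right (by linarith)]; ring
      rw [h2, cfc_add (a := b) f' (fun t : ℝ => min (t ^ 2) (δ ^ 2)) c1.continuousOn
        (by fun_prop), hz, zero_add]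
    have h2 : cfc (fun t : ℝ => t ^ 2) b = star b * b := by
      rw [cfc_pow_id (R := ℝ) b 2, hs.star_eq, sq]
    have h3 : ‖star b * b‖ ≤ δ ^ 2 := by
      rw [← h2, h1]
      refine norm_cfc_le (by positivity) fun t _ => ?_
      rw [Real.norm_eq_abs, abs_of_nonneg (le_min (sq_nonneg _) (sq_nonneg _))]
      exact min_le_right _ _
    rw [CStarRing.norm_star_mul_self] at h3
    have h4 : ‖b‖ * ‖b‖ = 4 * δ ^ 2 := by rw [hδ]; ring
    rw [h4] at h3
    nlinarith
  · rw [hyp_mul_cfc hs c3]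
    exact cfc_congr fun t _ => e1 t
  · rw [hyp_cfc_mul hs c3]
    exact cfc_congr fun t _ => e1 t

end cut

section avg
variable {B : Type u} [CStarAlgebra B]
  {K : Type v} [NormedAddCommGroup K] [InnerProductSpace ℂ K] [CompleteSpace K]
  {G : Type w} [Group G] [TopologicalSpace G] {T : TrAlg B K} (S : TrAct G T)
  [IsTopologicalGroup G] [SecondCountableTopology G] [MeasurableSpace G] [BorelSpace G]
  (μ : Measure G)

/-- a fixed element annihilating `Y* Y` annihilates its average -/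
theorem TrAct.avg_mul_zero {F : G → ℝ} (hF : Integrable F μ) {Y h x : B}
    (hh : T.ι h = ∫ t, F t • T.ι (S.α t (star Y * Y)) ∂μ) (hx : ∀ t, S.α t x = x)
    (hxY : x * (star Y * Y) = 0) : x * h = 0 := by
  let _ : PartialOrder B := CStarAlgebra.spectralOrder B
  let _ : StarOrderedRing B := CStarAlgebra.spectralOrderedRing B
  have h1 : ∀ y : B, T.τ (y * (x * h)) = 0 := by
    intro y
    rw [← mul_assoc, S.τ_orbit μ hF hh]
    have h2 : ∀ t, (F t : ℂ) * T.τ (y * x * S.α t (star Y * Y)) = 0 := by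
      intro t
      have h3 : y * x * S.α t (star Y * Y) = y * S.α t (x * (star Y * Y)) := by
        rw [map_mul (S.α t) x, hx t, mul_assoc]
      rw [h3, hxY, map_zero, mul_zero, T.τ_zero', mul_zero]
    rw [integral_congr_ae (Eventually.of_forall h2), integral_zero]
  have h2 : ‖T.ι (x * h)‖ ^ 2 = 0 := by
    rw [T.norm_sq, h1]
    rfl
  have h3 : T.ι (x * h) = 0 := norm_eq_zero.1 ((pow_eq_zero_iff two_ne_zero).1 h2)
  exact T.inj (by rw [h3, map_zero])

end avg

section sqrt
variable {A : Type u} [CStarAlgebra A] [PartialOrder A] [StarOrderedRing A] {K : Type v}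
  [NormedAddCommGroup K]
  [InnerProductSpace ℂ K] {G : Type w} [Group G] [TopologicalSpace G] {T : TrAlg A K}
  (S : TrAct G T)

/-- the square root of `∑ v_j* v_j` -/
theorem exists_root_family {J : Type} [Fintype J] (v : J → A) :
    ∃ r : A, (∃ y, r = star y * y) ∧ star r = r ∧ r * r = ∑ j, star (v j) * v j ∧
      ∀ e : A, star e = e → (∀ j, v j * e = v j) → r * e = r := by
  have h0 : 0 ≤ ∑ j, star (v j) * v j := Finset.sum_nonneg fun j _ => star_mul_self_nonneg _
  obtain ⟨r, hr0, hr⟩ := hyp_exists_sqrt h0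
  have hrs := (IsSelfAdjoint.of_nonneg hr0).star_eq
  refine ⟨r, CStarAlgebra.nonneg_iff_eq_star_mul_self.1 hr0, hrs, hr, fun e he hv => ?_⟩
  have h1 : (1 - e) * ∑ j, star (v j) * v j = 0 := by
    rw [Finset.mul_sum]
    refine Finset.sum_eq_zero fun j _ => ?_
    have h2 : (1 - e) * star (v j) = 0 := by
      have h3 : v j * (1 - e) = 0 := by rw [mul_sub, mul_one, hv, sub_self]
      have := congrArg star h3
      rwa [star_mul, star_sub, star_one, he, star_zero] at this
    rw [← mul_assoc, h2, zero_mul]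
  have h2 := hyp_mul_sqrt_eq_zero hr0 hr h1
  have h3 : e * r = r := by
    rw [sub_mul, one_mul, sub_eq_zero] at h2
    exact h2.symm
  have := congrArg star h3
  rwa [star_mul, he, hrs] at this

theorem TrAlg.norm_root_sq {J : Type} [Fintype J] (v : J → A) {r : A} (hrs : star r = r)
    (hr : r * r = ∑ j, star (v j) * v j) : ‖T.ι r‖ ^ 2 = ∑ j, ‖T.ι (v j)‖ ^ 2 := by
  rw [T.norm_sq, hrs, hr, T.τ_sum', Complex.re_sum]
  exact Finset.sum_congr rfl fun j _ => (T.norm_sq _).symm

theorem TrAct.root_near {J : Type} [Fintype J] (v : J → A) {r : A} (hr0 : ∃ y, r = star y * y)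
    (hr : r * r = ∑ j, star (v j) * v j) (g : G) : ‖T.ι (S.α g r - r)‖ ^ 2
      ≤ 2 * (Real.sqrt (∑ j, ‖T.ι (S.α g (v j) - v j)‖ ^ 2)
        * Real.sqrt (∑ j, ‖T.ι (v j)‖ ^ 2)) := by
  obtain ⟨y0, hy0⟩ := hr0
  refine T.powers_stormer_ex ⟨S.α g y0, by rw [hy0, map_mul, map_star]⟩ ⟨y0, hy0⟩ fun y hy => ?_
  have h1 : S.α g r * S.α g r - r * r
      = ∑ j, (star (S.α g (v j)) * S.α g (v j) - star (v j) * v j) := by
    rw [← map_mul, hr, map_sum, Finset.sum_sub_distrib]
    congr 1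
    exact Finset.sum_congr rfl fun j _ => by rw [map_mul, map_star]
  rw [T.τ_mul_comm, h1, Finset.mul_sum, T.τ_sum']
  refine (norm_sum_le _ _).trans ?_
  have h2 : ∀ j, ‖T.τ (y * (star (S.α g (v j)) * S.α g (v j) - star (v j) * v j))‖
      ≤ 2 * (‖T.ι (S.α g (v j) - v j)‖ * ‖T.ι (v j)‖) := by
    intro j
    refine (T.norm_τ_sq_sub _ _ _).trans ?_
    rw [S.norm_map]
    have h3 : 0 ≤ ‖T.ι (S.α g (v j) - v j)‖ * (‖T.ι (v j)‖ + ‖T.ι (v j)‖) := by positivity
    have h4 := mul_le_mul_of_nonneg_right hy h3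
    linarith
  refine (Finset.sum_le_sum fun j _ => h2 j).trans ?_
  rw [← Finset.mul_sum]
  exact mul_le_mul_of_nonneg_left (Real.sum_mul_le_sqrt_mul_sqrt _ _ _) (by norm_num)

/-- domination in the order sense -/
theorem TrAlg.sum_le_of_dom {J : Type} [Fintype J] (v : J → A) {C : ℝ}
    (hC : ∀ z : A, ∑ j, ‖T.ι (v j * z)‖ ^ 2 ≤ C * ‖T.ι z‖ ^ 2) :
    ∑ j, star (v j) * v j ≤ (C : ℂ) • (1 : A) := by
  rw [← sub_nonneg]
  refine T.nonneg_of_τ ?_ fun a => ?_
  · rw [isSelfAdjoint_iff, star_sub, star_smul, star_one, star_sum]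
    congr 1
    · rw [Complex.star_def, Complex.conj_ofReal]
    · exact Finset.sum_congr rfl fun j _ => by rw [star_mul, star_star]
  · have h1 : T.τ (star a * ((C : ℂ) • (1 : A) - ∑ j, star (v j) * v j) * a)
        = (C : ℂ) * T.τ (star a * a) - ∑ j, T.τ (star (v j * a) * (v j * a)) := by
      rw [← T.τ_sum', ← T.τ_smul, ← T.τ_sub]
      congr 1
      rw [mul_sub, sub_mul, mul_smul_comm, mul_one, smul_mul_assoc, Finset.mul_sum,
        Finset.sum_mul]
      congr 1
      refine Finset.sum_congr rfl fun j _ => ?_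
      rw [star_mul]
      noncomm_ring
    rw [h1, Complex.sub_re, Complex.re_ofReal_mul, Complex.re_sum, ← T.norm_sq]
    have h2 := hC a
    have h3 : ∑ j, ‖T.ι (v j * a)‖ ^ 2 = ∑ j, (T.τ (star (v j * a) * (v j * a))).re :=
      Finset.sum_congr rfl fun j _ => T.norm_sq _
    linarith

end sqrt

section kernels
variable {A : Type u} [CStarAlgebra A] [PartialOrder A] [StarOrderedRing A]
  {K : Type v} [NormedAddCommGroup K] [InnerProductSpace ℂ K]
  {G : Type w} [Group G] [TopologicalSpace G] {T : TrAlg A K} (S : TrAct G T)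
  {X : Type} [Fintype X] [DecidableEq X] [Nonempty X] (s : X → G) (ζ : X → ℝ)

theorem TrAlg.L1.smul {f : Mt X A} {ε : ℝ} (h : T.L1 f ε) (c : ℝ) (hc : 0 ≤ c) :
    T.L1 ((c : ℂ) • f) (c * ε) := fun y hy => by
  rw [mul_smul_comm, T.TrM_smul, norm_mul, Complex.norm_real, Real.norm_of_nonneg hc]
  exact mul_le_mul_of_nonneg_left (h y hy) hc

theorem TrAct.wk_smul {J : Type} [Fintype J] (u : J → A) (c : ℂ) (f : Mt X A) (n : ℕ) :
    (S.wk s u)^[n] (c • f) = c • (S.wk s u)^[n] f := by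
  induction n with
  | zero => rfl
  | succ n ih =>
    rw [Function.iterate_succ_apply', Function.iterate_succ_apply', ih]
    unfold TrAct.wk
    rw [smul_comm]
    congr 1
    rw [Finset.smul_sum]
    refine Finset.sum_congr rfl fun j _ => ?_
    rw [mul_smul_comm, smul_mul_assoc]

/-- the kernels of two families with the same `∑ x x*`, almost constant on the pieces of a
partition, are close after a number of steps for which the kernels almost commute with the
functions of the partition -/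
theorem TrAct.kernels_close {J L P : Type} [Fintype J] [Nonempty J] [Fintype L] [Fintype P]
    (u : J → A) (hu : ∀ j, star (u j) * u j = 1) (k : ℕ) {W : Type} [Fintype W] (c : W → A)
    (hW : S.IsWords u k c) (h : L → X → ℝ)
    (hb : ∀ l c, |h l c| ≤ 1) (hs : ∀ c, ζ c ≠ 0 → ∑ l, h l c ^ 2 = 1)
    (e : P → X) (he : Function.Injective e) (x y : P → A)
    (hxy : ∑ p, x p * star (x p) = ∑ p, y p * star (y p)) (g : L → G) {κ ε : ℝ} (hκ : 0 ≤ κ)
    (h1 : ∀ l c, h l c * ζ c ≠ 0 → ∑ p, ‖T.ι (S.α (s c) (x p) - S.α (g l) (x p))‖ ^ 2 ≤ κ)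
    (h2 : ∀ l c, h l c * ζ c ≠ 0 → ∑ p, ‖T.ι (S.α (s c) (y p) - S.α (g l) (y p))‖ ^ 2 ≤ κ)
    (h3 : ∀ l, T.L1 (sdg X (h l) * (S.wk s u)^[k] (S.ker s ζ x)
      - (S.wk s u)^[k] (S.ker s ζ x) * sdg X (h l)) ε)
    (h4 : ∀ l, T.L1 (sdg X (h l) * (S.wk s u)^[k] (S.ker s ζ y)
      - (S.wk s u)^[k] (S.ker s ζ y) * sdg X (h l)) ε) :
    T.L1 ((S.wk s u)^[k] (S.ker s ζ x) - (S.wk s u)^[k] (S.ker s ζ y))
      (2 * ((Fintype.card L : ℝ) * ε)
        + 4 * Real.sqrt (κ * ∑ p, ‖T.ι (x p)‖ ^ 2) * ∑ c, ζ c ^ 2) := by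
  have hsupp : ∀ z : P → A, ∀ a b, (∑ l, h l a ^ 2 ≠ 1) →
      (S.wk s u)^[k] (S.ker s ζ z) a b = 0 := by
    intro z a b hab
    have ha : ζ a = 0 := by
      by_contra h0
      exact hab (hs a h0)
    rw [← hW.ker X s ζ P z, S.ker_apply, ha, zero_mul, Complex.ofReal_zero, zero_smul]
  have a1 := T.L1_sub_loc h hb _ (hsupp x) h3
  have a2 := T.L1_sub_loc h hb _ (hsupp y) h4
  have a3 := S.L1_wk_iterate s u hu (S.L1_loc_ker s ζ h hs e he e he x y hxy g hκ h1 h2) k
  rw [S.wk_loc, S.wk_iterate_sub, loc_sub] at a3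
  have e1 : (S.wk s u)^[k] (S.ker s ζ x) - (S.wk s u)^[k] (S.ker s ζ y)
      = ((S.wk s u)^[k] (S.ker s ζ x) - loc h ((S.wk s u)^[k] (S.ker s ζ x)))
        + (loc h ((S.wk s u)^[k] (S.ker s ζ x)) - loc h ((S.wk s u)^[k] (S.ker s ζ y)))
        - ((S.wk s u)^[k] (S.ker s ζ y) - loc h ((S.wk s u)^[k] (S.ker s ζ y))) := by abel
  rw [e1]
  refine (((a1.add T a3).sub T a2)).mono T (le_of_eq ?_)
  ring

end kernels

end Pool.Agent.AbCoc
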