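import Pool.Agent.Lib_MP_418a80_nm.EP3
import Pool.Agent.Lib_MP_418a80_nm.RelC3

/-!
# Diagonal corners, part 4a: compact subgroups
-/

set_option autoImplicit false
set_option linter.unusedVariables false
set_option linter.unusedSectionVars false

open Topology Filter MeasureTheory

namespace Pool.Agent.AbCoc

universe u v w

section
variable {A : Type u} [CStarAlgebra A] [PartialOrder A] [StarOrderedRing A]
  {K : Type v} [NormedAddCommGroup K] [InnerProductSpace ℂ K] [CompleteSpace K]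
variable {G : Type w} [Group G] [TopologicalSpace G] {T : TrAlg A K} (S : TrAct G T)
variable [IsTopologicalGroup G] [SecondCountableTopology G] [MeasurableSpace G] [BorelSpace G]
  [LocallyCompactSpace G] [T2Space G] (μ : Measure G) [μ.IsHaarMeasure]

/-- diagonal corners if two translates of a compact set can be separated by a function on `G / N` -/
theorem TrAct.domAt_sep (hR : ∀ C1 : Set G, IsCompact C1 → ∀ κ : ℝ, 0 < κ → ∃ F : G → ℝ,
      Continuous F ∧ HasCompactSupport F ∧ (∀ t, 0 ≤ F t) ∧ ∫ t, F t ∂μ = 1 ∧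
      ∀ s ∈ C1, ∫ t, |F (s⁻¹ * t) - F t| ∂μ ≤ κ) {N : Set G} (hcomb : S.Comb N)
    (hsep : ∀ C : Set G, IsCompact C → ∃ (g : G) (h : G → ℝ), Continuous h ∧
      (∀ s n, n ∈ N → h (s * n) = h s) ∧ (∀ s, |h s| ≤ 1) ∧ (∀ s ∈ C, h s = 1) ∧
      ∀ s ∈ C, h (s * g) = 0) {b : A} (hb : S.Fixed b) (hbs : IsSelfAdjoint b) (hb0 : b ≠ 0) :
    S.DomAt b b := by
  by_contra hnot
  obtain ⟨b2, b3, β, f2, s2, n2, f3, s3, m1, m2, d1, d2⟩ := S.exists_cut hb hbs hb0
  obtain ⟨M, hM⟩ : ∃ M : ℝ, M = ‖T.ι b2‖ ^ 2 := ⟨_, rfl⟩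
  have hM0 : 0 < M := by
    rw [hM]
    have h1 : T.ι b2 ≠ 0 := fun h => n2 (T.inj (by rw [h, map_zero]))
    positivity
  obtain ⟨ε, hε⟩ : ∃ ε : ℝ, ε = M / 96 ^ 2 := ⟨_, rfl⟩
  have hε0 : 0 < ε := by rw [hε]; positivity
  have hsε : Real.sqrt M * Real.sqrt ε = M / 96 := by
    rw [← Real.sqrt_mul hM0.le, hε, show M * (M / 96 ^ 2) = (M / 96) ^ 2 by ring]
    exact Real.sqrt_sq (by positivity)
  obtain ⟨D, κ, hD, hκ, hneg⟩ := S.neg_of_not_domAt hb hnot (‖b2‖ ^ 2) ε hε0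
  obtain ⟨F, hFc, hFs, hF0, hF1, hFD⟩ := hR D hD (κ / (M + 1)) (by positivity)
  have hFi : Integrable F μ := hFc.integrable_of_hasCompactSupport hFs
  obtain ⟨g, h, hh1, hh2, hh3, hh4, hh5⟩ := hsep (tsupport F) hFs.isCompact
  obtain ⟨I, Q, W, _, _, _, _, _, _, _, _, s, w, e0, c, ht⟩ := S.exists_two μ d1 d2 f3 s3
    (C := ‖b2‖ ^ 2) (ε := ε) (κ₀ := κ) (m := M) (D := D) hneg hFi hF0 hF1
    (fun t ht => by
      have h4 := hFD t ht
      have h5 : M * ∫ r, |F (t⁻¹ * r) - F r| ∂μ ≤ M * (κ / (M + 1)) :=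
        mul_le_mul_of_nonneg_left h4 hM0.le
      refine h5.trans ?_
      rw [mul_div_assoc', div_le_iff₀ (by positivity)]
      nlinarith) (CF := tsupport F) hFs.isCompact
    (fun t ht => image_eq_zero_of_notMem_tsupport ht) hcomb (P := Unit) (Λ := Unit) (fun _ => b2)
    (by simp [hM]) (fun z => by
      simp only [Finset.univ_unique, Finset.sum_singleton]
      have h4 := pow_le_pow_left₀ (norm_nonneg _) (T.mul_le b2 z) 2
      rwa [mul_pow] at h4) (fun _ => m2) (fun _ => h) (fun _ => hh1) (fun _ => hh2) (fun _ => hh3) g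
    (ηd := M / 12) (ηc := M / 6) (by positivity) (by positivity)
  obtain ⟨Z0, hZ0⟩ : ∃ Z0, Z0 = S.twC s g w false e0 (fun q => c q.1 * (fun _ : Unit => b2) q.2) :=
    ⟨_, rfl⟩
  obtain ⟨Z1, hZ1⟩ : ∃ Z1, Z1 = S.twC s g w true e0 (fun q => c q.1 * (fun _ : Unit => b2) q.2) :=
    ⟨_, rfl⟩
  have hgram := ht.gram
  have hcomm := ht.comm_block ()
  rw [← hZ0, ← hZ1] at hgram hcomm
  have hmass : ∑ q : W × Unit, ‖T.ι (c q.1 * (fun _ : Unit => b2) q.2)‖ ^ 2 = M := by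
    rw [Fintype.sum_prod_type, hM, ← TrAct.words_sum (T := T) c ht.c_sum b2]
    refine Finset.sum_congr rfl fun v _ => ?_
    simp
  have hm0 : T.hs Z0 = M := by
    rw [hZ0, S.twC_hs s g w ht.w_nonneg ht.w_sum false e0 ht.inj, hmass]
  have hm1 : T.hs Z1 = M := by
    rw [hZ1, S.twC_hs s g w ht.w_nonneg ht.w_sum true e0 ht.inj, hmass]
  obtain ⟨U, hU1, hU2⟩ := T.exists_contr Z0 Z1 (η := 8 * (Real.sqrt M * Real.sqrt ε) + M / 12)
    (by positivity) hgram
  have k1 : sdg _ (fun a => (fun _ : Unit => h) () (twS s g a)) * Z1 = 0 := by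
    rw [hZ1]
    exact S.sdg_twC_zero _ s g w true e0 _ fun i hi => hh5 _ (ht.mem i hi)
  have k0 : sdg _ (fun a => (fun _ : Unit => h) () (twS s g a)) * Z0 = Z0 := by
    rw [hZ0]
    exact S.sdg_twC_of _ s g w false e0 _ fun i hi => hh4 _ (ht.mem i hi)
  have k0' : star Z0 * sdg _ (fun a => (fun _ : Unit => h) () (twS s g a)) = star Z0 := by
    have e1 := congrArg star k0
    rwa [star_mul, ep_star_sdg] at e1
  rw [← mul_assoc, k1, zero_mul, mul_assoc, k0', zero_sub] at hcomm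
  have h6 := hcomm (star U) (by rw [_root_.norm_star]; exact hU1)
  have h7 : (T.TrM (star U * (Z1 * star Z0))).re ≤ M / 6 := by
    refine (Complex.re_le_norm _).trans ?_
    rw [mul_neg] at h6
    have e1 : T.TrM (-(star U * (Z1 * star Z0))) = -T.TrM (star U * (Z1 * star Z0)) := by
      have e2 := T.TrM_sub 0 (star U * (Z1 * star Z0))
      rwa [zero_sub, T.TrM_zero, zero_sub] at e2
    rwa [e1, norm_neg] at h6
  rw [hm0, hm1, hsε] at hU2
  linarith

end

end Pool.Agent.AbCoc
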