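import Pool.Agent.Lib_MP_418a80_nm.EP3

/-!
# Diagonal corners, part 4b: vectors, localisation of the contraction
-/

set_option autoImplicit false
set_option linter.unusedVariables false
set_option linter.unusedSectionVars false

open Topology Filter MeasureTheory

namespace Pool.Agent.AbCoc

universe u v w

section
variable {A : Type u} [CStarAlgebra A]
  {K : Type v} [NormedAddCommGroup K] [InnerProductSpace ℂ K] (T : TrAlg A K)
  {X : Type} [Fintype X]

/-- matrices acting on vectors -/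
noncomputable def epMv (M : Mt X A) (ξ : X → A) : X → A := fun a => ∑ c, M a c * ξ c

/-- the square of the norm of a vector -/
noncomputable def TrAlg.nv (ξ : X → A) : ℝ := ∑ a, ‖T.ι (ξ a)‖ ^ 2

theorem TrAlg.nv_nonneg (ξ : X → A) : 0 ≤ T.nv ξ := Finset.sum_nonneg fun _ _ => sq_nonneg _

theorem epMv_sub (M : Mt X A) (ξ η : X → A) : epMv M (ξ - η) = epMv M ξ - epMv M η := by
  funext a
  change ∑ c, M a c * (ξ c - η c) = ∑ c, M a c * ξ c - ∑ c, M a c * η c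
  rw [← Finset.sum_sub_distrib]
  exact Finset.sum_congr rfl fun c _ => mul_sub _ _ _

theorem epMv_mul (M N : Mt X A) (ξ : X → A) : epMv (M * N) ξ = epMv M (epMv N ξ) := by
  funext a
  change ∑ c, (M * N) a c * ξ c = ∑ c, M a c * ∑ d, N c d * ξ d
  simp only [CStarMatrix.mul_apply, Finset.sum_mul, Finset.mul_sum]
  rw [Finset.sum_comm]
  exact Finset.sum_congr rfl fun c _ => Finset.sum_congr rfl fun d _ => mul_assoc _ _ _

theorem epMv_smul (r : ℂ) (M : Mt X A) (ξ : X → A) : epMv (r • M) ξ = r • epMv M ξ := by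
  funext a
  change ∑ c, (r • M a c) * ξ c = r • ∑ c, M a c * ξ c
  rw [Finset.smul_sum]
  exact Finset.sum_congr rfl fun c _ => smul_mul_assoc _ _ _

theorem epMv_right (M : Mt X A) (ξ : X → A) (z : A) :
    epMv M (fun a => ξ a * z) = fun a => epMv M ξ a * z := by
  funext a
  change ∑ c, M a c * (ξ c * z) = (∑ c, M a c * ξ c) * z
  rw [Finset.sum_mul]
  exact Finset.sum_congr rfl fun c _ => (mul_assoc _ _ _).symm

theorem epMv_col (M N : Mt X A) (b : X) :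
    (fun a => (M * N) a b) = epMv M fun a => N a b := by
  funext a
  rw [CStarMatrix.mul_apply]
  rfl

theorem TrAlg.nv_add3_le (ξ₁ ξ₂ ξ₃ : X → A) :
    T.nv (ξ₁ + ξ₂ + ξ₃) ≤ 3 * (T.nv ξ₁ + T.nv ξ₂ + T.nv ξ₃) := by
  unfold TrAlg.nv
  rw [← Finset.sum_add_distrib, ← Finset.sum_add_distrib, Finset.mul_sum]
  refine Finset.sum_le_sum fun a _ => ?_
  have h1 : T.ι ((ξ₁ + ξ₂ + ξ₃) a) = T.ι (ξ₁ a) + T.ι (ξ₂ a) + T.ι (ξ₃ a) := by
    rw [← map_add, ← map_add]; rfl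
  rw [h1]
  have h2 : ‖T.ι (ξ₁ a) + T.ι (ξ₂ a) + T.ι (ξ₃ a)‖ ≤ ‖T.ι (ξ₁ a)‖ + ‖T.ι (ξ₂ a)‖ + ‖T.ι (ξ₃ a)‖ :=
    norm_add₃_le
  have h3 := pow_le_pow_left₀ (norm_nonneg _) h2 2
  nlinarith [sq_nonneg (‖T.ι (ξ₁ a)‖ - ‖T.ι (ξ₂ a)‖), sq_nonneg (‖T.ι (ξ₁ a)‖ - ‖T.ι (ξ₃ a)‖),
    sq_nonneg (‖T.ι (ξ₂ a)‖ - ‖T.ι (ξ₃ a)‖)]

theorem TrAlg.hs_eq_nv [DecidableEq X] (M : Mt X A) : T.hs M = ∑ b, T.nv fun a => M a b := by
  unfold TrAlg.hs TrAlg.nv
  rw [Finset.sum_comm]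

variable [PartialOrder A] [StarOrderedRing A] [DecidableEq X] [Nonempty X]

theorem TrAlg.nv_mv_le (M : Mt X A) (ξ : X → A) : T.nv (epMv M ξ) ≤ ‖M‖ ^ 2 * T.nv ξ := by
  obtain ⟨b0⟩ : Nonempty X := inferInstance
  obtain ⟨E, hE⟩ : ∃ E : (X → A) → Mt X A, E = fun ξ => CStarMatrix.ofMatrix fun a b =>
      if b = b0 then ξ a else 0 := ⟨_, rfl⟩
  have hEa : ∀ ξ a b, E ξ a b = if b = b0 then ξ a else 0 := fun ξ a b => by rw [hE]; rfl
  have h1 : ∀ ξ, T.hs (E ξ) = T.nv ξ := by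
    intro ξ
    unfold TrAlg.hs TrAlg.nv
    refine Finset.sum_congr rfl fun a _ => ?_
    rw [Finset.sum_eq_single b0]
    · rw [hEa, if_pos rfl]
    · intro b _ hb
      rw [hEa, if_neg hb, map_zero, norm_zero]
      norm_num
    · intro h; exact absurd (Finset.mem_univ b0) h
  have h2 : M * E ξ = E (epMv M ξ) := by
    ext a b
    rw [CStarMatrix.mul_apply, hEa]
    by_cases hb : b = b0
    · rw [if_pos hb]
      refine Finset.sum_congr rfl fun c _ => ?_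
      rw [hEa, if_pos hb]
    · rw [if_neg hb]
      refine Finset.sum_eq_zero fun c _ => ?_
      rw [hEa, if_neg hb, mul_zero]
  have h3 := T.ep_hs_mul_le M (E ξ)
  rw [h2] at h3
  have h4 := pow_le_pow_left₀ (Real.sqrt_nonneg _) h3 2
  rw [mul_pow, Real.sq_sqrt (T.hs_nonneg _), Real.sq_sqrt (T.hs_nonneg _), h1, h1] at h4
  exact h4

/-- polarisation of the Hilbert-Schmidt norm -/
theorem TrAlg.hs_sub_eq (a b : Mt X A) :
    T.hs (a - b) = T.hs a + T.hs b - 2 * (T.TrM (star a * b)).re := by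
  rw [T.hs_eq_Tr, T.hs_eq_Tr, T.hs_eq_Tr]
  have h1 : star (a - b) * (a - b) = star a * a + star b * b - (star a * b + star b * a) := by
    rw [star_sub]
    noncomm_ring
  have h2 : T.TrM (star b * a) = (starRingEnd ℂ) (T.TrM (star a * b)) := by
    unfold TrAlg.TrM
    rw [map_sum]
    refine Finset.sum_congr rfl fun i _ => ?_
    rw [← T.τ_star]
    congr 1
    have h3 : star (star a * b) = star b * a := by rw [star_mul, star_star]
    rw [← h3]
    rfl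
  rw [h1, T.TrM_sub, T.TrM_add, T.TrM_add, h2, Complex.sub_re, Complex.add_re, Complex.add_re,
    Complex.conj_re]
  ring

/-- if a contraction almost intertwines two columns, it does so after localisation -/
theorem TrAlg.loc_contr {R : Type} [Fintype R] (h : R → X → ℝ) (hb : ∀ r a, |h r a| ≤ 1)
    (Z0 Z1 U : Mt X A) (hU : ‖U‖ ≤ 1) {m η ηc : ℝ} (h0 : ∑ r, T.hs (sdg X (h r) * Z0) ≤ m)
    (h1 : ∑ r, T.hs (sdg X (h r) * Z1) ≤ m)
    (hs : ∀ a b, (∑ r, h r a ^ 2 ≠ 1) → (Z1 * star Z0) a b = 0)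
    (hc : ∀ r, T.L1 (sdg X (h r) * (Z1 * star Z0) - (Z1 * star Z0) * sdg X (h r)) ηc)
    (hUZ : m - 2 * η ≤ (T.TrM (star U * (Z1 * star Z0))).re) :
    ∑ r, T.hs (U * (sdg X (h r) * Z0) - sdg X (h r) * Z1)
      ≤ 4 * η + 2 * (Fintype.card R * ηc) := by
  have e1 := T.L1_sub_loc h hb (Z1 * star Z0) hs hc (star U) (by rw [_root_.norm_star]; exact hU)
  have e2 : (T.TrM (star U * (Z1 * star Z0 - loc h (Z1 * star Z0)))).re
      ≤ Fintype.card R * ηc := (Complex.re_le_norm _).trans e1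
  rw [mul_sub, T.TrM_sub, Complex.sub_re] at e2
  have e3 : T.TrM (star U * loc h (Z1 * star Z0))
      = ∑ r, T.TrM (star (U * (sdg X (h r) * Z0)) * (sdg X (h r) * Z1)) := by
    unfold loc
    rw [Finset.mul_sum, T.TrM_sum]
    refine Finset.sum_congr rfl fun r _ => ?_
    rw [star_mul, star_mul, ep_star_sdg]
    have e4 : star Z0 * sdg X (h r) * star U * (sdg X (h r) * Z1)
        = (star Z0 * sdg X (h r)) * (star U * (sdg X (h r) * Z1)) := by noncomm_ring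
    rw [e4, T.TrM_mul_comm (star Z0 * sdg X (h r))]
    simp only [mul_assoc]
  rw [e3, Complex.re_sum] at e2
  have e5 : ∀ r, T.hs (U * (sdg X (h r) * Z0) - sdg X (h r) * Z1)
      ≤ T.hs (sdg X (h r) * Z0) + T.hs (sdg X (h r) * Z1)
        - 2 * (T.TrM (star (U * (sdg X (h r) * Z0)) * (sdg X (h r) * Z1))).re := by
    intro r
    rw [T.hs_sub_eq]
    have e6 := T.ep_hs_mul_le U (sdg X (h r) * Z0)
    have e7 : Real.sqrt (T.hs (U * (sdg X (h r) * Z0))) ≤ Real.sqrt (T.hs (sdg X (h r) * Z0)) :=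
      e6.trans (by
        calc ‖U‖ * Real.sqrt (T.hs (sdg X (h r) * Z0))
            ≤ 1 * Real.sqrt (T.hs (sdg X (h r) * Z0)) :=
              mul_le_mul_of_nonneg_right hU (Real.sqrt_nonneg _)
          _ = _ := one_mul _)
    have e8 : T.hs (U * (sdg X (h r) * Z0)) ≤ T.hs (sdg X (h r) * Z0) :=
      (Real.sqrt_le_sqrt_iff (T.hs_nonneg _)).1 e7
    linarith
  refine (Finset.sum_le_sum fun r _ => e5 r).trans ?_
  rw [Finset.sum_sub_distrib, Finset.sum_add_distrib, ← Finset.mul_sum]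
  linarith

end

end Pool.Agent.AbCoc
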