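import Pool.Agent.Lib_MP_418a80_nm.EP4b

/-!
# Diagonal corners, part 4c: one word
-/

set_option autoImplicit false
set_option linter.unusedVariables false
set_option linter.unusedSectionVars false

open Topology Filter MeasureTheory

namespace Pool.Agent.AbCoc

universe u v w

section
variable {A : Type u} [CStarAlgebra A] [PartialOrder A] [StarOrderedRing A]
  {K : Type v} [NormedAddCommGroup K] [InnerProductSpace ℂ K] [CompleteSpace K]
variable {G : Type w} [Group G] [TopologicalSpace G] {T : TrAlg A K} {S : TrAct G T}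
  [IsTopologicalGroup G] [SecondCountableTopology G] [MeasurableSpace G] [BorelSpace G]
  {I Q W P R : Type} [Fintype I] [DecidableEq I] [Fintype Q] [DecidableEq Q] [Fintype W]
  [Fintype P] [Fintype R]

/-- the vector `h_r π(x_p) ζ` on the copy `β` -/
noncomputable def TrAct.twX (S : TrAct G T) (s : I → G) (g : G) (w : I → ℝ) (h : R → G → ℝ)
    (x : P → A) (β : Bool) (r : R) (p : P) : (I × Bool) ⊕ Q → A :=
  fun a => ((h r (twS s g a) * twZ w β a : ℝ) : ℂ) • S.α (twS s g a) (x p)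

theorem ep_one_smul {X : Type} [Fintype X] [DecidableEq X] (k : ℂ) (ξ : X → A) :
    epMv (k • (1 : Mt X A)) ξ = k • ξ := by
  funext a
  change ∑ c, (k • (1 : Mt X A)) a c * ξ c = k • ξ a
  rw [Finset.sum_eq_single a]
  · have h1 : (k • (1 : Mt X A)) a a = k • (1 : A) := by
      change k • ((1 : Mt X A) a a) = k • 1
      rw [CStarMatrix.one_apply_eq]
    rw [h1, smul_mul_assoc, one_mul]
  · intro c _ hc
    have h1 : (k • (1 : Mt X A)) a c = 0 := by
      change k • ((1 : Mt X A) a c) = 0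
      rw [CStarMatrix.one_apply_ne (Ne.symm hc), smul_zero]
    rw [h1, zero_mul]
  · intro h; exact absurd (Finset.mem_univ a) h

theorem TrAlg.nv_smul {X : Type} [Fintype X] (r : ℝ) (ξ : X → A) :
    T.nv (((r : ℝ) : ℂ) • ξ) = r ^ 2 * T.nv ξ := by
  unfold TrAlg.nv
  rw [Finset.mul_sum]
  refine Finset.sum_congr rfl fun a _ => ?_
  change ‖T.ι (((r : ℝ) : ℂ) • ξ a)‖ ^ 2 = _
  rw [map_smul, norm_smul, Complex.norm_real, mul_pow, Real.norm_eq_abs, sq_abs]

theorem TrAct.IsTwo.exists_word {CF : Set G} {g : G} {x : P → A} {h : R → G → ℝ} {η ηc : ℝ}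
    {s : I → G} {w : I → ℝ} {e0 : W × P → Q} {c : W → A} (ht : S.IsTwo CF g x h η ηc s w e0 c)
    [Nonempty I] [Nonempty W] (hη : 0 < η) (hb : ∀ r t, |h r t| ≤ 1)
    (hg : ∀ r t, h r (t * g) = h r t) (hsum : ∀ t ∈ CF, ∑ r, h r t ^ 2 = 1) :
    ∃ σ : Mt ((I × Bool) ⊕ Q) A, ‖σ‖ ≤ 1 ∧
      ∑ r, ∑ p, T.nv (epMv σ (S.twX s g w h x false r p) - S.twX s g w h x true r p)
        ≤ 4 * η + 2 * (Fintype.card R * ηc) := by
  classical
  let X : Type := (I × Bool) ⊕ Q
  obtain ⟨Z0, hZ0⟩ : ∃ Z0, Z0 = S.twC s g w false e0 (fun q => c q.1 * x q.2) := ⟨_, rfl⟩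
  obtain ⟨Z1, hZ1⟩ : ∃ Z1, Z1 = S.twC s g w true e0 (fun q => c q.1 * x q.2) := ⟨_, rfl⟩
  obtain ⟨hr, hhr⟩ : ∃ hr : R → X → ℝ, hr = fun r a => h r (twS s g a) := ⟨_, rfl⟩
  obtain ⟨m, hm⟩ : ∃ m : ℝ, m = ∑ q : W × P, ‖T.ι (c q.1 * x q.2)‖ ^ 2 := ⟨_, rfl⟩
  have hgram := ht.gram
  rw [← hZ0, ← hZ1] at hgram
  have hm0 : T.hs Z0 = m := by
    rw [hZ0, S.twC_hs s g w ht.w_nonneg ht.w_sum false e0 ht.inj, hm]
  have hm1 : T.hs Z1 = m := by
    rw [hZ1, S.twC_hs s g w ht.w_nonneg ht.w_sum true e0 ht.inj, hm]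
  obtain ⟨U, hU1, hU2⟩ := T.exists_contr Z0 Z1 hη hgram
  have hei : Function.Injective fun q => (Sum.inr (e0 q) : X) :=
    fun a a' haa => ht.inj (Sum.inr_injective haa)
  -- the partition on the active points
  have hact : ∀ (β : Bool) (a : X), twZ w β a ≠ 0 → ∑ r, hr r a ^ 2 = 1 := by
    intro β a ha
    rcases a with ⟨i, β'⟩ | q
    · have hi : w i ≠ 0 := by
        intro h0
        apply ha
        unfold twZ
        simp [h0]
      have h1 := hsum (s i) (ht.mem i hi)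
      rw [← h1, hhr]
      refine Finset.sum_congr rfl fun r _ => ?_
      cases β'
      · rfl
      · change h r (s i * g) ^ 2 = _
        rw [hg]
    · exact absurd (by simp [twZ]) ha
  have hloc : ∀ β : Bool, ∑ r, T.hs (sdg X (hr r) * S.twC s g w β e0 (fun q => c q.1 * x q.2))
      = m := by
    intro β
    have e1 : ∀ r, T.hs (sdg X (hr r) * S.twC s g w β e0 (fun q => c q.1 * x q.2))
        = (∑ a, (hr r a * twZ w β a) ^ 2) * m := by
      intro r
      rw [S.sdg_twC, S.hs_col _ _ _ hei, hm]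
    rw [Finset.sum_congr rfl fun r _ => e1 r, ← Finset.sum_mul, Finset.sum_comm]
    have e2 : ∀ a : X, ∑ r, (hr r a * twZ w β a) ^ 2 = twZ w β a ^ 2 := by
      intro a
      simp only [mul_pow]
      rw [← Finset.sum_mul]
      by_cases h0 : twZ w β a = 0
      · rw [h0]; norm_num
      · rw [hact β a h0, one_mul]
    rw [Finset.sum_congr rfl fun a _ => e2 a, twZ_sum_sq w ht.w_nonneg, ht.w_sum, one_mul]
  have key := T.loc_contr hr (fun r a => by rw [hhr]; exact hb _ _) Z0 Z1 U hU1 (m := m) (η := η)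
    (ηc := ηc) (by rw [hZ0]; exact (hloc false).le) (by rw [hZ1]; exact (hloc true).le)
    (fun a b hab => by
      rw [CStarMatrix.mul_apply]
      refine Finset.sum_eq_zero fun k _ => ?_
      have h1 : Z1 a k = 0 := by
        rw [hZ1]
        unfold TrAct.twC
        rw [S.col_apply]
        have h2 : twZ w true a = 0 := by
          by_contra h3
          exact hab (hact true a h3)
        rw [h2]
        simp
      rw [h1, zero_mul]) (fun r => by
        have h1 := ht.comm_block r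
        rw [← hZ0, ← hZ1] at h1
        rw [hhr]
        exact h1) (by rw [hm0, hm1] at hU2; linarith)
  -- the columns
  have hcol : ∀ (β : Bool) (r : R) (v : W) (p : P),
      (fun a => (sdg X (hr r) * S.twC s g w β e0 (fun q => c q.1 * x q.2) : Mt X A) a
        (Sum.inr (e0 (v, p))))
      = epMv (S.pid (twS s g) (c v)) (S.twX s g w h x β r p) := by
    intro β r v p
    funext a
    rw [S.sdg_twC, S.col_apply_emb _ _ _ hei, hhr]
    change _ = ∑ k, (S.pid (twS s g) (c v)) a k * (S.twX s g w h x β r p) k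
    rw [Finset.sum_eq_single a]
    · rw [S.pid_eq, dgm_apply, if_pos rfl]
      unfold TrAct.twX
      rw [mul_smul_comm, map_mul]
    · intro k _ hk
      rw [S.pid_eq, dgm_apply, if_neg (Ne.symm hk), zero_mul]
    · intro h'; exact absurd (Finset.mem_univ a) h'
  obtain ⟨D, hD⟩ : ∃ D : W → R → P → X → A, D = fun v r p =>
      epMv U (epMv (S.pid (twS s g) (c v)) (S.twX s g w h x false r p))
        - epMv (S.pid (twS s g) (c v)) (S.twX s g w h x true r p) := ⟨_, rfl⟩
  have hDs : ∑ v, ∑ r, ∑ p, T.nv (D v r p) ≤ 4 * η + 2 * (Fintype.card R * ηc) := by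
    refine le_trans ?_ key
    rw [Finset.sum_comm]
    refine Finset.sum_le_sum fun r _ => ?_
    obtain ⟨M, hM⟩ : ∃ M : Mt X A, M = U * (sdg X (hr r) * Z0) - sdg X (hr r) * Z1 := ⟨_, rfl⟩
    obtain ⟨M0, hM0⟩ : ∃ M0 : Mt X A, M0 = sdg X (hr r) * Z0 := ⟨_, rfl⟩
    obtain ⟨M1, hM1⟩ : ∃ M1 : Mt X A, M1 = sdg X (hr r) * Z1 := ⟨_, rfl⟩
    rw [← hM, T.hs_eq_nv]
    rw [← hM0, ← hM1] at hM
    have e1 : ∑ v, ∑ p, T.nv (D v r p) = ∑ q : W × P, T.nv (fun a => M a (Sum.inr (e0 q))) := by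
      rw [Fintype.sum_prod_type]
      refine Finset.sum_congr rfl fun v _ => Finset.sum_congr rfl fun p _ => ?_
      congr 1
      have e2 : (fun a => M a (Sum.inr (e0 (v, p))))
          = (fun a => (U * M0) a (Sum.inr (e0 (v, p)))) - fun a => M1 a (Sum.inr (e0 (v, p))) := by
        rw [hM]
        rfl
      rw [e2, epMv_col, hM0, hM1, hZ0, hZ1, hcol, hcol, hD]
    rw [e1]
    have e3 : ∑ q : W × P, T.nv (fun a => M a (Sum.inr (e0 q)))
        = ∑ b ∈ Finset.univ.image (fun q => (Sum.inr (e0 q) : X)), T.nv (fun a => M a b) := by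
      rw [Finset.sum_image fun a _ b _ h => hei h]
    rw [e3]
    exact Finset.sum_le_sum_of_subset_of_nonneg (Finset.subset_univ _)
      fun b _ _ => T.nv_nonneg _
  -- choose a word
  obtain ⟨k, hk0, hk⟩ := ht.unit
  have hone : (1 : A) ≠ 0 := fun h0 => by
    have h1 := T.norm_one
    rw [h0, map_zero, norm_zero] at h1
    exact zero_ne_one h1
  have hcard : (Fintype.card W : ℝ) * k = 1 := by
    have h1 := ht.c_sum
    rw [Finset.sum_congr rfl fun v _ => (hk v).1, Finset.sum_const, Finset.card_univ,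
      ← Nat.cast_smul_eq_nsmul ℂ, smul_smul] at h1
    have h2 : ((((Fintype.card W : ℝ) * k - 1 : ℝ)) : ℂ) • (1 : A) = 0 := by
      rw [Complex.ofReal_sub, sub_smul, Complex.ofReal_mul, Complex.ofReal_natCast, h1,
        Complex.ofReal_one, one_smul, sub_self]
    rcases smul_eq_zero.1 h2 with h3 | h3
    · have h4 := Complex.ofReal_eq_zero.1 h3
      linarith
    · exact absurd h3 hone
  obtain ⟨v, _, hv⟩ := Finset.exists_le_of_sum_le (s := (Finset.univ : Finset W))
    (f := fun v => ∑ r, ∑ p, T.nv (D v r p))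
    (g := fun _ => k * (4 * η + 2 * (Fintype.card R * ηc))) Finset.univ_nonempty (by
      rw [Finset.sum_const, Finset.card_univ, nsmul_eq_mul, ← mul_assoc, hcard, one_mul]
      exact hDs)
  obtain ⟨Pw, hPw⟩ : ∃ Pw : Mt X A, Pw = S.pid (twS s g) (c v) := ⟨_, rfl⟩
  have hPP : star Pw * Pw = (k : ℂ) • (1 : Mt X A) := by
    rw [hPw, ← map_star, ← map_mul, (hk v).1, map_smul, map_one]
  have honeX : ‖(1 : Mt X A)‖ ≤ 1 := by
    rcases subsingleton_or_nontrivial (Mt X A) with h | h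
    · rw [Subsingleton.elim (1 : Mt X A) 0, norm_zero]; norm_num
    · rw [CStarRing.norm_one]
  have hPn : ‖Pw‖ ^ 2 ≤ k := by
    rw [sq, ← CStarRing.norm_star_mul_self, hPP, norm_smul, Complex.norm_real,
      Real.norm_of_nonneg hk0.le]
    calc k * ‖(1 : Mt X A)‖ ≤ k * 1 := mul_le_mul_of_nonneg_left honeX hk0.le
      _ = k := mul_one k
  refine ⟨((k⁻¹ : ℝ) : ℂ) • (star Pw * U * Pw), ?_, ?_⟩
  · rw [norm_smul, Complex.norm_real, Real.norm_of_nonneg (inv_nonneg.2 hk0.le),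
      inv_mul_le_iff₀ hk0, mul_one]
    have h1 : ‖star Pw * U * Pw‖ ≤ ‖Pw‖ * 1 * ‖Pw‖ := by
      refine (norm_mul_le _ _).trans (mul_le_mul_of_nonneg_right ?_ (norm_nonneg _))
      refine (norm_mul_le _ _).trans ?_
      rw [_root_.norm_star]
      exact mul_le_mul_of_nonneg_left hU1 (norm_nonneg _)
    nlinarith
  · have e1 : ∀ r p, epMv (((k⁻¹ : ℝ) : ℂ) • (star Pw * U * Pw)) (S.twX s g w h x false r p)
        - S.twX s g w h x true r p = ((k⁻¹ : ℝ) : ℂ) • epMv (star Pw) (D v r p) := by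
      intro r p
      have e2 : S.twX s g w h x true r p = ((k⁻¹ : ℝ) : ℂ)
          • epMv (star Pw) (epMv Pw (S.twX s g w h x true r p)) := by
        rw [← epMv_mul, hPP, ep_one_smul, smul_smul, ← Complex.ofReal_mul,
          inv_mul_cancel₀ hk0.ne', Complex.ofReal_one, one_smul]
      rw [hD]
      simp only
      rw [← hPw, epMv_sub, smul_sub, ← e2, epMv_smul, mul_assoc, epMv_mul, epMv_mul]
    have e3 : ∀ r p, T.nv (epMv (((k⁻¹ : ℝ) : ℂ) • (star Pw * U * Pw))
        (S.twX s g w h x false r p) - S.twX s g w h x true r p) ≤ k⁻¹ * T.nv (D v r p) := by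
      intro r p
      rw [e1, TrAlg.nv_smul]
      have e4 := T.nv_mv_le (star Pw) (D v r p)
      rw [_root_.norm_star] at e4
      have e5 : ‖Pw‖ ^ 2 * T.nv (D v r p) ≤ k * T.nv (D v r p) :=
        mul_le_mul_of_nonneg_right hPn (T.nv_nonneg _)
      calc k⁻¹ ^ 2 * T.nv (epMv (star Pw) (D v r p)) ≤ k⁻¹ ^ 2 * (k * T.nv (D v r p)) :=
            mul_le_mul_of_nonneg_left (e4.trans e5) (by positivity)
        _ = k⁻¹ * T.nv (D v r p) := by field_simp
    refine (Finset.sum_le_sum fun r _ => Finset.sum_le_sum fun p _ => e3 r p).trans ?_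
    simp only [← Finset.mul_sum]
    rw [inv_mul_le_iff₀ hk0]
    exact hv

end

end Pool.Agent.AbCoc
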