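import Pool.Agent.Lib_MP_418a80_nm.EP4c

/-!
# Diagonal corners, part 4d: the family is almost fixed by `g`
-/

set_option autoImplicit false
set_option linter.unusedVariables false
set_option linter.unusedSectionVars false

open Topology Filter MeasureTheory

namespace Pool.Agent.AbCoc

universe u v w

section
variable {A : Type u} [CStarAlgebra A] [PartialOrder A] [StarOrderedRing A]
  {K : Type v} [NormedAddCommGroup K] [InnerProductSpace ℂ K] [CompleteSpace K]
variable {G : Type w} [Group G] [TopologicalSpace G] {T : TrAlg A K} {S : TrAct G T}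
  [IsTopologicalGroup G] [SecondCountableTopology G] [MeasurableSpace G] [BorelSpace G]
  {I Q W R L : Type} [Fintype I] [DecidableEq I] [Fintype Q] [DecidableEq Q] [Fintype W]
  [Fintype R] [Fintype L]

/-- the vector `h_r ζ` times the constant `z` -/
noncomputable def twK (s : I → G) (g : G) (w : I → ℝ) (h : R → G → ℝ) (β : Bool) (r : R) (z : A) :
    (I × Bool) ⊕ Q → A :=
  fun a => ((h r (twS s g a) * twZ w β a : ℝ) : ℂ) • z

theorem TrAct.nv_twK_sub {P : Type} (s : I → G) (g : G) (w : I → ℝ) (hw : ∀ i, 0 ≤ w i)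
    (h : R → G → ℝ) (hg : ∀ r t, h r (t * g) = h r t) (x : P → A) (β : Bool) (r : R) (p : P)
    (z : A) :
    T.nv (twK s g w h β r z - S.twX s g w h x β r p : (I × Bool) ⊕ Q → A)
      = ∑ i, w i * (h r (s i) ^ 2
        * ‖T.ι (z - S.α (twS s g (Sum.inl (i, β) : (I × Bool) ⊕ Q)) (x p))‖ ^ 2) := by
  unfold TrAlg.nv
  have h1 : ∀ a : (I × Bool) ⊕ Q,
      ‖T.ι ((twK s g w h β r z - S.twX s g w h x β r p : (I × Bool) ⊕ Q → A) a)‖ ^ 2
      = twZ w β a ^ 2 * (h r (twS s g a) ^ 2 * ‖T.ι (z - S.α (twS s g a) (x p))‖ ^ 2) := by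
    intro a
    have h2 : (twK s g w h β r z - S.twX s g w h x β r p : (I × Bool) ⊕ Q → A) a
        = ((h r (twS s g a) * twZ w β a : ℝ) : ℂ) • (z - S.α (twS s g a) (x p)) := by
      rw [smul_sub]
      rfl
    rw [h2, map_smul, norm_smul, Complex.norm_real, mul_pow, Real.norm_eq_abs, sq_abs, mul_pow]
    ring
  rw [Finset.sum_congr rfl fun a _ => h1 a, tw_sum_real w hw β]
  refine Finset.sum_congr rfl fun i _ => ?_
  congr 2
  cases β
  · rfl
  · change h r (s i * g) ^ 2 = _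
    rw [hg]

theorem TrAct.IsTwo.moved {CF : Set G} {g : G} {b2 : A} (f2 : S.Fixed b2) {v : L → A}
    (hv2 : ∀ l, b2 * v l = v l) {h : R → G → ℝ} {η ηc : ℝ} {s : I → G} {w : I → ℝ}
    {e0 : W × Option L → Q} {c : W → A}
    (ht : S.IsTwo CF g (fun o : Option L => o.elim b2 v) h η ηc s w e0 c)
    [Nonempty I] [Nonempty W] (hη : 0 < η) (hb : ∀ r t, |h r t| ≤ 1)
    (hg : ∀ r t, h r (t * g) = h r t) (hsum : ∀ t ∈ CF, ∑ r, h r t ^ 2 = 1) {C : ℝ} (hC0 : 0 ≤ C)
    (hCv : ∀ z : A, ∑ l, ‖T.ι (z * v l)‖ ^ 2 ≤ C * ‖T.ι z‖ ^ 2) (γ : R → G) {κ : ℝ}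
    (hκ0 : 0 ≤ κ) (hκ : ∀ r, ∀ t ∈ CF, h r t ≠ 0 →
      ∑ l, ‖T.ι (S.α (γ r) (v l) - S.α t (v l))‖ ^ 2 ≤ κ) :
    ∑ l, ‖T.ι (S.α g (v l) - v l)‖ ^ 2
      ≤ 6 * (C + 1) * (4 * η + 2 * (Fintype.card R * ηc)) + 8 * κ := by
  obtain ⟨σ, hσ, hσ1⟩ := ht.exists_word hη hb hg hsum
  obtain ⟨θ, hθ⟩ : ∃ θ : ℝ, θ = 4 * η + 2 * (Fintype.card R * ηc) := ⟨_, rfl⟩
  obtain ⟨x, hx⟩ : ∃ x : Option L → A, x = fun o => o.elim b2 v := ⟨_, rfl⟩
  rw [← hθ, ← hx] at hσ1
  rw [← hθ]
  have hw := ht.w_nonneg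
  simp only [Fintype.sum_option] at hσ1
  rw [Finset.sum_add_distrib] at hσ1
  obtain ⟨a1, ha1⟩ : ∃ a1 : ℝ, a1 = ∑ r, T.nv (epMv σ (S.twX s g w h x false r none)
      - S.twX s g w h x true r none) := ⟨_, rfl⟩
  obtain ⟨a2, ha2⟩ : ∃ a2 : ℝ, a2 = ∑ r, ∑ l, T.nv (epMv σ (S.twX s g w h x false r (some l))
      - S.twX s g w h x true r (some l)) := ⟨_, rfl⟩
  rw [← ha1, ← ha2] at hσ1
  have ha10 : 0 ≤ a1 := by rw [ha1]; exact Finset.sum_nonneg fun r _ => T.nv_nonneg _
  have ha20 : 0 ≤ a2 := by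
    rw [ha2]; exact Finset.sum_nonneg fun r _ => Finset.sum_nonneg fun l _ => T.nv_nonneg _
  -- domination
  have hdom : ∀ (r : R) (z : A), ∑ l, ‖T.ι (z * S.α (γ r) (v l))‖ ^ 2 ≤ C * ‖T.ι z‖ ^ 2 := by
    intro r z
    have h1 := hCv (S.α (γ r)⁻¹ z)
    rw [S.norm_map] at h1
    refine le_trans (le_of_eq (Finset.sum_congr rfl fun l _ => ?_)) h1
    have h2 := S.norm_map (γ r) (S.α (γ r)⁻¹ z * v l)
    rw [map_mul (S.α (γ r)), S.apply_inv] at h2
    rw [h2]
  have hK : ∀ (β : Bool) (r : R) (l : L), (twK s g w h β r (S.α (γ r) (v l)) : (I × Bool) ⊕ Q → A)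
      = fun a => S.twX s g w h x β r none a * S.α (γ r) (v l) := by
    intro β r l
    funext a
    unfold twK TrAct.twX
    have h1 : x none = b2 := by rw [hx]; rfl
    have h2 : b2 * S.α (γ r) (v l) = S.α (γ r) (v l) := by
      have h3 := congrArg (S.α (γ r)) (hv2 l)
      rwa [map_mul, f2] at h3
    rw [h1, f2, smul_mul_assoc, h2]
  have h3 : ∑ r, ∑ l, T.nv (epMv σ (twK s g w h false r (S.α (γ r) (v l)))
      - twK s g w h true r (S.α (γ r) (v l))) ≤ C * a1 := by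
    rw [ha1, Finset.mul_sum]
    refine Finset.sum_le_sum fun r _ => ?_
    obtain ⟨y, hy⟩ : ∃ y : (I × Bool) ⊕ Q → A, y = epMv σ (S.twX s g w h x false r none)
      - S.twX s g w h x true r none := ⟨_, rfl⟩
    rw [← hy]
    have e1 : ∀ l, epMv σ (twK s g w h false r (S.α (γ r) (v l)))
        - twK s g w h true r (S.α (γ r) (v l)) = fun a => y a * S.α (γ r) (v l) := by
      intro l
      rw [hK, hK, epMv_right, hy]
      funext a
      simp only [Pi.sub_apply, sub_mul]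
    unfold TrAlg.nv
    rw [Finset.sum_comm, Finset.mul_sum]
    refine Finset.sum_le_sum fun a _ => ?_
    refine le_trans (le_of_eq (Finset.sum_congr rfl fun l _ => ?_)) (hdom r (y a))
    rw [e1]
  -- the constants on the two copies
  have hP : ∀ β : Bool, ∑ r, ∑ l, T.nv (twK s g w h β r (S.α (γ r) (v l))
      - S.twX s g w h x β r (some l) : (I × Bool) ⊕ Q → A)
      = ∑ i, w i * ∑ r, h r (s i) ^ 2 * ∑ l, ‖T.ι (S.α (γ r) (v l)
        - S.α (twS s g (Sum.inl (i, β) : (I × Bool) ⊕ Q)) (v l))‖ ^ 2 := by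
    intro β
    have e1 : ∀ r l, T.nv (twK s g w h β r (S.α (γ r) (v l))
        - S.twX s g w h x β r (some l) : (I × Bool) ⊕ Q → A)
        = ∑ i, w i * (h r (s i) ^ 2 * ‖T.ι (S.α (γ r) (v l)
          - S.α (twS s g (Sum.inl (i, β) : (I × Bool) ⊕ Q)) (v l))‖ ^ 2) := by
      intro r l
      rw [S.nv_twK_sub s g w hw h hg x β r (some l)]
      have h1 : x (some l) = v l := by rw [hx]; rfl
      rw [h1]
    simp only [e1, Finset.mul_sum]
    rw [Finset.sum_congr rfl fun r _ => Finset.sum_comm, Finset.sum_comm]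
  have hP0 : ∑ r, ∑ l, T.nv (twK s g w h false r (S.α (γ r) (v l))
      - S.twX s g w h x false r (some l) : (I × Bool) ⊕ Q → A) ≤ κ := by
    rw [hP]
    have e1 : ∀ i, w i * ∑ r, h r (s i) ^ 2 * ∑ l, ‖T.ι (S.α (γ r) (v l)
        - S.α (twS s g (Sum.inl (i, false) : (I × Bool) ⊕ Q)) (v l))‖ ^ 2 ≤ w i * κ := by
      intro i
      by_cases hi : w i = 0
      · rw [hi, zero_mul, zero_mul]
      · refine mul_le_mul_of_nonneg_left ?_ (hw i)
        have hmem := ht.mem i hi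
        calc ∑ r, h r (s i) ^ 2 * ∑ l, ‖T.ι (S.α (γ r) (v l)
              - S.α (twS s g (Sum.inl (i, false) : (I × Bool) ⊕ Q)) (v l))‖ ^ 2
            ≤ ∑ r, h r (s i) ^ 2 * κ := by
              refine Finset.sum_le_sum fun r _ => ?_
              by_cases hr : h r (s i) = 0
              · rw [hr]; norm_num
              · exact mul_le_mul_of_nonneg_left (hκ r (s i) hmem hr) (sq_nonneg _)
          _ = κ := by rw [← Finset.sum_mul, hsum _ hmem, one_mul]
    refine (Finset.sum_le_sum fun i _ => e1 i).trans (le_of_eq ?_)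
    rw [← Finset.sum_mul, ht.w_sum, one_mul]
  have hP1 : ∑ r, ∑ l, T.nv (twK s g w h true r (S.α (γ r) (v l))
      - S.twX s g w h x true r (some l) : (I × Bool) ⊕ Q → A)
      ≤ 3 * (C * a1 + κ + a2) := by
    have e1 : ∀ r l, T.nv (twK s g w h true r (S.α (γ r) (v l))
        - S.twX s g w h x true r (some l) : (I × Bool) ⊕ Q → A)
        ≤ 3 * (T.nv (epMv σ (twK s g w h false r (S.α (γ r) (v l)))
            - twK s g w h true r (S.α (γ r) (v l)))
          + T.nv (twK s g w h false r (S.α (γ r) (v l))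
            - S.twX s g w h x false r (some l) : (I × Bool) ⊕ Q → A)
          + T.nv (epMv σ (S.twX s g w h x false r (some l))
            - S.twX s g w h x true r (some l))) := by
      intro r l
      have e2 : (twK s g w h true r (S.α (γ r) (v l))
          - S.twX s g w h x true r (some l) : (I × Bool) ⊕ Q → A)
          = -(epMv σ (twK s g w h false r (S.α (γ r) (v l)))
              - twK s g w h true r (S.α (γ r) (v l)))
            + epMv σ (twK s g w h false r (S.α (γ r) (v l)) - S.twX s g w h x false r (some l))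
            + (epMv σ (S.twX s g w h x false r (some l)) - S.twX s g w h x true r (some l)) := by
        rw [epMv_sub]
        abel
      rw [e2]
      refine (T.nv_add3_le _ _ _).trans ?_
      have e3 : ∀ ξ : (I × Bool) ⊕ Q → A, T.nv (-ξ) = T.nv ξ := by
        intro ξ
        unfold TrAlg.nv
        refine Finset.sum_congr rfl fun a _ => ?_
        change ‖T.ι (-ξ a)‖ ^ 2 = _
        rw [map_neg, norm_neg]
      rw [e3]
      have e4 := T.nv_mv_le σ (twK s g w h false r (S.α (γ r) (v l))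
        - S.twX s g w h x false r (some l))
      have e5 : ‖σ‖ ^ 2 * T.nv (twK s g w h false r (S.α (γ r) (v l))
          - S.twX s g w h x false r (some l) : (I × Bool) ⊕ Q → A)
          ≤ 1 * T.nv (twK s g w h false r (S.α (γ r) (v l))
          - S.twX s g w h x false r (some l) : (I × Bool) ⊕ Q → A) := by
        refine mul_le_mul_of_nonneg_right ?_ (T.nv_nonneg _)
        exact pow_le_one₀ (norm_nonneg _) hσ
      linarith
    refine (Finset.sum_le_sum fun r _ => Finset.sum_le_sum fun l _ => e1 r l).trans ?_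
    simp only [← Finset.mul_sum, Finset.sum_add_distrib]
    rw [← ha2]
    linarith
  -- conclusion
  have hfin : ∑ l, ‖T.ι (S.α g (v l) - v l)‖ ^ 2
      ≤ 2 * (∑ r, ∑ l, T.nv (twK s g w h true r (S.α (γ r) (v l))
          - S.twX s g w h x true r (some l) : (I × Bool) ⊕ Q → A))
        + 2 * (∑ r, ∑ l, T.nv (twK s g w h false r (S.α (γ r) (v l))
          - S.twX s g w h x false r (some l) : (I × Bool) ⊕ Q → A)) := by
    rw [hP, hP, Finset.mul_sum, Finset.mul_sum, ← Finset.sum_add_distrib]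
    have e0 : ∑ l, ‖T.ι (S.α g (v l) - v l)‖ ^ 2
        = ∑ i, w i * ∑ l, ‖T.ι (S.α g (v l) - v l)‖ ^ 2 := by
      rw [← Finset.sum_mul, ht.w_sum, one_mul]
    rw [e0]
    refine Finset.sum_le_sum fun i _ => ?_
    by_cases hi : w i = 0
    · rw [hi]; simp
    have hmem := ht.mem i hi
    have e1 : ∑ l, ‖T.ι (S.α g (v l) - v l)‖ ^ 2
        = ∑ r, h r (s i) ^ 2 * ∑ l, ‖T.ι (S.α g (v l) - v l)‖ ^ 2 := by
      rw [← Finset.sum_mul, hsum _ hmem, one_mul]
    rw [e1]
    have e2 : ∀ r, ∑ l, ‖T.ι (S.α g (v l) - v l)‖ ^ 2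
        ≤ 2 * ∑ l, ‖T.ι (S.α (γ r) (v l)
            - S.α (twS s g (Sum.inl (i, true) : (I × Bool) ⊕ Q)) (v l))‖ ^ 2
          + 2 * ∑ l, ‖T.ι (S.α (γ r) (v l)
            - S.α (twS s g (Sum.inl (i, false) : (I × Bool) ⊕ Q)) (v l))‖ ^ 2 := by
      intro r
      rw [Finset.mul_sum, Finset.mul_sum, ← Finset.sum_add_distrib]
      refine Finset.sum_le_sum fun l _ => ?_
      have e3 : ‖T.ι (S.α g (v l) - v l)‖
          = ‖T.ι (S.α (γ r) (v l) - S.α (s i) (v l)) - T.ι (S.α (γ r) (v l)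
            - S.α (s i * g) (v l))‖ := by
        rw [← map_sub, ← S.norm_map (s i) (S.α g (v l) - v l)]
        congr 2
        rw [map_sub, S.mul]
        abel
      have e4 : ‖T.ι (S.α g (v l) - v l)‖ ≤ ‖T.ι (S.α (γ r) (v l) - S.α (s i) (v l))‖
          + ‖T.ι (S.α (γ r) (v l) - S.α (s i * g) (v l))‖ := by
        rw [e3]; exact norm_sub_le _ _
      have e5 := pow_le_pow_left₀ (norm_nonneg _) e4 2
      have e6 : twS s g (Sum.inl (i, true) : (I × Bool) ⊕ Q) = s i * g := rfl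
      have e7 : twS s g (Sum.inl (i, false) : (I × Bool) ⊕ Q) = s i := rfl
      rw [e6, e7]
      nlinarith [sq_nonneg (‖T.ι (S.α (γ r) (v l) - S.α (s i) (v l))‖
        - ‖T.ι (S.α (γ r) (v l) - S.α (s i * g) (v l))‖)]
    have e8 := Finset.sum_le_sum fun r (_ : r ∈ (Finset.univ : Finset R)) =>
      mul_le_mul_of_nonneg_left (e2 r) (sq_nonneg (h r (s i)))
    have e9 := mul_le_mul_of_nonneg_left e8 (hw i)
    refine e9.trans (le_of_eq ?_)
    have e10 : ∀ r, h r (s i) ^ 2 * (2 * ∑ l, ‖T.ι (S.α (γ r) (v l)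
            - S.α (twS s g (Sum.inl (i, true) : (I × Bool) ⊕ Q)) (v l))‖ ^ 2
          + 2 * ∑ l, ‖T.ι (S.α (γ r) (v l)
            - S.α (twS s g (Sum.inl (i, false) : (I × Bool) ⊕ Q)) (v l))‖ ^ 2)
        = 2 * (h r (s i) ^ 2 * ∑ l, ‖T.ι (S.α (γ r) (v l)
            - S.α (twS s g (Sum.inl (i, true) : (I × Bool) ⊕ Q)) (v l))‖ ^ 2)
          + 2 * (h r (s i) ^ 2 * ∑ l, ‖T.ι (S.α (γ r) (v l)
            - S.α (twS s g (Sum.inl (i, false) : (I × Bool) ⊕ Q)) (v l))‖ ^ 2) := fun r => by ring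
    rw [Finset.sum_congr rfl fun r _ => e10 r, Finset.sum_add_distrib, ← Finset.mul_sum,
      ← Finset.mul_sum]
    ring
  have b1 : C * a1 + a2 ≤ (C + 1) * θ := by
    nlinarith
  nlinarith

end

end Pool.Agent.AbCoc
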