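import Pool.Agent.Lib_MP_418a80_nm.EP4d
import Pool.Agent.Lib_MP_418a80_nm.RelC3
import Pool.Agent.Lib_MP_418a80_nm.Part

/-!
# Diagonal corners, part 4e: subgroups with moved near-invariant families
-/

set_option autoImplicit false
set_option linter.unusedVariables false
set_option linter.unusedSectionVars false

open Topology Filter MeasureTheory
open scoped Pointwise

namespace Pool.Agent.AbCoc

universe u v w

section
variable {A : Type u} [CStarAlgebra A] [PartialOrder A] [StarOrderedRing A]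
  {K : Type v} [NormedAddCommGroup K] [InnerProductSpace ℂ K] [CompleteSpace K]
variable {G : Type w} [Group G] [TopologicalSpace G] {T : TrAlg A K} (S : TrAct G T)
variable [IsTopologicalGroup G] [SecondCountableTopology G] [MeasurableSpace G] [BorelSpace G]
  [LocallyCompactSpace G] [T2Space G] (μ : Measure G) [μ.IsHaarMeasure]

/-- two successive cuts of a fixed element -/
theorem TrAct.exists_cut2 {b : A} (hb : S.Fixed b) (hs : IsSelfAdjoint b) (h0 : b ≠ 0) :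
    ∃ b1 b2 b3 β : A, S.Fixed b1 ∧ IsSelfAdjoint b1 ∧ b1 ≠ 0 ∧ S.Fixed b2 ∧ S.Fixed b3 ∧
      star b3 = b3 ∧ b2 * b1 = b1 ∧ b1 * b2 = b1 ∧ b2 * b3 = b2 ∧ b3 = b * β ∧ b3 = β * b := by
  obtain ⟨c, b3, β, f2, s2, n2, f3, s3, m1, m2, d1, d2⟩ := S.exists_cut hb hs h0
  obtain ⟨b1, b2, s', f1, t1, n1, g2, t2, k1, k2, l1, l2⟩ := S.exists_cut f2 s2 n2
  refine ⟨b1, b2, b3, β, f1, t1, n1, g2, f3, s3, k1, k2, ?_, d1, d2⟩
  rw [l2, mul_assoc, m2]

theorem TrAct.domAt_move (hR : ∀ C1 : Set G, IsCompact C1 → ∀ κ : ℝ, 0 < κ → ∃ F : G → ℝ,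
      Continuous F ∧ HasCompactSupport F ∧ (∀ t, 0 ≤ F t) ∧ ∫ t, F t ∂μ = 1 ∧
      ∀ s ∈ C1, ∫ t, |F (s⁻¹ * t) - F t| ∂μ ≤ κ) (N : Subgroup G) [N.Normal]
    (hN : IsClosed (N : Set G)) (hcomb : S.Comb (N : Set G)) (hmove : S.MoveOn (N : Set G))
    {b : A} (hb : S.Fixed b) (hbs : IsSelfAdjoint b) (hb0 : b ≠ 0) : S.DomAt b b := by
  classical
  by_contra hnot
  obtain ⟨b1, b2, b3, β, f1, t1, n1, f2, f3, s3, k1, k2, k3, d1, d2⟩ :=
    S.exists_cut2 hb hbs hb0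
  obtain ⟨C', c0, hc0, hfam⟩ := hmove b1 f1 t1 n1
  obtain ⟨C, hC⟩ : ∃ C : ℝ, C = max C' 0 := ⟨_, rfl⟩
  have hC0 : 0 ≤ C := by rw [hC]; exact le_max_right _ _
  have hCC : ∀ z : A, C' * ‖T.ι z‖ ^ 2 ≤ C * ‖T.ι z‖ ^ 2 := fun z =>
    mul_le_mul_of_nonneg_right (by rw [hC]; exact le_max_left _ _) (sq_nonneg _)
  obtain ⟨m, hm⟩ : ∃ m : ℝ, m = ‖b2‖ ^ 2 + C + 1 := ⟨_, rfl⟩
  have hm0 : 0 < m := by rw [hm]; positivity
  obtain ⟨η, hη⟩ : ∃ η : ℝ, η = c0 / (96 * (C + 1)) := ⟨_, rfl⟩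
  have hη0 : 0 < η := by rw [hη]; positivity
  have hηC : 24 * (C + 1) * η = c0 / 4 := by rw [hη]; field_simp; norm_num
  obtain ⟨ε, hε⟩ : ∃ ε : ℝ, ε = (η / 16) ^ 2 / m := ⟨_, rfl⟩
  have hε0 : 0 < ε := by rw [hε]; positivity
  have hsε : Real.sqrt m * Real.sqrt ε = η / 16 := by
    rw [← Real.sqrt_mul hm0.le, hε, mul_div_assoc', mul_div_cancel_left₀ _ hm0.ne']
    exact Real.sqrt_sq (by positivity)
  obtain ⟨D, κ, hD, hκ, hneg⟩ := S.neg_of_not_domAt hb hnot m ε hε0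
  obtain ⟨F, hFc, hFs, hF0, hF1, hFD⟩ := hR D hD (κ / (m + 1)) (by positivity)
  have hFi : Integrable F μ := hFc.integrable_of_hasCompactSupport hFs
  obtain ⟨CF, hCF⟩ : ∃ CF : Set G, CF = tsupport F := ⟨_, rfl⟩
  have hCFc : IsCompact CF := by rw [hCF]; exact hFs.isCompact
  obtain ⟨V0, hV0c, hV0⟩ := exists_compact_mem_nhds (1 : G)
  -- the family
  obtain ⟨L, _, v, y, hv, ⟨g, hgN, hgc⟩, hvn, hvr, hvl⟩ := hfam
    ((N : Set G) ∩ (V0⁻¹ * (CF⁻¹ * CF))) ((hV0c.inv.mul (hCFc.inv.mul hCFc)).inter_left hN)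
    Set.inter_subset_left (c0 / 128) (by positivity)
  have hvC : ∀ z : A, ∑ l, ‖T.ι (v l * z)‖ ^ 2 ≤ C * ‖T.ι z‖ ^ 2 := fun z =>
    (hvr z).trans (hCC z)
  have hvC' : ∀ z : A, ∑ l, ‖T.ι (z * v l)‖ ^ 2 ≤ C * ‖T.ι z‖ ^ 2 := fun z =>
    (hvl z).trans (hCC z)
  have hv2 : ∀ l, b2 * v l = v l := fun l => by
    rw [hv, mul_assoc b1, ← mul_assoc b2, k1]
  have hv2' : ∀ l, v l * b2 = v l := fun l => by
    rw [hv, mul_assoc, k2]
  -- the neighbourhood
  obtain ⟨V, hV, hVV0, hVv⟩ : ∃ V ∈ 𝓝 (1 : G), V ⊆ V0 ∧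
      ∀ t ∈ V, ∑ l, ‖T.ι (S.α t (v l) - v l)‖ ^ 2 ≤ c0 / 128 := by
    have hcont : Continuous fun t => ∑ l, ‖T.ι (S.α t (v l) - v l)‖ ^ 2 := by
      refine continuous_finsetSum _ fun l _ => ?_
      simp only [map_sub]
      exact ((S.cont (v l)).sub continuous_const).norm.pow 2
    have h1 : ∑ l, ‖T.ι (S.α 1 (v l) - v l)‖ ^ 2 < c0 / 128 := by
      simp only [S.one, sub_self, map_zero, norm_zero]
      simp
      positivity
    have h2 := hcont.continuousAt.eventually (gt_mem_nhds h1)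
    refine ⟨_, Filter.inter_mem hV0 h2, Set.inter_subset_left, fun t ht => le_of_lt ht.2⟩
  obtain ⟨R, _, h, γ, hh1, hh2, hh3, hh4, hh5, hh6, hh7⟩ := exists_part N hN hCFc hV
  have habs : ∀ r t, |h r t| ≤ 1 := fun r t => by
    rw [abs_of_nonneg (hh3 r t)]
    exact hh4 r t
  obtain ⟨ηc, hηc⟩ : ∃ ηc : ℝ, ηc = c0 / (48 * (C + 1) * (Fintype.card R + 1)) := ⟨_, rfl⟩
  have hηc0 : 0 < ηc := by rw [hηc]; positivity
  have hηcC : 12 * (C + 1) * (Fintype.card R * ηc) ≤ c0 / 4 := by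
    have e1 : 12 * (C + 1) * ((Fintype.card R + 1) * ηc) = c0 / 4 := by
      rw [hηc]; field_simp; norm_num
    rw [← e1]
    refine mul_le_mul_of_nonneg_left ?_ (by positivity)
    refine mul_le_mul_of_nonneg_right ?_ hηc0.le
    linarith
  -- the two copies
  have hxdom : ∀ z : A, ∑ p : Option L, ‖T.ι (p.elim b2 v * z)‖ ^ 2
      ≤ (‖b2‖ ^ 2 + C) * ‖T.ι z‖ ^ 2 := by
    intro z
    rw [Fintype.sum_option]
    have e1 : ‖T.ι (b2 * z)‖ ^ 2 ≤ ‖b2‖ ^ 2 * ‖T.ι z‖ ^ 2 := by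
      have h4 := pow_le_pow_left₀ (norm_nonneg _) (T.mul_le b2 z) 2
      rwa [mul_pow] at h4
    have e2 := hvC z
    change ‖T.ι (b2 * z)‖ ^ 2 + ∑ l, ‖T.ι (v l * z)‖ ^ 2 ≤ _
    rw [add_mul]
    exact add_le_add e1 e2
  obtain ⟨I, Q, W, _, _, _, _, _, _, _, _, s, w, e0, c, ht⟩ := S.exists_two μ d1 d2 f3 s3
    (C := m) (ε := ε) (κ₀ := κ) (m := m) (D := D) hneg hFi hF0 hF1
    (fun t ht => by
      have h4 := hFD t ht
      have h5 : m * ∫ r, |F (t⁻¹ * r) - F r| ∂μ ≤ m * (κ / (m + 1)) :=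
        mul_le_mul_of_nonneg_left h4 hm0.le
      refine h5.trans ?_
      rw [mul_div_assoc', div_le_iff₀ (by positivity)]
      nlinarith) (CF := CF) hCFc
    (fun t ht => by rw [hCF] at ht; exact image_eq_zero_of_notMem_tsupport ht) hcomb
    (P := Option L) (Λ := R) (fun o => o.elim b2 v)
    (by
      have h4 := hxdom 1
      simp only [mul_one, T.norm_one, one_pow] at h4
      refine h4.trans ?_
      rw [hm]
      linarith) (fun z => by
      refine (hxdom z).trans (mul_le_mul_of_nonneg_right ?_ (sq_nonneg _))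
      rw [hm]
      linarith) (fun p => by
      cases p with
      | none => exact k3
      | some l =>
        change v l * b3 = v l
        rw [← hv2' l, mul_assoc, k3]) h hh1 hh2 habs g
    (ηd := η / 2) (ηc := ηc) (by positivity) hηc0
  have hη1 : 8 * (Real.sqrt m * Real.sqrt ε) + η / 2 = η := by rw [hsε]; ring
  rw [hη1] at ht
  have hfin := ht.moved f2 hv2 hη0 habs (fun r t => hh2 r t g hgN) hh5 hC0 hvC' γ
    (κ := c0 / 32) (by positivity) (fun r t htC hrt => by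
      obtain ⟨x, hxV, n, hnN, hxn⟩ := hh7 r t hrt
      have hn : n ∈ (N : Set G) ∩ (V0⁻¹ * (CF⁻¹ * CF)) := by
        refine ⟨hnN, ?_⟩
        have e1 : n = x⁻¹ * ((γ r)⁻¹ * t) := by rw [hxn]; group
        rw [e1]
        exact Set.mul_mem_mul (Set.inv_mem_inv.2 (hVV0 hxV))
          (Set.mul_mem_mul (Set.inv_mem_inv.2 (hh6 r)) htC)
      have e2 := hvn n hn
      have e3 := hVv x hxV
      have e4 : ∀ l, ‖T.ι (S.α (γ r) (v l) - S.α t (v l))‖ ^ 2
          ≤ 2 * ‖T.ι (S.α x (v l) - v l)‖ ^ 2 + 2 * ‖T.ι (S.α n (v l) - v l)‖ ^ 2 := by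
        intro l
        have e5 : ‖T.ι (S.α (γ r) (v l) - S.α t (v l))‖
            ≤ ‖T.ι (S.α x (v l) - v l)‖ + ‖T.ι (S.α n (v l) - v l)‖ := by
          have e6 : S.α (γ r) (v l) - S.α t (v l)
              = -S.α (γ r) ((S.α x (v l) - v l) + S.α x (S.α n (v l) - v l)) := by
            rw [hxn, S.mul, S.mul, ← map_neg]
            simp only [map_sub, map_add, map_neg]
            abel
          rw [e6, map_neg, norm_neg, S.norm_map, map_add]
          refine (norm_add_le _ _).trans ?_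
          rw [S.norm_map]
        have e7 := pow_le_pow_left₀ (norm_nonneg _) e5 2
        nlinarith [sq_nonneg (‖T.ι (S.α x (v l) - v l)‖ - ‖T.ι (S.α n (v l) - v l)‖)]
      refine (Finset.sum_le_sum fun l _ => e4 l).trans ?_
      rw [Finset.sum_add_distrib, ← Finset.mul_sum, ← Finset.mul_sum]
      linarith)
  have hlast : 6 * (C + 1) * (4 * η + 2 * (Fintype.card R * ηc)) + 8 * (c0 / 32)
      = 24 * (C + 1) * η + 12 * (C + 1) * (Fintype.card R * ηc) + c0 / 4 := by ring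
  rw [hlast, hηC] at hfin
  linarith

end

end Pool.Agent.AbCoc
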