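import Pool.Agent.Lib_MP_418a80_nm.EP0
import Pool.Agent.Lib_MP_418a80_nm.RelC3

/-!
# Diagonal corners and the relative theorem give `StepADom`
-/

set_option autoImplicit false
set_option linter.unusedVariables false
set_option linter.unusedSectionVars false

open Topology Filter MeasureTheory

namespace Pool.Agent.AbCoc

universe u v w

variable {A : Type u} [CStarAlgebra A] [PartialOrder A] [StarOrderedRing A] {K : Type v}
  [NormedAddCommGroup K]
  [InnerProductSpace ℂ K] [CompleteSpace K]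
  {G : Type w} [Group G] [TopologicalSpace G] {T : TrAlg A K} (S : TrAct G T)

/-- a cut of `star r * r`: a fixed element `b = l q = q l` with `t0 b² ≤ b q b` -/
theorem TrAct.exists_cut_sq {r : A} (hr : S.Fixed r) (hr0 : r ≠ 0) :
    ∃ (b l : A) (t0 : ℝ), 0 < t0 ∧ S.Fixed b ∧ IsSelfAdjoint b ∧ b ≠ 0 ∧
      b = l * (star r * r) ∧ ∀ y : A, t0 * ‖T.ι (b * y)‖ ^ 2 ≤ ‖T.ι (r * (b * y))‖ ^ 2 := by
  set q : A := star r * r with hq
  have hqf : S.Fixed q := TrAct.Fixed.mul S (TrAct.Fixed.star S hr) hr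
  have hq0 : 0 ≤ q := star_mul_self_nonneg r
  have hqs : IsSelfAdjoint q := IsSelfAdjoint.of_nonneg hq0
  have hqn : q ≠ 0 := fun h => hr0 ((CStarRing.star_mul_self_eq_zero_iff r).1 h)
  have hn : 0 < ‖q‖ := norm_pos_iff.2 hqn
  set t0 : ℝ := ‖q‖ / 2 with ht0
  have ht : 0 < t0 := by positivity
  set f : ℝ → ℝ := fun t => max (t - t0) 0 with hf
  set l : ℝ → ℝ := fun t => max (t - t0) 0 / max t t0 with hl
  have c1 : Continuous f := by fun_prop
  have c2 : Continuous l := by
    refine Continuous.div (by fun_prop) (by fun_prop) fun t => ?_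
    exact (lt_max_of_lt_right ht).ne'
  have e1 : ∀ t, f t = l t * t := by
    intro t
    simp only [hf, hl]
    rcases le_total t t0 with h | h
    · rw [max_eq_right (by linarith)]
      simp
    · rw [max_eq_left h, div_mul_cancel₀ _ (ht.trans_le h).ne']
  set b : A := cfc f q with hb
  have hbs : IsSelfAdjoint b := cfc_predicate f q
  have hbl : b = cfc l q * q := by
    rw [hb]
    have h1 : cfc l q * q = cfc (fun t => l t * t) q := by
      conv_lhs => rw [← cfc_id ℝ q]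
      rw [cfc_id ℝ q]
      nth_rewrite 2 [← cfc_id ℝ q]
      rw [← cfc_mul l id q c2.continuousOn continuous_id.continuousOn]
      rfl
    rw [h1]
    exact cfc_congr fun t _ => e1 t
  have hb0 : b ≠ 0 := by
    intro h0
    have h1 : q = cfc (fun t : ℝ => min t t0) q := by
      have h2 : (fun t : ℝ => f t + min t t0) = id := by
        funext t
        simp only [hf, id]
        rcases le_total t t0 with h | h
        · rw [max_eq_right (by linarith), min_eq_left h, zero_add]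
        · rw [max_eq_left (by linarith), min_eq_right h]; ring
      have h3 : cfc (fun t : ℝ => f t + min t t0) q = q := by rw [h2, cfc_id ℝ q]
      rw [cfc_add (a := q) f (fun t : ℝ => min t t0) c1.continuousOn (by fun_prop), ← hb, h0,
        zero_add] at h3
      exact h3.symm
    have h2 : ‖q‖ ≤ t0 := by
      rw [h1]
      refine norm_cfc_le ht.le fun t htq => ?_
      have h3 : 0 ≤ t := spectrum_nonneg_of_nonneg hq0 htq
      rw [Real.norm_eq_abs, abs_of_nonneg (le_min h3 ht.le)]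
      exact min_le_right _ _
    linarith
  refine ⟨b, cfc l q, t0, ht, S.fixed_cfc_ex hqf hqs c1, hbs, hb0, hbl, fun y => ?_⟩
  have h1 : 0 ≤ b * q * b - ((t0 : ℝ) : ℂ) • (b * b) := by
    have h2 : b * q * b - ((t0 : ℝ) : ℂ) • (b * b)
        = cfc (fun t : ℝ => f t * t * f t - t0 * (f t * f t)) q := by
      have h3 : b * q * b = cfc (fun t : ℝ => f t * t * f t) q := by
        have h4 : b * q = cfc (fun t : ℝ => f t * t) q := by
          nth_rewrite 1 [← cfc_id ℝ q]
          rw [hb, ← cfc_mul f id q c1.continuousOn continuous_id.continuousOn]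
          rfl
        rw [h4, hb, ← cfc_mul (fun t : ℝ => f t * t) f q (by fun_prop) c1.continuousOn]
      have h4 : b * b = cfc (fun t : ℝ => f t * f t) q := by
        rw [hb, ← cfc_mul f f q c1.continuousOn c1.continuousOn]
      have h5 : ((t0 : ℝ) : ℂ) • cfc (fun t : ℝ => f t * f t) q
          = cfc (fun t : ℝ => t0 * (f t * f t)) q := by
        rw [cfc_const_mul t0 (fun t : ℝ => f t * f t) q (by fun_prop)]
        exact Complex.coe_smul t0 _
      rw [h3, h4, h5, ← cfc_sub (a := q) _ _ (by fun_prop) (by fun_prop)]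
    rw [h2]
    refine cfc_nonneg fun t _ => ?_
    simp only [hf]
    rcases le_total t t0 with h | h
    · rw [max_eq_right (by linarith)]
      simp
    · rw [max_eq_left (by linarith)]
      nlinarith [mul_nonneg (sq_nonneg (t - t0)) (sub_nonneg.2 h)]
  have h2 := T.re_τ_conj_nonneg y _ h1
  rw [mul_sub, sub_mul, T.τ_sub, mul_smul_comm, smul_mul_assoc, T.τ_smul, Complex.sub_re,
    Complex.re_ofReal_mul] at h2
  have h3 : (T.τ (star y * (b * q * b) * y)).re = ‖T.ι (r * (b * y))‖ ^ 2 := by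
    rw [T.norm_sq, star_mul, star_mul, hbs.star_eq]
    congr 2
    rw [hq]
    noncomm_ring
  have h4 : (T.τ (star y * (b * b) * y)).re = ‖T.ι (b * y)‖ ^ 2 := by
    rw [T.norm_sq, star_mul, hbs.star_eq]
    congr 2
    noncomm_ring
  rw [h3, h4] at h2
  linarith

/-- `StepADom` from near-invariant families in all corners and `DomAt` in the diagonal corners -/
theorem TrAct.stepADom_of_diag (hrel : S.NearOn (Set.univ : Set G))
    (hdiag : ∀ b : A, S.Fixed b → IsSelfAdjoint b → b ≠ 0 → S.DomAt b b) : S.StepADom := by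
  classical
  intro b1 b2 hb1 hb2 hbs1 hbs2 hb10 hb20
  by_cases hp : ∃ p : A, S.Fixed p ∧ b1 * p * b2 ≠ 0
  · obtain ⟨p, hpf, hpn⟩ := hp
    set r : A := b1 * p * b2 with hr
    have hrf : S.Fixed r := TrAct.Fixed.mul S (TrAct.Fixed.mul S hb1 hpf) hb2
    obtain ⟨b4, l, t0, ht0, hb4f, hb4s, hb40, hb4l, hb4⟩ := S.exists_cut_sq hrf hpn
    obtain ⟨C, c0, hc0, hfam⟩ := hdiag b4 hb4f hb4s hb40
    have hrn : (0 : ℝ) ≤ ‖r‖ ^ 2 := sq_nonneg _
    refine ⟨‖r‖ ^ 2 * C, t0 * c0, by positivity, fun D hD κ hκ => ?_⟩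
    obtain ⟨J, _, a, x, hax, ha1, ha2, ha3, ha4, ha5⟩ := hfam D hD (κ / (‖r‖ ^ 2 + 1)) (by positivity)
    have hmul : ∀ y : A, ‖T.ι (r * y)‖ ^ 2 ≤ ‖r‖ ^ 2 * ‖T.ι y‖ ^ 2 := by
      intro y
      have h1 := pow_le_pow_left₀ (norm_nonneg _) (T.mul_le r y) 2
      rwa [mul_pow] at h1
    have hfin : ‖r‖ ^ 2 * (κ / (‖r‖ ^ 2 + 1)) ≤ κ := by
      rw [← mul_div_assoc, div_le_iff₀ (by positivity)]
      nlinarith
    refine ⟨J, inferInstance, fun i => r * a i, fun i => p * b2 * b4 * x i * l * star r * b1 * p,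
      fun i => ?_, ?_, ?_, fun s hs => ?_, fun z => ?_, fun z => ?_⟩
    · have h1 : b1 * (p * b2 * b4 * x i * l * star r * b1 * p) * b2
          = r * (b4 * x i * (l * (star r * r))) := by
        rw [hr]
        noncomm_ring
      rw [h1, ← hb4l]
      change r * a i = _
      rw [hax i]
    · have h1 : ∀ i, t0 * ‖T.ι (a i)‖ ^ 2 ≤ ‖T.ι (r * a i)‖ ^ 2 := by
        intro i
        rw [hax i, mul_assoc b4]
        exact hb4 _
      calc t0 * c0 ≤ t0 * ∑ i, ‖T.ι (a i)‖ ^ 2 := mul_le_mul_of_nonneg_left ha1 ht0.le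
        _ = ∑ i, t0 * ‖T.ι (a i)‖ ^ 2 := Finset.mul_sum _ _ _
        _ ≤ _ := Finset.sum_le_sum fun i _ => h1 i
    · have h1 : ∀ i, ‖T.ι (S.E (r * a i))‖ ^ 2 ≤ ‖r‖ ^ 2 * ‖T.ι (S.E (a i))‖ ^ 2 := by
        intro i
        rw [S.E_mul_left hrf]
        exact hmul _
      refine (Finset.sum_le_sum fun i _ => h1 i).trans ?_
      rw [← Finset.mul_sum]
      exact (mul_le_mul_of_nonneg_left ha2 hrn).trans hfin
    · have h1 : ∀ i, ‖T.ι (S.α s (r * a i) - r * a i)‖ ^ 2
          ≤ ‖r‖ ^ 2 * ‖T.ι (S.α s (a i) - a i)‖ ^ 2 := by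
        intro i
        rw [map_mul, hrf s, ← mul_sub]
        exact hmul _
      refine (Finset.sum_le_sum fun i _ => h1 i).trans ?_
      rw [← Finset.mul_sum]
      exact (mul_le_mul_of_nonneg_left (ha3 s hs) hrn).trans hfin
    · have h1 : ∀ i, ‖T.ι (r * a i * z)‖ ^ 2 ≤ ‖r‖ ^ 2 * ‖T.ι (a i * z)‖ ^ 2 := by
        intro i
        rw [mul_assoc]
        exact hmul _
      refine (Finset.sum_le_sum fun i _ => h1 i).trans ?_
      rw [← Finset.mul_sum, mul_assoc]
      exact mul_le_mul_of_nonneg_left (ha4 z) hrn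
    · have h1 : ∀ i, ‖T.ι (z * (r * a i))‖ ^ 2 = ‖T.ι ((z * r) * a i)‖ ^ 2 := by
        intro i
        rw [mul_assoc z r (a i)]
      have hC : 0 ≤ C := by
        have h2 := ha4 1
        rw [T.norm_one, one_pow, mul_one] at h2
        exact (Finset.sum_nonneg fun _ _ => sq_nonneg _).trans h2
      refine (Finset.sum_le_sum fun i _ => le_of_eq (h1 i)).trans ((ha5 (z * r)).trans ?_)
      have h2 : ‖T.ι (z * r)‖ ^ 2 ≤ ‖r‖ ^ 2 * ‖T.ι z‖ ^ 2 := by
        have h3 := pow_le_pow_left₀ (norm_nonneg _) (T.mul_le' z r) 2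
        rw [mul_pow] at h3
        linarith
      calc C * ‖T.ι (z * r)‖ ^ 2 ≤ C * (‖r‖ ^ 2 * ‖T.ι z‖ ^ 2) := mul_le_mul_of_nonneg_left h2 hC
        _ = _ := by ring
  · push Not at hp
    obtain ⟨C, c0, hc0, hfam⟩ := hrel b1 b2 hb1 hb2 hbs1 hbs2 hb10 hb20
    refine ⟨C, c0, hc0, fun D hD κ hκ => ?_⟩
    obtain ⟨J, _, a, x, hax, ha1, ha3, ha4, ha5⟩ := hfam D hD (Set.subset_univ _) κ hκ
    refine ⟨J, inferInstance, a, x, hax, ha1, ?_, ha3, ha4, ha5⟩
    have h1 : ∀ i, S.E (a i) = 0 := by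
      intro i
      rw [hax, S.E_mul_right hb2, S.E_mul_left hb1]
      exact hp _ (S.E_fixed _)
    simp only [h1, map_zero, norm_zero]
    simpa using hκ.le

end Pool.Agent.AbCoc
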