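import Mathlib

/-!
# A right `N`-invariant function separating a compact set from a translate, `N` compact
-/

set_option autoImplicit false
set_option linter.unusedVariables false
set_option linter.unusedSectionVars false

open Topology Filter
open scoped Pointwise

namespace Pool.Agent.AbCoc

variable {G : Type*} [Group G] [TopologicalSpace G] [IsTopologicalGroup G] [LocallyCompactSpace G]
  [T2Space G] [NoncompactSpace G]

/-- a continuous right `N`-invariant function with values in `[0, 1]`, equal to `1` on `C` and to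
`0` on a translate `C g` -/
theorem exists_sep_fun {N : Subgroup G} (hN : IsCompact (N : Set G)) {C : Set G}
    (hC : IsCompact C) :
    ∃ (g : G) (h : G → ℝ), Continuous h ∧ (∀ s, ∀ n ∈ N, h (s * n) = h s) ∧
      (∀ s, 0 ≤ h s) ∧ (∀ s, |h s| ≤ 1) ∧ (∀ s ∈ C, h s = 1) ∧ (∀ s ∈ C, h (s * g) = 0) := by
  have hK : IsCompact (C⁻¹ * C * (N : Set G)) := (hC.inv.mul hC).mul hN
  obtain ⟨g, hg⟩ : ∃ g, g ∉ C⁻¹ * C * (N : Set G) := by
    by_contra h
    push Not at h
    exact hK.ne_univ (Set.eq_univ_of_forall h)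
  have hT : IsCompact (C * {g} * (N : Set G)) := (hC.mul isCompact_singleton).mul hN
  have hd : Disjoint C (C * {g} * (N : Set G)) := by
    refine Set.disjoint_left.2 fun s hs hs' => hg ?_
    obtain ⟨x, ⟨c, hc, g', hg', rfl⟩, n, hn, rfl⟩ := hs'
    rw [Set.mem_singleton_iff] at hg'
    subst hg'
    refine ⟨c⁻¹ * (c * g' * n), ⟨c⁻¹, Set.inv_mem_inv.2 hc, c * g' * n, hs, rfl⟩, n⁻¹,
      N.inv_mem hn, ?_⟩
    group
  obtain ⟨f, hf1, hf0, -, hf⟩ := exists_continuous_one_zero_of_isCompact hC hT.isClosed hd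
  have hne : (N : Set G).Nonempty := ⟨1, N.one_mem⟩
  have hbdd : ∀ s, BddAbove ((fun n => f (s * n)) '' (N : Set G)) := fun s =>
    ⟨1, by rintro _ ⟨n, -, rfl⟩; exact (hf _).2⟩
  refine ⟨g, fun s => sSup ((fun n => f (s * n)) '' (N : Set G)), ?_, fun s n hn => ?_, fun s => ?_,
    fun s => ?_, fun s hs => ?_, fun s hs => ?_⟩
  · exact hN.continuous_sSup (f := fun s n => f (s * n)) (by
      change Continuous fun p : G × G => f (p.1 * p.2)
      exact f.continuous.comp (continuous_fst.mul continuous_snd))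
  · simp only
    congr 1
    ext y
    constructor
    · rintro ⟨m, hm, rfl⟩
      exact ⟨n * m, N.mul_mem hn hm, by simp only [mul_assoc]⟩
    · rintro ⟨m, hm, rfl⟩
      exact ⟨n⁻¹ * m, N.mul_mem (N.inv_mem hn) hm, by simp only [mul_assoc, mul_inv_cancel_left]⟩
  · exact Real.sSup_nonneg (by rintro _ ⟨n, -, rfl⟩; exact (hf _).1)
  · rw [abs_of_nonneg (Real.sSup_nonneg (by rintro _ ⟨n, -, rfl⟩; exact (hf _).1))]
    exact csSup_le (hne.image _) (by rintro _ ⟨n, -, rfl⟩; exact (hf _).2)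
  · refine le_antisymm (csSup_le (hne.image _) (by rintro _ ⟨n, -, rfl⟩; exact (hf _).2)) ?_
    refine le_csSup (hbdd s) ⟨1, N.one_mem, ?_⟩
    simp only [mul_one]
    exact hf1 hs
  · have h1 : (fun n => f (s * g * n)) '' (N : Set G) = {0} := by
      ext y
      constructor
      · rintro ⟨n, hn, rfl⟩
        exact hf0 ⟨s * g, ⟨s, hs, g, rfl, rfl⟩, n, hn, rfl⟩
      · intro hy
        rw [Set.mem_singleton_iff] at hy
        subst hy
        exact ⟨1, N.one_mem, hf0 ⟨s * g, ⟨s, hs, g, rfl, rfl⟩, 1, N.one_mem, rfl⟩⟩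
    simp only
    rw [h1, csSup_singleton]

end Pool.Agent.AbCoc
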