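import Pool.Agent.Lib_MP_418a80_nm.RelC6

/-!
# REL: near-invariant families for `G` from near-invariant families for a closed normal subgroup
-/

set_option autoImplicit false
set_option linter.unusedVariables false
set_option linter.unusedSectionVars false

open MeasureTheory Topology Filter
open scoped Pointwise

namespace Pool.Agent.AbCoc

universe u v w

variable {A : Type u} [CStarAlgebra A] [PartialOrder A] [StarOrderedRing A]
  {K : Type v} [NormedAddCommGroup K] [InnerProductSpace ℂ K] [CompleteSpace K]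
  {G : Type w} [Group G] [TopologicalSpace G] {T : TrAlg A K} (S : TrAct G T)
  [IsTopologicalGroup G] [SecondCountableTopology G] [LocallyCompactSpace G]
  [MeasurableSpace G] [BorelSpace G] (μ : Measure G) [μ.IsHaarMeasure]

/-- the relative theorem: dominated near-`N`-invariant families in all corners give dominated
near-`G`-invariant families in all corners, if COMB holds for `N` -/
theorem TrAct.nearOn_univ_of_nearOn (hR : Reiter μ) (N : Subgroup G) [N.Normal]
    (hN : IsClosed (N : Set G)) (hcomb : S.Comb (N : Set G)) (hnear : S.NearOn (N : Set G)) :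
    S.NearOn (Set.univ : Set G) := by
  classical
  intro b1 b2 hb1 hb2 hbs1 hbs2 hb10 hb20
  obtain ⟨b1', e1, s1, hb1', hbs1', hb10', he1, hes1, heb1, hbe1, hes1', -⟩ :=
    S.exists_cut hb1 hbs1 hb10
  obtain ⟨b2', e2, s2, hb2', hbs2', hb20', he2, hes2, heb2, hbe2, -, hes2'⟩ :=
    S.exists_cut hb2 hbs2 hb20
  obtain ⟨C0, c0, hc0, hfam⟩ := hnear b1' b2' hb1' hb2' hbs1' hbs2' hb10' hb20'
  set C : ℝ := max C0 1 with hC
  have hC1 : 1 ≤ C := le_max_right _ _
  have hCpos : 0 < C := by linarith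
  refine ⟨C, c0 / 32, by positivity, fun D hD _ κout hκout => ?_⟩
  obtain ⟨F, hFc, hFs, hF0, hF1, hFR⟩ := hR D hD (κout / (2 * C)) (by positivity)
  have hFi : Integrable F μ := hFc.integrable_of_hasCompactSupport hFs
  set CF : Set G := tsupport F with hCF
  have hCFc : IsCompact CF := hFs
  have hFC : ∀ t, t ∉ CF → F t = 0 := fun t ht => image_eq_zero_of_notMem_tsupport ht
  obtain ⟨V0, hV0c, hV0⟩ := exists_compact_mem_nhds (1 : G)
  set D' : Set G := (N : Set G) ∩ (V0⁻¹ * (CF⁻¹ * CF)) with hD'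
  have hD'c : IsCompact D' := (hV0c.inv.mul (hCFc.inv.mul hCFc)).inter_left hN
  set κ : ℝ := c0 / 256 with hκ
  have hκ0 : 0 < κ := by positivity
  set κ1 : ℝ := min (κ / 4) ((κ / 8) ^ 2 / C) with hκ1
  have hκ10 : 0 < κ1 := lt_min (by positivity) (by positivity)
  obtain ⟨J, _, v, x, hvx, hv0, hvD, hd1', hd2'⟩ := hfam D' hD'c Set.inter_subset_left κ1 hκ10
  have hd1 : ∀ z : A, ∑ j, ‖T.ι (v j * z)‖ ^ 2 ≤ C * ‖T.ι z‖ ^ 2 := fun z =>
    (hd1' z).trans (mul_le_mul_of_nonneg_right (le_max_left _ _) (sq_nonneg _))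
  have hd2 : ∀ z : A, ∑ j, ‖T.ι (z * v j)‖ ^ 2 ≤ C * ‖T.ι z‖ ^ 2 := fun z =>
    (hd2' z).trans (mul_le_mul_of_nonneg_right (le_max_left _ _) (sq_nonneg _))
  set M : ℝ := ∑ j, ‖T.ι (v j)‖ ^ 2 with hM
  have hM0 : 0 < M := by linarith
  have hMC : M ≤ C := by
    have h1 := hd1 1
    simp only [mul_one, T.norm_one, one_pow] at h1
    exact h1
  have hev : ∀ j, e1 * v j = v j := fun j => by
    rw [hvx, mul_assoc b1', ← mul_assoc e1, heb1]
  have hve : ∀ j, v j * e2 = v j := fun j => by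
    rw [hvx, mul_assoc _ b2', hbe2]
  have hv1 : ∀ j, star (v j) * e1 = star (v j) := fun j => by
    have h1 := congrArg star (hev j)
    rwa [star_mul, hes1] at h1
  obtain ⟨r, hr0, hrs, hr, hre⟩ := exists_root_family v
  have hr2 : r * e2 = r := hre e2 hes2 hve
  have hrn : ∀ g : G, ∑ j, ‖T.ι (S.α g (v j) - v j)‖ ^ 2 ≤ κ1 →
      ‖T.ι (S.α g r - r)‖ ^ 2 ≤ κ / 4 := by
    intro g hg
    refine (S.root_near v hr0 hr g).trans ?_
    have h1 : Real.sqrt (∑ j, ‖T.ι (S.α g (v j) - v j)‖ ^ 2) * Real.sqrt M ≤ κ / 8 := by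
      have h2 : Real.sqrt (∑ j, ‖T.ι (S.α g (v j) - v j)‖ ^ 2) ≤ κ / 8 / Real.sqrt C := by
        refine (Real.sqrt_le_sqrt (hg.trans (min_le_right _ _))).trans (le_of_eq ?_)
        rw [Real.sqrt_div (by positivity), Real.sqrt_sq (by positivity)]
      have h3 : Real.sqrt M ≤ Real.sqrt C := Real.sqrt_le_sqrt hMC
      have h4 : 0 < Real.sqrt C := Real.sqrt_pos.2 hCpos
      calc _ ≤ κ / 8 / Real.sqrt C * Real.sqrt C := mul_le_mul h2 h3 (Real.sqrt_nonneg _)
            (by positivity)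
        _ = κ / 8 := by field_simp
    linarith
  -- the neighbourhood
  have hcont : Continuous fun g => ∑ j, ‖T.ι (S.α g (v j) - v j)‖ ^ 2 := by
    refine continuous_finsetSum _ fun j _ => ?_
    simp only [map_sub]
    exact ((S.cont (v j)).sub continuous_const).norm.pow 2
  have hV' : V0 ∩ {g | ∑ j, ‖T.ι (S.α g (v j) - v j)‖ ^ 2 < κ1} ∈ 𝓝 (1 : G) := by
    refine Filter.inter_mem hV0 ((isOpen_lt hcont continuous_const).mem_nhds ?_)
    change ∑ j, ‖T.ι (S.α 1 (v j) - v j)‖ ^ 2 < κ1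
    simp only [S.one, sub_self, map_zero, norm_zero]
    simpa using hκ10
  obtain ⟨L, _, h, g, hh1, hh2, hh3, hh3', hh4, hh5, hh6⟩ := exists_part N hN hCFc hV'
  have hκ1' : κ1 ≤ κ / 4 := min_le_left _ _
  have hκM : κ ≤ M / 256 := by
    rw [hκ]
    linarith
  have hdec : ∀ l, ∀ s ∈ CF, h l s ≠ 0 → ∃ v' ∈ V0, ∃ n ∈ D', s = g l * v' * n ∧
      ∑ j, ‖T.ι (S.α v' (v j) - v j)‖ ^ 2 ≤ κ1 ∧ ∑ j, ‖T.ι (S.α n (v j) - v j)‖ ^ 2 ≤ κ1 := by
    intro l s hs hl
    obtain ⟨v', ⟨hv'0, hv'1⟩, n, hn, hsn⟩ := hh6 l s hl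
    have hnD : n ∈ D' := by
      refine ⟨hn, v'⁻¹, Set.inv_mem_inv.2 hv'0, (g l)⁻¹ * s, ⟨(g l)⁻¹, Set.inv_mem_inv.2 (hh5 l), s,
        hs, rfl⟩, ?_⟩
      simp only [smul_eq_mul]
      rw [hsn]
      group
    exact ⟨v', hv'0, n, hnD, hsn, le_of_lt hv'1, hvD n hnD⟩
  obtain ⟨R, _, a, ha1, ha2, ha3, ha4, ha5⟩ := S.rel_step μ hcomb hFi hF0 hF1 hCFc hFC v r hr0 hrs hr
    hCpos hd1 hd2 he1 he2 hes1 hes2 hv1 hr2 hM0 rfl h g hh1 hh2
    (fun l s => abs_le.2 ⟨by linarith [hh3 l s], hh3' l s⟩) hh4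
    (fun l s hs hl => by
      obtain ⟨v', -, n, -, hsn, h1, h2⟩ := hdec l s hs hl
      rw [hsn]
      exact (S.rel_displ v (g l) v' n hκ0.le (h1.trans hκ1') (h2.trans hκ1')).trans hκM)
    (fun l s hs hl => by
      obtain ⟨v', -, n, -, hsn, h1, h2⟩ := hdec l s hs hl
      rw [hsn]
      have h3 := S.rel_displ (fun _ : Unit => r) (g l) v' n hκ0.le (by simpa using hrn v' h1)
        (by simpa using hrn n h2)
      simp only [Finset.univ_unique, Finset.sum_const, Finset.card_singleton, one_smul] at h3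
      exact h3.trans hκM)
  refine ⟨R, inferInstance, a, fun i => s1 * a i * s2, fun i => ?_, ?_, fun s hs => ?_, ha4, ha5⟩
  · have h1 := ha1 i
    rw [hes1', hes2'] at h1
    calc a i = b1 * s1 * a i * (s2 * b2) := h1.symm
      _ = b1 * (s1 * a i * s2) * b2 := by noncomm_ring
  · exact le_trans (by linarith) ha2
  · refine (ha3 s).trans ?_
    have h1 := hFR s hs
    have h2 : 2 * M * ∫ t, |F (s⁻¹ * t) - F t| ∂μ ≤ 2 * M * (κout / (2 * C)) :=
      mul_le_mul_of_nonneg_left h1 (by positivity)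
    refine h2.trans ?_
    have h3 : 2 * M * (κout / (2 * C)) ≤ 2 * C * (κout / (2 * C)) :=
      mul_le_mul_of_nonneg_right (by linarith) (by positivity)
    refine h3.trans (le_of_eq ?_)
    field_simp

end Pool.Agent.AbCoc
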