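import Pool.Agent.Lib_MP_418a80_nm.EP4a
import Pool.Agent.Lib_MP_418a80_nm.EP4e
import Pool.Agent.Lib_MP_418a80_nm.EP5
import Pool.Agent.Lib_MP_418a80_nm.EP6
import Pool.Agent.Lib_MP_418a80_nm.RelC7
import Pool.Agent.Lib_MP_418a80_nm.Comb4

/-!
# Diagonal corners, part 7: `StepADom` from a closed normal subgroup
-/

set_option autoImplicit false
set_option linter.unusedVariables false
set_option linter.unusedSectionVars false

open Topology Filter MeasureTheory

namespace Pool.Agent.AbCoc

universe u v w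

variable {A : Type u} [CStarAlgebra A] [PartialOrder A] [StarOrderedRing A]
  {K : Type v} [NormedAddCommGroup K] [InnerProductSpace ℂ K] [CompleteSpace K]
variable {G : Type w} [Group G] [TopologicalSpace G] {T : TrAlg A K} (S : TrAct G T)
variable [IsTopologicalGroup G] [SecondCountableTopology G] [MeasurableSpace G] [BorelSpace G]
  [LocallyCompactSpace G] [T2Space G] [NoncompactSpace G] (μ : Measure G) [μ.IsHaarMeasure]

/-- the relative theorem -/
theorem TrAct.stepADom_of_nearOn_ep (hR : Reiter μ) (N : Subgroup G) [N.Normal]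
    (hN : IsClosed (N : Set G)) (hcomb : S.Comb (N : Set G)) (hnear : S.NearOn (N : Set G))
    (hcase : IsCompact (N : Set G) ∨ S.MoveOn (N : Set G)) : S.StepADom := by
  refine S.stepADom_of_diag (S.nearOn_univ_of_nearOn μ hR N hN hcomb hnear) fun b hb hbs hb0 => ?_
  rcases hcase with hc | hmove
  · refine S.domAt_sep μ hR hcomb (fun C hC => ?_) hb hbs hb0
    obtain ⟨g, h, h1, h2, h3, h4, h5, h6⟩ := exists_sep_fun hc hC
    exact ⟨g, h, h1, fun s n hn => h2 s n hn, h4, h5, h6⟩
  · exact S.domAt_move μ hR N hN hcomb hmove hb hbs hb0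

/-- the relative theorem, in terms of twists -/
theorem TrAct.stepADom_of_not_hasTwist_ep
    (hfac : ∀ x : A, (∀ y, x * y = y * x) → ∃ c : ℂ, x = c • (1 : A)) (hR : Reiter μ)
    (N : Subgroup G) [N.Normal] (hN : IsClosed (N : Set G))
    (htw : ∀ g, g ∉ N → ¬ S.HasTwist g) (hnear : S.NearOn (N : Set G))
    (hcase : IsCompact (N : Set G) ∨ S.MoveOn (N : Set G)) : S.StepADom :=
  S.stepADom_of_nearOn_ep μ hR N hN (S.comb_of_not_hasTwist μ hfac N htw) hnear hcase

end Pool.Agent.AbCoc
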