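import Pool.Agent.Lib_MP_418a80_hyp.AmpAct
import Pool.Agent.Lib_MP_418a80_hyp.Supp
import Pool.Agent.Lib_MP_418a80_ab.StepC5

/-!
# Step A passes to matrices
-/

set_option autoImplicit false
set_option linter.unusedVariables false
set_option linter.unusedSectionVars false

open Topology Filter MeasureTheory

namespace Pool.Agent.AbCoc

universe u v w

section gen
variable {A : Type u} [CStarAlgebra A]
  {K : Type v} [NormedAddCommGroup K] [InnerProductSpace ℂ K] (T : TrAlg A K)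

theorem TrAlg.sum_left_eq {J : Type*} [Fintype J] (f : J → A) (b : A)
    (h : star b * b = ∑ i, star (f i) * f i) (w : A) :
    ∑ i, ‖T.ι (f i * w)‖ ^ 2 = ‖T.ι (b * w)‖ ^ 2 := by
  have h1 : ∀ i, ‖T.ι (f i * w)‖ ^ 2 = (T.τ (star w * (star (f i) * f i) * w)).re := by
    intro i
    rw [T.norm_sq, star_mul]
    congr 2
    noncomm_ring
  have h2 : ‖T.ι (b * w)‖ ^ 2 = (T.τ (star w * (star b * b) * w)).re := by
    rw [T.norm_sq, star_mul]
    congr 2
    noncomm_ring
  rw [h2, h, Finset.sum_congr rfl fun i _ => h1 i, Finset.mul_sum, Finset.sum_mul,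
    ← Complex.re_sum]
  congr 1
  unfold TrAlg.τ
  rw [map_sum, inner_sum]

theorem TrAlg.sum_right_eq {J : Type*} [Fintype J] (f : J → A) (b : A)
    (h : b * star b = ∑ i, f i * star (f i)) (w : A) :
    ∑ i, ‖T.ι (w * f i)‖ ^ 2 = ‖T.ι (w * b)‖ ^ 2 := by
  have h1 := T.sum_left_eq (fun i => star (f i)) (star b) (by
    rw [star_star, h]
    exact Finset.sum_congr rfl fun i _ => by rw [star_star]) (star w)
  rw [← star_mul, T.norm_star] at h1
  rw [← h1]
  refine Finset.sum_congr rfl fun i _ => ?_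
  rw [← star_mul, T.norm_star]

variable [PartialOrder A] [StarOrderedRing A]

theorem exists_sqrt_fixed {K : Type v} [NormedAddCommGroup K] [InnerProductSpace ℂ K]
    [CompleteSpace K] {G : Type w} [Group G] [TopologicalSpace G] {T : TrAlg A K} (S : TrAct G T)
    {r : A} (hr : 0 ≤ r) (hf : S.Fixed r) :
    ∃ b, S.Fixed b ∧ star b = b ∧ b * b = r := by
  have hsa : IsSelfAdjoint r := IsSelfAdjoint.of_nonneg hr
  refine ⟨cfc Real.sqrt r, S.fixed_cfc hsa hf Real.continuous_sqrt, ?_, ?_⟩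
  · have h : IsSelfAdjoint (cfc Real.sqrt r) := cfc_predicate _ _
    exact h.star_eq
  · rw [← cfc_mul (fun t : ℝ => Real.sqrt t) (fun t : ℝ => Real.sqrt t) r
      Real.continuous_sqrt.continuousOn Real.continuous_sqrt.continuousOn]
    conv_rhs => rw [← cfc_id' ℝ r]
    refine cfc_congr fun t ht => ?_
    exact Real.mul_self_sqrt (spectrum_nonneg_of_nonneg hr ht)

/-- one entry -/
noncomputable def ent (n : ℕ) (j k : Fin n) (y : A) : Mat n A :=
  CStarMatrix.ofMatrix fun i l => if i = j then (if l = k then y else 0) else 0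

theorem ent_apply (n : ℕ) (j k : Fin n) (y : A) (i l : Fin n) :
    ent n j k y i l = if i = j then (if l = k then y else 0) else 0 := rfl

theorem mul_ent_mul (n : ℕ) (B1 B2 : Mat n A) (j k : Fin n) (y : A) (i l : Fin n) :
    (B1 * ent n j k y * B2) i l = B1 i j * y * B2 k l := by
  rw [CStarMatrix.mul_apply, Finset.sum_eq_single k]
  · congr 1
    rw [CStarMatrix.mul_apply, Finset.sum_eq_single j]
    · rw [ent_apply, if_pos rfl, if_pos rfl]
    · intro m _ hm
      rw [ent_apply, if_neg hm, mul_zero]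
    · intro h; exact absurd (Finset.mem_univ j) h
  · intro m _ hm
    have : (B1 * ent n j k y) i m = 0 := by
      rw [CStarMatrix.mul_apply]
      refine Finset.sum_eq_zero fun p _ => ?_
      rw [ent_apply, if_neg hm]
      split_ifs <;> rw [mul_zero]
    rw [this, zero_mul]
  · intro h; exact absurd (Finset.mem_univ k) h

end gen

section act
variable {A : Type u} [CStarAlgebra A] [PartialOrder A] [StarOrderedRing A]
  {K : Type v} [NormedAddCommGroup K] [InnerProductSpace ℂ K] [CompleteSpace K]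
variable {G : Type w} [CommGroup G] [TopologicalSpace G] [IsTopologicalGroup G] [T2Space G]
  [SecondCountableTopology G] [MeasurableSpace G] [BorelSpace G] {T : TrAlg A K} (S : TrAct G T)

theorem exists_ne_zero_entry {n : ℕ} {B : Mat n A} (hB : B ≠ 0) : ∃ i j, B i j ≠ 0 := by
  by_contra h
  push Not at h
  exact hB (by ext i j; exact h i j)

theorem star_mul_self_sum_ne {J : Type*} [Fintype J] (f : J → A) {i : J} (hi : f i ≠ 0) :
    (∑ i, star (f i) * f i) ≠ 0 := by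
  intro h
  have h1 := (Finset.sum_eq_zero_iff_of_nonneg (fun i _ => star_mul_self_nonneg (f i))).1 h i
    (Finset.mem_univ i)
  exact hi (CStarRing.star_mul_self_eq_zero_iff _ |>.1 h1)

/-- **Step A for matrices** -/
theorem TrAct.stepA_amp (n : ℕ) [NeZero n] (h : S.StepA) : (S.amp n).StepA := by
  classical
  intro m hm hC B1 B2 hB1 hB2 hB10 hB20 ε0 hε0
  rw [S.amp_fixed_iff] at hB1 hB2
  obtain ⟨i0, j0, hij⟩ := exists_ne_zero_entry hB10
  obtain ⟨k0, l0, hkl⟩ := exists_ne_zero_entry hB20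
  have hr1 : 0 ≤ ∑ i, star (B1 i j0) * B1 i j0 := Finset.sum_nonneg fun i _ => star_mul_self_nonneg _
  have hr2 : 0 ≤ ∑ l, star (star (B2 k0 l)) * star (B2 k0 l) :=
    Finset.sum_nonneg fun i _ => star_mul_self_nonneg _
  have hs1 : ∀ s : Finset (Fin n), S.Fixed (∑ i ∈ s, star (B1 i j0) * B1 i j0) := by
    intro s g
    rw [map_sum]
    exact Finset.sum_congr rfl fun i _ => by rw [map_mul, map_star, hB1 i j0 g]
  have hs2 : ∀ s : Finset (Fin n), S.Fixed (∑ l ∈ s, star (star (B2 k0 l)) * star (B2 k0 l)) := by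
    intro s g
    rw [map_sum]
    exact Finset.sum_congr rfl fun i _ => by rw [map_mul, map_star, map_star, hB2 k0 i g]
  obtain ⟨b1, hb1, hb1s, hb1m⟩ := exists_sqrt_fixed S hr1 (hs1 Finset.univ)
  obtain ⟨b2, hb2, hb2s, hb2m⟩ := exists_sqrt_fixed S hr2 (hs2 Finset.univ)
  have hb10 : b1 ≠ 0 := by
    rintro rfl
    rw [mul_zero] at hb1m
    exact star_mul_self_sum_ne (fun i => B1 i j0) hij hb1m.symm
  have hb20 : b2 ≠ 0 := by
    rintro rfl
    rw [mul_zero] at hb2m
    exact star_mul_self_sum_ne (fun l => star (B2 k0 l)) (i := l0)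
      (by rw [Ne, star_eq_zero]; exact hkl) hb2m.symm
  obtain ⟨a, x, hax, ha0, haE, hint⟩ := h m hC b1 b2 hb1 hb2 hb10 hb20 ε0 hε0
  -- the norm identity
  have hnorm : ∀ y : A, ‖(T.amp n).ι (B1 * ent n j0 k0 y * B2)‖ ^ 2 =
      (n : ℝ)⁻¹ * ‖T.ι (b1 * y * b2)‖ ^ 2 := by
    intro y
    rw [T.amp_norm_sq]
    congr 1
    have h1 : ∀ l, ∑ i, ‖T.ι (B1 i j0 * (y * B2 k0 l))‖ ^ 2 = ‖T.ι (b1 * (y * B2 k0 l))‖ ^ 2 :=
      fun l => T.sum_left_eq (fun i => B1 i j0) b1 (by rw [hb1s, hb1m]) _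
    have h2 : ∑ l, ‖T.ι (b1 * y * B2 k0 l)‖ ^ 2 = ‖T.ι (b1 * y * b2)‖ ^ 2 :=
      T.sum_right_eq (fun l => B2 k0 l) b2 (by
        rw [hb2s, hb2m]
        exact Finset.sum_congr rfl fun l _ => by rw [star_star]) _
    rw [Finset.sum_comm, ← h2]
    refine Finset.sum_congr rfl fun l _ => ?_
    rw [mul_assoc b1, ← h1 l]
    refine Finset.sum_congr rfl fun i _ => ?_
    rw [mul_ent_mul, mul_assoc]
  have hn : (0 : ℝ) < (n : ℝ)⁻¹ := inv_pos.2 (Nat.cast_pos.2 (NeZero.pos n))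
  have hna : ‖(T.amp n).ι (B1 * ent n j0 k0 x * B2)‖ ^ 2 = (n : ℝ)⁻¹ * ‖T.ι a‖ ^ 2 := by
    rw [hnorm, hax]
  refine ⟨B1 * ent n j0 k0 x * B2, ent n j0 k0 x, rfl, ?_, ?_, ?_⟩
  · intro h0
    rw [h0, map_zero, norm_zero, zero_pow two_ne_zero] at hna
    have h1 : ‖T.ι a‖ ^ 2 = 0 := (mul_eq_zero.1 hna.symm).resolve_left hn.ne'
    have h2 : T.ι a = T.ι 0 := by
      rw [map_zero]
      exact norm_eq_zero.1 (pow_eq_zero_iff two_ne_zero |>.1 h1)
    exact ha0 (T.inj h2)
  · ext i l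
    rw [S.amp_E_apply, mul_ent_mul, S.E_mul_right (hB2 k0 l), S.E_mul_left (hB1 i j0)]
    -- `E x` is killed
    have h1 := hnorm (S.E x)
    have h2 : b1 * S.E x * b2 = 0 := by
      rw [← S.E_mul_left hb1, ← S.E_mul_right hb2, ← hax, haE]
    rw [h2, map_zero, norm_zero] at h1
    have h3 : (T.amp n).ι (B1 * ent n j0 k0 (S.E x) * B2) = (T.amp n).ι 0 := by
      rw [map_zero]
      exact norm_eq_zero.1 (pow_eq_zero_iff two_ne_zero |>.1 (by simpa using h1))
    have h4 := (T.amp n).inj h3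
    have h5 := congrFun (congrFun h4 i) l
    rw [mul_ent_mul] at h5
    exact h5
  · have h6 : ∀ s, ‖(T.amp n).ι ((S.amp n).α s (B1 * ent n j0 k0 x * B2)) -
        (T.amp n).ι (B1 * ent n j0 k0 x * B2)‖ ^ 2 = (n : ℝ)⁻¹ * ‖T.ι (S.α s a) - T.ι a‖ ^ 2 := by
      intro s
      have h7 : (S.amp n).α s (B1 * ent n j0 k0 x * B2) - B1 * ent n j0 k0 x * B2 =
          B1 * ent n j0 k0 (S.α s x - x) * B2 := by
        ext i l
        have h8 : ((S.amp n).α s (B1 * ent n j0 k0 x * B2) - B1 * ent n j0 k0 x * B2) i l =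
            S.α s ((B1 * ent n j0 k0 x * B2) i l) - (B1 * ent n j0 k0 x * B2) i l := rfl
        rw [h8, mul_ent_mul, mul_ent_mul, map_mul, map_mul, hB1 i j0 s, hB2 k0 l s]
        noncomm_ring
      rw [← map_sub, h7, hnorm, ← map_sub]
      congr 4
      rw [hax, map_mul, map_mul, hb1 s, hb2 s]
      noncomm_ring
    simp only [h6]
    rw [integral_const_mul, hna]
    calc (n : ℝ)⁻¹ * ∫ s, ‖T.ι (S.α s a) - T.ι a‖ ^ 2 ∂m < (n : ℝ)⁻¹ * (ε0 * ‖T.ι a‖ ^ 2) :=
          mul_lt_mul_of_pos_left hint hn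
      _ = _ := by ring

end act

end Pool.Agent.AbCoc
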