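import Pool.Agent.Lib_MP_418a80_nm.NTilde
import Pool.Agent.Lib_MP_418a80_hyp.Comm4

/-!
# Restriction along a homomorphism `j : N → G`: fields and their relations
-/

set_option autoImplicit false
set_option linter.unusedSectionVars false

open MeasureTheory Topology Filter
open scoped ENNReal

namespace Pool.Agent.AbCoc

universe u v w x z

variable {G : Type u} [Group G] [TopologicalSpace G] [IsTopologicalGroup G]
  [SecondCountableTopology G] [LocallyCompactSpace G] [MeasurableSpace G] [BorelSpace G]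
  (μ : Measure G) [μ.IsHaarMeasure]
variable {N : Type z} [Group N] [TopologicalSpace N] [IsTopologicalGroup N]
  [SecondCountableTopology N] [LocallyCompactSpace N] [MeasurableSpace N] [BorelSpace N]
  (ν : Measure N) [ν.IsHaarMeasure]
variable {H : Type v} [NormedAddCommGroup H] [InnerProductSpace ℂ H] [CompleteSpace H]
  {H' : Type w} [NormedAddCommGroup H'] [InnerProductSpace ℂ H']
  (W : URep G H) (j : N →* G) (hj : Continuous j)

/-- restriction of a representation -/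
noncomputable def URep.cm (W : URep G H) (j : N →* G) (hj : Continuous j) : URep N H where
  U := fun n => W.U (j n)
  one := by rw [map_one, W.one]
  mul := fun s t => by rw [map_mul, W.mul]
  inner_map := fun s => W.inner_map (j s)
  cont := fun ξ => (W.cont ξ).comp hj

theorem URep.cm_U (n : N) : (W.cm j hj).U n = W.U (j n) := rfl

/-- restriction of a field -/
noncomputable def Field.cm (Φ : Field G H H') (j : N →* G) (hj : Continuous j) : Field N H H' where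
  F := fun n => Φ.F (j n)
  C := Φ.C
  bound := fun n => Φ.bound (j n)
  cont := Φ.cont.comp ((hj.comp continuous_fst).prodMk continuous_snd)

theorem Field.cm_F (Φ : Field G H H') (n : N) : (Φ.cm j hj).F n = Φ.F (j n) := rfl

/-- `t ↦ 𝕌 λ_{t⁻¹}` on `L²(G; H)`, `t ∈ N` -/
noncomputable def vFn : Field N (Lp H 2 μ) (Lp H 2 μ) := (vF μ W).cm j hj

/-- `t ↦ λ_t 𝕌*` on `L²(G; H)`, `t ∈ N` -/
noncomputable def vFni : Field N (Lp H 2 μ) (Lp H 2 μ) := (vFi μ W).cm j hj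

theorem vFn_apply (t : N) (ζ : Lp H 2 μ) :
    (vFn μ W j hj).F t ζ = (uF W).op μ ((lam μ H).U (j t)⁻¹ ζ) := rfl

theorem vFni_apply (t : N) (ζ : Lp H 2 μ) :
    (vFni μ W j hj).F t ζ = (lam μ H).U (j t) ((uFi W).op μ ζ) := rfl

theorem vFn_adj (Y Z : Lp (Lp H 2 μ) 2 ν) :
    inner ℂ ((vFn μ W j hj).op ν Y) Z = inner ℂ Y ((vFni μ W j hj).op ν Z) := by
  refine (vFn μ W j hj).op_inner ν (vFni μ W j hj) (fun t ξ η => ?_) Y Z
  rw [vFn_apply, vFni_apply, uF_adj, (lam μ H).adj, inv_inv]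

theorem vFn_vFni (Z : Lp (Lp H 2 μ) 2 ν) :
    (vFn μ W j hj).op ν ((vFni μ W j hj).op ν Z) = Z := by
  apply Lp.ext
  filter_upwards [(vFn μ W j hj).op_ae ν ((vFni μ W j hj).op ν Z),
    (vFni μ W j hj).op_ae ν Z] with t h1 h2
  rw [h1, h2, vFn_apply, vFni_apply, (lam μ H).inv_apply, uF_uFi]

theorem vFni_vFn (Z : Lp (Lp H 2 μ) 2 ν) :
    (vFni μ W j hj).op ν ((vFn μ W j hj).op ν Z) = Z := by
  apply Lp.ext
  filter_upwards [(vFni μ W j hj).op_ae ν ((vFn μ W j hj).op ν Z),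
    (vFn μ W j hj).op_ae ν Z] with t h1 h2
  rw [h1, h2, vFni_apply, vFn_apply, uFi_uF, (lam μ H).apply_inv]

theorem vFni_tilden_pi (b : H →L[ℂ] H) (Z : Lp (Lp H 2 μ) 2 ν) :
    (vFni μ W j hj).op ν (tilden μ ν ((piW (W.cm j hj) b).op ν) Z) =
      oneT ν ((piW W b).op μ) ((vFni μ W j hj).op ν Z) := by
  have key : (((vFni μ W j hj).op ν).comp (tilden μ ν ((piW (W.cm j hj) b).op ν))) =
      (oneT ν ((piW W b).op μ)).comp ((vFni μ W j hj).op ν) := by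
    refine ext_Jn μ ν fun φ ζ => ?_
    change (vFni μ W j hj).op ν (tilden μ ν ((piW (W.cm j hj) b).op ν) (Jn μ ν φ ζ)) =
      oneT ν ((piW W b).op μ) ((vFni μ W j hj).op ν (Jn μ ν φ ζ))
    rw [tilden_Jn]
    apply Lp.ext
    filter_upwards [(vFni μ W j hj).op_ae ν (Jn μ ν φ ((piW (W.cm j hj) b).op ν ζ)),
      Jn_ae μ ν φ ((piW (W.cm j hj) b).op ν ζ), (piW (W.cm j hj) b).op_ae ν ζ,
      oneT_ae ν ((piW W b).op μ) ((vFni μ W j hj).op ν (Jn μ ν φ ζ)),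
      (vFni μ W j hj).op_ae ν (Jn μ ν φ ζ), Jn_ae μ ν φ ζ] with t h1 h2 h3 h4 h5 h6
    rw [h1, h2, h3, h4, h5, h6, vFni_apply, vFni_apply, piW_apply, URep.cm_U, URep.cm_U, map_inv]
    obtain ⟨t', ht'⟩ : ∃ t', t' = j t := ⟨_, rfl⟩
    rw [← ht']
    set η : H := ζ t
    apply Lp.ext
    filter_upwards [lam_ae μ t' ((uFi W).op μ (tens μ (W.U t'⁻¹ (b (W.U t' η))) φ)),
      ae_translate μ t'⁻¹ ((uFi W).op_ae μ (tens μ (W.U t'⁻¹ (b (W.U t' η))) φ)),
      ae_translate μ t'⁻¹ (tens_ae μ (W.U t'⁻¹ (b (W.U t' η))) φ),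
      (piW W b).op_ae μ ((lam μ H).U t' ((uFi W).op μ (tens μ η φ))),
      lam_ae μ t' ((uFi W).op μ (tens μ η φ)),
      ae_translate μ t'⁻¹ ((uFi W).op_ae μ (tens μ η φ)),
      ae_translate μ t'⁻¹ (tens_ae μ η φ)] with g k1 k2 k3 k4 k5 k6 k7
    rw [k1, k2, k3, k4, k5, k6, k7, piW_apply]
    change W.U (t'⁻¹ * g)⁻¹ _ = W.U g⁻¹ (b (W.U g (W.U (t'⁻¹ * g)⁻¹ _)))
    rw [map_smul, map_smul, map_smul, map_smul, map_smul, ← W.mul_apply, ← W.mul_apply,
      mul_inv_rev, inv_inv, mul_inv_cancel_right, mul_inv_cancel_left]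
  exact congrArg (fun L : Lp (Lp H 2 μ) 2 ν →L[ℂ] Lp (Lp H 2 μ) 2 ν => L Z) key

theorem tilden_pi_vFn (b : H →L[ℂ] H) (Z : Lp (Lp H 2 μ) 2 ν) :
    tilden μ ν ((piW (W.cm j hj) b).op ν) ((vFn μ W j hj).op ν Z) =
      (vFn μ W j hj).op ν (oneT ν ((piW W b).op μ) Z) := by
  have h1 := vFni_tilden_pi μ ν W j hj b ((vFn μ W j hj).op ν Z)
  rw [vFni_vFn] at h1
  rw [← h1, vFn_vFni]

/-- `t ↦ U_t c U_{t⁻¹}` -/
noncomputable def conW (c : H →L[ℂ] H) : Field G H H :=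
  (uF W).comp ((constField G c).comp (uFi W))

theorem conW_apply (c : H →L[ℂ] H) (t : G) (ξ : H) :
    (conW W c).F t ξ = W.U t (c (W.U t⁻¹ ξ)) := rfl

/-- `V (1 ⊗ c) = (U c U*) V` -/
theorem vFn_oneT (c : H →L[ℂ] H) (Z : Lp (Lp H 2 μ) 2 ν) :
    (vFn μ W j hj).op ν (oneT ν (oneT μ c) Z) =
      oneT ν ((conW W c).op μ) ((vFn μ W j hj).op ν Z) := by
  apply Lp.ext
  filter_upwards [(vFn μ W j hj).op_ae ν (oneT ν (oneT μ c) Z), oneT_ae ν (oneT μ c) Z,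
    oneT_ae ν ((conW W c).op μ) ((vFn μ W j hj).op ν Z), (vFn μ W j hj).op_ae ν Z]
    with t h1 h2 h3 h4
  rw [h1, h2, h3, h4, vFn_apply, vFn_apply, ← oneT_lam]
  apply Lp.ext
  obtain ⟨Y, hY⟩ : ∃ Y, Y = (lam μ H).U (j t)⁻¹ (Z t) := ⟨_, rfl⟩
  rw [← hY]
  filter_upwards [(uF W).op_ae μ (oneT μ c Y), oneT_ae μ c Y,
    (conW W c).op_ae μ ((uF W).op μ Y), (uF W).op_ae μ Y] with g k1 k2 k3 k4
  rw [k1, k2, k3, k4, conW_apply]
  change W.U g (c (Y g)) = W.U g (c (W.U g⁻¹ (W.U g (Y g))))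
  rw [W.inv_apply]

/-- the adjoint of `tensL ψ` intertwines `1 ⊗ S` and `S` -/
theorem tensL_adjoint_oneT (ψ : Lp ℂ 2 μ) (S : H →L[ℂ] H) (ζ : Lp H 2 μ) :
    (tensL μ H ψ).adjoint (oneT μ S ζ) = S ((tensL μ H ψ).adjoint ζ) := by
  refine ext_inner_right ℂ fun w => ?_
  rw [ContinuousLinearMap.adjoint_inner_left, tensL_apply,
    ← ContinuousLinearMap.adjoint_inner_right S, ContinuousLinearMap.adjoint_inner_left,
    tensL_apply, ← ContinuousLinearMap.star_eq_adjoint, ← oneT_tensW, oneT_starW,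
    ContinuousLinearMap.star_eq_adjoint, ContinuousLinearMap.adjoint_inner_right]

end Pool.Agent.AbCoc
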