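import Pool.Agent.Lib_MP_418a80_nm.NComm1

/-!
# Restriction to `N`: operators commuting with `π(A)` and with `1 ⊗ A'` commute with the fields
which extend to `G`
-/

set_option autoImplicit false
set_option linter.unusedSectionVars false

open MeasureTheory Topology Filter
open scoped ENNReal

namespace Pool.Agent.AbCoc

universe u v w x z

section ops
variable {G : Type u} [Group G] [TopologicalSpace G] [IsTopologicalGroup G]
  [SecondCountableTopology G] [LocallyCompactSpace G] [MeasurableSpace G] [BorelSpace G]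
  (μ : Measure G) [μ.IsHaarMeasure]
variable {N : Type z} [Group N] [TopologicalSpace N] [IsTopologicalGroup N]
  [SecondCountableTopology N] [LocallyCompactSpace N] [MeasurableSpace N] [BorelSpace N]
  (ν : Measure N) [ν.IsHaarMeasure]
variable {H : Type v} [NormedAddCommGroup H] [InnerProductSpace ℂ H] [CompleteSpace H]
  (W : URep G H) (j : N →* G) (hj : Continuous j)

/-- `V* Q̃ V` -/
noncomputable def conjn (Q : Lp H 2 ν →L[ℂ] Lp H 2 ν) :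
    Lp (Lp H 2 μ) 2 ν →L[ℂ] Lp (Lp H 2 μ) 2 ν :=
  ((vFni μ W j hj).op ν).comp ((tilden μ ν Q).comp ((vFn μ W j hj).op ν))

/-- `V (1 ⊗ S) V*` -/
noncomputable def hatn (S : Lp H 2 μ →L[ℂ] Lp H 2 μ) :
    Lp (Lp H 2 μ) 2 ν →L[ℂ] Lp (Lp H 2 μ) 2 ν :=
  ((vFn μ W j hj).op ν).comp ((oneT ν S).comp ((vFni μ W j hj).op ν))

theorem tilden_hatn_of_conjn (Q : Lp H 2 ν →L[ℂ] Lp H 2 ν) (S : Lp H 2 μ →L[ℂ] Lp H 2 μ)
    (h : oneT ν S * conjn μ ν W j hj Q = conjn μ ν W j hj Q * oneT ν S) :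
    tilden μ ν Q * hatn μ ν W j hj S = hatn μ ν W j hj S * tilden μ ν Q := by
  ext1 Z
  have hZ : Z = (vFn μ W j hj).op ν ((vFni μ W j hj).op ν Z) := (vFn_vFni μ ν W j hj Z).symm
  obtain ⟨Y, hY⟩ : ∃ Y, Y = (vFni μ W j hj).op ν Z := ⟨_, rfl⟩
  rw [← hY] at hZ
  rw [hZ]
  have h1 := congrArg (fun L : Lp (Lp H 2 μ) 2 ν →L[ℂ] Lp (Lp H 2 μ) 2 ν =>
    (vFn μ W j hj).op ν (L Y)) h
  change (vFn μ W j hj).op ν (oneT ν S ((vFni μ W j hj).op ν (tilden μ ν Q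
      ((vFn μ W j hj).op ν Y)))) =
    (vFn μ W j hj).op ν ((vFni μ W j hj).op ν (tilden μ ν Q
      ((vFn μ W j hj).op ν (oneT ν S Y)))) at h1
  rw [vFn_vFni] at h1
  change tilden μ ν Q ((vFn μ W j hj).op ν (oneT ν S ((vFni μ W j hj).op ν
      ((vFn μ W j hj).op ν Y)))) =
    (vFn μ W j hj).op ν (oneT ν S ((vFni μ W j hj).op ν (tilden μ ν Q
      ((vFn μ W j hj).op ν Y))))
  rw [vFni_vFn]
  exact h1.symm

theorem conjn_pi (Q : Lp H 2 ν →L[ℂ] Lp H 2 ν) (b : H →L[ℂ] H)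
    (hQ : Q * (piW (W.cm j hj) b).op ν = (piW (W.cm j hj) b).op ν * Q) :
    oneT ν ((piW W b).op μ) * conjn μ ν W j hj Q =
      conjn μ ν W j hj Q * oneT ν ((piW W b).op μ) := by
  ext1 Y
  change oneT ν ((piW W b).op μ) ((vFni μ W j hj).op ν (tilden μ ν Q
      ((vFn μ W j hj).op ν Y))) =
    (vFni μ W j hj).op ν (tilden μ ν Q ((vFn μ W j hj).op ν (oneT ν ((piW W b).op μ) Y)))
  have h1 : ∀ X : Lp (Lp H 2 μ) 2 ν, tilden μ ν ((piW (W.cm j hj) b).op ν) (tilden μ ν Q X) =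
      tilden μ ν Q (tilden μ ν ((piW (W.cm j hj) b).op ν) X) := by
    intro X
    have h2 : tilden μ ν ((piW (W.cm j hj) b).op ν) * tilden μ ν Q =
        tilden μ ν Q * tilden μ ν ((piW (W.cm j hj) b).op ν) := by
      rw [← tilden_mul, ← tilden_mul, hQ]
    exact congrArg (fun L : Lp (Lp H 2 μ) 2 ν →L[ℂ] Lp (Lp H 2 μ) 2 ν => L X) h2
  rw [← vFni_tilden_pi, ← tilden_pi_vFn, h1]

theorem conjn_oneT (Q : Lp H 2 ν →L[ℂ] Lp H 2 ν) (c : H →L[ℂ] H)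
    (hQ : tilden μ ν Q * oneT ν ((conW W c).op μ) = oneT ν ((conW W c).op μ) * tilden μ ν Q) :
    oneT ν (oneT μ c) * conjn μ ν W j hj Q = conjn μ ν W j hj Q * oneT ν (oneT μ c) := by
  ext1 Y
  change oneT ν (oneT μ c) ((vFni μ W j hj).op ν (tilden μ ν Q ((vFn μ W j hj).op ν Y))) =
    (vFni μ W j hj).op ν (tilden μ ν Q ((vFn μ W j hj).op ν (oneT ν (oneT μ c) Y)))
  have h1 : ∀ X : Lp (Lp H 2 μ) 2 ν, tilden μ ν Q (oneT ν ((conW W c).op μ) X) =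
      oneT ν ((conW W c).op μ) (tilden μ ν Q X) := fun X =>
    congrArg (fun L : Lp (Lp H 2 μ) 2 ν →L[ℂ] Lp (Lp H 2 μ) 2 ν => L X) hQ
  rw [vFn_oneT, h1]
  have h2 := vFn_oneT μ ν W j hj c ((vFni μ W j hj).op ν (tilden μ ν Q ((vFn μ W j hj).op ν Y)))
  rw [vFn_vFni] at h2
  rw [← h2, vFni_vFn]

/-- `Q̃` commutes with `1 ⊗ Φ` if `Q` commutes with the coefficients of `Φ` -/
theorem tilden_comm_oneT (Q : Lp H 2 ν →L[ℂ] Lp H 2 ν) (L : Lp H 2 μ →L[ℂ] Lp H 2 μ)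
    (h : ∀ φ ψ : Lp ℂ 2 μ, Q * oneT ν ((tensL μ H ψ).adjoint.comp (L.comp (tensL μ H φ))) =
      oneT ν ((tensL μ H ψ).adjoint.comp (L.comp (tensL μ H φ))) * Q) :
    tilden μ ν Q * oneT ν L = oneT ν L * tilden μ ν Q := by
  rw [commute_tilden_iff]
  intro φ ψ
  have h1 : (Jn (H := H) μ ν ψ).adjoint.comp ((oneT ν L).comp (Jn μ ν φ)) =
      oneT ν ((tensL μ H ψ).adjoint.comp (L.comp (tensL μ H φ))) := by
    ext1 ζ
    refine ext_inner_right ℂ fun ζ' => ?_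
    change inner ℂ ((Jn (H := H) μ ν ψ).adjoint (oneT ν L (Jn μ ν φ ζ))) ζ' = _
    rw [ContinuousLinearMap.adjoint_inner_left, L2.inner_def, L2.inner_def]
    refine integral_congr_ae ?_
    filter_upwards [oneT_ae ν L (Jn μ ν φ ζ), Jn_ae μ ν φ ζ, Jn_ae μ ν ψ ζ',
      oneT_ae ν ((tensL μ H ψ).adjoint.comp (L.comp (tensL μ H φ))) ζ] with t h1 h2 h3 h4
    rw [h1, h2, h3, h4]
    change _ = inner ℂ ((tensL μ H ψ).adjoint (L (tensL μ H φ (ζ t)))) (ζ' t)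
    rw [ContinuousLinearMap.adjoint_inner_left]
    rfl
  rw [h1]
  exact h φ ψ

theorem tendsto_compressn (Φ : Field G H H) (φ : ℕ → Lp ℂ 2 μ) (hφ : ∀ n, ‖φ n‖ = 1)
    (hφk : ∀ k : G → ℂ, Continuous k → (∃ C : ℝ, ∀ g, ‖k g‖ ≤ C) →
      Tendsto (fun n => ∫ g, ((‖(φ n : G → ℂ) g‖ ^ 2 : ℝ) : ℂ) * k g ∂μ) atTop (𝓝 (k 1)))
    (ζ ζ' : Lp H 2 ν) :
    Tendsto (fun n => inner ℂ (((Jn μ ν (φ n)).adjoint.comp ((hatn μ ν W j hj (Φ.op μ)).comp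
      (Jn μ ν (φ n)))) ζ) ζ') atTop (𝓝 (inner ℂ ((Φ.cm j hj).op ν ζ) ζ')) := by
  obtain ⟨Y, hY⟩ : ∃ Y : ℕ → Lp (Lp H 2 μ) 2 ν,
    ∀ n, Y n = (vFni μ W j hj).op ν (Jn μ ν (φ n) ζ) := ⟨_, fun _ => rfl⟩
  obtain ⟨Y', hY'⟩ : ∃ Y' : ℕ → Lp (Lp H 2 μ) 2 ν,
    ∀ n, Y' n = (vFni μ W j hj).op ν (Jn μ ν (φ n) ζ') := ⟨_, fun _ => rfl⟩
  have e1 : ∀ n, inner ℂ (((Jn μ ν (φ n)).adjoint.comp ((hatn μ ν W j hj (Φ.op μ)).comp
      (Jn μ ν (φ n)))) ζ) ζ' = ∫ t, inner ℂ (oneT ν (Φ.op μ) (Y n) t) (Y' n t) ∂ν := by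
    intro n
    change inner ℂ ((Jn μ ν (φ n)).adjoint (hatn μ ν W j hj (Φ.op μ) (Jn μ ν (φ n) ζ))) ζ' = _
    rw [ContinuousLinearMap.adjoint_inner_left]
    change inner ℂ ((vFn μ W j hj).op ν (oneT ν (Φ.op μ) ((vFni μ W j hj).op ν
      (Jn μ ν (φ n) ζ)))) (Jn μ ν (φ n) ζ') = _
    rw [vFn_adj, ← hY, ← hY', L2.inner_def]
  have e2 : ∀ n, ∀ᵐ t ∂ν, inner ℂ (oneT ν (Φ.op μ) (Y n) t) (Y' n t) =
      inner ℂ (Φ.op μ ((vFi μ W).F (j t) (tens μ (ζ t) (φ n))))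
        ((vFi μ W).F (j t) (tens μ (ζ' t) (φ n))) := by
    intro n
    filter_upwards [oneT_ae ν (Φ.op μ) (Y n), (vFni μ W j hj).op_ae ν (Jn μ ν (φ n) ζ),
      Jn_ae μ ν (φ n) ζ, (vFni μ W j hj).op_ae ν (Jn μ ν (φ n) ζ'), Jn_ae μ ν (φ n) ζ']
      with t k1 k2 k3 k4 k5
    rw [k1, hY n, hY' n, k2, k3, k4, k5]
    rfl
  have e3 : inner ℂ ((Φ.cm j hj).op ν ζ) ζ' = ∫ t, inner ℂ (Φ.F (j t) (ζ t)) (ζ' t) ∂ν := by
    rw [L2.inner_def]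
    refine integral_congr_ae ?_
    filter_upwards [(Φ.cm j hj).op_ae ν ζ] with t k1
    rw [k1]
    rfl
  simp_rw [e1]
  rw [e3]
  refine tendsto_integral_of_dominated_convergence (fun t => Φ.C * (‖ζ t‖ * ‖ζ' t‖))
    (fun n => ?_) ?_ (fun n => ?_) ?_
  · exact (L2.integrable_inner (𝕜 := ℂ) (oneT ν (Φ.op μ) (Y n)) (Y' n)).aestronglyMeasurable
  · refine Integrable.const_mul ?_ _
    exact ((Lp.memLp ζ).norm).integrable_mul ((Lp.memLp ζ').norm)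
  · filter_upwards [e2 n] with t k1
    rw [k1]
    have h1 := norm_vFi_tens μ W (j t) (ζ t) (φ n) (hφ n)
    have h2 := norm_vFi_tens μ W (j t) (ζ' t) (φ n) (hφ n)
    have h0 : 0 ≤ Φ.C := Φ.C_nonneg
    calc ‖inner ℂ (Φ.op μ ((vFi μ W).F (j t) (tens μ (ζ t) (φ n))))
          ((vFi μ W).F (j t) (tens μ (ζ' t) (φ n)))‖
        ≤ ‖Φ.op μ ((vFi μ W).F (j t) (tens μ (ζ t) (φ n)))‖ *
          ‖(vFi μ W).F (j t) (tens μ (ζ' t) (φ n))‖ := norm_inner_le_norm _ _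
      _ ≤ (Φ.C * ‖ζ t‖) * ‖ζ' t‖ := by
          refine mul_le_mul ((Φ.op_norm_le μ _).trans ?_) h2 (norm_nonneg _) (by positivity)
          exact mul_le_mul_of_nonneg_left h1 h0
      _ = Φ.C * (‖ζ t‖ * ‖ζ' t‖) := by ring
  · filter_upwards [ae_all_iff.2 e2] with t k1
    simp_rw [k1, inner_compress]
    have h1 := hφk (fun g => inner ℂ (Φ.F (j t * g) (W.U g⁻¹ (ζ t))) (W.U g⁻¹ (ζ' t))) ?_ ?_
    · simpa [W.one] using h1
    · refine Continuous.inner ?_ ((W.cont _).comp continuous_inv)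
      exact Φ.cont.comp ((continuous_const.mul continuous_id).prodMk
        ((W.cont _).comp continuous_inv))
    · refine ⟨Φ.C * ‖ζ t‖ * ‖ζ' t‖, fun g => ?_⟩
      refine (norm_inner_le_norm _ _).trans ?_
      rw [W.norm_map]
      refine mul_le_mul_of_nonneg_right ?_ (norm_nonneg _)
      refine ((Φ.F _).le_opNorm _).trans ?_
      rw [W.norm_map]
      exact mul_le_mul_of_nonneg_right (Φ.bound _) (norm_nonneg _)

end ops

end Pool.Agent.AbCoc
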