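import Pool.Agent.Lib_MP_418a80_nm.NIn
import Pool.Agent.Lib_MP_418a80_nm.RelC7
import Pool.Agent.Lib_MP_418a80_nm.Comb4
import Pool.Agent.Lib_MP_418a80_nm.EP4a
import Pool.Agent.Lib_MP_418a80_nm.EP4e
import Pool.Agent.Lib_MP_418a80_nm.EP5
import Pool.Agent.Lib_MP_418a80_nm.EP6

/-!
# Dominated near-invariant families of a normal subgroup containing all elements with twists
-/

set_option autoImplicit false
set_option linter.unusedVariables false
set_option linter.unusedSectionVars false

open MeasureTheory Topology Filter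
open scoped ENNReal

namespace Pool.Agent.AbCoc

universe u v w z

section
variable {A : Type u} [CStarAlgebra A] [PartialOrder A] [StarOrderedRing A]
  {K : Type v} [NormedAddCommGroup K]
  [InnerProductSpace ℂ K] [CompleteSpace K]
variable {G : Type w} [Group G] [TopologicalSpace G] [IsTopologicalGroup G] [T2Space G]
  [NoncompactSpace G]
  [SecondCountableTopology G] [LocallyCompactSpace G] [MeasurableSpace G] [BorelSpace G]
  (μ : Measure G) [μ.IsHaarMeasure] {T : TrAlg A K} (S : TrAct G T)

/-- `StepADom` from the families of a closed normal subgroup -/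
theorem TrAct.stepADom_of_nearOn (hR : Reiter μ) (N : Subgroup G) [N.Normal]
    (hN : IsClosed (N : Set G)) (hcomb : S.Comb (N : Set G)) (hnear : S.NearOn (N : Set G))
    (hmove : IsCompact (N : Set G) ∨ S.MoveOn (N : Set G)) : S.StepADom := by
  refine S.stepADom_of_diag (S.nearOn_univ_of_nearOn μ hR N hN hcomb hnear)
    fun b hb hbs hb0 => ?_
  rcases hmove with hc | hm
  · refine S.domAt_sep μ hR hcomb (fun C hC => ?_) hb hbs hb0
    obtain ⟨g, h, h1, h2, _, h4, h5, h6⟩ := exists_sep_fun hc hC
    exact ⟨g, h, h1, fun s n hn => h2 s n hn, h4, h5, h6⟩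
  · exact S.domAt_move μ hR N hN hcomb hm hb hbs hb0

/-- the closed subgroup generated by the elements with twists -/
def TrAct.twistGroup : Subgroup G :=
  (Subgroup.closure {g | S.HasTwist g}).topologicalClosure

theorem TrAct.isClosed_twistGroup : IsClosed (S.twistGroup : Set G) :=
  Subgroup.isClosed_topologicalClosure _

theorem TrAct.mem_twistGroup {g : G} (hg : S.HasTwist g) : g ∈ S.twistGroup :=
  Subgroup.le_topologicalClosure _ (Subgroup.subset_closure hg)

instance TrAct.normal_twistGroup : S.twistGroup.Normal := by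
  have h1 : Group.conjugatesOfSet {g | S.HasTwist g} = {g | S.HasTwist g} := by
    refine Set.Subset.antisymm ?_ Group.subset_conjugatesOfSet
    intro x hx
    rw [Group.mem_conjugatesOfSet_iff] at hx
    obtain ⟨a, ha, hc⟩ := hx
    obtain ⟨c, rfl⟩ := isConj_iff.1 hc
    exact TrAct.HasTwist.conj ha c
  have h2 : (Subgroup.closure {g | S.HasTwist g}).Normal := by
    have h3 : Subgroup.normalClosure {g | S.HasTwist g} = Subgroup.closure {g | S.HasTwist g} := by
      rw [Subgroup.normalClosure, h1]
    rw [← h3]
    exact Subgroup.normalClosure_normal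
  exact Subgroup.is_normal_topologicalClosure _

theorem TrAct.twistGroup_comm
    (hcomm : ∀ g h : G, S.HasTwist g → S.HasTwist h → g * h = h * g) :
    ∀ x ∈ S.twistGroup, ∀ y ∈ S.twistGroup, x * y = y * x := by
  have h1 : ∀ x y : (Subgroup.closure {g | S.HasTwist g}), x * y = y * x := by
    have h2 := Subgroup.closure_le_centralizer_centralizer {g | S.HasTwist g}
    have h3 : Subgroup.closure {g | S.HasTwist g}
        ≤ Subgroup.centralizer (Subgroup.closure {g | S.HasTwist g} : Set G) := by
      rw [Subgroup.closure_le]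
      intro x hx
      have h4 : Subgroup.closure {g | S.HasTwist g} ≤ Subgroup.centralizer {x} := by
        rw [Subgroup.closure_le]
        intro y hy
        exact Subgroup.mem_centralizer_singleton_iff.2 (hcomm _ _ hy hx)
      refine Subgroup.mem_centralizer_iff.2 fun y hy => ?_
      exact (Subgroup.mem_centralizer_singleton_iff.1 (h4 hy))
    rintro ⟨x, hx⟩ ⟨y, hy⟩
    exact Subtype.ext ((Subgroup.mem_centralizer_iff.1 (h3 hx) y hy)).symm
  intro x hx y hy
  have h5 := (Subgroup.commGroupTopologicalClosure (Subgroup.closure {g | S.HasTwist g})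
    h1).mul_comm ⟨x, hx⟩ ⟨y, hy⟩
  exact congrArg Subtype.val h5

/-- `StepADom` for strictly outer actions of amenable groups if the elements with twists
commute -/
theorem TrAct.stepADom_of_twist_comm
    (hfac : ∀ x : A, (∀ y, x * y = y * x) → ∃ c : ℂ, x = c • (1 : A))
    (hSO : S.SO μ Set.univ) (hR : Reiter μ)
    (hcomm : ∀ g h : G, S.HasTwist g → S.HasTwist h → g * h = h * g) : S.StepADom := by
  have hcomb : S.Comb (S.twistGroup : Set G) :=
    S.comb_of_not_hasTwist μ hfac S.twistGroup fun g hg hg' => hg (S.mem_twistGroup hg')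
  obtain ⟨h1, h2⟩ := S.nIn_subgroup μ hSO S.twistGroup S.isClosed_twistGroup
    (S.twistGroup_comm hcomm)
  exact S.stepADom_of_nearOn μ hR S.twistGroup S.isClosed_twistGroup hcomb h1 h2

/-- `StepADom` for strictly outer actions of amenable groups if central sequences commute -/
theorem TrAct.stepADom_of_centralComm
    (hfac : ∀ x : A, (∀ y, x * y = y * x) → ∃ c : ℂ, x = c • (1 : A))
    (hSO : S.SO μ Set.univ) (hout : S.Outer) (hR : Reiter μ) (hcc : T.CentralComm) :
    S.StepADom :=
  S.stepADom_of_twist_comm μ hfac hSO hR fun g h hg hh => TrAct.HasTwist.comm hfac hout hcc hg hh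

end

end Pool.Agent.AbCoc
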