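import Pool.Agent.Lib_MP_418a80_nm.NComp
import Pool.Agent.Lib_MP_418a80_ab.StepAConc

/-!
# Step A for strictly outer actions of noncompact abelian groups
-/

set_option autoImplicit false
set_option linter.unusedVariables false
set_option linter.unusedSectionVars false

open MeasureTheory Topology Filter
open scoped ENNReal

namespace Pool.Agent.AbCoc

universe u v w

section
variable {A : Type u} [CStarAlgebra A] [PartialOrder A] [StarOrderedRing A]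
  {K : Type v} [NormedAddCommGroup K] [InnerProductSpace ℂ K] [CompleteSpace K]
  {N : Type w} [CommGroup N] [TopologicalSpace N] [IsTopologicalGroup N]
  [SecondCountableTopology N] [LocallyCompactSpace N] [MeasurableSpace N] [BorelSpace N]
  (ν : Measure N) [ν.IsHaarMeasure] {T : TrAlg A K} (S : TrAct N T)

theorem TrAct.nsa_pi_fixed (b : A) (hb : S.Fixed b) : S.pi ν b = oneT ν (T.Lm b) := by
  ext1 ξ
  apply Lp.ext
  filter_upwards [S.pi_ae ν b ξ, oneT_ae ν (T.Lm b) ξ] with g h1 h2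
  rw [h1, h2, hb]

theorem TrAct.nsa_kp_ne (m : Measure N) [IsProbabilityMeasure m] (ε : ℝ)
    (θ : ℂ) (g : N) (c : ℝ) (hk : (lam ν ℂ).kp m ε θ g c ≠ 0) (b : A) (hb : b ≠ 0)
    (hbf : S.Fixed b) : (lam ν K).kp m ε θ g c * S.pi ν b ≠ 0 := by
  intro h0
  obtain ⟨ψ, hψ⟩ : ∃ ψ, (lam ν ℂ).kp m ε θ g c ψ ≠ 0 := by
    by_contra hcon
    push Not at hcon
    exact hk (ContinuousLinearMap.ext hcon)
  have hv : T.Lm b (T.ι 1) ≠ 0 := by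
    rw [T.Lm_ι, mul_one]
    intro h
    exact hb (T.inj (by rw [h, map_zero]))
  have h1 : ((lam ν K).kp m ε θ g c * S.pi ν b) (tens ν (T.ι 1) ψ) = 0 := by rw [h0]; rfl
  have h2 : ((lam ν K).kp m ε θ g c * S.pi ν b) (tens ν (T.ι 1) ψ)
      = tens ν (T.Lm b (T.ι 1)) ((lam ν ℂ).kp m ε θ g c ψ) := by
    change (lam ν K).kp m ε θ g c (S.pi ν b (tens ν (T.ι 1) ψ)) = _
    rw [S.nsa_pi_fixed ν b hbf, oneT_tens]
    exact ((lam ν ℂ).kp_intertwine (lam ν K) (tens ν (T.Lm b (T.ι 1)))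
      (fun s η => tens_lam ν _ s η) m ε θ g c ψ).symm
  rw [h2] at h1
  have h3 := norm_tens ν (T.Lm b (T.ι 1)) ((lam ν ℂ).kp m ε θ g c ψ)
  rw [h1, norm_zero] at h3
  rcases mul_eq_zero.1 h3.symm with h4 | h4
  · exact hψ (norm_eq_zero.1 h4)
  · exact hv (norm_eq_zero.1 h4)

theorem TrAct.nsa_kn_ne (m : Measure N) [IsProbabilityMeasure m] (ε : ℝ)
    (θ : ℂ) (g : N) (c : ℝ) (hk : (lam ν ℂ).kn m ε θ g c ≠ 0) (b : A) (hb : b ≠ 0)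
    (hbf : S.Fixed b) : (lam ν K).kn m ε θ g c * S.pi ν b ≠ 0 := by
  intro h0
  obtain ⟨ψ, hψ⟩ : ∃ ψ, (lam ν ℂ).kn m ε θ g c ψ ≠ 0 := by
    by_contra hcon
    push Not at hcon
    exact hk (ContinuousLinearMap.ext hcon)
  have hv : T.Lm b (T.ι 1) ≠ 0 := by
    rw [T.Lm_ι, mul_one]
    intro h
    exact hb (T.inj (by rw [h, map_zero]))
  have h1 : ((lam ν K).kn m ε θ g c * S.pi ν b) (tens ν (T.ι 1) ψ) = 0 := by rw [h0]; rfl
  have h2 : ((lam ν K).kn m ε θ g c * S.pi ν b) (tens ν (T.ι 1) ψ)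
      = tens ν (T.Lm b (T.ι 1)) ((lam ν ℂ).kn m ε θ g c ψ) := by
    change (lam ν K).kn m ε θ g c (S.pi ν b (tens ν (T.ι 1) ψ)) = _
    rw [S.nsa_pi_fixed ν b hbf, oneT_tens]
    exact ((lam ν ℂ).kn_intertwine (lam ν K) (tens ν (T.Lm b (T.ι 1)))
      (fun s η => tens_lam ν _ s η) m ε θ g c ψ).symm
  rw [h2] at h1
  have h3 := norm_tens ν (T.Lm b (T.ι 1)) ((lam ν ℂ).kn m ε θ g c ψ)
  rw [h1, norm_zero] at h3
  rcases mul_eq_zero.1 h3.symm with h4 | h4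
  · exact hψ (norm_eq_zero.1 h4)
  · exact hv (norm_eq_zero.1 h4)

/-- there is `x` with `k₁ π(b₁ x b₂) k₂ ≠ 0` -/
theorem TrAct.nsa_exists (hSO : S.SO ν Set.univ)
    (m : Measure N) [IsProbabilityMeasure m] (ε : ℝ)
    (θ : ℂ) (g : N) (c : ℝ) (hk1 : (lam ν ℂ).kp m ε θ g c ≠ 0)
    (hk2 : (lam ν ℂ).kn m ε θ g c ≠ 0) (b1 b2 : A) (hb1 : b1 ≠ 0) (hb2 : b2 ≠ 0)
    (hb1f : S.Fixed b1) (hb2f : S.Fixed b2) :
    ∃ x : A, (lam ν K).kp m ε θ g c * S.pi ν (b1 * x * b2) * (lam ν K).kn m ε θ g c ≠ 0 := by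
  have hcomm : ∀ (b : A), S.Fixed b → ∀ s,
      (lam ν K).U s * S.pi ν b = S.pi ν b * (lam ν K).U s := by
    intro b hb s
    rw [S.lam_pi ν, hb]
  obtain ⟨q, ⟨x, rfl⟩, hne⟩ := factor_argument (Set.range (S.pi ν)) (Set.range (lam ν K).U)
    ⟨1, S.pi_one ν⟩
    (by
      rintro _ ⟨x, rfl⟩ _ ⟨y, rfl⟩
      exact ⟨x * y, S.pi_mul ν x y⟩)
    (by
      rintro _ ⟨x, rfl⟩
      exact ⟨star x, S.pi_star ν x⟩)
    ⟨1, (lam ν K).one⟩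
    (by
      rintro _ ⟨s, rfl⟩ _ ⟨t, rfl⟩
      exact ⟨s * t, (lam ν K).mul s t⟩)
    (by
      rintro _ ⟨s, rfl⟩
      exact ⟨s⁻¹, (lam_star ν s).symm⟩)
    (by
      rintro _ ⟨s, rfl⟩ _ ⟨x, rfl⟩
      exact ⟨_, ⟨S.α s x, rfl⟩, S.lam_pi ν s x⟩)
    (by
      intro n hn hnc
      refine hSO n hn fun x _ => ?_
      exact hnc _ (Set.subset_centralizer_centralizer (Or.inl ⟨x, rfl⟩)))
    (S.pi ν b1) (S.pi ν b2) ((lam ν K).kp m ε θ g c) ((lam ν K).kn m ε θ g c) ⟨b1, rfl⟩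
    ⟨b2, rfl⟩
    (by
      rintro _ ⟨s, rfl⟩
      exact hcomm b2 hb2f s)
    (by
      rintro _ ⟨s, rfl⟩
      exact (lam ν K).kn_comm m ε θ g c _ fun t => (lam ν K).U_comm s t)
    (((lam ν K).kn_comm m ε θ g c (S.pi ν b2) fun t => (hcomm b2 hb2f t).symm).symm)
    (by
      intro y hy
      refine (lam ν K).kn_comm m ε θ g c y fun t => ?_
      exact (hy _ (Set.mem_union_right _ ⟨t, rfl⟩)).symm)
    (S.nsa_kp_ne ν m ε θ g c hk1 b1 hb1 hb1f)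
    (S.nsa_kn_ne ν m ε θ g c hk2 b2 hb2 hb2f)
  refine ⟨x, ?_⟩
  rwa [S.pi_mul ν, S.pi_mul ν]

/-- transfer from `L²(N, E₀)` to `L²(N, K)` -/
theorem TrAct.nsa_transfer {E0 : Type*} [NormedAddCommGroup E0] [InnerProductSpace ℂ E0]
    [CompleteSpace E0] (j : E0 →L[ℂ] K) (U0 : URep N E0) (hj : ∀ s η, j (U0.U s η) = S.U.U s (j η))
    (a0 : A) (v0 : E0) (hv0 : j v0 = T.ι a0)
    (m : Measure N) [IsProbabilityMeasure m] (ε0 ε : ℝ) (hε : 0 ≤ ε) (h8 : 8 * ε < ε0)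
    (hgap : ∀ η : E0, ε0 * ‖η‖ ^ 2 ≤ ∫ s, ‖U0.U s η - η‖ ^ 2 ∂m) (θ : ℂ) (g : N) (c : ℝ) :
    (lam ν K).kp m ε θ g c * S.pi ν a0 * (lam ν K).kn m ε θ g c = 0 := by
  obtain ⟨Z, hZ⟩ : ∃ Z, Z = (lam ν K).kp m ε θ g c * S.pi ν a0 * (lam ν K).kn m ε θ g c :=
    ⟨_, rfl⟩
  have hker : LinearMap.ker (Z : Lp K 2 ν →ₗ[ℂ] Lp K 2 ν) = ⊤ := by
    refine hJ_dense ν T _ (Z.isClosed_ker) fun ψ b => ?_
    rw [LinearMap.mem_ker]
    obtain ⟨R, hR⟩ : ∃ R : E0 →L[ℂ] K, ∀ η : E0, R η = T.Rm b (j η) :=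
      ⟨(T.Rm b).comp j, fun η => rfl⟩
    have hRv : ∀ k : N, R (U0.U k v0) = T.Lm (S.α k a0) (T.ι b) := by
      intro k
      rw [hR, hj, hv0, S.U_ι, T.Rm_ι, T.Lm_ι]
    have htens : hJ ν K ψ (T.ι b) = tens ν (T.ι b) ψ := rfl
    obtain ⟨φ, hφ⟩ : ∃ φ : Lp ℂ 2 ν, φ = (lam ν ℂ).kn m ε θ g c ψ := ⟨_, rfl⟩
    have h5 : oneT ν R ((orbitField U0 v0).op ν φ) = S.pi ν a0 (tens ν (T.ι b) φ) := by
      apply Lp.ext
      filter_upwards [oneT_ae ν R ((orbitField U0 v0).op ν φ), (orbitField U0 v0).op_ae ν φ,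
        S.pi_ae ν a0 (tens ν (T.ι b) φ), tens_ae ν (T.ι b) φ] with k h1 h2 h3 h4
      rw [h1, h2, h3, h4]
      change R ((φ k : ℂ) • U0.U k⁻¹ v0) = _
      rw [map_smul, hRv, map_smul]
    have h6 : tens ν (T.ι b) φ = (lam ν K).kn m ε θ g c (tens ν (T.ι b) ψ) := by
      rw [hφ]
      exact (lam ν ℂ).kn_intertwine (lam ν K) (tens ν (T.ι b)) (fun s η => tens_lam ν _ s η)
        m ε θ g c ψ
    have h7 : oneT ν R ((lam ν E0).kp m ε θ g c ((orbitField U0 v0).op ν φ))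
        = (lam ν K).kp m ε θ g c (oneT ν R ((orbitField U0 v0).op ν φ)) :=
      (lam ν E0).kp_intertwine (lam ν K) (oneT ν R) (fun s η => oneT_lam ν R s η) m ε θ g c _
    have h8 : (lam ν E0).kp m ε θ g c ((orbitField U0 v0).op ν φ) = 0 := by
      rw [hφ]
      exact near_argument ν U0 v0 m ε0 ε hε h8 hgap θ g c ψ
    rw [h8, map_zero, h5, h6] at h7
    rw [htens, hZ]
    exact h7.symm
  rw [← hZ]
  ext1 ξ
  have h : ξ ∈ LinearMap.ker (Z : Lp K 2 ν →ₗ[ℂ] Lp K 2 ν) := by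
    rw [hker]
    trivial
  exact h

theorem TrAct.nsa_transfer_sub (L0 : Submodule ℂ K) [CompleteSpace L0]
    (hL0 : ∀ s, ∀ η ∈ L0, S.U.U s η ∈ L0)
    (a0 : A) (ha0 : T.ι a0 ∈ L0)
    (m : Measure N) [IsProbabilityMeasure m] (ε0 ε : ℝ) (hε : 0 ≤ ε) (h8 : 8 * ε < ε0)
    (hgap : ∀ η ∈ L0, ε0 * ‖η‖ ^ 2 ≤ ∫ s, ‖S.U.U s η - η‖ ^ 2 ∂m) (θ : ℂ) (g : N) (c : ℝ) :
    (lam ν K).kp m ε θ g c * S.pi ν a0 * (lam ν K).kn m ε θ g c = 0 :=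
  S.nsa_transfer ν L0.subtypeL (S.U.restrict L0 hL0) (fun s η => rfl) a0 ⟨_, ha0⟩ rfl
    m ε0 ε hε h8 (fun η => hgap η.1 η.2) θ g c

variable [T2Space N] [NoncompactSpace N]

/-- Step A for strictly outer actions of noncompact abelian groups -/
theorem TrAct.stepA_of_SO (hSO : S.SO ν Set.univ) : S.StepA := by
  intro m hm hcpt b1 b2 hb1f hb2f hb1 hb2 ε0 hε0
  obtain ⟨C, hC, hmC⟩ := hcpt
  by_contra hcon
  push Not at hcon
  obtain ⟨ε, hε⟩ : ∃ ε, ε = ε0 / 16 := ⟨_, rfl⟩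
  have hεp : 0 < ε := by rw [hε]; positivity
  obtain ⟨g, θ, c, hk1, hk2⟩ := exists_windows ν m C hC hmC ε hεp
  obtain ⟨x, hx⟩ := S.nsa_exists ν hSO m ε θ g c hk1 hk2 b1 b2 hb1 hb2 hb1f hb2f
  -- subtract the conditional expectation
  obtain ⟨e, he⟩ : ∃ e, e = S.E (b1 * x * b2) := ⟨_, rfl⟩
  obtain ⟨a0, ha0⟩ : ∃ a0, a0 = b1 * x * b2 - e := ⟨_, rfl⟩
  have hEe : e = b1 * S.E x * b2 := by
    rw [he, S.E_mul_right hb2f, S.E_mul_left hb1f]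
  have ha0mem : a0 ∈ S.corner b1 b2 := by
    refine ⟨?_, x - S.E x, ?_⟩
    · rw [ha0, he, S.E_sub, S.E_of_fixed (S.E_fixed _), sub_self]
    · rw [ha0, hEe]
      noncomm_ring
  have hef : S.Fixed e := by
    rw [he]
    exact S.E_fixed _
  have hcomm : ∀ s, (lam ν K).U s * S.pi ν e = S.pi ν e * (lam ν K).U s := by
    intro s
    rw [S.lam_pi ν, hef]
  have hzero : (lam ν K).kp m ε θ g c * S.pi ν e * (lam ν K).kn m ε θ g c = 0 := by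
    rw [← (lam ν K).kp_comm m ε θ g c (S.pi ν e) (fun s => (hcomm s).symm), mul_assoc,
      (lam ν K).kp_mul_kn, mul_zero]
  have hne : (lam ν K).kp m ε θ g c * S.pi ν a0 * (lam ν K).kn m ε θ g c ≠ 0 := by
    rw [ha0, S.pi_sub ν, mul_sub, sub_mul, hzero, sub_zero]
    exact hx
  -- the gap
  have hgap0 : ∀ a ∈ S.corner b1 b2, ε0 * ‖T.ι a‖ ^ 2
      ≤ ∫ s, ‖S.U.U s (T.ι a) - T.ι a‖ ^ 2 ∂m := by
    rintro a ⟨haE, y, hy⟩
    by_cases h0 : a = 0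
    · have h1 : T.ι a = 0 := by rw [h0, map_zero]
      rw [h1, norm_zero]
      simp
    · simp only [S.U_ι]
      exact hcon a y hy h0 haE
  exact hne (S.nsa_transfer_sub ν (S.cornerL b1 b2)
    (fun s η hη => S.cornerL_invariant hb1f hb2f s η hη) a0 (S.ι_mem_cornerL ha0mem)
    m ε0 ε hεp.le (by rw [hε]; linarith)
    (fun η hη => S.gap_of_corner b1 b2 m ε0 hgap0 η hη) θ g c)

end

end Pool.Agent.AbCoc
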