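import Pool.Agent.Lib_MP_418a80_nm.NComp
import Pool.Agent.Lib_MP_418a80_nm.NStepA
import Pool.Agent.Lib_MP_418a80_nm.NKey
import Pool.Agent.Lib_MP_418a80_ab.KeyOf

/-!
# The input from a closed abelian subgroup
-/

set_option autoImplicit false
set_option linter.unusedVariables false
set_option linter.unusedSectionVars false

open MeasureTheory Topology Filter
open scoped ENNReal

namespace Pool.Agent.AbCoc

universe u v w z

section
variable {A : Type u} [CStarAlgebra A] [PartialOrder A] [StarOrderedRing A]
  {K : Type v} [NormedAddCommGroup K]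
  [InnerProductSpace ℂ K] [CompleteSpace K]
variable {G : Type w} [Group G] [TopologicalSpace G] [IsTopologicalGroup G] [T2Space G]
  [SecondCountableTopology G] [LocallyCompactSpace G] [MeasurableSpace G] [BorelSpace G]
  (μ : Measure G) [μ.IsHaarMeasure] {T : TrAlg A K} (S : TrAct G T)

/-- the families of a closed abelian subgroup, along an embedding -/
theorem TrAct.nIn_embedding {N : Type z} [CommGroup N] [TopologicalSpace N]
    [IsTopologicalGroup N] [T2Space N]
    [SecondCountableTopology N] [LocallyCompactSpace N] [MeasurableSpace N] [BorelSpace N]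
    (ν : Measure N) [ν.IsHaarMeasure] (j : N →* G) (hj : Continuous j)
    (hj' : IsClosedEmbedding j) (hSO : S.SO μ Set.univ) :
    S.NearOn (Set.range j) ∧ (IsCompact (Set.range j) ∨ S.MoveOn (Set.range j)) := by
  have hSO' := S.SO_cm μ ν j hj hj' hSO
  by_cases hc : CompactSpace N
  · exact ⟨S.nearOn_of_compact ν j hj hSO', Or.inl (isCompact_range hj)⟩
  · haveI : NoncompactSpace N := not_compactSpace_iff.1 hc
    have hA := TrAct.stepA_of_SO ν (S.cm j hj) hSO'
    exact ⟨S.nearOn_of_key j hj hj' (TrAct.key_of_stepA _ hA),
      Or.inr (S.moveOn_of_key_amp j hj hj' fun n _ => TrAct.key_of_stepA _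
        ((S.cm j hj).stepA_amp n hA))⟩

/-- the families of a closed abelian subgroup -/
theorem TrAct.nIn_subgroup (hSO : S.SO μ Set.univ) (N : Subgroup G)
    (hN : IsClosed (N : Set G)) (hcomm : ∀ x ∈ N, ∀ y ∈ N, x * y = y * x) :
    S.NearOn (N : Set G) ∧ (IsCompact (N : Set G) ∨ S.MoveOn (N : Set G)) := by
  haveI : LocallyCompactSpace N := hN.isClosedEmbedding_subtypeVal.locallyCompactSpace
  haveI : SecondCountableTopology N :=
    inferInstanceAs (SecondCountableTopology ((N : Set G) : Set G))
  let _ : CommGroup N :=
    { (inferInstance : Group N) with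
      mul_comm := fun x y => Subtype.ext (hcomm x x.2 y y.2) }
  have h1 := S.nIn_embedding μ (Measure.haar : Measure N) N.subtype continuous_subtype_val
    hN.isClosedEmbedding_subtypeVal hSO
  have h2 : Set.range N.subtype = (N : Set G) := by
    rw [← MonoidHom.coe_range, Subgroup.range_subtype]
  rwa [h2] at h1

end

end Pool.Agent.AbCoc
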