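import Pool.Agent.Lib_MP_418a80_nm.NSO2
import Pool.Agent.Lib_MP_418a80_un.Un0

/-!
# Strict outerness passes to closed subgroups

The commutant of the functions and the right translations on `L²(N; K)` is `1 ⊗ B(K)`.
-/

set_option autoImplicit false
set_option linter.unusedVariables false
set_option linter.unusedSectionVars false

open MeasureTheory Topology Filter
open scoped ENNReal

namespace Pool.Agent.AbCoc

universe u v w x z

section right
variable {N : Type z} [Group N] [TopologicalSpace N] [IsTopologicalGroup N]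
  [SecondCountableTopology N] [LocallyCompactSpace N] [MeasurableSpace N] [BorelSpace N]
  (ν : Measure N) [ν.IsHaarMeasure]
variable {K : Type v} [NormedAddCommGroup K] [InnerProductSpace ℂ K] [CompleteSpace K]

/-- right translate of a bounded continuous function -/
noncomputable def rtF (f : BoundedContinuousFunction N ℂ) (s : N) :
    BoundedContinuousFunction N ℂ :=
  BoundedContinuousFunction.ofNormedAddCommGroup (fun t => f (t * s))
    (f.continuous.comp (continuous_id.mul continuous_const)) ‖f‖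
    (fun t => f.norm_coe_le_norm _)

theorem rtF_apply (f : BoundedContinuousFunction N ℂ) (s t : N) : rtF f s t = f (t * s) := rfl

theorem rtF_supp (f : BoundedContinuousFunction N ℂ) (hf : HasCompactSupport f) (s : N) :
    HasCompactSupport (rtF f s) :=
  hf.comp_homeomorph (Homeomorph.mulRight s)

theorem exists_vec_of_comm_rt (n : Lp K 2 ν →L[ℂ] Lp K 2 ν)
    (hf : ∀ (f : BoundedContinuousFunction N ℂ) ζ,
      n ((scal K f).op ν ζ) = (scal K f).op ν (n ζ))
    (hrt : ∀ s ζ, n (rt ν K s ζ) = rt ν K s (n ζ)) (η : K)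
    (f : BoundedContinuousFunction N ℂ) (hfc : HasCompactSupport f) (t1 : N) (ht1 : f t1 ≠ 0) :
    ∃ v : K, n (tens ν η (cv ν f hfc)) = tens ν v (cv ν f hfc) := by
  obtain ⟨X, hX⟩ : ∃ X, X = n (tens ν η (cv ν f hfc)) := ⟨_, rfl⟩
  have h1 : ∀ s, ∀ᵐ t ∂ν, f (t * s) • X t = f t • X (t * s) := by
    intro s
    have e1 : (scal K (rtF f s)).op ν (tens ν η (cv ν f hfc)) =
        (scal K f).op ν (rt ν K s (tens ν η (cv ν f hfc))) := by
      apply Lp.ext
      filter_upwards [(scal K (rtF f s)).op_ae ν (tens ν η (cv ν f hfc)),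
        tens_ae ν η (cv ν f hfc), cv_ae ν f hfc,
        (scal K f).op_ae ν (rt ν K s (tens ν η (cv ν f hfc))),
        rt_ae ν s (tens ν η (cv ν f hfc)), ae_mulRight ν s (tens_ae ν η (cv ν f hfc)),
        ae_mulRight ν s (cv_ae ν f hfc)] with t k1 k2 k3 k4 k5 k6 k7
      rw [k1, k2, k3, k4, k5, k6, k7, scal_apply, scal_apply, rtF_apply, smul_smul, smul_smul,
        mul_comm]
    have e2 : (scal K (rtF f s)).op ν X = (scal K f).op ν (rt ν K s X) := by
      rw [hX, ← hf, e1, hf, hrt]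
    have e3 : ⇑((scal K (rtF f s)).op ν X) =ᵐ[ν] ⇑((scal K f).op ν (rt ν K s X)) := by
      rw [e2]
    filter_upwards [e3, (scal K (rtF f s)).op_ae ν X, (scal K f).op_ae ν (rt ν K s X),
      rt_ae ν s X] with t k1 k2 k3 k4
    rw [k2, k3, k4, scal_apply, scal_apply, rtF_apply] at k1
    exact k1
  have hmeas : MeasurableSet {p : N × N | f (p.2 * p.1) • X p.2 = f p.2 • X (p.2 * p.1)} := by
    have hXm : StronglyMeasurable (⇑X : N → K) := Lp.stronglyMeasurable X
    have hm : Measurable fun p : N × N => p.2 * p.1 := measurable_snd.mul measurable_fst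
    refine StronglyMeasurable.measurableSet_eq_fun ?_ ?_
    · refine StronglyMeasurable.smul ?_ (hXm.comp_measurable measurable_snd)
      exact f.continuous.stronglyMeasurable.comp_measurable hm
    · refine StronglyMeasurable.smul ?_ (hXm.comp_measurable hm)
      exact f.continuous.stronglyMeasurable.comp_measurable measurable_snd
  have h2 : ∀ᵐ t ∂ν, ∀ᵐ s ∂ν, f (t * s) • X t = f t • X (t * s) :=
    (Measure.ae_ae_comm hmeas).1 (Filter.Eventually.of_forall h1)
  obtain ⟨t0, ht0, hft0⟩ : ∃ t0, (∀ᵐ s ∂ν, f (t0 * s) • X t0 = f t0 • X (t0 * s)) ∧ f t0 ≠ 0 := by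
    by_contra hcon
    push Not at hcon
    have hO : IsOpen {t | f t ≠ 0} := isOpen_ne_fun f.continuous continuous_const
    have h3 : {t | f t ≠ 0} ⊆ {t | ¬ ∀ᵐ s ∂ν, f (t * s) • X t = f t • X (t * s)} := by
      intro t ht h4
      exact ht (hcon t h4)
    have h4 := measure_mono_null h3 (ae_iff.1 h2)
    exact (hO.measure_pos ν ⟨t1, ht1⟩).ne' h4
  refine ⟨(f t0)⁻¹ • X t0, ?_⟩
  rw [← hX]
  have h3 := ae_translate ν t0⁻¹ ht0
  apply Lp.ext
  filter_upwards [h3, tens_ae ν ((f t0)⁻¹ • X t0) (cv ν f hfc), cv_ae ν f hfc] with s k1 k2 k3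
  rw [mul_inv_cancel_left] at k1
  rw [k2, k3, smul_comm, k1, smul_smul, inv_mul_cancel₀ hft0, one_smul]

/-- an operator on `L²(N; K)` commuting with the functions and the right translations is
`1 ⊗ T` -/
theorem exists_oneT_of_comm_rt (n : Lp K 2 ν →L[ℂ] Lp K 2 ν)
    (hf : ∀ (f : BoundedContinuousFunction N ℂ) ζ,
      n ((scal K f).op ν ζ) = (scal K f).op ν (n ζ))
    (hrt : ∀ s ζ, n (rt ν K s ζ) = rt ν K s (n ζ)) : ∃ c : K →L[ℂ] K, n = oneT ν c := by
  obtain ⟨b, hb, -, hbne⟩ := exists_bump ν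
  obtain ⟨t1, ht1⟩ : ∃ t1, b t1 ≠ 0 := by
    by_contra hcon
    push Not at hcon
    apply hbne
    apply Lp.ext
    filter_upwards [cv_ae ν b hb, Lp.coeFn_zero ℂ 2 ν] with t k1 k2
    rw [k1, k2, hcon]
    rfl
  have hnb : (‖cv ν b hb‖ ^ 2 : ℂ) ≠ 0 := by
    have := norm_ne_zero_iff.2 hbne
    exact_mod_cast pow_ne_zero 2 this
  obtain ⟨c, hc⟩ : ∃ c : K →L[ℂ] K, c = ((‖cv ν b hb‖ ^ 2 : ℂ))⁻¹ •
      ((tensL ν K (cv ν b hb)).adjoint.comp (n.comp (tensL ν K (cv ν b hb)))) := ⟨_, rfl⟩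
  have hcb : ∀ η, n (tens ν η (cv ν b hb)) = tens ν (c η) (cv ν b hb) := by
    intro η
    obtain ⟨v, hv⟩ := exists_vec_of_comm_rt ν n hf hrt η b hb t1 ht1
    have h1 : c η = v := by
      rw [hc]
      change ((‖cv ν b hb‖ ^ 2 : ℂ))⁻¹ • ((tensL ν K (cv ν b hb)).adjoint
        (n (tens ν η (cv ν b hb)))) = v
      rw [hv, tensL_adjoint_tens, smul_smul, inv_mul_cancel₀ hnb, one_smul]
    rw [hv, h1]
  refine ⟨c, ext_cv ν fun η k hk => ?_⟩
  rw [oneT_tensW]
  by_cases hk0 : ∃ t2, k t2 ≠ 0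
  · obtain ⟨t2, ht2⟩ := hk0
    obtain ⟨v, hv⟩ := exists_vec_of_comm_rt ν n hf hrt η k hk t2 ht2
    -- the translate of `b` does not vanish at `t2`
    obtain ⟨s, hs⟩ : ∃ s, s = t2⁻¹ * t1 := ⟨_, rfl⟩
    have hbs : rtF b s t2 ≠ 0 := by
      rw [rtF_apply, hs, mul_inv_cancel_left]
      exact ht1
    have hrtb : rt ν K s (tens ν η (cv ν b hb)) = tens ν η (cv ν (rtF b s) (rtF_supp b hb s)) := by
      apply Lp.ext
      filter_upwards [rt_ae ν s (tens ν η (cv ν b hb)), ae_mulRight ν s (tens_ae ν η (cv ν b hb)),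
        ae_mulRight ν s (cv_ae ν b hb), tens_ae ν η (cv ν (rtF b s) (rtF_supp b hb s)),
        cv_ae ν (rtF b s) (rtF_supp b hb s)] with t k1 k2 k3 k4 k5
      rw [k1, k2, k3, k4, k5, rtF_apply]
    have hrtc : rt ν K s (tens ν (c η) (cv ν b hb)) =
        tens ν (c η) (cv ν (rtF b s) (rtF_supp b hb s)) := by
      apply Lp.ext
      filter_upwards [rt_ae ν s (tens ν (c η) (cv ν b hb)),
        ae_mulRight ν s (tens_ae ν (c η) (cv ν b hb)),
        ae_mulRight ν s (cv_ae ν b hb), tens_ae ν (c η) (cv ν (rtF b s) (rtF_supp b hb s)),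
        cv_ae ν (rtF b s) (rtF_supp b hb s)] with t k1 k2 k3 k4 k5
      rw [k1, k2, k3, k4, k5, rtF_apply]
    have h1 : n (tens ν η (cv ν (rtF b s) (rtF_supp b hb s))) =
        tens ν (c η) (cv ν (rtF b s) (rtF_supp b hb s)) := by
      rw [← hrtb, hrt, hcb, hrtc]
    have e1 : (scal K (rtF b s)).op ν (tens ν η (cv ν k hk)) =
        (scal K k).op ν (tens ν η (cv ν (rtF b s) (rtF_supp b hb s))) := by
      apply Lp.ext
      filter_upwards [(scal K (rtF b s)).op_ae ν (tens ν η (cv ν k hk)),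
        tens_ae ν η (cv ν k hk), cv_ae ν k hk,
        (scal K k).op_ae ν (tens ν η (cv ν (rtF b s) (rtF_supp b hb s))),
        tens_ae ν η (cv ν (rtF b s) (rtF_supp b hb s)),
        cv_ae ν (rtF b s) (rtF_supp b hb s)] with t k1 k2 k3 k4 k5 k6
      rw [k1, k2, k3, k4, k5, k6, scal_apply, scal_apply, smul_smul, smul_smul, mul_comm]
    have e2 := congrArg n e1
    rw [hf, hf, hv, h1] at e2
    have e3 : ⇑((scal K (rtF b s)).op ν (tens ν v (cv ν k hk))) =ᵐ[ν]
        ⇑((scal K k).op ν (tens ν (c η) (cv ν (rtF b s) (rtF_supp b hb s)))) := by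
      rw [e2]
    have e4 : ∀ᵐ t ∂ν, (rtF b s t * k t) • (v - c η) = 0 := by
      filter_upwards [e3, (scal K (rtF b s)).op_ae ν (tens ν v (cv ν k hk)),
        tens_ae ν v (cv ν k hk), cv_ae ν k hk,
        (scal K k).op_ae ν (tens ν (c η) (cv ν (rtF b s) (rtF_supp b hb s))),
        tens_ae ν (c η) (cv ν (rtF b s) (rtF_supp b hb s)),
        cv_ae ν (rtF b s) (rtF_supp b hb s)] with t k0 k1 k2 k3 k4 k5 k6
      rw [k1, k2, k3, k4, k5, k6, scal_apply, scal_apply, smul_smul, smul_smul] at k0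
      rw [smul_sub, k0, mul_comm (k t), sub_self]
    have e5 : v = c η := by
      by_contra hne
      have hO : IsOpen {t | rtF b s t * k t ≠ 0} :=
        isOpen_ne_fun ((rtF b s).continuous.mul k.continuous) continuous_const
      have h3 : {t | rtF b s t * k t ≠ 0} ⊆ {t | ¬ (rtF b s t * k t) • (v - c η) = 0} := by
        intro t ht h4
        rcases smul_eq_zero.1 h4 with h5 | h5
        · exact ht h5
        · exact hne (sub_eq_zero.1 h5)
      have h4 := measure_mono_null h3 (ae_iff.1 e4)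
      exact (hO.measure_pos ν ⟨t2, mul_ne_zero hbs ht2⟩).ne' h4
    rw [hv, e5]
  · push Not at hk0
    have h1 : cv ν k hk = 0 := by
      apply Lp.ext
      filter_upwards [cv_ae ν k hk, Lp.coeFn_zero ℂ 2 ν] with t k1 k2
      rw [k1, k2, hk0]
      rfl
    rw [h1, map_zero, map_zero, map_zero]

end right

end Pool.Agent.AbCoc
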