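import Pool.Agent.Lib_MP_418a80_nm.NSO

/-!
# Strict outerness passes to closed abelian subgroups: conclusion
-/

set_option autoImplicit false
set_option linter.unusedSectionVars false

open MeasureTheory Topology Filter
open scoped ENNReal

namespace Pool.Agent.AbCoc

universe u v w x z

section main
variable {A : Type u} [CStarAlgebra A] {K : Type v} [NormedAddCommGroup K]
  [InnerProductSpace ℂ K] [CompleteSpace K]
variable {G : Type w} [Group G] [TopologicalSpace G] [IsTopologicalGroup G]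
  [SecondCountableTopology G] [LocallyCompactSpace G] [MeasurableSpace G] [BorelSpace G]
  (μ : Measure G) [μ.IsHaarMeasure] {T : TrAlg A K} (S : TrAct G T)

section comm
variable [T2Space G]
variable {N : Type z} [CommGroup N] [TopologicalSpace N] [IsTopologicalGroup N]
  [SecondCountableTopology N] [LocallyCompactSpace N] [MeasurableSpace N] [BorelSpace N]
  (ν : Measure N) [ν.IsHaarMeasure] (j : N →* G) (hj : Continuous j)

/-- strict outerness passes to closed abelian subgroups -/
theorem TrAct.SO_cm (hj' : IsClosedEmbedding j) (hSO : S.SO μ Set.univ) :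
    (S.cm j hj).SO ν Set.univ := by
  intro n hn hnpi
  have hQ2 : ∀ x, n * (S.cm j hj).pi ν x = (S.cm j hj).pi ν x * n := fun x => hnpi x trivial
  rw [Set.mem_centralizer_iff] at hn
  have hQ1 : ∀ c : K →L[ℂ] K, T.CommL c → n * oneT ν c = oneT ν c * n := by
    intro c hc
    refine (hn _ ?_).symm
    rw [Set.mem_centralizer_iff]
    rintro _ (⟨x, rfl⟩ | ⟨s, rfl⟩)
    · exact (S.cm j hj).pi_comm ν x c hc
    · ext1 ξ
      exact (oneT_lam ν c s ξ).symm
  have hF := S.comm_field_cm μ ν j hj hSO n hQ1 hQ2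
  have hconst : ∀ c : K →L[ℂ] K, n * oneT ν c = oneT ν c * n := by
    intro c
    have h1 := hF (constField G c)
    have h2 : ((constField G c).cm j hj).op ν = oneT ν c := by
      rw [oneT_eq_op]
      exact Field.op_congr ν fun g ξ => rfl
    rwa [h2] at h1
  have hscal : ∀ f : BoundedContinuousFunction N ℝ, ∀ ζ : Lp K 2 ν,
      n ((scal K (BoundedContinuousFunction.ofNormedAddCommGroup (fun t => (f t : ℂ))
        (Complex.continuous_ofReal.comp f.continuous) ‖f‖ (fun t => by
          rw [Complex.norm_real]; exact f.norm_coe_le_norm t))).op ν ζ) =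
      (scal K (BoundedContinuousFunction.ofNormedAddCommGroup (fun t => (f t : ℂ))
        (Complex.continuous_ofReal.comp f.continuous) ‖f‖ (fun t => by
          rw [Complex.norm_real]; exact f.norm_coe_le_norm t))).op ν (n ζ) := by
    intro f ζ
    obtain ⟨g, _, hg⟩ :=
      BoundedContinuousFunction.exists_extension_norm_eq_of_isClosedEmbedding f hj'
    obtain ⟨g', hg'⟩ : ∃ g' : BoundedContinuousFunction G ℂ, ∀ t, g' t = (g t : ℂ) :=
      ⟨BoundedContinuousFunction.ofNormedAddCommGroup (fun t => (g t : ℂ))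
        (Complex.continuous_ofReal.comp g.continuous) ‖g‖ (fun t => by
          rw [Complex.norm_real]; exact g.norm_coe_le_norm t), fun _ => rfl⟩
    have h1 := hF (scal K g')
    have h2 : ((scal K g').cm j hj).op ν =
        (scal K (BoundedContinuousFunction.ofNormedAddCommGroup (fun t => (f t : ℂ))
        (Complex.continuous_ofReal.comp f.continuous) ‖f‖ (fun t => by
          rw [Complex.norm_real]; exact f.norm_coe_le_norm t))).op ν := by
      refine Field.op_congr ν fun t ξ => ?_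
      rw [Field.cm_F, scal_apply, scal_apply, hg']
      have h3 : g (j t) = f t := congrFun hg t
      rw [h3]
      rfl
    rw [h2] at h1
    exact congrArg (fun L : Lp K 2 ν →L[ℂ] Lp K 2 ν => L ζ) h1
  have hscalC : ∀ (f : BoundedContinuousFunction N ℂ) (ζ : Lp K 2 ν),
      n ((scal K f).op ν ζ) = (scal K f).op ν (n ζ) := by
    intro f ζ
    obtain ⟨fr, hfr⟩ : ∃ fr : BoundedContinuousFunction N ℝ, ∀ t, fr t = (f t).re :=
      ⟨BoundedContinuousFunction.ofNormedAddCommGroup (fun t => (f t).re)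
        (Complex.continuous_re.comp f.continuous) ‖f‖ (fun t => by
          rw [Real.norm_eq_abs]
          exact (Complex.abs_re_le_norm _).trans (f.norm_coe_le_norm t)), fun _ => rfl⟩
    obtain ⟨fi, hfi⟩ : ∃ fi : BoundedContinuousFunction N ℝ, ∀ t, fi t = (f t).im :=
      ⟨BoundedContinuousFunction.ofNormedAddCommGroup (fun t => (f t).im)
        (Complex.continuous_im.comp f.continuous) ‖f‖ (fun t => by
          rw [Real.norm_eq_abs]
          exact (Complex.abs_im_le_norm _).trans (f.norm_coe_le_norm t)), fun _ => rfl⟩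
    have h1 : ∀ ξ : Lp K 2 ν, (scal K f).op ν ξ =
        (scal K (BoundedContinuousFunction.ofNormedAddCommGroup (fun t => (fr t : ℂ))
        (Complex.continuous_ofReal.comp fr.continuous) ‖fr‖ (fun t => by
          rw [Complex.norm_real]; exact fr.norm_coe_le_norm t))).op ν ξ +
        Complex.I • (scal K (BoundedContinuousFunction.ofNormedAddCommGroup (fun t => (fi t : ℂ))
        (Complex.continuous_ofReal.comp fi.continuous) ‖fi‖ (fun t => by
          rw [Complex.norm_real]; exact fi.norm_coe_le_norm t))).op ν ξ := by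
      intro ξ
      apply Lp.ext
      filter_upwards [(scal K f).op_ae ν ξ,
        (scal K (BoundedContinuousFunction.ofNormedAddCommGroup (fun t => (fr t : ℂ))
        (Complex.continuous_ofReal.comp fr.continuous) ‖fr‖ (fun t => by
          rw [Complex.norm_real]; exact fr.norm_coe_le_norm t))).op_ae ν ξ,
        (scal K (BoundedContinuousFunction.ofNormedAddCommGroup (fun t => (fi t : ℂ))
        (Complex.continuous_ofReal.comp fi.continuous) ‖fi‖ (fun t => by
          rw [Complex.norm_real]; exact fi.norm_coe_le_norm t))).op_ae ν ξ,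
        Lp.coeFn_add ((scal K (BoundedContinuousFunction.ofNormedAddCommGroup
          (fun t => (fr t : ℂ)) (Complex.continuous_ofReal.comp fr.continuous) ‖fr‖ (fun t => by
          rw [Complex.norm_real]; exact fr.norm_coe_le_norm t))).op ν ξ)
          (Complex.I • (scal K (BoundedContinuousFunction.ofNormedAddCommGroup
          (fun t => (fi t : ℂ)) (Complex.continuous_ofReal.comp fi.continuous) ‖fi‖ (fun t => by
          rw [Complex.norm_real]; exact fi.norm_coe_le_norm t))).op ν ξ),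
        Lp.coeFn_smul Complex.I ((scal K (BoundedContinuousFunction.ofNormedAddCommGroup
          (fun t => (fi t : ℂ)) (Complex.continuous_ofReal.comp fi.continuous) ‖fi‖ (fun t => by
          rw [Complex.norm_real]; exact fi.norm_coe_le_norm t))).op ν ξ)] with t k1 k2 k3 k4 k5
      rw [k1, k4, Pi.add_apply, k2, k5, Pi.smul_apply, k3, scal_apply, scal_apply, scal_apply]
      change f t • ξ t = (fr t : ℂ) • ξ t + Complex.I • ((fi t : ℂ) • ξ t)
      rw [hfr, hfi, smul_smul, ← add_smul, mul_comm Complex.I, Complex.re_add_im]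
    rw [h1, h1, map_add, map_smul, hscal, hscal]
  -- the translations
  have hlam : ∀ s (ζ : Lp K 2 ν), n ((lam ν K).U s ζ) = (lam ν K).U s (n ζ) := by
    intro s ζ
    obtain ⟨R, hR⟩ : ∃ R, R = (lam ν K).U s * oneT ν ((S.cm j hj).U.U s⁻¹) := ⟨_, rfl⟩
    have hRc : n * R = R * n := by
      refine (hn _ ?_).symm
      rw [Set.mem_centralizer_iff]
      rintro _ (⟨x, rfl⟩ | ⟨t, rfl⟩)
      · ext1 ξ
        rw [hR]
        change (S.cm j hj).pi ν x ((lam ν K).U s (oneT ν ((S.cm j hj).U.U s⁻¹) ξ)) =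
          (lam ν K).U s (oneT ν ((S.cm j hj).U.U s⁻¹) ((S.cm j hj).pi ν x ξ))
        apply Lp.ext
        filter_upwards [(S.cm j hj).pi_ae ν x ((lam ν K).U s (oneT ν ((S.cm j hj).U.U s⁻¹) ξ)),
          lam_ae ν s (oneT ν ((S.cm j hj).U.U s⁻¹) ξ),
          ae_translate ν s⁻¹ (oneT_ae ν ((S.cm j hj).U.U s⁻¹) ξ),
          lam_ae ν s (oneT ν ((S.cm j hj).U.U s⁻¹) ((S.cm j hj).pi ν x ξ)),
          ae_translate ν s⁻¹ (oneT_ae ν ((S.cm j hj).U.U s⁻¹) ((S.cm j hj).pi ν x ξ)),
          ae_translate ν s⁻¹ ((S.cm j hj).pi_ae ν x ξ)] with t k1 k2 k3 k4 k5 k6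
        rw [k1, k2, k3, k4, k5, k6]
        have h1 := congrArg (fun L : K →L[ℂ] K => L (ξ (s⁻¹ * t)))
          ((S.cm j hj).U_Lm s⁻¹ ((S.cm j hj).α (s⁻¹ * t)⁻¹ x))
        change (S.cm j hj).U.U s⁻¹ (T.Lm ((S.cm j hj).α (s⁻¹ * t)⁻¹ x) (ξ (s⁻¹ * t))) =
          T.Lm ((S.cm j hj).α s⁻¹ ((S.cm j hj).α (s⁻¹ * t)⁻¹ x))
            ((S.cm j hj).U.U s⁻¹ (ξ (s⁻¹ * t))) at h1
        rw [h1, ← (S.cm j hj).mul, mul_inv_rev, inv_inv, mul_comm t⁻¹ s, inv_mul_cancel_left]
      · rw [hR]
        ext1 ξ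
        change (lam ν K).U t ((lam ν K).U s (oneT ν ((S.cm j hj).U.U s⁻¹) ξ)) =
          (lam ν K).U s (oneT ν ((S.cm j hj).U.U s⁻¹) ((lam ν K).U t ξ))
        rw [oneT_lam, ← (lam ν K).mul_apply, ← (lam ν K).mul_apply, mul_comm]
    have h1 : (lam ν K).U s = R * oneT ν ((S.cm j hj).U.U s) := by
      rw [hR, mul_assoc, ← oneT_mul]
      have h2 : (S.cm j hj).U.U s⁻¹ * (S.cm j hj).U.U s = 1 := by
        rw [← (S.cm j hj).U.mul, inv_mul_cancel, (S.cm j hj).U.one]
      rw [h2]
      ext1 ξ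
      change _ = (lam ν K).U s (oneT ν 1 ξ)
      congr 1
      apply Lp.ext
      filter_upwards [oneT_ae ν (1 : K →L[ℂ] K) ξ] with t k1
      rw [k1]
      rfl
    have h2 : n * (lam ν K).U s = (lam ν K).U s * n := by
      rw [h1, ← mul_assoc, hRc, mul_assoc, hconst, ← mul_assoc]
    exact congrArg (fun L : Lp K 2 ν →L[ℂ] Lp K 2 ν => L ζ) h2
  obtain ⟨c, hc⟩ := exists_oneT_of_comm ν n hscalC hlam
  obtain ⟨φ, hφ, -⟩ := exists_approx ν
  have hinj : ∀ X Y : K →L[ℂ] K, oneT ν X = oneT ν Y → X = Y := by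
    intro X Y hXY
    ext1 η
    have h1 := congrArg (fun L : Lp K 2 ν →L[ℂ] Lp K 2 ν => L (tens ν η (φ 0))) hXY
    change oneT ν X (tens ν η (φ 0)) = oneT ν Y (tens ν η (φ 0)) at h1
    rw [oneT_tensW, oneT_tensW] at h1
    have h2 : tens ν (X η - Y η) (φ 0) = 0 := by
      rw [← tensL_apply, map_sub, tensL_apply, tensL_apply, h1, sub_self]
    have h3 := norm_tens ν (X η - Y η) (φ 0)
    rw [h2, norm_zero, hφ, one_mul] at h3
    exact sub_eq_zero.1 (norm_eq_zero.1 h3.symm)
  have hcc : ∀ b : K →L[ℂ] K, c * b = b * c := by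
    intro b
    refine hinj _ _ ?_
    rw [oneT_mul, oneT_mul, ← hc]
    exact hconst b
  have hone : T.ι 1 ≠ 0 := by
    intro h0
    have := T.norm_one
    rw [h0, norm_zero] at this
    exact zero_ne_one this
  obtain ⟨w, hw⟩ := eq_scalar_of_comm c (T.ι 1) hone hcc
  refine ⟨w, ?_⟩
  rw [hc, hw]
  ext1 ξ
  apply Lp.ext
  filter_upwards [oneT_ae ν (w • (1 : K →L[ℂ] K)) ξ, Lp.coeFn_smul w ξ] with t k1 k2
  rw [k1]
  change _ = (w • ξ) t
  rw [k2]
  rfl

end comm
end main

end Pool.Agent.AbCoc
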