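import Pool.Agent.Lib_MP_418a80_nm.NSO3
import Pool.Agent.Lib_MP_418a80_nm.NAmp

/-!
# Strict outerness passes to matrices
-/

set_option autoImplicit false
set_option linter.unusedSectionVars false
set_option linter.unusedVariables false

open MeasureTheory Topology Filter
open scoped ENNReal

namespace Pool.Agent.AbCoc

universe u v w x z

section ip
variable (N : ℕ) (K : Type v) [NormedAddCommGroup K] [InnerProductSpace ℂ K]

/-- the embedding of the entry `p` -/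
noncomputable def mI (p : Fin N × Fin N) : K →L[ℂ] MatK N K :=
  (PiLp.continuousLinearEquiv 2 ℂ (fun _ : Fin N × Fin N => K)).symm.toContinuousLinearMap.comp
    (ContinuousLinearMap.single ℂ (fun _ : Fin N × Fin N => K) p)

/-- the entry `p` -/
noncomputable def mP (p : Fin N × Fin N) : MatK N K →L[ℂ] K :=
  (ContinuousLinearMap.proj (R := ℂ) (φ := fun _ : Fin N × Fin N => K) p).comp
    (PiLp.continuousLinearEquiv 2 ℂ (fun _ : Fin N × Fin N => K)).toContinuousLinearMap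

variable {N K}

theorem mP_apply (p : Fin N × Fin N) (ζ : MatK N K) : mP N K p ζ = ζ p := rfl

theorem mI_apply (p q : Fin N × Fin N) (ξ : K) : mI N K p ξ q = if q = p then ξ else 0 := by
  change (Pi.single p ξ : Fin N × Fin N → K) q = _
  rw [Pi.single_apply]

theorem mP_mI (p q : Fin N × Fin N) (ξ : K) : mP N K p (mI N K q ξ) = if p = q then ξ else 0 := by
  rw [mP_apply, mI_apply]

theorem sum_mI_mP (ζ : MatK N K) : ∑ p, mI N K p (mP N K p ζ) = ζ := by
  ext q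
  rw [WithLp.ofLp_sum, Finset.sum_apply, Finset.sum_eq_single q]
  · rw [mI_apply, if_pos rfl, mP_apply]
  · intro p _ hp
    rw [mI_apply, if_neg hp.symm]
  · intro h
    exact absurd (Finset.mem_univ q) h

end ip

section alg
variable {A : Type u} [CStarAlgebra A] {K : Type v} [NormedAddCommGroup K]
  [InnerProductSpace ℂ K] [CompleteSpace K] (T : TrAlg A K) (N : ℕ) [NeZero N]
variable [PartialOrder A] [StarOrderedRing A]

theorem TrAlg.amp_Lm_apply (X : Mat N A) (ζ : MatK N K) (i j : Fin N) :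
    (T.amp N).Lm X ζ (i, j) = ∑ k, T.Lm (X i k) (ζ (k, j)) := by
  have h1 : Continuous fun ζ : MatK N K => (T.amp N).Lm X ζ (i, j) :=
    (mP N K (i, j)).continuous.comp ((T.amp N).Lm X).continuous
  have h2 : Continuous fun ζ : MatK N K => ∑ k, T.Lm (X i k) (ζ (k, j)) :=
    continuous_finsetSum _ fun k _ => (T.Lm (X i k)).continuous.comp (mP N K (k, j)).continuous
  refine congrFun ((T.amp N).dense.equalizer h1 h2 (funext fun M => ?_)) ζ
  change (T.amp N).Lm X ((T.amp N).ι M) (i, j) =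
    ∑ k, T.Lm (X i k) ((T.amp N).ι M (k, j))
  rw [(T.amp N).Lm_ι, T.amp_ι, T.amp_ι]
  rw [T.ampι_apply]
  have h3 : ∀ k, T.Lm (X i k) ((T.ampι N M) (k, j)) =
      (((N : ℝ) ^ (-(1 / 2) : ℝ) : ℝ) : ℂ) • T.ι (X i k * M k j) := by
    intro k
    rw [T.ampι_apply, map_smul, T.Lm_ι]
  rw [Finset.sum_congr rfl fun k _ => h3 k, ← Finset.smul_sum, ← map_sum]
  congr 2

theorem TrAlg.mP_Lm (X : Mat N A) (ζ : MatK N K) (i j : Fin N) :
    mP N K (i, j) ((T.amp N).Lm X ζ) = ∑ k, T.Lm (X i k) (mP N K (k, j) ζ) :=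
  T.amp_Lm_apply N X ζ i j

theorem TrAlg.Lm_mI (X : Mat N A) (ξ : K) (k j : Fin N) :
    (T.amp N).Lm X (mI N K (k, j) ξ) = ∑ i, mI N K (i, j) (T.Lm (X i k) ξ) := by
  ext ⟨a, b⟩
  rw [T.amp_Lm_apply, WithLp.ofLp_sum, Finset.sum_apply]
  by_cases hb : b = j
  · subst hb
    rw [Finset.sum_eq_single k, Finset.sum_eq_single a]
    · rw [mI_apply, mI_apply, if_pos rfl, if_pos rfl]
    · intro i _ hi
      rw [mI_apply, if_neg]
      exact fun h => hi (Prod.mk.inj h).1.symm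
    · intro h
      exact absurd (Finset.mem_univ a) h
    · intro i _ hi
      rw [mI_apply, if_neg, map_zero]
      exact fun h => hi (Prod.mk.inj h).1
    · intro h
      exact absurd (Finset.mem_univ k) h
  · rw [Finset.sum_eq_zero, Finset.sum_eq_zero]
    · intro i _
      rw [mI_apply, if_neg]
      exact fun h => hb (Prod.mk.inj h).2
    · intro i _
      rw [mI_apply, if_neg, map_zero]
      exact fun h => hb (Prod.mk.inj h).2

end alg

section main
variable {A : Type u} [CStarAlgebra A] [PartialOrder A] [StarOrderedRing A]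
  {K : Type v} [NormedAddCommGroup K] [InnerProductSpace ℂ K] [CompleteSpace K]
variable {G : Type w} [Group G] [TopologicalSpace G] [IsTopologicalGroup G]
  [SecondCountableTopology G] [LocallyCompactSpace G] [MeasurableSpace G] [BorelSpace G]
  (μ : Measure G) [μ.IsHaarMeasure] {T : TrAlg A K} (S : TrAct G T) (N : ℕ) [NeZero N]

theorem oneT_sum {E : Type*} [NormedAddCommGroup E] [InnerProductSpace ℂ E] {E' : Type*}
    [NormedAddCommGroup E'] [InnerProductSpace ℂ E'] {J : Type*} (s : Finset J)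
    (f : J → E →L[ℂ] E') (ξ : Lp E 2 μ) :
    oneT μ (∑ i ∈ s, f i) ξ = ∑ i ∈ s, oneT μ (f i) ξ := by
  classical
  induction s using Finset.induction_on with
  | empty =>
    rw [Finset.sum_empty, Finset.sum_empty]
    apply Lp.ext
    filter_upwards [oneT_ae μ (0 : E →L[ℂ] E') ξ, Lp.coeFn_zero E' 2 μ] with g h1 h2
    rw [h1, h2]
    rfl
  | insert a s ha ih =>
    rw [Finset.sum_insert ha, Finset.sum_insert ha, ← ih]
    apply Lp.ext
    filter_upwards [oneT_ae μ (f a + ∑ i ∈ s, f i) ξ,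
      Lp.coeFn_add (oneT μ (f a) ξ) (oneT μ (∑ i ∈ s, f i) ξ), oneT_ae μ (f a) ξ,
      oneT_ae μ (∑ i ∈ s, f i) ξ] with g h1 h2 h3 h4
    rw [h1, h2, Pi.add_apply, h3, h4]
    rfl

theorem mP_mI_op (p q : Fin N × Fin N) (ξ : Lp K 2 μ) :
    oneT μ (mP N K p) (oneT μ (mI N K q) ξ) = if p = q then ξ else 0 := by
  rw [← oneT_comp]
  by_cases h : p = q
  · rw [if_pos h]
    apply Lp.ext
    filter_upwards [oneT_ae μ ((mP N K p).comp (mI N K q)) ξ] with g h1
    rw [h1]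
    change mP N K p (mI N K q (ξ g)) = ξ g
    rw [mP_mI, if_pos h]
  · rw [if_neg h]
    apply Lp.ext
    filter_upwards [oneT_ae μ ((mP N K p).comp (mI N K q)) ξ, Lp.coeFn_zero K 2 μ] with g h1 h2
    rw [h1, h2]
    change mP N K p (mI N K q (ξ g)) = 0
    rw [mP_mI, if_neg h]

theorem sum_mI_mP_op (ζ : Lp (MatK N K) 2 μ) :
    ∑ p, oneT μ (mI N K p) (oneT μ (mP N K p) ζ) = ζ := by
  have h1 : ∀ p, oneT μ (mI N K p) (oneT μ (mP N K p) ζ) =
      oneT μ ((mI N K p).comp (mP N K p)) ζ := fun p => (oneT_comp _ _ _ _).symm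
  rw [Finset.sum_congr rfl fun p _ => h1 p, ← oneT_sum]
  apply Lp.ext
  filter_upwards [oneT_ae μ (∑ p, (mI N K p).comp (mP N K p)) ζ] with g h2
  rw [h2, sum_apply]
  exact sum_mI_mP (ζ g)

theorem TrAct.mP_pi (X : Mat N A) (ζ : Lp (MatK N K) 2 μ) (i j : Fin N) :
    oneT μ (mP N K (i, j)) ((S.amp N).pi μ X ζ) =
      ∑ k, S.pi μ (X i k) (oneT μ (mP N K (k, j)) ζ) := by
  apply Lp.ext
  have h0 : ∀ᵐ g ∂μ, ∀ k, (S.pi μ (X i k) (oneT μ (mP N K (k, j)) ζ)) g =
      T.Lm (S.α g⁻¹ (X i k)) (mP N K (k, j) (ζ g)) := by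
    refine ae_all_iff.2 fun k => ?_
    filter_upwards [S.pi_ae μ (X i k) (oneT μ (mP N K (k, j)) ζ),
      oneT_ae μ (mP N K (k, j)) ζ] with g h1 h2
    rw [h1, h2]
  filter_upwards [oneT_ae μ (mP N K (i, j)) ((S.amp N).pi μ X ζ), (S.amp N).pi_ae μ X ζ,
    Lp.coeFn_finsetSum Finset.univ (fun k => S.pi μ (X i k) (oneT μ (mP N K (k, j)) ζ)), h0]
    with g h1 h2 h3 h4
  rw [h1, h2, h3, T.mP_Lm, Finset.sum_apply]
  refine Finset.sum_congr rfl fun k _ => ?_
  rw [h4]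
  rfl

theorem TrAct.pi_mI (X : Mat N A) (ξ : Lp K 2 μ) (k j : Fin N) :
    (S.amp N).pi μ X (oneT μ (mI N K (k, j)) ξ) =
      ∑ i, oneT μ (mI N K (i, j)) (S.pi μ (X i k) ξ) := by
  apply Lp.ext
  have h0 : ∀ᵐ g ∂μ, ∀ i, (oneT μ (mI N K (i, j)) (S.pi μ (X i k) ξ)) g =
      mI N K (i, j) (T.Lm (S.α g⁻¹ (X i k)) (ξ g)) := by
    refine ae_all_iff.2 fun i => ?_
    filter_upwards [oneT_ae μ (mI N K (i, j)) (S.pi μ (X i k) ξ), S.pi_ae μ (X i k) ξ]
      with g h1 h2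
    rw [h1, h2]
  filter_upwards [(S.amp N).pi_ae μ X (oneT μ (mI N K (k, j)) ξ), oneT_ae μ (mI N K (k, j)) ξ,
    Lp.coeFn_finsetSum Finset.univ (fun i => oneT μ (mI N K (i, j)) (S.pi μ (X i k) ξ)), h0]
    with g h1 h2 h3 h4
  rw [h1, h2, h3, T.Lm_mI, Finset.sum_apply]
  refine Finset.sum_congr rfl fun i _ => ?_
  rw [h4]
  rfl

theorem TrAct.pi_zeroSO : S.pi μ (0 : A) = 0 := by
  have h := S.pi_sub μ (0 : A) 0
  rw [sub_self, sub_self] at h
  exact h

/-- **strict outerness passes to matrices** -/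
theorem TrAct.SO_amp_mat (hSO : S.SO μ Set.univ) : (S.amp N).SO μ Set.univ := by
  classical
  intro n hn hnpi
  rw [Set.mem_centralizer_iff] at hn
  have hcomm : ∀ c : MatK N K →L[ℂ] MatK N K, (T.amp N).CommL c →
      ∀ ζ, n (oneT μ c ζ) = oneT μ c (n ζ) := by
    intro c hc ζ
    have h1 : oneT μ c * n = n * oneT μ c := by
      refine hn _ ?_
      rw [Set.mem_centralizer_iff]
      rintro _ (⟨x, rfl⟩ | ⟨s, rfl⟩)
      · exact (S.amp N).pi_comm μ x c hc
      · ext1 ξ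
        exact (oneT_lam μ c s ξ).symm
    exact (congrArg (fun L : Lp (MatK N K) 2 μ →L[ℂ] Lp (MatK N K) 2 μ => L ζ) h1).symm
  have hpi : ∀ (X : Mat N A) ζ, n ((S.amp N).pi μ X ζ) = (S.amp N).pi μ X (n ζ) := fun X ζ =>
    congrArg (fun L : Lp (MatK N K) 2 μ →L[ℂ] Lp (MatK N K) 2 μ => L ζ) (hnpi X trivial)
  -- the right matrix units
  have hR : ∀ (j l : Fin N) ζ,
      n (∑ i, oneT μ (mI N K (i, j)) (oneT μ (mP N K (i, l)) ζ)) =
        ∑ i, oneT μ (mI N K (i, j)) (oneT μ (mP N K (i, l)) (n ζ)) := by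
    intro j l ζ
    obtain ⟨c, hc⟩ : ∃ c : MatK N K →L[ℂ] MatK N K,
        c = ∑ i, (mI N K (i, j)).comp (mP N K (i, l)) := ⟨_, rfl⟩
    have hcL : (T.amp N).CommL c := by
      intro X
      ext1 η
      rw [hc]
      change (∑ i, (mI N K (i, j)).comp (mP N K (i, l))) ((T.amp N).Lm X η) =
        (T.amp N).Lm X ((∑ i, (mI N K (i, j)).comp (mP N K (i, l))) η)
      rw [sum_apply, sum_apply, map_sum]
      have h1 : ∀ i, ((mI N K (i, j)).comp (mP N K (i, l))) ((T.amp N).Lm X η) =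
          ∑ k, mI N K (i, j) (T.Lm (X i k) (mP N K (k, l) η)) := by
        intro i
        change mI N K (i, j) (mP N K (i, l) ((T.amp N).Lm X η)) = _
        rw [T.mP_Lm, map_sum]
      have h2 : ∀ k, (T.amp N).Lm X (((mI N K (k, j)).comp (mP N K (k, l))) η) =
          ∑ i, mI N K (i, j) (T.Lm (X i k) (mP N K (k, l) η)) := by
        intro k
        exact T.Lm_mI N X _ k j
      rw [Finset.sum_congr rfl fun i _ => h1 i, Finset.sum_congr rfl fun k _ => h2 k,
        Finset.sum_comm]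
    have h3 : ∀ ζ : Lp (MatK N K) 2 μ, oneT μ c ζ =
        ∑ i, oneT μ (mI N K (i, j)) (oneT μ (mP N K (i, l)) ζ) := by
      intro ζ
      rw [hc, oneT_sum]
      exact Finset.sum_congr rfl fun i _ => oneT_comp _ _ _ _
    rw [← h3, ← h3]
    exact hcomm c hcL ζ
  -- the matrix units
  have hM : ∀ (p q : Fin N × Fin N) ζ,
      n (oneT μ (mI N K p) (oneT μ (mP N K q) ζ)) =
        oneT μ (mI N K p) (oneT μ (mP N K q) (n ζ)) := by
    rintro ⟨i, j⟩ ⟨k, l⟩ ζ
    obtain ⟨X, hX⟩ : ∃ X : Mat N A, X = ent N i k (1 : A) := ⟨_, rfl⟩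
    have h1 : ∀ ζ : Lp (MatK N K) 2 μ,
        (S.amp N).pi μ X (∑ a, oneT μ (mI N K (a, j)) (oneT μ (mP N K (a, l)) ζ)) =
          oneT μ (mI N K (i, j)) (oneT μ (mP N K (k, l)) ζ) := by
      intro ζ
      rw [map_sum]
      have h2 : ∀ a, (S.amp N).pi μ X (oneT μ (mI N K (a, j)) (oneT μ (mP N K (a, l)) ζ)) =
          if a = k then oneT μ (mI N K (i, j)) (oneT μ (mP N K (k, l)) ζ) else 0 := by
        intro a
        rw [S.pi_mI μ, Finset.sum_eq_single i]
        · rw [hX, ent_apply, if_pos rfl]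
          by_cases h : a = k
          · rw [if_pos h.symm.symm, if_pos h, S.pi_one μ, h]
            rfl
          · rw [if_neg h, if_neg h, S.pi_zeroSO μ]
            exact map_zero _
        · intro b _ hb
          rw [hX, ent_apply, if_neg hb, S.pi_zeroSO μ]
          exact map_zero _
        · intro h
          exact absurd (Finset.mem_univ i) h
      rw [Finset.sum_congr rfl fun a _ => h2 a, Finset.sum_ite_eq' Finset.univ k,
        if_pos (Finset.mem_univ k)]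
    rw [← h1, hpi, hR, h1]
  -- the operator on one entry
  obtain ⟨n0, hn0⟩ : ∃ n0 : Lp K 2 μ →L[ℂ] Lp K 2 μ,
      n0 = ((oneT μ (mP N K (0, 0))).comp n).comp (oneT μ (mI N K (0, 0))) := ⟨_, rfl⟩
  have hn0a : ∀ ξ, n0 ξ = oneT μ (mP N K (0, 0)) (n (oneT μ (mI N K (0, 0)) ξ)) := fun ξ => by
    rw [hn0]; rfl
  have hnI : ∀ p ξ, n (oneT μ (mI N K p) ξ) = oneT μ (mI N K p) (n0 ξ) := by
    intro p ξ
    have h1 := hM p (0, 0) (oneT μ (mI N K (0, 0)) ξ)
    rw [mP_mI_op, if_pos rfl] at h1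
    rw [h1, hn0a]
  have hfull : ∀ ζ, n ζ = ∑ p, oneT μ (mI N K p) (n0 (oneT μ (mP N K p) ζ)) := by
    intro ζ
    conv_lhs => rw [← sum_mI_mP_op μ N ζ, map_sum]
    exact Finset.sum_congr rfl fun p _ => hnI p _
  have h0mem : n0 ∈ Set.centralizer (Set.centralizer
      (Set.range (S.pi μ) ∪ Set.range (lam μ K).U)) := by
    rw [Set.mem_centralizer_iff]
    intro c hc
    rw [Set.mem_centralizer_iff] at hc
    have hcpi : ∀ x ξ, c (S.pi μ x ξ) = S.pi μ x (c ξ) := fun x ξ =>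
      (congrArg (fun L : Lp K 2 μ →L[ℂ] Lp K 2 μ => L ξ) (hc _ (Or.inl ⟨x, rfl⟩))).symm
    have hcl : ∀ s ξ, c ((lam μ K).U s ξ) = (lam μ K).U s (c ξ) := fun s ξ =>
      (congrArg (fun L : Lp K 2 μ →L[ℂ] Lp K 2 μ => L ξ) (hc _ (Or.inr ⟨s, rfl⟩))).symm
    obtain ⟨C, hC⟩ : ∃ C : Lp (MatK N K) 2 μ →L[ℂ] Lp (MatK N K) 2 μ,
        C = ∑ p, ((oneT μ (mI N K p)).comp c).comp (oneT μ (mP N K p)) := ⟨_, rfl⟩
    have hCa : ∀ ζ, C ζ = ∑ p, oneT μ (mI N K p) (c (oneT μ (mP N K p) ζ)) := fun ζ => by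
      rw [hC, sum_apply]; rfl
    have h1 : C * n = n * C := by
      refine hn _ ?_
      rw [Set.mem_centralizer_iff]
      rintro _ (⟨X, rfl⟩ | ⟨s, rfl⟩)
      · ext1 ζ
        change (S.amp N).pi μ X (C ζ) = C ((S.amp N).pi μ X ζ)
        rw [hCa, hCa, map_sum, Fintype.sum_prod_type, Fintype.sum_prod_type]
        have h2 : ∀ k j, (S.amp N).pi μ X (oneT μ (mI N K (k, j))
            (c (oneT μ (mP N K (k, j)) ζ))) = ∑ i, oneT μ (mI N K (i, j))
            (S.pi μ (X i k) (c (oneT μ (mP N K (k, j)) ζ))) := fun k j => S.pi_mI μ N X _ k j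
        have h3 : ∀ i j, oneT μ (mI N K (i, j)) (c (oneT μ (mP N K (i, j))
            ((S.amp N).pi μ X ζ))) = ∑ k, oneT μ (mI N K (i, j))
            (S.pi μ (X i k) (c (oneT μ (mP N K (k, j)) ζ))) := by
          intro i j
          rw [S.mP_pi μ, map_sum, map_sum]
          exact Finset.sum_congr rfl fun k _ => by rw [hcpi]
        rw [Finset.sum_congr rfl fun k _ => Finset.sum_congr rfl fun j _ => h2 k j,
          Finset.sum_congr rfl fun i _ => Finset.sum_congr rfl fun j _ => h3 i j]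
        have h4 : ∀ k, ∑ j, ∑ i, oneT μ (mI N K (i, j))
            (S.pi μ (X i k) (c (oneT μ (mP N K (k, j)) ζ))) =
            ∑ i, ∑ j, oneT μ (mI N K (i, j))
            (S.pi μ (X i k) (c (oneT μ (mP N K (k, j)) ζ))) := fun k => Finset.sum_comm
        rw [Finset.sum_congr rfl fun k _ => h4 k, Finset.sum_comm]
        exact Finset.sum_congr rfl fun i _ => Finset.sum_comm
      · ext1 ζ
        change (lam μ (MatK N K)).U s (C ζ) = C ((lam μ (MatK N K)).U s ζ)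
        rw [hCa, hCa, map_sum]
        refine Finset.sum_congr rfl fun p _ => ?_
        rw [← oneT_lam, oneT_lam μ (mP N K p), hcl]
    ext1 ξ
    change c (n0 ξ) = n0 (c ξ)
    have h2 := congrArg (fun L : Lp (MatK N K) 2 μ →L[ℂ] Lp (MatK N K) 2 μ =>
      oneT μ (mP N K (0, 0)) (L (oneT μ (mI N K (0, 0)) ξ))) h1
    change oneT μ (mP N K (0, 0)) (C (n (oneT μ (mI N K (0, 0)) ξ))) =
      oneT μ (mP N K (0, 0)) (n (C (oneT μ (mI N K (0, 0)) ξ))) at h2
    have h3 : ∀ ξ, C (oneT μ (mI N K (0, 0)) ξ) = oneT μ (mI N K (0, 0)) (c ξ) := by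
      intro ξ
      rw [hCa, Finset.sum_eq_single ((0, 0) : Fin N × Fin N)]
      · rw [mP_mI_op, if_pos rfl]
      · intro p _ hp
        rw [mP_mI_op, if_neg hp, map_zero, map_zero]
      · intro h
        exact absurd (Finset.mem_univ _) h
    rw [hnI, h3, h3, hnI, mP_mI_op, mP_mI_op, if_pos rfl, if_pos rfl] at h2
    exact h2
  have h0pi : ∀ x ∈ (Set.univ : Set A), n0 * S.pi μ x = S.pi μ x * n0 := by
    intro x _
    ext1 ξ
    change n0 (S.pi μ x ξ) = S.pi μ x (n0 ξ)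
    have h1 : ∀ ξ, (S.amp N).pi μ (dg N x) (oneT μ (mI N K (0, 0)) ξ) =
        oneT μ (mI N K (0, 0)) (S.pi μ x ξ) := by
      intro ξ
      rw [S.pi_mI μ, Finset.sum_eq_single (0 : Fin N)]
      · rw [dg_apply, if_pos rfl]
      · intro i _ hi
        rw [dg_apply, if_neg hi, S.pi_zeroSO μ]
        exact map_zero _
      · intro h
        exact absurd (Finset.mem_univ _) h
    have h2 := hpi (dg N x) (oneT μ (mI N K (0, 0)) ξ)
    rw [h1, hnI, hnI, h1] at h2
    have h3 := congrArg (oneT μ (mP N K (0, 0))) h2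
    rwa [mP_mI_op, mP_mI_op, if_pos rfl, if_pos rfl] at h3
  obtain ⟨z, hz⟩ := hSO n0 h0mem h0pi
  refine ⟨z, ?_⟩
  ext1 ζ
  rw [hfull]
  change _ = z • ζ
  conv_rhs => rw [← sum_mI_mP_op μ N ζ, Finset.smul_sum]
  refine Finset.sum_congr rfl fun p _ => ?_
  rw [hz]
  change oneT μ (mI N K p) (z • (oneT μ (mP N K p) ζ)) = _
  rw [map_smul]

end main

end Pool.Agent.AbCoc
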