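import Pool.Agent.Lib_MP_418a80_hyp.Tilde

/-!
# The operators `Jn φ` and the amplification, for two groups

`E = L²(N; L²(G; H))`, `(Jn φ ζ)(t) = φ ⊗ ζ(t)`, `Ã (Jn φ ζ) = Jn φ (A ζ)`.
-/

set_option autoImplicit false
set_option linter.unusedSectionVars false

open MeasureTheory Topology Filter
open scoped ENNReal

namespace Pool.Agent.AbCoc

universe u v w x z

variable {G : Type u} [Group G] [TopologicalSpace G] [IsTopologicalGroup G]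
  [SecondCountableTopology G] [LocallyCompactSpace G] [MeasurableSpace G] [BorelSpace G]
  (μ : Measure G) [μ.IsHaarMeasure]
variable {N : Type z} [Group N] [TopologicalSpace N] [IsTopologicalGroup N]
  [SecondCountableTopology N] [LocallyCompactSpace N] [MeasurableSpace N] [BorelSpace N]
  (ν : Measure N) [ν.IsHaarMeasure]
variable {H : Type v} [NormedAddCommGroup H] [InnerProductSpace ℂ H] [CompleteSpace H]

/-- `(J φ ζ)(t) = φ ⊗ ζ(t)` -/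
noncomputable def Jn (φ : Lp ℂ 2 μ) : Lp H 2 ν →L[ℂ] Lp (Lp H 2 μ) 2 ν := oneT ν (tensL μ H φ)

theorem Jn_tens (φ : Lp ℂ 2 μ) (ψ : Lp ℂ 2 ν) (η : H) : Jn μ ν φ (tens ν η ψ) = tens ν (tens μ η φ) ψ :=
  oneT_tensW ν (tensL μ H φ) η ψ

theorem Jn_ae (φ : Lp ℂ 2 μ) (ζ : Lp H 2 ν) : Jn μ ν φ ζ =ᵐ[ν] fun t => tens μ (ζ t) φ :=
  oneT_ae ν (tensL μ H φ) ζ

theorem Jn_inner (φ ψ : Lp ℂ 2 μ) (ζ ζ' : Lp H 2 ν) :
    inner ℂ (Jn μ ν φ ζ) (Jn μ ν ψ ζ') = inner ℂ φ ψ * inner ℂ ζ ζ' := by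
  rw [L2.inner_def, L2.inner_def (𝕜 := ℂ) ζ ζ', ← integral_const_mul]
  refine integral_congr_ae ?_
  filter_upwards [Jn_ae μ ν φ ζ, Jn_ae μ ν ψ ζ'] with g h1 h2
  rw [h1, h2, tens_inner]

theorem norm_Jn (φ : Lp ℂ 2 μ) (ζ : Lp H 2 ν) : ‖Jn μ ν φ ζ‖ = ‖φ‖ * ‖ζ‖ := by
  have h1 := Jn_inner μ ν φ φ ζ ζ
  rw [inner_self_eq_norm_sq_to_K, inner_self_eq_norm_sq_to_K, inner_self_eq_norm_sq_to_K] at h1
  have h2 : ‖Jn μ ν φ ζ‖ ^ 2 = (‖φ‖ * ‖ζ‖) ^ 2 := by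
    rw [mul_pow]
    exact_mod_cast h1
  exact (pow_left_inj₀ (norm_nonneg _) (by positivity) two_ne_zero).1 h2

theorem Jn_add (φ ψ : Lp ℂ 2 μ) (ζ : Lp H 2 ν) : Jn μ ν (φ + ψ) ζ = Jn μ ν φ ζ + Jn μ ν ψ ζ := by
  apply Lp.ext
  filter_upwards [Jn_ae μ ν (φ + ψ) ζ, Jn_ae μ ν φ ζ, Jn_ae μ ν ψ ζ, Lp.coeFn_add (Jn μ ν φ ζ) (Jn μ ν ψ ζ)]
    with g h1 h2 h3 h4
  rw [h1, h4, Pi.add_apply, h2, h3, map_add]

theorem Jn_smul (c : ℂ) (φ : Lp ℂ 2 μ) (ζ : Lp H 2 ν) : Jn μ ν (c • φ) ζ = c • Jn μ ν φ ζ := by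
  apply Lp.ext
  filter_upwards [Jn_ae μ ν (c • φ) ζ, Jn_ae μ ν φ ζ, Lp.coeFn_smul c (Jn μ ν φ ζ)] with g h1 h2 h4
  rw [h1, h4, Pi.smul_apply, h2, map_smul]

/-- `φ ↦ J φ ζ` -/
noncomputable def Jnl (ζ : Lp H 2 ν) : Lp ℂ 2 μ →L[ℂ] Lp (Lp H 2 μ) 2 ν :=
  LinearMap.mkContinuous
    { toFun := fun φ => Jn μ ν φ ζ
      map_add' := fun φ ψ => Jn_add μ ν φ ψ ζ
      map_smul' := fun c φ => Jn_smul μ ν c φ ζ } ‖ζ‖
    (fun φ => by rw [mul_comm]; exact (norm_Jn μ ν φ ζ).le)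

theorem Jnl_apply (ζ : Lp H 2 ν) (φ : Lp ℂ 2 μ) : Jnl μ ν ζ φ = Jn μ ν φ ζ := rfl

/-- operators on `E` agreeing on all `J φ ζ` are equal -/
theorem ext_Jn {F : Type w} [NormedAddCommGroup F] [InnerProductSpace ℂ F]
    {C D : Lp (Lp H 2 μ) 2 ν →L[ℂ] F} (h : ∀ φ ζ, C (Jn μ ν φ ζ) = D (Jn μ ν φ ζ)) : C = D := by
  refine ext_tens ν fun κ ψ => ?_
  have h1 : C.comp (tensL ν (Lp H 2 μ) ψ) = D.comp (tensL ν (Lp H 2 μ) ψ) := by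
    refine ext_tens μ fun η φ => ?_
    change C (tens ν (tens μ η φ) ψ) = D (tens ν (tens μ η φ) ψ)
    rw [← Jn_tens]
    exact h φ _
  exact congrArg (fun L : Lp H 2 μ →L[ℂ] F => L κ) h1

theorem ext_inner_Jn {x y : Lp (Lp H 2 μ) 2 ν}
    (h : ∀ φ (ζ : Lp H 2 ν), inner ℂ x (Jn μ ν φ ζ) = inner ℂ y (Jn μ ν φ ζ)) : x = y := by
  have h1 : innerSL ℂ (x - y) = 0 := by
    refine ext_Jn μ ν fun φ ζ => ?_
    rw [innerSL_apply_apply, inner_sub_left, h φ ζ, sub_self]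
    rfl
  have h2 : inner ℂ (x - y) (x - y) = (0 : ℂ) := by
    rw [← innerSL_apply_apply ℂ, h1]
    rfl
  exact sub_eq_zero.1 (inner_self_eq_zero.1 h2)

theorem exists_tilden (A : Lp H 2 ν →L[ℂ] Lp H 2 ν) :
    ∃ B : Lp (Lp H 2 μ) 2 ν →L[ℂ] Lp (Lp H 2 μ) 2 ν, ∀ φ ζ, B (Jn μ ν φ ζ) = Jn μ ν φ (A ζ) :=
  exists_amplified (Jn μ ν) (Jnl μ ν) (fun φ ζ => Jnl_apply μ ν ζ φ) (Jn_inner μ ν)
    (fun x hx => ext_inner_Jn μ ν fun φ ζ => by rw [hx, inner_zero_left]) A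

/-- the amplification `Ã` of `A` -/
noncomputable def tilden (A : Lp H 2 ν →L[ℂ] Lp H 2 ν) :
    Lp (Lp H 2 μ) 2 ν →L[ℂ] Lp (Lp H 2 μ) 2 ν := (exists_tilden μ ν A).choose

theorem tilden_Jn (A : Lp H 2 ν →L[ℂ] Lp H 2 ν) (φ : Lp ℂ 2 μ) (ζ : Lp H 2 ν) :
    tilden μ ν A (Jn μ ν φ ζ) = Jn μ ν φ (A ζ) := (exists_tilden μ ν A).choose_spec φ ζ

theorem tilden_unique {A : Lp H 2 ν →L[ℂ] Lp H 2 ν}
    {B : Lp (Lp H 2 μ) 2 ν →L[ℂ] Lp (Lp H 2 μ) 2 ν} (h : ∀ φ ζ, B (Jn μ ν φ ζ) = Jn μ ν φ (A ζ)) :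
    B = tilden μ ν A :=
  ext_Jn μ ν fun φ ζ => by rw [h, tilden_Jn]

theorem tilden_mul (A B : Lp H 2 ν →L[ℂ] Lp H 2 ν) :
    tilden μ ν (A * B) = tilden μ ν A * tilden μ ν B := by
  symm
  refine tilden_unique μ ν fun φ ζ => ?_
  change tilden μ ν A (tilden μ ν B (Jn μ ν φ ζ)) = Jn μ ν φ (A (B ζ))
  rw [tilden_Jn, tilden_Jn]

theorem tilden_star (A : Lp H 2 ν →L[ℂ] Lp H 2 ν) : tilden μ ν (star A) = star (tilden μ ν A) := by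
  symm
  refine tilden_unique μ ν fun φ ζ => ?_
  refine ext_inner_Jn μ ν fun ψ ζ' => ?_
  rw [ContinuousLinearMap.star_eq_adjoint, ContinuousLinearMap.adjoint_inner_left, tilden_Jn,
    Jn_inner, Jn_inner, ContinuousLinearMap.star_eq_adjoint, ContinuousLinearMap.adjoint_inner_left]

/-- `Ã` commutes with `T` if `A` commutes with all the coefficients of `T` -/
theorem commute_tilden_iff (A : Lp H 2 ν →L[ℂ] Lp H 2 ν)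
    (T : Lp (Lp H 2 μ) 2 ν →L[ℂ] Lp (Lp H 2 μ) 2 ν) :
    tilden μ ν A * T = T * tilden μ ν A ↔
      ∀ φ ψ : Lp ℂ 2 μ, A * ((Jn μ ν ψ).adjoint.comp (T.comp (Jn μ ν φ))) =
        ((Jn μ ν ψ).adjoint.comp (T.comp (Jn μ ν φ))) * A := by
  have e1 : ∀ (φ ψ : Lp ℂ 2 μ) (ζ ζ' : Lp H 2 ν),
      inner ℂ ((A * ((Jn μ ν ψ).adjoint.comp (T.comp (Jn μ ν φ)))) ζ) ζ' =
        inner ℂ ((tilden μ ν A * T) (Jn μ ν φ ζ)) (Jn μ ν ψ ζ') := by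
    intro φ ψ ζ ζ'
    change inner ℂ (A ((Jn μ ν ψ).adjoint (T (Jn μ ν φ ζ)))) ζ' =
      inner ℂ (tilden μ ν A (T (Jn μ ν φ ζ))) (Jn μ ν ψ ζ')
    rw [← ContinuousLinearMap.adjoint_inner_right, ContinuousLinearMap.adjoint_inner_left,
      ← ContinuousLinearMap.star_eq_adjoint, ← tilden_Jn, tilden_star,
      ContinuousLinearMap.star_eq_adjoint, ContinuousLinearMap.adjoint_inner_right]
  have e2 : ∀ (φ ψ : Lp ℂ 2 μ) (ζ ζ' : Lp H 2 ν),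
      inner ℂ ((((Jn μ ν ψ).adjoint.comp (T.comp (Jn μ ν φ))) * A) ζ) ζ' =
        inner ℂ ((T * tilden μ ν A) (Jn μ ν φ ζ)) (Jn μ ν ψ ζ') := by
    intro φ ψ ζ ζ'
    change inner ℂ ((Jn μ ν ψ).adjoint (T (Jn μ ν φ (A ζ)))) ζ' =
      inner ℂ (T (tilden μ ν A (Jn μ ν φ ζ))) (Jn μ ν ψ ζ')
    rw [ContinuousLinearMap.adjoint_inner_left, tilden_Jn]
  constructor
  · intro h φ ψ
    ext1 ζ
    refine ext_inner_right ℂ fun ζ' => ?_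
    rw [e1, e2, h]
  · intro h
    refine ext_Jn μ ν fun φ ζ => ?_
    refine ext_inner_Jn μ ν fun ψ ζ' => ?_
    rw [← e1, ← e2, h]

end Pool.Agent.AbCoc
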