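import Pool.Agent.Lib_MP_418a80_un.UF5

/-!
# The union theorem for `V = 0` (compact open subgroups)
-/

set_option autoImplicit false
set_option linter.unusedVariables false
set_option linter.unusedSectionVars false

open MeasureTheory Topology Filter
open scoped ENNReal NNReal ComplexConjugate

namespace Pool.Agent.AbCoc

universe u v w z

section
variable {A : Type u} [CStarAlgebra A] {K : Type v} [NormedAddCommGroup K]
  [InnerProductSpace ℂ K] [CompleteSpace K]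
variable {G : Type w} [Group G] [TopologicalSpace G] [IsTopologicalGroup G] [T2Space G]
  [SecondCountableTopology G] [LocallyCompactSpace G] [MeasurableSpace G] [BorelSpace G]
  {T : TrAlg A K} (S : TrAct G T)
  {V : Type z} [NormedAddCommGroup V] [NormedSpace ℝ V] (Q : QMap G V)

/-- many cosets -/
theorem QMap.exists_cosets [Subsingleton V] [NoncompactSpace G] (N : ℕ) :
    ∃ t : Fin N → G, ∀ i k, i ≠ k → (t i)⁻¹ * t k ∉ Q.U := by
  have hc : IsCompact (Q.U : Set G) := by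
    have h1 := Q.proper Set.univ (Set.toFinite (Set.univ : Set V)).isCompact
    have h2 : {u | u ∈ Q.U ∧ Q.q u ∈ Set.univ} = (Q.U : Set G) := by
      ext u
      exact ⟨fun h => h.1, fun h => ⟨h, trivial⟩⟩
    rwa [h2] at h1
  have hinf : Infinite (G ⧸ Q.U) := by
    by_contra hfin
    rw [not_infinite_iff_finite] at hfin
    have h1 : (Set.univ : Set G) = ⋃ x : G ⧸ Q.U, (fun u => x.out * u) '' (Q.U : Set G) := by
      symm
      refine Set.eq_univ_of_forall fun g => Set.mem_iUnion.2 ⟨(g : G ⧸ Q.U), ?_⟩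
      refine ⟨((g : G ⧸ Q.U).out)⁻¹ * g, ?_, mul_inv_cancel_left _ _⟩
      exact QuotientGroup.eq.1 (QuotientGroup.out_eq' _)
    have h2 : IsCompact (Set.univ : Set G) := by
      rw [h1]
      exact isCompact_iUnion fun x => hc.image (continuous_const.mul continuous_id)
    exact noncompact_univ G h2
  refine ⟨fun i => (Infinite.natEmbedding (G ⧸ Q.U) i).out, fun i k hik h => hik ?_⟩
  have h1 := QuotientGroup.eq.2 h
  rw [QuotientGroup.out_eq', QuotientGroup.out_eq'] at h1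
  exact Fin.ext ((Infinite.natEmbedding (G ⧸ Q.U)).injective h1)

/-- A4 for `V = 0` -/
theorem TrAct.ineqB_of_ineqA_sub [Subsingleton V] [NoncompactSpace G] (b1 b2 : A) (δ : ℝ)
    (h : S.IneqA Q b1 b2 δ) : S.IneqB Q b1 b2 δ := by
  classical
  obtain ⟨C, R, n, g, m, m', d, hC, hgU, hd, hmain⟩ := h
  obtain ⟨N, hN⟩ := exists_nat_gt (8 * C)
  have hN0 : (0 : ℝ) < N := by linarith
  obtain ⟨t, ht⟩ := Q.exists_cosets N
  obtain ⟨I, hI⟩ : ∃ I : Type, I = (Fin n ⊕ {p : Fin N × Fin N // p.1 ≠ p.2}) := ⟨_, rfl⟩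
  have hIf : Fintype I := by rw [hI]; infer_instance
  obtain ⟨γ, hγ⟩ : ∃ γ : Fin n ⊕ {p : Fin N × Fin N // p.1 ≠ p.2} → G,
      γ = Sum.elim g fun p => (t p.1.1)⁻¹ * t p.1.2 := ⟨_, rfl⟩
  obtain ⟨w, hw⟩ : ∃ w : Fin n ⊕ {p : Fin N × Fin N // p.1 ≠ p.2} → A,
      w = Sum.elim m fun _ => ((C * ((N : ℝ)⁻¹ * (N : ℝ)⁻¹) : ℝ) : ℂ) • (1 : A) := ⟨_, rfl⟩
  obtain ⟨w', hw'⟩ : ∃ w' : Fin n ⊕ {p : Fin N × Fin N // p.1 ≠ p.2} → A,
      w' = Sum.elim m' fun _ => 0 := ⟨_, rfl⟩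
  obtain ⟨e⟩ : Nonempty (Fin (Fintype.card (Fin n ⊕ {p : Fin N × Fin N // p.1 ≠ p.2})) ≃
      (Fin n ⊕ {p : Fin N × Fin N // p.1 ≠ p.2})) := ⟨(Fintype.equivFin _).symm⟩
  refine ⟨C, R, 0, _, fun i => γ (e i), fun i => w (e i), fun i => w' (e i), d, d, hC, ?_, hd, hd,
    ?_⟩
  · intro i
    refine ⟨?_, fun u _ _ => Subsingleton.elim _ _⟩
    have h1 : ∀ y, γ y ∉ Q.U := by
      rw [hγ]
      rintro (k | p)
      · exact hgU k
      · exact ht _ _ p.2
    exact h1 (e i)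
  · intro x a κ hax hκ hnear
    have h1 := hmain x a κ hax hκ (by
      intro l hl hlR
      have h2 := hnear l hl hlR
      have h3 : chi (0 : V →L[ℝ] ℝ) (Q.q l) = 1 := by simp [chi]
      rwa [h3, one_smul] at h2)
    have hE : ‖T.ι (S.E a)‖ ^ 2 ≤ (N : ℝ)⁻¹ * ‖T.ι a‖ ^ 2 +
        ∑ p ∈ (Finset.univ : Finset (Fin N)).offDiag, S.ql ((t p.1)⁻¹ * t p.2)
          ((((N : ℝ)⁻¹ * (N : ℝ)⁻¹ : ℝ) : ℂ) • (1 : A)) a := by
      have h2 := S.norm_sq_comb t Finset.univ (fun _ => (N : ℝ)⁻¹) a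
      have h3 : ∑ i : Fin N, ((N : ℝ)⁻¹) ^ 2 = (N : ℝ)⁻¹ := by
        rw [Finset.sum_const, Finset.card_univ, Fintype.card_fin, nsmul_eq_mul, pow_two,
          ← mul_assoc, mul_inv_cancel₀ hN0.ne', one_mul]
      rw [h3] at h2
      rw [← h2]
      have h4 : S.E (∑ i : Fin N, (((N : ℝ)⁻¹ : ℝ) : ℂ) • S.α (t i) a) = S.E a := by
        rw [S.E_sum]
        have h5 : ∀ i : Fin N, S.E ((((N : ℝ)⁻¹ : ℝ) : ℂ) • S.α (t i) a) =
            (((N : ℝ)⁻¹ : ℝ) : ℂ) • S.E a := by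
          intro i
          rw [S.E_smul, S.E_α]
        rw [Finset.sum_congr rfl fun i _ => h5 i, Finset.sum_const, Finset.card_univ,
          Fintype.card_fin, ← Nat.cast_smul_eq_nsmul ℂ, smul_smul]
        have h6 : (N : ℂ) * (((N : ℝ)⁻¹ : ℝ) : ℂ) = 1 := by
          push_cast
          exact mul_inv_cancel₀ (by exact_mod_cast hN0.ne')
        rw [h6, one_smul]
      rw [← h4]
      exact pow_le_pow_left₀ (norm_nonneg _) (S.norm_E_le _) 2
    have hsum : ∑ i, (S.ql (γ (e i)) (w (e i)) a + S.qr (γ (e i)) (w' (e i)) a) =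
        ∑ i, (S.ql (g i) (m i) a + S.qr (g i) (m' i) a) +
        C * ∑ p ∈ (Finset.univ : Finset (Fin N)).offDiag, S.ql ((t p.1)⁻¹ * t p.2)
          ((((N : ℝ)⁻¹ * (N : ℝ)⁻¹ : ℝ) : ℂ) • (1 : A)) a := by
      rw [e.sum_comp (fun y => S.ql (γ y) (w y) a + S.qr (γ y) (w' y) a), Fintype.sum_sum_type,
        hγ, hw, hw']
      congr 1
      rw [Finset.mul_sum, Finset.sum_subtype ((Finset.univ : Finset (Fin N)).offDiag)
        (p := fun p : Fin N × Fin N => p.1 ≠ p.2) (fun p => by simp [Finset.mem_offDiag])]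
      refine Finset.sum_congr rfl fun p _ => ?_
      change S.ql ((t p.1.1)⁻¹ * t p.1.2)
          (((C * ((N : ℝ)⁻¹ * (N : ℝ)⁻¹) : ℝ) : ℂ) • (1 : A)) a +
          S.qr ((t p.1.1)⁻¹ * t p.1.2) 0 a = _
      unfold TrAct.ql TrAct.qr
      rw [mul_zero, map_zero, inner_zero_right, Complex.zero_re, add_zero, smul_mul_assoc,
        smul_mul_assoc, map_smul, map_smul, inner_smul_right, inner_smul_right,
        Complex.re_ofReal_mul, Complex.re_ofReal_mul]
      ring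
    rw [hsum]
    have h2 : C * ‖T.ι (S.E a)‖ ^ 2 ≤ ‖T.ι a‖ ^ 2 / 8 +
        C * ∑ p ∈ (Finset.univ : Finset (Fin N)).offDiag, S.ql ((t p.1)⁻¹ * t p.2)
          ((((N : ℝ)⁻¹ * (N : ℝ)⁻¹ : ℝ) : ℂ) • (1 : A)) a := by
      refine (mul_le_mul_of_nonneg_left hE hC).trans ?_
      rw [mul_add, ← mul_assoc]
      have h3 : C * (N : ℝ)⁻¹ ≤ 1 / 8 := by
        rw [← div_eq_mul_inv, div_le_div_iff₀ hN0 (by norm_num)]
        linarith
      have h4 := mul_le_mul_of_nonneg_right h3 (sq_nonneg ‖T.ι a‖)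
      linarith
    linarith

end

end Pool.Agent.AbCoc
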