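import Pool.Agent.Lib_MP_418a80_hyp.HZ

/-!
# Reiter's condition passes to closed subgroups
-/

set_option autoImplicit false
set_option linter.unusedVariables false
set_option linter.unusedSectionVars false

open MeasureTheory Topology Filter Set
open scoped ENNReal Pointwise

namespace Pool.Agent.AbCoc

universe w z

section
variable {G : Type w} [Group G] [TopologicalSpace G] [IsTopologicalGroup G] [T2Space G]
  [SecondCountableTopology G] [LocallyCompactSpace G] [MeasurableSpace G] [BorelSpace G]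
  (μ : Measure G) [μ.IsHaarMeasure]
variable {N : Type z} [Group N] [TopologicalSpace N] [IsTopologicalGroup N]
  [SecondCountableTopology N] [LocallyCompactSpace N] [MeasurableSpace N] [BorelSpace N]
  (ν : Measure N) [ν.IsHaarMeasure] (j : N →* G) (hj : Continuous j)

private theorem rs_pre (hj' : IsClosedEmbedding j) {φ H : G → ℝ} (hφ : HasCompactSupport φ)
    (hH : HasCompactSupport H) : IsCompact (j ⁻¹' (tsupport H * (tsupport φ)⁻¹)) :=
  hj'.isCompact_preimage (hH.isCompact.mul hφ.isCompact.inv)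

private theorem rs_zero {φ H : G → ℝ} {n : N} {g : G} (hg : g ∈ tsupport H)
    (hn : n ∉ j ⁻¹' (tsupport H * (tsupport φ)⁻¹)) : φ ((j n)⁻¹ * g) = 0 := by
  by_contra h
  apply hn
  rw [Set.mem_preimage]
  have h1 : (j n)⁻¹ * g ∈ tsupport φ := subset_tsupport _ h
  have h2 := Set.mul_mem_mul hg (Set.inv_mem_inv.2 h1)
  have h3 : g * ((j n)⁻¹ * g)⁻¹ = j n := by group
  rwa [h3] at h2

private theorem rs_cs (hj' : IsClosedEmbedding j) {φ H : G → ℝ}
    (hφ : HasCompactSupport φ) (hH : HasCompactSupport H) :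
    HasCompactSupport (Function.uncurry fun (n : N) (g : G) => φ ((j n)⁻¹ * g) * H g) := by
  refine HasCompactSupport.intro ((rs_pre j hj' hφ hH).prod hH.isCompact) ?_
  rintro ⟨n, g⟩ hp
  change φ ((j n)⁻¹ * g) * H g = 0
  by_cases hg : g ∈ tsupport H
  · rw [rs_zero j hg fun h => hp ⟨h, hg⟩, zero_mul]
  · rw [image_eq_zero_of_notMem_tsupport hg, mul_zero]

private theorem rs_cont (hj : Continuous j) {φ H : G → ℝ} (hφ : Continuous φ) (hH : Continuous H) :
    Continuous (Function.uncurry fun (n : N) (g : G) => φ ((j n)⁻¹ * g) * H g) := by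
  refine Continuous.mul (hφ.comp ?_) (hH.comp continuous_snd)
  exact (hj.comp continuous_fst).inv.mul continuous_snd

private noncomputable def rsF (φ H : G → ℝ) (n : N) : ℝ := ∫ g, φ ((j n)⁻¹ * g) * H g ∂μ

private theorem rsF_cont (hj : Continuous j) {φ H : G → ℝ} (hφ : Continuous φ) (hH : Continuous H)
    (hHs : HasCompactSupport H) : Continuous (rsF μ j φ H : N → ℝ) := by
  have h1 := continuous_parametric_integral_of_continuous (μ := μ) (rs_cont j hj hφ hH)
    hHs.isCompact
  refine h1.congr fun n => ?_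
  refine setIntegral_eq_integral_of_forall_compl_eq_zero fun g hg => ?_
  rw [image_eq_zero_of_notMem_tsupport hg, mul_zero]

private theorem rsF_cs (hj' : IsClosedEmbedding j) {φ H : G → ℝ}
    (hφ : HasCompactSupport φ) (hH : HasCompactSupport H) :
    HasCompactSupport (rsF μ j φ H : N → ℝ) := by
  refine HasCompactSupport.intro (rs_pre j hj' hφ hH) fun n hn => ?_
  refine (integral_congr_ae (Eventually.of_forall fun g => ?_)).trans (integral_zero _ _)
  by_cases hg : g ∈ tsupport H
  · simp only [rs_zero j hg hn, zero_mul]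
  · simp only [image_eq_zero_of_notMem_tsupport hg, mul_zero]

private noncomputable def rsW (φ : G → ℝ) (g : G) : ℝ := ∫ n, φ ((j n)⁻¹ * g) ∂ν

private theorem rsW_cs (hj' : IsClosedEmbedding j) {φ : G → ℝ}
    (hφs : HasCompactSupport φ) (g : G) : HasCompactSupport fun n : N => φ ((j n)⁻¹ * g) := by
  refine HasCompactSupport.intro (hj'.isCompact_preimage
    ((isCompact_singleton (x := g)).mul hφs.isCompact.inv)) fun n hn => ?_
  by_contra h
  apply hn
  rw [Set.mem_preimage]
  have h1 : (j n)⁻¹ * g ∈ tsupport φ := subset_tsupport _ h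
  have h2 := Set.mul_mem_mul (Set.mem_singleton g) (Set.inv_mem_inv.2 h1)
  have h3 : g * ((j n)⁻¹ * g)⁻¹ = j n := by group
  rwa [h3] at h2

private theorem rsW_cont (hj' : IsClosedEmbedding j) {φ : G → ℝ} (hφ : Continuous φ)
    (hφs : HasCompactSupport φ) : Continuous (rsW ν j φ) := by
  rw [continuous_iff_continuousAt]
  intro g0
  obtain ⟨s, hs, hs0⟩ := exists_compact_mem_nhds g0
  have h1 : ContinuousOn (fun g => ∫ n, φ ((j n)⁻¹ * g) ∂ν) s := by
    refine continuousOn_integral_of_compact_support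
      (hj'.isCompact_preimage (hs.mul hφs.isCompact.inv)) ?_ ?_
    · exact (hφ.comp ((hj'.continuous.comp continuous_snd).inv.mul continuous_fst)).continuousOn
    · intro g n hg hn
      by_contra h
      apply hn
      rw [Set.mem_preimage]
      have h1 : (j n)⁻¹ * g ∈ tsupport φ := subset_tsupport _ h
      have h2 := Set.mul_mem_mul hg (Set.inv_mem_inv.2 h1)
      have h3 : g * ((j n)⁻¹ * g)⁻¹ = j n := by group
      rwa [h3] at h2
  exact h1.continuousAt hs0

private theorem rsW_inv (φ : G → ℝ) (m : N) (g : G) : rsW ν j φ (j m * g) = rsW ν j φ g := by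
  have h1 := integral_mul_left_eq_self (μ := ν) (fun n : N => φ ((j n)⁻¹ * g)) m⁻¹
  unfold rsW
  rw [← h1]
  refine integral_congr_ae (Eventually.of_forall fun n => ?_)
  simp only [map_mul, map_inv, mul_inv_rev, inv_inv, mul_assoc]

private theorem rsW_nonneg {φ : G → ℝ} (h0 : ∀ g, 0 ≤ φ g) (g : G) : 0 ≤ rsW ν j φ g :=
  integral_nonneg fun n => h0 _

private theorem rsW_pos (hj' : IsClosedEmbedding j) {φ : G → ℝ} (hφ : Continuous φ)
    (hφs : HasCompactSupport φ) (h0 : ∀ g, 0 ≤ φ g) {g : G} (hg : φ g ≠ 0) :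
    0 < rsW ν j φ g := by
  refine Continuous.integral_pos_of_hasCompactSupport_nonneg_nonzero (x := (1 : N)) ?_
    (rsW_cs j hj' hφs g) (fun n => h0 _) ?_
  · exact hφ.comp (hj'.continuous.inv.mul continuous_const)
  · simpa using hg

private theorem rs_div_cont {H W : G → ℝ} (hH : Continuous H) (hW : Continuous W) {D : Set G}
    (hD : IsClosed D) (hHD : ∀ g, g ∉ D → H g = 0) (hWD : ∀ g ∈ D, W g ≠ 0) :
    Continuous fun g => H g / W g := by
  rw [continuous_iff_continuousAt]
  intro g
  by_cases hg : g ∈ D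
  · exact hH.continuousAt.div hW.continuousAt (hWD g hg)
  · have h1 : (fun g => H g / W g) =ᶠ[𝓝 g] fun _ => 0 := by
      filter_upwards [hD.isOpen_compl.mem_nhds hg] with x hx
      rw [hHD x hx, zero_div]
    exact continuousAt_const.congr h1.symm

private theorem rs_swap (hj' : IsClosedEmbedding j) {φ H : G → ℝ} (hφ : Continuous φ)
    (hφs : HasCompactSupport φ) (hH : Continuous H) (hHs : HasCompactSupport H) :
    ∫ n, rsF μ j φ H n ∂ν = ∫ g, rsW ν j φ g * H g ∂μ := by
  unfold rsF
  rw [integral_integral_swap_of_hasCompactSupport (rs_cont j hj'.continuous hφ hH)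
    (rs_cs j hj' hφs hHs)]
  refine integral_congr_ae (Eventually.of_forall fun g => ?_)
  exact integral_mul_const _ _

/-- **Reiter's condition passes to closed subgroups** -/
theorem reiter_of_isClosedEmbedding (hj' : IsClosedEmbedding j) (hR : Reiter μ) : Reiter ν := by
  intro C1 hC1 κ hκ
  obtain ⟨F, hF, hFs, hF0, hF1, hFd⟩ := hR (j '' C1) (hC1.image hj'.continuous) κ hκ
  obtain ⟨φ', hφ1, -, hφs', hφ0'⟩ := exists_continuous_one_zero_of_isCompact hFs.isCompact
    (isClosed_empty (X := G)) (disjoint_bot_right)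
  obtain ⟨φ, hφφ⟩ : ∃ φ : G → ℝ, φ = φ' := ⟨_, rfl⟩
  have hφ : Continuous φ := by rw [hφφ]; exact φ'.continuous
  have hφs : HasCompactSupport φ := by rw [hφφ]; exact hφs'
  have hφ0 : ∀ g, 0 ≤ φ g := fun g => by rw [hφφ]; exact (hφ0' g).1
  have hφD : ∀ g ∈ tsupport F, φ g ≠ 0 := fun g hg => by
    rw [hφφ, hφ1 hg]
    exact one_ne_zero
  have hWc := rsW_cont ν j hj' hφ hφs
  have hWp : ∀ g ∈ tsupport F, 0 < rsW ν j φ g := fun g hg =>
    rsW_pos ν j hj' hφ hφs hφ0 (hφD g hg)
  have hW0 := rsW_nonneg ν j hφ0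
  obtain ⟨H0, hH0⟩ : ∃ H0 : G → ℝ, H0 = fun g => F g / rsW ν j φ g := ⟨_, rfl⟩
  have hH0c : Continuous H0 := by
    rw [hH0]
    exact rs_div_cont hF hWc (isClosed_tsupport F)
      (fun g hg => image_eq_zero_of_notMem_tsupport hg) fun g hg => (hWp g hg).ne'
  have hH0s : HasCompactSupport H0 := by
    refine hFs.mono fun g hg => ?_
    rw [Function.mem_support, hH0] at hg
    exact fun h => hg (by change F g / _ = 0; rw [h, zero_div])
  have hH00 : ∀ g, 0 ≤ H0 g := fun g => by
    rw [hH0]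
    exact div_nonneg (hF0 g) (hW0 g)
  refine ⟨rsF μ j φ H0, rsF_cont μ j hj'.continuous hφ hH0c hH0s, rsF_cs μ j hj' hφs hH0s,
    fun n => integral_nonneg fun g => mul_nonneg (hφ0 _) (hH00 g), ?_, ?_⟩
  · rw [rs_swap μ ν j hj' hφ hφs hH0c hH0s, ← hF1]
    refine integral_congr_ae (Eventually.of_forall fun g => ?_)
    rw [hH0]
    change rsW ν j φ g * (F g / rsW ν j φ g) = F g
    by_cases hg : g ∈ tsupport F
    · rw [mul_div_cancel₀ _ (hWp g hg).ne']
    · rw [image_eq_zero_of_notMem_tsupport hg, zero_div, mul_zero]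
  · intro s hs
    have hdiff : Continuous fun g => |F ((j s)⁻¹ * g) - F g| :=
      ((hF.comp (continuous_const.mul continuous_id)).sub hF).abs
    have hD1 : IsCompact (tsupport F ∪ (fun g => j s * g) '' tsupport F) :=
      hFs.isCompact.union (hFs.isCompact.image (continuous_const.mul continuous_id))
    have hz : ∀ g, g ∉ tsupport F ∪ (fun g => j s * g) '' tsupport F →
        |F ((j s)⁻¹ * g) - F g| = 0 := by
      intro g hg
      rw [Set.mem_union, not_or] at hg
      have h1 : (j s)⁻¹ * g ∉ tsupport F := fun h =>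
        hg.2 ⟨(j s)⁻¹ * g, h, mul_inv_cancel_left _ _⟩
      rw [image_eq_zero_of_notMem_tsupport hg.1, image_eq_zero_of_notMem_tsupport h1, sub_zero,
        abs_zero]
    have hWne : ∀ g ∈ tsupport F ∪ (fun g => j s * g) '' tsupport F, rsW ν j φ g ≠ 0 := by
      rintro g (hg | ⟨g, hg, rfl⟩)
      · exact (hWp g hg).ne'
      · change rsW ν j φ (j s * g) ≠ 0
        rw [rsW_inv]
        exact (hWp g hg).ne'
    obtain ⟨H1, hH1⟩ : ∃ H1 : G → ℝ, H1 = fun g => |F ((j s)⁻¹ * g) - F g| / rsW ν j φ g :=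
      ⟨_, rfl⟩
    have hH1c : Continuous H1 := by
      rw [hH1]
      exact rs_div_cont hdiff hWc hD1.isClosed hz hWne
    have hH1s : HasCompactSupport H1 := by
      refine HasCompactSupport.intro hD1 fun g hg => ?_
      rw [hH1]
      change |F ((j s)⁻¹ * g) - F g| / _ = 0
      rw [hz g hg, zero_div]
    have hfs : ∀ n : N, rsF μ j φ H0 (s⁻¹ * n) =
        ∫ g, φ ((j n)⁻¹ * g) * H0 ((j s)⁻¹ * g) ∂μ := by
      intro n
      have h1 := integral_mul_left_eq_self (μ := μ)
        (fun g : G => φ ((j (s⁻¹ * n))⁻¹ * g) * H0 g) (j s)⁻¹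
      unfold rsF
      rw [← h1]
      refine integral_congr_ae (Eventually.of_forall fun g => ?_)
      simp only [map_mul, map_inv, mul_inv_rev, inv_inv, mul_assoc, mul_inv_cancel_left]
    have hint : ∀ (H : G → ℝ) (n : N), Continuous H → HasCompactSupport H →
        Integrable (fun g => φ ((j n)⁻¹ * g) * H g) μ := by
      intro H n hH hHs
      refine Continuous.integrable_of_hasCompactSupport ?_ hHs.mul_left
      exact (hφ.comp (continuous_const.mul continuous_id)).mul hH
    have hHsc : Continuous fun g => H0 ((j s)⁻¹ * g) :=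
      hH0c.comp (continuous_const.mul continuous_id)
    have hHss : HasCompactSupport fun g => H0 ((j s)⁻¹ * g) :=
      hH0s.comp_homeomorph (Homeomorph.mulLeft (j s)⁻¹)
    have hle : ∀ n : N, |rsF μ j φ H0 (s⁻¹ * n) - rsF μ j φ H0 n| ≤ rsF μ j φ H1 n := by
      intro n
      rw [hfs]
      unfold rsF
      rw [← integral_sub (hint _ n hHsc hHss) (hint _ n hH0c hH0s)]
      refine (abs_integral_le_integral_abs).trans (integral_mono
        ((hint _ n hHsc hHss).sub (hint _ n hH0c hH0s)).abs (hint _ n hH1c hH1s) fun g => ?_)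
      change |φ ((j n)⁻¹ * g) * H0 ((j s)⁻¹ * g) - φ ((j n)⁻¹ * g) * H0 g| ≤
        φ ((j n)⁻¹ * g) * H1 g
      rw [← mul_sub, abs_mul, abs_of_nonneg (hφ0 _)]
      refine mul_le_mul_of_nonneg_left ?_ (hφ0 _)
      rw [hH0, hH1]
      change |F ((j s)⁻¹ * g) / rsW ν j φ ((j s)⁻¹ * g) - F g / rsW ν j φ g| ≤ _
      have h1 : rsW ν j φ ((j s)⁻¹ * g) = rsW ν j φ g := by
        rw [← map_inv, rsW_inv]
      rw [h1, ← sub_div, abs_div, abs_of_nonneg (hW0 g)]
    have hc0 : Continuous (rsF μ j φ H0 : N → ℝ) := rsF_cont μ j hj'.continuous hφ hH0c hH0s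
    have hs0 : HasCompactSupport (rsF μ j φ H0 : N → ℝ) := rsF_cs μ j hj' hφs hH0s
    have hi1 : Integrable (fun n => |rsF μ j φ H0 (s⁻¹ * n) - rsF μ j φ H0 n|) ν := by
      refine Integrable.abs (Integrable.sub ?_ ?_)
      · exact (hc0.comp (continuous_const.mul continuous_id)).integrable_of_hasCompactSupport
          (hs0.comp_homeomorph (Homeomorph.mulLeft s⁻¹))
      · exact hc0.integrable_of_hasCompactSupport hs0
    have hi2 : Integrable (fun n => rsF μ j φ H1 n) ν :=
      (rsF_cont μ j hj'.continuous hφ hH1c hH1s).integrable_of_hasCompactSupport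
        (rsF_cs μ j hj' hφs hH1s)
    refine (integral_mono hi1 hi2 hle).trans ?_
    rw [rs_swap μ ν j hj' hφ hφs hH1c hH1s]
    refine le_trans (le_of_eq ?_) (hFd (j s) ⟨s, hs, rfl⟩)
    refine integral_congr_ae (Eventually.of_forall fun g => ?_)
    rw [hH1]
    change rsW ν j φ g * (|F ((j s)⁻¹ * g) - F g| / rsW ν j φ g) = |F ((j s)⁻¹ * g) - F g|
    by_cases hg : g ∈ tsupport F ∪ (fun g => j s * g) '' tsupport F
    · rw [mul_div_cancel₀ _ (hWne g hg)]
    · rw [hz g hg, zero_div, mul_zero]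

end

end Pool.Agent.AbCoc
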