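import Pool.Agent.Lib_MP_418a80_nm.NUn1
import Pool.Agent.Lib_MP_418a80_nm.ReiSub

/-!
# `StepATyp` for the groups of the union theorem
-/

set_option autoImplicit false
set_option linter.unusedVariables false
set_option linter.unusedSectionVars false

open MeasureTheory Topology Filter
open scoped ENNReal NNReal ComplexConjugate

namespace Pool.Agent.AbCoc

universe u v w z

section
variable {A : Type u} [CStarAlgebra A] {K : Type v} [NormedAddCommGroup K]
  [InnerProductSpace ℂ K] [CompleteSpace K]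
variable {G : Type w} [Group G] [TopologicalSpace G] [IsTopologicalGroup G] [T2Space G]
  [SecondCountableTopology G] [LocallyCompactSpace G] [MeasurableSpace G] [BorelSpace G]
  (μ : Measure G) [μ.IsHaarMeasure] {T : TrAlg A K} (S : TrAct G T)
  {V : Type z} [NormedAddCommGroup V] [NormedSpace ℝ V] [FiniteDimensional ℝ V]
  [MeasurableSpace V] [BorelSpace V]

/-- F5 for `V = 0` -/
theorem TrAct.stepATyp_of_qmap_sub (Q : QMap G V) [Subsingleton V] [NoncompactSpace G]
    (hSO : S.SO μ Set.univ) (hR : Reiter μ) : S.StepATyp := by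
  by_contra hne
  obtain ⟨b1, b2, hf1, hf2, hs1, hs2, h1, h2, m0, C, y, hm0, hC0, hC, hy, hgap⟩ :=
    S.exists_gap hne
  refine S.false_of_ineqC μ Q hSO b1 b2 hf1 hf2 hs1 hs2 h1 h2 fun δ hδ => ?_
  obtain ⟨m1, C1, d, hm1, hC1c, hC1, hd, hg⟩ :=
    S.gap_avg b1 b2 y m0 hm0 hC0 C hC hy hgap (δ / 2) (by positivity)
  have hA := S.ineqA_of_gap Q μ hR b1 b2 hf1 hf2 (δ / 2) m1 hm1 hC1c C1 hC1 d hd hg
  have hB := S.ineqB_of_ineqA_sub Q b1 b2 (δ / 2) hA
  have hC := S.ineqC_of_ineqB Q b1 b2 hf1 hf2 (δ / 2) (by positivity) hB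
  have e2 : 2 * (δ / 2) = δ := by ring
  rwa [e2] at hC

/-- F5 for every `V` -/
theorem TrAct.stepATyp_of_qmap' (Q : QMap G V) [NoncompactSpace G]
    (hSO : S.SO μ Set.univ) (hR : Reiter μ) : S.StepATyp := by
  rcases subsingleton_or_nontrivial V with h | h
  · exact S.stepATyp_of_qmap_sub μ Q hSO hR
  · exact S.stepATyp_of_qmap μ Q hSO hR

end

end Pool.Agent.AbCoc
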