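import Pool.Agent.Lib_MP_418a80_nm.NUn2
import Pool.Agent.Lib_MP_418a80_nm.NSOA
import Pool.Agent.Lib_MP_418a80_nm.NFin
import Pool.Agent.Lib_MP_418a80_nm.NSO3

/-!
# The families of a closed subgroup which belongs to the class of the union theorem
-/

set_option autoImplicit false
set_option linter.unusedVariables false
set_option linter.unusedSectionVars false

open MeasureTheory Topology Filter
open scoped ENNReal NNReal ComplexConjugate

namespace Pool.Agent.AbCoc

universe u v w z y

section
variable {A : Type u} [CStarAlgebra A] [PartialOrder A] [StarOrderedRing A]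
  {K : Type v} [NormedAddCommGroup K] [InnerProductSpace ℂ K] [CompleteSpace K]
variable {G : Type w} [Group G] [TopologicalSpace G] [IsTopologicalGroup G] [T2Space G]
  [SecondCountableTopology G] [LocallyCompactSpace G] [MeasurableSpace G] [BorelSpace G]
  (μ : Measure G) [μ.IsHaarMeasure] {T : TrAlg A K} (S : TrAct G T)

section emb
variable {N : Type z} [Group N] [TopologicalSpace N] [IsTopologicalGroup N] [T2Space N]
  [SecondCountableTopology N] [LocallyCompactSpace N] [MeasurableSpace N] [BorelSpace N]
  (ν : Measure N) [ν.IsHaarMeasure] (j : N →* G) (hj : Continuous j)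

include μ ν in
/-- the input of the relative theorem from KEY for the actions of the closed subgroup on the
matrices -/
theorem TrAct.nIn_of_key (hj' : IsClosedEmbedding j) (hSO : S.SO μ Set.univ)
    (hkey : NoncompactSpace N → (S.cm j hj).Key ∧ ∀ n : ℕ, ∀ _ : NeZero n,
      ((S.cm j hj).amp n).Key) :
    S.NearOn (Set.range j) ∧ (IsCompact (Set.range j) ∨ S.MoveOn (Set.range j)) := by
  by_cases hc : CompactSpace N
  · exact ⟨S.nearOn_of_compact ν j hj (S.SO_cm' μ ν j hj hj' hSO), Or.inl (isCompact_range hj)⟩
  · have : NoncompactSpace N := not_compactSpace_iff.1 hc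
    obtain ⟨h1, h2⟩ := hkey this
    exact ⟨S.nearOn_of_key j hj hj' h1,
      Or.inr (S.moveOn_of_key_amp j hj hj' fun n _ => h2 n inferInstance)⟩

include μ ν in
/-- the input of the relative theorem for the groups of the union theorem -/
theorem TrAct.nIn_of_qmap (hj : Continuous j) (hj' : IsClosedEmbedding j) (hSO : S.SO μ Set.univ) (hR : Reiter μ)
    {V : Type y} [NormedAddCommGroup V] [NormedSpace ℝ V] [FiniteDimensional ℝ V]
    (Q : QMap N V) :
    S.NearOn (Set.range j) ∧ (IsCompact (Set.range j) ∨ S.MoveOn (Set.range j)) := by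
  refine S.nIn_of_key μ ν j hj hj' hSO fun _ => ?_
  have hR' : Reiter ν := reiter_of_isClosedEmbedding μ ν j hj' hR
  have hSO' : (S.cm j hj).SO ν Set.univ := S.SO_cm' μ ν j hj hj' hSO
  let _ : MeasurableSpace V := borel V
  have : BorelSpace V := ⟨rfl⟩
  exact ⟨TrAct.key_of_stepATyp _ ((S.cm j hj).stepATyp_of_qmap' ν Q hSO' hR'), fun n _ =>
    TrAct.key_of_stepATyp _ (((S.cm j hj).amp n).stepATyp_of_qmap' ν Q
      ((S.cm j hj).SO_amp_mat ν n hSO') hR')⟩

end emb

/-- a closed subgroup with an open subgroup which maps onto a vector group with compact kernel -/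
theorem TrAct.nIn_subgroup_union (hSO : S.SO μ Set.univ) (hR : Reiter μ) (N : Subgroup G)
    (hN : IsClosed (N : Set G)) {V : Type y} [NormedAddCommGroup V] [NormedSpace ℝ V]
    [FiniteDimensional ℝ V] (Q : QMap N V) :
    S.NearOn (N : Set G) ∧ (IsCompact (N : Set G) ∨ S.MoveOn (N : Set G)) := by
  have : LocallyCompactSpace N := hN.isClosedEmbedding_subtypeVal.locallyCompactSpace
  have : SecondCountableTopology N :=
    inferInstanceAs (SecondCountableTopology ((N : Set G) : Set G))
  have h1 := S.nIn_of_qmap μ (Measure.haar : Measure N) N.subtype continuous_subtype_val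
    hN.isClosedEmbedding_subtypeVal hSO hR Q
  have h2 : Set.range N.subtype = (N : Set G) := by
    rw [← MonoidHom.coe_range, Subgroup.range_subtype]
  rwa [h2] at h1

/-- **`StepADom` if all elements with twists belong to a closed normal subgroup for which KEY
holds** -/
theorem TrAct.stepADom_of_twist_key [NoncompactSpace G]
    (hfac : ∀ x : A, (∀ y, x * y = y * x) → ∃ c : ℂ, x = c • (1 : A))
    (hSO : S.SO μ Set.univ) (hR : Reiter μ) (N : Subgroup G) [N.Normal]
    (hN : IsClosed (N : Set G)) (htw : ∀ g, S.HasTwist g → g ∈ N)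
    (hkey : NoncompactSpace N → (S.cm N.subtype continuous_subtype_val).Key ∧
      ∀ n : ℕ, ∀ _ : NeZero n, ((S.cm N.subtype continuous_subtype_val).amp n).Key) :
    S.StepADom := by
  have hcomb : S.Comb (N : Set G) :=
    S.comb_of_not_hasTwist μ hfac N fun g hg hg' => hg (htw g hg')
  have : LocallyCompactSpace N := hN.isClosedEmbedding_subtypeVal.locallyCompactSpace
  have : SecondCountableTopology N :=
    inferInstanceAs (SecondCountableTopology ((N : Set G) : Set G))
  have h1 := S.nIn_of_key μ (Measure.haar : Measure N) N.subtype continuous_subtype_val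
    hN.isClosedEmbedding_subtypeVal hSO hkey
  have h2 : Set.range N.subtype = (N : Set G) := by
    rw [← MonoidHom.coe_range, Subgroup.range_subtype]
  rw [h2] at h1
  exact S.stepADom_of_nearOn μ hR N hN hcomb h1.1 h1.2

/-- **`StepADom` if all elements with twists belong to a closed normal subgroup of the class of
the union theorem** -/
theorem TrAct.stepADom_of_twist_union [NoncompactSpace G]
    (hfac : ∀ x : A, (∀ y, x * y = y * x) → ∃ c : ℂ, x = c • (1 : A))
    (hSO : S.SO μ Set.univ) (hR : Reiter μ) (N : Subgroup G) [N.Normal]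
    (hN : IsClosed (N : Set G)) (htw : ∀ g, S.HasTwist g → g ∈ N) {V : Type y}
    [NormedAddCommGroup V] [NormedSpace ℝ V] [FiniteDimensional ℝ V] (Q : QMap N V) :
    S.StepADom := by
  have hcomb : S.Comb (N : Set G) :=
    S.comb_of_not_hasTwist μ hfac N fun g hg hg' => hg (htw g hg')
  obtain ⟨h1, h2⟩ := S.nIn_subgroup_union μ hSO hR N hN Q
  exact S.stepADom_of_nearOn μ hR N hN hcomb h1 h2

end

end Pool.Agent.AbCoc
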