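import Pool.Agent.Lib_MP_418a80_nm.NUn3
import Pool.Agent.Lib_MP_418a80_nm.NFinVN
import Pool.Agent.Lib_MP_418a80_un.UF6

/-!
# One theorem for the groups of the union theorem and for factors without enough central sequences

Let `N` be a closed normal subgroup of `G` which contains all `g` for which `α g` has a twisted
central sequence. If `N` is abelian, or has an open subgroup which maps onto `ℝⁿ` with compact
kernel, then every strictly outer action of `G` has an ergodic cocycle perturbation. For `N = G`
this is the union theorem.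
-/

set_option autoImplicit false
set_option linter.unusedVariables false
set_option linter.unusedSectionVars false

open MeasureTheory Topology Filter TopologicalSpace
open scoped ENNReal

namespace Pool.Agent.AbCoc

universe u v

variable {H : Type u} [NormedAddCommGroup H] [InnerProductSpace ℂ H] [CompleteSpace H]
variable {G : Type v} [Group G] [TopologicalSpace G] [IsTopologicalGroup G]
  [SecondCountableTopology G] [LocallyCompactSpace G] [T2Space G]
  [MeasurableSpace G] [BorelSpace G] (μ : Measure G) [μ.IsHaarMeasure]
  {M : VonNeumannAlgebra H} {α : G → (H →L[ℂ] H) → (H →L[ℂ] H)}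

/-- the class of subgroups: abelian, or with an open subgroup which maps onto `ℝⁿ` with compact
kernel -/
def IsEuclByCo (N : Type v) [Group N] [TopologicalSpace N] : Prop :=
  (∀ x y : N, x * y = y * x) ∨
  ∃ (L : Subgroup N) (n : ℕ) (q : ↥L →* Multiplicative (EuclideanSpace ℝ (Fin n))),
    IsOpen (L : Set N) ∧ Continuous q ∧ Function.Surjective q ∧ IsCompact (q.ker : Set ↥L)

/-- strictly outer actions such that all elements with twisted central sequences belong to a
closed normal subgroup of the class `IsEuclByCo` -/
theorem twist_theorem [NoncompactSpace G] [SeparableSpace H] (hM : IsII1Factor M)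
    (hα : IsAction M α) (hG : ErgLC.FolnerCondition μ) (hout : IsStrictlyOuter μ M α)
    (N : Subgroup G) [N.Normal] (hN : IsClosed (N : Set G))
    (htw : ∀ g : G, HasTwistedCentral M (α g) → g ∈ N) (hcls : IsEuclByCo N) :
    ∃ v : G → (H →L[ℂ] H), IsCocycle M α v ∧ PerturbationIsErgodic M α v := by
  obtain ⟨ξ, h⟩ := hM.trace
  let := CStarAlgebra.spectralOrder (Alg M)
  have := CStarAlgebra.spectralOrderedRing (Alg M)
  have hfac : ∀ x : Alg M, (∀ y, x * y = y * x) → ∃ c : ℂ, x = c • (1 : Alg M) := by
    intro x hx
    obtain ⟨c, hc⟩ := hM.factor x x.2 fun y hy => congrArg Subtype.val (hx ⟨y, hy⟩)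
    exact ⟨c, Subtype.ext hc⟩
  have hSO := so_actOf μ ξ h hM.factor hα hout
  have htw' : ∀ g, (actOf ξ h hM.factor hα).HasTwist g → g ∈ N := fun g hg =>
    htw g (hasTwistedCentral_of_hasTwist ξ h hM.factor hα hg)
  refine exists_of_key ξ h hα (actOf ξ h hM.factor hα) (fun g x => rfl)
    (TrAct.key_of_stepADom _ ?_)
  rcases hcls with hc | ⟨L, n, q, hL, hq, hs, hk⟩
  · have hcomb : (actOf ξ h hM.factor hα).Comb (N : Set G) :=
      (actOf ξ h hM.factor hα).comb_of_not_hasTwist μ hfac N fun g hg hg' => hg (htw' g hg')
    obtain ⟨h1, h2⟩ := (actOf ξ h hM.factor hα).nIn_subgroup μ hSO N hN fun x hx y hy =>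
      congrArg Subtype.val (hc ⟨x, hx⟩ ⟨y, hy⟩)
    exact (actOf ξ h hM.factor hα).stepADom_of_nearOn μ (reiter_of_folner μ hG) N hN hcomb h1 h2
  · have : LocallyCompactSpace N := hN.isClosedEmbedding_subtypeVal.locallyCompactSpace
    have : SecondCountableTopology N :=
      inferInstanceAs (SecondCountableTopology ((N : Set G) : Set G))
    obtain ⟨Q⟩ := exists_qmap L hL q hq hs hk
    exact (actOf ξ h hM.factor hα).stepADom_of_twist_union μ hfac hSO (reiter_of_folner μ hG) N hN
      htw' Q

end Pool.Agent.AbCoc
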