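import Pool.Agent.Lib_MP_418a80_ab.Defs

/-!
# Twisted central sequences

The definitions used in the final statement on II₁ factors whose central sequences commute, in
addition to those of the files `Defs` and `Stmt`.
-/

set_option autoImplicit false

open Topology Filter

namespace Pool.Agent.AbCoc

universe u

variable {H : Type u} [NormedAddCommGroup H] [InnerProductSpace ℂ H] [CompleteSpace H]

/-- `x n → 0` strongly. -/
def IsNullSequence (x : ℕ → (H →L[ℂ] H)) : Prop :=
  ∀ ξ : H, Tendsto (fun n => x n ξ) atTop (𝓝 0)

/-- `x` is a bounded sequence of elements of `M` with `y (x n) - (x n) (θ y) → 0` strongly for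
every `y ∈ M`. For `θ = id` these are the central sequences of `M`. -/
structure IsTwistedCentral (M : VonNeumannAlgebra H) (θ : (H →L[ℂ] H) → (H →L[ℂ] H))
    (x : ℕ → (H →L[ℂ] H)) : Prop where
  mem : ∀ n, x n ∈ M
  bounded : ∃ C : ℝ, ∀ n, ‖x n‖ ≤ C
  tendsto : ∀ y ∈ M, IsNullSequence fun n => y * x n - x n * θ y

/-- `M` has a `θ`-twisted central sequence which does not converge to `0` strongly. -/
def HasTwistedCentral (M : VonNeumannAlgebra H) (θ : (H →L[ℂ] H) → (H →L[ℂ] H)) : Prop :=
  ∃ x, IsTwistedCentral M θ x ∧ ¬ IsNullSequence x

/-- Any two central sequences of `M` commute asymptotically. For a II₁ factor with separable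
predual this says that `M` is not McDuff. -/
def CentralSequencesCommute (M : VonNeumannAlgebra H) : Prop :=
  ∀ x y, IsTwistedCentral M id x → IsTwistedCentral M id y →
    IsNullSequence fun n => x n * y n - y n * x n

end Pool.Agent.AbCoc
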