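import Pool.Agent.Lib_MP_418a80_nm.Walk
import Pool.Agent.Lib_MP_418a80_nm.RelA

/-!
# REL, part B: trace norm bounds, Gram matrices, localisation
-/

set_option autoImplicit false
set_option linter.unusedVariables false
set_option linter.unusedSectionVars false

open Topology Filter

namespace Pool.Agent.AbCoc

universe u v w

section L1
variable {A : Type u} [CStarAlgebra A] [PartialOrder A] [StarOrderedRing A]
  {K : Type v} [NormedAddCommGroup K] [InnerProductSpace ℂ K] (T : TrAlg A K)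
  {X : Type} [Fintype X] [DecidableEq X]

/-- the trace norm of `f` is at most `ε` -/
def TrAlg.L1 (f : Mt X A) (ε : ℝ) : Prop := ∀ y : Mt X A, ‖y‖ ≤ 1 → ‖T.TrM (y * f)‖ ≤ ε

theorem TrAlg.L1.bound {f : Mt X A} {ε : ℝ} (h : T.L1 f ε) (y : Mt X A) :
    ‖T.TrM (y * f)‖ ≤ ‖y‖ * ε := by
  rcases (norm_nonneg y).eq_or_lt with h0 | h0
  · have h1 : y = 0 := norm_eq_zero.1 h0.symm
    rw [h1, zero_mul, T.TrM_zero, norm_zero, norm_zero, zero_mul]
  · have h1 := h ((((‖y‖⁻¹ : ℝ)) : ℂ) • y) (by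
      rw [norm_smul, Complex.norm_real, norm_inv, norm_norm, inv_mul_cancel₀ h0.ne'])
    rw [smul_mul_assoc, T.TrM_smul, norm_mul, Complex.norm_real, norm_inv, norm_norm,
      inv_mul_le_iff₀ h0] at h1
    exact h1

theorem TrAlg.L1.mono {f : Mt X A} {ε ε' : ℝ} (h : T.L1 f ε) (h' : ε ≤ ε') : T.L1 f ε' :=
  fun y hy => (h y hy).trans h'

theorem TrAlg.L1.add {f g : Mt X A} {a b : ℝ} (h1 : T.L1 f a) (h2 : T.L1 g b) :
    T.L1 (f + g) (a + b) := fun y hy => by
  rw [mul_add, T.TrM_add]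
  exact (norm_add_le _ _).trans (add_le_add (h1 y hy) (h2 y hy))

theorem TrAlg.L1.neg {f : Mt X A} {a : ℝ} (h1 : T.L1 f a) : T.L1 (-f) a := fun y hy => by
  have h2 := h1 (-y) (by rwa [norm_neg])
  rwa [neg_mul, ← mul_neg] at h2

theorem TrAlg.L1.sub {f g : Mt X A} {a b : ℝ} (h1 : T.L1 f a) (h2 : T.L1 g b) :
    T.L1 (f - g) (a + b) := by
  rw [sub_eq_add_neg]
  exact h1.add T (h2.neg T)

theorem TrAlg.L1.sum {J : Type*} (t : Finset J) {f : J → Mt X A} {a : J → ℝ}
    (h : ∀ j ∈ t, T.L1 (f j) (a j)) : T.L1 (∑ j ∈ t, f j) (∑ j ∈ t, a j) := fun y hy => by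
  rw [Finset.mul_sum, T.TrM_sum]
  exact (norm_sum_le _ _).trans (Finset.sum_le_sum fun j hj => h j hj y hy)

theorem TrAlg.L1.conj {f : Mt X A} {a : ℝ} (h : T.L1 f a) {p q : Mt X A} (hp : ‖p‖ ≤ 1)
    (hq : ‖q‖ ≤ 1) : T.L1 (p * f * q) a := fun y hy => by
  have h1 : T.TrM (y * (p * f * q)) = T.TrM (q * y * p * f) := by
    rw [← mul_assoc, T.TrM_mul_comm]
    congr 1
    noncomm_ring
  rw [h1]
  refine h _ ((norm_mul_le _ _).trans ?_)
  refine mul_le_one₀ ((norm_mul_le _ _).trans ?_) (norm_nonneg _) hp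
  exact mul_le_one₀ hq (norm_nonneg _) hy

theorem TrAlg.L1.mul_left {f : Mt X A} {a : ℝ} (h : T.L1 f a) {p : Mt X A} (hp : ‖p‖ ≤ 1) :
    T.L1 (p * f) a := fun y hy => by
  rw [← mul_assoc]
  exact h _ ((norm_mul_le _ _).trans (mul_le_one₀ hy (norm_nonneg _) hp))

variable [Nonempty X]

/-- the trace norm of `a a* - b b*` -/
theorem TrAlg.L1_mul_star (a b : Mt X A) : T.L1 (a * star a - b * star b)
    (Real.sqrt (T.hs (a - b)) * (Real.sqrt (T.hs a) + Real.sqrt (T.hs b))) := fun y hy => by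
  have h1 : T.TrM (y * (a * star a - b * star b))
      = T.TrM (star a * y * (a - b)) + T.TrM (star (a - b) * y * b) := by
    have e1 : T.TrM (star a * y * (a - b)) = T.TrM (y * ((a - b) * star a)) := by
      rw [mul_assoc, T.TrM_mul_comm, mul_assoc]
    have e2 : T.TrM (star (a - b) * y * b) = T.TrM (y * (b * star (a - b))) := by
      rw [mul_assoc, T.TrM_mul_comm, mul_assoc]
    rw [e1, e2, ← T.TrM_add, star_sub]
    congr 1
    noncomm_ring
  rw [h1]
  refine (norm_add_le _ _).trans ?_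
  have h2 := T.norm_Tr_le a y (a - b)
  have h3 := T.norm_Tr_le (a - b) y b
  have h4 : ‖y‖ * (Real.sqrt (T.hs a) * Real.sqrt (T.hs (a - b)))
      ≤ 1 * (Real.sqrt (T.hs a) * Real.sqrt (T.hs (a - b))) :=
    mul_le_mul_of_nonneg_right hy (by positivity)
  have h5 : ‖y‖ * (Real.sqrt (T.hs (a - b)) * Real.sqrt (T.hs b))
      ≤ 1 * (Real.sqrt (T.hs (a - b)) * Real.sqrt (T.hs b)) :=
    mul_le_mul_of_nonneg_right hy (by positivity)
  linarith

end L1

section gram
variable {A : Type u} [CStarAlgebra A] [PartialOrder A] [StarOrderedRing A]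
  {K : Type v} [NormedAddCommGroup K] [InnerProductSpace ℂ K]
variable {G : Type w} [Group G] [TopologicalSpace G] {T : TrAlg A K} (S : TrAct G T)
  {X : Type} [Fintype X] [DecidableEq X] [Nonempty X] (s : X → G) (ζ : X → ℝ)
  {P : Type} [Fintype P]

theorem mt_sum_apply {J : Type*} (t : Finset J) (f : J → Mt X A) (a b : X) :
    (∑ j ∈ t, f j) a b = ∑ j ∈ t, f j a b := by
  classical
  induction t using Finset.induction_on with
  | empty => rfl
  | insert j t hj ih =>
    rw [Finset.sum_insert hj, Finset.sum_insert hj, ← ih]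
    rfl

/-- a family as a single row -/
noncomputable def TrAct.row (c0 : X) (e : P → X) (x : P → A) : Mt X A :=
  S.col (fun _ => 1) (Pi.single c0 1) e x

theorem TrAct.row_gram (c0 : X) (e : P → X) (he : Function.Injective e) (x y : P → A) (p q : P) :
    (star (S.row c0 e x) * S.row c0 e y) (e p) (e q) = star (x p) * y q := by
  unfold TrAct.row
  rw [S.star_col_mul _ _ e he, Finset.sum_eq_single c0]
  · rw [S.one]
    simp
  · intro c _ hc
    rw [Pi.single_eq_of_ne hc]
    simp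
  · intro h; exact absurd (Finset.mem_univ c0) h

/-- the Gram matrix of the columns as an average over the sample points -/
theorem TrAct.col_gram (c0 : X) (e : P → X) (he : Function.Injective e) (x y : P → A) :
    star (S.col s ζ e x) * S.col s ζ e y
      = ∑ c, ((ζ c ^ 2 : ℝ) : ℂ) • (S.ampT X).α (s c) (star (S.row c0 e x) * S.row c0 e y) := by
  ext a b
  rw [mt_sum_apply]
  have h1 : ∀ c, (((ζ c ^ 2 : ℝ) : ℂ) • (S.ampT X).α (s c) (star (S.row c0 e x) * S.row c0 e y)) a b
      = ((ζ c ^ 2 : ℝ) : ℂ) • S.α (s c) ((star (S.row c0 e x) * S.row c0 e y) a b) := fun c => rfl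
  rw [Finset.sum_congr rfl fun c _ => h1 c]
  by_cases ha : ∃ p, e p = a
  · obtain ⟨p, rfl⟩ := ha
    by_cases hb : ∃ q, e q = b
    · obtain ⟨q, rfl⟩ := hb
      rw [S.star_col_mul s ζ e he, S.row_gram c0 e he]
    · push Not at hb
      rw [S.star_col_mul_right s ζ e x y _ _ hb]
      unfold TrAct.row
      rw [S.star_col_mul_right _ _ e x y _ _ hb]
      simp
  · push Not at ha
    rw [S.star_col_mul_left s ζ e x y _ _ ha]
    unfold TrAct.row
    rw [S.star_col_mul_left _ _ e x y _ _ ha]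
    simp

theorem TrAct.hs_row (c0 : X) (e : P → X) (he : Function.Injective e) (x : P → A) :
    T.hs (S.row c0 e x) = ∑ p, ‖T.ι (x p)‖ ^ 2 := by
  unfold TrAct.row
  rw [S.hs_col _ _ e he, Finset.sum_eq_single c0]
  · rw [Pi.single_eq_same, one_pow, one_mul]
  · intro c _ hc
    rw [Pi.single_eq_of_ne hc]
    norm_num
  · intro h; exact absurd (Finset.mem_univ c0) h

theorem TrAct.row_α (c0 : X) (e : P → X) (he : Function.Injective e) (x : P → A) (g : G) :
    (S.ampT X).α g (S.row c0 e x) = S.row c0 e fun p => S.α g (x p) := by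
  ext a b
  rw [S.ampT_α_apply]
  unfold TrAct.row
  by_cases hb : ∃ q, e q = b
  · obtain ⟨q, rfl⟩ := hb
    rw [S.col_apply_emb _ _ e he, S.col_apply_emb _ _ e he, S.one, map_smul, S.one]
  · push Not at hb
    rw [S.col_apply_not _ _ e _ _ _ hb, S.col_apply_not _ _ e _ _ _ hb, map_zero]

theorem TrAct.row_sub (c0 : X) (e : P → X) (he : Function.Injective e) (x y : P → A) :
    S.row c0 e x - S.row c0 e y = S.row c0 e fun p => x p - y p := by
  ext a b
  have h0 : (S.row c0 e x - S.row c0 e y) a b = S.row c0 e x a b - S.row c0 e y a b := rfl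
  rw [h0]
  unfold TrAct.row
  by_cases hb : ∃ q, e q = b
  · obtain ⟨q, rfl⟩ := hb
    rw [S.col_apply_emb _ _ e he, S.col_apply_emb _ _ e he, S.col_apply_emb _ _ e he, ← smul_sub,
      map_sub]
  · push Not at hb
    rw [S.col_apply_not _ _ e _ _ _ hb, S.col_apply_not _ _ e _ _ _ hb,
      S.col_apply_not _ _ e _ _ _ hb, sub_zero]

/-- the walk does not increase the trace norm -/
theorem TrAct.L1_wk {J : Type} [Fintype J] [Nonempty J] (u : J → A)
    (h1 : ∀ j, star (u j) * u j = 1) {f : Mt X A} {ε : ℝ} (h : T.L1 f ε) :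
    T.L1 (S.wk s u f) ε := fun y hy => by
  have hone : ‖(1 : A)‖ ≤ 1 := by
    rcases subsingleton_or_nontrivial A with h | h
    · rw [Subsingleton.elim (1 : A) 0, norm_zero]; norm_num
    · rw [CStarRing.norm_one]
  have hun : ∀ j, ‖u j‖ ≤ 1 := by
    intro j
    have h2 : ‖u j‖ * ‖u j‖ ≤ 1 := by
      rw [← CStarRing.norm_star_mul_self, h1]
      exact hone
    nlinarith [norm_nonneg (u j)]
  have hp : ∀ j, ‖S.pid s (u j)‖ ≤ 1 := fun j =>
    (NonUnitalStarAlgHom.norm_apply_le (S.pid s) (u j)).trans (hun j)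
  have hJ : (0 : ℝ) < (Fintype.card J : ℝ) := Nat.cast_pos.2 Fintype.card_pos
  unfold TrAct.wk
  rw [mul_smul_comm, T.TrM_smul, norm_mul, norm_inv, Complex.norm_natCast, inv_mul_le_iff₀ hJ]
  have h2 := TrAlg.L1.sum T Finset.univ (f := fun j => S.pid s (u j) * f * star (S.pid s (u j)))
    (a := fun _ => ε) (fun j _ => h.conj T (hp j) (by rw [_root_.norm_star]; exact hp j)) y hy
  rw [Finset.sum_const, Finset.card_univ, nsmul_eq_mul] at h2
  exact h2

theorem TrAct.L1_wk_iterate {J : Type} [Fintype J] [Nonempty J] (u : J → A)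
    (h1 : ∀ j, star (u j) * u j = 1) {f : Mt X A} {ε : ℝ} (h : T.L1 f ε) (n : ℕ) :
    T.L1 ((S.wk s u)^[n] f) ε := by
  induction n with
  | zero => exact h
  | succ n ih =>
    rw [Function.iterate_succ_apply']
    exact S.L1_wk s u h1 ih

theorem TrAct.wk_sub {J : Type} [Fintype J] (u : J → A) (f g : Mt X A) :
    S.wk s u (f - g) = S.wk s u f - S.wk s u g := by
  unfold TrAct.wk
  rw [← smul_sub, ← Finset.sum_sub_distrib]
  congr 1
  refine Finset.sum_congr rfl fun j _ => ?_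
  rw [mul_sub, sub_mul]

theorem TrAct.wk_iterate_sub {J : Type} [Fintype J] (u : J → A) (f g : Mt X A) (n : ℕ) :
    (S.wk s u)^[n] (f - g) = (S.wk s u)^[n] f - (S.wk s u)^[n] g := by
  induction n with
  | zero => rfl
  | succ n ih => rw [Function.iterate_succ_apply', Function.iterate_succ_apply',
      Function.iterate_succ_apply', ih, S.wk_sub]

theorem TrAct.wk_sum {J L : Type} [Fintype J] (u : J → A) (t : Finset L) (f : L → Mt X A) :
    S.wk s u (∑ l ∈ t, f l) = ∑ l ∈ t, S.wk s u (f l) := by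
  unfold TrAct.wk
  rw [← Finset.smul_sum, Finset.sum_comm]
  congr 1
  refine Finset.sum_congr rfl fun j _ => ?_
  rw [Finset.mul_sum, Finset.sum_mul]

/-- scalar diagonal matrix -/
noncomputable def sdg (X : Type) [Fintype X] [DecidableEq X] {A : Type u} [CStarAlgebra A]
    (d : X → ℝ) : Mt X A := dgm X fun c => ((d c : ℝ) : ℂ) • (1 : A)

theorem sdg_mul_apply (d : X → ℝ) (M : Mt X A) (a b : X) :
    ((sdg X d : Mt X A) * M) a b = ((d a : ℝ) : ℂ) • M a b := by
  unfold sdg
  rw [dgm_mul_apply, smul_mul_assoc, one_mul]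

theorem mul_sdg_apply (d : X → ℝ) (M : Mt X A) (a b : X) :
    (M * (sdg X d : Mt X A)) a b = ((d b : ℝ) : ℂ) • M a b := by
  unfold sdg
  rw [mul_dgm_apply, mul_smul_comm, mul_one]

theorem norm_sdg_le (d : X → ℝ) (hd : ∀ c, |d c| ≤ 1) : ‖(sdg X d : Mt X A)‖ ≤ 1 := by
  refine norm_dgm_le _ zero_le_one fun c => ?_
  rw [norm_smul, Complex.norm_real, Real.norm_eq_abs]
  have hone : ‖(1 : A)‖ ≤ 1 := by
    rcases subsingleton_or_nontrivial A with h | h
    · rw [Subsingleton.elim (1 : A) 0, norm_zero]; norm_num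
    · rw [CStarRing.norm_one]
  exact mul_le_one₀ (hd c) (norm_nonneg _) hone

/-- localisation by finitely many functions -/
noncomputable def loc {L : Type} [Fintype L] (h : L → X → ℝ) (f : Mt X A) : Mt X A :=
  ∑ l, sdg X (h l) * f * sdg X (h l)

theorem TrAct.wk_sdg {J : Type} [Fintype J] (u : J → A) (d : X → ℝ) (f : Mt X A) :
    S.wk s u (sdg X d * f * sdg X d) = sdg X d * S.wk s u f * sdg X d := by
  unfold TrAct.wk
  rw [mul_smul_comm, smul_mul_assoc, Finset.mul_sum, Finset.sum_mul]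
  congr 1
  refine Finset.sum_congr rfl fun j _ => ?_
  ext a b
  rw [← map_star, S.mul_pid_apply, S.pid_mul_apply, mul_sdg_apply, sdg_mul_apply, mul_sdg_apply,
    sdg_mul_apply, S.mul_pid_apply, S.pid_mul_apply]
  simp only [mul_smul_comm, smul_mul_assoc]

theorem TrAct.wk_loc {J L : Type} [Fintype J] [Fintype L] (u : J → A) (h : L → X → ℝ)
    (f : Mt X A) (n : ℕ) : (S.wk s u)^[n] (loc h f) = loc h ((S.wk s u)^[n] f) := by
  induction n with
  | zero => rfl
  | succ n ih =>
    rw [Function.iterate_succ_apply', Function.iterate_succ_apply', ih]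
    unfold loc
    rw [S.wk_sum]
    exact Finset.sum_congr rfl fun l _ => S.wk_sdg s u _ _

theorem loc_sub {L : Type} [Fintype L] (h : L → X → ℝ) (f g : Mt X A) :
    loc h (f - g) = loc h f - loc h g := by
  unfold loc
  rw [← Finset.sum_sub_distrib]
  refine Finset.sum_congr rfl fun l _ => ?_
  rw [mul_sub, sub_mul]

/-- `f` is close to its localisation if it almost commutes with the localising functions -/
theorem TrAlg.L1_sub_loc {L : Type} [Fintype L] (h : L → X → ℝ) (hb : ∀ l c, |h l c| ≤ 1)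
    (f : Mt X A) (hs : ∀ a b, (∑ l, h l a ^ 2 ≠ 1) → f a b = 0) {ε : ℝ}
    (hf : ∀ l, T.L1 (sdg X (h l) * f - f * sdg X (h l)) ε) :
    T.L1 (f - loc h f) ((Fintype.card L : ℝ) * ε) := by
  have e1 : f - loc h f = ∑ l, sdg X (h l) * (sdg X (h l) * f - f * sdg X (h l)) := by
    have e2 : f = ∑ l, sdg X (h l) * (sdg X (h l) * f) := by
      ext a b
      rw [mt_sum_apply]
      simp only [sdg_mul_apply, smul_smul]
      rw [← Finset.sum_smul]
      by_cases h1 : ∑ l, h l a ^ 2 = 1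
      · have h2 : ∑ l, ((h l a : ℝ) : ℂ) * ((h l a : ℝ) : ℂ) = 1 := by
          have : ((∑ l, h l a ^ 2 : ℝ) : ℂ) = 1 := by rw [h1]; rfl
          rw [← this]
          push_cast
          exact Finset.sum_congr rfl fun l _ => by ring
        rw [h2, one_smul]
      · rw [hs a b h1, smul_zero]
    unfold loc
    nth_rewrite 1 [e2]
    rw [← Finset.sum_sub_distrib]
    refine Finset.sum_congr rfl fun l _ => ?_
    rw [mul_sub, ← mul_assoc (sdg X (h l)) f]
  rw [e1]
  have e3 := TrAlg.L1.sum T Finset.univ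
    (f := fun l => sdg X (h l) * (sdg X (h l) * f - f * sdg X (h l))) (a := fun _ : L => ε)
    fun l _ => (hf l).mul_left T (norm_sdg_le (h l) (hb l))
  rw [Finset.sum_const, Finset.card_univ, nsmul_eq_mul] at e3
  exact e3

theorem TrAct.sdg_ker (x : P → A) (d : X → ℝ) :
    sdg X d * S.ker s ζ x * sdg X d = S.ker s (fun c => d c * ζ c) x := by
  ext a b
  rw [mul_sdg_apply, sdg_mul_apply, S.ker_apply, S.ker_apply, smul_smul, smul_smul]
  congr 1
  push_cast
  ring

/-- two families with the same `∑ x x*` which are almost constant on the localising pieces have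
close localised kernels -/
theorem TrAct.L1_loc_ker {L Q : Type} [Fintype L] [Fintype Q] (h : L → X → ℝ)
    (hs : ∀ c, ζ c ≠ 0 → ∑ l, h l c ^ 2 = 1) (e : P → X) (he : Function.Injective e)
    (e' : Q → X) (he' : Function.Injective e') (x : P → A) (y : Q → A)
    (hxy : ∑ p, x p * star (x p) = ∑ q, y q * star (y q)) (g : L → G) {κ : ℝ} (hκ : 0 ≤ κ)
    (h1 : ∀ l c, h l c * ζ c ≠ 0 → ∑ p, ‖T.ι (S.α (s c) (x p) - S.α (g l) (x p))‖ ^ 2 ≤ κ)
    (h2 : ∀ l c, h l c * ζ c ≠ 0 → ∑ q, ‖T.ι (S.α (s c) (y q) - S.α (g l) (y q))‖ ^ 2 ≤ κ) :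
    T.L1 (loc h (S.ker s ζ x - S.ker s ζ y))
      (4 * Real.sqrt (κ * ∑ p, ‖T.ι (x p)‖ ^ 2) * ∑ c, ζ c ^ 2) := by
  set M := ∑ p, ‖T.ι (x p)‖ ^ 2 with hM
  have hM0 : 0 ≤ M := Finset.sum_nonneg fun _ _ => sq_nonneg _
  have hnsq : ∀ a : A, ‖T.ι a‖ ^ 2 = (T.τ (a * star a)).re := fun a => by
    rw [T.norm_sq, T.τ_mul_comm]
  have hMy : ∑ q, ‖T.ι (y q)‖ ^ 2 = M := by
    rw [hM]
    simp only [hnsq]
    rw [← Complex.re_sum, ← Complex.re_sum, ← T.τ_sum', ← T.τ_sum', hxy]
  set Z : L → ℝ := fun l => ∑ c, (h l c * ζ c) ^ 2 with hZ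
  have hZ0 : ∀ l, 0 ≤ Z l := fun l => Finset.sum_nonneg fun _ _ => sq_nonneg _
  -- one family, one piece
  have key : ∀ {R : Type} [Fintype R] (e : R → X) (he : Function.Injective e) (x : R → A)
      (hx : ∑ p, ‖T.ι (x p)‖ ^ 2 = M) (l : L)
      (h1 : ∀ c, h l c * ζ c ≠ 0 → ∑ p, ‖T.ι (S.α (s c) (x p) - S.α (g l) (x p))‖ ^ 2 ≤ κ),
      T.L1 (S.ker s (fun c => h l c * ζ c) x - S.ker (fun _ => g l) (fun c => h l c * ζ c) x)
        (2 * Real.sqrt (κ * M) * Z l) := by
    intro R _ e he x hx l h1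
    rw [← S.col_mul_star s _ e he, ← S.col_mul_star (fun _ => g l) _ e he]
    refine (T.L1_mul_star _ _).mono T ?_
    rw [S.hs_col s _ e he, S.hs_col (fun _ => g l) _ e he, hx, S.hs_col_sub s _ _ e he]
    have h3 : ∑ c, (h l c * ζ c) ^ 2 * ∑ p, ‖T.ι (S.α (s c) (x p) - S.α (g l) (x p))‖ ^ 2
        ≤ Z l * κ := by
      rw [hZ]
      simp only
      rw [Finset.sum_mul]
      refine Finset.sum_le_sum fun c _ => ?_
      by_cases h4 : h l c * ζ c = 0
      · rw [h4]; norm_num
      · exact mul_le_mul_of_nonneg_left (h1 c h4) (sq_nonneg _)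
    have h4 := Real.sqrt_le_sqrt h3
    have h5 : Real.sqrt (Z l * κ) * (Real.sqrt (Z l * M) + Real.sqrt (Z l * M))
        = 2 * Real.sqrt (κ * M) * Z l := by
      rw [Real.sqrt_mul (hZ0 l), Real.sqrt_mul (hZ0 l), Real.sqrt_mul hκ]
      have := Real.mul_self_sqrt (hZ0 l)
      linear_combination 2 * Real.sqrt κ * Real.sqrt M * this
    rw [← h5]
    exact mul_le_mul_of_nonneg_right h4 (by positivity)
  have hone : ∀ l, T.L1 (sdg X (h l) * (S.ker s ζ x - S.ker s ζ y) * sdg X (h l))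
      (4 * Real.sqrt (κ * M) * Z l) := by
    intro l
    have e1 : sdg X (h l) * (S.ker s ζ x - S.ker s ζ y) * sdg X (h l)
        = (S.ker s (fun c => h l c * ζ c) x - S.ker (fun _ => g l) (fun c => h l c * ζ c) x)
          - (S.ker s (fun c => h l c * ζ c) y
            - S.ker (fun _ => g l) (fun c => h l c * ζ c) y) := by
      have e2 : S.ker (fun _ => g l) (fun c => h l c * ζ c) x
          = S.ker (fun _ => g l) (fun c => h l c * ζ c) y := by
        ext a b
        rw [S.ker_apply, S.ker_apply]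
        congr 1
        have e3 : ∀ {R : Type} [Fintype R] (z : R → A),
            ∑ p, S.α (g l) (z p) * star (S.α (g l) (z p)) = S.α (g l) (∑ p, z p * star (z p)) := by
          intro R _ z
          rw [map_sum]
          exact Finset.sum_congr rfl fun p _ => by rw [map_mul, map_star]
        rw [e3, e3, hxy]
      rw [mul_sub, sub_mul, S.sdg_ker, S.sdg_ker, e2]
      abel
    rw [e1]
    refine ((key e he x rfl l (h1 l)).sub T (key e' he' y hMy l (h2 l))).mono T (le_of_eq ?_)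
    ring
  have hsum : ∑ l, Z l = ∑ c, ζ c ^ 2 := by
    rw [hZ]
    simp only
    rw [Finset.sum_comm]
    refine Finset.sum_congr rfl fun c _ => ?_
    simp only [mul_pow]
    rw [← Finset.sum_mul]
    by_cases h0 : ζ c = 0
    · rw [h0]; norm_num
    · rw [hs c h0, one_mul]
  unfold loc
  have e4 := TrAlg.L1.sum T Finset.univ (f := fun l => sdg X (h l) * (S.ker s ζ x - S.ker s ζ y)
    * sdg X (h l)) (a := fun l => 4 * Real.sqrt (κ * M) * Z l) fun l _ => hone l
  rw [← Finset.mul_sum, hsum] at e4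
  exact e4

end gram

end Pool.Agent.AbCoc
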