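import Pool.Agent.Lib_MP_418a80_nm.RelB

/-!
# REL, part C1: lower bound for the off-diagonal block of the square root of the Gram matrix
-/

set_option autoImplicit false
set_option linter.unusedVariables false
set_option linter.unusedSectionVars false

open Topology Filter

namespace Pool.Agent.AbCoc

universe u v w

section
variable {A : Type u} [CStarAlgebra A] [PartialOrder A] [StarOrderedRing A]
  {K : Type v} [NormedAddCommGroup K] [InnerProductSpace ℂ K] (T : TrAlg A K)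
  {X : Type} [Fintype X] [DecidableEq X] [Nonempty X]

theorem TrAlg.hs_star (M : Mt X A) : T.hs (star M) = T.hs M := by
  rw [T.hs_eq_Tr, T.hs_eq_Tr, star_star, T.TrM_mul_comm]

/-- `|TrM(W* p q)| ≤ ‖p‖₂ ‖q‖₂` for a contraction `W` -/
theorem TrAlg.norm_Tr_le' (W p q : Mt X A) (hW : ‖W‖ ≤ 1) :
    ‖T.TrM (star W * p * q)‖ ≤ Real.sqrt (T.hs p) * Real.sqrt (T.hs q) := by
  have h1 : T.TrM (star W * p * q) = T.TrM (star (star q) * star W * p) := by
    rw [star_star, T.TrM_mul_comm, ← mul_assoc]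
  rw [h1]
  refine (T.norm_Tr_le _ _ _).trans ?_
  rw [T.hs_star, _root_.norm_star]
  have h2 : ‖W‖ * (Real.sqrt (T.hs q) * Real.sqrt (T.hs p))
      ≤ 1 * (Real.sqrt (T.hs q) * Real.sqrt (T.hs p)) :=
    mul_le_mul_of_nonneg_right hW (by positivity)
  linarith

/-- contractions do not increase the Hilbert-Schmidt norm -/
theorem TrAlg.hs_mul_le (p k : Mt X A) (hp : ‖p‖ ≤ 1) : T.hs (p * k) ≤ T.hs k := by
  rw [T.hs_eq, T.hs_eq]
  refine mul_le_mul_of_nonneg_left ?_ (Nat.cast_nonneg _)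
  refine pow_le_pow_left₀ (norm_nonneg _) (((T.ampT X).mul_le _ _).trans ?_) 2
  calc ‖p‖ * ‖(T.ampT X).ι k‖ ≤ 1 * ‖(T.ampT X).ι k‖ :=
        mul_le_mul_of_nonneg_right hp (norm_nonneg _)
    _ = _ := one_mul _

theorem TrAlg.hs_mul_le' (k p : Mt X A) (hp : ‖p‖ ≤ 1) : T.hs (k * p) ≤ T.hs k := by
  rw [← T.hs_star, star_mul]
  refine (T.hs_mul_le _ _ (by rwa [_root_.norm_star])).trans ?_
  rw [T.hs_star]

/-- unnormalised version of the fidelity lemma -/
theorem TrAlg.fidelity_T (V1 V2 : Mt X A) {c : ℝ} (hc : T.L1 (V1 * star V1 - V2 * star V2) c)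
    {δ : ℝ} (hδ : 0 < δ) :
    ∃ g : Mt X A, ‖star V1 * g * V2‖ ≤ 1 ∧
      (T.hs V1 + T.hs V2 - c) / 2 - δ ≤ (T.TrM (star (star V1 * g * V2) * (star V1 * V2))).re := by
  let _ : PartialOrder (Mt X A) := CStarAlgebra.spectralOrder _
  let _ : StarOrderedRing (Mt X A) := CStarAlgebra.spectralOrderedRing _
  have hm := TrAlg.card_pos' (I := X)
  set m : ℝ := (Fintype.card X : ℝ) with hmd
  obtain ⟨g, h1, h2⟩ := (T.ampT X).fidelity V1 V2 (c := m⁻¹ * c) (fun y hy => by
    have h1 := hc y hy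
    rw [T.TrM_mul_comm, T.TrM_eq, norm_mul, Complex.norm_natCast] at h1
    rw [← div_eq_inv_mul, le_div_iff₀ hm]
    linarith) (δ := m⁻¹ * δ) (by positivity)
  refine ⟨g, h1, ?_⟩
  rw [T.TrM_eq, T.hs_eq, T.hs_eq, ← Complex.ofReal_natCast, Complex.re_ofReal_mul]
  have h3 := mul_le_mul_of_nonneg_left h2 hm.le
  refine le_trans (le_of_eq ?_) h3
  rw [← hmd]
  field_simp

/-- lower bound for the block `E1 k E2` of the square root `k` of a positive matrix `h` close to
`(V1 + V2)* (V1 + V2)` -/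
theorem TrAlg.block_bound (V1 V2 E1 E2 h k : Mt X A) {c c' : ℝ}
    (hE1 : star E1 = E1) (hE2 : star E2 = E2) (hE12 : E1 * E2 = 0) (hE21 : E2 * E1 = 0)
    (hE11 : E1 * E1 = E1) (hE22 : E2 * E2 = E2) (hn1 : ‖E1‖ ≤ 1) (hn2 : ‖E2‖ ≤ 1)
    (hV1 : V1 * E1 = V1) (hV2 : V2 * E2 = V2)
    (hc : T.L1 (V1 * star V1 - V2 * star V2) c) (hk : k * k = h)
    (hEk : (E1 + E2) * k = k) (hks : star k = k)
    (hc' : T.L1 (star (V1 + V2) * (V1 + V2) - h) c') :
    (T.hs V1 + T.hs V2 - c) / 2 - c'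
      ≤ 2 * (Real.sqrt (T.hs k) * Real.sqrt (T.hs (E1 * k * E2))) := by
  refine le_of_forall_pos_le_add fun δ hδ => ?_
  obtain ⟨g, hg1, hg2⟩ := T.fidelity_T V1 V2 hc hδ
  set W := star V1 * g * V2 with hW
  have hWE : E1 * W * E2 = W := by
    rw [hW]
    have h1 : E1 * star V1 = star V1 := by
      rw [← hE1, ← star_mul, hV1]
    calc E1 * (star V1 * g * V2) * E2 = (E1 * star V1) * g * (V2 * E2) := by noncomm_ring
      _ = _ := by rw [h1, hV2]
  have hWs : E2 * star W * E1 = star W := by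
    have := congrArg star hWE
    rwa [star_mul, star_mul, hE1, hE2, ← mul_assoc] at this
  have e1 : star V1 * V2 = E1 * (star (V1 + V2) * (V1 + V2)) * E2 := by
    have h1 : V2 * E1 = 0 := by rw [← hV2, mul_assoc, hE21, mul_zero]
    have h2 : V1 * E2 = 0 := by rw [← hV1, mul_assoc, hE12, mul_zero]
    have h3 : (V1 + V2) * E2 = V2 := by rw [add_mul, h2, hV2, zero_add]
    have h4 : E1 * star (V1 + V2) = star V1 := by
      rw [← hE1, ← star_mul, add_mul, h1, hV1, add_zero]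
    calc star V1 * V2 = (E1 * star (V1 + V2)) * ((V1 + V2) * E2) := by rw [h3, h4]
      _ = _ := by noncomm_ring
  have e2 : T.TrM (star W * (star V1 * V2)) = T.TrM (star W * (star (V1 + V2) * (V1 + V2))) := by
    rw [e1, ← mul_assoc, T.TrM_mul_comm, ← mul_assoc, ← mul_assoc, hWs]
  have e3 : T.TrM (star W * (star (V1 + V2) * (V1 + V2)))
      = T.TrM (star W * (star (V1 + V2) * (V1 + V2) - h)) + T.TrM (star W * h) := by
    rw [← T.TrM_add, ← mul_add, sub_add_cancel]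
  have hWn : ‖star W‖ ≤ 1 := by rw [_root_.norm_star]; exact hg1
  have b1 : ‖T.TrM (star W * (star (V1 + V2) * (V1 + V2) - h))‖ ≤ c' := hc' _ hWn
  set k11 := E1 * k * E1 with hk11
  set k12 := E1 * k * E2 with hk12
  set k22 := E2 * k * E2 with hk22
  have e4 : T.TrM (star W * h) = T.TrM (star W * k11 * k12) + T.TrM (star W * k12 * k22) := by
    have h1 : star W * h = E2 * star W * E1 * (k * ((E1 + E2) * k)) := by
      rw [hWs, hEk, hk]
    have h2 : T.TrM (star W * h) = T.TrM (star W * E1 * (k * ((E1 + E2) * k)) * E2) := by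
      rw [h1]
      have : E2 * star W * E1 * (k * ((E1 + E2) * k)) = E2 * (star W * E1 * (k * ((E1 + E2) * k))) := by
        noncomm_ring
      rw [this, T.TrM_mul_comm]
    rw [h2, ← T.TrM_add]
    congr 1
    rw [hk11, hk12, hk22]
    have h3 : star W * (E1 * k * E1) * (E1 * k * E2) = star W * E1 * k * (E1 * E1) * k * E2 := by
      noncomm_ring
    have h4 : star W * (E1 * k * E2) * (E2 * k * E2) = star W * E1 * k * (E2 * E2) * k * E2 := by
      noncomm_ring
    rw [h3, h4, hE11, hE22]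
    noncomm_ring
  have b2 := T.norm_Tr_le' W k11 k12 hg1
  have b3 := T.norm_Tr_le' W k12 k22 hg1
  have b4 : T.hs k11 ≤ T.hs k := (T.hs_mul_le' _ _ hn1).trans (T.hs_mul_le _ _ hn1)
  have b5 : T.hs k22 ≤ T.hs k := (T.hs_mul_le' _ _ hn2).trans (T.hs_mul_le _ _ hn2)
  have b6 := Real.sqrt_le_sqrt b4
  have b7 := Real.sqrt_le_sqrt b5
  have b8 : Real.sqrt (T.hs k11) * Real.sqrt (T.hs k12)
      ≤ Real.sqrt (T.hs k) * Real.sqrt (T.hs k12) :=
    mul_le_mul_of_nonneg_right b6 (Real.sqrt_nonneg _)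
  have b9 : Real.sqrt (T.hs k12) * Real.sqrt (T.hs k22)
      ≤ Real.sqrt (T.hs k12) * Real.sqrt (T.hs k) :=
    mul_le_mul_of_nonneg_left b7 (Real.sqrt_nonneg _)
  rw [e2, e3, e4, Complex.add_re, Complex.add_re] at hg2
  have r1 := Complex.re_le_norm (T.TrM (star W * (star (V1 + V2) * (V1 + V2) - h)))
  have r2 := Complex.re_le_norm (T.TrM (star W * k11 * k12))
  have r3 := Complex.re_le_norm (T.TrM (star W * k12 * k22))
  linarith

end

end Pool.Agent.AbCoc
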