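import Pool.Agent.Lib_MP_418a80_nm.RelC1
import Pool.Agent.Lib_MP_418a80_hyp.Ent

/-!
# REL, part C2: families extracted from the square root of an averaged Gram matrix
-/

set_option autoImplicit false
set_option linter.unusedVariables false
set_option linter.unusedSectionVars false

open MeasureTheory Topology Filter

namespace Pool.Agent.AbCoc

universe u v w

section
variable {B : Type u} [CStarAlgebra B] [PartialOrder B] [StarOrderedRing B]
  {K : Type v} [NormedAddCommGroup K] [InnerProductSpace ℂ K] [CompleteSpace K]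
  {G : Type w} [Group G] [TopologicalSpace G] {T : TrAlg B K} (S : TrAct G T)
  [IsTopologicalGroup G] [SecondCountableTopology G] [MeasurableSpace G] [BorelSpace G]
  (μ : Measure G)

/-- bounds for the square root of an averaged Gram element -/
theorem TrAct.sqrt_mul_le {F : G → ℝ} (hF : Integrable F μ) (hF0 : ∀ t, 0 ≤ F t)
    (hF1 : ∫ t, F t ∂μ = 1) {Y h k : B} (hh : T.ι h = ∫ t, F t • T.ι (S.α t (star Y * Y)) ∂μ)
    (hk : 0 ≤ k) (hkh : k * k = h) (x : B) {b : ℝ}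
    (hb : ∀ t, ‖T.ι (S.α t Y * x)‖ ^ 2 ≤ b) : ‖T.ι (k * x)‖ ^ 2 ≤ b := by
  rw [T.norm_sqrt_mul hk hkh]
  have h1 : T.τ (star x * h * x) = T.τ ((x * star x) * h) := by
    rw [T.τ_mul_comm, ← mul_assoc]
  rw [h1, S.τ_orbit μ hF hh]
  have h2 : ∀ t, (F t : ℂ) * T.τ ((x * star x) * S.α t (star Y * Y))
      = ((F t * ‖T.ι (S.α t Y * x)‖ ^ 2 : ℝ) : ℂ) := by
    intro t
    have e1 : T.τ ((x * star x) * S.α t (star Y * Y))
        = ((‖T.ι (S.α t Y * x)‖ ^ 2 : ℝ) : ℂ) := by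
      have e2 : T.τ ((x * star x) * S.α t (star Y * Y)) = T.τ (star (S.α t Y * x) * (S.α t Y * x)) := by
        rw [mul_assoc, T.τ_mul_comm, star_mul, map_mul, map_star]
        congr 1
        noncomm_ring
      rw [e2, ← T.inner_eq_τ, inner_self_eq_norm_sq_to_K]
      norm_cast
    rw [e1]
    push_cast
    rfl
  rw [integral_congr_ae (Eventually.of_forall h2), integral_complex_ofReal, Complex.ofReal_re]
  have h3 : ∀ t, F t * ‖T.ι (S.α t Y * x)‖ ^ 2 ≤ F t * b := fun t =>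
    mul_le_mul_of_nonneg_left (hb t) (hF0 t)
  refine (integral_mono_of_nonneg (Eventually.of_forall fun t => mul_nonneg (hF0 t) (sq_nonneg _))
    (hF.mul_const b) (Eventually.of_forall h3)).trans (le_of_eq ?_)
  rw [integral_mul_const, hF1, one_mul]

end

section
variable {B : Type u} [CStarAlgebra B]
  {K : Type v} [NormedAddCommGroup K] [InnerProductSpace ℂ K] [CompleteSpace K]
  {G : Type w} [Group G] [TopologicalSpace G] {T : TrAlg B K} (S : TrAct G T)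
  [IsTopologicalGroup G] [SecondCountableTopology G] [MeasurableSpace G] [BorelSpace G]
  (μ : Measure G)

theorem TrAct.sqrt_mul_le' {F : G → ℝ} (hF : Integrable F μ) (hF0 : ∀ t, 0 ≤ F t)
    (hF1 : ∫ t, F t ∂μ = 1) {Y h k : B} (hh : T.ι h = ∫ t, F t • T.ι (S.α t (star Y * Y)) ∂μ)
    (hk : ∃ y, k = star y * y) (hkh : k * k = h) (x : B) {b : ℝ}
    (hb : ∀ t, ‖T.ι (S.α t Y * x)‖ ^ 2 ≤ b) : ‖T.ι (k * x)‖ ^ 2 ≤ b := by
  let _ : PartialOrder B := CStarAlgebra.spectralOrder B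
  let _ : StarOrderedRing B := CStarAlgebra.spectralOrderedRing B
  exact S.sqrt_mul_le μ hF hF0 hF1 hh (CStarAlgebra.nonneg_iff_eq_star_mul_self.2 hk) hkh x hb

theorem TrAct.sqrt_near' [μ.IsMulLeftInvariant] {F : G → ℝ} (hF : Integrable F μ) {Y h k : B}
    (hh : T.ι h = ∫ t, F t • T.ι (S.α t (star Y * Y)) ∂μ) (hk : ∃ y, k = star y * y)
    (hkh : k * k = h) (g : G) :
    ‖T.ι (S.α g k - k)‖ ^ 2 ≤ ‖T.ι Y‖ ^ 2 * ∫ t, |F (g⁻¹ * t) - F t| ∂μ := by
  let _ : PartialOrder B := CStarAlgebra.spectralOrder B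
  let _ : StarOrderedRing B := CStarAlgebra.spectralOrderedRing B
  rw [T.norm_sq Y]
  exact S.sqrt_near μ hF (star_mul_self_nonneg _) hh
    (CStarAlgebra.nonneg_iff_eq_star_mul_self.2 hk) hkh g

theorem TrAct.norm_sqrt_sq' {F : G → ℝ} (hF : Integrable F μ) (hF1 : ∫ t, F t ∂μ = 1)
    {Y h k : B} (hh : T.ι h = ∫ t, F t • T.ι (S.α t (star Y * Y)) ∂μ)
    (hk : ∃ y, k = star y * y) (hkh : k * k = h) : ‖T.ι k‖ ^ 2 = ‖T.ι Y‖ ^ 2 := by
  let _ : PartialOrder B := CStarAlgebra.spectralOrder B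
  let _ : StarOrderedRing B := CStarAlgebra.spectralOrderedRing B
  rw [T.norm_sq Y]
  exact S.norm_sqrt_sq μ hF hF1 hh (CStarAlgebra.nonneg_iff_eq_star_mul_self.2 hk) hkh

/-- the averaged Gram element and its square root -/
theorem TrAct.exists_avg_sqrt {F : G → ℝ} (hF : Integrable F μ) (hF0 : ∀ t, 0 ≤ F t)
    (hF1 : ∫ t, F t ∂μ = 1) (Y : B) :
    ∃ h k : B, T.ι h = ∫ t, F t • T.ι (S.α t (star Y * Y)) ∂μ ∧ (∃ y, k = star y * y) ∧
      star k = k ∧ k * k = h ∧ ∀ x : B, x * h = 0 → x * k = 0 := by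
  let _ : PartialOrder B := CStarAlgebra.spectralOrder B
  let _ : StarOrderedRing B := CStarAlgebra.spectralOrderedRing B
  obtain ⟨h, h0, _, hh⟩ := S.exists_orbit_avg μ hF hF0 hF1 (star_mul_self_nonneg Y)
  obtain ⟨k, hk0, hk⟩ := hyp_exists_sqrt h0
  exact ⟨h, k, hh, CStarAlgebra.nonneg_iff_eq_star_mul_self.1 hk0,
    (IsSelfAdjoint.of_nonneg hk0).star_eq, hk, fun x hx => hyp_mul_sqrt_eq_zero hk0 hk hx⟩

end

section
variable {A : Type u} [CStarAlgebra A] [PartialOrder A] [StarOrderedRing A]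
  {K : Type v} [NormedAddCommGroup K] [InnerProductSpace ℂ K] (T : TrAlg A K)
  {X : Type} [Fintype X] [DecidableEq X]

open Classical in
/-- the indicator of the range -/
noncomputable def rind {R : Type} (f : R → X) (c : X) : ℝ := if ∃ r, f r = c then 1 else 0

theorem rind_mem {R : Type} (f : R → X) (r : R) : rind f (f r) = 1 := if_pos ⟨r, rfl⟩

theorem rind_not {R : Type} (f : R → X) (c : X) (h : ∀ r, f r ≠ c) : rind f c = 0 :=
  if_neg fun ⟨r, hr⟩ => h r hr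

theorem rind_abs_le {R : Type} (f : R → X) (c : X) : |rind f c| ≤ 1 := by
  unfold rind
  split_ifs <;> simp

theorem rind_sq {R : Type} (f : R → X) (c : X) : rind f c * rind f c = rind f c := by
  unfold rind
  split_ifs <;> simp

theorem sdg_star (d : X → ℝ) : star (sdg X d : Mt X A) = sdg X d := by
  unfold sdg
  rw [← map_star]
  congr 1
  funext c
  rw [Pi.star_apply, star_smul, star_one]
  simp

theorem sdg_mul_sdg (d d' : X → ℝ) : (sdg X d : Mt X A) * sdg X d' = sdg X fun c => d c * d' c := by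
  unfold sdg
  rw [← map_mul]
  congr 1
  funext c
  rw [Pi.mul_apply, smul_mul_smul_comm, one_mul, Complex.ofReal_mul]

theorem sdg_zero' (d : X → ℝ) (h : ∀ c, d c = 0) : (sdg X d : Mt X A) = 0 := by
  unfold sdg
  rw [← map_zero (dgm (A := A) X)]
  congr 1
  funext c
  rw [h]
  simp

/-- sum over an injective image -/
theorem sum_le_of_inj {R : Type} [Fintype R] (f : R → X) (hf : Function.Injective f) (g : X → ℝ)
    (hg : ∀ c, 0 ≤ g c) : ∑ r, g (f r) ≤ ∑ c, g c := by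
  classical
  rw [← Finset.sum_image (s := Finset.univ) (g := f) (f := g) fun a _ b _ h => hf h]
  exact Finset.sum_le_sum_of_subset_of_nonneg (Finset.subset_univ _) fun c _ _ => hg c

theorem TrAlg.hs_block [Nonempty X] {R1 R2 : Type} [Fintype R1] [Fintype R2] (f1 : R1 → X) (f2 : R2 → X)
    (h1 : Function.Injective f1) (h2 : Function.Injective f2) (M : Mt X A) :
    T.hs ((sdg X (rind f1) : Mt X A) * M * (sdg X (rind f2) : Mt X A)) = ∑ r : R1 × R2, ‖T.ι (M (f1 r.1) (f2 r.2))‖ ^ 2 := by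
  have h0 : T.hs ((sdg X (rind f1) : Mt X A) * M * (sdg X (rind f2) : Mt X A))
      = ∑ a, ∑ b, ‖T.ι (((rind f2 b : ℝ) : ℂ) • ((rind f1 a : ℝ) : ℂ) • M a b)‖ ^ 2 := by
    unfold TrAlg.hs
    refine Finset.sum_congr rfl fun a _ => Finset.sum_congr rfl fun b _ => ?_
    rw [mul_sdg_apply, sdg_mul_apply]
  rw [h0, Fintype.sum_prod_type, TrAct.sum_emb f1 h1 (fun a => ∑ b, ‖T.ι (((rind f2 b : ℝ) : ℂ)
    • ((rind f1 a : ℝ) : ℂ) • M a b)‖ ^ 2)]
  · refine Finset.sum_congr rfl fun r _ => ?_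
    rw [TrAct.sum_emb f2 h2 (fun b => ‖T.ι (((rind f2 b : ℝ) : ℂ)
      • ((rind f1 (f1 r) : ℝ) : ℂ) • M (f1 r) b)‖ ^ 2)]
    · refine Finset.sum_congr rfl fun r' _ => ?_
      rw [rind_mem, rind_mem]
      simp
    · intro c hc
      rw [rind_not f2 c hc]
      simp
  · intro c hc
    refine Finset.sum_eq_zero fun b _ => ?_
    rw [rind_not f1 c hc]
    simp

theorem TrAlg.hs_entries_le {R1 R2 : Type} [Fintype R1] [Fintype R2] (f1 : R1 → X) (f2 : R2 → X)
    (h1 : Function.Injective f1) (h2 : Function.Injective f2) (M : Mt X A) :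
    ∑ r : R1 × R2, ‖T.ι (M (f1 r.1) (f2 r.2))‖ ^ 2 ≤ T.hs M := by
  unfold TrAlg.hs
  rw [Fintype.sum_prod_type]
  refine le_trans (Finset.sum_le_sum fun r _ => ?_)
    (sum_le_of_inj f1 h1 (fun a => ∑ b, ‖T.ι (M a b)‖ ^ 2)
      fun a => Finset.sum_nonneg fun _ _ => sq_nonneg _)
  exact sum_le_of_inj f2 h2 (fun b => ‖T.ι (M (f1 r) b)‖ ^ 2) fun _ => sq_nonneg _

end

section
variable {A : Type u} [CStarAlgebra A] [PartialOrder A] [StarOrderedRing A]
  {K : Type v} [NormedAddCommGroup K] [InnerProductSpace ℂ K] [CompleteSpace K]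
  {G : Type w} [Group G] [TopologicalSpace G] {T : TrAlg A K} (S : TrAct G T)
  [IsTopologicalGroup G] [SecondCountableTopology G] [MeasurableSpace G] [BorelSpace G]
  (μ : Measure G)
  {X : Type} [Fintype X] [DecidableEq X] [Nonempty X]

/-- domination of a block of columns of the square root -/
theorem TrAct.sqrt_entries_right {F : G → ℝ} (hF : Integrable F μ) (hF0 : ∀ t, 0 ≤ F t)
    (hF1 : ∫ t, F t ∂μ = 1) {Λ : Type} [Fintype Λ] (c0 : X) (e : Λ → X)
    (he : Function.Injective e) (z : Λ → A) {h k : Mt X A}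
    (hh : (T.ampT X).ι h = ∫ t, F t • (T.ampT X).ι ((S.ampT X).α t
      (star (S.row c0 e z) * S.row c0 e z)) ∂μ)
    (hk : ∃ y, k = star y * y) (hkh : k * k = h) {R : Type} [Fintype R] (ρ : R → Λ)
    (hρ : Function.Injective ρ) {C : ℝ}
    (hC : ∀ y : A, ∑ r, ‖T.ι (z (ρ r) * y)‖ ^ 2 ≤ C * ‖T.ι y‖ ^ 2) (y : A) :
    ∑ c, ∑ r, ‖T.ι (k c (e (ρ r)) * y)‖ ^ 2 ≤ C * ‖T.ι y‖ ^ 2 := by
  classical
  have hm := TrAlg.card_pos' (I := X)
  set D : Mt X A := dgm X fun c => if ∃ r, e (ρ r) = c then y else 0 with hD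
  have hinj : Function.Injective fun r => e (ρ r) := he.comp hρ
  have hentry : ∀ (M : Mt X A), T.hs (M * D) = ∑ c, ∑ r, ‖T.ι (M c (e (ρ r)) * y)‖ ^ 2 := by
    intro M
    unfold TrAlg.hs
    refine Finset.sum_congr rfl fun c _ => ?_
    simp only [hD, mul_dgm_apply]
    rw [TrAct.sum_emb (fun r => e (ρ r)) hinj
      (fun b => ‖T.ι (M c b * if ∃ r, e (ρ r) = b then y else 0)‖ ^ 2)]
    · refine Finset.sum_congr rfl fun r _ => ?_
      rw [if_pos ⟨r, rfl⟩]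
    · intro b hb
      rw [if_neg (by push Not; exact hb), mul_zero, map_zero, norm_zero]
      norm_num
  rw [← hentry, T.hs_eq]
  have hb : ∀ t, ‖(T.ampT X).ι ((S.ampT X).α t (S.row c0 e z) * D)‖ ^ 2
      ≤ (Fintype.card X : ℝ)⁻¹ * (C * ‖T.ι y‖ ^ 2) := by
    intro t
    have h1 : T.hs ((S.ampT X).α t (S.row c0 e z) * D) ≤ C * ‖T.ι y‖ ^ 2 := by
      rw [hentry, S.row_α c0 e he]
      have h2 : ∀ c, ∑ r, ‖T.ι (S.row c0 e (fun p => S.α t (z p)) c (e (ρ r)) * y)‖ ^ 2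
          = if c = c0 then ∑ r, ‖T.ι (z (ρ r) * S.α t⁻¹ y)‖ ^ 2 else 0 := by
        intro c
        unfold TrAct.row
        simp only [S.col_apply_emb _ _ e he, S.one]
        by_cases hc : c = c0
        · subst hc
          rw [if_pos rfl, Pi.single_eq_same]
          refine Finset.sum_congr rfl fun r _ => ?_
          rw [Complex.ofReal_one, one_smul, ← S.norm_map t⁻¹, map_mul, S.inv_apply]
        · rw [if_neg hc, Pi.single_eq_of_ne hc]
          simp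
      rw [Finset.sum_congr rfl fun c _ => h2 c, Finset.sum_ite_eq' Finset.univ c0,
        if_pos (Finset.mem_univ _)]
      refine (hC _).trans (le_of_eq ?_)
      rw [S.norm_map]
    rw [T.hs_eq] at h1
    rw [← div_eq_inv_mul, le_div_iff₀ hm]
    linarith
  have h3 := (S.ampT X).sqrt_mul_le' μ hF hF0 hF1 hh hk hkh D hb
  calc (Fintype.card X : ℝ) * ‖(T.ampT X).ι (k * D)‖ ^ 2
      ≤ (Fintype.card X : ℝ) * ((Fintype.card X : ℝ)⁻¹ * (C * ‖T.ι y‖ ^ 2)) :=
        mul_le_mul_of_nonneg_left h3 hm.le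
    _ = C * ‖T.ι y‖ ^ 2 := by rw [← mul_assoc, mul_inv_cancel₀ hm.ne', one_mul]

/-- near-invariance of the square root -/
theorem TrAct.sqrt_entries_near [μ.IsMulLeftInvariant] {F : G → ℝ} (hF : Integrable F μ)
    {Λ : Type} [Fintype Λ] (c0 : X) (e : Λ → X)
    (he : Function.Injective e) (z : Λ → A) {h k : Mt X A}
    (hh : (T.ampT X).ι h = ∫ t, F t • (T.ampT X).ι ((S.ampT X).α t
      (star (S.row c0 e z) * S.row c0 e z)) ∂μ)
    (hk : ∃ y, k = star y * y) (hkh : k * k = h) (g : G) :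
    T.hs ((S.ampT X).α g k - k) ≤ (∑ l, ‖T.ι (z l)‖ ^ 2) * ∫ t, |F (g⁻¹ * t) - F t| ∂μ := by
  have hm := TrAlg.card_pos' (I := X)
  have h1 := (S.ampT X).sqrt_near' μ hF hh hk hkh g
  have h2 : ‖(T.ampT X).ι (S.row c0 e z)‖ ^ 2
      = (Fintype.card X : ℝ)⁻¹ * ∑ l, ‖T.ι (z l)‖ ^ 2 := by
    rw [← S.hs_row c0 e he, T.hs_eq, ← mul_assoc, inv_mul_cancel₀ hm.ne', one_mul]
  rw [h2] at h1
  rw [T.hs_eq]
  calc (Fintype.card X : ℝ) * ‖(T.ampT X).ι ((S.ampT X).α g k - k)‖ ^ 2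
      ≤ (Fintype.card X : ℝ) * ((Fintype.card X : ℝ)⁻¹ * (∑ l, ‖T.ι (z l)‖ ^ 2)
        * ∫ t, |F (g⁻¹ * t) - F t| ∂μ) := mul_le_mul_of_nonneg_left h1 hm.le
    _ = _ := by rw [← mul_assoc, ← mul_assoc, mul_inv_cancel₀ hm.ne', one_mul]

/-- the Hilbert-Schmidt norm of the square root -/
theorem TrAct.hs_sqrt {F : G → ℝ} (hF : Integrable F μ) (hF1 : ∫ t, F t ∂μ = 1)
    {Λ : Type} [Fintype Λ] (c0 : X) (e : Λ → X)
    (he : Function.Injective e) (z : Λ → A) {h k : Mt X A}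
    (hh : (T.ampT X).ι h = ∫ t, F t • (T.ampT X).ι ((S.ampT X).α t
      (star (S.row c0 e z) * S.row c0 e z)) ∂μ)
    (hk : ∃ y, k = star y * y) (hkh : k * k = h) : T.hs k = ∑ l, ‖T.ι (z l)‖ ^ 2 := by
  have hm := TrAlg.card_pos' (I := X)
  rw [T.hs_eq, (S.ampT X).norm_sqrt_sq' μ hF hF1 hh hk hkh, ← S.hs_row c0 e he, T.hs_eq]

end

end Pool.Agent.AbCoc
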