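import Pool.Agent.Lib_MP_418a80_nm.RelC3

/-!
# REL, part C4: the family extracted from one sample
-/

set_option autoImplicit false
set_option linter.unusedVariables false
set_option linter.unusedSectionVars false

open MeasureTheory Topology Filter

namespace Pool.Agent.AbCoc

universe u v w

section
variable {A : Type u} [CStarAlgebra A] [PartialOrder A] [StarOrderedRing A]
  {K : Type v} [NormedAddCommGroup K] [InnerProductSpace ℂ K]
  {G : Type w} [Group G] [TopologicalSpace G] {T : TrAlg A K} (S : TrAct G T)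

/-- norms of families multiplied by a row with `∑ c* c = 1` -/
theorem TrAlg.sum_words {W : Type} [Fintype W] {c : W → A} (hc : ∑ w, star (c w) * c w = 1)
    (x : A) : ∑ w, ‖T.ι (c w * x)‖ ^ 2 = ‖T.ι x‖ ^ 2 := by
  have h1 : ∀ w, ‖T.ι (c w * x)‖ ^ 2 = (T.τ (star x * (star (c w) * c w) * x)).re := by
    intro w
    rw [T.norm_sq, star_mul]
    congr 2
    noncomm_ring
  rw [Finset.sum_congr rfl fun w _ => h1 w, ← Complex.re_sum, ← T.τ_sum', ← Finset.sum_mul,
    ← Finset.mul_sum, hc, mul_one, T.norm_sq]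

/-- the family `v*` and its complement -/
def relx1 {J : Type} (v : J → A) : J ⊕ Unit → A := Sum.elim (fun j => star (v j)) fun _ => 0

/-- the root and its complement -/
def relx2 {J : Type} (r : A) : J ⊕ Unit → A := Sum.elim (fun _ => 0) fun _ => r

/-- both -/
def relx {J : Type} (v : J → A) (r : A) : J ⊕ Unit → A := Sum.elim (fun j => star (v j)) fun _ => r

end

section
variable {A : Type u} [CStarAlgebra A] [PartialOrder A] [StarOrderedRing A]
  {K : Type v} [NormedAddCommGroup K] [InnerProductSpace ℂ K] [CompleteSpace K]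
  {G : Type w} [Group G] [TopologicalSpace G] {T : TrAlg A K} (S : TrAct G T)
  [IsTopologicalGroup G] [SecondCountableTopology G] [MeasurableSpace G] [BorelSpace G]
  (μ : Measure G)
  {X : Type} [Fintype X] [DecidableEq X] [Nonempty X]

/-- the family extracted from the square root of the averaged Gram matrix -/
theorem TrAct.rel_core [μ.IsMulLeftInvariant] {F : G → ℝ} (hF : Integrable F μ)
    (hF0 : ∀ t, 0 ≤ F t) (hF1 : ∫ t, F t ∂μ = 1) {J W : Type} [Fintype J] [Fintype W]
    (s : X → G) (ζ : X → ℝ) (hζ : ∑ c, ζ c ^ 2 = 1) (c0 : X) (e : W × (J ⊕ Unit) → X)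
    (he : Function.Injective e) (c : W → A) (hc : ∑ w, star (c w) * c w = 1) (v : J → A) (r : A)
    (hrs : star r = r) (hr : r * r = ∑ j, star (v j) * v j) {C : ℝ}
    (hd1 : ∀ z : A, ∑ j, ‖T.ι (v j * z)‖ ^ 2 ≤ C * ‖T.ι z‖ ^ 2)
    (hd2 : ∀ z : A, ∑ j, ‖T.ι (z * v j)‖ ^ 2 ≤ C * ‖T.ι z‖ ^ 2)
    {e1 e2 : A} (he1 : S.Fixed e1) (he2 : S.Fixed e2) (hs1 : star e1 = e1) (hs2 : star e2 = e2)
    (hv1 : ∀ j, star (v j) * e1 = star (v j)) (hr2 : r * e2 = r) {M : ℝ} (hM0 : 0 < M)
    (hM : ∑ j, ‖T.ι (v j)‖ ^ 2 = M)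
    (hL : T.L1 (S.ker s ζ (fun q : W × (J ⊕ Unit) => c q.1 * relx1 v q.2)
      - S.ker s ζ (fun q : W × (J ⊕ Unit) => c q.1 * relx2 r q.2)) (M / 2))
    {h k : Mt X A}
    (hh : (T.ampT X).ι h = ∫ t, F t • (T.ampT X).ι ((S.ampT X).α t
      (star (S.row c0 e fun q : W × (J ⊕ Unit) => c q.1 * relx v r q.2)
        * S.row c0 e fun q : W × (J ⊕ Unit) => c q.1 * relx v r q.2)) ∂μ)
    (hk : ∃ y, k = star y * y) (hks : star k = k) (hkh : k * k = h)
    (hkx : ∀ x : Mt X A, x * h = 0 → x * k = 0)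
    (hc' : T.L1 (star (S.col s ζ e fun q : W × (J ⊕ Unit) => c q.1 * relx v r q.2)
      * (S.col s ζ e fun q : W × (J ⊕ Unit) => c q.1 * relx v r q.2) - h) (M / 4)) :
    ∃ (R : Type) (_ : Fintype R) (a : R → A), (∀ i, e1 * a i * e2 = a i) ∧
      M / 32 ≤ ∑ i, ‖T.ι (a i)‖ ^ 2 ∧
      (∀ g, ∑ i, ‖T.ι (S.α g (a i) - a i)‖ ^ 2 ≤ 2 * M * ∫ t, |F (g⁻¹ * t) - F t| ∂μ) ∧
      (∀ z : A, ∑ i, ‖T.ι (a i * z)‖ ^ 2 ≤ C * ‖T.ι z‖ ^ 2) ∧
      (∀ z : A, ∑ i, ‖T.ι (z * a i)‖ ^ 2 ≤ C * ‖T.ι z‖ ^ 2) := by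
  classical
  set z : W × (J ⊕ Unit) → A := fun q => c q.1 * relx v r q.2 with hz
  set z1 : W × (J ⊕ Unit) → A := fun q => c q.1 * relx1 v q.2 with hz1
  set z2 : W × (J ⊕ Unit) → A := fun q => c q.1 * relx2 r q.2 with hz2
  set f1 : W × J → X := fun q => e (q.1, Sum.inl q.2) with hf1
  set f2 : W → X := fun w => e (w, Sum.inr ()) with hf2
  have hi1 : Function.Injective f1 := by
    intro a b hab
    have h1 := he hab
    simp only [Prod.mk.injEq, Sum.inl.injEq] at h1
    exact Prod.ext h1.1 h1.2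
  have hi2 : Function.Injective f2 := by
    intro a b hab
    have h1 := he hab
    simp only [Prod.mk.injEq, and_true] at h1
    exact h1
  have hf12 : ∀ a b, f1 a ≠ f2 b := by
    intro a b hab
    have h1 := he hab
    simp at h1
  -- norms
  have hv2 : ∀ w, z2 (w, Sum.inr ()) = c w * r := fun w => rfl
  have hM1 : ∑ q, ‖T.ι (z1 q)‖ ^ 2 = M := by
    rw [Fintype.sum_prod_type_right]
    simp only [hz1]
    rw [Finset.sum_congr rfl fun p _ => TrAlg.sum_words (T := T) hc (relx1 v p),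
      Fintype.sum_sum_type, ← hM]
    simp only [relx1, Sum.elim_inl, Sum.elim_inr, map_zero, norm_zero]
    simp only [T.norm_star]
    simp
  have hMr : ‖T.ι r‖ ^ 2 = M := by rw [TrAlg.norm_root_sq v hrs hr, hM]
  have hM2 : ∑ q, ‖T.ι (z2 q)‖ ^ 2 = M := by
    rw [Fintype.sum_prod_type_right]
    simp only [hz2]
    rw [Finset.sum_congr rfl fun p _ => TrAlg.sum_words (T := T) hc (relx2 r p),
      Fintype.sum_sum_type]
    simp only [relx2, Sum.elim_inl, Sum.elim_inr, map_zero, norm_zero]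
    simp [hMr]
  have hM3 : ∑ q, ‖T.ι (z q)‖ ^ 2 = 2 * M := by
    rw [Fintype.sum_prod_type_right]
    simp only [hz]
    rw [Finset.sum_congr rfl fun p _ => TrAlg.sum_words (T := T) hc (relx v r p),
      Fintype.sum_sum_type]
    simp only [relx, Sum.elim_inl, Sum.elim_inr]
    simp only [T.norm_star]
    simp only [Finset.univ_unique, Finset.sum_const, Finset.card_singleton, one_smul, hM, hMr]
    ring
  -- columns
  set V1 := S.col s ζ e z1 with hV1d
  set V2 := S.col s ζ e z2 with hV2d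
  set V := S.col s ζ e z with hVd
  set Y := S.row c0 e z with hYd
  have hzz : ∀ q, z q = z1 q + z2 q := by
    rintro ⟨w, p⟩
    simp only [hz, hz1, hz2]
    cases p with
    | inl j => simp only [relx, relx1, relx2, Sum.elim_inl, mul_zero, add_zero]
    | inr j => simp only [relx, relx1, relx2, Sum.elim_inr, mul_zero, zero_add]
  have hVV : V1 + V2 = V := by
    ext a b
    have h0 : (V1 + V2) a b = V1 a b + V2 a b := rfl
    rw [h0, hV1d, hV2d, hVd]
    by_cases hb : ∃ q, e q = b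
    · obtain ⟨q, rfl⟩ := hb
      rw [S.col_apply_emb s ζ e he, S.col_apply_emb s ζ e he, S.col_apply_emb s ζ e he, hzz,
        map_add, smul_add]
    · push Not at hb
      rw [S.col_apply_not s ζ e _ _ _ hb, S.col_apply_not s ζ e _ _ _ hb,
        S.col_apply_not s ζ e _ _ _ hb, add_zero]
  set E1 : Mt X A := sdg X (rind f1) with hE1d
  set E2 : Mt X A := sdg X (rind f2) with hE2d
  have hr12 : ∀ c, rind f1 c * rind f2 c = 0 := by
    intro c
    by_cases h1 : ∃ a, f1 a = c
    · obtain ⟨a, rfl⟩ := h1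
      rw [rind_not f2 _ fun b hb => hf12 a b hb.symm, mul_zero]
    · push Not at h1
      rw [rind_not f1 _ h1, zero_mul]
  have hV1 : V1 * E1 = V1 := by
    ext a b
    rw [hE1d, mul_sdg_apply, hV1d]
    by_cases hb : ∃ q, e q = b
    · obtain ⟨⟨w, p⟩, rfl⟩ := hb
      rw [S.col_apply_emb s ζ e he]
      cases p with
      | inl j =>
        rw [show e (w, Sum.inl j) = f1 (w, j) from rfl, rind_mem]
        simp
      | inr j => simp [hz1, relx1]
    · push Not at hb
      rw [S.col_apply_not s ζ e _ _ _ hb, smul_zero]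
  have hV2 : V2 * E2 = V2 := by
    ext a b
    rw [hE2d, mul_sdg_apply, hV2d]
    by_cases hb : ∃ q, e q = b
    · obtain ⟨⟨w, p⟩, rfl⟩ := hb
      rw [S.col_apply_emb s ζ e he]
      cases p with
      | inl j => simp [hz2, relx2]
      | inr j =>
        rw [show e (w, Sum.inr j) = f2 w from rfl, rind_mem]
        simp
    · push Not at hb
      rw [S.col_apply_not s ζ e _ _ _ hb, smul_zero]
  -- the support
  set d : X → A := fun b => if (∃ q, f1 q = b) then e1 else if (∃ w, f2 w = b) then e2 else 0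
    with hd
  have hd_1 : ∀ q, d (f1 q) = e1 := fun q => if_pos ⟨q, rfl⟩
  have hd_2 : ∀ w, d (f2 w) = e2 := by
    intro w
    simp only [hd]
    rw [if_neg, if_pos ⟨w, rfl⟩]
    rintro ⟨q, hq⟩
    exact hf12 q w hq
  have hd_s : ∀ b, star (d b) = d b := by
    intro b
    simp only [hd]
    split_ifs
    · exact hs1
    · exact hs2
    · exact star_zero _
  have hd_f : ∀ b g, S.α g (d b) = d b := by
    intro b g
    simp only [hd]
    split_ifs
    · exact he1 g
    · exact he2 g
    · exact map_zero _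
  set Eh : Mt X A := dgm X d with hEh
  have hEs : star Eh = Eh := by
    rw [hEh, ← map_star]
    congr 1
    funext b
    exact hd_s b
  have hEf : ∀ g, (S.ampT X).α g (1 - Eh) = 1 - Eh := by
    intro g
    rw [map_sub, map_one]
    congr 1
    ext a b
    rw [S.ampT_α_apply, hEh, dgm_apply]
    split_ifs
    · exact hd_f a g
    · exact map_zero _
  have hYE : Y * Eh = Y := by
    ext a b
    rw [hEh, mul_dgm_apply, hYd]
    unfold TrAct.row
    by_cases hb : ∃ q, e q = b
    · obtain ⟨⟨w, p⟩, rfl⟩ := hb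
      rw [S.col_apply_emb _ _ e he, S.one, smul_mul_assoc]
      congr 1
      cases p with
      | inl j =>
        rw [show e (w, Sum.inl j) = f1 (w, j) from rfl, hd_1]
        simp only [hz, relx, Sum.elim_inl]
        rw [mul_assoc, hv1]
      | inr j =>
        rw [show e (w, Sum.inr j) = f2 w from rfl, hd_2]
        simp only [hz, relx, Sum.elim_inr]
        rw [mul_assoc, hr2]
    · push Not at hb
      rw [S.col_apply_not _ _ e _ _ _ hb, zero_mul]
  have hkE0 : Eh * k = k := by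
    have h1 : (1 - Eh) * (star Y * Y) = 0 := by
      have h2 : Eh * star Y = star Y := by
        have h3 := congrArg star hYE
        rwa [star_mul, hEs] at h3
      rw [sub_mul, one_mul, ← mul_assoc, h2, sub_self]
    have h2 := hkx _ ((S.ampT X).avg_mul_zero μ hF hh hEf h1)
    rw [sub_mul, one_mul, sub_eq_zero] at h2
    exact h2.symm
  have hkE1 : k * Eh = k := by
    have h1 := congrArg star hkE0
    rwa [star_mul, hEs, hks] at h1
  have hkE : (E1 + E2) * k = k := by
    rw [add_mul]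
    ext a b
    have h0 : (E1 * k + E2 * k) a b = (E1 * k) a b + (E2 * k) a b := rfl
    rw [h0, hE1d, hE2d, sdg_mul_apply, sdg_mul_apply]
    by_cases h1 : ∃ q, f1 q = a
    · obtain ⟨q, rfl⟩ := h1
      rw [rind_mem, rind_not f2 _ fun b hb => hf12 q b hb.symm]
      simp
    · by_cases h2 : ∃ w, f2 w = a
      · obtain ⟨w, rfl⟩ := h2
        push Not at h1
        rw [rind_mem, rind_not f1 _ h1]
        simp
      · have h3 : k a b = 0 := by
          rw [← hkE0, hEh, dgm_mul_apply]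
          simp only [hd]
          rw [if_neg h1, if_neg h2, zero_mul]
        rw [h3]
        simp
  have hkk : ∀ a b, d a * k a b * d b = k a b := by
    intro a b
    rw [← dgm_mul_apply, ← mul_dgm_apply, ← hEh, hkE0, hkE1]
  -- lower bound
  have hn1 : ‖E1‖ ≤ 1 := norm_sdg_le _ (rind_abs_le f1)
  have hn2 : ‖E2‖ ≤ 1 := norm_sdg_le _ (rind_abs_le f2)
  have hE12 : E1 * E2 = 0 := by
    rw [hE1d, hE2d, sdg_mul_sdg]
    exact sdg_zero' _ hr12
  have hE21 : E2 * E1 = 0 := by
    rw [hE1d, hE2d, sdg_mul_sdg]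
    exact sdg_zero' _ fun c => by rw [mul_comm]; exact hr12 c
  have hE11 : E1 * E1 = E1 := by
    rw [hE1d, sdg_mul_sdg]
    congr 1
    funext c
    exact rind_sq f1 c
  have hE22 : E2 * E2 = E2 := by
    rw [hE2d, sdg_mul_sdg]
    congr 1
    funext c
    exact rind_sq f2 c
  have hL' : T.L1 (V1 * star V1 - V2 * star V2) (M / 2) := by
    rw [hV1d, hV2d, S.col_mul_star s ζ e he, S.col_mul_star s ζ e he]
    exact hL
  have hbb := T.block_bound V1 V2 E1 E2 h k (sdg_star _) (sdg_star _) hE12 hE21 hE11 hE22 hn1 hn2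
    hV1 hV2 hL' hkh hkE hks (by rw [hVV]; exact hc')
  rw [hV1d, hV2d, S.hs_col s ζ e he, S.hs_col s ζ e he, hM1, hM2, hζ, one_mul,
    S.hs_sqrt μ hF hF1 c0 e he z hh hk hkh, hM3, hE1d, hE2d, T.hs_block f1 f2 hi1 hi2] at hbb
  have hlow : M / 32 ≤ ∑ i : (W × J) × W, ‖T.ι (k (f1 i.1) (f2 i.2))‖ ^ 2 := by
    set Q := ∑ i : (W × J) × W, ‖T.ι (k (f1 i.1) (f2 i.2))‖ ^ 2 with hQ
    have hQ0 : 0 ≤ Q := Finset.sum_nonneg fun _ _ => sq_nonneg _
    have h1 : M / 2 ≤ 2 * (Real.sqrt (2 * M) * Real.sqrt Q) := by linarith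
    rw [← Real.sqrt_mul (by positivity)] at h1
    have h2 : (M / 2) ^ 2 ≤ (2 * Real.sqrt (2 * M * Q)) ^ 2 :=
      pow_le_pow_left₀ (by positivity) h1 2
    rw [mul_pow, Real.sq_sqrt (by positivity)] at h2
    nlinarith
  refine ⟨(W × J) × W, inferInstance, fun i => k (f1 i.1) (f2 i.2), fun i => ?_, hlow, fun g => ?_,
    fun y => ?_, fun y => ?_⟩
  · have h1 := hkk (f1 i.1) (f2 i.2)
    rwa [hd_1, hd_2] at h1
  · have h1 := T.hs_entries_le f1 f2 hi1 hi2 ((S.ampT X).α g k - k)
    have h2 := S.sqrt_entries_near μ hF c0 e he z hh hk hkh g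
    rw [hM3] at h2
    refine le_trans (le_of_eq ?_) (h1.trans h2)
    rfl
  · have h1 := S.sqrt_entries_right μ hF hF0 hF1 c0 e he z hh hk hkh (fun w : W => (w, Sum.inr ()))
      (fun a b hab => (Prod.mk.injEq _ _ _ _ ▸ hab).1) (C := C) (fun y => by
        have h2 : ∀ w, z (w, Sum.inr ()) * y = c w * (r * y) := by
          intro w
          simp only [hz, relx, Sum.elim_inr, mul_assoc]
        simp only [h2]
        rw [TrAlg.sum_words (T := T) hc]
        have h3 : ‖T.ι (r * y)‖ ^ 2 = ∑ j, ‖T.ι (v j * y)‖ ^ 2 := by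
          have h4 : ∀ j, ‖T.ι (v j * y)‖ ^ 2 = (T.τ (star y * (star (v j) * v j) * y)).re := by
            intro j
            rw [T.norm_sq, star_mul]
            congr 2
            noncomm_ring
          rw [Finset.sum_congr rfl fun j _ => h4 j, ← Complex.re_sum, ← T.τ_sum',
            ← Finset.sum_mul, ← Finset.mul_sum, ← hr, T.norm_sq, star_mul, hrs]
          congr 2
          noncomm_ring
        rw [h3]
        exact hd1 y) y
    rw [Fintype.sum_prod_type]
    refine le_trans ?_ h1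
    exact sum_le_of_inj f1 hi1 (fun a => ∑ w, ‖T.ι (k a (f2 w) * y)‖ ^ 2)
      fun a => Finset.sum_nonneg fun _ _ => sq_nonneg _
  · have h1 := S.sqrt_entries_right μ hF hF0 hF1 c0 e he z hh hk hkh
      (fun q : W × J => (q.1, Sum.inl q.2))
      (fun a b hab => by
        simp only [Prod.mk.injEq, Sum.inl.injEq] at hab
        exact Prod.ext hab.1 hab.2) (C := C) (fun y => by
        rw [Fintype.sum_prod_type_right]
        have h2 : ∀ j, ∑ w, ‖T.ι (z (w, Sum.inl j) * y)‖ ^ 2 = ‖T.ι (star y * v j)‖ ^ 2 := by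
          intro j
          have h3 : ∀ w, z (w, Sum.inl j) * y = c w * (star (v j) * y) := by
            intro w
            simp only [hz, relx, Sum.elim_inl, mul_assoc]
          simp only [h3]
          rw [TrAlg.sum_words (T := T) hc, ← T.norm_star, star_mul, star_star]
        refine (Finset.sum_le_sum fun j _ => le_of_eq (h2 j)).trans ((hd2 (star y)).trans ?_)
        rw [T.norm_star]) (star y)
    rw [T.norm_star] at h1
    have h2 : ∀ i : (W × J) × W, ‖T.ι (y * k (f1 i.1) (f2 i.2))‖ ^ 2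
        = ‖T.ι (k (f2 i.2) (f1 i.1) * star y)‖ ^ 2 := by
      intro i
      rw [← T.norm_star, star_mul]
      have h3 : star (k (f1 i.1) (f2 i.2)) = k (f2 i.2) (f1 i.1) := by
        conv_rhs => rw [← hks]
        rfl
      rw [h3]
    rw [Finset.sum_congr rfl fun i _ => h2 i, Fintype.sum_prod_type_right]
    refine le_trans ?_ h1
    exact sum_le_of_inj f2 hi2 (fun a => ∑ q, ‖T.ι (k a (f1 q) * star y)‖ ^ 2)
      fun a => Finset.sum_nonneg fun _ _ => sq_nonneg _

end

end Pool.Agent.AbCoc
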