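import Pool.Agent.Lib_MP_418a80_nm.RelC4

/-!
# REL, part C5: comparison of samples with the integral
-/

set_option autoImplicit false
set_option linter.unusedVariables false
set_option linter.unusedSectionVars false

open MeasureTheory Topology Filter

namespace Pool.Agent.AbCoc

universe u v w

section
variable {A : Type u} [CStarAlgebra A] [PartialOrder A] [StarOrderedRing A]
  {K : Type v} [NormedAddCommGroup K] [InnerProductSpace ℂ K]
  {G : Type w} [Group G] [TopologicalSpace G] {T : TrAlg A K} (S : TrAct G T)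

theorem TrAlg.L1_of_ampT {X : Type} [Fintype X] [DecidableEq X] [Nonempty X] (f : Mt X A) {ε : ℝ}
    (h : ∀ y : Mt X A, ‖(T.ampT X).τ (y * f)‖ ≤ ‖y‖ * ε) (hε : 0 ≤ ε) :
    T.L1 f ((Fintype.card X : ℝ) * ε) := fun y hy => by
  rw [T.TrM_eq, norm_mul, Complex.norm_natCast]
  refine mul_le_mul_of_nonneg_left ((h y).trans ?_) (Nat.cast_nonneg _)
  exact mul_le_of_le_one_left hε hy

/-- oscillation of a family of products of words and finitely many elements -/
theorem TrAct.rel_words_osc {J : Type} [Fintype J] [Nonempty J] {u : J → A} {n : ℕ} {W : Type}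
    [Fintype W] {c : W → A} (hW : S.IsWords u n c) {P : Type} [Fintype P] (x : P → A) (s t : G)
    {η η' : ℝ} (hη : 0 ≤ η) (hη' : 0 ≤ η') (h1 : ∀ j, ‖T.ι (S.α s (u j) - S.α t (u j))‖ ≤ η)
    (h2 : ∑ p, ‖T.ι (S.α s (x p) - S.α t (x p))‖ ^ 2 ≤ η' ^ 2) :
    ∑ q : W × P, ‖T.ι (S.α s (c q.1 * x q.2) - S.α t (c q.1 * x q.2))‖ ^ 2
      ≤ (n * η * Real.sqrt (∑ p, ‖x p‖ ^ 2) + η') ^ 2 := by
  have hdec : ∀ q : W × P, T.ι (S.α s (c q.1 * x q.2) - S.α t (c q.1 * x q.2))
      = T.ι ((S.α s (c q.1) - S.α t (c q.1)) * S.α s (x q.2))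
        + T.ι (S.α t (c q.1) * (S.α s (x q.2) - S.α t (x q.2))) := by
    intro q
    rw [← map_add, map_mul, map_mul]
    congr 1
    noncomm_ring
  simp only [hdec]
  refine rel_sum_norm_sq_add Finset.univ K _ _ _ _ (by positivity) hη' ?_ ?_
  · rw [Fintype.sum_prod_type_right, mul_pow, Real.sq_sqrt (Finset.sum_nonneg fun _ _ => sq_nonneg _),
      Finset.mul_sum]
    refine Finset.sum_le_sum fun p _ => ?_
    refine (hW.osc s t η hη h1 (S.α s (x p))).trans ?_
    rw [mul_pow]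
    refine mul_le_mul_of_nonneg_left ?_ (sq_nonneg _)
    exact pow_le_pow_left₀ (norm_nonneg _) (S.norm_le s (x p)) 2
  · rw [Fintype.sum_prod_type_right]
    have h3 : ∀ w, star (S.α t (c w)) * S.α t (c w) = S.α t (star (c w) * c w) := fun w => by
      rw [map_mul, map_star]
    have h4 : ∑ w, star (S.α t (c w)) * S.α t (c w) = 1 := by
      rw [Finset.sum_congr rfl fun w _ => h3 w, ← map_sum, hW.sum_star_mul, map_one]
    have h5 : ∀ p, ∑ w, ‖T.ι (S.α t (c w) * (S.α s (x p) - S.α t (x p)))‖ ^ 2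
        = ‖T.ι (S.α s (x p) - S.α t (x p))‖ ^ 2 := fun p =>
      TrAlg.sum_words (T := T) (c := fun w => S.α t (c w)) h4 _
    exact (Finset.sum_le_sum fun p _ => le_of_eq (h5 p)).trans h2

end

section
variable {A : Type u} [CStarAlgebra A] [PartialOrder A] [StarOrderedRing A]
  {K : Type v} [NormedAddCommGroup K] [InnerProductSpace ℂ K] [CompleteSpace K]
  {G : Type w} [Group G] [TopologicalSpace G] {T : TrAlg A K} (S : TrAct G T)
  [IsTopologicalGroup G] [SecondCountableTopology G] [MeasurableSpace G] [BorelSpace G]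
  {μ : Measure G} {X : Type} [Fintype X] [DecidableEq X] [Nonempty X]

/-- the Gram matrix of the sampled columns is close to the averaged Gram matrix -/
theorem TrAct.cells_gram {F : G → ℝ} (hF : Integrable F μ)
    (hF0 : ∀ t, 0 ≤ F t) (hF1 : ∫ t, F t ∂μ = 1) {C : Set G} (hFC : ∀ t, t ∉ C → F t = 0)
    {I : Type} [Fintype I] {κ : G → I} {s0 : I → G} {w : I → ℝ} (hcl : IsCells μ F C κ s0 w)
    (s : X → G) (ζ : X → ℝ) (i : I → X) (hi : Function.Injective i) (hs : ∀ a, s (i a) = s0 a)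
    (hζ : ∀ a, ζ (i a) ^ 2 = w a) (hζ' : ∀ b, (∀ a, i a ≠ b) → ζ b = 0) (c0 : X)
    {Λ : Type} [Fintype Λ] (e : Λ → X) (he : Function.Injective e) (z : Λ → A) {h : Mt X A}
    (hh : (T.ampT X).ι h = ∫ t, F t • (T.ampT X).ι ((S.ampT X).α t
      (star (S.row c0 e z) * S.row c0 e z)) ∂μ) {ω : ℝ} (hω0 : 0 ≤ ω)
    (hω : ∀ t ∈ C, ∑ l, ‖T.ι (S.α t (z l) - S.α (s0 (κ t)) (z l))‖ ^ 2 ≤ ω ^ 2) :
    T.L1 (star (S.col s ζ e z) * S.col s ζ e z - h)
      (2 * Real.sqrt (∑ l, ‖T.ι (z l)‖ ^ 2) * ω) := by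
  let _ : PartialOrder (Mt X A) := CStarAlgebra.spectralOrder _
  let _ : StarOrderedRing (Mt X A) := CStarAlgebra.spectralOrderedRing _
  have hm := TrAlg.card_pos' (I := X)
  set m : ℝ := (Fintype.card X : ℝ) with hmd
  have hm2 : 0 < Real.sqrt m := Real.sqrt_pos.2 hm
  have hmm : Real.sqrt m * Real.sqrt m = m := Real.mul_self_sqrt hm.le
  set Y := S.row c0 e z with hY
  -- norms in the amplification
  have hn : ∀ M : Mt X A, ‖(T.ampT X).ι M‖ = (Real.sqrt m)⁻¹ * Real.sqrt (T.hs M) := by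
    intro M
    rw [T.hs_eq, Real.sqrt_mul hm.le, Real.sqrt_sq (norm_nonneg _), ← mul_assoc,
      inv_mul_cancel₀ hm2.ne', one_mul]
  have e1 : star (S.col s ζ e z) * S.col s ζ e z
      = ∑ a, ((w a : ℝ) : ℂ) • (S.ampT X).α (s0 a) (star Y * Y) := by
    rw [S.col_gram s ζ c0 e he z z, TrAct.sum_emb i hi
      (fun c => ((ζ c ^ 2 : ℝ) : ℂ) • (S.ampT X).α (s c) (star (S.row c0 e z) * S.row c0 e z))
      fun b hb => by
        rw [hζ' b hb]
        simp]
    refine Finset.sum_congr rfl fun a _ => ?_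
    rw [hζ, hs]
  rw [e1]
  have h1 := fun y => (S.ampT X).cells_compare hF hF0 hF1 hFC hcl hh
    (ω := (Real.sqrt m)⁻¹ * ω) (fun t ht => by
      rw [hn, hY, S.row_α c0 e he, S.row_α c0 e he, S.row_sub c0 e he, S.hs_row c0 e he]
      refine mul_le_mul_of_nonneg_left ?_ (by positivity)
      rw [← Real.sqrt_sq hω0]
      exact Real.sqrt_le_sqrt (hω t ht)) y
  refine (TrAlg.L1_of_ampT (T := T) _ h1 (by positivity)).mono T (le_of_eq ?_)
  rw [hn, hY, S.hs_row c0 e he, ← hmd]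
  have h2 : (Real.sqrt m)⁻¹ * (Real.sqrt m)⁻¹ * m = 1 := by
    rw [← mul_inv, hmm, inv_mul_cancel₀ hm.ne']
  linear_combination (2 * Real.sqrt (∑ l, ‖T.ι (z l)‖ ^ 2) * ω) * h2

end

end Pool.Agent.AbCoc
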