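import Pool.Agent.Lib_MP_418a80_nm.RelC5
import Pool.Agent.Lib_MP_418a80_hyp.HZ

/-!
# REL, part C6: near-invariant families for the group from near-invariant families for `N`
-/

set_option autoImplicit false
set_option linter.unusedVariables false
set_option linter.unusedSectionVars false

open MeasureTheory Topology Filter
open scoped Pointwise

namespace Pool.Agent.AbCoc

universe u v w

section
variable {A : Type u} [CStarAlgebra A] [PartialOrder A] [StarOrderedRing A]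
  {K : Type v} [NormedAddCommGroup K] [InnerProductSpace ℂ K]
  {G : Type w} [Group G] [TopologicalSpace G] {T : TrAlg A K} (S : TrAct G T)

theorem rel_smul_nonneg {x : A} (hx : 0 ≤ x) {c : ℝ} (hc : 0 ≤ c) : 0 ≤ ((c : ℝ) : ℂ) • x := by
  obtain ⟨y, rfl⟩ := CStarAlgebra.nonneg_iff_eq_star_mul_self.1 hx
  have h1 : ((c : ℝ) : ℂ) • (star y * y)
      = star (((Real.sqrt c : ℝ) : ℂ) • y) * (((Real.sqrt c : ℝ) : ℂ) • y) := by
    rw [star_smul, smul_mul_smul_comm, Complex.star_def, Complex.conj_ofReal,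
      ← Complex.ofReal_mul, Real.mul_self_sqrt hc]
  rw [h1]
  exact star_mul_self_nonneg _

/-- displacement of a family along `g v n` -/
theorem TrAct.rel_displ {P : Type} [Fintype P] (x : P → A) (g v n : G) {κ : ℝ} (hκ : 0 ≤ κ)
    (h1 : ∑ p, ‖T.ι (S.α v (x p) - x p)‖ ^ 2 ≤ κ / 4)
    (h2 : ∑ p, ‖T.ι (S.α n (x p) - x p)‖ ^ 2 ≤ κ / 4) :
    ∑ p, ‖T.ι (S.α (g * v * n) (x p) - S.α g (x p))‖ ^ 2 ≤ κ := by
  have h3 : ∀ p, ‖T.ι (S.α (g * v * n) (x p) - S.α g (x p))‖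
      = ‖T.ι (S.α v (S.α n (x p) - x p)) + T.ι (S.α v (x p) - x p)‖ := by
    intro p
    rw [← map_add, S.mul, S.mul, ← map_sub, S.norm_map, map_sub (S.α v)]
    congr 2
    abel
  have h4 : (Real.sqrt κ / 2) ^ 2 = κ / 4 := by
    rw [div_pow, Real.sq_sqrt hκ]
    norm_num
  have h5 := rel_sum_norm_sq_add Finset.univ K (fun p => T.ι (S.α v (S.α n (x p) - x p)))
    (fun p => T.ι (S.α v (x p) - x p)) (Real.sqrt κ / 2) (Real.sqrt κ / 2) (by positivity)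
    (by positivity) (by
      rw [h4]
      simp only [S.norm_map]
      exact h2) (by rw [h4]; exact h1)
  simp only [h3]
  refine h5.trans (le_of_eq ?_)
  rw [add_halves, Real.sq_sqrt hκ]

theorem TrAct.ker_pos {X : Type} [Fintype X] [DecidableEq X] (s : X → G) (ζ : X → ℝ) {P : Type}
    [Fintype P] (e : P → X) (he : Function.Injective e) (x : P → A) {c : ℝ} (hc : 0 ≤ c) :
    ∃ z : Mt X A, ((c : ℝ) : ℂ) • S.ker s ζ x = star z * z := by
  refine ⟨((Real.sqrt c : ℝ) : ℂ) • star (S.col s ζ e x), ?_⟩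
  rw [star_smul, star_star, smul_mul_smul_comm, S.col_mul_star s ζ e he, Complex.star_def,
    Complex.conj_ofReal, ← Complex.ofReal_mul, Real.mul_self_sqrt hc]

theorem TrAct.ker_diag_le {X : Type} [Fintype X] [DecidableEq X] (s : X → G) (ζ : X → ℝ) {P : Type}
    [Fintype P] (x : P → A) {c : ℝ} (hc : 0 < c)
    (hx : ∑ p, x p * star (x p) ≤ ((c : ℝ) : ℂ) • (1 : A)) (a : X) :
    (((c⁻¹ : ℝ) : ℂ) • S.ker s ζ x) a a ≤ ((ζ a ^ 2 : ℝ) : ℂ) • (1 : A) := by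
  have h0 : (((c⁻¹ : ℝ) : ℂ) • S.ker s ζ x) a a = ((c⁻¹ : ℝ) : ℂ) • S.ker s ζ x a a := rfl
  rw [h0, S.ker_add_star, ← sub_nonneg]
  have h1 : 0 ≤ S.α (s a) (((c : ℝ) : ℂ) • (1 : A) - ∑ p, x p * star (x p)) := by
    obtain ⟨y, hy⟩ := CStarAlgebra.nonneg_iff_eq_star_mul_self.1 (sub_nonneg.2 hx)
    rw [hy, map_mul, map_star]
    exact star_mul_self_nonneg _
  have h2 := rel_smul_nonneg h1 (c := c⁻¹ * ζ a ^ 2) (by positivity)
  refine h2.trans (le_of_eq ?_)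
  rw [map_sub, map_smul, map_one, smul_sub, smul_smul, smul_smul, ← Complex.ofReal_mul,
    ← Complex.ofReal_mul]
  congr 2
  rw [mul_assoc, mul_comm (ζ a ^ 2), ← mul_assoc, inv_mul_cancel₀ hc.ne', one_mul]

end

section
variable {A : Type u} [CStarAlgebra A] [PartialOrder A] [StarOrderedRing A]
  {K : Type v} [NormedAddCommGroup K] [InnerProductSpace ℂ K] [CompleteSpace K]
  {G : Type w} [Group G] [TopologicalSpace G] {T : TrAlg A K} (S : TrAct G T)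
  [IsTopologicalGroup G] [SecondCountableTopology G] [MeasurableSpace G] [BorelSpace G]
  (μ : Measure G)

/-- the step from `N` to `G`, with the sample space given -/
theorem TrAct.rel_stepX [μ.IsMulLeftInvariant] {F : G → ℝ}
    (hF : Integrable F μ) (hF0 : ∀ t, 0 ≤ F t) (hF1 : ∫ t, F t ∂μ = 1) {CF : Set G}
    (hFC : ∀ t, t ∉ CF → F t = 0) {J : Type} [Fintype J] (v : J → A) (r : A)
    (hrs : star r = r) (hr : r * r = ∑ j, star (v j) * v j) {C : ℝ} (hC : 0 < C)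
    (hd1 : ∀ z : A, ∑ j, ‖T.ι (v j * z)‖ ^ 2 ≤ C * ‖T.ι z‖ ^ 2)
    (hd2 : ∀ z : A, ∑ j, ‖T.ι (z * v j)‖ ^ 2 ≤ C * ‖T.ι z‖ ^ 2)
    {e1 e2 : A} (he1 : S.Fixed e1) (he2 : S.Fixed e2) (hs1 : star e1 = e1) (hs2 : star e2 = e2)
    (hv1 : ∀ j, star (v j) * e1 = star (v j)) (hr2 : r * e2 = r) {M : ℝ} (hM0 : 0 < M)
    (hM : ∑ j, ‖T.ι (v j)‖ ^ 2 = M)
    {L : Type} [Fintype L] (h : L → G → ℝ) (g : L → G) (hh3 : ∀ l s, |h l s| ≤ 1)
    (hh4 : ∀ s ∈ CF, ∑ l, h l s ^ 2 = 1)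
    (hh5 : ∀ l, ∀ s ∈ CF, h l s ≠ 0 →
      ∑ j, ‖T.ι (S.α s (v j) - S.α (g l) (v j))‖ ^ 2 ≤ M / 256)
    (hh6 : ∀ l, ∀ s ∈ CF, h l s ≠ 0 → ‖T.ι (S.α s r - S.α (g l) r)‖ ^ 2 ≤ M / 256)
    {Ju : Type} [Fintype Ju] [Nonempty Ju] (u : Ju → A) (hu1 : ∀ j, star (u j) * u j = 1)
    {εc : ℝ} (hεc : 2 * ((Fintype.card L : ℝ) * (C * εc)) ≤ M / 4)
    {δ η ω : ℝ} (hδ : 0 ≤ δ) (hη : 0 ≤ η) (hω : 0 ≤ ω) (hω' : 2 * Real.sqrt (2 * M) * ω ≤ M / 4)
    {n : ℕ} (hωs : δ * Real.sqrt (∑ p, ‖relx v r p‖ ^ 2)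
      + Real.sqrt (Fintype.card (J ⊕ Unit)) * η ≤ ω)
    {I : Type} [Fintype I] {κ : G → I} {s0 : I → G} {w0 : I → ℝ} (hcl : IsCells μ F CF κ s0 w0)
    (hΦc : ∀ t ∈ CF, ∀ j, ‖T.ι (S.α t (u j)) - T.ι (S.α (s0 (κ t)) (u j))‖ ≤ δ / n)
    (hΨc : ∀ t ∈ CF, ∀ p, ‖T.ι (S.α t (relx v r p)) - T.ι (S.α (s0 (κ t)) (relx v r p))‖ ≤ η)
    (W : ℕ → Type) [∀ k, Fintype (W k)] [∀ k, Nonempty (W k)] (c : (k : ℕ) → W k → A)
    (hW : ∀ k, S.IsWords u k (c k))
    {X : Type} [Fintype X] [DecidableEq X] [Nonempty X] (s : X → G) (ζ : X → ℝ) (i : I → X)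
    (hi : Function.Injective i) (hs : ∀ a, s (i a) = s0 a) (hζ : ∀ a, ζ (i a) ^ 2 = w0 a)
    (hζ' : ∀ b, (∀ a, i a ≠ b) → ζ b = 0)
    (e : (k : ℕ) → k ≤ n → W k × (J ⊕ Unit) → X) (he : ∀ k hk, Function.Injective (e k hk))
    (hX : ∀ f0 f1 : Mt X A, (∃ z, f0 = star z * z) → (∃ z, f1 = star z * z) →
      (∀ c, f0 c c ≤ ((ζ c ^ 2 : ℝ) : ℂ) • (1 : A)) →
      (∀ c, f1 c c ≤ ((ζ c ^ 2 : ℝ) : ℂ) • (1 : A)) →
      ∃ k, k ≤ n ∧
        (∀ l, T.L1 (sdg X (fun c => h l (s c)) * (S.wk s u)^[k] f0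
          - (S.wk s u)^[k] f0 * sdg X (fun c => h l (s c))) εc) ∧
        (∀ l, T.L1 (sdg X (fun c => h l (s c)) * (S.wk s u)^[k] f1
          - (S.wk s u)^[k] f1 * sdg X (fun c => h l (s c))) εc)) :
    ∃ (R : Type) (_ : Fintype R) (a : R → A), (∀ i, e1 * a i * e2 = a i) ∧
      M / 32 ≤ ∑ i, ‖T.ι (a i)‖ ^ 2 ∧
      (∀ g, ∑ i, ‖T.ι (S.α g (a i) - a i)‖ ^ 2 ≤ 2 * M * ∫ t, |F (g⁻¹ * t) - F t| ∂μ) ∧
      (∀ z : A, ∑ i, ‖T.ι (a i * z)‖ ^ 2 ≤ C * ‖T.ι z‖ ^ 2) ∧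
      (∀ z : A, ∑ i, ‖T.ι (z * a i)‖ ^ 2 ≤ C * ‖T.ι z‖ ^ 2) := by
  classical
  have hC' : (C : ℂ) ≠ 0 := Complex.ofReal_ne_zero.2 hC.ne'
  have hζsum : ∑ b, ζ b ^ 2 = 1 := by
    rw [TrAct.sum_emb i hi (fun b => ζ b ^ 2) fun b hb => by rw [hζ' b hb]; norm_num,
      Finset.sum_congr rfl fun a _ => hζ a, hcl.w_sum, hF1]
  have hmem : ∀ b, ζ b ≠ 0 → s b ∈ CF := by
    intro b hb
    by_cases h1 : ∃ a, i a = b
    · obtain ⟨a, rfl⟩ := h1
      rw [hs]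
      refine hcl.mem a ?_
      rw [← hζ]
      exact pow_ne_zero 2 hb
    · push Not at h1
      exact absurd (hζ' b h1) hb
  -- the families
  have hxy : ∑ p, relx1 v p * star (relx1 v p) = ∑ p, relx2 (J := J) r p * star (relx2 (J := J) r p) := by
    rw [Fintype.sum_sum_type, Fintype.sum_sum_type]
    simp only [relx1, relx2, Sum.elim_inl, Sum.elim_inr, star_star, star_zero, mul_zero,
      Finset.sum_const_zero, add_zero, zero_add, Finset.univ_unique, Finset.sum_const,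
      Finset.card_singleton, one_smul, hrs, hr]
  have hle1 : ∑ p, relx1 v p * star (relx1 v p) ≤ ((C : ℝ) : ℂ) • (1 : A) := by
    rw [Fintype.sum_sum_type]
    simp only [relx1, Sum.elim_inl, Sum.elim_inr, star_star, mul_zero, star_zero,
      Finset.sum_const_zero, add_zero]
    exact T.sum_le_of_dom v hd1
  have hle2 : ∑ p, relx2 (J := J) r p * star (relx2 (J := J) r p) ≤ ((C : ℝ) : ℂ) • (1 : A) := by
    rw [← hxy]
    exact hle1
  have hMx : ∑ p, ‖T.ι (relx1 v p)‖ ^ 2 = M := by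
    rw [Fintype.sum_sum_type, ← hM]
    simp [relx1, T.norm_star]
  obtain ⟨w00⟩ : Nonempty (W 0) := inferInstance
  set e0 : J ⊕ Unit → X := fun p => e 0 (Nat.zero_le _) (w00, p) with he0
  have he0i : Function.Injective e0 := by
    intro p q hpq
    have := he 0 (Nat.zero_le _) hpq
    simpa using this
  obtain ⟨k, hkn, hk0, hk1⟩ := hX (((C⁻¹ : ℝ) : ℂ) • S.ker s ζ (relx1 v))
    (((C⁻¹ : ℝ) : ℂ) • S.ker s ζ (relx2 (J := J) r))
    (S.ker_pos s ζ e0 he0i _ (by positivity)) (S.ker_pos s ζ e0 he0i _ (by positivity))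
    (S.ker_diag_le s ζ _ hC hle1) (S.ker_diag_le s ζ _ hC hle2)
  have hunscale : ∀ (K0 : Mt X A) (l : L), T.L1 (sdg X (fun c => h l (s c))
      * (S.wk s u)^[k] (((C⁻¹ : ℝ) : ℂ) • K0)
      - (S.wk s u)^[k] (((C⁻¹ : ℝ) : ℂ) • K0) * sdg X (fun c => h l (s c))) εc →
      T.L1 (sdg X (fun c => h l (s c)) * (S.wk s u)^[k] K0
        - (S.wk s u)^[k] K0 * sdg X (fun c => h l (s c))) (C * εc) := by
    intro K0 l h1
    have h2 := h1.smul C hC.le
    rw [S.wk_smul, mul_smul_comm, smul_mul_assoc, ← smul_sub, smul_smul] at h2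
    have h3 : ((C : ℝ) : ℂ) * ((C⁻¹ : ℝ) : ℂ) = 1 := by
      rw [← Complex.ofReal_mul, mul_inv_cancel₀ hC.ne', Complex.ofReal_one]
    rwa [h3, one_smul] at h2
  have hcl' := S.kernels_close s ζ u hu1 k (c k) (hW k) (fun l b => h l (s b))
    (fun l b => hh3 l _) (fun b hb => hh4 _ (hmem b hb)) e0 he0i (relx1 v) (relx2 (J := J) r) hxy g
    (κ := M / 256) (ε := C * εc) (by positivity) (fun l b hb => by
      have h1 := left_ne_zero_of_mul hb
      have h2 := hmem b (right_ne_zero_of_mul hb)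
      rw [Fintype.sum_sum_type]
      refine le_trans (le_of_eq ?_) (hh5 l (s b) h2 h1)
      simp only [relx1, Sum.elim_inl, Sum.elim_inr, map_zero, sub_zero, norm_zero]
      have h3 : ∀ j, ‖T.ι (S.α (s b) (star (v j)) - S.α (g l) (star (v j)))‖
          = ‖T.ι (S.α (s b) (v j) - S.α (g l) (v j))‖ := by
        intro j
        rw [map_star, map_star, ← star_sub, T.norm_star]
      simp only [h3]
      simp)
    (fun l b hb => by
      have h1 := left_ne_zero_of_mul hb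
      have h2 := hmem b (right_ne_zero_of_mul hb)
      rw [Fintype.sum_sum_type]
      refine le_trans (le_of_eq ?_) (hh6 l (s b) h2 h1)
      simp [relx2])
    (fun l => hunscale _ l (hk0 l)) (fun l => hunscale _ l (hk1 l))
  rw [← (hW k).ker X s ζ, ← (hW k).ker X s ζ] at hcl'
  have hL : T.L1 (S.ker s ζ (fun q : W k × (J ⊕ Unit) => c k q.1 * relx1 v q.2)
      - S.ker s ζ (fun q : W k × (J ⊕ Unit) => c k q.1 * relx2 r q.2)) (M / 2) := by
    refine hcl'.mono T ?_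
    rw [hMx, hζsum, mul_one]
    have h1 : Real.sqrt (M / 256 * M) = M / 16 := by
      rw [show M / 256 * M = (M / 16) ^ 2 by ring, Real.sqrt_sq (by positivity)]
    rw [h1]
    linarith
  -- the averaged Gram matrix
  obtain ⟨c0⟩ : Nonempty X := inferInstance
  obtain ⟨hm, km, hhm, hkm, hkms, hkmh, hkmx⟩ := (S.ampT X).exists_avg_sqrt μ hF hF0 hF1
    (S.row c0 (e k hkn) fun q : W k × (J ⊕ Unit) => c k q.1 * relx v r q.2)
  refine S.rel_core μ hF hF0 hF1 s ζ hζsum c0 (e k hkn) (he k hkn) (c k) (hW k).sum_star_mul v r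
    hrs hr hd1 hd2 he1 he2 hs1 hs2 hv1 hr2 hM0 hM hL hhm hkm hkms hkmh hkmx ?_
  have hMr : ‖T.ι r‖ ^ 2 = M := by rw [TrAlg.norm_root_sq v hrs hr, hM]
  have hM3 : ∑ q : W k × (J ⊕ Unit), ‖T.ι (c k q.1 * relx v r q.2)‖ ^ 2 = 2 * M := by
    rw [Fintype.sum_prod_type_right]
    rw [Finset.sum_congr rfl fun p _ => TrAlg.sum_words (T := T) (hW k).sum_star_mul (relx v r p),
      Fintype.sum_sum_type]
    simp only [relx, Sum.elim_inl, Sum.elim_inr]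
    simp only [T.norm_star]
    simp only [Finset.univ_unique, Finset.sum_const, Finset.card_singleton, one_smul, hM, hMr]
    ring
  have hgram := S.cells_gram hF hF0 hF1 hFC hcl s ζ i hi hs hζ hζ' c0 (e k hkn) (he k hkn)
    (fun q : W k × (J ⊕ Unit) => c k q.1 * relx v r q.2) hhm hω (fun t ht => by
      have hn0 : 0 ≤ δ / (n : ℝ) := div_nonneg hδ (Nat.cast_nonneg _)
      have h1 := S.rel_words_osc (hW k) (relx v r) t (s0 (κ t)) hn0
        (η' := Real.sqrt (Fintype.card (J ⊕ Unit)) * η) (by positivity)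
        (fun j => by rw [map_sub]; exact hΦc t ht j) (by
          rw [mul_pow, Real.sq_sqrt (Nat.cast_nonneg _)]
          have h5 : ∀ p, ‖T.ι (S.α t (relx v r p) - S.α (s0 (κ t)) (relx v r p))‖ ^ 2 ≤ η ^ 2 := by
            intro p
            rw [map_sub]
            exact pow_le_pow_left₀ (norm_nonneg _) (hΨc t ht p) 2
          refine (Finset.sum_le_sum fun p _ => h5 p).trans (le_of_eq ?_)
          rw [Finset.sum_const, Finset.card_univ, nsmul_eq_mul])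
      refine h1.trans (pow_le_pow_left₀ (by positivity) ?_ 2)
      refine le_trans ?_ hωs
      have h2 : (k : ℝ) * (δ / n) ≤ δ := by
        rcases Nat.eq_zero_or_pos n with h0 | h0
        · have : k = 0 := by omega
          rw [this]
          simpa using hδ
        · have h3 : (0 : ℝ) < n := Nat.cast_pos.2 h0
          have h4 : (k : ℝ) ≤ n := Nat.cast_le.2 hkn
          rw [← mul_div_assoc, div_le_iff₀ h3]
          nlinarith
      have h3 := mul_le_mul_of_nonneg_right h2 (Real.sqrt_nonneg (∑ p, ‖relx v r p‖ ^ 2))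
      linarith)
  rw [hM3] at hgram
  exact hgram.mono T hω'

/-- the step from `N` to `G` for one function `F` -/
theorem TrAct.rel_step [μ.IsMulLeftInvariant] {N : Set G} (hcomb : S.Comb N) {F : G → ℝ}
    (hF : Integrable F μ) (hF0 : ∀ t, 0 ≤ F t) (hF1 : ∫ t, F t ∂μ = 1) {CF : Set G}
    (hCF : IsCompact CF) (hFC : ∀ t, t ∉ CF → F t = 0) {J : Type} [Fintype J] (v : J → A) (r : A)
    (hr0 : ∃ y, r = star y * y)
    (hrs : star r = r) (hr : r * r = ∑ j, star (v j) * v j) {C : ℝ} (hC : 0 < C)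
    (hd1 : ∀ z : A, ∑ j, ‖T.ι (v j * z)‖ ^ 2 ≤ C * ‖T.ι z‖ ^ 2)
    (hd2 : ∀ z : A, ∑ j, ‖T.ι (z * v j)‖ ^ 2 ≤ C * ‖T.ι z‖ ^ 2)
    {e1 e2 : A} (he1 : S.Fixed e1) (he2 : S.Fixed e2) (hs1 : star e1 = e1) (hs2 : star e2 = e2)
    (hv1 : ∀ j, star (v j) * e1 = star (v j)) (hr2 : r * e2 = r) {M : ℝ} (hM0 : 0 < M)
    (hM : ∑ j, ‖T.ι (v j)‖ ^ 2 = M)
    {L : Type} [Fintype L] (h : L → G → ℝ) (g : L → G) (hh1 : ∀ l, Continuous (h l))
    (hh2 : ∀ l s n, n ∈ N → h l (s * n) = h l s) (hh3 : ∀ l s, |h l s| ≤ 1)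
    (hh4 : ∀ s ∈ CF, ∑ l, h l s ^ 2 = 1)
    (hh5 : ∀ l, ∀ s ∈ CF, h l s ≠ 0 →
      ∑ j, ‖T.ι (S.α s (v j) - S.α (g l) (v j))‖ ^ 2 ≤ M / 256)
    (hh6 : ∀ l, ∀ s ∈ CF, h l s ≠ 0 → ‖T.ι (S.α s r - S.α (g l) r)‖ ^ 2 ≤ M / 256) :
    ∃ (R : Type) (_ : Fintype R) (a : R → A), (∀ i, e1 * a i * e2 = a i) ∧
      M / 32 ≤ ∑ i, ‖T.ι (a i)‖ ^ 2 ∧
      (∀ g, ∑ i, ‖T.ι (S.α g (a i) - a i)‖ ^ 2 ≤ 2 * M * ∫ t, |F (g⁻¹ * t) - F t| ∂μ) ∧
      (∀ z : A, ∑ i, ‖T.ι (a i * z)‖ ^ 2 ≤ C * ‖T.ι z‖ ^ 2) ∧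
      (∀ z : A, ∑ i, ‖T.ι (z * a i)‖ ^ 2 ≤ C * ‖T.ι z‖ ^ 2) := by
  classical
  -- the letters
  set εc : ℝ := M / (16 * ((Fintype.card L : ℝ) + 1) * C) with hεc
  have hεc0 : 0 < εc := by positivity
  obtain ⟨Ju, _, _, u, hu1, hu2, hΦ, δ', hδ', n0, hn0⟩ := hcomb CF hCF L h hh1 hh2 hh3 εc hεc0
  -- parameters of the cells
  set x : J ⊕ Unit → A := relx v r with hx
  set ω : ℝ := M / (8 * Real.sqrt (2 * M)) with hω
  have hsM : 0 < Real.sqrt (2 * M) := Real.sqrt_pos.2 (by positivity)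
  have hω0 : 0 < ω := by positivity
  set B : ℝ := Real.sqrt (∑ p, ‖x p‖ ^ 2) with hB
  have hB0 : 0 ≤ B := Real.sqrt_nonneg _
  set δ : ℝ := min δ' (ω / (2 * (B + 1))) with hδ
  have hδ0 : 0 < δ := lt_min hδ' (by positivity)
  set η : ℝ := ω / (2 * ((Fintype.card (J ⊕ Unit) : ℝ) + 1)) with hη
  have hη0 : 0 < η := by positivity
  obtain ⟨n1, hn1⟩ := oe_exists_cells (Ψ := fun (p : J ⊕ Unit) s => T.ι (S.α s (x p))) hF hF0 hCF
    hFC hΦ (fun p => S.cont (x p)) hδ0 hη0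
  set n := max n0 n1 with hn
  obtain ⟨I, _, _, _, κc, s0, w0, hcl, hlog, hΦc, hΨc⟩ := hn1 n (le_max_right _ _)
  choose W hWf hWd hWn c hW using fun k => S.exists_words u hu1 hu2 k
  have hεc' : 2 * ((Fintype.card L : ℝ) * (C * εc)) ≤ M / 4 := by
    have h1 : (0 : ℝ) ≤ (Fintype.card L : ℝ) := Nat.cast_nonneg _
    have h2 : 2 * ((Fintype.card L : ℝ) * (C * εc))
        = (Fintype.card L : ℝ) / ((Fintype.card L : ℝ) + 1) * (M / 8) := by
      rw [hεc]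
      field_simp
      ring
    rw [h2]
    have h3 : (Fintype.card L : ℝ) / ((Fintype.card L : ℝ) + 1) ≤ 1 := by
      rw [div_le_one (by positivity)]
      linarith
    nlinarith
  have hω' : 2 * Real.sqrt (2 * M) * ω ≤ M / 4 := by
    rw [hω]
    have h1 : 2 * Real.sqrt (2 * M) * (M / (8 * Real.sqrt (2 * M))) = M / 4 := by
      field_simp
      ring
    exact h1.le
  have hcard : (0 : ℝ) ≤ (Fintype.card (J ⊕ Unit) : ℝ) := Nat.cast_nonneg _
  have hωs : δ * Real.sqrt (∑ p, ‖relx v r p‖ ^ 2) + Real.sqrt (Fintype.card (J ⊕ Unit)) * η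
      ≤ ω := by
    have h1 : δ * B ≤ ω / 2 := by
      have h2 : δ ≤ ω / (2 * (B + 1)) := min_le_right _ _
      have h3 : ω / (2 * (B + 1)) * B ≤ ω / 2 := by
        rw [div_mul_eq_mul_div, div_le_div_iff₀ (by positivity) (by positivity)]
        nlinarith
      exact (mul_le_mul_of_nonneg_right h2 hB0).trans h3
    have h2 : Real.sqrt (Fintype.card (J ⊕ Unit)) * η ≤ ω / 2 := by
      have h3 : Real.sqrt (Fintype.card (J ⊕ Unit)) ≤ (Fintype.card (J ⊕ Unit) : ℝ) + 1 := by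
        rw [Real.sqrt_le_left (by positivity)]
        nlinarith
      refine (mul_le_mul_of_nonneg_right h3 hη0.le).trans (le_of_eq ?_)
      rw [hη]
      field_simp
    linarith
  have hn0' := hn0 n (le_max_left _ _)
  obtain ⟨i00⟩ : Nonempty I := inferInstance
  have hXn : Nonempty (I ⊕ (Σ k : Fin (n + 1), W k × (J ⊕ Unit))) := ⟨Sum.inl i00⟩
  refine S.rel_stepX μ hF hF0 hF1 hFC v r hrs hr hC hd1 hd2 he1 he2 hs1 hs2 hv1 hr2 hM0 hM h g hh3
    hh4 hh5 hh6 u hu1 hεc' hδ0.le hη0.le hω0.le hω' hωs hcl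
    (fun t ht j => hΦc t ht j) (fun t ht p => hΨc t ht p) W c hW
    (X := I ⊕ (Σ k : Fin (n + 1), W k × (J ⊕ Unit)))
    (Sum.elim s0 fun _ => 1) (Sum.elim (fun a => Real.sqrt (w0 a)) fun _ => 0) Sum.inl
    Sum.inl_injective (fun a => rfl) (fun a => by
      rw [Sum.elim_inl, Real.sq_sqrt (hcl.w_nonneg a)]) (fun b hb => by
      cases b with
      | inl a => exact absurd rfl (hb a)
      | inr b => rfl)
    (fun k hk q => Sum.inr ⟨⟨k, Nat.lt_succ_of_le hk⟩, q⟩) (fun k hk a b hab => by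
      simpa using hab) ?_
  intro f0 f1 hf0 hf1 hd0 hd1'
  refine hn0' _ _ _ (fun b => sq_nonneg _) ?_ ?_ ?_ f0 f1 hf0 hf1 hd0 hd1'
  · rw [Fintype.sum_sum_type]
    simp only [Sum.elim_inl, Sum.elim_inr]
    have h1 : ∀ a, Real.sqrt (w0 a) ^ 2 = w0 a := fun a => Real.sq_sqrt (hcl.w_nonneg a)
    rw [Finset.sum_congr rfl fun a _ => h1 a, hcl.w_sum, hF1]
    norm_num
  · intro b hb
    cases b with
    | inl a =>
      refine hcl.mem a fun h0 => hb ?_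
      rw [Sum.elim_inl, h0, Real.sqrt_zero]
      norm_num
    | inr b =>
      exfalso
      apply hb
      simp
  · have h1 : Nat.card {b : I ⊕ (Σ k : Fin (n + 1), W k × (J ⊕ Unit)) //
        (Sum.elim (fun a => Real.sqrt (w0 a)) (fun _ => (0 : ℝ)) b) ^ 2 ≠ 0} ≤ Fintype.card I := by
      rw [← Nat.card_eq_fintype_card]
      refine Nat.card_le_card_of_injective (fun b => match b with
        | ⟨Sum.inl a, _⟩ => a
        | ⟨Sum.inr b, hb⟩ => i00) ?_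
      rintro ⟨a | a, ha⟩ ⟨b | b, hb⟩ hab
      · simp only at hab
        subst hab
        rfl
      · exact absurd (by simp) hb
      · exact absurd (by simp) ha
      · exact absurd (by simp) ha
    have h2 : Real.log (Nat.card {b : I ⊕ (Σ k : Fin (n + 1), W k × (J ⊕ Unit)) //
        (Sum.elim (fun a => Real.sqrt (w0 a)) (fun _ => (0 : ℝ)) b) ^ 2 ≠ 0})
        ≤ Real.log (Fintype.card I) := by
      rcases Nat.eq_zero_or_pos (Nat.card {b : I ⊕ (Σ k : Fin (n + 1), W k × (J ⊕ Unit)) //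
        (Sum.elim (fun a => Real.sqrt (w0 a)) (fun _ => (0 : ℝ)) b) ^ 2 ≠ 0}) with h0 | h0
      · rw [h0, Nat.cast_zero, Real.log_zero]
        exact Real.log_natCast_nonneg _
      · exact Real.log_le_log (Nat.cast_pos.2 h0) (Nat.cast_le.2 h1)
    refine h2.trans (hlog.trans ?_)
    exact mul_le_mul_of_nonneg_right (min_le_left _ _) (Nat.cast_nonneg _)

end

end Pool.Agent.AbCoc
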